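import Mathlib

set_option autoImplicit false
open Complex Filter Topology Metric

namespace Pool.Agent.Helper76.Pick

/-- Moebius maps of the disc -/
noncomputable def mob (a z : ℂ) : ℂ := (z - a) / (1 - (starRingEnd ℂ) a * z)

lemma one_sub_ne {a z : ℂ} (ha : ‖a‖ < 1) (hz : ‖z‖ < 1) : 1 - (starRingEnd ℂ) a * z ≠ 0 := by
  intro h
  have h1 : (starRingEnd ℂ) a * z = 1 := by linear_combination -h
  have h2 : ‖a‖ * ‖z‖ = 1 := by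
    rw [← Complex.norm_conj a, ← norm_mul, h1, norm_one]
  nlinarith [norm_nonneg a, norm_nonneg z]

lemma mob_id {a z : ℂ} (ha : ‖a‖ < 1) (hz : ‖z‖ < 1) :
    1 - ‖mob a z‖ ^ 2 = (1 - ‖a‖ ^ 2) * (1 - ‖z‖ ^ 2) / ‖1 - (starRingEnd ℂ) a * z‖ ^ 2 := by
  have h1 := one_sub_ne ha hz
  have h2 : ‖1 - (starRingEnd ℂ) a * z‖ ^ 2 ≠ 0 := by positivity
  unfold mob
  rw [norm_div, div_pow, eq_div_iff h2, sub_mul, div_mul_cancel₀ _ h2]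
  simp only [← Complex.normSq_eq_norm_sq, Complex.normSq_apply, Complex.sub_re, Complex.sub_im,
    Complex.mul_re, Complex.mul_im, Complex.conj_re, Complex.conj_im, Complex.one_re,
    Complex.one_im]
  ring

lemma mob_lt {a z : ℂ} (ha : ‖a‖ < 1) (hz : ‖z‖ < 1) : ‖mob a z‖ < 1 := by
  have h1 := mob_id ha hz
  have h2 : 0 < ‖1 - (starRingEnd ℂ) a * z‖ ^ 2 := by
    have := one_sub_ne ha hz
    positivity
  have h3 : 0 < (1 - ‖a‖ ^ 2) * (1 - ‖z‖ ^ 2) / ‖1 - (starRingEnd ℂ) a * z‖ ^ 2 := by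
    apply div_pos _ h2
    apply mul_pos
    · nlinarith [norm_nonneg a]
    · nlinarith [norm_nonneg z]
  rw [← h1] at h3
  nlinarith [norm_nonneg (mob a z)]

lemma mob_inv {a z : ℂ} (ha : ‖a‖ < 1) (hz : ‖z‖ < 1) : mob (-a) (mob a z) = z := by
  have h1 := one_sub_ne ha hz
  have h2 : 1 - (starRingEnd ℂ) a * a ≠ 0 := one_sub_ne ha ha
  unfold mob
  rw [map_neg]
  have h3 : 1 - -(starRingEnd ℂ) a * ((z - a) / (1 - (starRingEnd ℂ) a * z))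
      = (1 - (starRingEnd ℂ) a * a) / (1 - (starRingEnd ℂ) a * z) := by
    field_simp
    ring
  have h4 : (z - a) / (1 - (starRingEnd ℂ) a * z) - -a
      = z * (1 - (starRingEnd ℂ) a * a) / (1 - (starRingEnd ℂ) a * z) := by
    rw [eq_div_iff h1, sub_mul, div_mul_cancel₀ _ h1]
    ring
  rw [h3, h4, div_div_div_cancel_right₀ h1, mul_div_assoc, div_self h2, mul_one]

lemma mob_self (a : ℂ) : mob a a = 0 := by unfold mob; simp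

lemma mob_zero (a : ℂ) : mob (-a) 0 = a := by unfold mob; simp

lemma mob_diff {a : ℂ} (ha : ‖a‖ < 1) : DifferentiableOn ℂ (mob a) (ball (0 : ℂ) 1) := by
  unfold mob
  intro z hz
  rw [mem_ball_zero_iff] at hz
  have := one_sub_ne ha hz
  apply DifferentiableAt.differentiableWithinAt
  exact (differentiableAt_id.sub_const a).div
    ((differentiableAt_const _).sub (differentiableAt_id.const_mul _)) this

lemma mob_ne {a z : ℂ} (ha : ‖a‖ < 1) (hz : ‖z‖ < 1) (h : z ≠ a) : mob a z ≠ 0 := by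
  unfold mob
  exact div_ne_zero (sub_ne_zero.mpr h) (one_sub_ne ha hz)

section
variable {φ : ℂ → ℂ}

/-- the conjugated map -/
noncomputable def gg (φ : ℂ → ℂ) (w ζ : ℂ) : ℂ := mob (φ w) (φ (mob (-w) ζ))

lemma gg_maps (hm : ∀ z : ℂ, ‖z‖ < 1 → ‖φ z‖ < 1) {w ζ : ℂ} (hw : ‖w‖ < 1) (hζ : ‖ζ‖ < 1) :
    ‖gg φ w ζ‖ < 1 := by
  apply mob_lt (hm w hw)
  apply hm
  apply mob_lt _ hζ
  rwa [norm_neg]

lemma gg_diff (hd : DifferentiableOn ℂ φ (ball (0 : ℂ) 1)) (hm : ∀ z : ℂ, ‖z‖ < 1 → ‖φ z‖ < 1)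
    {w : ℂ} (hw : ‖w‖ < 1) : DifferentiableOn ℂ (gg φ w) (ball (0 : ℂ) 1) := by
  have hw' : ‖-w‖ < 1 := by rwa [norm_neg]
  have h1 : Set.MapsTo (mob (-w)) (ball (0 : ℂ) 1) (ball (0 : ℂ) 1) := by
    intro z hz
    rw [mem_ball_zero_iff] at hz ⊢
    exact mob_lt hw' hz
  have h2 : Set.MapsTo φ (ball (0 : ℂ) 1) (ball (0 : ℂ) 1) := by
    intro z hz
    rw [mem_ball_zero_iff] at hz ⊢
    exact hm z hz
  exact (mob_diff (hm w hw)).comp (hd.comp (mob_diff hw') h1) (h2.comp h1)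

lemma gg_zero (w : ℂ) : gg φ w 0 = 0 := by
  unfold gg
  rw [mob_zero, mob_self]

lemma gg_mob {w z : ℂ} (hw : ‖w‖ < 1) (hz : ‖z‖ < 1) :
    gg φ w (mob w z) = mob (φ w) (φ z) := by
  unfold gg
  rw [mob_inv hw hz]

/-- Schwarz–Pick -/
lemma sp (hd : DifferentiableOn ℂ φ (ball (0 : ℂ) 1)) (hm : ∀ z : ℂ, ‖z‖ < 1 → ‖φ z‖ < 1)
    {w z : ℂ} (hw : ‖w‖ < 1) (hz : ‖z‖ < 1) : ‖mob (φ w) (φ z)‖ ≤ ‖mob w z‖ := by
  rw [← gg_mob hw hz]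
  apply Complex.norm_le_norm_of_mapsTo_ball (gg_diff hd hm hw) _ (gg_zero w) (mob_lt hw hz)
  intro ζ hζ
  rw [mem_ball_zero_iff] at hζ
  rw [mem_closedBall_zero_iff]
  exact (gg_maps hm hw hζ).le

/-- equality case in Schwarz–Pick -/
lemma sp_eq (hd : DifferentiableOn ℂ φ (ball (0 : ℂ) 1)) (hm : ∀ z : ℂ, ‖z‖ < 1 → ‖φ z‖ < 1)
    {w z₀ : ℂ} (hw : ‖w‖ < 1) (hz₀ : ‖z₀‖ < 1) (hne : z₀ ≠ w)
    (heq : ‖mob (φ w) (φ z₀)‖ = ‖mob w z₀‖) :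
    ∀ z : ℂ, ‖z‖ < 1 → ‖mob (φ w) (φ z)‖ = ‖mob w z‖ := by
  have hmaps : Set.MapsTo (gg φ w) (ball (0 : ℂ) 1) (closedBall (gg φ w 0) 1) := by
    intro ζ hζ
    rw [mem_ball_zero_iff] at hζ
    rw [gg_zero, mem_closedBall_zero_iff]
    exact (gg_maps hm hw hζ).le
  have hz1 : mob w z₀ ∈ ball (0 : ℂ) 1 := by
    rw [mem_ball_zero_iff]
    exact mob_lt hw hz₀
  have hne1 := mob_ne hw hz₀ hne
  have h1 : ‖dslope (gg φ w) 0 (mob w z₀)‖ = 1 / 1 := by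
    rw [dslope_of_ne _ hne1, slope_def_field, gg_zero, sub_zero, sub_zero, norm_div,
      gg_mob hw hz₀, heq, div_self (norm_ne_zero_iff.mpr hne1)]
    norm_num
  obtain ⟨C, hC, hg⟩ := Complex.affine_of_mapsTo_ball_of_exists_norm_dslope_eq_div'
    (gg_diff hd hm hw) hmaps ⟨_, hz1, h1⟩
  intro z hz
  have h2 := hg (show mob w z ∈ ball (0 : ℂ) 1 by
    rw [mem_ball_zero_iff]; exact mob_lt hw hz)
  rw [gg_mob hw hz] at h2
  simp only at h2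
  rw [h2, gg_zero, zero_add, sub_zero, smul_eq_mul, norm_mul, hC]
  norm_num

lemma iter_lt (hm : ∀ z : ℂ, ‖z‖ < 1 → ‖φ z‖ < 1) (n : ℕ) (z : ℂ) (hz : ‖z‖ < 1) :
    ‖φ^[n] z‖ < 1 := by
  induction n with
  | zero => simpa using hz
  | succ n ih =>
    rw [Function.iterate_succ_apply']
    exact hm _ ih

/-- orbits go to the boundary, or the map is a hyperbolic isometry -/
theorem orbit_dichotomy (hd : DifferentiableOn ℂ φ (ball (0 : ℂ) 1))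
    (hm : ∀ z : ℂ, ‖z‖ < 1 → ‖φ z‖ < 1) (hfix : ∀ z : ℂ, ‖z‖ < 1 → φ z ≠ z) :
    (∀ z : ℂ, ‖z‖ < 1 → Tendsto (fun n => ‖φ^[n] z‖) atTop (𝓝 1)) ∨
    ∃ q : ℂ, ‖q‖ < 1 ∧ ∀ z : ℂ, ‖z‖ < 1 → ‖mob (φ q) (φ z)‖ = ‖mob q z‖ := by
  by_cases hT : ∀ z : ℂ, ‖z‖ < 1 → Tendsto (fun n => ‖φ^[n] z‖) atTop (𝓝 1)
  · exact Or.inl hT
  right
  push Not at hT
  obtain ⟨z, hz, hnot⟩ := hT
  -- the orbit returns to a compact set
  have h1 : ∃ r : ℝ, r < 1 ∧ ∃ᶠ n in atTop, ‖φ^[n] z‖ ≤ r := by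
    by_contra hcon
    push Not at hcon
    apply hnot
    rw [tendsto_order]
    constructor
    · intro a ha
      exact hcon a ha
    · intro a ha
      filter_upwards with n
      exact (iter_lt hm n z hz).trans ha
  obtain ⟨r, hr, hfreq⟩ := h1
  have h2 : ∃ᶠ n in atTop, φ^[n] z ∈ closedBall (0 : ℂ) r := by
    simpa [mem_closedBall_zero_iff] using hfreq
  obtain ⟨q, hq, ν, hν, hlim⟩ := (isCompact_closedBall (0 : ℂ) r).tendsto_subseq' h2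
  rw [mem_closedBall_zero_iff] at hq
  have hq1 : ‖q‖ < 1 := lt_of_le_of_lt hq hr
  -- the displacement function
  set D : ℂ → ℝ := fun ζ => ‖mob ζ (φ ζ)‖ with hD
  have hDle : ∀ ζ : ℂ, ‖ζ‖ < 1 → D (φ ζ) ≤ D ζ := fun ζ hζ => sp hd hm hζ (hm ζ hζ)
  have hcφ : ∀ ζ : ℂ, ‖ζ‖ < 1 → ContinuousAt φ ζ := by
    intro ζ hζ
    exact (hd.differentiableAt (isOpen_ball.mem_nhds (by rwa [mem_ball_zero_iff]))).continuousAt
  have hDc : ∀ ζ : ℂ, ‖ζ‖ < 1 → ContinuousAt D ζ := by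
    intro ζ hζ
    have h3 := hcφ ζ hζ
    have h4 := one_sub_ne hζ (hm ζ hζ)
    unfold ContinuousAt at h3 ⊢
    simp only [hD, mob]
    apply Tendsto.norm
    apply Tendsto.div
    · exact h3.sub tendsto_id
    · exact tendsto_const_nhds.sub (((Complex.continuous_conj.tendsto ζ).comp tendsto_id).mul h3)
    · exact h4
  have hanti : Antitone (fun n => D (φ^[n] z)) := by
    apply antitone_nat_of_succ_le
    intro n
    rw [Function.iterate_succ_apply']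
    exact hDle _ (iter_lt hm n z hz)
  have hbdd : BddBelow (Set.range (fun n => D (φ^[n] z))) := by
    refine ⟨0, ?_⟩
    rintro _ ⟨n, rfl⟩
    exact norm_nonneg _
  have hconv := tendsto_atTop_ciInf hanti hbdd
  set d := ⨅ n, D (φ^[n] z) with hd'
  have l1 : Tendsto (fun k => D (φ^[ν k] z)) atTop (𝓝 d) := hconv.comp hν.tendsto_atTop
  have l2 : Tendsto (fun k => D (φ^[ν k] z)) atTop (𝓝 (D q)) := (hDc q hq1).tendsto.comp hlim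
  have l3 : Tendsto (fun k => D (φ^[ν k + 1] z)) atTop (𝓝 d) :=
    hconv.comp ((tendsto_add_atTop_nat 1).comp hν.tendsto_atTop)
  have l4 : Tendsto (fun k => D (φ^[ν k + 1] z)) atTop (𝓝 (D (φ q))) := by
    have h3 : Tendsto (fun k => φ (φ^[ν k] z)) atTop (𝓝 (φ q)) := (hcφ q hq1).tendsto.comp hlim
    have h4 := (hDc (φ q) (hm q hq1)).tendsto.comp h3
    refine h4.congr ?_
    intro k
    simp only [Function.comp_apply]
    rw [Function.iterate_succ_apply']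
  have e1 := tendsto_nhds_unique l1 l2
  have e2 := tendsto_nhds_unique l3 l4
  have e3 : D (φ q) = D q := by rw [← e1, ← e2]
  exact ⟨q, hq1, sp_eq hd hm hq1 (hm q hq1) (hfix q hq1) e3⟩

/-- in the isometric case the defect `1-|φ|²` is comparable to `1-|z|²` -/
lemma defect_le {q : ℂ} (hq : ‖q‖ < 1) (hm : ∀ z : ℂ, ‖z‖ < 1 → ‖φ z‖ < 1)
    (h : ∀ z : ℂ, ‖z‖ < 1 → ‖mob (φ q) (φ z)‖ = ‖mob q z‖) :
    ∃ C : ℝ, 0 < C ∧ ∀ z : ℂ, ‖z‖ < 1 → 1 - ‖φ z‖ ^ 2 ≤ C * (1 - ‖z‖ ^ 2) := by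
  have hφq := hm q hq
  have hq2 : 0 < 1 - ‖φ q‖ ^ 2 := by nlinarith [norm_nonneg (φ q)]
  have hq3 : 0 < 1 - ‖q‖ := by linarith
  refine ⟨4 / ((1 - ‖φ q‖ ^ 2) * (1 - ‖q‖) ^ 2), by positivity, ?_⟩
  intro z hz
  have hφz := hm z hz
  have h1 := mob_id hφq hφz
  have h2 := mob_id hq hz
  rw [h z hz, h2] at h1
  have n1 : 0 < ‖1 - (starRingEnd ℂ) (φ q) * φ z‖ := norm_pos_iff.mpr (one_sub_ne hφq hφz)
  have n2 : 0 < ‖1 - (starRingEnd ℂ) q * z‖ := norm_pos_iff.mpr (one_sub_ne hq hz)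
  have n3 : ‖1 - (starRingEnd ℂ) (φ q) * φ z‖ ≤ 2 := by
    calc ‖1 - (starRingEnd ℂ) (φ q) * φ z‖ ≤ ‖(1 : ℂ)‖ + ‖(starRingEnd ℂ) (φ q) * φ z‖ :=
          norm_sub_le _ _
      _ = 1 + ‖φ q‖ * ‖φ z‖ := by rw [norm_one, norm_mul, Complex.norm_conj]
      _ ≤ 2 := by nlinarith [norm_nonneg (φ q), norm_nonneg (φ z)]
  have n4 : 1 - ‖q‖ ≤ ‖1 - (starRingEnd ℂ) q * z‖ := by
    have : ‖(1 : ℂ)‖ - ‖(starRingEnd ℂ) q * z‖ ≤ ‖1 - (starRingEnd ℂ) q * z‖ := norm_sub_norm_le _ _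
    rw [norm_one, norm_mul, Complex.norm_conj] at this
    nlinarith [norm_nonneg q, norm_nonneg z]
  have hz2 : 0 < 1 - ‖z‖ ^ 2 := by nlinarith [norm_nonneg z]
  have hqq : 0 < 1 - ‖q‖ ^ 2 := by nlinarith [norm_nonneg q]
  set a := ‖1 - (starRingEnd ℂ) (φ q) * φ z‖ with ha
  set b := ‖1 - (starRingEnd ℂ) q * z‖ with hb
  rw [div_eq_div_iff (by positivity) (by positivity)] at h1
  -- (1-|q|²)(1-|z|²) a² = (1-|φq|²)(1-|φz|²) b²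
  rw [div_mul_eq_mul_div, le_div_iff₀ (by positivity)]
  have h3 : (1 - ‖φ z‖ ^ 2) * (1 - ‖φ q‖ ^ 2) * b ^ 2 ≤ 4 * (1 - ‖z‖ ^ 2) := by
    have h4 : a ^ 2 ≤ 4 := by nlinarith
    have h5 : (1 - ‖q‖ ^ 2) * (1 - ‖z‖ ^ 2) * a ^ 2 ≤ 1 * (1 - ‖z‖ ^ 2) * 4 := by
      apply mul_le_mul _ h4 (by positivity) (by positivity)
      apply mul_le_mul_of_nonneg_right _ hz2.le
      nlinarith [sq_nonneg ‖q‖]
    linarith
  have hφz2 : 0 < 1 - ‖φ z‖ ^ 2 := by nlinarith [norm_nonneg (φ z)]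
  have h6 : (1 - ‖q‖) ^ 2 ≤ b ^ 2 := by nlinarith
  calc (1 - ‖φ z‖ ^ 2) * ((1 - ‖φ q‖ ^ 2) * (1 - ‖q‖) ^ 2)
      = ((1 - ‖φ z‖ ^ 2) * (1 - ‖φ q‖ ^ 2)) * (1 - ‖q‖) ^ 2 := by ring
    _ ≤ ((1 - ‖φ z‖ ^ 2) * (1 - ‖φ q‖ ^ 2)) * b ^ 2 := by
        apply mul_le_mul_of_nonneg_left h6 (by positivity)
    _ ≤ 4 * (1 - ‖z‖ ^ 2) := h3

end

end Pool.Agent.Helper76.Pick
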