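import Pool.Agent.Helper76.FRStmt

set_option linter.style.longLine false

open AlgebraicGeometry CategoryTheory

universe u

namespace Pool.Agent.Helper76.FReg

/-! ### The example -/


/-- Exponents `(a, b)` with `p ∣ a + b`. -/
def M0 (p : ℕ) : AddSubmonoid (Fin 2 →₀ ℕ) where
  carrier := {m | p ∣ m 0 + m 1}
  zero_mem' := by simp
  add_mem' := by
    intro a b ha hb
    simp only [Set.mem_ofPred_eq, Finsupp.coe_add, Pi.add_apply] at *
    have : a 0 + b 0 + (a 1 + b 1) = (a 0 + a 1) + (b 0 + b 1) := by ring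
    rw [this]
    exact dvd_add ha hb

/-- The Veronese ring spanned by the monomials `u^a v^b` with `p ∣ a + b`. -/
abbrev A (p : ℕ) (k : Type u) [Field k] := AddMonoidAlgebra k (M0 p)

/-- The polynomial ring in two variables. -/
abbrev B (k : Type u) [Field k] := MvPolynomial (Fin 2) k

/-- `(a, b) ↦ ((a + b) / p, b)`. -/
noncomputable def e1 (p : ℕ) : M0 p →+ (Fin 2 →₀ ℕ) where
  toFun m := Finsupp.single 0 ((m.1 0 + m.1 1) / p) + Finsupp.single 1 (m.1 1)
  map_zero' := by simp
  map_add' := by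
    intro a b
    have h : ((a + b).1 0 + (a + b).1 1) / p = (a.1 0 + a.1 1) / p + (b.1 0 + b.1 1) / p := by
      have : (a + b).1 0 + (a + b).1 1 = (a.1 0 + a.1 1) + (b.1 0 + b.1 1) := by
        simp only [AddSubmonoid.coe_add, Finsupp.coe_add, Pi.add_apply]; ring
      rw [this, Nat.add_div_of_dvd_left b.2]
    rw [h]
    simp only [AddSubmonoid.coe_add, Finsupp.coe_add, Pi.add_apply, Finsupp.single_add]
    abel

/-- `(a, b) ↦ ((a + b) / p, a)`. -/
noncomputable def e2 (p : ℕ) : M0 p →+ (Fin 2 →₀ ℕ) where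
  toFun m := Finsupp.single 0 ((m.1 0 + m.1 1) / p) + Finsupp.single 1 (m.1 0)
  map_zero' := by simp
  map_add' := by
    intro a b
    have h : ((a + b).1 0 + (a + b).1 1) / p = (a.1 0 + a.1 1) / p + (b.1 0 + b.1 1) / p := by
      have : (a + b).1 0 + (a + b).1 1 = (a.1 0 + a.1 1) + (b.1 0 + b.1 1) := by
        simp only [AddSubmonoid.coe_add, Finsupp.coe_add, Pi.add_apply]; ring
      rw [this, Nat.add_div_of_dvd_left b.2]
    rw [h]
    simp only [AddSubmonoid.coe_add, Finsupp.coe_add, Pi.add_apply, Finsupp.single_add]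
    abel

/-- First chart: `u^a v^b ↦ s^{(a+b)/p} t^b` with `s = X 0`, `t = X 1`. -/
noncomputable def psi1 (p : ℕ) (k : Type u) [Field k] : A p k →ₐ[k] B k :=
  AddMonoidAlgebra.mapDomainAlgHom k k (e1 p)

/-- Second chart: `u^a v^b ↦ s^{(a+b)/p} t^a`. -/
noncomputable def psi2 (p : ℕ) (k : Type u) [Field k] : A p k →ₐ[k] B k :=
  AddMonoidAlgebra.mapDomainAlgHom k k (e2 p)

/-- The inclusion of the Veronese ring in the polynomial ring `k[u, v]`. -/
noncomputable def eps (p : ℕ) (k : Type u) [Field k] : A p k →ₐ[k] B k :=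
  AddMonoidAlgebra.mapDomainAlgHom k k (M0 p).subtype

/-- The monomial `u^a v^b` (zero if `p ∤ a + b`). -/
noncomputable def mon (p : ℕ) (k : Type u) [Field k] (a b : ℕ) (h : p ∣ a + b) : A p k :=
  AddMonoidAlgebra.single ⟨Finsupp.single 0 a + Finsupp.single 1 b, by
    show p ∣ _
    simpa using h⟩ 1

/-- `u^p`. -/
noncomputable def up (p : ℕ) (k : Type u) [Field k] : A p k := mon p k p 0 (by simp)

/-- `v^p`. -/
noncomputable def vp (p : ℕ) (k : Type u) [Field k] : A p k := mon p k 0 p (by simp)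


theorem e1_injective {p : ℕ} (hp : 0 < p) : Function.Injective (e1 p) := by
  intro a b h
  have h0 := DFunLike.congr_fun h 0
  have h1 := DFunLike.congr_fun h 1
  simp only [e1, AddMonoidHom.coe_mk, ZeroHom.coe_mk, Finsupp.coe_add, Pi.add_apply] at h0 h1
  simp at h0 h1
  have ha := Nat.mul_div_cancel' (show p ∣ a.1 0 + a.1 1 from a.2)
  have hb := Nat.mul_div_cancel' (show p ∣ b.1 0 + b.1 1 from b.2)
  rw [h0, hb] at ha
  apply Subtype.ext
  ext i
  fin_cases i
  · simp; omega
  · simpa using h1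

theorem e2_injective {p : ℕ} (hp : 0 < p) : Function.Injective (e2 p) := by
  intro a b h
  have h0 := DFunLike.congr_fun h 0
  have h1 := DFunLike.congr_fun h 1
  simp only [e2, AddMonoidHom.coe_mk, ZeroHom.coe_mk, Finsupp.coe_add, Pi.add_apply] at h0 h1
  simp at h0 h1
  have ha := Nat.mul_div_cancel' (show p ∣ a.1 0 + a.1 1 from a.2)
  have hb := Nat.mul_div_cancel' (show p ∣ b.1 0 + b.1 1 from b.2)
  rw [h0, hb] at ha
  apply Subtype.ext
  ext i
  fin_cases i
  · simpa using h1
  · simp; omega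

theorem eps_injective (p : ℕ) (k : Type u) [Field k] : Function.Injective (eps p k) :=
  AddMonoidAlgebra.mapDomain_injective Subtype.val_injective

theorem psi1_injective {p : ℕ} (hp : 0 < p) (k : Type u) [Field k] :
    Function.Injective (psi1 p k) :=
  AddMonoidAlgebra.mapDomain_injective (e1_injective hp)

theorem psi2_injective {p : ℕ} (hp : 0 < p) (k : Type u) [Field k] :
    Function.Injective (psi2 p k) :=
  AddMonoidAlgebra.mapDomain_injective (e2_injective hp)

instance (p : ℕ) (k : Type u) [Field k] : IsDomain (A p k) :=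
  (eps_injective p k).isDomain (eps p k).toRingHom


/-- The form `d(u^p)/u^p`. -/
noncomputable def sigma (p : ℕ) (k : Type u) [Field k] : Ω[FractionRing (A p k)⁄k] :=
  (algebraMap (A p k) (FractionRing (A p k)) (up p k))⁻¹ •
    KaehlerDifferential.D k (FractionRing (A p k)) (algebraMap (A p k) (FractionRing (A p k)) (up p k))

/-- The prime ideal `(X 0)`, the generic point of the curve `s = 0`. -/
noncomputable def sPoint (k : Type u) [Field k] : PrimeSpectrum (B k) :=
  ⟨Ideal.span {(MvPolynomial.X 0 : B k)}, by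
    rw [Ideal.span_singleton_prime (MvPolynomial.X_ne_zero 0)]
    exact MvPolynomial.X_prime⟩

/-- Two affine charts of `Y`. -/
structure Charts (p : ℕ) (k : Type u) [Field k] {Y : Scheme.{u}}
    (π : Y ⟶ Spec (.of (A p k))) where
  j1 : Spec (.of (B k)) ⟶ Y
  j2 : Spec (.of (B k)) ⟶ Y
  o1 : IsOpenImmersion j1
  o2 : IsOpenImmersion j2
  cover : ∀ y : Y, (∃ x, j1 x = y) ∨ (∃ x, j2 x = y)
  c1 : j1 ≫ π = Spec.map (CommRingCat.ofHom (psi1 p k).toRingHom)
  c2 : j2 ≫ π = Spec.map (CommRingCat.ofHom (psi2 p k).toRingHom)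
  gen : j1 (sPoint k) = j2 (sPoint k)


/-! ### The graded ring -/

/-- Exponents `(a, b, c)` with `p c ≤ a + b`. -/
def M3 (p : ℕ) : AddSubmonoid (Fin 3 →₀ ℕ) where
  carrier := {m | p * m 2 ≤ m 0 + m 1}
  zero_mem' := by simp
  add_mem' := by
    intro a b ha hb
    simp only [Set.mem_ofPred_eq, Finsupp.coe_add, Pi.add_apply] at *
    nlinarith

/-- The graded ring spanned by `u^a v^b w^c`, `p c ≤ a + b`. -/
abbrev R (p : ℕ) (k : Type u) [Field k] := AddMonoidAlgebra k (M3 p)

/-- The degree `a + b - p c`. -/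
noncomputable def dg (p : ℕ) : M3 p →+ ℕ where
  toFun m := m.1 0 + m.1 1 - p * m.1 2
  map_zero' := by simp
  map_add' := by
    intro a b
    have ha : p * a.1 2 ≤ a.1 0 + a.1 1 := a.2
    have hb : p * b.1 2 ≤ b.1 0 + b.1 1 := b.2
    simp only [AddSubmonoid.coe_add, Finsupp.coe_add, Pi.add_apply, mul_add]
    omega

/-- The grading. -/
noncomputable abbrev G (p : ℕ) (k : Type u) [Field k] : ℕ → Submodule k (R p k) :=
  AddMonoidAlgebra.gradeBy k (dg p)

/-- The variable `u`. -/
noncomputable def ru (p : ℕ) (k : Type u) [Field k] : R p k :=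
  AddMonoidAlgebra.single ⟨Finsupp.single 0 1, by show p * _ ≤ _; simp⟩ 1

/-- The variable `v`. -/
noncomputable def rv (p : ℕ) (k : Type u) [Field k] : R p k :=
  AddMonoidAlgebra.single ⟨Finsupp.single 1 1, by show p * _ ≤ _; simp⟩ 1

/-- `(a, b, c) ↦ (c, b)`. -/
noncomputable def f1 (p : ℕ) : M3 p →+ (Fin 2 →₀ ℕ) where
  toFun m := Finsupp.single 0 (m.1 2) + Finsupp.single 1 (m.1 1)
  map_zero' := by simp
  map_add' := by
    intro a b
    simp only [AddSubmonoid.coe_add, Finsupp.coe_add, Pi.add_apply, Finsupp.single_add]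
    abel

/-- `(a, b, c) ↦ (c, a)`. -/
noncomputable def f2 (p : ℕ) : M3 p →+ (Fin 2 →₀ ℕ) where
  toFun m := Finsupp.single 0 (m.1 2) + Finsupp.single 1 (m.1 0)
  map_zero' := by simp
  map_add' := by
    intro a b
    simp only [AddSubmonoid.coe_add, Finsupp.coe_add, Pi.add_apply, Finsupp.single_add]
    abel

/-- `u ↦ 1, v ↦ X 1, w ↦ X 0`. -/
noncomputable def ev1 (p : ℕ) (k : Type u) [Field k] : R p k →ₐ[k] B k :=
  AddMonoidAlgebra.mapDomainAlgHom k k (f1 p)

/-- `v ↦ 1, u ↦ X 1, w ↦ X 0`. -/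
noncomputable def ev2 (p : ℕ) (k : Type u) [Field k] : R p k →ₐ[k] B k :=
  AddMonoidAlgebra.mapDomainAlgHom k k (f2 p)

/-- `(a, b) ↦ (a, b, (a + b) / p)`. -/
noncomputable def e0 (p : ℕ) : M0 p →+ M3 p where
  toFun m := ⟨Finsupp.single 0 (m.1 0) + Finsupp.single 1 (m.1 1) +
    Finsupp.single 2 ((m.1 0 + m.1 1) / p), by
      show p * _ ≤ _
      simpa using Nat.mul_div_le (m.1 0 + m.1 1) p⟩
  map_zero' := by ext i; simp
  map_add' := by
    intro a b
    have h : ((a + b).1 0 + (a + b).1 1) / p = (a.1 0 + a.1 1) / p + (b.1 0 + b.1 1) / p := by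
      have : (a + b).1 0 + (a + b).1 1 = (a.1 0 + a.1 1) + (b.1 0 + b.1 1) := by
        simp only [AddSubmonoid.coe_add, Finsupp.coe_add, Pi.add_apply]; ring
      rw [this, Nat.add_div_of_dvd_left b.2]
    apply Subtype.ext
    show _ = _ + _
    simp only [AddSubmonoid.coe_add, Finsupp.coe_add, Pi.add_apply,
      Finsupp.single_add] at h ⊢
    rw [h, Finsupp.single_add]
    abel

end Pool.Agent.Helper76.FReg
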