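import Pool.Agent.Helper76.FRBase

set_option linter.style.longLine false

open AlgebraicGeometry CategoryTheory

universe u

namespace Pool.Agent.Helper76.FReg

theorem snc845_span {k : Type u} [Field k] (t : Fin 2 → k) :
    MvPolynomial.vanishingIdeal k ({t} : Set (Fin 2 → k)) =
      Ideal.span {(MvPolynomial.X 0 - MvPolynomial.C (t 0) : MvPolynomial (Fin 2) k),
        MvPolynomial.X 1 - MvPolynomial.C (t 1)} := by
  apply le_antisymm
  · intro f hf
    rw [MvPolynomial.mem_vanishingIdeal_singleton_iff] at hf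
    set J : Ideal (MvPolynomial (Fin 2) k) :=
      Ideal.span {(MvPolynomial.X 0 - MvPolynomial.C (t 0) : MvPolynomial (Fin 2) k),
        MvPolynomial.X 1 - MvPolynomial.C (t 1)} with hJ
    have h0 : MvPolynomial.X 0 - MvPolynomial.C (t 0) ∈ J :=
      Ideal.subset_span (Set.mem_insert _ _)
    have h1 : MvPolynomial.X 1 - MvPolynomial.C (t 1) ∈ J :=
      Ideal.subset_span (Set.mem_insert_of_mem _ rfl)
    have key : (Ideal.Quotient.mk J) = ((Ideal.Quotient.mk J).comp MvPolynomial.C).comp
        (MvPolynomial.aeval (R := k) t : MvPolynomial (Fin 2) k →ₐ[k] k).toRingHom := by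
      apply MvPolynomial.ringHom_ext
      · intro r
        simp
      · intro i
        fin_cases i
        · simpa using (Ideal.Quotient.eq.2 h0)
        · simpa using (Ideal.Quotient.eq.2 h1)
    have h2 := RingHom.congr_fun key f
    have h3 : (Ideal.Quotient.mk J) f = 0 := by
      rw [h2]
      show (Ideal.Quotient.mk J) (MvPolynomial.C (MvPolynomial.aeval t f)) = 0
      rw [hf, map_zero, map_zero]
    exact Ideal.Quotient.eq_zero_iff_mem.1 h3
  · rw [Ideal.span_le]
    rintro f (rfl | rfl)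
    · show _ ∈ MvPolynomial.vanishingIdeal k ({t} : Set (Fin 2 → k))
      rw [MvPolynomial.mem_vanishingIdeal_singleton_iff]
      simp
    · show _ ∈ MvPolynomial.vanishingIdeal k ({t} : Set (Fin 2 → k))
      rw [MvPolynomial.mem_vanishingIdeal_singleton_iff]
      simp

theorem snc845_loc {R S T : Type u} [CommRing R] [CommRing S] [CommRing T] [IsLocalRing T]
    [Algebra R S] [Algebra R T] (x s : Ideal R) [x.IsPrime] [s.IsPrime]
    [IsLocalization.AtPrime S x] [IsLocalization.AtPrime T s] (φ : S →+* T)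
    (hφ : ∀ r, φ (algebraMap R S r) = algebraMap R T r) (f : R) (hs : s = Ideal.span {f}) :
    (IsLocalRing.maximalIdeal T).comap φ = Ideal.span {algebraMap R S f} := by
  apply le_antisymm
  · intro g hg
    obtain ⟨⟨r, d⟩, h⟩ := IsLocalization.surj x.primeCompl g
    simp only at h
    have hu : IsUnit (algebraMap R S (d : R)) := IsLocalization.map_units S d
    have h1 : algebraMap R T r ∈ IsLocalRing.maximalIdeal T := by
      rw [← hφ, ← h, map_mul]
      exact Ideal.mul_mem_right _ _ hg
    rw [IsLocalization.AtPrime.to_map_mem_maximal_iff T s, hs, Ideal.mem_span_singleton] at h1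
    obtain ⟨c, rfl⟩ := h1
    rw [Ideal.mem_span_singleton]
    obtain ⟨v, hv⟩ := hu
    refine ⟨algebraMap R S c * ↑v⁻¹, ?_⟩
    rw [← mul_assoc, ← map_mul, ← h, ← hv, mul_assoc, Units.mul_inv, mul_one]
  · rw [Ideal.span_singleton_le_iff_mem]
    show φ (algebraMap R S f) ∈ IsLocalRing.maximalIdeal T
    rw [hφ, IsLocalization.AtPrime.to_map_mem_maximal_iff T s, hs]
    exact Ideal.mem_span_singleton_self f

theorem snc845_max {R S : Type u} [CommRing R] [CommRing S] [IsLocalRing S]
    [Algebra R S] (x : Ideal R) [x.IsPrime] [IsLocalization.AtPrime S x] (a b : R)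
    (hx : x = Ideal.span {a, b}) :
    Ideal.span {algebraMap R S a, algebraMap R S b} = IsLocalRing.maximalIdeal S := by
  rw [← IsLocalization.AtPrime.map_eq_maximalIdeal x S]
  conv_rhs => rw [hx]
  rw [Ideal.map_span, Set.image_pair]

theorem snc845_spec {k : Type u} [Field k] [IsAlgClosed k] (x : Spec (.of (B k)))
    (hx : (MvPolynomial.X 0 : B k) ∈ x.asIdeal) (hm : x.asIdeal.IsMaximal) 
    (h : (sPoint k : Spec (.of (B k))) ⤳ x) :
    ∃ a b : (Spec (.of (B k))).presheaf.stalk x,
      Ideal.span {a, b} = IsLocalRing.maximalIdeal ((Spec (.of (B k))).presheaf.stalk x) ∧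
      (IsLocalRing.maximalIdeal ((Spec (.of (B k))).presheaf.stalk (sPoint k : Spec (.of (B k))))).comap
        ((Spec (.of (B k))).presheaf.stalkSpecializes h).hom = Ideal.span {a} := by
  letI a1 : Algebra (B k) ((Spec (.of (B k))).presheaf.stalk x) :=
    StructureSheaf.stalkAlgebra (B k) x
  letI a2 : Algebra (B k) ((Spec (.of (B k))).presheaf.stalk (sPoint k : Spec (.of (B k)))) :=
    StructureSheaf.stalkAlgebra (B k) (sPoint k)
  haveI l1 : IsLocalization.AtPrime ((Spec (.of (B k))).presheaf.stalk x) x.asIdeal :=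
    StructureSheaf.IsLocalization.to_stalk (B k) x
  haveI l2 : IsLocalization.AtPrime
      ((Spec (.of (B k))).presheaf.stalk (sPoint k : Spec (.of (B k)))) (sPoint k).asIdeal :=
    StructureSheaf.IsLocalization.to_stalk (B k) (sPoint k)
  obtain ⟨t, ht⟩ := MvPolynomial.isMaximal_iff_eq_vanishingIdeal_singleton.1 hm
  have ht0 : t 0 = 0 := by
    rw [ht, MvPolynomial.mem_vanishingIdeal_singleton_iff] at hx
    simpa using hx
  rw [snc845_span, ht0, map_zero, sub_zero] at ht
  refine ⟨algebraMap (B k) _ (MvPolynomial.X 0),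
    algebraMap (B k) _ (MvPolynomial.X 1 - MvPolynomial.C (t 1)), ?_, ?_⟩
  · exact snc845_max x.asIdeal _ _ ht
  · refine snc845_loc x.asIdeal (sPoint k).asIdeal _ ?_ _ rfl
    intro r
    exact DFunLike.congr_fun (CommRingCat.hom_ext_iff.mp
      (StructureSheaf.toStalk_stalkSpecializes (R := B k) (x := sPoint k) (y := x) h)) r

/-- Normal crossings on a chart. -/
theorem snc_chart {k : Type u} [Field k] [IsAlgClosed k] {Y : Scheme.{u}} (Z : Set Y)
    (j : Spec (.of (B k)) ⟶ Y) [IsOpenImmersion j]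
    (hmem : ∀ x : PrimeSpectrum (B k), j x ∈ Z ↔ (MvPolynomial.X 0 : B k) ∈ x.asIdeal)
    (hmax : ∀ z ∈ Z, j (sPoint k) ⤳ z) (x : PrimeSpectrum (B k))
    (hx : (MvPolynomial.X 0 : B k) ∈ x.asIdeal) (hc : IsClosed ({j x} : Set Y)) :
    ∃ a b : Y.presheaf.stalk (j x),
      Ideal.span {a, b} = IsLocalRing.maximalIdeal (Y.presheaf.stalk (j x)) ∧
      branches Z (j x) = {Ideal.span {a}} := by
  have hm : x.asIdeal.IsMaximal := by
    rw [← PrimeSpectrum.isClosed_singleton_iff_isMaximal]
    have hinj : Function.Injective j := j.isOpenEmbedding.injective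
    have : ({x} : Set (PrimeSpectrum (B k))) = j ⁻¹' {j x} := by
      ext y
      exact ⟨fun hy => congrArg j hy, fun hy => hinj hy⟩
    rw [this]
    exact hc.preimage j.continuous
  have hs : (sPoint k : Spec (.of (B k))) ⤳ x := by
    rw [← PrimeSpectrum.le_iff_specializes]
    show (sPoint k).asIdeal ≤ x.asIdeal
    exact (Ideal.span_singleton_le_iff_mem _).2 hx
  obtain ⟨a, b, hab, ha⟩ := snc845_spec x hx hm hs
  let e : Y.presheaf.stalk (j x) ≃+* (Spec (.of (B k))).presheaf.stalk x :=
    (asIso (j.stalkMap x)).commRingCatIsoToRingEquiv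
  have he : ∀ g, e g = (j.stalkMap x).hom g := fun g => rfl
  have hspan1 : ∀ g, g ∈ Ideal.span {e.symm a, e.symm b} ↔ e g ∈ Ideal.span {a, b} := by
    intro g
    have h1 : Ideal.span {e.symm a, e.symm b} = Ideal.comap e (Ideal.span {a, b}) := by
      rw [← Ideal.map_symm, Ideal.map_span, Set.image_pair]
    rw [h1, Ideal.mem_comap]
  have hspan2 : ∀ g, g ∈ Ideal.span {e.symm a} ↔ e g ∈ Ideal.span {a} := by
    intro g
    have h1 : Ideal.span {e.symm a} = Ideal.comap e (Ideal.span {a}) := by
      rw [← Ideal.map_symm, Ideal.map_span, Set.image_singleton]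
    rw [h1, Ideal.mem_comap]
  have hζZ : j (sPoint k) ∈ Z := (hmem (sPoint k)).2 (Ideal.mem_span_singleton_self _)
  have hspec : j (sPoint k) ⤳ j x := j.base.hom.map_specializes hs
  have hbr : branchIdeal hspec = Ideal.span {e.symm a} := by
    ext g
    rw [hspan2, ← ha]
    show (Y.presheaf.stalkSpecializes hspec).hom g ∈ IsLocalRing.maximalIdeal _ ↔
      ((Spec (.of (B k))).presheaf.stalkSpecializes hs).hom (e g) ∈ IsLocalRing.maximalIdeal _
    have h1 := Scheme.Hom.stalkSpecializes_stalkMap_apply j (sPoint k) x hs g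
    rw [IsLocalRing.mem_maximalIdeal, IsLocalRing.mem_maximalIdeal, mem_nonunits_iff,
      mem_nonunits_iff, he]
    have h2 : ((Spec (.of (B k))).presheaf.stalkSpecializes hs).hom ((j.stalkMap x).hom g) =
      (j.stalkMap (sPoint k)).hom ((Y.presheaf.stalkSpecializes hspec).hom g) := h1.symm
    rw [h2, isUnit_map_iff (j.stalkMap (sPoint k)).hom]
  refine ⟨e.symm a, e.symm b, ?_, ?_⟩
  · ext g
    rw [hspan1, hab, IsLocalRing.mem_maximalIdeal, IsLocalRing.mem_maximalIdeal,
      mem_nonunits_iff, mem_nonunits_iff, isUnit_map_iff e]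
  · ext P
    constructor
    · rintro ⟨z, hz, hzZ, hmin, rfl⟩
      have hzz : j (sPoint k) = z := hmin _ hζZ (hmax z hzZ)
      subst hzz
      exact hbr
    · rintro rfl
      exact ⟨j (sPoint k), hspec, hζZ, fun w hw hwz => (hwz.antisymm (hmax w hw)).eq, hbr.symm⟩

end Pool.Agent.Helper76.FReg
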