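import Pool.Agent.Helper76.FRStalk
import Pool.Agent.Helper76.FRSnc

set_option linter.style.longLine false

open AlgebraicGeometry CategoryTheory

universe u

namespace Pool.Agent.Helper76.FReg

theorem Charts.isIntegral {p : ℕ} {k : Type u} [Field k] {Y : Scheme.{u}}
    {π : Y ⟶ Spec (.of (A p k))} (c : Charts p k π) : IsIntegral Y := by
  haveI := c.o1
  haveI := c.o2
  haveI hI : IsIntegral (Spec (.of (B k))) := inferInstance
  haveI hred : IsReduced (Spec (.of (B k))) := inferInstance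
  haveI hst : ∀ y : Y, _root_.IsReduced (Y.presheaf.stalk y) := by
    intro y
    rcases c.cover y with ⟨x, rfl⟩ | ⟨x, rfl⟩
    · have hinj : Function.Injective (c.j1.stalkMap x).hom :=
        (ConcreteCategory.bijective_of_isIso (c.j1.stalkMap x)).1
      exact isReduced_of_injective (c.j1.stalkMap x).hom hinj
    · have hinj : Function.Injective (c.j2.stalkMap x).hom :=
        (ConcreteCategory.bijective_of_isIso (c.j2.stalkMap x)).1
      exact isReduced_of_injective (c.j2.stalkMap x).hom hinj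
  haveI : IsReduced Y := isReduced_of_isReduced_stalk Y
  have h1 : IsPreirreducible (Set.range c.j1) := by
    rw [← Set.image_univ]
    exact (PreirreducibleSpace.isPreirreducible_univ).image _ c.j1.continuous.continuousOn
  have h2 : IsPreirreducible (Set.range c.j2) := by
    rw [← Set.image_univ]
    exact (PreirreducibleSpace.isPreirreducible_univ).image _ c.j2.continuous.continuousOn
  have ho1 : IsOpen (Set.range c.j1) := c.j1.isOpenEmbedding.isOpen_range
  have ho2 : IsOpen (Set.range c.j2) := c.j2.isOpenEmbedding.isOpen_range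
  have hmeet : ∀ U : Set Y, IsOpen U → U.Nonempty →
      (Set.range c.j1 ∩ U).Nonempty := by
    intro U hU ⟨y, hy⟩
    rcases c.cover y with hx | hx
    · exact ⟨y, hx, hy⟩
    · obtain ⟨z, hz, hz1, hz2⟩ := h2 U (Set.range c.j1) hU ho1 ⟨y, hx, hy⟩
        ⟨c.j1 (sPoint k), ⟨sPoint k, c.gen.symm⟩, ⟨sPoint k, rfl⟩⟩
      exact ⟨z, hz2, hz1⟩
  haveI : IrreducibleSpace Y := by
    haveI : PreirreducibleSpace Y := ⟨by
      intro U V hU hV ⟨y, _, hy⟩ ⟨z, _, hz⟩
      obtain ⟨w, _, hw⟩ := h1 U V hU hV (hmeet U hU ⟨y, hy⟩) (hmeet V hV ⟨z, hz⟩)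
      exact ⟨w, trivial, hw⟩⟩
    exact ⟨⟨c.j1 (sPoint k)⟩⟩
  exact isIntegral_of_irreducibleSpace_of_isReduced Y

theorem smooth_poly (k : Type u) [Field k] :
    Smooth (Spec.map (CommRingCat.ofHom (algebraMap k (B k)))) := by
  rw [HasRingHomProperty.Spec_iff (P := @Smooth)]
  change (algebraMap k (B k)).Smooth
  rw [RingHom.smooth_algebraMap]
  exact { formallySmooth := inferInstance, finitePresentation := inferInstance }

theorem Charts.smooth {p : ℕ} {k : Type u} [Field k] {Y : Scheme.{u}}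
    {π : Y ⟶ Spec (.of (A p k))} (c : Charts p k π) :
    Smooth (π ≫ Spec.map (CommRingCat.ofHom (algebraMap k (A p k)))) := by
  have h1 : c.j1 ≫ π ≫ Spec.map (CommRingCat.ofHom (algebraMap k (A p k)))
      = Spec.map (CommRingCat.ofHom (algebraMap k (B k))) := by
    rw [← Category.assoc, c.c1, ← Spec.map_comp, ← CommRingCat.ofHom_comp]
    congr 2
    exact (psi1 p k).comp_algebraMap
  have h2 : c.j2 ≫ π ≫ Spec.map (CommRingCat.ofHom (algebraMap k (A p k)))
      = Spec.map (CommRingCat.ofHom (algebraMap k (B k))) := by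
    rw [← Category.assoc, c.c2, ← Spec.map_comp, ← CommRingCat.ofHom_comp]
    congr 2
    exact (psi2 p k).comp_algebraMap
  let 𝒰 : Y.OpenCover := Scheme.Cover.mkOfCovers Bool (fun _ => Spec (.of (B k)))
    (fun b => match b with | true => c.j1 | false => c.j2)
    (fun y => by
      rcases c.cover y with ⟨x, hx⟩ | ⟨x, hx⟩
      · exact ⟨true, x, hx⟩
      · exact ⟨false, x, hx⟩)
    (fun b => by
      cases b
      · exact c.o2
      · exact c.o1)
  refine IsZariskiLocalAtSource.of_openCover (P := @Smooth) 𝒰 fun b => ?_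
  cases b
  · change Smooth (c.j2 ≫ π ≫ Spec.map (CommRingCat.ofHom (algebraMap k (A p k))))
    rw [h2]
    exact smooth_poly k
  · change Smooth (c.j1 ≫ π ≫ Spec.map (CommRingCat.ofHom (algebraMap k (A p k))))
    rw [h1]
    exact smooth_poly k

theorem Charts.exc_closed {p : ℕ} [Fact p.Prime] {k : Type u} [Field k] {Y : Scheme.{u}}
    {π : Y ⟶ Spec (.of (A p k))} (c : Charts p k π)
    (h1 : ∀ x : PrimeSpectrum (B k), c.j1 x ∈ excLocus π ↔ (MvPolynomial.X 0 : B k) ∈ x.asIdeal)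
    (h2 : ∀ x : PrimeSpectrum (B k), c.j2 x ∈ excLocus π ↔ (MvPolynomial.X 0 : B k) ∈ x.asIdeal) :
    IsClosed (excLocus π) := by
  rw [← isOpen_compl_iff]
  haveI := c.o1
  haveI := c.o2
  have hU : IsOpen {x : PrimeSpectrum (B k) | (MvPolynomial.X 0 : B k) ∉ x.asIdeal} :=
    (PrimeSpectrum.basicOpen (MvPolynomial.X 0 : B k)).2
  have o1 : IsOpen (c.j1 '' {x : PrimeSpectrum (B k) | (MvPolynomial.X 0 : B k) ∉ x.asIdeal}) :=
    c.j1.isOpenEmbedding.isOpenMap _ hU
  have o2 : IsOpen (c.j2 '' {x : PrimeSpectrum (B k) | (MvPolynomial.X 0 : B k) ∉ x.asIdeal}) :=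
    c.j2.isOpenEmbedding.isOpenMap _ hU
  convert o1.union o2 using 1
  ext y
  constructor
  · intro hy
    rcases c.cover y with ⟨x, rfl⟩ | ⟨x, rfl⟩
    · exact Or.inl ⟨x, fun h => hy ((h1 x).2 h), rfl⟩
    · exact Or.inr ⟨x, fun h => hy ((h2 x).2 h), rfl⟩
  · rintro (⟨x, hx, rfl⟩ | ⟨x, hx, rfl⟩)
    · exact fun h => hx ((h1 x).1 h)
    · exact fun h => hx ((h2 x).1 h)

theorem Charts.exc_spec {p : ℕ} [Fact p.Prime] {k : Type u} [Field k] {Y : Scheme.{u}}
    {π : Y ⟶ Spec (.of (A p k))} (c : Charts p k π)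
    (h1 : ∀ x : PrimeSpectrum (B k), c.j1 x ∈ excLocus π ↔ (MvPolynomial.X 0 : B k) ∈ x.asIdeal)
    (h2 : ∀ x : PrimeSpectrum (B k), c.j2 x ∈ excLocus π ↔ (MvPolynomial.X 0 : B k) ∈ x.asIdeal) :
    ∀ z ∈ excLocus π, c.j1 (sPoint k) ⤳ z := by
  intro z hz
  rcases c.cover z with ⟨x, rfl⟩ | ⟨x, rfl⟩
  · have hx := (h1 x).mp hz
    apply Specializes.map _ c.j1.continuous
    exact (PrimeSpectrum.le_iff_specializes (sPoint k) x).mp
      ((Ideal.span_singleton_le_iff_mem _).mpr hx)
  · rw [c.gen]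
    have hx := (h2 x).mp hz
    apply Specializes.map _ c.j2.continuous
    exact (PrimeSpectrum.le_iff_specializes (sPoint k) x).mp
      ((Ideal.span_singleton_le_iff_mem _).mpr hx)

theorem Charts.birational {p : ℕ} [Fact p.Prime] {k : Type u} [Field k] {Y : Scheme.{u}}
    [IsIntegral Y] {π : Y ⟶ Spec (.of (A p k))} (c : Charts p k π) : IsBirationalMap π := by
  have := c.o1
  have hg : c.j1 (genericPoint (Spec (.of (B k)))) = genericPoint Y :=
    genericPoint_eq_of_isOpenImmersion c.j1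
  have hb : genericPoint (Spec (.of (B k))) = (⟨⊥, Ideal.isPrime_bot⟩ : PrimeSpectrum (B k)) :=
    genericPoint_eq_bot_of_affine _
  have ha : genericPoint (Spec (.of (A p k))) = (⟨⊥, Ideal.isPrime_bot⟩ : PrimeSpectrum (A p k)) :=
    genericPoint_eq_bot_of_affine _
  constructor
  · rw [← hg, ha, ← Scheme.Hom.comp_apply, c.c1, hb]
    apply PrimeSpectrum.ext
    show Ideal.comap (psi1 p k).toRingHom ⊥ = ⊥
    exact Ideal.comap_bot_of_injective _ (psi1_injective (Fact.out : p.Prime).pos k)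
  · rw [← hg, hb]
    refine (stalk_chart _ π c.j1 c.c1 _).mpr ((stalk_iff1 p k _).mpr ?_)
    simp

end Pool.Agent.Helper76.FReg
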