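import Pool.Agent.Helper76.FRBase

set_option linter.style.longLine false

open AlgebraicGeometry CategoryTheory

universe u

namespace Pool.Agent.Helper76.FReg

open Scheme in
theorem germ_top_to {X : Scheme.{u}} {R : CommRingCat.{u}} [IsLocalRing R] (f : Spec R ⟶ X) :
    X.presheaf.germ ⊤ (f (IsLocalRing.closedPoint R)) trivial ≫ stalkClosedPointTo f =
      f.appTop ≫ (ΓSpecIso R).hom := by
  rw [germ_stalkClosedPointTo f ⊤ trivial]
  simp

open Scheme in
theorem pull_to {A : Type u} [CommRing A] {Y : Scheme.{u}} (π : Y ⟶ Spec (.of A))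
    {R : CommRingCat.{u}} [IsLocalRing R] (φ : CommRingCat.of A ⟶ R) (l : Spec R ⟶ Y)
    (hl : l ≫ π = Spec.map φ) (a : A) :
    (stalkClosedPointTo l).hom (pull π (l (IsLocalRing.closedPoint R)) a) = φ.hom a := by
  have h : (Scheme.ΓSpecIso (.of A)).inv ≫ π.appTop ≫
      Y.presheaf.germ ⊤ (l (IsLocalRing.closedPoint R)) trivial ≫ stalkClosedPointTo l = φ := by
    rw [germ_top_to]
    have h2 : π.appTop ≫ l.appTop = (l ≫ π).appTop := by simp
    rw [reassoc_of% h2, hl]
    rw [← Scheme.ΓSpecIso_inv_naturality_assoc, Iso.inv_hom_id, Category.comp_id]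
  have h3 := congrArg (fun f => f.hom a) h
  exact h3

theorem exists_generic {A : Type u} [CommRing A] [IsDomain A] {Y : Scheme.{u}} [IsIntegral Y]
    (π : Y ⟶ Spec (.of A)) (hb : IsBirationalMap π) :
    ∃ i1 : Spec (.of (FractionRing A)) ⟶ Y,
      i1 ≫ π = Spec.map (CommRingCat.ofHom (algebraMap A (FractionRing A))) := by
  obtain ⟨hb1, hb2⟩ := hb
  set j : Spec (.of (FractionRing A)) ⟶ Spec (.of A) :=
    Spec.map (CommRingCat.ofHom (algebraMap A (FractionRing A))) with hj
  have hpt : j (IsLocalRing.closedPoint (FractionRing A)) = π (genericPoint Y) := by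
    rw [hb1]
    rw [genericPoint_eq_bot_of_affine]
    apply PrimeSpectrum.ext
    show Ideal.comap (algebraMap A (FractionRing A))
      (IsLocalRing.closedPoint (FractionRing A)).asIdeal = ⊥
    have h1 : (IsLocalRing.closedPoint (FractionRing A)).asIdeal = ⊥ := by
      show IsLocalRing.maximalIdeal (FractionRing A) = ⊥
      exact IsLocalRing.maximalIdeal_eq_bot
    rw [h1]
    exact Ideal.comap_bot_of_injective _ (IsFractionRing.injective A (FractionRing A))
  let κ : (Spec (.of A)).presheaf.stalk (π (genericPoint Y)) ⟶ .of (FractionRing A) :=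
    (Spec (.of A)).presheaf.stalkSpecializes (specializes_of_eq hpt) ≫ Scheme.stalkClosedPointTo j
  have hκ : Spec.map κ ≫ (Spec (.of A)).fromSpecStalk (π (genericPoint Y)) = j := by
    simp only [κ, Spec.map_comp, Category.assoc]
    rw [Scheme.SpecMap_stalkSpecializes_fromSpecStalk]
    exact Scheme.Spec_stalkClosedPointTo_fromSpecStalk j
  refine ⟨Spec.map (inv (π.stalkMap (genericPoint Y)) ≫ κ) ≫ Y.fromSpecStalk _, ?_⟩
  rw [Category.assoc, ← Scheme.SpecMap_stalkMap_fromSpecStalk, ← Spec.map_comp_assoc,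
    IsIso.hom_inv_id_assoc, hκ]

theorem exists_point {A : Type u} [CommRing A] [IsDomain A] {Y : Scheme.{u}} [IsIntegral Y]
    (π : Y ⟶ Spec (.of A)) [IsProper π] (hb : IsBirationalMap π)
    (V : ValuationSubring (FractionRing A))
    (hV : ∀ a : A, algebraMap A (FractionRing A) a ∈ V) :
    ∃ y : Y, localRingOn π y ⊆ (V : Set (FractionRing A)) := by
  obtain ⟨i1, hi1⟩ := exists_generic π hb
  let ψ : A →+* V := (algebraMap A (FractionRing A)).codRestrict V.toSubring hV
  have hψ : (algebraMap V (FractionRing A)).comp ψ = algebraMap A (FractionRing A) := by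
    ext a
    rfl
  let i2 : Spec (.of V) ⟶ Spec (.of A) := Spec.map (CommRingCat.ofHom ψ)
  have hsq : CommSq i1 (Spec.map (CommRingCat.ofHom (algebraMap V (FractionRing A)))) π i2 := by
    constructor
    rw [hi1, ← Spec.map_comp, ← CommRingCat.ofHom_comp, hψ]
  let S : ValuativeCommSq π := { R := V, K := FractionRing A, i₁ := i1, i₂ := i2, commSq := hsq }
  have hp : (ValuativeCriterion ⊓ @QuasiCompact ⊓ @QuasiSeparated ⊓ @LocallyOfFiniteType) π := by
    rw [← IsProper.eq_valuativeCriterion]
    infer_instance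
  obtain ⟨⟨l⟩⟩ := hp.1.1.1.existence S
  have hl : l.l ≫ π = Spec.map (CommRingCat.ofHom ψ) := l.fac_right
  refine ⟨l.l (IsLocalRing.closedPoint V), ?_⟩
  rintro f ⟨a, b, hb0, rfl, g, hg⟩
  have h1 := congrArg (Scheme.stalkClosedPointTo l.l).hom hg
  rw [map_mul, pull_to π (CommRingCat.ofHom ψ) l.l hl, pull_to π (CommRingCat.ofHom ψ) l.l hl] at h1
  have hb' : algebraMap A (FractionRing A) b ≠ 0 := by
    intro h0
    exact hb0 ((map_eq_zero_iff _ (IsFractionRing.injective A (FractionRing A))).1 h0)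
  obtain ⟨v, hv⟩ : ∃ v : V, v * ψ b = ψ a := ⟨_, h1⟩
  have h2 : (v : FractionRing A) * algebraMap A (FractionRing A) b =
      algebraMap A (FractionRing A) a := congrArg Subtype.val hv
  have h3 : algebraMap A (FractionRing A) a / algebraMap A (FractionRing A) b = v := by
    rw [← h2, mul_div_assoc, div_self hb', mul_one]
  rw [h3]
  exact v.2

end Pool.Agent.Helper76.FReg
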