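import Pool.Agent.Helper76.FRBase

set_option linter.style.longLine false

open AlgebraicGeometry CategoryTheory

universe u

namespace Pool.Agent.Helper76.FReg

/-- General chart: dehomogenisation. -/
theorem away_equiv {k : Type u} [Field k] {S : Type u} [CommRing S] [Algebra k S]
    (𝒜 : ℕ → Submodule k S) [GradedAlgebra 𝒜] {f : S} (hf : f ∈ 𝒜 1) {T : Type u} [CommRing T]
    (ev : S →+* T) (h1 : ev f = 1)
    (hinj : ∀ (n : ℕ) (r : S), r ∈ 𝒜 n → ev r = 0 → r = 0)
    (hsurj : ∀ t : T, ∃ (n : ℕ) (r : S), r ∈ 𝒜 n ∧ ev r = t) :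
    ∃ α : HomogeneousLocalization.Away 𝒜 f ≃+* T,
      ∀ (n : ℕ) (r : S) (hr : r ∈ 𝒜 (n • 1)), α (HomogeneousLocalization.Away.mk 𝒜 hf n r hr) = ev r := by
  classical
  have hu : IsUnit (ev f) := by rw [h1]; exact isUnit_one
  let L : Localization.Away f →+* T := IsLocalization.Away.lift f hu
  let β : HomogeneousLocalization.Away 𝒜 f →+* T :=
    L.comp (algebraMap (HomogeneousLocalization.Away 𝒜 f) (Localization.Away f))
  have hβ : ∀ (n : ℕ) (r : S) (hr : r ∈ 𝒜 (n • 1)),
      β (HomogeneousLocalization.Away.mk 𝒜 hf n r hr) = ev r := by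
    intro n r hr
    show L (algebraMap _ _ (HomogeneousLocalization.Away.mk 𝒜 hf n r hr)) = ev r
    have e1 : algebraMap (HomogeneousLocalization.Away 𝒜 f) (Localization.Away f)
        (HomogeneousLocalization.Away.mk 𝒜 hf n r hr) = Localization.mk r ⟨f ^ n, by use n⟩ := by
      rw [HomogeneousLocalization.algebraMap_apply]
      exact HomogeneousLocalization.Away.val_mk 𝒜 n hf r hr
    rw [e1]
    have e2 : Localization.mk r (⟨f ^ n, by use n⟩ : Submonoid.powers f) *
        algebraMap S (Localization.Away f) (f ^ n) = algebraMap S (Localization.Away f) r := by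
      rw [Localization.mk_eq_mk']
      exact IsLocalization.mk'_spec (Localization.Away f) r (⟨f ^ n, by use n⟩ : Submonoid.powers f)
    have e3 := congrArg L e2
    rw [map_mul] at e3
    have e4 : ∀ s : S, L (algebraMap S (Localization.Away f) s) = ev s := fun s =>
      IsLocalization.Away.lift_eq f hu s
    rw [e4, e4, map_pow, h1, one_pow, mul_one] at e3
    exact e3
  have hinjβ : Function.Injective β := by
    rw [injective_iff_map_eq_zero]
    intro z hz
    obtain ⟨n, r, hr, rfl⟩ := HomogeneousLocalization.Away.mk_surjective 𝒜 hf z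
    rw [hβ] at hz
    have hr0 : r = 0 := hinj _ r hr hz
    subst hr0
    apply HomogeneousLocalization.val_injective
    rw [HomogeneousLocalization.Away.val_mk, HomogeneousLocalization.val_zero]
    exact Localization.mk_zero _
  have hsurjβ : Function.Surjective β := by
    intro t
    obtain ⟨n, r, hr, hrt⟩ := hsurj t
    have hr' : r ∈ 𝒜 (n • 1) := by simpa using hr
    exact ⟨HomogeneousLocalization.Away.mk 𝒜 hf n r hr', by rw [hβ, hrt]⟩
  exact ⟨RingEquiv.ofBijective β ⟨hinjβ, hsurjβ⟩, fun n r hr => hβ n r hr⟩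

theorem proj_point_mem {k : Type u} [Field k] {S : Type u} [CommRing S] [Algebra k S]
    (𝒜 : ℕ → Submodule k S) [GradedAlgebra 𝒜] {f : S} (hf : f ∈ 𝒜 1)
    {T : Type u} [CommRing T]
    (α : HomogeneousLocalization.Away 𝒜 f ≃+* T) (ev : S →+* T)
    (hα : ∀ (n : ℕ) (r : S) (hr : r ∈ 𝒜 (n • 1)),
      α (HomogeneousLocalization.Away.mk 𝒜 hf n r hr) = ev r)
    (P : PrimeSpectrum T) (u : Proj 𝒜)
    (hu : (Spec.map (CommRingCat.ofHom α.toRingHom) ≫ Proj.awayι 𝒜 f hf one_pos) P = u)
    (n : ℕ) (r : S) (hr : r ∈ 𝒜 n) : r ∈ u.asHomogeneousIdeal ↔ ev r ∈ P.asIdeal := by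
  have hpos : ∀ (n : ℕ) (hn : 0 < n) (r : S) (hr : r ∈ 𝒜 n),
      r ∈ u.asHomogeneousIdeal ↔ ev r ∈ P.asIdeal := by
    intro n hn r hr
    have h1 := Proj.awayι_preimage_basicOpen (𝒜 := 𝒜) hf one_pos hr hn
    have h2 : (Spec.map (CommRingCat.ofHom α.toRingHom)) P ∈
        (Proj.awayι 𝒜 f hf one_pos ⁻¹ᵁ Proj.basicOpen 𝒜 r) ↔ r ∉ u.asHomogeneousIdeal := by
      rw [← hu]
      rfl
    rw [h1] at h2
    have h3 : (Spec.map (CommRingCat.ofHom α.toRingHom)) P ∈
        PrimeSpectrum.basicOpen (HomogeneousLocalization.Away.isLocalizationElem hf hr) ↔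
        ev r ∉ P.asIdeal := by
      have h4 : α (HomogeneousLocalization.Away.isLocalizationElem hf hr) = ev r := by
        unfold HomogeneousLocalization.Away.isLocalizationElem
        rw [hα, pow_one]
      rw [← h4]
      rfl
    exact not_iff_not.1 (h2.symm.trans h3)
  rcases Nat.eq_zero_or_pos n with hn | hn
  · subst hn
    have hev : ev f = 1 := by
      rw [← hα 1 f (by simpa using hf)]
      have h5 : HomogeneousLocalization.Away.mk 𝒜 hf 1 f (by simpa using hf) = 1 := by
        apply HomogeneousLocalization.val_injective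
        rw [HomogeneousLocalization.Away.val_mk, HomogeneousLocalization.val_one]
        rw [← Localization.mk_one]
        rw [Localization.mk_eq_mk_iff, Localization.r_iff_exists]
        exact ⟨1, by simp⟩
      rw [h5, map_one]
    have hfu : f ∉ u.asHomogeneousIdeal := by
      rw [hpos 1 one_pos f hf, hev]
      exact fun h => P.2.ne_top ((Ideal.eq_top_iff_one _).2 h)
    have hrf : r * f ∈ 𝒜 1 := by
      have h6 := SetLike.mul_mem_graded hr hf
      simpa using h6
    have h7 := hpos 1 one_pos (r * f) hrf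
    rw [map_mul, hev, mul_one] at h7
    rw [← h7]
    constructor
    · intro h
      exact Ideal.mul_mem_right f u.asHomogeneousIdeal.toIdeal h
    · intro h
      rcases u.isPrime.mem_or_mem h with h8 | h8
      · exact h8
      · exact absurd h8 hfu
  · exact hpos n hn r hr

/-- Points of two charts of `Proj`. -/
theorem proj_point {k : Type u} [Field k] {S : Type u} [CommRing S] [Algebra k S]
    (𝒜 : ℕ → Submodule k S) [GradedAlgebra 𝒜] {f g : S} (hf : f ∈ 𝒜 1) (hg : g ∈ 𝒜 1)
    {T : Type u} [CommRing T]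
    (α : HomogeneousLocalization.Away 𝒜 f ≃+* T) (ev : S →+* T)
    (hα : ∀ (n : ℕ) (r : S) (hr : r ∈ 𝒜 (n • 1)),
      α (HomogeneousLocalization.Away.mk 𝒜 hf n r hr) = ev r)
    (β : HomogeneousLocalization.Away 𝒜 g ≃+* T) (ev' : S →+* T)
    (hβ : ∀ (n : ℕ) (r : S) (hr : r ∈ 𝒜 (n • 1)),
      β (HomogeneousLocalization.Away.mk 𝒜 hg n r hr) = ev' r)
    (P : PrimeSpectrum T)
    (h : ∀ (n : ℕ) (r : S), r ∈ 𝒜 n → (ev r ∈ P.asIdeal ↔ ev' r ∈ P.asIdeal)) :
    (Spec.map (CommRingCat.ofHom α.toRingHom) ≫ Proj.awayι 𝒜 f hf one_pos) P =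
      (Spec.map (CommRingCat.ofHom β.toRingHom) ≫ Proj.awayι 𝒜 g hg one_pos) P := by
  refine ProjectiveSpectrum.ext (HomogeneousIdeal.ext' (fun n r hr => ?_))
  exact ((proj_point_mem 𝒜 hf α ev hα P _ rfl n r hr).trans (h n r hr)).trans
    (proj_point_mem 𝒜 hg β ev' hβ P _ rfl n r hr).symm

theorem adjoin_top (p : ℕ) [Fact p.Prime] (k : Type u) [Field k] :
    Algebra.adjoin (G p k 0) ({ru p k, rv p k} : Set (R p k)) = ⊤ := by
  rw [eq_top_iff]
  intro x _
  induction x using AddMonoidAlgebra.induction_linear with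
  | zero => exact Subalgebra.zero_mem _
  | add x y hx hy => exact Subalgebra.add_mem _ (hx trivial) (hy trivial)
  | single m r =>
    have hm : p * m.1 2 ≤ m.1 0 + m.1 1 := m.2
    obtain ⟨a0, b0, ha0, hb0, hab⟩ : ∃ a0 b0 : ℕ, a0 ≤ m.1 0 ∧ b0 ≤ m.1 1 ∧
        a0 + b0 = p * m.1 2 := by
      rcases le_total (p * m.1 2) (m.1 0) with h | h
      · exact ⟨p * m.1 2, 0, h, Nat.zero_le _, by omega⟩
      · exact ⟨m.1 0, p * m.1 2 - m.1 0, le_rfl, by omega, by omega⟩
    let n0 : M3 p := ⟨Finsupp.single 0 a0 + Finsupp.single 1 b0 + Finsupp.single 2 (m.1 2), by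
      show p * _ ≤ _
      simp [hab]⟩
    let eu : M3 p := ⟨Finsupp.single 0 1, by show p * _ ≤ _; simp⟩
    let ev : M3 p := ⟨Finsupp.single 1 1, by show p * _ ≤ _; simp⟩
    have hn0 : AddMonoidAlgebra.single n0 r ∈ G p k 0 := by
      have h1 := AddMonoidAlgebra.single_mem_gradeBy (dg p) n0 r
      have h2 : dg p n0 = 0 := by
        show (n0.1 0 + n0.1 1 - p * n0.1 2) = 0
        simp [n0, hab]
      rwa [h2] at h1
    have hmn : m = n0 + (m.1 0 - a0) • eu + (m.1 1 - b0) • ev := by
      apply Subtype.ext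
      ext i
      simp only [AddSubmonoid.coe_add, AddSubmonoidClass.coe_nsmul, Finsupp.coe_add, Pi.add_apply,
        Finsupp.coe_smul, Pi.smul_apply, n0, eu, ev, smul_eq_mul]
      fin_cases i
      · simp; omega
      · simp; omega
      · simp
    have hx : (AddMonoidAlgebra.single m r : R p k) =
        algebraMap (G p k 0) (R p k) ⟨AddMonoidAlgebra.single n0 r, hn0⟩ *
          ru p k ^ (m.1 0 - a0) * rv p k ^ (m.1 1 - b0) := by
      have h3 : algebraMap (G p k 0) (R p k) ⟨AddMonoidAlgebra.single n0 r, hn0⟩ =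
          AddMonoidAlgebra.single n0 r := rfl
      rw [h3]
      unfold ru rv
      rw [AddMonoidAlgebra.single_pow, AddMonoidAlgebra.single_pow, one_pow, one_pow,
        AddMonoidAlgebra.single_mul_single, AddMonoidAlgebra.single_mul_single, mul_one, mul_one]
      congr 1
    rw [hx]
    apply Subalgebra.mul_mem
    · apply Subalgebra.mul_mem
      · exact Subalgebra.algebraMap_mem _ _
      · exact Subalgebra.pow_mem _ (Algebra.subset_adjoin (by simp)) _
    · exact Subalgebra.pow_mem _ (Algebra.subset_adjoin (by simp)) _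

theorem e0_injective (p : ℕ) : Function.Injective (e0 p) := by
  intro a b h
  have h' := congrArg Subtype.val h
  have h0 := DFunLike.congr_fun h' 0
  have h1 := DFunLike.congr_fun h' 1
  simp [e0] at h0 h1
  apply Subtype.ext
  ext i
  fin_cases i
  · simpa using h0
  · simpa using h1

theorem exists_e (p : ℕ) [Fact p.Prime] (k : Type u) [Field k] :
    ∃ e : A p k ≃+* (G p k 0), ∀ x : A p k,
      ((e x : G p k 0) : R p k) = AddMonoidAlgebra.mapDomainAlgHom k k (e0 p) x := by
  have hp : 0 < p := (Fact.out : p.Prime).pos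
  set F := AddMonoidAlgebra.mapDomainAlgHom k k (e0 p) with hF
  have hmem : ∀ x : A p k, F x ∈ G p k 0 := by
    intro x
    induction x using AddMonoidAlgebra.induction_linear with
    | zero => simp
    | add f g hf hg => rw [map_add]; exact Submodule.add_mem _ hf hg
    | single m r =>
      have h1 : F (AddMonoidAlgebra.single m r) = AddMonoidAlgebra.single (e0 p m) r := by
        simp [hF]
      rw [h1]
      have h2 : dg p (e0 p m) = 0 := by
        have := Nat.mul_div_cancel' (show p ∣ m.1 0 + m.1 1 from m.2)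
        simp [dg, e0, this]
      have := AddMonoidAlgebra.single_mem_gradeBy (dg p) (e0 p m) r
      rwa [h2] at this
  have hinj : Function.Injective F := AddMonoidAlgebra.mapDomain_injective (e0_injective p)
  have hsurj : ∀ y ∈ G p k 0, ∃ x, F x = y := by
    intro y hy
    have hy' : ∀ m ∈ y.coeff.support, dg p m = 0 := fun m hm => by
      have := (AddMonoidAlgebra.mem_gradeBy_iff k (dg p) 0 y).mp hy hm
      simpa using this
    have key : ∀ m : M3 p, dg p m = 0 → ∀ r : k, ∃ x, F x = AddMonoidAlgebra.single m r := by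
      intro m hm r
      have h1 : p * m.1 2 ≤ m.1 0 + m.1 1 := m.2
      have h2 : m.1 0 + m.1 1 - p * m.1 2 = 0 := hm
      have h3 : m.1 0 + m.1 1 = p * m.1 2 := by omega
      let n : M0 p := ⟨Finsupp.single 0 (m.1 0) + Finsupp.single 1 (m.1 1), by
        show p ∣ _
        simp [h3]⟩
      refine ⟨AddMonoidAlgebra.single n r, ?_⟩
      have h4 : F (AddMonoidAlgebra.single n r) = AddMonoidAlgebra.single (e0 p n) r := by
        simp [hF]
      rw [h4]
      congr 1
      apply Subtype.ext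
      ext i
      fin_cases i
      · simp [e0, n]
      · simp [e0, n]
      · simp [e0, n, h3, Nat.mul_div_cancel_left _ hp]
    have hsum : y = ∑ m ∈ y.coeff.support, AddMonoidAlgebra.single m (y.coeff m) := by
      exact (AddMonoidAlgebra.sum_coeff_single y).symm
    choose! g hg using key
    refine ⟨∑ m ∈ y.coeff.support, g m (y.coeff m), ?_⟩
    rw [map_sum]
    conv_rhs => rw [hsum]
    exact Finset.sum_congr rfl fun m hm => hg m (hy' m hm) _
  let f : A p k →+* (G p k 0) :=
    { toFun := fun x => ⟨F x, hmem x⟩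
      map_one' := Subtype.ext (map_one F)
      map_mul' := fun x y => Subtype.ext (map_mul F x y)
      map_zero' := Subtype.ext (map_zero F)
      map_add' := fun x y => Subtype.ext (map_add F x y) }
  refine ⟨RingEquiv.ofBijective f ⟨?_, ?_⟩, fun x => rfl⟩
  · intro x y h
    exact hinj (congrArg Subtype.val h)
  · rintro ⟨y, hy⟩
    obtain ⟨x, hx⟩ := hsurj y hy
    exact ⟨x, Subtype.ext hx⟩

theorem ev_inj_aux (p : ℕ) (k : Type u) [Field k] (n : ℕ) (r : R p k)
    (hr : r ∈ G p k n) (f : M3 p → (Fin 2 →₀ ℕ)) (hf : Set.InjOn f (dg p ⁻¹' {n}))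
    (h : Finsupp.mapDomain f r.coeff = 0) : r = 0 := by
  rw [AddMonoidAlgebra.mem_gradeBy_iff] at hr
  have h1 := Finsupp.mapDomain_injOn (M := k) (dg p ⁻¹' {n}) hf
  have h2 : r.coeff = 0 := by
    apply h1 hr
    · show ((0 : M3 p →₀ k).support : Set (M3 p)) ⊆ dg p ⁻¹' {n}
      simp
    · rw [h, Finsupp.mapDomain_zero]
  exact AddMonoidAlgebra.coeff_injective h2

theorem ev1_inj (p : ℕ) [Fact p.Prime] (k : Type u) [Field k] (n : ℕ) (r : R p k)
    (hr : r ∈ G p k n) (h : ev1 p k r = 0) : r = 0 := by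
  apply ev_inj_aux p k n r hr (f1 p)
  · intro a ha b hb hab
    have ha' : a.1 0 + a.1 1 - p * a.1 2 = n := ha
    have hb' : b.1 0 + b.1 1 - p * b.1 2 = n := hb
    have ha2 : p * a.1 2 ≤ a.1 0 + a.1 1 := a.2
    have hb2 : p * b.1 2 ≤ b.1 0 + b.1 1 := b.2
    have h0 := DFunLike.congr_fun hab 0
    have h1 := DFunLike.congr_fun hab 1
    simp only [f1, AddMonoidHom.coe_mk, ZeroHom.coe_mk, Finsupp.coe_add, Pi.add_apply] at h0 h1
    simp at h0 h1
    rw [h0] at ha' ha2
    apply Subtype.ext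
    ext i
    fin_cases i
    · simp; omega
    · simpa using h1
    · simpa using h0
  · exact congrArg AddMonoidAlgebra.coeff h

theorem ev2_inj (p : ℕ) [Fact p.Prime] (k : Type u) [Field k] (n : ℕ) (r : R p k)
    (hr : r ∈ G p k n) (h : ev2 p k r = 0) : r = 0 := by
  apply ev_inj_aux p k n r hr (f2 p)
  · intro a ha b hb hab
    have ha' : a.1 0 + a.1 1 - p * a.1 2 = n := ha
    have hb' : b.1 0 + b.1 1 - p * b.1 2 = n := hb
    have ha2 : p * a.1 2 ≤ a.1 0 + a.1 1 := a.2
    have hb2 : p * b.1 2 ≤ b.1 0 + b.1 1 := b.2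
    have h0 := DFunLike.congr_fun hab 0
    have h1 := DFunLike.congr_fun hab 1
    simp only [f2, AddMonoidHom.coe_mk, ZeroHom.coe_mk, Finsupp.coe_add, Pi.add_apply] at h0 h1
    simp at h0 h1
    rw [h0] at ha' ha2
    apply Subtype.ext
    ext i
    fin_cases i
    · simpa using h1
    · simp; omega
    · simpa using h0
  · exact congrArg AddMonoidAlgebra.coeff h

theorem ev1_surj_fin2 (d : Fin 2 →₀ ℕ) : Finsupp.single 0 (d 0) + Finsupp.single 1 (d 1) = d := by
  ext i
  fin_cases i <;> simp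

/-- the exponent for the first evaluation -/
noncomputable def ev1_surj_m (p n : ℕ) (d : Fin 2 →₀ ℕ) : M3 p :=
  ⟨Finsupp.single 0 (n + p * d 0 - d 1) + Finsupp.single 1 (d 1) + Finsupp.single 2 (d 0), by
    show p * _ ≤ _
    simp
    omega⟩

/-- the exponent for the second evaluation -/
noncomputable def ev2_surj_m (p n : ℕ) (d : Fin 2 →₀ ℕ) : M3 p :=
  ⟨Finsupp.single 0 (d 1) + Finsupp.single 1 (n + p * d 0 - d 1) + Finsupp.single 2 (d 0), by
    show p * _ ≤ _
    simp
    omega⟩

theorem ev1_surj_dg (p n : ℕ) (d : Fin 2 →₀ ℕ) (h : d 1 ≤ n) : dg p (ev1_surj_m p n d) = n := by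
  show (ev1_surj_m p n d).1 0 + (ev1_surj_m p n d).1 1 - p * (ev1_surj_m p n d).1 2 = n
  have h0 : (ev1_surj_m p n d).1 0 = n + p * d 0 - d 1 := by simp [ev1_surj_m]
  have h1 : (ev1_surj_m p n d).1 1 = d 1 := by simp [ev1_surj_m]
  have h2 : (ev1_surj_m p n d).1 2 = d 0 := by simp [ev1_surj_m]
  rw [h0, h1, h2]
  omega

theorem ev2_surj_dg (p n : ℕ) (d : Fin 2 →₀ ℕ) (h : d 1 ≤ n) : dg p (ev2_surj_m p n d) = n := by
  show (ev2_surj_m p n d).1 0 + (ev2_surj_m p n d).1 1 - p * (ev2_surj_m p n d).1 2 = n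
  have h0 : (ev2_surj_m p n d).1 0 = d 1 := by simp [ev2_surj_m]
  have h1 : (ev2_surj_m p n d).1 1 = n + p * d 0 - d 1 := by simp [ev2_surj_m]
  have h2 : (ev2_surj_m p n d).1 2 = d 0 := by simp [ev2_surj_m]
  rw [h0, h1, h2]
  omega

theorem ev1_surj_f (p n : ℕ) (d : Fin 2 →₀ ℕ) : f1 p (ev1_surj_m p n d) = d := by
  show Finsupp.single 0 ((ev1_surj_m p n d).1 2) + Finsupp.single 1 ((ev1_surj_m p n d).1 1) = d
  have h1 : (ev1_surj_m p n d).1 1 = d 1 := by simp [ev1_surj_m]
  have h2 : (ev1_surj_m p n d).1 2 = d 0 := by simp [ev1_surj_m]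
  rw [h1, h2]
  exact ev1_surj_fin2 d

theorem ev2_surj_f (p n : ℕ) (d : Fin 2 →₀ ℕ) : f2 p (ev2_surj_m p n d) = d := by
  show Finsupp.single 0 ((ev2_surj_m p n d).1 2) + Finsupp.single 1 ((ev2_surj_m p n d).1 0) = d
  have h1 : (ev2_surj_m p n d).1 0 = d 1 := by simp [ev2_surj_m]
  have h2 : (ev2_surj_m p n d).1 2 = d 0 := by simp [ev2_surj_m]
  rw [h1, h2]
  exact ev1_surj_fin2 d

theorem ev1_surj (p : ℕ) [Fact p.Prime] (k : Type u) [Field k] (t : B k) :
    ∃ (n : ℕ) (r : R p k), r ∈ G p k n ∧ ev1 p k r = t := by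
  classical
  obtain ⟨n, hn⟩ : ∃ n : ℕ, ∀ d ∈ t.support, d 1 ≤ n :=
    ⟨t.support.sup (fun d => d 1), fun d hd => Finset.le_sup (f := fun d => d 1) hd⟩
  refine ⟨n, ∑ d ∈ t.support, AddMonoidAlgebra.single (ev1_surj_m p n d) (t.coeff d), ?_, ?_⟩
  · refine Submodule.sum_mem _ fun d hd => ?_
    have h1 := AddMonoidAlgebra.single_mem_gradeBy (R := k) (dg p) (ev1_surj_m p n d) (t.coeff d)
    rw [ev1_surj_dg p n d (hn d hd)] at h1
    exact h1
  · rw [map_sum]
    conv_rhs => rw [t.as_sum]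
    refine Finset.sum_congr rfl fun d hd => ?_
    unfold ev1
    rw [AddMonoidAlgebra.mapDomainAlgHom_apply, AddMonoidAlgebra.mapDomain_single, ev1_surj_f]
    rfl

theorem ev2_surj (p : ℕ) [Fact p.Prime] (k : Type u) [Field k] (t : B k) :
    ∃ (n : ℕ) (r : R p k), r ∈ G p k n ∧ ev2 p k r = t := by
  classical
  obtain ⟨n, hn⟩ : ∃ n : ℕ, ∀ d ∈ t.support, d 1 ≤ n :=
    ⟨t.support.sup (fun d => d 1), fun d hd => Finset.le_sup (f := fun d => d 1) hd⟩
  refine ⟨n, ∑ d ∈ t.support, AddMonoidAlgebra.single (ev2_surj_m p n d) (t.coeff d), ?_, ?_⟩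
  · refine Submodule.sum_mem _ fun d hd => ?_
    have h1 := AddMonoidAlgebra.single_mem_gradeBy (R := k) (dg p) (ev2_surj_m p n d) (t.coeff d)
    rw [ev2_surj_dg p n d (hn d hd)] at h1
    exact h1
  · rw [map_sum]
    conv_rhs => rw [t.as_sum]
    refine Finset.sum_congr rfl fun d hd => ?_
    unfold ev2
    rw [AddMonoidAlgebra.mapDomainAlgHom_apply, AddMonoidAlgebra.mapDomain_single, ev2_surj_f]
    rfl

theorem ev_mem_aux (p : ℕ) (k : Type u) [Field k] (n : ℕ) (r : R p k)
    (hr : r ∈ G p k n) (f : M3 p →+ (Fin 2 →₀ ℕ)) (hf : ∀ m, f m 0 = m.1 2)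
    (hinj : ∀ m m' : M3 p, dg p m = n → dg p m' = n → f m = f m' → m = m') :
    (AddMonoidAlgebra.mapDomainAlgHom k k f : R p k →ₐ[k] B k) r ∈ (sPoint k).asIdeal ↔
      ∀ m : M3 p, m.1 2 = 0 → r.coeff m = 0 := by
  classical
  have hco : ∀ x : Fin 2 →₀ ℕ,
      MvPolynomial.coeff x ((AddMonoidAlgebra.mapDomainAlgHom k k f : R p k →ₐ[k] B k) r) =
        Finsupp.mapDomain f r.coeff x := fun x => rfl
  have hS : (r.coeff.support : Set (M3 p)) ⊆ {m | dg p m = n} := fun m hm => hr m hm
  have hI : Set.InjOn f {m : M3 p | dg p m = n} := fun a ha b hb h => hinj a b ha hb h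
  have hid : (sPoint k).asIdeal = Ideal.span (MvPolynomial.X '' ({0} : Set (Fin 2))) := by
    rw [Set.image_singleton]; rfl
  rw [hid, MvPolynomial.mem_ideal_span_X_image]
  constructor
  · intro h m hm
    by_contra hne
    have hmn : dg p m = n := hr m (Finsupp.mem_support_iff.2 hne)
    have h1 := Finsupp.mapDomain_apply' {m : M3 p | dg p m = n} r.coeff hS hI hmn
    obtain ⟨i, hi, hi'⟩ := h (f m) (by
      rw [MvPolynomial.mem_support_iff, hco, h1]; exact hne)
    rw [Set.mem_singleton_iff] at hi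
    subst hi
    exact hi' (by rw [hf, hm])
  · intro h x hx
    rw [MvPolynomial.mem_support_iff, hco] at hx
    have hx' := Finsupp.mapDomain_support (Finsupp.mem_support_iff.2 hx)
    rw [Finset.mem_image] at hx'
    obtain ⟨m, hm, rfl⟩ := hx'
    refine ⟨0, rfl, ?_⟩
    intro h0
    rw [hf] at h0
    exact (Finsupp.mem_support_iff.1 hm) (h m h0)

theorem ev_mem (p : ℕ) [Fact p.Prime] (k : Type u) [Field k] (n : ℕ) (r : R p k)
    (hr : r ∈ G p k n) :
    ev1 p k r ∈ (sPoint k).asIdeal ↔ ev2 p k r ∈ (sPoint k).asIdeal := by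
  have hdg : ∀ m : M3 p, dg p m = n → m.1 0 + m.1 1 = n + p * m.1 2 := by
    intro m hm
    have h1 : p * m.1 2 ≤ m.1 0 + m.1 1 := m.2
    have h2 : m.1 0 + m.1 1 - p * m.1 2 = n := hm
    omega
  have H1 := ev_mem_aux p k n r hr (f1 p)
    (by intro m; simp [f1])
    (by
      intro m m' hm hm' h
      have a := hdg m hm
      have b := hdg m' hm'
      have h0 := DFunLike.congr_fun h 0
      have h1 := DFunLike.congr_fun h 1
      simp [f1] at h0 h1
      rw [h0, h1] at a
      apply Subtype.ext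
      ext i
      fin_cases i
      · simp; omega
      · simpa using h1
      · simpa using h0)
  have H2 := ev_mem_aux p k n r hr (f2 p)
    (by intro m; simp [f2])
    (by
      intro m m' hm hm' h
      have a := hdg m hm
      have b := hdg m' hm'
      have h0 := DFunLike.congr_fun h 0
      have h1 := DFunLike.congr_fun h 1
      simp [f2] at h0 h1
      rw [h0, h1] at a
      apply Subtype.ext
      ext i
      fin_cases i
      · simpa using h1
      · simp; omega
      · simpa using h0)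
  exact H1.trans H2.symm

theorem ru_mem (p : ℕ) (k : Type u) [Field k] : ru p k ∈ G p k 1 := by
  have : dg p ⟨Finsupp.single 0 1, by show p * _ ≤ _; simp⟩ = 1 := by
    simp [dg]
  exact this ▸ AddMonoidAlgebra.single_mem_gradeBy (dg p) _ 1

theorem rv_mem (p : ℕ) (k : Type u) [Field k] : rv p k ∈ G p k 1 := by
  have : dg p ⟨Finsupp.single 1 1, by show p * _ ≤ _; simp⟩ = 1 := by
    simp [dg]
  exact this ▸ AddMonoidAlgebra.single_mem_gradeBy (dg p) _ 1

theorem ev1_ru (p : ℕ) (k : Type u) [Field k] : ev1 p k (ru p k) = 1 := by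
  simp [ev1, ru, f1]
  rfl

theorem ev2_rv (p : ℕ) (k : Type u) [Field k] : ev2 p k (rv p k) = 1 := by
  simp [ev2, rv, f2]
  rfl

theorem ev1_e0 (p : ℕ) (k : Type u) [Field k] (x : A p k) :
    ev1 p k (AddMonoidAlgebra.mapDomainAlgHom k k (e0 p) x) = psi1 p k x := by
  have : (ev1 p k).comp (AddMonoidAlgebra.mapDomainAlgHom k k (e0 p)) = psi1 p k := by
    apply AlgHom.coe_ringHom_injective
    apply AddMonoidAlgebra.ringHom_ext
    · intro r
      simp [ev1, psi1]
    · intro m
      simp [ev1, psi1, f1, e0, e1]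
  exact DFunLike.congr_fun this x

theorem ev2_e0 (p : ℕ) (k : Type u) [Field k] (x : A p k) :
    ev2 p k (AddMonoidAlgebra.mapDomainAlgHom k k (e0 p) x) = psi2 p k x := by
  have : (ev2 p k).comp (AddMonoidAlgebra.mapDomainAlgHom k k (e0 p)) = psi2 p k := by
    apply AlgHom.coe_ringHom_injective
    apply AddMonoidAlgebra.ringHom_ext
    · intro r
      simp [ev2, psi2]
    · intro m
      simp [ev2, psi2, f2, e0, e2]
  exact DFunLike.congr_fun this x

theorem exists_charts (p : ℕ) [Fact p.Prime] (k : Type u) [Field k] :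
    ∃ (Y : Scheme.{u}) (π : Y ⟶ Spec (.of (A p k))), IsProper π ∧ Nonempty (Charts p k π) := by
  obtain ⟨e, he⟩ := exists_e p k
  obtain ⟨α, hα⟩ := away_equiv (G p k) (ru_mem p k) (ev1 p k).toRingHom (ev1_ru p k)
    (ev1_inj p k) (ev1_surj p k)
  obtain ⟨β, hβ⟩ := away_equiv (G p k) (rv_mem p k) (ev2 p k).toRingHom (ev2_rv p k)
    (ev2_inj p k) (ev2_surj p k)
  have hft : Algebra.FiniteType (G p k 0) (R p k) :=
    by
    classical
    exact ⟨⟨{ru p k, rv p k}, by simpa using adjoin_top p k⟩⟩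
  refine ⟨Proj (G p k), Proj.toSpecZero (G p k) ≫ Spec.map (CommRingCat.ofHom e.toRingHom),
    ?_, ⟨⟨Spec.map (CommRingCat.ofHom α.toRingHom) ≫ Proj.awayι (G p k) _ (ru_mem p k) one_pos,
      Spec.map (CommRingCat.ofHom β.toRingHom) ≫ Proj.awayι (G p k) _ (rv_mem p k) one_pos,
      ?_, ?_, ?_, ?_, ?_, ?_⟩⟩⟩
  · have : IsIso (Spec.map (CommRingCat.ofHom e.toRingHom)) := by
      have : IsIso (CommRingCat.ofHom e.toRingHom) := e.toCommRingCatIso.isIso_hom
      infer_instance
    infer_instance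
  · have : IsIso (Spec.map (CommRingCat.ofHom α.toRingHom)) := by
      have : IsIso (CommRingCat.ofHom α.toRingHom) := α.toCommRingCatIso.isIso_hom
      infer_instance
    infer_instance
  · have : IsIso (Spec.map (CommRingCat.ofHom β.toRingHom)) := by
      have : IsIso (CommRingCat.ofHom β.toRingHom) := β.toCommRingCatIso.isIso_hom
      infer_instance
    infer_instance
  · intro y
    have hcov := Proj.iSup_basicOpen_eq_top' (G p k) (fun i : Fin 2 => ![ru p k, rv p k] i)
      (by
        intro i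
        fin_cases i
        · exact ⟨1, ru_mem p k⟩
        · exact ⟨1, rv_mem p k⟩)
      (by
        rw [← adjoin_top p k]
        congr 1
        ext x
        simp [Set.range, Fin.exists_fin_two, eq_comm])
    have hy : y ∈ (⨆ i : Fin 2, Proj.basicOpen (G p k) (![ru p k, rv p k] i)) := by
      rw [hcov]; trivial
    rw [TopologicalSpace.Opens.mem_iSup] at hy
    obtain ⟨i, hi⟩ := hy
    fin_cases i
    · left
      have hi' : y ∈ (Proj.awayι (G p k) _ (ru_mem p k) one_pos).opensRange := by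
        rw [Proj.opensRange_awayι]; exact hi
      obtain ⟨z, hz⟩ := hi'
      have : IsIso (CommRingCat.ofHom α.toRingHom) := α.toCommRingCatIso.isIso_hom
      obtain ⟨x, hx⟩ := (Spec.map (CommRingCat.ofHom α.toRingHom)).homeomorph.surjective z
      refine ⟨x, ?_⟩
      rw [Scheme.Hom.comp_apply, ← hz, ← hx]
      rfl
    · right
      have hi' : y ∈ (Proj.awayι (G p k) _ (rv_mem p k) one_pos).opensRange := by
        rw [Proj.opensRange_awayι]; exact hi
      obtain ⟨z, hz⟩ := hi'
      have : IsIso (CommRingCat.ofHom β.toRingHom) := β.toCommRingCatIso.isIso_hom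
      obtain ⟨x, hx⟩ := (Spec.map (CommRingCat.ofHom β.toRingHom)).homeomorph.surjective z
      refine ⟨x, ?_⟩
      rw [Scheme.Hom.comp_apply, ← hz, ← hx]
      rfl
  · rw [Category.assoc, ← Category.assoc (Proj.awayι _ _ _ _), Proj.awayι_toSpecZero,
      ← Spec.map_comp, ← Spec.map_comp]
    congr 1
    apply CommRingCat.hom_ext
    apply RingHom.ext
    intro x
    show α (HomogeneousLocalization.fromZeroRingHom (G p k) _ (e x)) = psi1 p k x
    rw [← ev1_e0, ← he x]
    have h0 : HomogeneousLocalization.fromZeroRingHom (G p k) (Submonoid.powers (ru p k)) (e x) =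
        HomogeneousLocalization.Away.mk (G p k) (ru_mem p k) 0 ((e x : G p k 0) : R p k)
          (by simpa using (e x).2) := by
      apply HomogeneousLocalization.val_injective
      simp [HomogeneousLocalization.fromZeroRingHom]
    rw [h0, hα]
    rfl
  · rw [Category.assoc, ← Category.assoc (Proj.awayι _ _ _ _), Proj.awayι_toSpecZero,
      ← Spec.map_comp, ← Spec.map_comp]
    congr 1
    apply CommRingCat.hom_ext
    apply RingHom.ext
    intro x
    show β (HomogeneousLocalization.fromZeroRingHom (G p k) _ (e x)) = psi2 p k x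
    rw [← ev2_e0, ← he x]
    have h0 : HomogeneousLocalization.fromZeroRingHom (G p k) (Submonoid.powers (rv p k)) (e x) =
        HomogeneousLocalization.Away.mk (G p k) (rv_mem p k) 0 ((e x : G p k 0) : R p k)
          (by simpa using (e x).2) := by
      apply HomogeneousLocalization.val_injective
      simp [HomogeneousLocalization.fromZeroRingHom]
    rw [h0, hβ]
    rfl
  · exact proj_point (G p k) (ru_mem p k) (rv_mem p k) α _ hα β _ hβ (sPoint k) (ev_mem p k)

end Pool.Agent.Helper76.FReg
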