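import Pool.Agent.Helper76.FRBase

set_option linter.style.longLine false

open AlgebraicGeometry CategoryTheory

universe u

namespace Pool.Agent.Helper76.FReg

theorem not_smooth_ext {p : ℕ} (m n : M0 p) (h0 : m.1 0 = n.1 0) (h1 : m.1 1 = n.1 1) : m = n := by
  apply Subtype.ext
  ext i
  fin_cases i
  · exact h0
  · exact h1

theorem not_smooth_deg {p : ℕ} (m : M0 p) (h : m ≠ 0) : p ≤ m.1 0 + m.1 1 := by
  have h1 : p ∣ m.1 0 + m.1 1 := m.2
  apply Nat.le_of_dvd _ h1
  by_contra hcon
  apply h
  apply not_smooth_ext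
  · show m.1 0 = 0
    omega
  · show m.1 1 = 0
    omega

open Classical in
/-- the multiplicative map to the dual numbers -/
noncomputable def not_smooth_chi (p : ℕ) (k : Type u) [Field k] (m : M0 p) : DualNumber k :=
  if m = 0 then 1 else if m.1 0 + m.1 1 = p ∧ m.1 1 = 1 then DualNumber.eps else 0

theorem not_smooth_chi_zero (p : ℕ) (k : Type u) [Field k] : not_smooth_chi p k 0 = 1 := by
  unfold not_smooth_chi
  rw [if_pos rfl]

theorem not_smooth_chi_ne (p : ℕ) (k : Type u) [Field k] (m : M0 p) (h : m ≠ 0) :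
    not_smooth_chi p k m = DualNumber.eps ∨ not_smooth_chi p k m = 0 := by
  unfold not_smooth_chi
  rw [if_neg h]
  by_cases h1 : m.1 0 + m.1 1 = p ∧ m.1 1 = 1
  · rw [if_pos h1]
    exact Or.inl rfl
  · rw [if_neg h1]
    exact Or.inr rfl

theorem not_smooth_chi_mul (p : ℕ) (hp : 0 < p) (k : Type u) [Field k] (m n : M0 p) :
    not_smooth_chi p k (m + n) = not_smooth_chi p k m * not_smooth_chi p k n := by
  by_cases hm : m = 0
  · rw [hm, zero_add, not_smooth_chi_zero, one_mul]
  · by_cases hn : n = 0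
    · rw [hn, add_zero, not_smooth_chi_zero, mul_one]
    · have h1 := not_smooth_deg m hm
      have h2 := not_smooth_deg n hn
      have hmn0 : (m + n).1 0 = m.1 0 + n.1 0 := rfl
      have hmn1 : (m + n).1 1 = m.1 1 + n.1 1 := rfl
      have h3 : m + n ≠ 0 := by
        intro h0
        have h4 : (m + n).1 0 = 0 := by rw [h0]; rfl
        have h5 : (m + n).1 1 = 0 := by rw [h0]; rfl
        omega
      have h6 : ¬ ((m + n).1 0 + (m + n).1 1 = p ∧ (m + n).1 1 = 1) := by
        rintro ⟨h7, _⟩
        omega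
      have h8 : not_smooth_chi p k (m + n) = 0 := by
        unfold not_smooth_chi
        rw [if_neg h3, if_neg h6]
      rw [h8]
      rcases not_smooth_chi_ne p k m hm with h9 | h9
      · rcases not_smooth_chi_ne p k n hn with h10 | h10
        · rw [h9, h10, DualNumber.eps_mul_eps]
        · rw [h10, mul_zero]
      · rw [h9, zero_mul]

/-- the algebra map to the dual numbers -/
noncomputable def not_smooth_g (p : ℕ) (hp : 0 < p) (k : Type u) [Field k] : A p k →ₐ[k] DualNumber k :=
  AddMonoidAlgebra.lift k (DualNumber k) (M0 p)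
    { toFun := fun m => not_smooth_chi p k m.toAdd
      map_one' := not_smooth_chi_zero p k
      map_mul' := fun m n => not_smooth_chi_mul p hp k m.toAdd n.toAdd }

theorem not_smooth_g_single (p : ℕ) (hp : 0 < p) (k : Type u) [Field k] (m : M0 p) (r : k) :
    not_smooth_g p hp k (AddMonoidAlgebra.single m r) = r • not_smooth_chi p k m := by
  unfold not_smooth_g
  rw [AddMonoidAlgebra.lift_single]
  rfl

theorem not_smooth_mem (p : ℕ) (hp : 0 < p) (k : Type u) [Field k] (P : Ideal (A p k)) [P.IsPrime]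
    (hu : up p k ∈ P) (hv : vp p k ∈ P) (m : M0 p) (hm : m ≠ 0) :
    (AddMonoidAlgebra.single m (1 : k) : A p k) ∈ P := by
  have h1 : (AddMonoidAlgebra.single m (1 : k) : A p k) ^ p = (up p k) ^ (m.1 0) * (vp p k) ^ (m.1 1) := by
    unfold up vp mon
    rw [AddMonoidAlgebra.single_pow, AddMonoidAlgebra.single_pow, AddMonoidAlgebra.single_pow,
      AddMonoidAlgebra.single_mul_single, one_pow, one_pow, one_pow, one_mul]
    congr 1
    apply not_smooth_ext
    · show p * m.1 0 = _
      simp [mul_comm]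
    · show p * m.1 1 = _
      simp [mul_comm]
  have h2 : (AddMonoidAlgebra.single m (1 : k) : A p k) ^ p ∈ P := by
    rw [h1]
    by_cases h3 : m.1 0 = 0
    · have h4 : m.1 1 ≠ 0 := by
        intro h4
        exact hm (not_smooth_ext m 0 h3 h4)
      exact P.mul_mem_left _ (P.pow_mem_of_mem hv _ (Nat.pos_of_ne_zero h4))
    · exact P.mul_mem_right _ (P.pow_mem_of_mem hu _ (Nat.pos_of_ne_zero h3))
  exact Ideal.IsPrime.mem_of_pow_mem ‹P.IsPrime› p h2

theorem not_smooth_sub (p : ℕ) (hp : 0 < p) (k : Type u) [Field k] (P : Ideal (A p k)) [P.IsPrime]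
    (hu : up p k ∈ P) (hv : vp p k ∈ P) (f : A p k) :
    f - algebraMap k (A p k) (not_smooth_g p hp k f).fst ∈ P := by
  induction f using AddMonoidAlgebra.induction_linear with
  | zero =>
    rw [map_zero, TrivSqZeroExt.fst_zero, map_zero, sub_zero]
    exact P.zero_mem
  | add f g hf hg =>
    rw [map_add, TrivSqZeroExt.fst_add, map_add, add_sub_add_comm]
    exact P.add_mem hf hg
  | single m r =>
    rw [not_smooth_g_single]
    by_cases hm : m = 0
    · rw [hm, not_smooth_chi_zero, TrivSqZeroExt.fst_smul, TrivSqZeroExt.fst_one, smul_eq_mul, mul_one]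
      have h1 : (AddMonoidAlgebra.single 0 r : A p k) = algebraMap k (A p k) r := rfl
      rw [h1, sub_self]
      exact P.zero_mem
    · have h1 : (r • not_smooth_chi p k m).fst = 0 := by
        rcases not_smooth_chi_ne p k m hm with h | h
        · rw [h, TrivSqZeroExt.fst_smul, DualNumber.fst_eps, smul_zero]
        · rw [h, smul_zero, TrivSqZeroExt.fst_zero]
      rw [h1, map_zero, sub_zero]
      have h2 : (AddMonoidAlgebra.single m r : A p k) = algebraMap k (A p k) r * AddMonoidAlgebra.single m 1 := by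
        have h3 : algebraMap k (A p k) r = AddMonoidAlgebra.single 0 r := rfl
        rw [h3, AddMonoidAlgebra.single_mul_single, zero_add, mul_one]
      rw [h2]
      exact P.mul_mem_left _ (not_smooth_mem p hp k P hu hv m hm)

/-- the truncated polynomial ring -/
abbrev not_smooth_C (k : Type u) [Field k] : Type u := Polynomial k ⧸ Ideal.span {(Polynomial.X ^ 3 : Polynomial k)}

/-- projection to the dual numbers -/
noncomputable def not_smooth_pi (k : Type u) [Field k] : not_smooth_C k →ₐ[k] DualNumber k :=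
  Ideal.Quotient.liftₐ _ (Polynomial.aeval (DualNumber.eps : DualNumber k)) (by
    intro a ha
    rw [Ideal.mem_span_singleton] at ha
    obtain ⟨q, rfl⟩ := ha
    rw [map_mul, map_pow, Polynomial.aeval_X, pow_succ, DualNumber.eps_pow_two, zero_mul, zero_mul])

theorem not_smooth_pi_mk (k : Type u) [Field k] (f : Polynomial k) :
    not_smooth_pi k (Ideal.Quotient.mk _ f) = Polynomial.aeval (DualNumber.eps : DualNumber k) f := rfl

theorem not_smooth_poly (k : Type u) [Field k] (f : Polynomial k) :
    ∃ q : Polynomial k, f = q * Polynomial.X ^ 2 + Polynomial.C (f.coeff 1) * Polynomial.X + Polynomial.C (f.coeff 0) := by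
  refine ⟨f.divX.divX, ?_⟩
  have h1 := Polynomial.divX_mul_X_add f
  have h2 := Polynomial.divX_mul_X_add f.divX
  have h3 : f.divX.coeff 0 = f.coeff 1 := by rw [Polynomial.coeff_divX]
  rw [h3] at h2
  calc f = f.divX * Polynomial.X + Polynomial.C (f.coeff 0) := h1.symm
    _ = (f.divX.divX * Polynomial.X + Polynomial.C (f.coeff 1)) * Polynomial.X + Polynomial.C (f.coeff 0) := by rw [h2]
    _ = _ := by ring

theorem not_smooth_aeval (k : Type u) [Field k] (f : Polynomial k) :
    (Polynomial.aeval (DualNumber.eps : DualNumber k) f).fst = f.coeff 0 ∧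
    (Polynomial.aeval (DualNumber.eps : DualNumber k) f).snd = f.coeff 1 := by
  obtain ⟨q, hq⟩ := not_smooth_poly k f
  have h1 : Polynomial.aeval (DualNumber.eps : DualNumber k) f =
      algebraMap k (DualNumber k) (f.coeff 1) * DualNumber.eps + algebraMap k (DualNumber k) (f.coeff 0) := by
    conv_lhs => rw [hq]
    rw [map_add, map_add, map_mul, map_mul, map_pow, Polynomial.aeval_X, Polynomial.aeval_C, Polynomial.aeval_C,
      DualNumber.eps_pow_two, mul_zero, zero_add]
  have hal : ∀ c : k, algebraMap k (DualNumber k) c = TrivSqZeroExt.inl c := fun c => rfl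
  rw [h1, hal, hal]
  constructor
  · simp
  · simp

theorem not_smooth_surj (k : Type u) [Field k] : Function.Surjective (not_smooth_pi k) := by
  intro d
  refine ⟨Ideal.Quotient.mk _ (Polynomial.C d.fst + Polynomial.C d.snd * Polynomial.X), ?_⟩
  rw [not_smooth_pi_mk]
  obtain ⟨h1, h2⟩ := not_smooth_aeval k (Polynomial.C d.fst + Polynomial.C d.snd * Polynomial.X)
  apply TrivSqZeroExt.ext
  · rw [h1]
    simp
  · rw [h2]
    simp

theorem not_smooth_a (k : Type u) [Field k] (a b : not_smooth_C k) (ha : not_smooth_pi k a = 0)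
    (hb : not_smooth_pi k b = 0) : a * b = 0 := by
  obtain ⟨f, rfl⟩ := Ideal.Quotient.mk_surjective a
  obtain ⟨g, rfl⟩ := Ideal.Quotient.mk_surjective b
  rw [not_smooth_pi_mk] at ha hb
  obtain ⟨h1, h2⟩ := not_smooth_aeval k f
  obtain ⟨h3, h4⟩ := not_smooth_aeval k g
  rw [ha] at h1 h2
  rw [hb] at h3 h4
  rw [TrivSqZeroExt.fst_zero] at h1 h3
  rw [TrivSqZeroExt.snd_zero] at h2 h4
  obtain ⟨q, hq⟩ := not_smooth_poly k f
  obtain ⟨r, hr⟩ := not_smooth_poly k g
  rw [← h1, ← h2, map_zero, zero_mul, add_zero, add_zero] at hq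
  rw [← h3, ← h4, map_zero, zero_mul, add_zero, add_zero] at hr
  rw [← map_mul, Ideal.Quotient.eq_zero_iff_mem, Ideal.mem_span_singleton, hq, hr]
  exact ⟨q * r * Polynomial.X, by ring⟩

theorem not_smooth_b (k : Type u) [Field k] (a : not_smooth_C k) (ha : not_smooth_pi k a = DualNumber.eps) :
    a * a ≠ 0 := by
  obtain ⟨f, rfl⟩ := Ideal.Quotient.mk_surjective a
  rw [not_smooth_pi_mk] at ha
  obtain ⟨h1, h2⟩ := not_smooth_aeval k f
  rw [ha] at h1 h2
  rw [DualNumber.fst_eps] at h1
  rw [DualNumber.snd_eps] at h2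
  obtain ⟨q, hq⟩ := not_smooth_poly k f
  rw [← h1, ← h2, map_zero, map_one, one_mul, add_zero] at hq
  rw [← map_mul, Ne, Ideal.Quotient.eq_zero_iff_mem, Ideal.mem_span_singleton, hq]
  intro h3
  have h4 : (Polynomial.X ^ 3 : Polynomial k) ∣ Polynomial.X ^ 2 := by
    have h5 : (q * Polynomial.X ^ 2 + Polynomial.X) * (q * Polynomial.X ^ 2 + Polynomial.X) =
        Polynomial.X ^ 3 * (q ^ 2 * Polynomial.X + 2 * q) + Polynomial.X ^ 2 := by ring
    rw [h5] at h3
    exact (dvd_add_right (dvd_mul_right _ _)).mp h3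
  rw [Polynomial.X_pow_dvd_iff] at h4
  have h6 := h4 2 (by norm_num)
  rw [Polynomial.coeff_X_pow, if_pos rfl] at h6
  exact one_ne_zero h6

theorem not_smooth (p : ℕ) [Fact p.Prime] (k : Type u) [Field k]
    (P : PrimeSpectrum (A p k)) (hP : P ∈ Algebra.smoothLocus k (A p k)) :
    up p k ∉ P.asIdeal ∨ vp p k ∉ P.asIdeal := by
  classical
  have hp : 0 < p := (Fact.out : p.Prime).pos
  have hp2 : 2 ≤ p := (Fact.out : p.Prime).two_le
  by_contra hcon
  push Not at hcon
  obtain ⟨hu, hv⟩ := hcon
  have hsm : Algebra.FormallySmooth k (Localization.AtPrime P.asIdeal) := hP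
  have hunit : ∀ y : P.asIdeal.primeCompl, IsUnit (not_smooth_g p hp k (y : A p k)) := by
    intro y
    rw [TrivSqZeroExt.isUnit_iff_isUnit_fst, isUnit_iff_ne_zero]
    intro h0
    have h1 := not_smooth_sub p hp k P.asIdeal hu hv (y : A p k)
    rw [h0, map_zero, sub_zero] at h1
    exact y.2 h1
  obtain ⟨G, hG⟩ : ∃ G : Localization.AtPrime P.asIdeal →ₐ[k] DualNumber k,
      ∀ a : A p k, G (algebraMap (A p k) (Localization.AtPrime P.asIdeal) a) = not_smooth_g p hp k a := by
    refine ⟨IsLocalization.liftAlgHom (M := P.asIdeal.primeCompl) (f := not_smooth_g p hp k) hunit, ?_⟩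
    intro a
    rw [IsLocalization.liftAlgHom_apply]
    exact IsLocalization.lift_eq _ a
  have hnil : IsNilpotent (RingHom.ker (not_smooth_pi k : not_smooth_C k →+* DualNumber k)) := by
    refine ⟨2, ?_⟩
    have h2 : RingHom.ker (not_smooth_pi k : not_smooth_C k →+* DualNumber k) *
        RingHom.ker (not_smooth_pi k : not_smooth_C k →+* DualNumber k) = ⊥ := by
      rw [eq_bot_iff, Ideal.mul_le]
      intro a ha b hb
      rw [Ideal.mem_bot]
      exact not_smooth_a k a b ha hb
    exact (pow_two (RingHom.ker (not_smooth_pi k : not_smooth_C k →+* DualNumber k))).trans h2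
  obtain ⟨h, hh⟩ : ∃ h : Localization.AtPrime P.asIdeal →ₐ[k] not_smooth_C k, ∀ x, not_smooth_pi k (h x) = G x :=
    ⟨Algebra.FormallySmooth.liftOfSurjective G (not_smooth_pi k) (not_smooth_surj k) hnil,
      fun x => Algebra.FormallySmooth.liftOfSurjective_apply G (not_smooth_pi k) (not_smooth_surj k) hnil x⟩
  obtain ⟨H, hH⟩ : ∃ H : A p k →+* not_smooth_C k, ∀ a, not_smooth_pi k (H a) = not_smooth_g p hp k a :=
    ⟨(h : Localization.AtPrime P.asIdeal →+* not_smooth_C k).comp (algebraMap (A p k) (Localization.AtPrime P.asIdeal)),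
      fun a => by
        show not_smooth_pi k (h (algebraMap (A p k) (Localization.AtPrime P.asIdeal) a)) = _
        rw [hh, hG]⟩
  have d1 : p ∣ (p - 1) + 1 := by
    have : (p - 1) + 1 = p := by omega
    rw [this]
  have d2 : p ∣ (p - 2) + 2 := by
    have : (p - 2) + 2 = p := by omega
    rw [this]
  have hrel : mon p k (p - 1) 1 d1 * mon p k (p - 1) 1 d1 = up p k * mon p k (p - 2) 2 d2 := by
    unfold up mon
    rw [AddMonoidAlgebra.single_mul_single, AddMonoidAlgebra.single_mul_single]
    congr 1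
    apply not_smooth_ext
    · simp
      omega
    · simp
  have hgt : not_smooth_g p hp k (mon p k (p - 1) 1 d1) = DualNumber.eps := by
    unfold mon
    rw [not_smooth_g_single, one_smul]
    unfold not_smooth_chi
    rw [if_neg, if_pos]
    · constructor
      · simp
        omega
      · simp
    · intro h0
      have h1 := congrArg (fun m : M0 p => m.1 1) h0
      simp at h1
  have hgu : not_smooth_g p hp k (up p k) = 0 := by
    unfold up mon
    rw [not_smooth_g_single, one_smul]
    unfold not_smooth_chi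
    rw [if_neg, if_neg]
    · rintro ⟨_, h1⟩
      simp at h1
    · intro h0
      have h1 := congrArg (fun m : M0 p => m.1 0) h0
      simp at h1
      omega
  have hgw : not_smooth_g p hp k (mon p k (p - 2) 2 d2) = 0 := by
    unfold mon
    rw [not_smooth_g_single, one_smul]
    unfold not_smooth_chi
    rw [if_neg, if_neg]
    · rintro ⟨_, h1⟩
      simp at h1
    · intro h0
      have h1 := congrArg (fun m : M0 p => m.1 1) h0
      simp at h1
  have e1 := not_smooth_b k (H (mon p k (p - 1) 1 d1)) (by rw [hH, hgt])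
  apply e1
  rw [← map_mul, hrel, map_mul]
  exact not_smooth_a k _ _ (by rw [hH, hgu]) (by rw [hH, hgw])

theorem sr_mon_ne (p : ℕ) (k : Type u) [Field k] (a b : ℕ) (h : p ∣ a + b) :
    mon p k a b h ≠ 0 := by
  unfold mon
  rw [Ne, AddMonoidAlgebra.single_eq_zero]
  exact one_ne_zero

theorem sr_mon_rel (p : ℕ) (hp : 0 < p) (k : Type u) [Field k] (h : p ∣ (p - 1) + 1) :
    mon p k (p - 1) 1 h ^ p = up p k ^ (p - 1) * vp p k := by
  unfold up vp mon
  rw [AddMonoidAlgebra.single_pow, AddMonoidAlgebra.single_pow, AddMonoidAlgebra.single_mul_single]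
  congr 1
  · apply Subtype.ext
    ext i
    fin_cases i
    · simp
      ring
    · simp
  · simp

theorem sr_mem (p : ℕ) (k : Type u) [Field k] (P : PrimeSpectrum (A p k)) (x : A p k)
    (hx : x ∉ P.asIdeal) :
    (algebraMap (A p k) (FractionRing (A p k)) x)⁻¹ •
      KaehlerDifferential.D k (FractionRing (A p k)) (algebraMap (A p k) (FractionRing (A p k)) x)
      ∈ formsOver k (localRingAt (A p k) P) := by
  apply AddSubgroup.subset_closure
  refine ⟨_, ⟨1, x, hx, ?_⟩, _, ⟨x, 1, ?_, ?_⟩, rfl⟩
  · rw [map_one, one_div]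
  · intro h
    exact P.2.ne_top ((Ideal.eq_top_iff_one _).2 h)
  · rw [map_one, div_one]

theorem sr_key (p : ℕ) [Fact p.Prime] (k : Type u) [Field k] [CharP k p]
    (K : Type u) [Field K] [Algebra k K] (x y w : K) (hx : x ≠ 0) (hy : y ≠ 0)
    (h : w ^ p = x ^ (p - 1) * y) :
    x⁻¹ • KaehlerDifferential.D k K x = y⁻¹ • KaehlerDifferential.D k K y := by
  have hp : 0 < p := (Fact.out : p.Prime).pos
  have hxp : x ^ p = x ^ (p - 1) * x := by
    rw [← pow_succ, Nat.sub_add_cancel hp]
  have ht : (w / x) ^ p = y / x := by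
    rw [div_pow, h, hxp, mul_div_mul_left _ _ (pow_ne_zero _ hx)]
  have hyx : y = x * (w / x) ^ p := by
    rw [ht, mul_div_cancel₀ _ hx]
  have hD : KaehlerDifferential.D k K y = (w / x) ^ p • KaehlerDifferential.D k K x := by
    conv_lhs => rw [hyx]
    rw [Derivation.leibniz, Derivation.leibniz_pow]
    have h0 : (p • (w / x) ^ (p - 1) • KaehlerDifferential.D k K (w / x)) = 0 := by
      rw [← Nat.cast_smul_eq_nsmul k, CharP.cast_eq_zero, zero_smul]
    rw [h0, smul_zero, zero_add]
  rw [hD, ht, smul_smul]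
  congr 1
  field_simp

theorem sigma_reg (p : ℕ) [Fact p.Prime] (k : Type u) [Field k] [CharP k p]
    (h : ∀ P ∈ Algebra.smoothLocus k (A p k), up p k ∉ P.asIdeal ∨ vp p k ∉ P.asIdeal) :
    IsRegularOnSmoothLocus k (A p k) (sigma p k) := by
  intro P hP
  have hp : 0 < p := (Fact.out : p.Prime).pos
  rcases h P hP with h1 | h1
  · exact sr_mem p k P (up p k) h1
  · have hw : p ∣ (p - 1) + 1 := by
      rw [Nat.sub_add_cancel hp]
    have hrel := congrArg (algebraMap (A p k) (FractionRing (A p k))) (sr_mon_rel p hp k hw)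
    rw [map_pow, map_mul, map_pow] at hrel
    have hinj := IsFractionRing.injective (A p k) (FractionRing (A p k))
    have hx : algebraMap (A p k) (FractionRing (A p k)) (up p k) ≠ 0 := by
      rw [Ne, map_eq_zero_iff _ hinj]
      exact sr_mon_ne p k _ _ _
    have hy : algebraMap (A p k) (FractionRing (A p k)) (vp p k) ≠ 0 := by
      rw [Ne, map_eq_zero_iff _ hinj]
      exact sr_mon_ne p k _ _ _
    unfold sigma
    rw [sr_key p k (FractionRing (A p k)) _ _ _ hx hy hrel]
    exact sr_mem p k P (vp p k) h1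

theorem exists_der_ext (k R L : Type u) [Field k] [CommRing R] [IsDomain R] [Algebra k R]
    [Field L] [Algebra R L] [IsFractionRing R L] [Algebra k L] [IsScalarTower k R L]
    (d : Derivation k R R) :
    ∃ δ : Derivation k L L, ∀ b, δ (algebraMap R L b) = algebraMap R L (d b) := by
  let g : Ω[R⁄k] →ₗ[R] L := (Algebra.linearMap R L).comp d.liftKaehlerDifferential
  let h : Ω[R⁄k] →ₗ[R] Ω[L⁄k] := KaehlerDifferential.map k k R L
  haveI : IsLocalizedModule (nonZeroDivisors R) h :=
    KaehlerDifferential.isLocalizedModule_map k R L (nonZeroDivisors R)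
  have hu : ∀ x : nonZeroDivisors R, IsUnit ((algebraMap R (Module.End R L)) x) := by
    intro x
    have hx : algebraMap R L x ≠ 0 := by
      rw [Ne, IsFractionRing.to_map_eq_zero_iff]
      exact nonZeroDivisors.ne_zero x.2
    rw [Module.End.isUnit_iff]
    constructor
    · intro a b hab
      simp only [Module.algebraMap_end_apply, Algebra.smul_def] at hab
      exact mul_left_cancel₀ hx hab
    · intro b
      refine ⟨(algebraMap R L x)⁻¹ * b, ?_⟩
      simp only [Module.algebraMap_end_apply, Algebra.smul_def]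
      field_simp
  let f : Ω[L⁄k] →ₗ[R] L := IsLocalizedModule.lift (nonZeroDivisors R) h g hu
  let f' : Ω[L⁄k] →ₗ[L] L := f.extendScalarsOfIsLocalization (nonZeroDivisors R) L
  refine ⟨f'.compDer (KaehlerDifferential.D k L), fun b => ?_⟩
  show f' (KaehlerDifferential.D k L (algebraMap R L b)) = _
  rw [← KaehlerDifferential.map_D k k R L b]
  show f (h (KaehlerDifferential.D k R b)) = _
  rw [IsLocalizedModule.lift_apply]
  simp [g]

theorem exists_valSub (R L : Type u) [CommRing R] [IsDomain R] [WfDvdMonoid R]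
    [Field L] [Algebra R L] [IsFractionRing R L] (π : R) (hπ : Prime π) :
    ∃ W : ValuationSubring L, ∀ x, x ∈ W ↔
      ∃ a b : R, ¬ π ∣ b ∧ x * algebraMap R L b = algebraMap R L a := by
  have hinj : Function.Injective (algebraMap R L) := IsFractionRing.injective R L
  let W0 : Subring L :=
    { carrier := {x | ∃ a b : R, ¬ π ∣ b ∧ x * algebraMap R L b = algebraMap R L a}
      mul_mem' := by
        rintro x y ⟨a, b, hb, h1⟩ ⟨c, d, hd, h2⟩
        refine ⟨a * c, b * d, fun h => (hπ.dvd_or_dvd h).elim hb hd, ?_⟩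
        rw [map_mul, map_mul, ← h1, ← h2]; ring
      one_mem' := ⟨1, 1, hπ.not_dvd_one, by simp⟩
      add_mem' := by
        rintro x y ⟨a, b, hb, h1⟩ ⟨c, d, hd, h2⟩
        refine ⟨a * d + c * b, b * d, fun h => (hπ.dvd_or_dvd h).elim hb hd, ?_⟩
        rw [map_add, map_mul, map_mul, map_mul, ← h1, ← h2]; ring
      zero_mem' := ⟨0, 1, hπ.not_dvd_one, by simp⟩
      neg_mem' := by
        rintro x ⟨a, b, hb, h1⟩
        exact ⟨-a, b, hb, by rw [map_neg, ← h1]; ring⟩ }
  refine ⟨{ W0 with mem_or_inv_mem' := ?_ }, fun x => Iff.rfl⟩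
  intro x
  change (∃ a b : R, ¬ π ∣ b ∧ x * algebraMap R L b = algebraMap R L a) ∨
    (∃ a b : R, ¬ π ∣ b ∧ x⁻¹ * algebraMap R L b = algebraMap R L a)
  by_cases hx0 : x = 0
  · left
    exact ⟨0, 1, hπ.not_dvd_one, by simp [hx0]⟩
  obtain ⟨a, b, hb, rfl⟩ := IsFractionRing.div_surjective R x
  have hb0 : b ≠ 0 := nonZeroDivisors.ne_zero hb
  have ha0 : a ≠ 0 := by
    rintro rfl
    exact hx0 (by simp)
  obtain ⟨m, a', ha', rfl⟩ := WfDvdMonoid.max_power_factor ha0 hπ.irreducible
  obtain ⟨n, b', hb', rfl⟩ := WfDvdMonoid.max_power_factor hb0 hπ.irreducible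
  have hπ0 : algebraMap R L π ≠ 0 := by
    rw [Ne, IsFractionRing.to_map_eq_zero_iff]; exact hπ.ne_zero
  have ha'0 : algebraMap R L a' ≠ 0 := by
    rw [Ne, IsFractionRing.to_map_eq_zero_iff]; rintro rfl; exact ha' (dvd_zero _)
  have hb'0 : algebraMap R L b' ≠ 0 := by
    rw [Ne, IsFractionRing.to_map_eq_zero_iff]; rintro rfl; exact hb' (dvd_zero _)
  rcases le_total n m with hnm | hnm
  · left
    obtain ⟨t, rfl⟩ := Nat.exists_eq_add_of_le hnm
    refine ⟨π ^ t * a', b', hb', ?_⟩
    simp only [map_mul, map_pow, pow_add]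
    field_simp
  · right
    obtain ⟨t, rfl⟩ := Nat.exists_eq_add_of_le hnm
    refine ⟨π ^ t * b', a', ha', ?_⟩
    simp only [map_mul, map_pow, pow_add]
    field_simp

theorem psi1_up (p : ℕ) [Fact p.Prime] (k : Type u) [Field k] :
    psi1 p k (up p k) = MvPolynomial.X 0 := by
  have hp : 0 < p := (Fact.out : p.Prime).pos
  unfold psi1 up mon
  rw [AddMonoidAlgebra.mapDomainAlgHom_apply, AddMonoidAlgebra.mapDomain_single]
  have : e1 p ⟨Finsupp.single 0 p + Finsupp.single 1 0, by
      show p ∣ _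
      simp⟩ = Finsupp.single 0 1 := by
    simp [e1, Nat.div_self hp]
  rw [this]
  rfl

theorem der_preserve (k R L : Type u) [Field k] [CommRing R] [IsDomain R] [Algebra k R]
    [Field L] [Algebra R L] [IsFractionRing R L] [Algebra k L] [IsScalarTower k R L]
    (π : R) (hπ : Prime π) (d : Derivation k R R) (δ : Derivation k L L)
    (hδ : ∀ b, δ (algebraMap R L b) = algebraMap R L (d b)) (x : L)
    (hx : ∃ a b : R, ¬ π ∣ b ∧ x * algebraMap R L b = algebraMap R L a) :
    ∃ a b : R, ¬ π ∣ b ∧ δ x * algebraMap R L b = algebraMap R L a := by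
  obtain ⟨a, b, hb, h⟩ := hx
  refine ⟨b * d a - a * d b, b * b, fun hh => (hπ.dvd_or_dvd hh).elim hb hb, ?_⟩
  have h2 := congrArg δ h
  rw [Derivation.leibniz, hδ, hδ, smul_eq_mul, smul_eq_mul] at h2
  rw [map_sub, map_mul, map_mul, map_mul, ← h2, ← h]
  ring

theorem exists_valuation (p : ℕ) [Fact p.Prime] (k : Type u) [Field k] :
    ∃ V : ValuationSubring (FractionRing (A p k)),
      (∀ a : A p k, algebraMap (A p k) (FractionRing (A p k)) a ∈ V) ∧
      sigma p k ∉ formsOver k (V : Set (FractionRing (A p k))) := by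
  have hp : 0 < p := (Fact.out : p.Prime).pos
  have hX : Prime (MvPolynomial.X 0 : B k) := MvPolynomial.X_prime
  obtain ⟨W, hW⟩ := exists_valSub (B k) (FractionRing (B k)) (MvPolynomial.X 0) hX
  obtain ⟨δ, hδ⟩ := exists_der_ext k (B k) (FractionRing (B k)) (MvPolynomial.pderiv (0 : Fin 2))
  have hinj : Function.Injective
      ((algebraMap (B k) (FractionRing (B k))).comp (psi1 p k).toRingHom) := by
    rw [RingHom.coe_comp]
    exact (IsFractionRing.injective (B k) (FractionRing (B k))).comp (psi1_injective hp k)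
  obtain ⟨θ, hθ⟩ : ∃ θ : FractionRing (A p k) →+* FractionRing (B k),
      ∀ a, θ (algebraMap (A p k) (FractionRing (A p k)) a) =
        algebraMap (B k) (FractionRing (B k)) (psi1 p k a) :=
    ⟨IsFractionRing.lift hinj, fun a => IsFractionRing.lift_algebraMap hinj a⟩
  refine ⟨W.comap θ, ?_, ?_⟩
  · intro a
    rw [ValuationSubring.mem_comap, hθ, hW]
    exact ⟨psi1 p k a, 1, hX.not_dvd_one, by simp⟩
  · intro hmem
    letI : Algebra (FractionRing (A p k)) (FractionRing (B k)) := θ.toAlgebra
    haveI : IsScalarTower k (FractionRing (A p k)) (FractionRing (B k)) := by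
      refine IsScalarTower.of_algebraMap_eq fun c => ?_
      change _ = θ _
      rw [IsScalarTower.algebraMap_apply k (A p k) (FractionRing (A p k)), hθ, AlgHom.commutes,
        ← IsScalarTower.algebraMap_apply k (B k) (FractionRing (B k))]
    obtain ⟨Λ, hΛ⟩ : ∃ Λ : Ω[FractionRing (A p k)⁄k] →ₗ[FractionRing (A p k)] FractionRing (B k),
        ∀ x, Λ (KaehlerDifferential.D k (FractionRing (A p k)) x) = δ (θ x) :=
      ⟨(δ.compAlgebraMap (FractionRing (A p k))).liftKaehlerDifferential, fun x => by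
        rw [Derivation.liftKaehlerDifferential_comp_D]
        rfl⟩
    have hsmul : ∀ (a : FractionRing (A p k)) (y : FractionRing (B k)), a • y = θ a * y :=
      fun a y => rfl
    have key : ∀ ω ∈ formsOver k ((W.comap θ : ValuationSubring _) : Set (FractionRing (A p k))),
        Λ ω ∈ W := by
      intro ω hω
      unfold formsOver at hω
      induction hω using AddSubgroup.closure_induction with
      | mem x hx =>
        obtain ⟨a, ha, b, hb, rfl⟩ := hx
        rw [map_smul, hΛ, hsmul]
        refine W.mul_mem _ _ ha ?_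
        rw [hW]
        refine der_preserve k (B k) (FractionRing (B k)) (MvPolynomial.X 0) hX
          (MvPolynomial.pderiv (0 : Fin 2)) δ hδ _ ?_
        rw [← hW]
        exact hb
      | zero => rw [map_zero]; exact W.zero_mem
      | add x y hx hy h1 h2 => rw [map_add]; exact W.add_mem _ _ h1 h2
      | neg x hx h1 => rw [map_neg]; exact W.neg_mem _ h1
    have h1 := key _ hmem
    unfold sigma at h1
    rw [map_smul, hΛ, hsmul, map_inv₀, hθ, psi1_up, hδ, MvPolynomial.pderiv_X_self, map_one,
      mul_one, hW] at h1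
    obtain ⟨a, b, hb, h⟩ := h1
    have hX0 : algebraMap (B k) (FractionRing (B k)) (MvPolynomial.X 0) ≠ 0 := by
      rw [Ne, IsFractionRing.to_map_eq_zero_iff]; exact hX.ne_zero
    apply hb
    refine ⟨a, IsFractionRing.injective (B k) (FractionRing (B k)) ?_⟩
    rw [map_mul, ← h]
    field_simp

end Pool.Agent.Helper76.FReg
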