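import Pool.Agent.Helper76.FRRing1
import Pool.Agent.Helper76.FRRing2
import Pool.Agent.Helper76.FRPoint
import Pool.Agent.Helper76.FRChart
import Pool.Agent.Helper76.FRProj

set_option linter.style.longLine false

open AlgebraicGeometry CategoryTheory

universe u

namespace Pool.Agent.Helper76.FReg

theorem Charts.mem1 {p : ℕ} [Fact p.Prime] {k : Type u} [Field k] {Y : Scheme.{u}}
    {π : Y ⟶ Spec (.of (A p k))} (c : Charts p k π) (x : PrimeSpectrum (B k)) :
    c.j1 x ∈ excLocus π ↔ (MvPolynomial.X 0 : B k) ∈ x.asIdeal := by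
  have := c.o1
  have h := (stalk_chart _ π c.j1 c.c1 x).trans (stalk_iff1 p k x)
  show ¬ IsIso (π.stalkMap (c.j1 x)) ↔ _
  rw [h, not_not]

theorem Charts.mem2 {p : ℕ} [Fact p.Prime] {k : Type u} [Field k] {Y : Scheme.{u}}
    {π : Y ⟶ Spec (.of (A p k))} (c : Charts p k π) (x : PrimeSpectrum (B k)) :
    c.j2 x ∈ excLocus π ↔ (MvPolynomial.X 0 : B k) ∈ x.asIdeal := by
  have := c.o2
  have h := (stalk_chart _ π c.j2 c.c2 x).trans (stalk_iff2 p k x)
  show ¬ IsIso (π.stalkMap (c.j2 x)) ↔ _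
  rw [h, not_not]

theorem Charts.snc {p : ℕ} [Fact p.Prime] {k : Type u} [Field k] [IsAlgClosed k] {Y : Scheme.{u}}
    {π : Y ⟶ Spec (.of (A p k))} (c : Charts p k π) : IsSNC (excLocus π) := by
  have hs := c.exc_spec c.mem1 c.mem2
  refine ⟨c.exc_closed c.mem1 c.mem2, fun y hy hcl => ?_⟩
  have := c.o1
  have := c.o2
  rcases c.cover y with ⟨x, rfl⟩ | ⟨x, rfl⟩
  · obtain ⟨a, b, h1, h2⟩ := snc_chart (excLocus π) c.j1 c.mem1 hs x ((c.mem1 x).mp hy) hcl
    exact ⟨a, b, h1, Or.inl h2⟩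
  · have hs' : ∀ z ∈ excLocus π, c.j2 (sPoint k) ⤳ z := by rw [← c.gen]; exact hs
    obtain ⟨a, b, h1, h2⟩ := snc_chart (excLocus π) c.j2 c.mem2 hs' x ((c.mem2 x).mp hy) hcl
    exact ⟨a, b, h1, Or.inl h2⟩

theorem main (p : ℕ) [Fact p.Prime] (k : Type u) [Field k] [IsAlgClosed k] [CharP k p] :
    ∃ (A : Type u) (_ : CommRing A) (_ : IsDomain A) (_ : Algebra k A),
      Algebra.FiniteType k A ∧ IsIntegrallyClosed A ∧ ringKrullDim A = 2 ∧
      StronglyFRegular p A ∧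
      (∃ (Y : Scheme.{u}) (_ : IsIntegral Y) (π : Y ⟶ Spec (.of A)), IsLogResolution k π) ∧
      ∃ σ : Ω[FractionRing A⁄k], IsRegularOnSmoothLocus k A σ ∧
        ∀ (Y : Scheme.{u}) (_ : IsIntegral Y) (π : Y ⟶ Spec (.of A)),
          IsLogResolution k π → ¬ Lifts k π σ := by
  refine ⟨A p k, inferInstance, inferInstance, inferInstance, finiteType p k, intClosed p k,
    dimTwo p k, sfr p k, ?_, sigma p k, sigma_reg p k (not_smooth p k), ?_⟩
  · obtain ⟨Y, π, hp, ⟨c⟩⟩ := exists_charts p k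
    have := c.isIntegral
    exact ⟨Y, this, π, ⟨c.smooth, hp, c.birational, c.snc⟩⟩
  · intro Y _ π hπ hl
    obtain ⟨V, hV, hs⟩ := exists_valuation p k
    have := hπ.proper
    obtain ⟨y, hy⟩ := exists_point π hπ.birational V hV
    apply hs
    refine AddSubgroup.closure_mono ?_ (hl y)
    rintro ω ⟨a, ha, b, hb, rfl⟩
    exact ⟨a, hy ha, b, hy hb, rfl⟩

end Pool.Agent.Helper76.FReg
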