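import Pool.Agent.Helper76.FRBase

set_option linter.style.longLine false

open AlgebraicGeometry CategoryTheory

universe u

namespace Pool.Agent.Helper76.FReg

/-- generators of the monoid -/
noncomputable def finiteType_g (p : ℕ) (i : Fin (p + 1)) : M0 p :=
  ⟨Finsupp.single 0 i.1 + Finsupp.single 1 (p - i.1), by
    show p ∣ _
    have h := i.2
    simp only [Finsupp.coe_add, Pi.add_apply]
    simp
    have : i.1 + (p - i.1) = p := by omega
    rw [this]⟩

theorem finiteType_fg (p : ℕ) (hp : 0 < p) : AddMonoid.FG (M0 p) := by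
  rw [AddMonoid.fg_iff]
  refine ⟨Set.range (finiteType_g p), ?_, Set.finite_range _⟩
  rw [eq_top_iff]
  have key : ∀ n : ℕ, ∀ m : M0 p, m.1 0 + m.1 1 = n →
      m ∈ AddSubmonoid.closure (Set.range (finiteType_g p)) := by
    intro n
    induction n using Nat.strong_induction_on with
    | _ n ih =>
      intro m hm
      rcases Nat.eq_zero_or_pos n with hn | hn
      · have hm0 : m = 0 := by
          apply Subtype.ext
          ext i
          fin_cases i
          · show m.1 0 = 0
            omega
          · show m.1 1 = 0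
            omega
        rw [hm0]
        exact zero_mem _
      · have hdvd : p ∣ m.1 0 + m.1 1 := m.2
        have hle : p ≤ m.1 0 + m.1 1 := Nat.le_of_dvd (by omega) hdvd
        obtain ⟨i, hi1, hi2, hi3⟩ : ∃ i : ℕ, i ≤ p ∧ i ≤ m.1 0 ∧ p - i ≤ m.1 1 := by
          refine ⟨min (m.1 0) p, min_le_right _ _, min_le_left _ _, ?_⟩
          rcases le_total (m.1 0) p with h | h
          · rw [min_eq_left h]
            omega
          · rw [min_eq_right h]
            omega
        have hdvd2 : p ∣ (m.1 0 - i) + (m.1 1 - (p - i)) := by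
          have h1 : (m.1 0 - i) + (m.1 1 - (p - i)) = (m.1 0 + m.1 1) - p := by omega
          rw [h1]
          exact Nat.dvd_sub hdvd dvd_rfl
        let m' : M0 p := ⟨Finsupp.single 0 (m.1 0 - i) + Finsupp.single 1 (m.1 1 - (p - i)), by
          show p ∣ _
          simpa using hdvd2⟩
        have hm'0 : m'.1 0 = m.1 0 - i := by simp [m']
        have hm'1 : m'.1 1 = m.1 1 - (p - i) := by simp [m']
        have h1 : m' ∈ AddSubmonoid.closure (Set.range (finiteType_g p)) := by
          refine ih (m'.1 0 + m'.1 1) ?_ m' rfl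
          rw [hm'0, hm'1]
          omega
        have h2 : finiteType_g p ⟨i, by omega⟩ ∈ AddSubmonoid.closure (Set.range (finiteType_g p)) :=
          AddSubmonoid.subset_closure ⟨_, rfl⟩
        have h3 : m = finiteType_g p ⟨i, by omega⟩ + m' := by
          apply Subtype.ext
          ext j
          rw [AddSubmonoid.coe_add, Finsupp.add_apply]
          fin_cases j
          · show m.1 0 = (finiteType_g p ⟨i, by omega⟩).1 0 + m'.1 0
            rw [hm'0]
            have : (finiteType_g p ⟨i, by omega⟩).1 0 = i := by simp [finiteType_g]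
            rw [this]
            omega
          · show m.1 1 = (finiteType_g p ⟨i, by omega⟩).1 1 + m'.1 1
            rw [hm'1]
            have : (finiteType_g p ⟨i, by omega⟩).1 1 = p - i := by simp [finiteType_g]
            rw [this]
            omega
        rw [h3]
        exact add_mem h2 h1
  intro m _
  exact key _ m rfl

theorem finiteType (p : ℕ) [Fact p.Prime] (k : Type u) [Field k] :
    Algebra.FiniteType k (A p k) := by
  have := finiteType_fg p (Fact.out : p.Prime).pos
  infer_instance

theorem ic_retract {A S : Type u} [CommRing A] [IsDomain A] [CommRing S] [IsDomain S]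
    [IsIntegrallyClosed S] (ε : A →+* S) (hε : Function.Injective ε) (ρ : S →+ A)
    (hρ : ∀ a f, ρ (ε a * f) = a * ρ f) (h1 : ρ 1 = 1) : IsIntegrallyClosed A := by
  rw [isIntegrallyClosed_iff (FractionRing A)]
  intro x hx
  have hinj : Function.Injective ((algebraMap S (FractionRing S)).comp ε) :=
    (IsFractionRing.injective S (FractionRing S)).comp hε
  let φ : FractionRing A →+* FractionRing S := IsFractionRing.lift hinj
  have hφ : ∀ a, φ (algebraMap A (FractionRing A) a) = algebraMap S (FractionRing S) (ε a) :=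
    fun a => IsFractionRing.lift_algebraMap hinj a
  obtain ⟨P, hP, hPx⟩ := hx
  have hint : IsIntegral S (φ x) := by
    refine ⟨P.map ε, hP.map ε, ?_⟩
    rw [Polynomial.eval₂_map]
    have h2 : (algebraMap S (FractionRing S)).comp ε = φ.comp (algebraMap A (FractionRing A)) := by
      ext a
      simp only [RingHom.comp_apply, hφ]
    rw [h2, ← Polynomial.hom_eval₂, hPx, map_zero]
  obtain ⟨s, hs⟩ := IsIntegrallyClosed.isIntegral_iff.1 hint
  obtain ⟨a, b, hb, hab⟩ := IsFractionRing.div_surjective (A := A) x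
  have hb0 : b ≠ 0 := nonZeroDivisors.ne_zero hb
  have hb1 : algebraMap A (FractionRing A) b ≠ 0 := by
    intro h
    exact hb0 ((IsFractionRing.injective A (FractionRing A)) (by rw [h, map_zero]))
  have e1 : ε b * s = ε a * 1 := by
    apply IsFractionRing.injective S (FractionRing S)
    rw [map_mul, hs, ← hφ, mul_one, ← hφ, ← map_mul, ← hab, mul_div_cancel₀ _ hb1]
  have e2 : b * ρ s = a := by
    rw [← hρ, e1, hρ, h1, mul_one]
  refine ⟨ρ s, ?_⟩
  rw [← hab, eq_div_iff hb1, ← map_mul, mul_comm, e2]

open Classical in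
/-- the retraction -/
noncomputable def rho (p : ℕ) (k : Type u) [Field k] : B k →+ A p k where
  toFun f := AddMonoidAlgebra.ofCoeff (Finsupp.comapDomain (Subtype.val : M0 p → (Fin 2 →₀ ℕ))
    (AddMonoidAlgebra.coeff f) Subtype.val_injective.injOn)
  map_zero' := by
    ext m
    rfl
  map_add' f g := by
    ext m
    rfl

theorem rho_coeff (p : ℕ) (k : Type u) [Field k] (f : B k) (m : M0 p) :
    (rho p k f).coeff m = AddMonoidAlgebra.coeff f m.1 := rfl

theorem rho_single_mem (p : ℕ) (k : Type u) [Field k] (n : Fin 2 →₀ ℕ) (hn : n ∈ M0 p) (s : k) :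
    rho p k (AddMonoidAlgebra.single n s) = AddMonoidAlgebra.single ⟨n, hn⟩ s := by
  classical
  ext m
  rw [rho_coeff, AddMonoidAlgebra.coeff_single_apply, AddMonoidAlgebra.coeff_single_apply]
  by_cases h : n = m.1
  · rw [if_pos h, if_pos (Subtype.ext h)]
  · rw [if_neg h, if_neg (fun h' => h (congrArg Subtype.val h'))]

theorem rho_single_not (p : ℕ) (k : Type u) [Field k] (n : Fin 2 →₀ ℕ) (hn : n ∉ M0 p) (s : k) :
    rho p k (AddMonoidAlgebra.single n s) = 0 := by
  classical
  ext m
  rw [rho_coeff, AddMonoidAlgebra.coeff_single_apply]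
  have hne : ¬ (n = m.1) := by
    intro h
    rw [h] at hn
    exact hn m.2
  rw [if_neg hne]
  rfl

theorem mem_add_iff (p : ℕ) (m : M0 p) (n : Fin 2 →₀ ℕ) : m.1 + n ∈ M0 p ↔ n ∈ M0 p := by
  constructor
  · intro h
    have h1 : p ∣ (m.1 + n) 0 + (m.1 + n) 1 := h
    have h2 : p ∣ m.1 0 + m.1 1 := m.2
    show p ∣ n 0 + n 1
    rw [Finsupp.add_apply, Finsupp.add_apply] at h1
    have e : m.1 0 + n 0 + (m.1 1 + n 1) = (m.1 0 + m.1 1) + (n 0 + n 1) := by ring
    rw [e] at h1
    exact (Nat.dvd_add_right h2).1 h1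
  · intro h
    exact add_mem m.2 h

theorem rho_mul (p : ℕ) (k : Type u) [Field k] (a : A p k) (f : B k) :
    rho p k (eps p k a * f) = a * rho p k f := by
  refine AddMonoidAlgebra.induction_linear a ?_ ?_ ?_
  · rw [map_zero, zero_mul, map_zero, zero_mul]
  · intro x y hx hy
    rw [map_add, add_mul, map_add, hx, hy, add_mul]
  · intro m r
    refine AddMonoidAlgebra.induction_linear f ?_ ?_ ?_
    · rw [mul_zero, map_zero, mul_zero]
    · intro x y hx hy
      rw [mul_add, map_add, hx, hy, map_add, mul_add]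
    · intro n s
      have e1 : eps p k (AddMonoidAlgebra.single m r) = AddMonoidAlgebra.single m.1 r := by
        unfold eps
        simp
      rw [e1, AddMonoidAlgebra.single_mul_single]
      by_cases hn : n ∈ M0 p
      · rw [rho_single_mem p k n hn, rho_single_mem p k _ ((mem_add_iff p m n).2 hn),
          AddMonoidAlgebra.single_mul_single]
        rfl
      · rw [rho_single_not p k n hn, rho_single_not p k _ (fun h => hn ((mem_add_iff p m n).1 h)),
          mul_zero]

theorem rho_one (p : ℕ) (k : Type u) [Field k] : rho p k 1 = 1 := by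
  have h0 : (0 : Fin 2 →₀ ℕ) ∈ M0 p := (M0 p).zero_mem
  have := rho_single_mem p k 0 h0 1
  exact this

theorem intClosed (p : ℕ) [Fact p.Prime] (k : Type u) [Field k] :
    IsIntegrallyClosed (A p k) :=
  ic_retract (eps p k).toRingHom (eps_injective p k) (rho p k) (rho_mul p k) (rho_one p k)

theorem dim_eq_of_integral671 {R S : Type*} [CommRing R] [CommRing S] (f : R →+* S)
    (hf : Function.Injective f) (hi : f.IsIntegral) : ringKrullDim R = ringKrullDim S := by
  letI := f.toAlgebra
  haveI : Algebra.IsIntegral R S := ⟨hi⟩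
  haveI : FaithfulSMul R S := (faithfulSMul_iff_algebraMap_injective R S).2 hf
  apply le_antisymm
  · unfold ringKrullDim Order.krullDim
    refine iSup_le fun l => ?_
    obtain ⟨⟨P, hP1, hP2⟩⟩ :=
      (inferInstance : Nonempty (Ideal.primesOver (RelSeries.head l).asIdeal S))
    haveI := hP1
    haveI := hP2
    obtain ⟨L, hL, _⟩ := Ideal.exists_ltSeries_of_hasGoingUp (S := S) l P
    rw [← hL]
    exact Order.LTSeries.length_le_krullDim L
  · unfold ringKrullDim
    refine Order.krullDim_le_of_strictMono (PrimeSpectrum.comap (algebraMap R S)) ?_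
    intro P Q h
    exact Ideal.IsIntegral.comap_lt_comap (R := R) (I := P.asIdeal) (J := Q.asIdeal) h

theorem eps_up671 (p : ℕ) (k : Type u) [Field k] :
    (eps p k) (up p k) = (MvPolynomial.X 0 : B k) ^ p := by
  rw [MvPolynomial.X_pow_eq_monomial]
  have h : (eps p k) (up p k) = AddMonoidAlgebra.single
      ((Finsupp.single 0 p + Finsupp.single 1 0 : Fin 2 →₀ ℕ)) (1 : k) :=
    AddMonoidAlgebra.mapDomain_single
  rw [h, Finsupp.single_zero, add_zero]
  rfl

theorem eps_vp671 (p : ℕ) (k : Type u) [Field k] :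
    (eps p k) (vp p k) = (MvPolynomial.X 1 : B k) ^ p := by
  rw [MvPolynomial.X_pow_eq_monomial]
  have h : (eps p k) (vp p k) = AddMonoidAlgebra.single
      ((Finsupp.single 0 0 + Finsupp.single 1 p : Fin 2 →₀ ℕ)) (1 : k) :=
    AddMonoidAlgebra.mapDomain_single
  rw [h, Finsupp.single_zero, zero_add]
  rfl

theorem eps_integral671 (p : ℕ) (hp : 0 < p) (k : Type u) [Field k] :
    (eps p k).toRingHom.IsIntegral := by
  letI := (eps p k).toRingHom.toAlgebra
  intro x
  change IsIntegral (A p k) x
  have hX : ∀ i : Fin 2, IsIntegral (A p k) (MvPolynomial.X i : B k) := by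
    intro i
    apply IsIntegral.of_pow hp
    fin_cases i
    · have h : IsIntegral (A p k) (algebraMap (A p k) (B k) (up p k)) := isIntegral_algebraMap
      have e : algebraMap (A p k) (B k) (up p k) = (MvPolynomial.X 0 : B k) ^ p := eps_up671 p k
      rw [e] at h
      exact h
    · have h : IsIntegral (A p k) (algebraMap (A p k) (B k) (vp p k)) := isIntegral_algebraMap
      have e : algebraMap (A p k) (B k) (vp p k) = (MvPolynomial.X 1 : B k) ^ p := eps_vp671 p k
      rw [e] at h
      exact h
  induction x using MvPolynomial.induction_on with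
  | C a =>
    have h : IsIntegral (A p k) (algebraMap (A p k) (B k) (algebraMap k (A p k) a)) :=
      isIntegral_algebraMap
    have e : algebraMap (A p k) (B k) (algebraMap k (A p k) a) = (MvPolynomial.C a : B k) :=
      (eps p k).commutes a
    rw [e] at h
    exact h
  | add p q hp hq => exact hp.add hq
  | mul_X q i hq => exact hq.mul (hX i)

theorem dimTwo (p : ℕ) [Fact p.Prime] (k : Type u) [Field k] :
    ringKrullDim (A p k) = 2 := by
  rw [dim_eq_of_integral671 (eps p k).toRingHom (eps_injective p k)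
    (eps_integral671 p (Fact.out : p.Prime).pos k)]
  have h := MvPolynomial.ringKrullDim_of_isNoetherianRing (R := k) (ι := Fin 2)
  rw [ringKrullDim_eq_zero_of_field] at h
  refine h.trans ?_
  simp

section j23412
variable {M : Type*} [AddCommMonoid M] {k : Type*} [Field k]

open Classical in
/-- the additive map on monomials -/
private noncomputable def j23412_mon (q : ℕ) (m : M) (r : k →+ k) (j : M) :
    k →+ AddMonoidAlgebra k M :=
  if h : ∃ n, q • n + m = j then (AddMonoidAlgebra.singleAddHom h.choose).comp r else 0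

private noncomputable def j23412_phi (q : ℕ) (m : M) (r : k →+ k) :
    AddMonoidAlgebra k M →+ AddMonoidAlgebra k M :=
  (Finsupp.liftAddHom (j23412_mon q m r)).comp
    (AddMonoidAlgebra.coeffAddEquiv (R := k) (M := M)).toAddMonoidHom

private theorem j23412_phi_single (q : ℕ) (m : M) (r : k →+ k) (j : M) (y : k) :
    j23412_phi q m r (AddMonoidAlgebra.single j y) = j23412_mon q m r j y := by
  show Finsupp.liftAddHom (j23412_mon q m r) (AddMonoidAlgebra.single j y).coeff = _
  rw [AddMonoidAlgebra.coeff_single]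
  exact Finsupp.liftAddHom_apply_single _ _ _

private theorem j23412_mon_pos (q : ℕ) (m : M) (r : k →+ k)
    (h1 : ∀ n n' : M, q • n + m = q • n' + m → n = n') (n : M) (y : k) :
    j23412_mon q m r (q • n + m) y = AddMonoidAlgebra.single n (r y) := by
  have h : ∃ n', q • n' + m = q • n + m := ⟨n, rfl⟩
  have h2 : h.choose = n := h1 _ _ h.choose_spec
  unfold j23412_mon
  rw [dif_pos h]
  rw [AddMonoidHom.comp_apply, AddMonoidAlgebra.singleAddHom_apply, h2]

private theorem j23412_mon_neg (q : ℕ) (m : M) (r : k →+ k) (j : M) (h : ¬ ∃ n, q • n + m = j)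
    (y : k) : j23412_mon q m r j y = 0 := by
  unfold j23412_mon
  rw [dif_neg h]
  rfl

private theorem j23412_exists (p : ℕ) [Fact p.Prime] [CharP k p] [IsAlgClosed k] (e : ℕ) (m : M)
    (h1 : ∀ n n' : M, p ^ e • n + m = p ^ e • n' + m → n = n')
    (h2 : ∀ i j n : M, p ^ e • i + j = p ^ e • n + m → ∃ n', p ^ e • n' + m = j)
    (c : AddMonoidAlgebra k M) (hc : c.coeff m ≠ 0)
    (h3 : ∀ n, c.coeff (p ^ e • n + m) ≠ 0 → n = 0) :
    ∃ φ : AddMonoidAlgebra k M →+ AddMonoidAlgebra k M,
      (∀ a b, φ (a ^ p ^ e * b) = a * φ b) ∧ φ c = 1 := by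
  classical
  have hp : p.Prime := Fact.out
  have hpe : p ^ e ≠ 0 := pow_ne_zero _ hp.ne_zero
  have : CharP (AddMonoidAlgebra k M) p :=
    charP_of_injective_algebraMap (algebraMap k (AddMonoidAlgebra k M)).injective p
  obtain ⟨r, hr⟩ : ∃ r : k →+ k, ∀ y, r y = (iterateFrobeniusEquiv k p e).symm (y * (c.coeff m)⁻¹) :=
    ⟨((iterateFrobeniusEquiv k p e).symm : k →+* k).toAddMonoidHom.comp
      (AddMonoidHom.mulRight (c.coeff m)⁻¹), fun y => rfl⟩
  have hr1 : ∀ x y, r (x ^ p ^ e * y) = x * r y := by
    intro x y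
    rw [hr, hr, mul_assoc, map_mul]
    congr 1
    rw [RingEquiv.symm_apply_eq]
    rfl
  have hr2 : r (c.coeff m) = 1 := by
    rw [hr, mul_inv_cancel₀ hc, map_one]
  refine ⟨j23412_phi (p ^ e) m r, ?_, ?_⟩
  · intro a b
    induction a using AddMonoidAlgebra.induction_linear with
    | zero => rw [zero_pow hpe, zero_mul, zero_mul, map_zero]
    | add a a' iha iha' => rw [add_pow_char_pow, add_mul, map_add, iha, iha', add_mul]
    | single i x =>
      induction b using AddMonoidAlgebra.induction_linear with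
      | zero => rw [mul_zero, map_zero, mul_zero]
      | add b b' ihb ihb' => rw [mul_add, map_add, map_add, ihb, ihb', mul_add]
      | single j y =>
        rw [AddMonoidAlgebra.single_pow, AddMonoidAlgebra.single_mul_single, j23412_phi_single,
          j23412_phi_single]
        by_cases hj : ∃ n, p ^ e • n + m = j
        · obtain ⟨n, rfl⟩ := hj
          have e1 : p ^ e • i + (p ^ e • n + m) = p ^ e • (i + n) + m := by
            rw [smul_add, add_assoc]
          rw [e1, j23412_mon_pos _ _ _ h1, j23412_mon_pos _ _ _ h1,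
            AddMonoidAlgebra.single_mul_single, hr1]
        · have hj' : ¬ ∃ n, p ^ e • n + m = p ^ e • i + j := by
            rintro ⟨n, hn⟩
            exact hj (h2 i j n hn.symm)
          rw [j23412_mon_neg _ _ _ _ hj, j23412_mon_neg _ _ _ _ hj', mul_zero]
  · show Finsupp.liftAddHom (j23412_mon (p ^ e) m r) c.coeff = 1
    rw [Finsupp.liftAddHom_apply, Finsupp.sum, Finset.sum_eq_single m]
    · have e0 : m = p ^ e • (0 : M) + m := by rw [smul_zero, zero_add]
      have h4 := j23412_mon_pos (p ^ e) m r h1 0 (c.coeff m)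
      rw [← e0, hr2] at h4
      rw [h4]
      rfl
    · intro j hj hjm
      apply j23412_mon_neg
      rintro ⟨n, rfl⟩
      apply hjm
      rw [h3 n (Finsupp.mem_support_iff.1 hj), smul_zero, zero_add]
    · intro hm
      exact absurd (Finsupp.mem_support_iff.2 hc) hm

end j23412

theorem sfr (p : ℕ) [Fact p.Prime] (k : Type u) [Field k] [IsAlgClosed k] [CharP k p] :
    StronglyFRegular p (A p k) := by
  classical
  have hp : p.Prime := Fact.out
  intro c hc
  have hc' : c.coeff ≠ 0 := fun h => hc (AddMonoidAlgebra.coeff_eq_zero.1 h)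
  obtain ⟨m, hm⟩ := Finsupp.support_nonempty_iff.2 hc'
  obtain ⟨N, hN⟩ : ∃ N, N = c.coeff.support.sup (fun j : M0 p => j.1 0 + j.1 1) := ⟨_, rfl⟩
  have hle : ∀ j ∈ c.coeff.support, j.1 0 + j.1 1 ≤ N := by
    intro j hj
    rw [hN]
    exact Finset.le_sup (f := fun j : M0 p => j.1 0 + j.1 1) hj
  have hq : N + 1 < p ^ (N + 1) := Nat.lt_pow_self hp.one_lt
  have hmN := hle m hm
  refine ⟨N + 1, Nat.succ_pos _, ?_⟩
  obtain ⟨q, hqdef⟩ : ∃ q, q = p ^ (N + 1) := ⟨_, rfl⟩
  have hval : ∀ (n : M0 p) (t : Fin 2), (p ^ (N + 1) • n + m : M0 p).1 t = q * n.1 t + m.1 t := by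
    intro n t
    rw [hqdef]
    simp
  have hval' : ∀ (n j : M0 p) (t : Fin 2),
      (p ^ (N + 1) • n + j : M0 p).1 t = q * n.1 t + j.1 t := by
    intro n j t
    rw [hqdef]
    simp
  rw [← hqdef] at hq
  have hq0 : 0 < q := by omega
  have hmt : ∀ t : Fin 2, m.1 t < q := by
    intro t
    have h0 : m.1 0 < q := by omega
    have h1 : m.1 1 < q := by omega
    fin_cases t
    · exact h0
    · exact h1
  refine j23412_exists p (N + 1) m ?_ ?_ c (Finsupp.mem_support_iff.1 hm) ?_
  · intro n n' h
    apply Subtype.ext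
    ext t
    have h0 := DFunLike.congr_fun (congrArg Subtype.val h) t
    rw [hval', hval'] at h0
    exact Nat.eq_of_mul_eq_mul_left hq0 (by omega)
  · intro i j n h
    have h0 : ∀ t : Fin 2, q * i.1 t + j.1 t = q * n.1 t + m.1 t := by
      intro t
      have h1 := DFunLike.congr_fun (congrArg Subtype.val h) t
      rwa [hval', hval'] at h1
    have hin : ∀ t : Fin 2, i.1 t ≤ n.1 t := by
      intro t
      by_contra hcon
      push Not at hcon
      have h1 : q * (n.1 t + 1) ≤ q * i.1 t := Nat.mul_le_mul_left q hcon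
      have h2 := h0 t
      have h3 := hmt t
      rw [Nat.mul_add, Nat.mul_one] at h1
      omega
    have hdvd : p ∣ (n.1 - i.1) 0 + (n.1 - i.1) 1 := by
      have h1 : (n.1 - i.1) 0 + (n.1 - i.1) 1 = (n.1 0 + n.1 1) - (i.1 0 + i.1 1) := by
        rw [Finsupp.tsub_apply, Finsupp.tsub_apply]
        have h2 := hin 0
        have h3 := hin 1
        omega
      rw [h1]
      exact Nat.dvd_sub n.2 i.2
    refine ⟨⟨n.1 - i.1, hdvd⟩, ?_⟩
    apply Subtype.ext
    ext t
    rw [hval']
    show q * (n.1 - i.1) t + m.1 t = j.1 t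
    rw [Finsupp.tsub_apply, Nat.mul_sub]
    have h1 := h0 t
    have h2 : q * i.1 t ≤ q * n.1 t := Nat.mul_le_mul_left q (hin t)
    omega
  · intro n hn
    have h0 := hle _ (Finsupp.mem_support_iff.2 hn)
    rw [hval', hval'] at h0
    have h1 : n.1 0 = 0 := by
      by_contra hcon
      have h2 : q * 1 ≤ q * n.1 0 := Nat.mul_le_mul_left q (Nat.one_le_iff_ne_zero.2 hcon)
      omega
    have h2 : n.1 1 = 0 := by
      by_contra hcon
      have h2 : q * 1 ≤ q * n.1 1 := Nat.mul_le_mul_left q (Nat.one_le_iff_ne_zero.2 hcon)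
      omega
    apply Subtype.ext
    ext t
    fin_cases t
    · exact h1
    · exact h2

end Pool.Agent.Helper76.FReg
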