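import Pool.Agent.Helper76.FRBase

set_option linter.style.longLine false

open AlgebraicGeometry CategoryTheory

universe u

namespace Pool.Agent.Helper76.FReg

theorem si_psi1_single (p : ℕ) (k : Type u) [Field k] (m : M0 p) (c : k) :
    psi1 p k (AddMonoidAlgebra.single m c) = MvPolynomial.monomial (e1 p m) c := by
  show AddMonoidAlgebra.mapDomain (e1 p) (AddMonoidAlgebra.single m c) = _
  rw [AddMonoidAlgebra.mapDomain_single]
  rfl

theorem si_coeff (p : ℕ) (k : Type u) [Field k] (u : Fin 2 →₀ ℕ)
    (hu : ∀ m : M0 p, e1 p m ≠ u) (a : A p k) :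
    MvPolynomial.coeff u (psi1 p k a) = 0 := by
  induction a using AddMonoidAlgebra.induction_linear with
  | zero => simp
  | add f g hf hg => rw [map_add, MvPolynomial.coeff_add, hf, hg, add_zero]
  | single m c => rw [si_psi1_single, MvPolynomial.coeff_monomial, if_neg (hu m)]

theorem si_surj (p : ℕ) (hp : 0 < p) (k : Type u) [Field k] (b : B k) :
    ∃ n : ℕ, ∀ m, n ≤ m → ∃ a : A p k, psi1 p k a = (MvPolynomial.X 0 : B k) ^ m * b := by
  induction b using MvPolynomial.induction_on' with
  | monomial u c =>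
    refine ⟨u 1, fun m hm => ?_⟩
    have h0 : u 1 ≤ p * (m + u 0) := by nlinarith [Nat.zero_le (u 0)]
    have h1 : p ∣ (p * (m + u 0) - u 1) + u 1 := by
      rw [Nat.sub_add_cancel h0]; exact Dvd.intro _ rfl
    refine ⟨AddMonoidAlgebra.single
      ⟨Finsupp.single 0 (p * (m + u 0) - u 1) + Finsupp.single 1 (u 1), by
        show p ∣ _
        simpa using h1⟩ c, ?_⟩
    rw [si_psi1_single, MvPolynomial.X_pow_eq_monomial, MvPolynomial.monomial_mul, one_mul]
    have h2 : (p * (m + u 0) - u 1 + u 1) / p = m + u 0 := by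
      rw [Nat.sub_add_cancel h0]
      exact Nat.mul_div_cancel_left _ hp
    have h3 : e1 p ⟨Finsupp.single 0 (p * (m + u 0) - u 1) + Finsupp.single 1 (u 1), by
        show p ∣ _
        simpa using h1⟩ = Finsupp.single 0 m + u := by
      ext i
      fin_cases i
      · simp [e1]
        exact h2
      · simp [e1]
    rw [h3]
  | add f g hf hg =>
    obtain ⟨n1, h1⟩ := hf
    obtain ⟨n2, h2⟩ := hg
    refine ⟨max n1 n2, fun m hm => ?_⟩
    obtain ⟨a1, ha1⟩ := h1 m (le_trans (le_max_left _ _) hm)
    obtain ⟨a2, ha2⟩ := h2 m (le_trans (le_max_right _ _) hm)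
    refine ⟨a1 + a2, ?_⟩
    rw [map_add, ha1, ha2, mul_add]

theorem stalk_iff1 (p : ℕ) [Fact p.Prime] (k : Type u) [Field k] (q : PrimeSpectrum (B k)) :
    Function.Bijective (Localization.localRingHom (q.asIdeal.comap (psi1 p k).toRingHom)
      q.asIdeal (psi1 p k).toRingHom rfl) ↔ (MvPolynomial.X 0 : B k) ∉ q.asIdeal := by
  have hp : 0 < p := (Fact.out : p.Prime).pos
  have hinj := psi1_injective hp k
  constructor
  · rintro ⟨-, hs⟩ hX
    obtain ⟨z, hz⟩ := hs (algebraMap (B k) _ (MvPolynomial.X 1))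
    obtain ⟨a, a', rfl⟩ := IsLocalization.exists_mk'_eq
      (q.asIdeal.comap (psi1 p k).toRingHom).primeCompl z
    rw [Localization.localRingHom_mk'] at hz
    have h1 := (IsLocalization.eq_mk'_iff_mul_eq.1 hz.symm)
    rw [← map_mul] at h1
    have h2 : MvPolynomial.X 1 * (psi1 p k) (a' : A p k) = psi1 p k a :=
      IsLocalization.injective (Localization.AtPrime q.asIdeal)
        q.asIdeal.primeCompl_le_nonZeroDivisors h1
    have h3 : MvPolynomial.coeff (Finsupp.single 1 1) (psi1 p k a) = 0 := by
      apply si_coeff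
      intro m hm
      have e0 := DFunLike.congr_fun hm 0
      have e1' := DFunLike.congr_fun hm 1
      simp [e1] at e0 e1'
      have h4 := m.2
      have h5 : p ∣ m.1 0 + m.1 1 := h4
      obtain ⟨c, hc⟩ := h5
      rw [e1'] at hc e0
      rw [hc] at e0
      rcases e0 with h | h
      · omega
      · rcases Nat.eq_zero_or_pos c with rfl | hcp
        · omega
        · nlinarith
    rw [← h2] at h3
    have h4 : MvPolynomial.coeff (Finsupp.single 1 1) (MvPolynomial.X 1 * (psi1 p k) (a' : A p k)) =
        MvPolynomial.coeff 0 ((psi1 p k) (a' : A p k)) := by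
      have := MvPolynomial.coeff_X_mul (0 : Fin 2 →₀ ℕ) 1 ((psi1 p k) (a' : A p k))
      rw [add_zero] at this
      exact this
    rw [h4] at h3
    have h5 : (psi1 p k) (a' : A p k) ∈ Ideal.span ((MvPolynomial.X : Fin 2 → B k) '' {0}) := by
      rw [MvPolynomial.mem_ideal_span_X_image]
      intro m hm
      refine ⟨0, rfl, ?_⟩
      intro hm0
      rw [MvPolynomial.mem_support_iff] at hm
      apply hm
      by_cases hm1 : m 1 = 0
      · have : m = 0 := by
          ext i
          fin_cases i
          · exact hm0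
          · exact hm1
        rw [this]
        exact h3
      · apply si_coeff
        intro w hw
        have e0 := DFunLike.congr_fun hw 0
        have e1' := DFunLike.congr_fun hw 1
        simp [e1] at e0 e1'
        rw [hm0] at e0
        have h5 : p ∣ w.1 0 + w.1 1 := w.2
        obtain ⟨c, hc⟩ := h5
        rw [hc] at e0
        have hc0 : c = 0 := by
          rw [Nat.mul_div_cancel_left _ hp] at e0
          exact e0
        rw [hc0] at hc
        omega
    have h6 : Ideal.span ((MvPolynomial.X : Fin 2 → B k) '' {0}) ≤ q.asIdeal := by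
      rw [Ideal.span_le]
      rintro x ⟨i, hi, rfl⟩
      rw [Set.mem_singleton_iff] at hi
      subst hi
      exact hX
    exact a'.2 (h6 h5)
  · intro hX
    constructor
    · rw [injective_iff_map_eq_zero]
      intro z hz
      obtain ⟨a, a', rfl⟩ := IsLocalization.exists_mk'_eq
        (q.asIdeal.comap (psi1 p k).toRingHom).primeCompl z
      rw [Localization.localRingHom_mk', IsLocalization.mk'_eq_zero_iff] at hz
      obtain ⟨c, hc⟩ := hz
      have hc0 : (c : B k) ≠ 0 := by
        intro h
        exact c.2 (by rw [h]; exact q.asIdeal.zero_mem)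
      have h1 : psi1 p k a = 0 := by
        rcases mul_eq_zero.1 hc with h | h
        · exact absurd h hc0
        · exact h
      have h2 : a = 0 := hinj (by rw [h1, map_zero])
      rw [h2, IsLocalization.mk'_zero]
    · intro w
      obtain ⟨b, s, rfl⟩ := IsLocalization.exists_mk'_eq q.asIdeal.primeCompl w
      obtain ⟨n1, h1⟩ := si_surj p hp k b
      obtain ⟨n2, h2⟩ := si_surj p hp k (s : B k)
      obtain ⟨a, ha⟩ := h1 (max n1 n2) (le_max_left _ _)
      obtain ⟨a', ha'⟩ := h2 (max n1 n2) (le_max_right _ _)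
      have hXn : (MvPolynomial.X 0 : B k) ^ (max n1 n2) ∉ q.asIdeal :=
        fun h => hX (q.2.mem_of_pow_mem _ h)
      have hna : psi1 p k a' ∉ q.asIdeal := by
        rw [ha']
        intro h
        rcases q.2.mem_or_mem h with h | h
        · exact hXn h
        · exact s.2 h
      refine ⟨IsLocalization.mk' _ a (⟨a', hna⟩ :
        (q.asIdeal.comap (psi1 p k).toRingHom).primeCompl), ?_⟩
      rw [Localization.localRingHom_mk']
      apply IsLocalization.mk'_eq_of_eq
      show psi1 p k a' * b = (s : B k) * psi1 p k a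
      rw [ha, ha']
      ring

theorem stalk_iff2_single (p : ℕ) (k : Type u) [Field k] (m : M0 p) (c : k) :
    psi2 p k (AddMonoidAlgebra.single m c) = MvPolynomial.monomial (e2 p m) c := by
  show AddMonoidAlgebra.mapDomain (e2 p) (AddMonoidAlgebra.single m c) = _
  rw [AddMonoidAlgebra.mapDomain_single]
  rfl

theorem stalk_iff2_e2 (p : ℕ) (m : M0 p) : (e2 p m) 0 = (m.1 0 + m.1 1) / p ∧ (e2 p m) 1 = m.1 0 := by
  simp [e2]

theorem stalk_iff2_vp {p : ℕ} (hp : 0 < p) (k : Type u) [Field k] :
    psi2 p k (vp p k) = MvPolynomial.X 0 := by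
  unfold vp mon
  rw [stalk_iff2_single]
  unfold MvPolynomial.X
  have h : ∀ m : M0 p, m.1 0 = 0 → m.1 1 = p → e2 p m = Finsupp.single 0 1 := by
    intro m h0 h1
    ext i
    match i with
    | 0 => rw [(stalk_iff2_e2 p m).1, h0, h1, zero_add, Nat.div_self hp]; simp
    | 1 => rw [(stalk_iff2_e2 p m).2, h0]; simp
  rw [h _ (by simp) (by simp)]

theorem stalk_iff2_coeff (p : ℕ) (k : Type u) [Field k] (a : A p k) (m : Fin 2 →₀ ℕ)
    (hm : p * m 0 < m 1) : MvPolynomial.coeff m (psi2 p k a) = 0 := by
  induction a using AddMonoidAlgebra.induction_linear with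
  | zero => simp
  | add x y hx hy => rw [map_add, MvPolynomial.coeff_add, hx, hy, add_zero]
  | single n c =>
    rw [stalk_iff2_single, MvPolynomial.coeff_monomial, if_neg]
    rintro rfl
    rw [(stalk_iff2_e2 p n).1, (stalk_iff2_e2 p n).2] at hm
    have := Nat.mul_div_cancel' (show p ∣ n.1 0 + n.1 1 from n.2)
    omega

theorem stalk_iff2_range {p : ℕ} (hp : 0 < p) (k : Type u) [Field k] (b : B k) :
    ∃ (n : ℕ) (a : A p k), psi2 p k a = MvPolynomial.X 0 ^ n * b := by
  induction b using AddMonoidAlgebra.induction_linear with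
  | zero => exact ⟨0, 0, by simp⟩
  | add x y hx hy =>
    obtain ⟨n1, a1, h1⟩ := hx
    obtain ⟨n2, a2, h2⟩ := hy
    refine ⟨n1 + n2, vp p k ^ n1 * a2 + vp p k ^ n2 * a1, ?_⟩
    rw [map_add, map_mul, map_mul, map_pow, map_pow, stalk_iff2_vp hp, h1, h2]
    ring
  | single m c =>
    have hle : m 1 ≤ p * (m 0 + m 1) := by nlinarith
    have hmem : ∀ x : Fin 2 →₀ ℕ, x 0 = m 1 → x 1 = p * (m 0 + m 1) - m 1 → x ∈ M0 p := by
      intro x h0 h1
      show p ∣ x 0 + x 1
      rw [h0, h1, Nat.add_sub_cancel' hle]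
      exact dvd_mul_right _ _
    refine ⟨m 1, AddMonoidAlgebra.single ⟨Finsupp.single 0 (m 1) +
      Finsupp.single 1 (p * (m 0 + m 1) - m 1), hmem _ (by simp) (by simp)⟩ c, ?_⟩
    rw [stalk_iff2_single]
    have h : ∀ x : M0 p, x.1 0 = m 1 → x.1 1 = p * (m 0 + m 1) - m 1 →
        e2 p x = Finsupp.single 0 (m 1) + m := by
      intro x h0 h1
      ext i
      match i with
      | 0 =>
        rw [(stalk_iff2_e2 p x).1, h0, h1, Nat.add_sub_cancel' hle, Nat.mul_div_cancel_left _ hp]
        simp
        omega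
      | 1 => rw [(stalk_iff2_e2 p x).2, h0]; simp
    rw [h _ (by simp) (by simp), MvPolynomial.X_pow_eq_monomial]
    show _ = MvPolynomial.monomial _ 1 * MvPolynomial.monomial m c
    rw [MvPolynomial.monomial_mul, one_mul]

theorem stalk_iff2 (p : ℕ) [Fact p.Prime] (k : Type u) [Field k] (q : PrimeSpectrum (B k)) :
    Function.Bijective (Localization.localRingHom (q.asIdeal.comap (psi2 p k).toRingHom)
      q.asIdeal (psi2 p k).toRingHom rfl) ↔ (MvPolynomial.X 0 : B k) ∉ q.asIdeal := by
  have hp : 0 < p := (Fact.out : p.Prime).pos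
  constructor
  · intro hbij hX
    obtain ⟨z, hz⟩ := hbij.2 (algebraMap (B k) _ (MvPolynomial.X 1))
    obtain ⟨a, a', rfl⟩ := IsLocalization.exists_mk'_eq
      (q.asIdeal.comap (psi2 p k).toRingHom).primeCompl z
    rw [Localization.localRingHom_mk', IsLocalization.mk'_eq_iff_eq_mul, ← map_mul] at hz
    have hinj : Function.Injective (algebraMap (B k) (Localization.AtPrime q.asIdeal)) :=
      IsLocalization.injective _ (Ideal.primeCompl_le_nonZeroDivisors q.asIdeal)
    have h1 : psi2 p k a = MvPolynomial.X 1 * psi2 p k a'.1 := hinj hz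
    have h2 : MvPolynomial.coeff 0 (psi2 p k a'.1) = 0 := by
      rw [← MvPolynomial.coeff_X_mul 0 1 (psi2 p k a'.1), ← h1]
      apply stalk_iff2_coeff
      simp
    have h3 : psi2 p k a'.1 ∈ Ideal.span (MvPolynomial.X '' ({0} : Set (Fin 2)) : Set (B k)) := by
      rw [MvPolynomial.mem_ideal_span_X_image]
      intro m hm
      refine ⟨0, rfl, ?_⟩
      intro h0
      rw [MvPolynomial.mem_support_iff] at hm
      apply hm
      by_cases h1 : m 1 = 0
      · have : m = 0 := by
          ext i
          match i with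
          | 0 => exact h0
          | 1 => exact h1
        rw [this]
        exact h2
      · apply stalk_iff2_coeff
        rw [h0]
        omega
    rw [Set.image_singleton] at h3
    have h4 : psi2 p k a'.1 ∈ q.asIdeal := (Ideal.span_singleton_le_iff_mem _).2 hX h3
    exact a'.2 h4
  · intro hX
    constructor
    · have h00 : (0 : B k) ∉ q.asIdeal.primeCompl := fun h0 => h0 (q.asIdeal.zero_mem)
      exact IsLocalization.map_injective_of_injective' _ _ _ _ h00 (psi2_injective hp k)
    · intro y
      obtain ⟨b, s, rfl⟩ := IsLocalization.exists_mk'_eq q.asIdeal.primeCompl y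
      obtain ⟨n, a, ha⟩ := stalk_iff2_range hp k b
      obtain ⟨m, a', ha'⟩ := stalk_iff2_range hp k s.1
      have hden : a' * vp p k ^ n ∈ (q.asIdeal.comap (psi2 p k).toRingHom).primeCompl := by
        intro h
        have h' : psi2 p k (a' * vp p k ^ n) ∈ q.asIdeal := h
        rw [map_mul, map_pow, stalk_iff2_vp hp, ha'] at h'
        rcases q.isPrime.mem_or_mem h' with h | h
        · rcases q.isPrime.mem_or_mem h with h | h
          · exact hX (q.isPrime.mem_of_pow_mem _ h)
          · exact s.2 h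
        · exact hX (q.isPrime.mem_of_pow_mem _ h)
      refine ⟨IsLocalization.mk' _ (a * vp p k ^ m) ⟨_, hden⟩, ?_⟩
      rw [Localization.localRingHom_mk', IsLocalization.mk'_eq_iff_eq]
      congr 1
      show s.1 * psi2 p k (a * vp p k ^ m) = psi2 p k (a' * vp p k ^ n) * b
      rw [map_mul, map_pow, map_mul, map_pow, stalk_iff2_vp hp, ha, ha']
      ring

/-- Stalk maps on an affine chart. -/
theorem stalk_chart {A B : Type u} [CommRing A] [CommRing B] (ψ : A →+* B) {Y : Scheme.{u}}
    (π : Y ⟶ Spec (.of A)) (j : Spec (.of B) ⟶ Y) [IsOpenImmersion j]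
    (h : j ≫ π = Spec.map (CommRingCat.ofHom ψ)) (q : PrimeSpectrum B) :
    IsIso (π.stalkMap (j q)) ↔
      Function.Bijective (Localization.localRingHom (q.asIdeal.comap ψ) q.asIdeal ψ rfl) := by
  have key : ∀ f g : Spec (.of B) ⟶ Spec (.of A), f = g →
      (IsIso (f.stalkMap q) ↔ IsIso (g.stalkMap q)) := by
    rintro f _ rfl; rfl
  have hj : IsIso (j.stalkMap q) := inferInstance
  have h1 : IsIso (π.stalkMap (j q)) ↔ IsIso ((j ≫ π).stalkMap q) := by
    rw [Scheme.Hom.stalkMap_comp]
    exact (@isIso_comp_right_iff _ _ _ _ _ (π.stalkMap (j q)) (j.stalkMap q) hj).symm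
  rw [h1, key _ _ h]
  have h2 := (MorphismProperty.isomorphisms CommRingCat).arrow_mk_iso_iff
    (Scheme.arrowStalkMapSpecIso (CommRingCat.ofHom ψ) q)
  rw [MorphismProperty.isomorphisms.iff, MorphismProperty.isomorphisms.iff] at h2
  rw [h2, ConcreteCategory.isIso_iff_bijective]
  rfl

end Pool.Agent.Helper76.FReg
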