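import Mathlib

set_option linter.style.longLine false

open AlgebraicGeometry CategoryTheory

universe u

namespace Pool.Agent.Helper76.FReg

/-- A domain `A` of characteristic `p` is strongly F-regular if for every `c ≠ 0` there are
`e > 0` and a `p^{-e}`-linear map `φ : A → A` with `φ c = 1`. -/
def StronglyFRegular (p : ℕ) (A : Type u) [CommRing A] : Prop :=
  ∀ c : A, c ≠ 0 → ∃ e : ℕ, 0 < e ∧ ∃ φ : A →+ A,
    (∀ a b : A, φ (a ^ p ^ e * b) = a * φ b) ∧ φ c = 1

/-- For a subring `R` of the field `K`: the image of `Ω_{R/k}` in `Ω_{K/k}`, i.e. the `R`-span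
of the differentials of elements of `R`. -/
noncomputable def formsOver (k : Type u) {K : Type u} [Field k] [Field K] [Algebra k K] (R : Set K) :
    AddSubgroup (Ω[K⁄k]) :=
  AddSubgroup.closure {ω | ∃ a ∈ R, ∃ b ∈ R, ω = a • KaehlerDifferential.D k K b}

/-- The local ring of `Spec A` at the prime `P`, as a subset of the function field. -/
def localRingAt (A : Type u) [CommRing A] [IsDomain A] (P : PrimeSpectrum A) :
    Set (FractionRing A) :=
  {f | ∃ a b : A, b ∉ P.asIdeal ∧
    f = algebraMap A (FractionRing A) a / algebraMap A (FractionRing A) b}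

/-- `σ` is a regular 1-form on the smooth locus of `Spec A`. -/
def IsRegularOnSmoothLocus (k A : Type u) [Field k] [CommRing A] [IsDomain A] [Algebra k A]
    (σ : Ω[FractionRing A⁄k]) : Prop :=
  ∀ P ∈ Algebra.smoothLocus k A, σ ∈ formsOver k (localRingAt A P)

/-- The pullback of functions `A → O_{Y,y}` along `π : Y ⟶ Spec A`. -/
noncomputable def pull {A : Type u} [CommRing A] {Y : Scheme.{u}}
    (π : Y ⟶ Spec (.of A)) (y : Y) : A →+* Y.presheaf.stalk y :=
  ((Scheme.ΓSpecIso (.of A)).inv ≫ π.appTop ≫ Y.presheaf.germ ⊤ y trivial).hom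

/-- The local ring `O_{Y,y}` as a subset of the function field of `Spec A`, for birational
`π : Y ⟶ Spec A`. -/
def localRingOn {A : Type u} [CommRing A] [IsDomain A] {Y : Scheme.{u}}
    (π : Y ⟶ Spec (.of A)) (y : Y) : Set (FractionRing A) :=
  {f | ∃ a b : A, b ≠ 0 ∧
    f = algebraMap A (FractionRing A) a / algebraMap A (FractionRing A) b ∧
    ∃ g : Y.presheaf.stalk y, g * pull π y b = pull π y a}

/-- `π^* σ` is a regular 1-form on all of `Y`. -/
def Lifts (k : Type u) {A : Type u} [Field k] [CommRing A] [IsDomain A] [Algebra k A]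
    {Y : Scheme.{u}} (π : Y ⟶ Spec (.of A)) (σ : Ω[FractionRing A⁄k]) : Prop :=
  ∀ y : Y, σ ∈ formsOver k (localRingOn π y)

/-- A morphism of integral schemes that maps the generic point to the generic point and induces
an isomorphism of function fields. -/
def IsBirationalMap {X Y : Scheme.{u}} [IsIntegral X] [IsIntegral Y] (π : Y ⟶ X) : Prop :=
  π (genericPoint Y) = genericPoint X ∧ IsIso (π.stalkMap (genericPoint Y))

/-- The exceptional locus: the points at which `π` is not a local isomorphism. -/
def excLocus {X Y : Scheme.{u}} (π : Y ⟶ X) : Set Y := {y | ¬ IsIso (π.stalkMap y)}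

/-- For `z ⤳ y` the prime ideal of `O_{Y,y}` defining the closure of `z`. -/
noncomputable def branchIdeal {Y : Scheme.{u}} {z y : Y} (h : z ⤳ y) :
    Ideal (Y.presheaf.stalk y) :=
  (IsLocalRing.maximalIdeal (Y.presheaf.stalk z)).comap (Y.presheaf.stalkSpecializes h).hom

/-- The ideals in `O_{Y,y}` of the irreducible components of `Z` through `y`. -/
def branches {Y : Scheme.{u}} (Z : Set Y) (y : Y) : Set (Ideal (Y.presheaf.stalk y)) :=
  {P | ∃ (z : Y) (h : z ⤳ y), z ∈ Z ∧ (∀ w ∈ Z, w ⤳ z → w = z) ∧ P = branchIdeal h}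

/-- `Z` is a simple normal crossings divisor on the smooth surface `Y`: it is closed, and at
every closed point `y` of `Z` there are local parameters `a, b` such that the components of `Z`
through `y` are `a = 0`, or `a = 0` and `b = 0`. -/
def IsSNC {Y : Scheme.{u}} (Z : Set Y) : Prop :=
  IsClosed Z ∧ ∀ y ∈ Z, IsClosed ({y} : Set Y) → ∃ a b : Y.presheaf.stalk y,
    Ideal.span {a, b} = IsLocalRing.maximalIdeal (Y.presheaf.stalk y) ∧
    (branches Z y = {Ideal.span {a}} ∨ branches Z y = {Ideal.span {a}, Ideal.span {b}})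

/-- `π : Y ⟶ Spec A` is a log resolution of the surface `Spec A` (with boundary `0`). -/
structure IsLogResolution (k : Type u) {A : Type u} [Field k] [CommRing A] [IsDomain A]
    [Algebra k A] {Y : Scheme.{u}} [IsIntegral Y] (π : Y ⟶ Spec (.of A)) : Prop where
  smooth : Smooth (π ≫ Spec.map (CommRingCat.ofHom (algebraMap k A)))
  proper : IsProper π
  birational : IsBirationalMap π
  snc : IsSNC (excLocus π)

end Pool.Agent.Helper76.FReg
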