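import Mathlib

set_option autoImplicit false
open Complex Filter Topology
open scoped InnerProductSpace

namespace Pool.Agent.Helper76.NormalHP

variable {H : Type*} [NormedAddCommGroup H] [InnerProductSpace ℂ H] [CompleteSpace H]

/-- functions of `|z|²` applied to a normal operator -/
noncomputable def fc (T : H →L[ℂ] H) (f : ℝ → ℂ) : H →L[ℂ] H := cfc (fun z : ℂ => f (‖z‖ ^ 2)) T

lemma fc_cont {f : ℝ → ℂ} (hf : Continuous f) (s : Set ℂ) :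
    ContinuousOn (fun z : ℂ => f (‖z‖ ^ 2)) s := by
  apply Continuous.continuousOn
  fun_prop

lemma fc_mul (T : H →L[ℂ] H) (f g : ℝ → ℂ) (hf : Continuous f) (hg : Continuous g) :
    fc T (fun t => f t * g t) = fc T f * fc T g :=
  cfc_mul _ _ T (fc_cont hf _) (fc_cont hg _)

lemma fc_sub (T : H →L[ℂ] H) (f g : ℝ → ℂ) (hf : Continuous f) (hg : Continuous g) :
    fc T (fun t => f t - g t) = fc T f - fc T g :=
  cfc_sub _ _ T (fc_cont hf _) (fc_cont hg _)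

lemma fc_const_mul (T : H →L[ℂ] H) (c : ℂ) (f : ℝ → ℂ) (hf : Continuous f) :
    fc T (fun t => c * f t) = c • fc T f :=
  cfc_const_mul c _ T (fc_cont hf _)

lemma fc_sum (T : H →L[ℂ] H) {ι : Type*} (s : Finset ι) (c : ι → ℂ) (f : ι → ℝ → ℂ)
    (hf : ∀ i, Continuous (f i)) :
    fc T (fun t => ∑ i ∈ s, c i * f i t) = ∑ i ∈ s, c i • fc T (f i) := by
  have h1 : (fun z : ℂ => ∑ i ∈ s, c i * f i (‖z‖ ^ 2))
      = ∑ i ∈ s, (fun z : ℂ => c i * f i (‖z‖ ^ 2)) := by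
    ext z
    simp
  unfold fc
  rw [h1, cfc_sum (fun i (z : ℂ) => c i * f i (‖z‖ ^ 2)) T s
    (fun i _ => continuousOn_const.mul (fc_cont (hf i) _))]
  apply Finset.sum_congr rfl
  intro i _
  exact cfc_const_mul (c i) _ T (fc_cont (hf i) _)

lemma fc_star (T : H →L[ℂ] H) (f : ℝ → ℂ) (hr : ∀ t, (starRingEnd ℂ) (f t) = f t) :
    star (fc T f) = fc T f := by
  unfold fc
  rw [← cfc_star]
  congr 1
  ext z
  exact hr _

lemma fc_norm_le (T : H →L[ℂ] H) (hT : IsStarNormal T) (f : ℝ → ℂ) (c : ℝ) (hc : 0 ≤ c)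
    (h : ∀ t ∈ Set.Icc (0 : ℝ) (‖T‖ ^ 2), ‖f t‖ ≤ c) : ‖fc T f‖ ≤ c := by
  apply norm_cfc_le hc
  intro z hz
  apply h
  constructor
  · positivity
  · by_cases hH : Nontrivial H
    · have := spectrum.norm_le_norm_of_mem hz
      exact pow_le_pow_left₀ (norm_nonneg _) this 2
    · exfalso
      rw [not_nontrivial_iff_subsingleton] at hH
      have : Subsingleton (H →L[ℂ] H) := inferInstance
      rw [spectrum.of_subsingleton] at hz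
      exact hz

lemma fc_one (T : H →L[ℂ] H) (hT : IsStarNormal T) : fc T (fun _ => 1) = 1 :=
  cfc_const_one ℂ T

lemma fc_id (T : H →L[ℂ] H) (hT : IsStarNormal T) : fc T (fun t => (t : ℂ)) = star T * T := by
  unfold fc
  have h1 : (fun z : ℂ => ((‖z‖ ^ 2 : ℝ) : ℂ)) = (fun z : ℂ => star z * z) := by
    ext z
    rw [Complex.ofReal_pow, ← Complex.conj_mul']
    rfl
  rw [h1, cfc_mul (fun z : ℂ => star z) (fun z : ℂ => z) T (by fun_prop) (by fun_prop),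
    cfc_star (fun z : ℂ => z) T, cfc_id' ℂ T]

lemma fc_pow (T : H →L[ℂ] H) (hT : IsStarNormal T) (n : ℕ) :
    fc T (fun t => (t : ℂ) ^ n) = (star T * T) ^ n := by
  induction n with
  | zero => simpa using fc_one T hT
  | succ n ih =>
    simp only [pow_succ]
    rw [fc_mul T _ _ (by fun_prop) (by fun_prop), ih, fc_id T hT]

/-- core estimate -/
lemma core (T : H →L[ℂ] H) (hT : IsStarNormal T) (q : Polynomial ℝ) {ι : Type*} (s : Finset ι)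
    (f g : ι → ℝ → ℂ) (hf : ∀ i, Continuous (f i)) (hg : ∀ i, Continuous (g i)) (ε : ℝ)
    (hε : 0 ≤ ε)
    (hq : ∀ t ∈ Set.Icc (0 : ℝ) (‖T‖ ^ 2), ∀ r ∈ Set.Icc (0 : ℝ) (‖T‖ ^ 2),
      ‖((q.eval (t * r) : ℝ) : ℂ) - ∑ i ∈ s, f i t * g i r‖ ≤ ε) (x y x' y' : H) :
    ‖(∑ j ∈ q.support, (q.coeff j : ℂ) * (⟪y, ((star T * T) ^ j) x⟫_ℂ * ⟪y', ((star T * T) ^ j) x'⟫_ℂ))
      - ∑ i ∈ s, ⟪y, fc T (f i) x⟫_ℂ * ⟪y', fc T (g i) x'⟫_ℂ‖ ≤ ε * (‖x‖ * ‖y‖ * ‖x'‖ * ‖y'‖) := by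
  set N := star T * T with hN
  have inner1 : ∀ t ∈ Set.Icc (0 : ℝ) (‖T‖ ^ 2),
      ‖(∑ j ∈ q.support, ((q.coeff j : ℂ) * ⟪y', (N ^ j) x'⟫_ℂ) * (t : ℂ) ^ j)
        - ∑ i ∈ s, ⟪y', fc T (g i) x'⟫_ℂ * f i t‖ ≤ ε * (‖x'‖ * ‖y'‖) := by
    intro t ht
    have e1 : (∑ j ∈ q.support, ((q.coeff j : ℂ) * ⟪y', (N ^ j) x'⟫_ℂ) * (t : ℂ) ^ j)
        - ∑ i ∈ s, ⟪y', fc T (g i) x'⟫_ℂ * f i t
        = ⟪y', fc T (fun r => (∑ j ∈ q.support, ((q.coeff j : ℂ) * (t : ℂ) ^ j) * (r : ℂ) ^ j)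
            - ∑ i ∈ s, f i t * g i r) x'⟫_ℂ := by
      rw [fc_sub T _ _ (by fun_prop) (by fun_prop), fc_sum T _ _ _ (by fun_prop),
        fc_sum T _ _ _ hg]
      simp only [sub_apply, sum_apply, smul_apply, inner_sub_right, inner_sum, inner_smul_right]
      congr 1
      · apply Finset.sum_congr rfl
        intro j _
        rw [fc_pow T hT]
        ring
      · apply Finset.sum_congr rfl
        intro i _
        ring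
    rw [e1]
    have e2 : ‖fc T (fun r => (∑ j ∈ q.support, ((q.coeff j : ℂ) * (t : ℂ) ^ j) * (r : ℂ) ^ j)
            - ∑ i ∈ s, f i t * g i r)‖ ≤ ε := by
      apply fc_norm_le T hT _ _ hε
      intro r hr
      have e3 : (∑ j ∈ q.support, ((q.coeff j : ℂ) * (t : ℂ) ^ j) * (r : ℂ) ^ j)
          = ((q.eval (t * r) : ℝ) : ℂ) := by
        rw [Polynomial.eval_eq_sum, Polynomial.sum]
        push_cast
        apply Finset.sum_congr rfl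
        intro j _
        ring
      rw [e3]
      exact hq t ht r hr
    calc ‖⟪y', fc T (fun r => (∑ j ∈ q.support, ((q.coeff j : ℂ) * (t : ℂ) ^ j) * (r : ℂ) ^ j)
            - ∑ i ∈ s, f i t * g i r) x'⟫_ℂ‖
        ≤ ‖y'‖ * ‖fc T (fun r => (∑ j ∈ q.support, ((q.coeff j : ℂ) * (t : ℂ) ^ j) * (r : ℂ) ^ j)
            - ∑ i ∈ s, f i t * g i r) x'‖ := norm_inner_le_norm _ _
      _ ≤ ‖y'‖ * (ε * ‖x'‖) := by
          apply mul_le_mul_of_nonneg_left _ (norm_nonneg _)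
          exact (ContinuousLinearMap.le_opNorm _ _).trans
            (mul_le_mul_of_nonneg_right e2 (norm_nonneg _))
      _ = ε * (‖x'‖ * ‖y'‖) := by ring
  have e4 : (∑ j ∈ q.support, (q.coeff j : ℂ) * (⟪y, (N ^ j) x⟫_ℂ * ⟪y', (N ^ j) x'⟫_ℂ))
      - ∑ i ∈ s, ⟪y, fc T (f i) x⟫_ℂ * ⟪y', fc T (g i) x'⟫_ℂ
      = ⟪y, fc T (fun t => (∑ j ∈ q.support, ((q.coeff j : ℂ) * ⟪y', (N ^ j) x'⟫_ℂ) * (t : ℂ) ^ j)
        - ∑ i ∈ s, ⟪y', fc T (g i) x'⟫_ℂ * f i t) x⟫_ℂ := by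
    rw [fc_sub T _ _ (by fun_prop) (by fun_prop), fc_sum T _ _ _ (by fun_prop),
        fc_sum T _ _ _ hf]
    simp only [sub_apply, sum_apply, smul_apply, inner_sub_right, inner_sum, inner_smul_right]
    congr 1
    · apply Finset.sum_congr rfl
      intro j _
      rw [fc_pow T hT]
      ring
    · apply Finset.sum_congr rfl
      intro i _
      ring
  rw [e4]
  have e5 : ‖fc T (fun t => (∑ j ∈ q.support, ((q.coeff j : ℂ) * ⟪y', (N ^ j) x'⟫_ℂ) * (t : ℂ) ^ j)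
        - ∑ i ∈ s, ⟪y', fc T (g i) x'⟫_ℂ * f i t)‖ ≤ ε * (‖x'‖ * ‖y'‖) := by
    apply fc_norm_le T hT _ _ (by positivity)
    exact inner1
  calc ‖⟪y, fc T (fun t => (∑ j ∈ q.support, ((q.coeff j : ℂ) * ⟪y', (N ^ j) x'⟫_ℂ) * (t : ℂ) ^ j)
        - ∑ i ∈ s, ⟪y', fc T (g i) x'⟫_ℂ * f i t) x⟫_ℂ‖
      ≤ ‖y‖ * ‖fc T (fun t => (∑ j ∈ q.support, ((q.coeff j : ℂ) * ⟪y', (N ^ j) x'⟫_ℂ) * (t : ℂ) ^ j)
        - ∑ i ∈ s, ⟪y', fc T (g i) x'⟫_ℂ * f i t) x‖ := norm_inner_le_norm _ _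
    _ ≤ ‖y‖ * ((ε * (‖x'‖ * ‖y'‖)) * ‖x‖) := by
        apply mul_le_mul_of_nonneg_left _ (norm_nonneg _)
        exact (ContinuousLinearMap.le_opNorm _ _).trans
          (mul_le_mul_of_nonneg_right e5 (norm_nonneg _))
    _ = ε * (‖x‖ * ‖y‖ * ‖x'‖ * ‖y'‖) := by ring

/-- transfer of a quadratic relation from the powers of `T* T` to continuous functions of it -/
lemma transfer (T : H →L[ℂ] H) (hT : IsStarNormal T) (F : ℝ → ℝ) (hF : Continuous F)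
    {ι : Type*} (s : Finset ι)
    (f g : ι → ℝ → ℂ) (hf : ∀ i, Continuous (f i)) (hg : ∀ i, Continuous (g i))
    (hfg : ∀ t : ℝ, 0 ≤ t → ∀ r : ℝ, 0 ≤ r → ((F (t * r) : ℝ) : ℂ) = ∑ i ∈ s, f i t * g i r)
    (x y x' y' u v u' v' : H)
    (hrel : ∀ n : ℕ, 2 * (⟪y, ((star T * T) ^ n) x⟫_ℂ * ⟪y', ((star T * T) ^ n) x'⟫_ℂ)
      = ⟪v, ((star T * T) ^ n) u⟫_ℂ * ⟪v', ((star T * T) ^ n) u'⟫_ℂ) :
    2 * (∑ i ∈ s, ⟪y, fc T (f i) x⟫_ℂ * ⟪y', fc T (g i) x'⟫_ℂ)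
      = ∑ i ∈ s, ⟪v, fc T (f i) u⟫_ℂ * ⟪v', fc T (g i) u'⟫_ℂ := by
  set C : ℝ := 2 * (‖x‖ * ‖y‖ * ‖x'‖ * ‖y'‖) + ‖u‖ * ‖v‖ * ‖u'‖ * ‖v'‖ with hC
  have hC0 : 0 ≤ C := by positivity
  have key : ∀ ε : ℝ, 0 < ε → ‖2 * (∑ i ∈ s, ⟪y, fc T (f i) x⟫_ℂ * ⟪y', fc T (g i) x'⟫_ℂ)
      - ∑ i ∈ s, ⟪v, fc T (f i) u⟫_ℂ * ⟪v', fc T (g i) u'⟫_ℂ‖ ≤ ε * C := by
    intro ε hε
    obtain ⟨q, hq⟩ := exists_polynomial_near_of_continuousOn 0 (‖T‖ ^ 2 * ‖T‖ ^ 2) F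
      hF.continuousOn ε hε
    have hq' : ∀ t ∈ Set.Icc (0 : ℝ) (‖T‖ ^ 2), ∀ r ∈ Set.Icc (0 : ℝ) (‖T‖ ^ 2),
      ‖((q.eval (t * r) : ℝ) : ℂ) - ∑ i ∈ s, f i t * g i r‖ ≤ ε := by
      intro t ht r hr
      rw [← hfg t ht.1 r hr.1, ← Complex.ofReal_sub, Complex.norm_real]
      apply (hq (t * r) ⟨mul_nonneg ht.1 hr.1, _⟩).le
      exact mul_le_mul ht.2 hr.2 hr.1 (by positivity)
    have h1 := core T hT q s f g hf hg ε hε.le hq' x y x' y'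
    have h2 := core T hT q s f g hf hg ε hε.le hq' u v u' v'
    have h3 : 2 * (∑ j ∈ q.support, (q.coeff j : ℂ) * (⟪y, ((star T * T) ^ j) x⟫_ℂ
        * ⟪y', ((star T * T) ^ j) x'⟫_ℂ))
        = ∑ j ∈ q.support, (q.coeff j : ℂ) * (⟪v, ((star T * T) ^ j) u⟫_ℂ
        * ⟪v', ((star T * T) ^ j) u'⟫_ℂ) := by
      rw [Finset.mul_sum]
      apply Finset.sum_congr rfl
      intro j _
      rw [← hrel j]
      ring
    set P1 := ∑ j ∈ q.support, (q.coeff j : ℂ) * (⟪y, ((star T * T) ^ j) x⟫_ℂ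
        * ⟪y', ((star T * T) ^ j) x'⟫_ℂ) with hP1
    set P2 := ∑ j ∈ q.support, (q.coeff j : ℂ) * (⟪v, ((star T * T) ^ j) u⟫_ℂ
        * ⟪v', ((star T * T) ^ j) u'⟫_ℂ) with hP2
    set F1 := ∑ i ∈ s, ⟪y, fc T (f i) x⟫_ℂ * ⟪y', fc T (g i) x'⟫_ℂ with hF1
    set F2 := ∑ i ∈ s, ⟪v, fc T (f i) u⟫_ℂ * ⟪v', fc T (g i) u'⟫_ℂ with hF2
    have h4 : 2 * F1 - F2 = (P2 - F2) - 2 * (P1 - F1) := by
      rw [← h3]
      ring
    rw [h4]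
    calc ‖(P2 - F2) - 2 * (P1 - F1)‖ ≤ ‖P2 - F2‖ + ‖2 * (P1 - F1)‖ := norm_sub_le _ _
      _ = ‖P2 - F2‖ + 2 * ‖P1 - F1‖ := by rw [norm_mul]; simp
      _ ≤ ε * (‖u‖ * ‖v‖ * ‖u'‖ * ‖v'‖) + 2 * (ε * (‖x‖ * ‖y‖ * ‖x'‖ * ‖y'‖)) := by linarith
      _ = ε * C := by rw [hC]; ring
  have h0 : ‖2 * (∑ i ∈ s, ⟪y, fc T (f i) x⟫_ℂ * ⟪y', fc T (g i) x'⟫_ℂ)
      - ∑ i ∈ s, ⟪v, fc T (f i) u⟫_ℂ * ⟪v', fc T (g i) u'⟫_ℂ‖ ≤ 0 := by
    apply le_of_forall_pos_le_add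
    intro ε hε
    rw [zero_add]
    have := key (ε / (C + 1)) (by positivity)
    refine this.trans ?_
    rw [div_mul_eq_mul_div, div_le_iff₀ (by positivity)]
    nlinarith
  exact sub_eq_zero.mp (norm_le_zero_iff.mp h0)

end Pool.Agent.Helper76.NormalHP
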