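import Pool.Agent.Helper76.HP9

set_option autoImplicit false
open Complex Filter Topology MeasureTheory FourierTransform
open scoped InnerProductSpace ENNReal

namespace Pool.Agent.Helper76.NormalHP

/-- the real quantity `∫ e^{-2rt} |x(t)|² dt` -/
noncomputable def JJ (x : L2H) (r : ℝ) : ℝ := ∫ t, Real.exp (-(2 * r) * t) * ‖x t‖ ^ 2 ∂mu0

lemma int_sq (x : L2H) : Integrable (fun t => ‖x t‖ ^ 2) mu0 := by
  have := (memLp_two_iff_integrable_sq_norm (Lp.aestronglyMeasurable x)).mp (Lp.memLp x)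
  exact this

lemma int_JJ (x : L2H) (r : ℝ) (hr : 0 ≤ r) :
    Integrable (fun t : ℝ => Real.exp (-(2 * r) * t) * ‖x t‖ ^ 2) mu0 := by
  apply (int_sq x).mono
  · apply AEStronglyMeasurable.mul (by fun_prop)
    exact (int_sq x).aestronglyMeasurable
  · filter_upwards [ae_restrict_mem measurableSet_Ioi] with t ht
    have ht' : (0 : ℝ) < t := ht
    rw [norm_mul, Real.norm_eq_abs, abs_of_pos (Real.exp_pos _)]
    have : Real.exp (-(2 * r) * t) ≤ 1 := by
      rw [Real.exp_le_one_iff]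
      nlinarith
    nlinarith [norm_nonneg (‖x t‖ ^ 2)]

lemma JJ_zero (x : L2H) : JJ x 0 = ‖x‖ ^ 2 := by
  have h1 : ⟪x, x⟫_ℂ = ((‖x‖ ^ 2 : ℝ) : ℂ) := by
    rw [inner_self_eq_norm_sq_to_K]
    simp
  rw [L2.inner_def] at h1
  have h2 : ∫ t, ⟪x t, x t⟫_ℂ ∂mu0 = ((∫ t, ‖x t‖ ^ 2 ∂mu0 : ℝ) : ℂ) := by
    rw [← integral_complex_ofReal]
    apply integral_congr_ae
    apply ae_of_all
    intro t
    simp only
    rw [inner_self_eq_norm_sq_to_K]
    simp
  rw [h2] at h1
  have h3 : ∫ t, ‖x t‖ ^ 2 ∂mu0 = ‖x‖ ^ 2 := by exact_mod_cast h1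
  unfold JJ
  simpa using h3

lemma JJ_le (x : L2H) (r : ℝ) (hr : 0 ≤ r) : JJ x r ≤ ‖x‖ ^ 2 := by
  rw [← JJ_zero]
  unfold JJ
  apply integral_mono_ae (int_JJ x r hr) (int_JJ x 0 le_rfl)
  filter_upwards [ae_restrict_mem measurableSet_Ioi] with t ht
  have ht' : (0 : ℝ) < t := ht
  apply mul_le_mul_of_nonneg_right _ (by positivity)
  apply Real.exp_le_exp.mpr
  nlinarith

lemma JJ_nonneg (x : L2H) (r : ℝ) : 0 ≤ JJ x r := by
  unfold JJ
  apply integral_nonneg
  intro t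
  positivity

lemma JJ_tendsto (x : L2H) : Tendsto (fun r => JJ x r) (𝓝[>] 0) (𝓝 (‖x‖ ^ 2)) := by
  rw [← JJ_zero]
  unfold JJ
  apply tendsto_integral_filter_of_dominated_convergence (fun t => ‖x t‖ ^ 2)
  · filter_upwards [self_mem_nhdsWithin] with r hr
    exact (int_JJ x r (le_of_lt hr)).aestronglyMeasurable
  · filter_upwards [self_mem_nhdsWithin] with r hr
    have hr' : (0 : ℝ) < r := hr
    filter_upwards [ae_restrict_mem measurableSet_Ioi] with t ht
    have ht' : (0 : ℝ) < t := ht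
    rw [norm_mul, Real.norm_eq_abs, abs_of_pos (Real.exp_pos _), norm_pow, norm_norm]
    have : Real.exp (-(2 * r) * t) ≤ 1 := by
      rw [Real.exp_le_one_iff]
      nlinarith
    nlinarith [sq_nonneg ‖x t‖]
  · exact int_sq x
  · apply ae_of_all
    intro t
    have h1 : Continuous (fun r : ℝ => Real.exp (-(2 * r) * t) * ‖x t‖ ^ 2) := by fun_prop
    exact (h1.tendsto 0).mono_left nhdsWithin_le_nhds

/-- the Paley–Wiener type identity on vertical lines -/
lemma pw (x : L2H) (r : ℝ) (hr : 0 < r) :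
    ∫⁻ y : ℝ, ‖⟪kk ((r : ℂ) + (y : ℂ) * Complex.I), x⟫_ℂ‖ₑ ^ 2
      = ENNReal.ofReal (2 * Real.pi * JJ x r) := by
  set g : ℝ → ℂ := fun t => Complex.exp (-(r : ℂ) * t) * x t with hg
  set h : ℝ → ℂ := (Set.Ioi (0 : ℝ)).indicator g with hh
  have hrre : 0 < ((r : ℂ)).re := by simpa using hr
  have hgint : Integrable g mu0 := integrable_exp_mul (r : ℂ) hrre x
  have h1 : Integrable h := by
    rw [hh, integrable_indicator_iff measurableSet_Ioi]
    exact hgint
  have hg2 : MemLp g 2 mu0 := by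
    apply (Lp.memLp x).of_le hgint.aestronglyMeasurable
    filter_upwards [ae_restrict_mem measurableSet_Ioi] with t ht
    have ht' : (0 : ℝ) < t := ht
    rw [hg, norm_mul, Complex.norm_exp]
    have : Real.exp ((-(r : ℂ) * t).re) ≤ 1 := by
      rw [Real.exp_le_one_iff]
      simp
      positivity
    nlinarith [norm_nonneg (x t)]
  have h2 : MemLp h 2 := by
    rw [hh, memLp_indicator_iff_restrict measurableSet_Ioi]
    exact hg2
  have h3 : ∀ y : ℝ, ⟪kk ((r : ℂ) + (y : ℂ) * Complex.I), x⟫_ℂ = 𝓕 h ((2 * Real.pi)⁻¹ * y) := by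
    intro y
    have hre : 0 < ((r : ℂ) + (y : ℂ) * Complex.I).re := by simpa using hr
    rw [inner_kk _ hre, Real.fourier_real_eq_integral_exp_smul]
    have e1 : (fun v : ℝ => Complex.exp (((-2 * Real.pi * v * ((2 * Real.pi)⁻¹ * y) : ℝ) : ℂ)
        * Complex.I) • h v)
        = (Set.Ioi (0 : ℝ)).indicator (fun v : ℝ => Complex.exp (-((r : ℂ) + (y : ℂ) * Complex.I) * v)
          * x v) := by
      ext v
      by_cases hv : v ∈ Set.Ioi (0 : ℝ)
      · rw [hh, Set.indicator_of_mem hv, Set.indicator_of_mem hv, hg, smul_eq_mul, ← mul_assoc,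
          ← Complex.exp_add]
        congr 2
        have hpi : (Real.pi : ℂ) ≠ 0 := by exact_mod_cast Real.pi_ne_zero
        push_cast
        field_simp
        ring
      · rw [hh, Set.indicator_of_notMem hv, Set.indicator_of_notMem hv, smul_zero]
    rw [e1, integral_indicator measurableSet_Ioi]
  simp_rw [h3]
  have hcont : Continuous (𝓕 h) :=
    VectorFourier.fourierIntegral_continuous Real.continuous_fourierChar
      (innerSL ℝ).continuous₂ h1
  have h4 : ∫⁻ y : ℝ, ‖𝓕 h ((2 * Real.pi)⁻¹ * y)‖ₑ ^ 2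
      = ENNReal.ofReal (2 * Real.pi) * ∫⁻ ξ, ‖𝓕 h ξ‖ₑ ^ 2 := by
    have e1 := lintegral_map (μ := (volume : Measure ℝ)) (f := fun ξ : ℝ => ‖𝓕 h ξ‖ₑ ^ 2)
      (g := fun y => (2 * Real.pi)⁻¹ * y) (by fun_prop) (by fun_prop)
    rw [← e1, Real.map_volume_mul_left (by positivity), lintegral_smul_measure]
    rw [inv_inv, abs_of_pos (by positivity), smul_eq_mul]
  rw [h4, plancherel_lintegral h h1 h2]
  have h5 : ∫⁻ t, ‖h t‖ₑ ^ 2 = ENNReal.ofReal (JJ x r) := by
    unfold JJ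
    rw [ofReal_integral_eq_lintegral_ofReal (int_JJ x r hr.le) (ae_of_all _ (fun t => by positivity)),
      ← lintegral_indicator measurableSet_Ioi]
    apply lintegral_congr
    intro t
    by_cases ht : t ∈ Set.Ioi (0 : ℝ)
    · rw [hh, Set.indicator_of_mem ht, Set.indicator_of_mem ht, hg, ← ofReal_norm,
        ← ENNReal.ofReal_pow (norm_nonneg _)]
      congr 1
      rw [norm_mul, mul_pow, Complex.norm_exp, ← Real.exp_nat_mul]
      congr 2
      simp
      ring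
    · rw [hh, Set.indicator_of_notMem ht, Set.indicator_of_notMem ht]
      simp
  rw [h5, ← ENNReal.ofReal_mul (by positivity)]

/-- norm identity -/
lemma norm_id (x : L2H) :
    (⨆ (r : ℝ) (_ : 0 < r), ∫⁻ y : ℝ, ‖⟪kk ((r : ℂ) + (y : ℂ) * Complex.I), x⟫_ℂ‖ₑ ^ 2)
      = ENNReal.ofReal (2 * Real.pi * ‖x‖ ^ 2) := by
  apply le_antisymm
  · apply iSup₂_le
    intro r hr
    rw [pw x r hr]
    apply ENNReal.ofReal_le_ofReal
    apply mul_le_mul_of_nonneg_left (JJ_le x r hr.le) (by positivity)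
  · have h1 : Tendsto (fun r => ENNReal.ofReal (2 * Real.pi * JJ x r)) (𝓝[>] 0)
        (𝓝 (ENNReal.ofReal (2 * Real.pi * ‖x‖ ^ 2))) := by
      apply ENNReal.tendsto_ofReal
      exact (JJ_tendsto x).const_mul _
    apply le_of_tendsto h1
    filter_upwards [self_mem_nhdsWithin] with r hr
    have hr' : (0 : ℝ) < r := hr
    rw [← pw x r hr']
    exact le_iSup₂ (f := fun (r : ℝ) (_ : 0 < r) =>
      ∫⁻ y : ℝ, ‖⟪kk ((r : ℂ) + (y : ℂ) * Complex.I), x⟫_ℂ‖ₑ ^ 2) r hr'

lemma total_kk (x : L2H) (h : ∀ z : ℂ, 0 < z.re → ⟪kk z, x⟫_ℂ = 0) : x = 0 := by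
  have h1 := norm_id x
  have h2 : (⨆ (r : ℝ) (_ : 0 < r), ∫⁻ y : ℝ, ‖⟪kk ((r : ℂ) + (y : ℂ) * Complex.I), x⟫_ℂ‖ₑ ^ 2)
      = 0 := by
    apply le_antisymm _ bot_le
    apply iSup₂_le
    intro r hr
    have : ∀ y : ℝ, ⟪kk ((r : ℂ) + (y : ℂ) * Complex.I), x⟫_ℂ = 0 := by
      intro y
      apply h
      simpa using hr
    simp [this]
  rw [h2] at h1
  have h3 := ENNReal.ofReal_eq_zero.mp h1.symm
  have h4 : ‖x‖ ^ 2 ≤ 0 := by
    by_contra hcon
    push Not at hcon
    have : 0 < 2 * Real.pi * ‖x‖ ^ 2 := by positivity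
    linarith
  have h5 : ‖x‖ = 0 := by
    have := sq_nonneg ‖x‖
    exact pow_eq_zero_iff (two_ne_zero) |>.mp (le_antisymm h4 this)
  exact norm_eq_zero.mp h5

/-- skew-symmetry, diagonal form -/
lemma skew_diag (f f1 : L2H) (hf : ∀ z : ℂ, 0 < z.re → z * ⟪kk z, f⟫_ℂ = ⟪kk z, f1⟫_ℂ) :
    (⟪f1, f⟫_ℂ).re = 0 := by
  have key : ∀ r : ℝ, 0 < r → JJ (f1 + f) r = JJ (f1 - f) r + 4 * r * JJ f r := by
    intro r hr
    have e1 := pw (f1 + f) r hr
    have e2 := pw (f1 - f) r hr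
    have e3 := pw f r hr
    have hpt : ∀ y : ℝ, ‖⟪kk ((r : ℂ) + (y : ℂ) * Complex.I), f1 + f⟫_ℂ‖ₑ ^ 2
        = ‖⟪kk ((r : ℂ) + (y : ℂ) * Complex.I), f1 - f⟫_ℂ‖ₑ ^ 2
          + ENNReal.ofReal (4 * r) * ‖⟪kk ((r : ℂ) + (y : ℂ) * Complex.I), f⟫_ℂ‖ₑ ^ 2 := by
      intro y
      set z := (r : ℂ) + (y : ℂ) * Complex.I with hz
      have hzre : z.re = r := by simp [hz]
      have hz0 : 0 < z.re := by rw [hzre]; exact hr
      rw [inner_add_right, inner_sub_right, ← hf z hz0]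
      set w := ⟪kk z, f⟫_ℂ with hw
      have h1 : z * w + w = (z + 1) * w := by ring
      have h2 : z * w - w = (z - 1) * w := by ring
      rw [h1, h2, ← ofReal_norm, ← ofReal_norm, ← ofReal_norm, ← ENNReal.ofReal_pow (norm_nonneg _),
        ← ENNReal.ofReal_pow (norm_nonneg _), ← ENNReal.ofReal_pow (norm_nonneg _),
        ← ENNReal.ofReal_mul (by positivity), ← ENNReal.ofReal_add (by positivity) (by positivity)]
      congr 1
      rw [norm_mul, norm_mul, mul_pow, mul_pow]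
      have h3 : ‖z + 1‖ ^ 2 = ‖z - 1‖ ^ 2 + 4 * r := by
        rw [← Complex.normSq_eq_norm_sq, ← Complex.normSq_eq_norm_sq, Complex.normSq_apply,
          Complex.normSq_apply]
        simp only [Complex.add_re, Complex.add_im, Complex.sub_re, Complex.sub_im, Complex.one_re,
          Complex.one_im, hzre]
        ring
      rw [h3]
      ring
    have hmeas : ∀ x : L2H, Measurable (fun y : ℝ => ‖⟪kk ((r : ℂ) + (y : ℂ) * Complex.I), x⟫_ℂ‖ₑ ^ 2) := by
      intro x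
      have hc : Continuous (fun y : ℝ => ⟪kk ((r : ℂ) + (y : ℂ) * Complex.I), x⟫_ℂ) := by
        rw [continuous_iff_continuousAt]
        intro y
        have hre : 0 < ((r : ℂ) + (y : ℂ) * Complex.I).re := by simpa using hr
        have h1 := (der_kk _ x hre).continuousAt
        exact ContinuousAt.comp (f := fun y : ℝ => (r : ℂ) + (y : ℂ) * Complex.I)
          (g := fun ζ => ⟪kk ζ, x⟫_ℂ) h1 (by fun_prop)
      exact (hc.measurable.enorm).pow_const 2
    simp_rw [hpt] at e1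
    rw [lintegral_add_left (hmeas (f1 - f)), lintegral_const_mul _ (hmeas f), e2, e3,
      ← ENNReal.ofReal_mul (by positivity), ← ENNReal.ofReal_add
        (mul_nonneg (by positivity) (JJ_nonneg _ _))
        (mul_nonneg (by positivity) (mul_nonneg (by positivity) (JJ_nonneg _ _)))] at e1
    have e4 := (ENNReal.ofReal_eq_ofReal_iff (add_nonneg (mul_nonneg (by positivity) (JJ_nonneg _ _))
        (mul_nonneg (by positivity) (mul_nonneg (by positivity) (JJ_nonneg _ _))))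
        (mul_nonneg (by positivity) (JJ_nonneg _ _))).mp e1
    have hpi : (0 : ℝ) < 2 * Real.pi := by positivity
    have e5 : 2 * Real.pi * (JJ (f1 + f) r - (JJ (f1 - f) r + 4 * r * JJ f r)) = 0 := by
      linear_combination (-1 : ℝ) * e4
    rcases mul_eq_zero.mp e5 with e6 | e6
    · exact absurd e6 hpi.ne'
    · linarith
  have lim1 := JJ_tendsto (f1 + f)
  have lim2 : Tendsto (fun r => JJ (f1 - f) r + 4 * r * JJ f r) (𝓝[>] 0)
      (𝓝 (‖f1 - f‖ ^ 2 + 4 * 0 * ‖f‖ ^ 2)) := by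
    apply (JJ_tendsto (f1 - f)).add
    apply Tendsto.mul _ (JJ_tendsto f)
    apply Tendsto.const_mul
    exact tendsto_id.mono_left nhdsWithin_le_nhds
  have lim3 : Tendsto (fun r => JJ (f1 - f) r + 4 * r * JJ f r) (𝓝[>] 0) (𝓝 (‖f1 + f‖ ^ 2)) := by
    apply lim1.congr'
    filter_upwards [self_mem_nhdsWithin] with r hr
    exact key r hr
  have e7 := tendsto_nhds_unique lim2 lim3
  have e8 := norm_add_sq (𝕜 := ℂ) f1 f
  have e9 := norm_sub_sq (𝕜 := ℂ) f1 f
  rw [e8, e9] at e7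
  have e10 : RCLike.re ⟪f1, f⟫_ℂ = (⟪f1, f⟫_ℂ).re := rfl
  rw [e10] at e7
  linarith

lemma skew_kk (f f1 g g1 : L2H) (hf : ∀ z : ℂ, 0 < z.re → z * ⟪kk z, f⟫_ℂ = ⟪kk z, f1⟫_ℂ)
    (hg : ∀ z : ℂ, 0 < z.re → z * ⟪kk z, g⟫_ℂ = ⟪kk z, g1⟫_ℂ) : ⟪f1, g⟫_ℂ + ⟪f, g1⟫_ℂ = 0 := by
  have h0 := skew_diag f f1 hf
  have h1 := skew_diag g g1 hg
  have h2 := skew_diag (f + g) (f1 + g1) (by
    intro z hz
    rw [inner_add_right, inner_add_right, mul_add, hf z hz, hg z hz])
  have h3 := skew_diag (f + Complex.I • g) (f1 + Complex.I • g1) (by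
    intro z hz
    rw [inner_add_right, inner_add_right, inner_smul_right, inner_smul_right, ← hf z hz, ← hg z hz]
    ring)
  simp only [inner_add_left, inner_add_right, inner_smul_left, inner_smul_right] at h2 h3
  have e1 : ⟪f, g1⟫_ℂ = (starRingEnd ℂ) ⟪g1, f⟫_ℂ := (inner_conj_symm _ _).symm
  rw [e1]
  simp only [Complex.add_re, Complex.mul_re, Complex.I_re, Complex.I_im, Complex.conj_I,
    Complex.neg_re, Complex.neg_im, Complex.mul_im, Complex.add_im] at h2 h3
  apply Complex.ext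
  · simp only [Complex.add_re, Complex.conj_re, Complex.zero_re]
    linarith
  · simp only [Complex.add_im, Complex.conj_im, Complex.zero_im]
    linarith

/-- the concrete model -/
noncomputable def theModel : Model L2H where
  k := kk
  dk := dkk
  ker := ker_kk
  der := fun z x hz => der_kk z x hz
  total := total_kk
  skew := skew_kk

end Pool.Agent.Helper76.NormalHP
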