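import Pool.Agent.Helper76.HP10

set_option autoImplicit false
open Complex Filter Topology MeasureTheory
open scoped InnerProductSpace ENNReal

namespace Pool.Agent.Helper76.NormalHP

/-- points of the right half-plane -/
abbrev RP : Type := {z : ℂ // 0 < z.re}

/-- kernel combinations -/
noncomputable def EE : (RP →₀ ℂ) →ₗ[ℂ] L2H := Finsupp.linearCombination ℂ (fun a : RP => kk (a : ℂ))

/-- transported kernel combinations -/
noncomputable def EE' (φ : ℂ → ℂ) : (RP →₀ ℂ) →ₗ[ℂ] L2H :=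
  Finsupp.linearCombination ℂ (fun a : RP => kk (φ (a : ℂ)))

lemma inner_EE (z : ℂ) (hz : 0 < z.re) (c : RP →₀ ℂ) :
    ⟪kk z, EE c⟫_ℂ = ∑ a ∈ c.support, c a / (z + (starRingEnd ℂ) (a : ℂ)) := by
  unfold EE
  rw [Finsupp.linearCombination_apply, Finsupp.sum, inner_sum]
  apply Finset.sum_congr rfl
  intro a _
  rw [inner_smul_right, ker_kk z a hz a.2]
  ring

lemma inner_EE' (φ : ℂ → ℂ) (hm : ∀ z : ℂ, 0 < z.re → 0 < (φ z).re) (z : ℂ) (hz : 0 < z.re)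
    (c : RP →₀ ℂ) :
    ⟪kk z, EE' φ c⟫_ℂ = ∑ a ∈ c.support, c a / (z + (starRingEnd ℂ) (φ (a : ℂ))) := by
  unfold EE'
  rw [Finsupp.linearCombination_apply, Finsupp.sum, inner_sum]
  apply Finset.sum_congr rfl
  intro a _
  rw [inner_smul_right, ker_kk z (φ a) hz (hm a a.2)]
  ring

lemma dense_EE : DenseRange EE := by
  have h1 : (LinearMap.range EE).topologicalClosure = ⊤ := by
    rw [Submodule.topologicalClosure_eq_top_iff, Submodule.eq_bot_iff]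
    intro x hx
    apply total_kk
    intro z hz
    rw [Submodule.mem_orthogonal] at hx
    apply hx
    refine ⟨Finsupp.single ⟨z, hz⟩ 1, ?_⟩
    unfold EE
    rw [Finsupp.linearCombination_single, one_smul]
  intro x
  have h2 : x ∈ (LinearMap.range EE).topologicalClosure := by
    rw [h1]
    exact Submodule.mem_top
  rw [← SetLike.mem_coe, Submodule.topologicalClosure_coe] at h2
  exact h2

theorem affine_of_hyp (φ : ℂ → ℂ) (hd : DifferentiableOn ℂ φ {z : ℂ | 0 < z.re})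
    (hm : Set.MapsTo φ {z : ℂ | 0 < z.re} {z : ℂ | 0 < z.re})
    (hb : ∃ C : NNReal, ∀ f : ℂ → ℂ, DifferentiableOn ℂ f {z : ℂ | 0 < z.re} →
        (⨆ (x : ℝ) (_ : 0 < x), ∫⁻ y : ℝ,
            (‖f ((x : ℂ) + (y : ℂ) * Complex.I)‖₊ : ENNReal) ^ 2) < ⊤ →
        (⨆ (x : ℝ) (_ : 0 < x), ∫⁻ y : ℝ,
            (‖f (φ ((x : ℂ) + (y : ℂ) * Complex.I))‖₊ : ENNReal) ^ 2)
          ≤ (C : ENNReal) * ⨆ (x : ℝ) (_ : 0 < x), ∫⁻ y : ℝ,
            (‖f ((x : ℂ) + (y : ℂ) * Complex.I)‖₊ : ENNReal) ^ 2)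
    (hn : ∀ (n : ℕ) (c a : Fin n → ℂ), (∀ i, 0 < (a i).re) →
        (⨆ (x : ℝ) (_ : 0 < x), ∫⁻ y : ℝ,
            (‖∑ i, c i / (φ ((x : ℂ) + (y : ℂ) * Complex.I) + (starRingEnd ℂ) (a i))‖₊
              : ENNReal) ^ 2)
          = ⨆ (x : ℝ) (_ : 0 < x), ∫⁻ y : ℝ,
            (‖∑ i, c i / ((x : ℂ) + (y : ℂ) * Complex.I + (starRingEnd ℂ) (φ (a i)))‖₊
              : ENNReal) ^ 2) :
    ∃ A B : ℂ, A ≠ 0 ∧ ∀ z : ℂ, 0 < z.re → φ z = A * z + B := by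
  have hm' : ∀ z : ℂ, 0 < z.re → 0 < (φ z).re := fun z hz => hm hz
  have hline : ∀ r y : ℝ, 0 < r → 0 < ((r : ℂ) + (y : ℂ) * Complex.I).re := by
    intro r y hr
    simpa using hr
  -- the normality hypothesis in terms of the model
  have hN : ∀ c : RP →₀ ℂ,
      (⨆ (r : ℝ) (_ : 0 < r), ∫⁻ y : ℝ, ‖⟪kk (φ ((r : ℂ) + (y : ℂ) * Complex.I)), EE c⟫_ℂ‖ₑ ^ 2)
        = ENNReal.ofReal (2 * Real.pi * ‖EE' φ c‖ ^ 2) := by
    intro c
    rw [← norm_id]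
    set e := c.support.equivFin with he
    have h1 := hn c.support.card (fun i => c (e.symm i)) (fun i => ((e.symm i : RP) : ℂ))
      (fun i => (e.symm i : RP).2)
    have hsum : ∀ g : RP → ℂ, ∑ i : Fin c.support.card, c (e.symm i) / g (e.symm i)
        = ∑ a ∈ c.support, c a / g a := by
      intro g
      rw [← Finset.sum_coe_sort c.support (fun a => c a / g a)]
      exact Fintype.sum_equiv e.symm _ _ (fun i => rfl)
    have e1 : ∀ r : ℝ, 0 < r → ∫⁻ y : ℝ, ‖⟪kk (φ ((r : ℂ) + (y : ℂ) * Complex.I)), EE c⟫_ℂ‖ₑ ^ 2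
        = ∫⁻ y : ℝ, (‖∑ i : Fin c.support.card, c (e.symm i)
          / (φ ((r : ℂ) + (y : ℂ) * Complex.I) + (starRingEnd ℂ) ((e.symm i : RP) : ℂ))‖₊
              : ENNReal) ^ 2 := by
      intro r hr
      apply lintegral_congr
      intro y
      rw [inner_EE _ (hm' _ (hline r y hr)),
        hsum (fun a => φ ((r : ℂ) + (y : ℂ) * Complex.I) + (starRingEnd ℂ) (a : ℂ))]
      rfl
    have e2 : ∀ r : ℝ, 0 < r → ∫⁻ y : ℝ, ‖⟪kk ((r : ℂ) + (y : ℂ) * Complex.I), EE' φ c⟫_ℂ‖ₑ ^ 2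
        = ∫⁻ y : ℝ, (‖∑ i : Fin c.support.card, c (e.symm i)
          / ((r : ℂ) + (y : ℂ) * Complex.I + (starRingEnd ℂ) (φ ((e.symm i : RP) : ℂ)))‖₊
              : ENNReal) ^ 2 := by
      intro r hr
      apply lintegral_congr
      intro y
      rw [inner_EE' φ hm' _ (hline r y hr),
        hsum (fun a => (r : ℂ) + (y : ℂ) * Complex.I + (starRingEnd ℂ) (φ (a : ℂ)))]
      rfl
    have e3 : (⨆ (r : ℝ) (_ : 0 < r), ∫⁻ y : ℝ, ‖⟪kk (φ ((r : ℂ) + (y : ℂ) * Complex.I)), EE c⟫_ℂ‖ₑ ^ 2)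
        = ⨆ (r : ℝ) (_ : 0 < r), ∫⁻ y : ℝ, (‖∑ i : Fin c.support.card, c (e.symm i)
          / (φ ((r : ℂ) + (y : ℂ) * Complex.I) + (starRingEnd ℂ) ((e.symm i : RP) : ℂ))‖₊
              : ENNReal) ^ 2 := iSup_congr fun r => iSup_congr fun hr => e1 r hr
    have e4 : (⨆ (r : ℝ) (_ : 0 < r), ∫⁻ y : ℝ, ‖⟪kk ((r : ℂ) + (y : ℂ) * Complex.I), EE' φ c⟫_ℂ‖ₑ ^ 2)
        = ⨆ (r : ℝ) (_ : 0 < r), ∫⁻ y : ℝ, (‖∑ i : Fin c.support.card, c (e.symm i)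
          / ((r : ℂ) + (y : ℂ) * Complex.I + (starRingEnd ℂ) (φ ((e.symm i : RP) : ℂ)))‖₊
              : ENNReal) ^ 2 := iSup_congr fun r => iSup_congr fun hr => e2 r hr
    rw [e3, e4]
    exact h1
  obtain ⟨C, hC⟩ := hb
  -- the bound
  have hbound : ∀ c : RP →₀ ℂ, ‖EE' φ c‖ ≤ Real.sqrt C * ‖EE c‖ := by
    intro c
    have h1 := hC (fun z => ⟪kk z, EE c⟫_ℂ) (theModel.diffOn (EE c))
    have h2 : (⨆ (x : ℝ) (_ : 0 < x), ∫⁻ y : ℝ,
            (‖⟪kk ((x : ℂ) + (y : ℂ) * Complex.I), EE c⟫_ℂ‖₊ : ENNReal) ^ 2)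
        = ENNReal.ofReal (2 * Real.pi * ‖EE c‖ ^ 2) := norm_id (EE c)
    have h3 : (⨆ (x : ℝ) (_ : 0 < x), ∫⁻ y : ℝ,
            (‖⟪kk (φ ((x : ℂ) + (y : ℂ) * Complex.I)), EE c⟫_ℂ‖₊ : ENNReal) ^ 2)
        = ENNReal.ofReal (2 * Real.pi * ‖EE' φ c‖ ^ 2) := hN c
    have h4 := h1 (by rw [h2]; exact ENNReal.ofReal_lt_top)
    simp only [h2, h3] at h4
    rw [← ENNReal.ofReal_coe_nnreal, ← ENNReal.ofReal_mul (NNReal.coe_nonneg C),
      ENNReal.ofReal_le_ofReal_iff (by positivity)] at h4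
    have h5 : ‖EE' φ c‖ ^ 2 ≤ C * ‖EE c‖ ^ 2 := by
      have hpi : (0 : ℝ) < 2 * Real.pi := by positivity
      have h6 : 2 * Real.pi * ‖EE' φ c‖ ^ 2 ≤ 2 * Real.pi * (C * ‖EE c‖ ^ 2) := by linarith
      exact le_of_mul_le_mul_left h6 hpi
    have h6 : C * ‖EE c‖ ^ 2 = (Real.sqrt C * ‖EE c‖) ^ 2 := by
      rw [mul_pow, Real.sq_sqrt (NNReal.coe_nonneg C)]
    rw [h6] at h5
    exact le_of_sq_le_sq h5 (by positivity)
  set S : L2H →L[ℂ] L2H := (EE' φ).extendOfNorm EE with hS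
  have hSE : ∀ c, S (EE c) = EE' φ c :=
    fun c => LinearMap.extendOfNorm_eq dense_EE ⟨_, hbound⟩ c
  have hSk : ∀ z : ℂ, 0 < z.re → S (kk z) = kk (φ z) := by
    intro z hz
    have h1 := hSE (Finsupp.single ⟨z, hz⟩ 1)
    unfold EE EE' at h1
    rwa [Finsupp.linearCombination_single, Finsupp.linearCombination_single, one_smul,
      one_smul] at h1
  have hstar : star (star S) = S := star_star S
  have hnormal : IsStarNormal (star S) := by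
    rw [ContinuousLinearMap.isStarNormal_iff_norm_eq_adjoint, ← ContinuousLinearMap.star_eq_adjoint,
      hstar]
    intro v
    apply dense_EE.induction_on (p := fun v => ‖(star S) v‖ = ‖S v‖) v
    · exact isClosed_eq (by fun_prop) (by fun_prop)
    · intro c
      have h1 := norm_id ((star S) (EE c))
      have e1 : ∀ r : ℝ, 0 < r → ∫⁻ y : ℝ, ‖⟪kk ((r : ℂ) + (y : ℂ) * Complex.I), (star S) (EE c)⟫_ℂ‖ₑ ^ 2
          = ∫⁻ y : ℝ, ‖⟪kk (φ ((r : ℂ) + (y : ℂ) * Complex.I)), EE c⟫_ℂ‖ₑ ^ 2 := by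
        intro r hr
        apply lintegral_congr
        intro y
        rw [star_inner_right, hSk _ (hline r y hr)]
      have e2 : (⨆ (r : ℝ) (_ : 0 < r), ∫⁻ y : ℝ, ‖⟪kk ((r : ℂ) + (y : ℂ) * Complex.I), (star S) (EE c)⟫_ℂ‖ₑ ^ 2)
          = ⨆ (r : ℝ) (_ : 0 < r), ∫⁻ y : ℝ, ‖⟪kk (φ ((r : ℂ) + (y : ℂ) * Complex.I)), EE c⟫_ℂ‖ₑ ^ 2 :=
        iSup_congr fun r => iSup_congr fun hr => e1 r hr
      rw [e2, hN c, ENNReal.ofReal_eq_ofReal_iff (by positivity) (by positivity)] at h1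
      have hpi : (0 : ℝ) < 2 * Real.pi := by positivity
      have h2 : ‖EE' φ c‖ ^ 2 = ‖(star S) (EE c)‖ ^ 2 := mul_left_cancel₀ hpi.ne' h1
      rw [hSE c]
      exact ((sq_eq_sq₀ (norm_nonneg _) (norm_nonneg _)).mp h2).symm
  have hsys : Sys theModel (star S) φ := by
    refine ⟨hd, hm', hnormal, ?_⟩
    intro z hz
    rw [hstar]
    exact hSk z hz
  exact affine_of_normal hsys

end Pool.Agent.Helper76.NormalHP
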