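import Pool.Agent.Helper76.HP1

set_option autoImplicit false
open Complex Filter Topology
open scoped InnerProductSpace

namespace Pool.Agent.Helper76.NormalHP

variable {H : Type*} [NormedAddCommGroup H] [InnerProductSpace ℂ H] [CompleteSpace H]

/-- The open right half-plane. -/
abbrev RH : Set ℂ := {z : ℂ | 0 < z.re}

lemma isOpen_RH : IsOpen RH := isOpen_lt continuous_const Complex.continuous_re

lemma convex_RH : Convex ℝ RH := by
  have : RH = {z : ℂ | 0 < z.re} := rfl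
  rw [this]
  exact convex_halfSpace_re_gt 0

lemma preconn_RH : IsPreconnected RH := convex_RH.isPreconnected

/-- an abstract reproducing kernel model of the Hardy space of the half-plane -/
structure Model (H : Type*) [NormedAddCommGroup H] [InnerProductSpace ℂ H] where
  /-- kernels -/
  k : ℂ → H
  /-- derivative kernels -/
  dk : ℂ → H
  ker : ∀ z w : ℂ, 0 < z.re → 0 < w.re → ⟪k z, k w⟫_ℂ = 1 / (z + (starRingEnd ℂ) w)
  der : ∀ (z : ℂ) (x : H), 0 < z.re → HasDerivAt (fun ζ => ⟪k ζ, x⟫_ℂ) ⟪dk z, x⟫_ℂ z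
  total : ∀ x : H, (∀ z : ℂ, 0 < z.re → ⟪k z, x⟫_ℂ = 0) → x = 0
  skew : ∀ f f1 g g1 : H, (∀ z : ℂ, 0 < z.re → z * ⟪k z, f⟫_ℂ = ⟪k z, f1⟫_ℂ) →
     (∀ z : ℂ, 0 < z.re → z * ⟪k z, g⟫_ℂ = ⟪k z, g1⟫_ℂ) → ⟪f1, g⟫_ℂ + ⟪f, g1⟫_ℂ = 0

/-- a normal composition operator in the model -/
structure Sys (M : Model H) (T : H →L[ℂ] H) (φ : ℂ → ℂ) : Prop where
  diff : DifferentiableOn ℂ φ RH
  maps : ∀ z : ℂ, 0 < z.re → 0 < (φ z).re
  normal : IsStarNormal T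
  adj : ∀ z : ℂ, 0 < z.re → star T (M.k z) = M.k (φ z)

section
variable {M : Model H} {T : H →L[ℂ] H} {φ : ℂ → ℂ}

lemma star_inner_left (A : H →L[ℂ] H) (x y : H) : ⟪star A y, x⟫_ℂ = ⟪y, A x⟫_ℂ := by
  rw [ContinuousLinearMap.star_eq_adjoint, ContinuousLinearMap.adjoint_inner_left]

lemma star_inner_right (A : H →L[ℂ] H) (x y : H) : ⟪y, star A x⟫_ℂ = ⟪A y, x⟫_ℂ := by
  rw [ContinuousLinearMap.star_eq_adjoint, ContinuousLinearMap.adjoint_inner_right]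

lemma Sys.transf (h : Sys M T φ) (z : ℂ) (hz : 0 < z.re) (x : H) :
    ⟪M.k z, T x⟫_ℂ = ⟪M.k (φ z), x⟫_ℂ := by
  rw [← star_inner_left, h.adj z hz]

lemma Model.du (M : Model H) (x : H) (F : ℂ → ℂ) (F' z : ℂ) (hz : 0 < z.re)
    (hF : ∀ ζ : ℂ, 0 < ζ.re → ⟪M.k ζ, x⟫_ℂ = F ζ) (hd : HasDerivAt F F' z) :
    ⟪M.dk z, x⟫_ℂ = F' := by
  have h1 := M.der z x hz
  have h2 : (fun ζ => ⟪M.k ζ, x⟫_ℂ) =ᶠ[𝓝 z] F := by
    filter_upwards [isOpen_RH.mem_nhds hz] with ζ hζ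
    exact hF ζ hζ
  exact h1.unique (hd.congr_of_eventuallyEq h2)

lemma Model.ext (M : Model H) (x y : H) (h : ∀ z : ℂ, 0 < z.re → ⟪M.k z, x⟫_ℂ = ⟪M.k z, y⟫_ℂ) :
    x = y := by
  rw [← sub_eq_zero]
  apply M.total
  intro z hz
  rw [inner_sub_right, h z hz, sub_self]

lemma Model.diffOn (M : Model H) (x : H) : DifferentiableOn ℂ (fun ζ => ⟪M.k ζ, x⟫_ℂ) RH :=
  fun z hz => (M.der z x hz).differentiableAt.differentiableWithinAt

lemma Model.norm_k (M : Model H) (z : ℂ) (hz : 0 < z.re) : ‖M.k z‖ ^ 2 = 1 / (2 * z.re) := by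
  have h1 := M.ker z z hz hz
  have h2 : ⟪M.k z, M.k z⟫_ℂ = ((‖M.k z‖ ^ 2 : ℝ) : ℂ) := by
    rw [inner_self_eq_norm_sq_to_K]
    simp
  rw [h2, Complex.add_conj] at h1
  have h3 : (((‖M.k z‖ ^ 2 : ℝ) : ℂ)) = ((1 / (2 * z.re) : ℝ) : ℂ) := by
    rw [h1]
    push_cast
    ring
  exact_mod_cast h3

lemma Sys.nonconst (h : Sys M T φ) : ¬ ∃ c : ℂ, ∀ z ∈ RH, φ z = c := by
  rintro ⟨c, hc⟩
  -- `T x` has a constant transform, hence is `0`
  have hT : ∀ x : H, T x = 0 := by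
    intro x
    apply M.total
    intro z hz
    rw [h.transf z hz, hc z hz]
    -- the value `⟪k c, x⟫` is `⟪k ζ, T x⟫` for all `ζ`
    by_contra hne
    set v := ⟪M.k c, x⟫_ℂ with hv
    have h1 : ∀ r : ℝ, 0 < r → ‖v‖ ^ 2 * (2 * r) ≤ ‖T x‖ ^ 2 := by
      intro r hr
      have hr' : 0 < ((r : ℂ)).re := by simpa using hr
      have h2 : v = ⟪M.k (r : ℂ), T x⟫_ℂ := by
        rw [h.transf _ hr', hc _ hr']
      have h3 : ‖v‖ ≤ ‖M.k (r : ℂ)‖ * ‖T x‖ := by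
        rw [h2]
        exact norm_inner_le_norm _ _
      have h4 : ‖v‖ ^ 2 ≤ ‖M.k (r : ℂ)‖ ^ 2 * ‖T x‖ ^ 2 := by
        rw [← mul_pow]
        exact pow_le_pow_left₀ (norm_nonneg _) h3 2
      rw [M.norm_k _ hr', Complex.ofReal_re] at h4
      calc ‖v‖ ^ 2 * (2 * r) ≤ (1 / (2 * r) * ‖T x‖ ^ 2) * (2 * r) := by
            apply mul_le_mul_of_nonneg_right h4 (by positivity)
        _ = ‖T x‖ ^ 2 := by field_simp
    have hpos : 0 < ‖v‖ ^ 2 := by positivity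
    have h5 := h1 ((‖T x‖ ^ 2 + 1) / (2 * ‖v‖ ^ 2)) (by positivity)
    have h6 : ‖v‖ ^ 2 * (2 * ((‖T x‖ ^ 2 + 1) / (2 * ‖v‖ ^ 2))) = ‖T x‖ ^ 2 + 1 := by
      field_simp
    linarith
  have h1 : M.k (φ 1) = 0 := by
    rw [← h.adj 1 (by simp)]
    apply M.total
    intro z _
    rw [star_inner_right, hT, inner_zero_left]
  have h2 := M.norm_k (φ 1) (h.maps 1 (by simp))
  rw [h1, norm_zero] at h2
  have h3 := h.maps 1 (by simp)
  have h4 : 0 < 1 / (2 * (φ 1).re) := by positivity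
  rw [← h2] at h4
  norm_num at h4

lemma Sys.idl1 (h : Sys M T φ) (F G : ℂ → ℂ) (hF : DifferentiableOn ℂ F RH)
    (hG : DifferentiableOn ℂ G RH) (hFG : ∀ z ∈ RH, F (φ z) = G (φ z)) :
    ∀ z ∈ RH, F z = G z := by
  have hφ : AnalyticOnNhd ℂ φ RH := h.diff.analyticOnNhd isOpen_RH
  rcases hφ.is_constant_or_isOpen preconn_RH with hc | ho
  · exact absurd hc h.nonconst
  · have h1 : IsOpen (φ '' RH) := ho RH le_rfl isOpen_RH
    have hz0 : φ 1 ∈ φ '' RH := ⟨1, by simp, rfl⟩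
    have h2 : F =ᶠ[𝓝 (φ 1)] G := by
      filter_upwards [h1.mem_nhds hz0] with w hw
      obtain ⟨z, hz, rfl⟩ := hw
      exact hFG z hz
    have := (hF.analyticOnNhd isOpen_RH).eqOn_of_preconnected_of_eventuallyEq
      (hG.analyticOnNhd isOpen_RH) preconn_RH (h.maps 1 (by simp)) h2
    exact this

lemma Sys.idl (h : Sys M T φ) (F G : ℂ → ℂ) (hF : DifferentiableOn ℂ F RH)
    (hG : DifferentiableOn ℂ G RH) (hFG : ∀ z ∈ RH, F (φ (φ z)) = G (φ (φ z))) :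
    ∀ z ∈ RH, F z = G z := by
  apply h.idl1 F G hF hG
  apply h.idl1 (fun z => F (φ z)) (fun z => G (φ z)) (hF.comp h.diff h.maps)
    (hG.comp h.diff h.maps) hFG

/-- powers of the adjoint move kernels along the orbit -/
lemma Sys.iter_maps (h : Sys M T φ) (n : ℕ) (z : ℂ) (hz : 0 < z.re) : 0 < (φ^[n] z).re := by
  induction n with
  | zero => simpa using hz
  | succ n ih =>
    rw [Function.iterate_succ_apply']
    exact h.maps _ ih

lemma Sys.iter_diff (h : Sys M T φ) (n : ℕ) : DifferentiableOn ℂ (φ^[n]) RH := by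
  induction n with
  | zero => simpa using differentiableOn_id
  | succ n ih =>
    rw [Function.iterate_succ']
    exact h.diff.comp ih (fun z hz => h.iter_maps n z hz)

lemma Sys.adj_pow (h : Sys M T φ) (n : ℕ) (z : ℂ) (hz : 0 < z.re) :
    ((star T) ^ n) (M.k z) = M.k (φ^[n] z) := by
  induction n with
  | zero => simp
  | succ n ih =>
    rw [pow_succ', mul_apply_eq_comp, ih, h.adj _ (h.iter_maps n z hz),
      Function.iterate_succ_apply']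

lemma Sys.comm (h : Sys M T φ) : Commute (star T) T := h.normal.star_comm_self

lemma Sys.powN (h : Sys M T φ) (n : ℕ) : (star T * T) ^ n = T ^ n * (star T) ^ n := by
  rw [h.comm.eq, h.comm.symm.mul_pow]

lemma Sys.L (h : Sys M T φ) (n : ℕ) (u v : ℂ) (hu : 0 < u.re) (hv : 0 < v.re) :
    ⟪M.k u, ((star T * T) ^ n) (M.k v)⟫_ℂ = 1 / (φ^[n] u + (starRingEnd ℂ) (φ^[n] v)) := by
  rw [h.powN, mul_apply_eq_comp, h.adj_pow n v hv, ← star_inner_left, star_pow,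
    h.adj_pow n u hu, M.ker _ _ (h.iter_maps n u hu) (h.iter_maps n v hv)]

lemma add_conj_ne {u v : ℂ} (hu : 0 < u.re) (hv : 0 < v.re) : u + (starRingEnd ℂ) v ≠ 0 := by
  intro h0
  have := congrArg Complex.re h0
  rw [Complex.add_re, Complex.conj_re, Complex.zero_re] at this
  linarith

lemma star_pow_N (n : ℕ) : star ((star T * T) ^ n) = (star T * T) ^ n := by
  rw [star_pow, star_mul, star_star]

/-- hermitian symmetry -/
lemma herm (A : H →L[ℂ] H) (hA : star A = A) (x y : H) :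
    ⟪x, A y⟫_ℂ = (starRingEnd ℂ) ⟪y, A x⟫_ℂ := by
  rw [inner_conj_symm, ← star_inner_left, hA]

lemma Sys.L10 (h : Sys M T φ) (n : ℕ) (u v : ℂ) (hu : 0 < u.re) (hv : 0 < v.re) :
    ⟪M.dk u, ((star T * T) ^ n) (M.k v)⟫_ℂ
      = -deriv (φ^[n]) u / (φ^[n] u + (starRingEnd ℂ) (φ^[n] v)) ^ 2 := by
  have hd : HasDerivAt (φ^[n]) (deriv (φ^[n]) u) u :=
    ((h.iter_diff n).differentiableAt (isOpen_RH.mem_nhds hu)).hasDerivAt
  have hne := add_conj_ne (h.iter_maps n u hu) (h.iter_maps n v hv)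
  apply M.du _ (fun ζ => (φ^[n] ζ + (starRingEnd ℂ) (φ^[n] v))⁻¹) _ u hu
  · intro ζ hζ
    rw [h.L n ζ v hζ hv, one_div]
  · exact (hd.add_const _).inv hne

lemma Sys.L01 (h : Sys M T φ) (n : ℕ) (u v : ℂ) (hu : 0 < u.re) (hv : 0 < v.re) :
    ⟪M.k u, ((star T * T) ^ n) (M.dk v)⟫_ℂ
      = -(starRingEnd ℂ) (deriv (φ^[n]) v) / (φ^[n] u + (starRingEnd ℂ) (φ^[n] v)) ^ 2 := by
  rw [herm _ (star_pow_N n), h.L10 n v u hv hu]
  simp only [map_div₀, map_neg, map_pow, map_add, Complex.conj_conj]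
  rw [add_comm (φ^[n] u)]

lemma Sys.L11 (h : Sys M T φ) (n : ℕ) (u v : ℂ) (hu : 0 < u.re) (hv : 0 < v.re) :
    ⟪M.dk u, ((star T * T) ^ n) (M.dk v)⟫_ℂ
      = 2 * deriv (φ^[n]) u * (starRingEnd ℂ) (deriv (φ^[n]) v)
        / (φ^[n] u + (starRingEnd ℂ) (φ^[n] v)) ^ 3 := by
  have hd : HasDerivAt (φ^[n]) (deriv (φ^[n]) u) u :=
    ((h.iter_diff n).differentiableAt (isOpen_RH.mem_nhds hu)).hasDerivAt
  have hne := add_conj_ne (h.iter_maps n u hu) (h.iter_maps n v hv)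
  apply M.du _ (fun ζ => -(starRingEnd ℂ) (deriv (φ^[n]) v)
    / (φ^[n] ζ + (starRingEnd ℂ) (φ^[n] v)) ^ 2) _ u hu
  · intro ζ hζ
    exact h.L01 n ζ v hζ hv
  · have h1 := ((hd.add_const ((starRingEnd ℂ) (φ^[n] v))).pow 2)
    have h2 := (hasDerivAt_const u (-(starRingEnd ℂ) (deriv (φ^[n]) v))).div h1 (pow_ne_zero 2 hne)
    refine h2.congr_deriv ?_
    simp only [Pi.add_apply, Pi.pow_apply]
    field_simp
    ring

/-- the base relation -/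
lemma Sys.base (h : Sys M T φ) (u v : ℂ) (hu : 0 < u.re) (hv : 0 < v.re) (n : ℕ) :
    2 * (⟪M.dk u, ((star T * T) ^ n) (M.k v)⟫_ℂ * ⟪M.k u, ((star T * T) ^ n) (M.dk v)⟫_ℂ)
      = ⟪M.k u, ((star T * T) ^ n) (M.k v)⟫_ℂ * ⟪M.dk u, ((star T * T) ^ n) (M.dk v)⟫_ℂ := by
  rw [h.L n u v hu hv, h.L10 n u v hu hv, h.L01 n u v hu hv, h.L11 n u v hu hv]
  have hne := add_conj_ne (h.iter_maps n u hu) (h.iter_maps n v hv)
  field_simp

end

end Pool.Agent.Helper76.NormalHP
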