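import Pool.Agent.Helper76.HP2

set_option autoImplicit false
open Complex Filter Topology
open scoped InnerProductSpace

namespace Pool.Agent.Helper76.NormalHP

variable {H : Type*} [NormedAddCommGroup H] [InnerProductSpace ℂ H] [CompleteSpace H]

/-- `t²` -/
noncomputable def f0 (t : ℝ) : ℂ := ((t ^ 2 : ℝ) : ℂ)
/-- `t² log t` -/
noncomputable def f1 (t : ℝ) : ℂ := ((t * (t * Real.log t) : ℝ) : ℂ)
/-- `(t log t)²` -/
noncomputable def f2 (t : ℝ) : ℂ := (((t * Real.log t) ^ 2 : ℝ) : ℂ)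

lemma cont_f0 : Continuous f0 := by unfold f0; fun_prop
lemma cont_f1 : Continuous f1 := by
  unfold f1
  exact Complex.continuous_ofReal.comp (continuous_id.mul Real.continuous_mul_log)
lemma cont_f2 : Continuous f2 := by
  unfold f2
  exact Complex.continuous_ofReal.comp (Real.continuous_mul_log.pow 2)

lemma F1_mul (t : ℝ) (ht : 0 ≤ t) (r : ℝ) (hr : 0 ≤ r) :
    (((t * r) * ((t * r) * Real.log (t * r)) : ℝ) : ℂ) = f1 t * f0 r + f0 t * f1 r := by
  unfold f1 f0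
  rcases ht.eq_or_lt with rfl | ht
  · simp
  rcases hr.eq_or_lt with rfl | hr
  · simp
  rw [Real.log_mul ht.ne' hr.ne']
  push_cast
  ring

lemma F2_mul (t : ℝ) (ht : 0 ≤ t) (r : ℝ) (hr : 0 ≤ r) :
    ((((t * r) * Real.log (t * r)) ^ 2 : ℝ) : ℂ)
      = f2 t * f0 r + 2 * f1 t * f1 r + f0 t * f2 r := by
  unfold f2 f1 f0
  rcases ht.eq_or_lt with rfl | ht
  · simp
  rcases hr.eq_or_lt with rfl | hr
  · simp
  rw [Real.log_mul ht.ne' hr.ne']
  push_cast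
  ring

section
variable {M : Model H} {T : H →L[ℂ] H} {φ : ℂ → ℂ}

lemma Sys.A0 (h : Sys M T φ) : fc T f0 = (star T * T) ^ 2 := by
  have := fc_pow T h.normal 2
  rw [← this]
  unfold f0
  congr 1
  ext t
  push_cast
  rfl

/-- first relation -/
lemma Sys.R1 (h : Sys M T φ) (u v : ℂ) (hu : 0 < u.re) (hv : 0 < v.re) :
    2 * (⟪M.dk u, fc T f1 (M.k v)⟫_ℂ * ⟪M.k u, fc T f0 (M.dk v)⟫_ℂ
        + ⟪M.dk u, fc T f0 (M.k v)⟫_ℂ * ⟪M.k u, fc T f1 (M.dk v)⟫_ℂ)
      = ⟪M.k u, fc T f1 (M.k v)⟫_ℂ * ⟪M.dk u, fc T f0 (M.dk v)⟫_ℂ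
        + ⟪M.k u, fc T f0 (M.k v)⟫_ℂ * ⟪M.dk u, fc T f1 (M.dk v)⟫_ℂ := by
  have := transfer T h.normal (fun t => t * (t * Real.log t))
    (continuous_id.mul Real.continuous_mul_log) (Finset.univ : Finset (Fin 2))
    ![f1, f0] ![f0, f1]
    (by intro i; fin_cases i; exacts [cont_f1, cont_f0])
    (by intro i; fin_cases i; exacts [cont_f0, cont_f1])
    (by
      intro t ht r hr
      rw [F1_mul t ht r hr]
      simp [Fin.sum_univ_two])
    (M.k v) (M.dk u) (M.dk v) (M.k u) (M.k v) (M.k u) (M.dk v) (M.dk u)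
    (fun n => h.base u v hu hv n)
  simpa [Fin.sum_univ_two] using this

/-- second relation -/
lemma Sys.R2 (h : Sys M T φ) (u v : ℂ) (hu : 0 < u.re) (hv : 0 < v.re) :
    2 * (⟪M.dk u, fc T f2 (M.k v)⟫_ℂ * ⟪M.k u, fc T f0 (M.dk v)⟫_ℂ
        + 2 * (⟪M.dk u, fc T f1 (M.k v)⟫_ℂ * ⟪M.k u, fc T f1 (M.dk v)⟫_ℂ)
        + ⟪M.dk u, fc T f0 (M.k v)⟫_ℂ * ⟪M.k u, fc T f2 (M.dk v)⟫_ℂ)
      = ⟪M.k u, fc T f2 (M.k v)⟫_ℂ * ⟪M.dk u, fc T f0 (M.dk v)⟫_ℂ
        + 2 * (⟪M.k u, fc T f1 (M.k v)⟫_ℂ * ⟪M.dk u, fc T f1 (M.dk v)⟫_ℂ)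
        + ⟪M.k u, fc T f0 (M.k v)⟫_ℂ * ⟪M.dk u, fc T f2 (M.dk v)⟫_ℂ := by
  have := transfer T h.normal (fun t => (t * Real.log t) ^ 2)
    (Real.continuous_mul_log.pow 2) (Finset.univ : Finset (Fin 4))
    ![f2, f1, f1, f0] ![f0, f1, f1, f2]
    (by intro i; fin_cases i; exacts [cont_f2, cont_f1, cont_f1, cont_f0])
    (by intro i; fin_cases i; exacts [cont_f0, cont_f1, cont_f1, cont_f2])
    (by
      intro t ht r hr
      rw [F2_mul t ht r hr]
      simp [Fin.sum_univ_four]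
      ring)
    (M.k v) (M.dk u) (M.dk v) (M.k u) (M.k v) (M.k u) (M.dk v) (M.dk u)
    (fun n => h.base u v hu hv n)
  simp only [Fin.sum_univ_four] at this
  have e0 : (![f2, f1, f1, f0] : Fin 4 → ℝ → ℂ) 0 = f2 := rfl
  have e1 : (![f2, f1, f1, f0] : Fin 4 → ℝ → ℂ) 1 = f1 := rfl
  have e2 : (![f2, f1, f1, f0] : Fin 4 → ℝ → ℂ) 2 = f1 := rfl
  have e3 : (![f2, f1, f1, f0] : Fin 4 → ℝ → ℂ) 3 = f0 := rfl
  have g0 : (![f0, f1, f1, f2] : Fin 4 → ℝ → ℂ) 0 = f0 := rfl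
  have g1 : (![f0, f1, f1, f2] : Fin 4 → ℝ → ℂ) 1 = f1 := rfl
  have g2 : (![f0, f1, f1, f2] : Fin 4 → ℝ → ℂ) 2 = f1 := rfl
  have g3 : (![f0, f1, f1, f2] : Fin 4 → ℝ → ℂ) 3 = f2 := rfl
  rw [e0, e1, e2, e3, g0, g1, g2, g3] at this
  linear_combination this

/-- the function defining `X` -/
noncomputable def fX (z : ℂ) : ℂ := (starRingEnd ℂ) z ^ 2 * ((Real.log (‖z‖ ^ 2) : ℝ) : ℂ)

lemma cont_fX : Continuous fX := by
  rw [continuous_iff_continuousAt]
  intro z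
  by_cases hz : z = 0
  · subst hz
    unfold ContinuousAt
    have h0 : fX 0 = 0 := by simp [fX]
    rw [h0]
    apply squeeze_zero_norm (a := fun z : ℂ => |‖z‖ ^ 2 * Real.log (‖z‖ ^ 2)|)
    · intro z
      unfold fX
      rw [norm_mul, norm_pow, Complex.norm_conj, Complex.norm_real, abs_mul, Real.norm_eq_abs,
        abs_of_nonneg (sq_nonneg ‖z‖)]
    · have h1 : Continuous (fun z : ℂ => |‖z‖ ^ 2 * Real.log (‖z‖ ^ 2)|) :=
        (Real.continuous_mul_log.comp (continuous_norm.pow 2)).abs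
      have h2 := h1.tendsto (0 : ℂ)
      simpa using h2
  · unfold fX
    have hz' : ‖z‖ ^ 2 ≠ 0 := by positivity
    apply ContinuousAt.mul
    · exact (Complex.continuous_conj.pow 2).continuousAt
    · apply Complex.continuous_ofReal.continuousAt.comp
      exact (continuous_norm.pow 2).continuousAt.log hz'

/-- the operator `X` -/
noncomputable def XX (T : H →L[ℂ] H) : H →L[ℂ] H := cfc fX T

lemma normsq_ofReal (z : ℂ) : ((‖z‖ ^ 2 : ℝ) : ℂ) = (starRingEnd ℂ) z * z := by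
  rw [Complex.ofReal_pow, ← Complex.conj_mul']

lemma Sys.T2X (h : Sys M T φ) : T ^ 2 * XX T = fc T f1 := by
  have hT := h.normal
  have h1 : T ^ 2 = cfc (fun z : ℂ => z ^ 2) T := by
    exact (cfc_pow_id T 2).symm
  rw [h1, XX, ← cfc_mul (fun z : ℂ => z ^ 2) fX T (by fun_prop) cont_fX.continuousOn]
  unfold fc
  congr 1
  ext z
  unfold fX f1
  push_cast
  rw [← Complex.ofReal_pow, normsq_ofReal]
  ring

lemma Sys.starX (h : Sys M T φ) :
    star (XX T) = cfc (fun z : ℂ => z ^ 2 * ((Real.log (‖z‖ ^ 2) : ℝ) : ℂ)) T := by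
  have hT := h.normal
  rw [XX, ← cfc_star]
  congr 1
  ext z
  unfold fX
  rw [star_mul', star_pow]
  simp

lemma Sys.XX_star (h : Sys M T φ) : star (XX T) * XX T = fc T f2 := by
  have hT := h.normal
  rw [h.starX, XX, ← cfc_mul _ fX T _ cont_fX.continuousOn]
  · unfold fc
    congr 1
    ext z
    unfold fX f2
    push_cast
    rw [← Complex.ofReal_pow, normsq_ofReal]
    ring
  · have : (fun z : ℂ => z ^ 2 * ((Real.log (‖z‖ ^ 2) : ℝ) : ℂ)) = fun z => (starRingEnd ℂ) (fX z) := by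
      ext z
      unfold fX
      rw [map_mul, map_pow, Complex.conj_conj, Complex.conj_ofReal]
    rw [this]
    exact (Complex.continuous_conj.comp cont_fX).continuousOn

lemma Sys.starX_S2 (h : Sys M T φ) : star (XX T) * (star T) ^ 2 = fc T f1 := by
  have h1 : star (fc T f1) = fc T f1 := by
    apply fc_star
    intro t
    unfold f1
    exact Complex.conj_ofReal _
  have h2 := h.T2X
  have h3 : star (T ^ 2 * XX T) = star (XX T) * (star T) ^ 2 := by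
    rw [star_mul, star_pow]
  rw [← h3, h2, h1]

lemma star_fc0 (T : H →L[ℂ] H) : star (fc T f0) = fc T f0 := fc_star _ _ (fun _ => Complex.conj_ofReal _)
lemma star_fc1 (T : H →L[ℂ] H) : star (fc T f1) = fc T f1 := fc_star _ _ (fun _ => Complex.conj_ofReal _)
lemma star_fc2 (T : H →L[ℂ] H) : star (fc T f2) = fc T f2 := fc_star _ _ (fun _ => Complex.conj_ofReal _)

lemma Sys.X_commute (h : Sys M T φ) : Commute (XX T) (star T) ∧ Commute (XX T) T := by
  have hT := h.normal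
  constructor
  · have h1 : star T = cfc (fun z : ℂ => star z) T := by
      exact (cfc_star_id T).symm
    rw [h1]
    exact cfc_commute_cfc _ _ T
  · have h1 : cfc (fun z : ℂ => z) T = T := cfc_id' ℂ T
    have h2 : Commute (XX T) (cfc (fun z : ℂ => z) T) := cfc_commute_cfc _ _ T
    rwa [h1] at h2

/-- the transform of `X x` along `φ ∘ φ` -/
lemma Sys.X_trans (h : Sys M T φ) (u : ℂ) (hu : 0 < u.re) (x : H) :
    ⟪M.k (φ (φ u)), XX T x⟫_ℂ = ⟪M.k u, fc T f1 x⟫_ℂ := by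
  rw [← h.T2X, mul_apply_eq_comp, pow_two, mul_apply_eq_comp, h.transf u hu, h.transf _ (h.maps u hu)]

lemma Sys.X_inner (h : Sys M T φ) (x y : H) :
    ⟪XX T x, XX T y⟫_ℂ = ⟪x, fc T f2 y⟫_ℂ := by
  rw [← h.XX_star, mul_apply_eq_comp, star_inner_right]

end

end Pool.Agent.Helper76.NormalHP
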