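import Pool.Agent.Helper76.HP3

set_option autoImplicit false
open Complex Filter Topology
open scoped InnerProductSpace

namespace Pool.Agent.Helper76.NormalHP

variable {H : Type*} [NormedAddCommGroup H] [InnerProductSpace ℂ H] [CompleteSpace H]

lemma const_of_deriv_zero (F : ℂ → ℂ) (hF : ∀ z ∈ RH, HasDerivAt F 0 z) :
    ∀ z ∈ RH, ∀ w ∈ RH, F z = F w := by
  intro z hz w hw
  apply isOpen_RH.is_const_of_deriv_eq_zero preconn_RH
    (fun z hz => (hF z hz).differentiableAt.differentiableWithinAt) (fun z hz => (hF z hz).deriv) hz hw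

section
variable {M : Model H} {T : H →L[ℂ] H} {φ : ℂ → ℂ}

lemma Sys.hasDerivPhi (h : Sys M T φ) (u : ℂ) (hu : 0 < u.re) :
    HasDerivAt (φ^[2]) (deriv (φ^[2]) u) u :=
  ((h.iter_diff 2).differentiableAt (isOpen_RH.mem_nhds hu)).hasDerivAt

lemma Sys.Sne (h : Sys M T φ) {u v : ℂ} (hu : 0 < u.re) (hv : 0 < v.re) :
    φ^[2] u + (starRingEnd ℂ) (φ^[2] v) ≠ 0 :=
  add_conj_ne (h.iter_maps 2 u hu) (h.iter_maps 2 v hv)

/-- (R1) cleared of denominators -/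
lemma Sys.R1' (h : Sys M T φ) (u v : ℂ) (hu : 0 < u.re) (hv : 0 < v.re) :
    (φ^[2] u + (starRingEnd ℂ) (φ^[2] v)) ^ 2 * ⟪M.dk u, fc T f1 (M.dk v)⟫_ℂ
      + 2 * (φ^[2] u + (starRingEnd ℂ) (φ^[2] v))
        * ((starRingEnd ℂ) (deriv (φ^[2]) v) * ⟪M.dk u, fc T f1 (M.k v)⟫_ℂ
          + deriv (φ^[2]) u * ⟪M.k u, fc T f1 (M.dk v)⟫_ℂ)
      + 2 * deriv (φ^[2]) u * (starRingEnd ℂ) (deriv (φ^[2]) v) * ⟪M.k u, fc T f1 (M.k v)⟫_ℂ = 0 := by
  have h1 := h.R1 u v hu hv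
  rw [h.A0, h.L 2 u v hu hv, h.L10 2 u v hu hv, h.L01 2 u v hu hv, h.L11 2 u v hu hv] at h1
  have hne := h.Sne hu hv
  set S := φ^[2] u + (starRingEnd ℂ) (φ^[2] v) with hS
  field_simp at h1
  linear_combination (-1 : ℂ) * h1

lemma Sys.exP (h : Sys M T φ) : ∃ P : ℂ → ℂ, DifferentiableOn ℂ P RH ∧
    ∀ u v : ℂ, 0 < u.re → 0 < v.re → ⟪M.k u, fc T f1 (M.k v)⟫_ℂ
      = -(P u + (starRingEnd ℂ) (P v)) / (φ^[2] u + (starRingEnd ℂ) (φ^[2] v)) ^ 2 := by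
  set Φ := φ^[2] with hΦ
  set W : ℂ → ℂ → ℂ := fun u v => -(Φ u + (starRingEnd ℂ) (Φ v)) ^ 2 * ⟪M.k u, fc T f1 (M.k v)⟫_ℂ
    with hW
  set W10 : ℂ → ℂ → ℂ := fun u v => -(2 * (Φ u + (starRingEnd ℂ) (Φ v)) * deriv Φ u
      * ⟪M.k u, fc T f1 (M.k v)⟫_ℂ
      + (Φ u + (starRingEnd ℂ) (Φ v)) ^ 2 * ⟪M.dk u, fc T f1 (M.k v)⟫_ℂ) with hW10
  have hWherm : ∀ u v : ℂ, W u v = (starRingEnd ℂ) (W v u) := by
    intro u v
    simp only [hW]
    rw [herm _ (star_fc1 T) (M.k u) (M.k v)]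
    simp only [map_mul, map_neg, map_pow, map_add, Complex.conj_conj]
    ring
  have hWd : ∀ u v : ℂ, 0 < u.re → 0 < v.re → HasDerivAt (fun u => W u v) (W10 u v) u := by
    intro u v hu hv
    have h1 := h.hasDerivPhi u hu
    have h2 := M.der u (fc T f1 (M.k v)) hu
    have h3 := (((h1.add_const ((starRingEnd ℂ) (Φ v))).pow 2).neg.mul h2)
    refine h3.congr_deriv ?_
    simp only [hW10, Pi.neg_apply, Pi.pow_apply]
    push_cast
    ring
  have hW10c : ∀ u v w : ℂ, 0 < u.re → 0 < v.re → 0 < w.re → W10 u v = W10 u w := by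
    intro u v w hu hv hw
    -- function of the second variable, conjugated
    set G : ℂ → ℂ := fun ζ => 2 * (Φ ζ + (starRingEnd ℂ) (Φ u)) * (starRingEnd ℂ) (deriv Φ u)
      * ⟪M.k ζ, fc T f1 (M.k u)⟫_ℂ
      + (Φ ζ + (starRingEnd ℂ) (Φ u)) ^ 2 * ⟪M.k ζ, fc T f1 (M.dk u)⟫_ℂ with hG
    have hGW : ∀ ζ : ℂ, (starRingEnd ℂ) (G ζ) = - W10 u ζ := by
      intro ζ
      simp only [hG, hW10]
      rw [herm _ (star_fc1 T) (M.k u) (M.k ζ), herm _ (star_fc1 T) (M.dk u) (M.k ζ)]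
      simp only [map_mul, map_neg, map_pow, map_add, Complex.conj_conj, map_ofNat]
      ring
    have hGd : ∀ ζ ∈ RH, HasDerivAt G 0 ζ := by
      intro ζ hζ
      have h1 := h.hasDerivPhi ζ hζ
      have h2 := M.der ζ (fc T f1 (M.k u)) hζ
      have h3 := M.der ζ (fc T f1 (M.dk u)) hζ
      have h4 := (((((h1.add_const ((starRingEnd ℂ) (Φ u))).const_mul 2).mul_const
        ((starRingEnd ℂ) (deriv Φ u))).mul h2).add
        (((h1.add_const ((starRingEnd ℂ) (Φ u))).pow 2).mul h3))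
      have h5 := h.R1' ζ u hζ hu
      refine h4.congr_deriv ?_
      simp only [Pi.pow_apply]
      rw [← h5]
      push_cast
      ring
    have h6 := const_of_deriv_zero G hGd v hv w hw
    have h7 := hGW v
    have h8 := hGW w
    rw [h6] at h7
    rw [h7] at h8
    exact neg_injective h8
  have h1re : (0 : ℝ) < (1 : ℂ).re := by simp
  have hWsum : ∀ u v : ℂ, 0 < u.re → 0 < v.re → W u v = W u 1 + W 1 v - W 1 1 := by
    intro u v hu hv
    have h1 := const_of_deriv_zero (fun ζ => W ζ v - W ζ 1) (by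
      intro ζ hζ
      have h2 := (hWd ζ v hζ hv).sub (hWd ζ 1 hζ h1re)
      rw [hW10c ζ v 1 hζ hv h1re, sub_self] at h2
      exact h2) u hu 1 h1re
    linear_combination h1
  refine ⟨fun u => W u 1 - W 1 1 / 2, ?_, ?_⟩
  · intro u hu
    exact ((hWd u 1 hu h1re).sub_const _).differentiableAt.differentiableWithinAt
  · intro u v hu hv
    have hne := h.Sne hu hv
    have h1 := hWsum u v hu hv
    have h2 := hWherm 1 v
    have h3 := hWherm 1 1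
    rw [eq_div_iff (pow_ne_zero 2 hne)]
    simp only [map_sub, map_div₀, map_ofNat]
    rw [← h2, ← h3]
    have h4 : W u v = -(Φ u + (starRingEnd ℂ) (Φ v)) ^ 2 * ⟪M.k u, fc T f1 (M.k v)⟫_ℂ := rfl
    linear_combination (-1 : ℂ) * h1 + h4

/-- the explicit data of the first-order operator -/
structure Dat (M : Model H) (T : H →L[ℂ] H) (φ P : ℂ → ℂ) : Prop extends Sys M T φ where
  Pdiff : DifferentiableOn ℂ P RH
  a1 : ∀ u v : ℂ, 0 < u.re → 0 < v.re → ⟪M.k u, fc T f1 (M.k v)⟫_ℂ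
      = -(P u + (starRingEnd ℂ) (P v)) / (φ^[2] u + (starRingEnd ℂ) (φ^[2] v)) ^ 2

variable {P : ℂ → ℂ}

lemma Dat.a10 (h : Dat M T φ P) (u v : ℂ) (hu : 0 < u.re) (hv : 0 < v.re) :
    ⟪M.dk u, fc T f1 (M.k v)⟫_ℂ
      = -deriv P u / (φ^[2] u + (starRingEnd ℂ) (φ^[2] v)) ^ 2
        + 2 * deriv (φ^[2]) u * (P u + (starRingEnd ℂ) (P v))
          / (φ^[2] u + (starRingEnd ℂ) (φ^[2] v)) ^ 3 := by
  have hne := h.toSys.Sne hu hv
  have hP : HasDerivAt P (deriv P u) u :=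
    (h.Pdiff.differentiableAt (isOpen_RH.mem_nhds hu)).hasDerivAt
  have h1 := h.toSys.hasDerivPhi u hu
  apply M.du _ (fun ζ => -(P ζ + (starRingEnd ℂ) (P v))
    / (φ^[2] ζ + (starRingEnd ℂ) (φ^[2] v)) ^ 2) _ u hu
  · intro ζ hζ
    exact h.a1 ζ v hζ hv
  · have h3 := ((hP.add_const ((starRingEnd ℂ) (P v))).neg).div
      ((h1.add_const ((starRingEnd ℂ) (φ^[2] v))).pow 2) (pow_ne_zero 2 hne)
    refine h3.congr_deriv ?_
    simp only [Pi.pow_apply, Pi.neg_apply]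
    push_cast
    field_simp
    ring

lemma Dat.a01 (h : Dat M T φ P) (u v : ℂ) (hu : 0 < u.re) (hv : 0 < v.re) :
    ⟪M.k u, fc T f1 (M.dk v)⟫_ℂ
      = -(starRingEnd ℂ) (deriv P v) / (φ^[2] u + (starRingEnd ℂ) (φ^[2] v)) ^ 2
        + 2 * (starRingEnd ℂ) (deriv (φ^[2]) v) * (P u + (starRingEnd ℂ) (P v))
          / (φ^[2] u + (starRingEnd ℂ) (φ^[2] v)) ^ 3 := by
  rw [herm _ (star_fc1 T), h.a10 v u hv hu]
  simp only [map_div₀, map_neg, map_pow, map_add, map_mul, map_ofNat, Complex.conj_conj]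
  rw [add_comm (φ^[2] u), add_comm (P u)]

lemma Dat.a11 (h : Dat M T φ P) (u v : ℂ) (hu : 0 < u.re) (hv : 0 < v.re) :
    ⟪M.dk u, fc T f1 (M.dk v)⟫_ℂ
      = (2 * (starRingEnd ℂ) (deriv (φ^[2]) v) * deriv P u
          + 2 * deriv (φ^[2]) u * (starRingEnd ℂ) (deriv P v))
          / (φ^[2] u + (starRingEnd ℂ) (φ^[2] v)) ^ 3
        - 6 * deriv (φ^[2]) u * (starRingEnd ℂ) (deriv (φ^[2]) v) * (P u + (starRingEnd ℂ) (P v))
          / (φ^[2] u + (starRingEnd ℂ) (φ^[2] v)) ^ 4 := by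
  have hne := h.toSys.Sne hu hv
  have h1 := h.toSys.R1' u v hu hv
  rw [h.a1 u v hu hv, h.a10 u v hu hv, h.a01 u v hu hv] at h1
  set S := φ^[2] u + (starRingEnd ℂ) (φ^[2] v) with hS
  field_simp at h1
  field_simp
  linear_combination h1

end

end Pool.Agent.Helper76.NormalHP
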