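import Pool.Agent.Helper76.HP4

set_option autoImplicit false
open Complex Filter Topology
open scoped InnerProductSpace

namespace Pool.Agent.Helper76.NormalHP

variable {H : Type*} [NormedAddCommGroup H] [InnerProductSpace ℂ H] [CompleteSpace H]

section
variable {M : Model H} {T : H →L[ℂ] H} {φ : ℂ → ℂ} {P : ℂ → ℂ}

/-- multiplication of `X dk v` by the variable -/
lemma Dat.mulvar (h : Dat M T φ P) (v : ℂ) (hv : 0 < v.re) :
    ∀ ζ : ℂ, 0 < ζ.re → ζ * ⟪M.k ζ, XX T (M.dk v)⟫_ℂ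
      = ⟪M.k ζ, (-(starRingEnd ℂ) (deriv P v)) • M.k (φ^[2] v)
        - (2 * (starRingEnd ℂ) (deriv (φ^[2]) v)) • XX T (M.k v)
        - ((starRingEnd ℂ) (φ^[2] v)) • XX T (M.dk v)⟫_ℂ := by
  have hs := h.toSys
  apply hs.idl (fun ζ => ζ * ⟪M.k ζ, XX T (M.dk v)⟫_ℂ)
    (fun ζ => ⟪M.k ζ, (-(starRingEnd ℂ) (deriv P v)) • M.k (φ^[2] v)
        - (2 * (starRingEnd ℂ) (deriv (φ^[2]) v)) • XX T (M.k v)
        - ((starRingEnd ℂ) (φ^[2] v)) • XX T (M.dk v)⟫_ℂ)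
  · exact differentiableOn_id.mul (M.diffOn _)
  · exact M.diffOn _
  · intro u hu
    have e1 : φ (φ u) = φ^[2] u := rfl
    have hu2 := hs.iter_maps 2 u hu
    have hv2 := hs.iter_maps 2 v hv
    simp only [inner_sub_right, inner_smul_right]
    have x1 := hs.X_trans u hu (M.dk v)
    have x2 := hs.X_trans u hu (M.k v)
    rw [e1] at x1 x2 ⊢
    rw [x1, x2, M.ker _ _ hu2 hv2, h.a01 u v hu hv, h.a1 u v hu hv]
    have hne := hs.Sne hu hv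
    have e2 : φ^[2] u = (φ^[2] u + (starRingEnd ℂ) (φ^[2] v)) - (starRingEnd ℂ) (φ^[2] v) := by ring
    set S := φ^[2] u + (starRingEnd ℂ) (φ^[2] v) with hS
    rw [e2]
    field_simp
    ring

lemma Dat.PDE (h : Dat M T φ P) (u v : ℂ) (hu : 0 < u.re) (hv : 0 < v.re) :
    (φ^[2] u + (starRingEnd ℂ) (φ^[2] v)) * ⟪M.dk u, fc T f2 (M.dk v)⟫_ℂ
      + 2 * (starRingEnd ℂ) (deriv (φ^[2]) v) * ⟪M.dk u, fc T f2 (M.k v)⟫_ℂ
      + 2 * deriv (φ^[2]) u * ⟪M.k u, fc T f2 (M.dk v)⟫_ℂ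
      + (starRingEnd ℂ) (deriv P v) * ⟪M.dk u, fc T f1 (M.k v)⟫_ℂ
      + deriv P u * ⟪M.k u, fc T f1 (M.dk v)⟫_ℂ = 0 := by
  have hs := h.toSys
  have h1 := M.skew _ _ _ _ (h.mulvar u hu) (h.mulvar v hv)
  have y1 : ⟪M.k (φ^[2] u), XX T (M.dk v)⟫_ℂ = ⟪M.k u, fc T f1 (M.dk v)⟫_ℂ :=
    hs.X_trans u hu (M.dk v)
  have y2 : ⟪XX T (M.dk u), M.k (φ^[2] v)⟫_ℂ = ⟪M.dk u, fc T f1 (M.k v)⟫_ℂ := by
    rw [herm _ (star_fc1 T), ← inner_conj_symm]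
    congr 1
    exact hs.X_trans v hv (M.dk u)
  simp only [inner_sub_left, inner_sub_right, inner_smul_left, inner_smul_right, map_neg,
    map_mul, map_ofNat, Complex.conj_conj, y1, y2, hs.X_inner] at h1
  linear_combination (-1 : ℂ) * h1

/-- formula for the second-order kernel -/
lemma Dat.a2 (h : Dat M T φ P) (u v : ℂ) (hu : 0 < u.re) (hv : 0 < v.re)
    (hu' : deriv (φ^[2]) u ≠ 0) (hv' : deriv (φ^[2]) v ≠ 0) :
    ⟪M.k u, fc T f2 (M.k v)⟫_ℂ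
      = (deriv P u / deriv (φ^[2]) u) * (starRingEnd ℂ) (deriv P v / deriv (φ^[2]) v)
          / (φ^[2] u + (starRingEnd ℂ) (φ^[2] v))
        - (P u + (starRingEnd ℂ) (P v)) * ((deriv P u / deriv (φ^[2]) u)
            + (starRingEnd ℂ) (deriv P v / deriv (φ^[2]) v))
          / (φ^[2] u + (starRingEnd ℂ) (φ^[2] v)) ^ 2
        + 2 * (P u + (starRingEnd ℂ) (P v)) ^ 2 / (φ^[2] u + (starRingEnd ℂ) (φ^[2] v)) ^ 3 := by
  have hs := h.toSys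
  have h1 := hs.R2 u v hu hv
  have h2 := h.PDE u v hu hv
  rw [hs.A0, hs.L 2 u v hu hv, hs.L10 2 u v hu hv, hs.L01 2 u v hu hv, hs.L11 2 u v hu hv] at h1
  rw [h.a1 u v hu hv, h.a10 u v hu hv, h.a01 u v hu hv, h.a11 u v hu hv] at h1
  rw [h.a10 u v hu hv, h.a01 u v hu hv] at h2
  have hne := hs.Sne hu hv
  have hv'' : (starRingEnd ℂ) (deriv (φ^[2]) v) ≠ 0 := by
    rw [Ne, map_eq_zero]
    exact hv'
  simp only [map_div₀]
  set S := φ^[2] u + (starRingEnd ℂ) (φ^[2] v) with hS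
  set A := P u + (starRingEnd ℂ) (P v) with hA
  set p := deriv P u with hp
  set pb := (starRingEnd ℂ) (deriv P v) with hpb
  set f := deriv (φ^[2]) u with hf
  set fb := (starRingEnd ℂ) (deriv (φ^[2]) v) with hfb
  set b11 := ⟪M.dk u, fc T f2 (M.dk v)⟫_ℂ with hb11
  set b10 := ⟪M.dk u, fc T f2 (M.k v)⟫_ℂ with hb10
  set b01 := ⟪M.k u, fc T f2 (M.dk v)⟫_ℂ with hb01
  set b := ⟪M.k u, fc T f2 (M.k v)⟫_ℂ with hb
  -- eliminate `b11`
  have h3 : b11 = -(2 * fb * b10 + 2 * f * b01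
      + pb * (-p / S ^ 2 + 2 * f * A / S ^ 3) + p * (-pb / S ^ 2 + 2 * fb * A / S ^ 3)) / S := by
    rw [eq_div_iff hne]
    linear_combination h2
  rw [h3] at h1
  field_simp at h1 ⊢
  linear_combination (-1/2 : ℂ) * h1

end

end Pool.Agent.Helper76.NormalHP
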