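import Pool.Agent.Helper76.HP5

set_option autoImplicit false
open Complex Filter Topology
open scoped InnerProductSpace

namespace Pool.Agent.Helper76.NormalHP

variable {H : Type*} [NormedAddCommGroup H] [InnerProductSpace ℂ H] [CompleteSpace H]

lemma der_g (S A R : ℂ → ℂ) (s a r c u : ℂ) (hS : HasDerivAt S s u) (hA : HasDerivAt A a u)
    (hR : HasDerivAt R r u) (hne : S u ≠ 0) :
    HasDerivAt (fun ζ => R ζ * c / S ζ - A ζ * (R ζ + c) / S ζ ^ 2 + 2 * A ζ ^ 2 / S ζ ^ 3)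
      (r * c / S u - R u * c * s / S u ^ 2 - a * (R u + c) / S u ^ 2 - A u * r / S u ^ 2
        + 2 * A u * s * (R u + c) / S u ^ 3 + 4 * A u * a / S u ^ 3
        - 6 * A u ^ 2 * s / S u ^ 4) u := by
  have h1 := (hR.mul_const c).div hS hne
  have h2 := (hA.mul (hR.add_const c)).div (hS.pow 2) (pow_ne_zero 2 hne)
  have h3 := ((hA.pow 2).const_mul 2).div (hS.pow 3) (pow_ne_zero 3 hne)
  have h4 := (h1.sub h2).add h3
  refine h4.congr_deriv ?_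
  simp only [Pi.pow_apply, Pi.mul_apply]
  push_cast
  field_simp
  ring

lemma der_g2 (S A R : ℂ → ℂ) (s a r c u rb sb pb : ℂ) (hS : HasDerivAt S s u)
    (hA : HasDerivAt A a u) (hR : HasDerivAt R r u) (hne : S u ≠ 0) :
    HasDerivAt (fun ζ => rb * R ζ / S ζ - R ζ * c * sb / S ζ ^ 2 - pb * (R ζ + c) / S ζ ^ 2
        - A ζ * rb / S ζ ^ 2 + 2 * A ζ * sb * (R ζ + c) / S ζ ^ 3 + 4 * A ζ * pb / S ζ ^ 3
        - 6 * A ζ ^ 2 * sb / S ζ ^ 4)
      (rb * r / S u - rb * R u * s / S u ^ 2 - r * c * sb / S u ^ 2 + 2 * R u * c * sb * s / S u ^ 3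
        - pb * r / S u ^ 2 + 2 * pb * (R u + c) * s / S u ^ 3 - a * rb / S u ^ 2
        + 2 * A u * rb * s / S u ^ 3 + 2 * a * sb * (R u + c) / S u ^ 3 + 2 * A u * sb * r / S u ^ 3
        - 6 * A u * sb * (R u + c) * s / S u ^ 4 + 4 * a * pb / S u ^ 3
        - 12 * A u * pb * s / S u ^ 4 - 12 * A u * a * sb / S u ^ 4
        + 24 * A u ^ 2 * sb * s / S u ^ 5) u := by
  have h1 := (hR.const_mul rb).div hS hne
  have h2 := ((hR.mul_const c).mul_const sb).div (hS.pow 2) (pow_ne_zero 2 hne)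
  have h3 := ((hR.add_const c).const_mul pb).div (hS.pow 2) (pow_ne_zero 2 hne)
  have h4 := (hA.mul_const rb).div (hS.pow 2) (pow_ne_zero 2 hne)
  have h5 := (((hA.const_mul 2).mul_const sb).mul (hR.add_const c)).div (hS.pow 3)
    (pow_ne_zero 3 hne)
  have h6 := ((hA.const_mul 4).mul_const pb).div (hS.pow 3) (pow_ne_zero 3 hne)
  have h7 := (((hA.pow 2).const_mul 6).mul_const sb).div (hS.pow 4) (pow_ne_zero 4 hne)
  have h8 := (((((h1.sub h2).sub h3).sub h4).add h5).add h6).sub h7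
  refine h8.congr_deriv ?_
  simp only [Pi.pow_apply, Pi.mul_apply]
  push_cast
  field_simp
  ring

section
variable {M : Model H} {T : H →L[ℂ] H} {φ : ℂ → ℂ} {P : ℂ → ℂ}

lemma Model.du' (M : Model H) (x : H) (F : ℂ → ℂ) (F' z : ℂ) (hz : 0 < z.re)
    (hF : (fun ζ => ⟪M.k ζ, x⟫_ℂ) =ᶠ[𝓝 z] F) (hd : HasDerivAt F F' z) :
    ⟪M.dk z, x⟫_ℂ = F' :=
  (M.der z x hz).unique (hd.congr_of_eventuallyEq hF)

lemma Sys.deriv_diff (h : Sys M T φ) (u : ℂ) (hu : 0 < u.re) :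
    DifferentiableAt ℂ (deriv (φ^[2])) u :=
  ((h.iter_diff 2).deriv isOpen_RH).differentiableAt (isOpen_RH.mem_nhds hu)

lemma Sys.near (h : Sys M T φ) (u : ℂ) (hu : 0 < u.re) (hu' : deriv (φ^[2]) u ≠ 0) :
    ∀ᶠ ζ in 𝓝 u, 0 < ζ.re ∧ deriv (φ^[2]) ζ ≠ 0 := by
  have h1 := (h.deriv_diff u hu).continuousAt.eventually_ne hu'
  filter_upwards [h1, isOpen_RH.mem_nhds hu] with ζ h2 h3
  exact ⟨h3, h2⟩

lemma Dat.Pder (h : Dat M T φ P) (u : ℂ) (hu : 0 < u.re) : HasDerivAt P (deriv P u) u :=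
  (h.Pdiff.differentiableAt (isOpen_RH.mem_nhds hu)).hasDerivAt

lemma Dat.Rder (h : Dat M T φ P) (u : ℂ) (hu : 0 < u.re) (hu' : deriv (φ^[2]) u ≠ 0) :
    HasDerivAt (fun ζ => deriv P ζ / deriv (φ^[2]) ζ)
      (deriv (fun ζ => deriv P ζ / deriv (φ^[2]) ζ) u) u := by
  apply DifferentiableAt.hasDerivAt
  apply DifferentiableAt.div _ (h.toSys.deriv_diff u hu) hu'
  exact (h.Pdiff.deriv isOpen_RH).differentiableAt (isOpen_RH.mem_nhds hu)

/-- the explicit first derivative of the second-order kernel -/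
lemma Dat.a210 (h : Dat M T φ P) (u v : ℂ) (hu : 0 < u.re) (hv : 0 < v.re)
    (hu' : deriv (φ^[2]) u ≠ 0) (hv' : deriv (φ^[2]) v ≠ 0) (R : ℂ → ℂ)
    (hR : R = fun ζ => deriv P ζ / deriv (φ^[2]) ζ) (S A : ℂ)
    (hS : S = φ^[2] u + (starRingEnd ℂ) (φ^[2] v)) (hA : A = P u + (starRingEnd ℂ) (P v)) :
    ⟪M.dk u, fc T f2 (M.k v)⟫_ℂ
      = deriv R u * (starRingEnd ℂ) (R v) / S
        - R u * (starRingEnd ℂ) (R v) * deriv (φ^[2]) u / S ^ 2
        - deriv P u * (R u + (starRingEnd ℂ) (R v)) / S ^ 2 - A * deriv R u / S ^ 2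
        + 2 * A * deriv (φ^[2]) u * (R u + (starRingEnd ℂ) (R v)) / S ^ 3
        + 4 * A * deriv P u / S ^ 3
        - 6 * A ^ 2 * deriv (φ^[2]) u / S ^ 4 := by
  have hs := h.toSys
  have hne := hs.Sne hu hv
  subst hR hS hA
  apply M.du' _ _ _ u hu _ (der_g (fun ζ => φ^[2] ζ + (starRingEnd ℂ) (φ^[2] v))
    (fun ζ => P ζ + (starRingEnd ℂ) (P v)) (fun ζ => deriv P ζ / deriv (φ^[2]) ζ) _ _ _ _ u
    ((hs.hasDerivPhi u hu).add_const _) ((h.Pder u hu).add_const _) (h.Rder u hu hu') hne)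
  filter_upwards [hs.near u hu hu'] with ζ hζ
  exact h.a2 ζ v hζ.1 hv hζ.2 hv'

lemma Dat.a201 (h : Dat M T φ P) (u v : ℂ) (hu : 0 < u.re) (hv : 0 < v.re)
    (hu' : deriv (φ^[2]) u ≠ 0) (hv' : deriv (φ^[2]) v ≠ 0) (R : ℂ → ℂ)
    (hR : R = fun ζ => deriv P ζ / deriv (φ^[2]) ζ) (S A : ℂ)
    (hS : S = φ^[2] u + (starRingEnd ℂ) (φ^[2] v)) (hA : A = P u + (starRingEnd ℂ) (P v)) :
    ⟪M.k u, fc T f2 (M.dk v)⟫_ℂ
      = (starRingEnd ℂ) (deriv R v) * R u / S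
        - R u * (starRingEnd ℂ) (R v) * (starRingEnd ℂ) (deriv (φ^[2]) v) / S ^ 2
        - (starRingEnd ℂ) (deriv P v) * (R u + (starRingEnd ℂ) (R v)) / S ^ 2
        - A * (starRingEnd ℂ) (deriv R v) / S ^ 2
        + 2 * A * (starRingEnd ℂ) (deriv (φ^[2]) v) * (R u + (starRingEnd ℂ) (R v)) / S ^ 3
        + 4 * A * (starRingEnd ℂ) (deriv P v) / S ^ 3
        - 6 * A ^ 2 * (starRingEnd ℂ) (deriv (φ^[2]) v) / S ^ 4 := by
  rw [herm _ (star_fc2 T), h.a210 v u hv hu hv' hu' R hR _ _ rfl rfl]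
  have e1 : (starRingEnd ℂ) (φ^[2] v + (starRingEnd ℂ) (φ^[2] u)) = S := by
    rw [hS, map_add, Complex.conj_conj, add_comm]
  have e2 : (starRingEnd ℂ) (P v + (starRingEnd ℂ) (P u)) = A := by
    rw [hA, map_add, Complex.conj_conj, add_comm]
  have e3 : (starRingEnd ℂ) (R v + (starRingEnd ℂ) (R u)) = R u + (starRingEnd ℂ) (R v) := by
    rw [map_add, Complex.conj_conj, add_comm]
  simp only [map_add (starRingEnd ℂ) (_ / _), map_add (starRingEnd ℂ) (_ - _),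
    map_add (starRingEnd ℂ) (_ + _), map_sub, map_div₀, map_neg, map_pow,
    map_mul, map_ofNat, Complex.conj_conj, e1, e2, e3]
  ring

lemma Dat.a211 (h : Dat M T φ P) (u v : ℂ) (hu : 0 < u.re) (hv : 0 < v.re)
    (hu' : deriv (φ^[2]) u ≠ 0) (hv' : deriv (φ^[2]) v ≠ 0) (R : ℂ → ℂ)
    (hR : R = fun ζ => deriv P ζ / deriv (φ^[2]) ζ) (S A : ℂ)
    (hS : S = φ^[2] u + (starRingEnd ℂ) (φ^[2] v)) (hA : A = P u + (starRingEnd ℂ) (P v))
    (rb sb pb c : ℂ) (hrb : rb = (starRingEnd ℂ) (deriv R v))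
    (hsb : sb = (starRingEnd ℂ) (deriv (φ^[2]) v))
    (hpb : pb = (starRingEnd ℂ) (deriv P v)) (hc : c = (starRingEnd ℂ) (R v)) :
    ⟪M.dk u, fc T f2 (M.dk v)⟫_ℂ
      = rb * deriv R u / S - rb * R u * deriv (φ^[2]) u / S ^ 2 - deriv R u * c * sb / S ^ 2
        + 2 * R u * c * sb * deriv (φ^[2]) u / S ^ 3
        - pb * deriv R u / S ^ 2 + 2 * pb * (R u + c) * deriv (φ^[2]) u / S ^ 3
        - deriv P u * rb / S ^ 2
        + 2 * A * rb * deriv (φ^[2]) u / S ^ 3 + 2 * deriv P u * sb * (R u + c) / S ^ 3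
        + 2 * A * sb * deriv R u / S ^ 3
        - 6 * A * sb * (R u + c) * deriv (φ^[2]) u / S ^ 4 + 4 * deriv P u * pb / S ^ 3
        - 12 * A * pb * deriv (φ^[2]) u / S ^ 4 - 12 * A * deriv P u * sb / S ^ 4
        + 24 * A ^ 2 * sb * deriv (φ^[2]) u / S ^ 5 := by
  have hs := h.toSys
  have hne := hs.Sne hu hv
  subst hR hS hA
  apply M.du' _ _ _ u hu _ (der_g2 (fun ζ => φ^[2] ζ + (starRingEnd ℂ) (φ^[2] v))
    (fun ζ => P ζ + (starRingEnd ℂ) (P v)) (fun ζ => deriv P ζ / deriv (φ^[2]) ζ) _ _ _ c u rb sb pb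
    ((hs.hasDerivPhi u hu).add_const _) ((h.Pder u hu).add_const _) (h.Rder u hu hu') hne)
  filter_upwards [hs.near u hu hu'] with ζ hζ
  rw [h.a201 ζ v hζ.1 hv hζ.2 hv' _ rfl _ _ rfl rfl, hrb, hsb, hpb, hc]

lemma Dat.rho (h : Dat M T φ P) (u : ℂ) (hu : 0 < u.re) (hu' : deriv (φ^[2]) u ≠ 0) (R : ℂ → ℂ)
    (hR : R = fun ζ => deriv P ζ / deriv (φ^[2]) ζ) : deriv R u = 0 := by
  have hs := h.toSys
  have hne := hs.Sne hu hu
  have h1 := h.PDE u u hu hu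
  rw [h.a210 u u hu hu hu' hu' R hR _ _ rfl rfl, h.a201 u u hu hu hu' hu' R hR _ _ rfl rfl,
    h.a211 u u hu hu hu' hu' R hR _ _ rfl rfl _ _ _ _ rfl rfl rfl rfl,
    h.a10 u u hu hu, h.a01 u u hu hu] at h1
  have e1 : deriv P u = R u * deriv (φ^[2]) u := by
    rw [hR]
    field_simp
  rw [e1] at h1
  simp only [map_mul] at h1
  set S := φ^[2] u + (starRingEnd ℂ) (φ^[2] u) with hS
  set A := P u + (starRingEnd ℂ) (P u) with hA
  set f := deriv (φ^[2]) u with hf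
  set fb := (starRingEnd ℂ) f with hfb
  set q := R u with hq
  set qb := (starRingEnd ℂ) q with hqb
  set r := deriv R u with hr
  set rb := (starRingEnd ℂ) r with hrb
  have h2 : r * rb = 0 := by
    field_simp at h1
    have h3 : S ^ 4 * (r * rb) = 0 := by linear_combination h1
    exact (mul_eq_zero.mp h3).resolve_left (pow_ne_zero 4 hne)
  rcases mul_eq_zero.mp h2 with h3 | h3
  · exact h3
  · rw [hrb, map_eq_zero] at h3
    exact h3

end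

end Pool.Agent.Helper76.NormalHP
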