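import Pool.Agent.Helper76.HP6

set_option autoImplicit false
open Complex Filter Topology
open scoped InnerProductSpace

namespace Pool.Agent.Helper76.NormalHP

variable {H : Type*} [NormedAddCommGroup H] [InnerProductSpace ℂ H] [CompleteSpace H]

section
variable {M : Model H} {T : H →L[ℂ] H} {φ : ℂ → ℂ} {P : ℂ → ℂ}

lemma Sys.exists_deriv_ne (h : Sys M T φ) : ∃ u : ℂ, 0 < u.re ∧ deriv (φ^[2]) u ≠ 0 := by
  by_contra hcon
  push Not at hcon
  have h1 := const_of_deriv_zero (φ^[2]) (fun z hz => by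
    have := h.hasDerivPhi z hz
    rwa [hcon z hz] at this)
  have h2 := h.idl (fun z => z) (fun _ => φ^[2] 1) differentiableOn_id (differentiableOn_const _)
    (fun z hz => h1 z hz 1 (by simp))
  have h3 := h2 1 (by simp)
  have h4 := h2 2 (by simp)
  rw [← h3] at h4
  norm_num at h4

lemma Dat.linear (h : Dat M T φ P) : ∃ α β : ℂ, ∀ z : ℂ, 0 < z.re → P z = α * φ^[2] z + β := by
  have hs := h.toSys
  obtain ⟨u, hu, hu'⟩ := hs.exists_deriv_ne
  obtain ⟨ε, hε, hball⟩ := Metric.eventually_nhds_iff_ball.mp (hs.near u hu hu')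
  set R : ℂ → ℂ := fun ζ => deriv P ζ / deriv (φ^[2]) ζ with hR
  have hRc : ∀ z ∈ Metric.ball u ε, R z = R u := by
    intro z hz
    apply Metric.isOpen_ball.is_const_of_deriv_eq_zero (Metric.isPreconnected_ball)
      (f := R) (s := Metric.ball u ε) _ _ hz (Metric.mem_ball_self hε)
    · intro w hw
      exact (h.Rder w (hball w hw).1 (hball w hw).2).differentiableAt.differentiableWithinAt
    · intro w hw
      exact h.rho w (hball w hw).1 (hball w hw).2 R hR
  set α := R u with hα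
  have hPd : DifferentiableOn ℂ (deriv P) RH := h.Pdiff.deriv isOpen_RH
  have hFd : DifferentiableOn ℂ (deriv (φ^[2])) RH := (hs.iter_diff 2).deriv isOpen_RH
  have h1 : Set.EqOn (deriv P) (fun z => α * deriv (φ^[2]) z) RH := by
    apply (hPd.analyticOnNhd isOpen_RH).eqOn_of_preconnected_of_eventuallyEq
      ((hFd.const_mul α).analyticOnNhd isOpen_RH) preconn_RH hu
    filter_upwards [Metric.ball_mem_nhds u hε] with z hz
    have h2 := hRc z hz
    have h3 := (hball z hz).2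
    simp only [hR] at h2
    rw [div_eq_iff h3] at h2
    exact h2
  refine ⟨α, P 1 - α * φ^[2] 1, ?_⟩
  intro z hz
  have h2 := const_of_deriv_zero (fun z => P z - α * φ^[2] z) (fun z hz => by
    have h3 := (h.Pder z hz).sub ((hs.hasDerivPhi z hz).const_mul α)
    rw [h1 hz, sub_self] at h3
    exact h3) z hz 1 (by simp)
  linear_combination h2

lemma Model.ker10 (M : Model H) (z w : ℂ) (hz : 0 < z.re) (hw : 0 < w.re) :
    ⟪M.dk z, M.k w⟫_ℂ = -1 / (z + (starRingEnd ℂ) w) ^ 2 := by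
  have hne := add_conj_ne hz hw
  apply M.du _ (fun ζ => (ζ + (starRingEnd ℂ) w)⁻¹) _ z hz
  · intro ζ hζ
    rw [M.ker ζ w hζ hw, one_div]
  · exact ((hasDerivAt_id z).add_const _).inv hne

lemma Model.ker01 (M : Model H) (z w : ℂ) (hz : 0 < z.re) (hw : 0 < w.re) :
    ⟪M.k z, M.dk w⟫_ℂ = -1 / (z + (starRingEnd ℂ) w) ^ 2 := by
  rw [← inner_conj_symm, M.ker10 w z hw hz]
  simp only [map_div₀, map_neg, map_one, map_pow, map_add, Complex.conj_conj]
  rw [add_comm]

/-- explicit action of `X` on kernels -/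
lemma Dat.Xk (h : Dat M T φ P) (α β : ℂ) (hP : ∀ z : ℂ, 0 < z.re → P z = α * φ^[2] z + β)
    (v : ℂ) (hv : 0 < v.re) :
    XX T (M.k v) = (-α) • M.k (φ^[2] v)
      + (((starRingEnd ℂ) α - α) * (starRingEnd ℂ) (φ^[2] v) + (β + (starRingEnd ℂ) β))
        • M.dk (φ^[2] v) := by
  have hs := h.toSys
  apply M.ext
  have hv2 := hs.iter_maps 2 v hv
  apply hs.idl (fun z => ⟪M.k z, XX T (M.k v)⟫_ℂ) (fun z => ⟪M.k z, (-α) • M.k (φ^[2] v)
      + (((starRingEnd ℂ) α - α) * (starRingEnd ℂ) (φ^[2] v) + (β + (starRingEnd ℂ) β))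
        • M.dk (φ^[2] v)⟫_ℂ) (M.diffOn _) (M.diffOn _)
  intro u hu
  have hu2 := hs.iter_maps 2 u hu
  have e1 : φ (φ u) = φ^[2] u := rfl
  have x2 := hs.X_trans u hu (M.k v)
  rw [e1] at x2 ⊢
  simp only [inner_add_right, inner_smul_right]
  rw [x2, h.a1 u v hu hv, M.ker _ _ hu2 hv2, M.ker01 _ _ hu2 hv2, hP u hu, hP v hv]
  have hne := hs.Sne hu hv
  simp only [map_add, map_mul]
  have e2 : φ^[2] u = (φ^[2] u + (starRingEnd ℂ) (φ^[2] v)) - (starRingEnd ℂ) (φ^[2] v) := by ring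
  set S := φ^[2] u + (starRingEnd ℂ) (φ^[2] v) with hS
  rw [e2]
  field_simp
  ring

lemma Sys.Lz (h : Sys M T φ) (z w : ℂ) (hz : 0 < z.re) (hw : 0 < w.re) :
    ⟪M.k z, (star T * T) (M.k w)⟫_ℂ = 1 / (φ z + (starRingEnd ℂ) (φ w)) := by
  have := h.L 1 z w hz hw
  rwa [pow_one, Function.iterate_one] at this

lemma Sys.Lz10 (h : Sys M T φ) (z w : ℂ) (hz : 0 < z.re) (hw : 0 < w.re) :
    ⟪M.dk z, (star T * T) (M.k w)⟫_ℂ = -deriv φ z / (φ z + (starRingEnd ℂ) (φ w)) ^ 2 := by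
  have := h.L10 1 z w hz hw
  rwa [pow_one, Function.iterate_one] at this

lemma Sys.Lz01 (h : Sys M T φ) (z w : ℂ) (hz : 0 < z.re) (hw : 0 < w.re) :
    ⟪M.k z, (star T * T) (M.dk w)⟫_ℂ
      = -(starRingEnd ℂ) (deriv φ w) / (φ z + (starRingEnd ℂ) (φ w)) ^ 2 := by
  have := h.L01 1 z w hz hw
  rwa [pow_one, Function.iterate_one] at this

/-- commutation identity -/
lemma Sys.commid (h : Sys M T φ) (u v : ℂ) (hu : 0 < u.re) (hv : 0 < v.re) :
    ⟪M.k (φ^[2] u), (star T * T) (XX T (M.k v))⟫_ℂ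
      = ⟪XX T (M.k u), (star T * T) (M.k (φ^[2] v))⟫_ℂ := by
  have hc1 := h.comm
  obtain ⟨hX1, hX2⟩ := h.X_commute
  have e1 : M.k (φ^[2] u) = ((star T) ^ 2) (M.k u) := (h.adj_pow 2 u hu).symm
  have e2 : M.k (φ^[2] v) = ((star T) ^ 2) (M.k v) := (h.adj_pow 2 v hv).symm
  rw [e1, e2]
  -- left side: `⟪S² k u, N X k v⟫ = ⟪X^* S² k u, N k v⟫ = ⟪A₁ k u, N k v⟫`
  have l1 : ⟪((star T) ^ 2) (M.k u), (star T * T) (XX T (M.k v))⟫_ℂ
      = ⟪fc T f1 (M.k u), (star T * T) (M.k v)⟫_ℂ := by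
    rw [← h.starX_S2, mul_apply_eq_comp (star (XX T)), star_inner_left]
    congr 1
    rw [← mul_apply_eq_comp, ← mul_apply_eq_comp]
    congr 1
    exact ((hX1.mul_right hX2).eq).symm
  have l2 : ⟪XX T (M.k u), (star T * T) (((star T) ^ 2) (M.k v))⟫_ℂ
      = ⟪fc T f1 (M.k u), (star T * T) (M.k v)⟫_ℂ := by
    have e3 : (star T * T) (((star T) ^ 2) (M.k v)) = ((star T) ^ 2) ((star T * T) (M.k v)) := by
      rw [← mul_apply_eq_comp, ← mul_apply_eq_comp]
      congr 1
      have : Commute (star T * T) ((star T) ^ 2) := by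
        apply Commute.pow_right
        exact (Commute.refl (star T)).mul_left hc1.symm
      exact this.eq
    rw [e3, ← star_pow, star_inner_right, ← mul_apply_eq_comp, h.T2X]
  rw [l1, l2]

/-- the first order equation for the symbol -/
lemma Dat.ode (h : Dat M T φ P) (α β : ℂ) (hP : ∀ z : ℂ, 0 < z.re → P z = α * φ^[2] z + β) :
    ∃ κ : ℂ, ∀ z : ℂ, 0 < z.re →
      ((β + (starRingEnd ℂ) β) + (α - (starRingEnd ℂ) α) * z) * deriv φ z
        - (α - (starRingEnd ℂ) α) * φ z = κ := by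
  have hs := h.toSys
  set b2 := β + (starRingEnd ℂ) β with hb2
  have hb2c : (starRingEnd ℂ) b2 = b2 := by
    rw [hb2, map_add, Complex.conj_conj, add_comm]
  set δ := α - (starRingEnd ℂ) α with hδ
  have hδc : (starRingEnd ℂ) δ = -δ := by
    rw [hδ, map_sub, Complex.conj_conj]
    ring
  set E : ℂ → ℂ := fun z => (b2 + δ * z) * deriv φ z - δ * φ z with hE
  -- the commutation identity says `E z = conj (E w)`
  have key : ∀ u v : ℂ, 0 < u.re → 0 < v.re → E (φ^[2] u) = (starRingEnd ℂ) (E (φ^[2] v)) := by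
    intro u v hu hv
    have h1 := hs.commid u v hu hv
    rw [h.Xk α β hP u hu, h.Xk α β hP v hv] at h1
    have hz := hs.iter_maps 2 u hu
    have hw := hs.iter_maps 2 v hv
    set z := φ^[2] u with hz'
    set w := φ^[2] v with hw'
    rw [map_add, map_smul, map_smul] at h1
    simp only [inner_add_left, inner_add_right, inner_smul_left, inner_smul_right] at h1
    rw [hs.Lz z w hz hw, hs.Lz10 z w hz hw, hs.Lz01 z w hz hw] at h1
    have hne := add_conj_ne (hs.maps z hz) (hs.maps w hw)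
    simp only [map_add, map_sub, map_neg, map_mul, Complex.conj_conj] at h1
    simp only [hE, map_sub, map_add, map_mul]
    rw [hb2c, hδc]
    have e1 : φ z = (φ z + (starRingEnd ℂ) (φ w)) - (starRingEnd ℂ) (φ w) := by ring
    set S := φ z + (starRingEnd ℂ) (φ w) with hS
    field_simp at h1
    rw [hδ, hb2]
    linear_combination h1
  have h1re : (0 : ℝ) < (1 : ℂ).re := by simp
  refine ⟨(starRingEnd ℂ) (E (φ^[2] 1)), ?_⟩
  have hEd : DifferentiableOn ℂ E RH := by
    apply DifferentiableOn.sub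
    · apply DifferentiableOn.mul
      · exact (differentiableOn_const _).add (differentiableOn_id.const_mul δ)
      · exact hs.diff.deriv isOpen_RH
    · exact hs.diff.const_mul δ
  exact hs.idl E (fun _ => (starRingEnd ℂ) (E (φ^[2] 1))) hEd (differentiableOn_const _)
    (fun z hz => key z 1 hz h1re)

end

end Pool.Agent.Helper76.NormalHP
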