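import Pool.Agent.Helper76.HP7

set_option autoImplicit false
open Complex Filter Topology
open scoped InnerProductSpace

namespace Pool.Agent.Helper76.NormalHP

variable {H : Type*} [NormedAddCommGroup H] [InnerProductSpace ℂ H] [CompleteSpace H]

section
variable {M : Model H} {T : H →L[ℂ] H} {φ : ℂ → ℂ} {P : ℂ → ℂ}

lemma Sys.phi_der (h : Sys M T φ) (z : ℂ) (hz : 0 < z.re) : HasDerivAt φ (deriv φ z) z :=
  (h.diff.differentiableAt (isOpen_RH.mem_nhds hz)).hasDerivAt

lemma Sys.injN (h : Sys M T φ) (x : H) (hx : (star T * T) x = 0) : x = 0 := by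
  have h1 : T x = 0 := by
    have h2 : ⟪T x, T x⟫_ℂ = 0 := by
      rw [← star_inner_right, ← mul_apply_eq_comp, hx, inner_zero_right]
    exact inner_self_eq_zero.mp h2
  apply M.total
  apply h.idl1 (fun z => ⟪M.k z, x⟫_ℂ) (fun _ => 0) (M.diffOn x) (differentiableOn_const _)
  intro z hz
  rw [← h.transf z hz, h1, inner_zero_right]

/-- the case of vanishing parameters -/
lemma Dat.case0 (h : Dat M T φ P) (α : ℂ) (hα : α - (starRingEnd ℂ) α = 0)
    (hX : ∀ v : ℂ, 0 < v.re → XX T (M.k v) = (-α) • M.k (φ^[2] v)) :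
    ∃ A B : ℂ, ∀ z : ℂ, 0 < z.re → φ z = A * z + B := by
  have hs := h.toSys
  have hT := hs.normal
  -- `X = -α S²`
  have h1 : XX T = (-α) • (star T) ^ 2 := by
    have h2 : star (XX T) = star ((-α) • (star T) ^ 2) := by
      ext x
      apply M.ext
      intro v hv
      rw [star_inner_right, star_inner_right, hX v hv, smul_apply, hs.adj_pow 2 v hv]
    exact star_injective h2
  -- `A₁ = -α N²`
  have h3 : fc T f1 = (-α) • (star T * T) ^ 2 := by
    rw [← hs.T2X, h1, hs.powN, mul_smul_comm]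
  have h4 : cfc (fun z : ℂ => f1 (‖z‖ ^ 2)) T = cfc (fun z : ℂ => (-α) * f0 (‖z‖ ^ 2)) T := by
    have h5 := fc_const_mul T (-α) f0 cont_f0
    rw [hs.A0, ← h3] at h5
    exact h5.symm
  have h5 : (spectrum ℂ T).EqOn (fun z : ℂ => f1 (‖z‖ ^ 2)) (fun z : ℂ => (-α) * f0 (‖z‖ ^ 2)) := by
    apply (cfc_eq_cfc_iff_eqOn (R := ℂ) (a := T) hT (fc_cont cont_f1 _) _).mp h4
    exact continuousOn_const.mul (fc_cont cont_f0 _)
  have hαr : α = (α.re : ℂ) := by
    have h6 : (starRingEnd ℂ) α = α := by linear_combination (-1 : ℂ) * hα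
    exact (Complex.conj_eq_iff_re.mp h6).symm
  set a := α.re with ha
  have h6 : ∀ z ∈ spectrum ℂ T, ((‖z‖ ^ 2 : ℝ) : ℂ) ^ 2
      = ((Real.exp (-a) : ℝ) : ℂ) * ((‖z‖ ^ 2 : ℝ) : ℂ) := by
    intro z hz
    have h7 := h5 hz
    simp only [f1, f0] at h7
    rw [hαr] at h7
    have h8 : (‖z‖ ^ 2) * ((‖z‖ ^ 2) * Real.log (‖z‖ ^ 2)) = (-a) * (‖z‖ ^ 2) ^ 2 := by
      exact_mod_cast h7
    have h9 : (‖z‖ ^ 2) ^ 2 = Real.exp (-a) * (‖z‖ ^ 2) := by
      rcases eq_or_ne (‖z‖ ^ 2) 0 with h0 | h0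
      · rw [h0]; simp
      · have hpos : 0 < ‖z‖ ^ 2 := by positivity
        have h10 : Real.log (‖z‖ ^ 2) = -a := by
          have h11 : (‖z‖ ^ 2) ^ 2 * (Real.log (‖z‖ ^ 2) - (-a)) = 0 := by linear_combination h8
          rcases mul_eq_zero.mp h11 with h12 | h12
          · exact absurd h12 (pow_ne_zero 2 h0)
          · linarith
        rw [← h10, Real.exp_log hpos]
        ring
    exact_mod_cast h9
  have h7 : fc T (fun t => (t : ℂ) ^ 2) = fc T (fun t => ((Real.exp (-a) : ℝ) : ℂ) * (t : ℂ)) := by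
    unfold fc
    apply cfc_congr
    intro z hz
    exact h6 z hz
  rw [fc_pow T hT, fc_const_mul T _ _ (by fun_prop), fc_id T hT] at h7
  have h8 : ∀ x : H, (star T * T) x = ((Real.exp (-a) : ℝ) : ℂ) • x := by
    intro x
    have h9 : (star T * T) ((star T * T) x - ((Real.exp (-a) : ℝ) : ℂ) • x) = 0 := by
      rw [map_sub, map_smul, ← mul_apply_eq_comp, ← pow_two, h7, smul_apply, sub_self]
    exact sub_eq_zero.mp (hs.injN _ h9)
  have h1re : (0 : ℝ) < (1 : ℂ).re := by simp
  refine ⟨((Real.exp a : ℝ) : ℂ), ((Real.exp a : ℝ) : ℂ) - (starRingEnd ℂ) (φ 1), ?_⟩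
  intro z hz
  have h9 := hs.Lz z 1 hz h1re
  rw [h8, inner_smul_right, M.ker z 1 hz h1re] at h9
  have hne1 := add_conj_ne hz h1re
  have hne2 := add_conj_ne (hs.maps z hz) (hs.maps 1 h1re)
  have h10 : ((Real.exp a : ℝ) : ℂ) * ((Real.exp (-a) : ℝ) : ℂ) = 1 := by
    rw [← Complex.ofReal_mul, ← Real.exp_add]
    simp
  rw [map_one] at h9 hne1
  field_simp at h9
  linear_combination h9 * ((Real.exp a : ℝ) : ℂ) - h10 * (φ z + (starRingEnd ℂ) (φ 1))

theorem affine_of_normal (h : Sys M T φ) :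
    ∃ A B : ℂ, A ≠ 0 ∧ ∀ z : ℂ, 0 < z.re → φ z = A * z + B := by
  have h1re : (0 : ℝ) < (1 : ℂ).re := by simp
  obtain ⟨P, hPd, hPa⟩ := h.exP
  have hD : Dat M T φ P := { toSys := h, Pdiff := hPd, a1 := hPa }
  obtain ⟨α, β, hP⟩ := hD.linear
  obtain ⟨κ, hκ⟩ := hD.ode α β hP
  have main : ∃ A B : ℂ, ∀ z : ℂ, 0 < z.re → φ z = A * z + B := by
    by_cases hδ : α - (starRingEnd ℂ) α = 0
    · by_cases hb : β + (starRingEnd ℂ) β = 0
      · apply hD.case0 α hδ
        intro v hv
        rw [hD.Xk α β hP v hv, hb]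
        have : (starRingEnd ℂ) α - α = 0 := by linear_combination (-1 : ℂ) * hδ
        rw [this]
        simp
      · set b2 := β + (starRingEnd ℂ) β with hb2
        rw [hδ] at hκ
        refine ⟨κ / b2, φ 1 - κ / b2, ?_⟩
        intro z hz
        have h2 := const_of_deriv_zero (fun z => φ z - (κ / b2) * z) (fun z hz => by
          have h3 := (h.phi_der z hz).sub ((hasDerivAt_id z).const_mul (κ / b2))
          have h4 := hκ z hz
          have h5 : deriv φ z - κ / b2 * 1 = 0 := by
            rw [← h4]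
            field_simp
            ring
          rw [h5] at h3
          exact h3) z hz 1 h1re
        linear_combination h2
    · set b2 := β + (starRingEnd ℂ) β with hb2
      set δ := α - (starRingEnd ℂ) α with hδ'
      have hb2re : b2.im = 0 := by
        rw [hb2, Complex.add_im, Complex.conj_im]
        ring
      have hδre : δ.re = 0 := by
        rw [hδ', Complex.sub_re, Complex.conj_re]
        ring
      have hδim : δ.im ≠ 0 := by
        intro h0
        exact hδ (Complex.ext hδre h0)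
      have hne : ∀ z : ℂ, 0 < z.re → b2 + δ * z ≠ 0 := by
        intro z hz h0
        have h2 := congrArg Complex.im h0
        rw [Complex.add_im, Complex.mul_im, hb2re, hδre, Complex.zero_im] at h2
        have h3 : δ.im * z.re = 0 := by linarith
        rcases mul_eq_zero.mp h3 with h4 | h4
        · exact hδim h4
        · exact hz.ne' h4
      have h2 := const_of_deriv_zero (fun z => (φ z + κ / δ) / (b2 + δ * z)) (fun z hz => by
          have h3 := ((h.phi_der z hz).add_const (κ / δ)).div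
            (((hasDerivAt_id z).const_mul δ).const_add b2) (hne z hz)
          have h4 := hκ z hz
          refine h3.congr_deriv ?_
          rw [div_eq_zero_iff]
          left
          simp only [id]
          rw [← h4]
          field_simp
          ring)
      set c := (φ 1 + κ / δ) / (b2 + δ * 1) with hc
      refine ⟨c * δ, c * b2 - κ / δ, ?_⟩
      intro z hz
      have h3 : (φ z + κ / δ) / (b2 + δ * z) = c := h2 z hz 1 h1re
      rw [div_eq_iff (hne z hz)] at h3
      linear_combination h3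
  obtain ⟨A, B, hAB⟩ := main
  refine ⟨A, B, ?_, hAB⟩
  rintro rfl
  apply h.nonconst
  refine ⟨B, ?_⟩
  intro z hz
  rw [hAB z hz]
  ring

end

end Pool.Agent.Helper76.NormalHP
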