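import Pool.Agent.Helper76.HP8
import Pool.Agent.Helper76.HPlanch

set_option autoImplicit false
open Complex Filter Topology MeasureTheory FourierTransform
open scoped InnerProductSpace ENNReal

namespace Pool.Agent.Helper76.NormalHP

/-- Lebesgue measure on the half-line -/
noncomputable abbrev mu0 : Measure ℝ := volume.restrict (Set.Ioi (0 : ℝ))

/-- the `L²` model -/
abbrev L2H : Type := Lp ℂ 2 mu0

/-- kernel functions -/
noncomputable def kf (w : ℂ) (t : ℝ) : ℂ := Complex.exp (-(starRingEnd ℂ) w * t)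
/-- derivative kernel functions -/
noncomputable def dkf (w : ℂ) (t : ℝ) : ℂ := -t * Complex.exp (-(starRingEnd ℂ) w * t)

lemma norm_kf (w : ℂ) (t : ℝ) : ‖kf w t‖ = Real.exp (-w.re * t) := by
  rw [kf, Complex.norm_exp]
  simp

lemma norm_dkf (w : ℂ) (t : ℝ) : ‖dkf w t‖ = |t| * Real.exp (-w.re * t) := by
  rw [dkf, norm_mul, norm_neg, Complex.norm_real, Real.norm_eq_abs, Complex.norm_exp]
  simp

lemma cont_kf (w : ℂ) : Continuous (kf w) := by unfold kf; fun_prop
lemma cont_dkf (w : ℂ) : Continuous (dkf w) := by unfold dkf; fun_prop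

lemma memLp_exp (a : ℝ) (ha : 0 < a) : MemLp (fun t : ℝ => Real.exp (-a * t)) 2 mu0 := by
  rw [memLp_two_iff_integrable_sq (by fun_prop)]
  have h1 := integrableOn_exp_mul_Ioi (a := -(2 * a)) (by linarith) 0
  refine h1.congr (ae_of_all _ ?_)
  intro t
  simp only
  rw [← Real.exp_nat_mul]
  congr 1
  push_cast
  ring

lemma memLp_kf (w : ℂ) (hw : 0 < w.re) : MemLp (kf w) 2 mu0 := by
  apply (memLp_exp w.re hw).of_le (cont_kf w).aestronglyMeasurable
  apply ae_of_all
  intro t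
  rw [norm_kf, Real.norm_eq_abs, abs_of_pos (Real.exp_pos _)]

lemma t_exp_bound (a t : ℝ) (ha : 0 < a) (ht : 0 ≤ t) :
    t * Real.exp (-a * t) ≤ (2 / a) * Real.exp (-(a / 2) * t) := by
  have h1 : a / 2 * t ≤ Real.exp (a / 2 * t) := by
    have := Real.add_one_le_exp (a / 2 * t)
    linarith
  have h2 : Real.exp (-a * t) = Real.exp (-(a / 2) * t) * Real.exp (-(a / 2) * t) := by
    rw [← Real.exp_add]
    congr 1
    ring
  have h3 : Real.exp (a / 2 * t) * Real.exp (-(a / 2) * t) = 1 := by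
    rw [← Real.exp_add]
    simp
  have h4 : 0 < Real.exp (-(a / 2) * t) := Real.exp_pos _
  have h5 : t ≤ (2 / a) * Real.exp (a / 2 * t) := by
    rw [div_mul_eq_mul_div, le_div_iff₀ ha]
    linarith
  calc t * Real.exp (-a * t)
      = t * (Real.exp (-(a / 2) * t) * Real.exp (-(a / 2) * t)) := by rw [h2]
    _ ≤ ((2 / a) * Real.exp (a / 2 * t)) * (Real.exp (-(a / 2) * t) * Real.exp (-(a / 2) * t)) := by
        apply mul_le_mul_of_nonneg_right h5 (by positivity)
    _ = (2 / a) * (Real.exp (a / 2 * t) * Real.exp (-(a / 2) * t)) * Real.exp (-(a / 2) * t) := by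
        ring
    _ = (2 / a) * Real.exp (-(a / 2) * t) := by rw [h3]; ring

lemma memLp_dkf (w : ℂ) (hw : 0 < w.re) : MemLp (dkf w) 2 mu0 := by
  apply ((memLp_exp (w.re / 2) (by linarith)).const_mul (2 / w.re)).of_le
    (cont_dkf w).aestronglyMeasurable
  filter_upwards [ae_restrict_mem measurableSet_Ioi] with t ht
  have ht' : (0 : ℝ) < t := ht
  rw [norm_dkf, abs_of_pos ht', Real.norm_eq_abs, abs_of_pos (by positivity)]
  exact t_exp_bound w.re t hw ht'.le

/-- kernels in the model -/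
noncomputable def kk (w : ℂ) : L2H := if h : 0 < w.re then (memLp_kf w h).toLp _ else 0
/-- derivative kernels in the model -/
noncomputable def dkk (w : ℂ) : L2H := if h : 0 < w.re then (memLp_dkf w h).toLp _ else 0

lemma kk_ae (w : ℂ) (hw : 0 < w.re) : (kk w : ℝ → ℂ) =ᵐ[mu0] kf w := by
  unfold kk
  rw [dif_pos hw]
  exact MemLp.coeFn_toLp _

lemma dkk_ae (w : ℂ) (hw : 0 < w.re) : (dkk w : ℝ → ℂ) =ᵐ[mu0] dkf w := by
  unfold dkk
  rw [dif_pos hw]
  exact MemLp.coeFn_toLp _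

lemma conj_kf (w : ℂ) (t : ℝ) : (starRingEnd ℂ) (kf w t) = Complex.exp (-w * t) := by
  unfold kf
  rw [← Complex.exp_conj]
  simp

lemma conj_dkf (w : ℂ) (t : ℝ) : (starRingEnd ℂ) (dkf w t) = -t * Complex.exp (-w * t) := by
  unfold dkf
  rw [map_mul, ← Complex.exp_conj]
  simp

lemma inner_kk (z : ℂ) (hz : 0 < z.re) (x : L2H) :
    ⟪kk z, x⟫_ℂ = ∫ t, Complex.exp (-z * t) * x t ∂mu0 := by
  rw [L2.inner_def]
  apply integral_congr_ae
  filter_upwards [kk_ae z hz] with t ht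
  rw [ht, RCLike.inner_apply, mul_comm]
  congr 1
  exact conj_kf z t

lemma inner_dkk (z : ℂ) (hz : 0 < z.re) (x : L2H) :
    ⟪dkk z, x⟫_ℂ = ∫ t, -t * Complex.exp (-z * t) * x t ∂mu0 := by
  rw [L2.inner_def]
  apply integral_congr_ae
  filter_upwards [dkk_ae z hz] with t ht
  rw [ht, RCLike.inner_apply, mul_comm]
  congr 1
  exact conj_dkf z t

lemma integrable_exp_mul (z : ℂ) (hz : 0 < z.re) (x : L2H) :
    Integrable (fun t : ℝ => Complex.exp (-z * t) * x t) mu0 := by
  have h1 : MemLp (fun t : ℝ => Complex.exp (-z * t)) 2 mu0 := by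
    apply (memLp_exp z.re hz).of_le (by fun_prop)
    apply ae_of_all
    intro t
    rw [Complex.norm_exp, Real.norm_eq_abs, abs_of_pos (Real.exp_pos _)]
    simp
  exact h1.integrable_mul (Lp.memLp x)

lemma ker_kk (z w : ℂ) (hz : 0 < z.re) (hw : 0 < w.re) :
    ⟪kk z, kk w⟫_ℂ = 1 / (z + (starRingEnd ℂ) w) := by
  rw [inner_kk z hz]
  have h1 : ∫ t, Complex.exp (-z * t) * (kk w : ℝ → ℂ) t ∂mu0
      = ∫ t in Set.Ioi (0 : ℝ), Complex.exp (-(z + (starRingEnd ℂ) w) * t) := by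
    apply integral_congr_ae
    filter_upwards [kk_ae w hw] with t ht
    rw [ht, kf, ← Complex.exp_add]
    congr 1
    ring
  rw [h1, integral_exp_mul_complex_Ioi]
  · simp only [Complex.ofReal_zero, mul_zero, Complex.exp_zero]
    rw [neg_div_neg_eq]
  · simp
    linarith

lemma der_kk (z : ℂ) (x : L2H) (hz : 0 < z.re) :
    HasDerivAt (fun ζ => ⟪kk ζ, x⟫_ℂ) ⟪dkk z, x⟫_ℂ z := by
  have hs : {ζ : ℂ | z.re / 2 < ζ.re} ∈ 𝓝 z := by
    apply (isOpen_lt continuous_const Complex.continuous_re).mem_nhds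
    simp only [Set.mem_ofPred_eq]
    linarith
  have hbound : Integrable (fun t : ℝ => ((2 / (z.re / 2)) * Real.exp (-(z.re / 2 / 2) * t)) * ‖x t‖) mu0 := by
    exact ((memLp_exp (z.re / 2 / 2) (by linarith)).const_mul (2 / (z.re / 2))).integrable_mul
      (Lp.memLp x).norm
  have h1 := hasDerivAt_integral_of_dominated_loc_of_deriv_le (μ := mu0)
    (F := fun ζ t => Complex.exp (-ζ * (t : ℝ)) * x t)
    (F' := fun ζ t => -(t : ℝ) * Complex.exp (-ζ * (t : ℝ)) * x t)
    (x₀ := z) (bound := fun t : ℝ => ((2 / (z.re / 2)) * Real.exp (-(z.re / 2 / 2) * t)) * ‖x t‖)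
    hs ?_ (integrable_exp_mul z hz x) ?_ ?_ hbound ?_
  · have h2 : (fun ζ => ⟪kk ζ, x⟫_ℂ) =ᶠ[𝓝 z] fun ζ => ∫ t, Complex.exp (-ζ * t) * x t ∂mu0 := by
      filter_upwards [isOpen_RH.mem_nhds hz] with ζ hζ
      exact inner_kk ζ hζ x
    rw [inner_dkk z hz]
    exact h1.2.congr_of_eventuallyEq h2
  · apply Eventually.of_forall
    intro ζ
    apply AEStronglyMeasurable.mul (by fun_prop) (Lp.aestronglyMeasurable x)
  · apply AEStronglyMeasurable.mul (by fun_prop) (Lp.aestronglyMeasurable x)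
  · filter_upwards [ae_restrict_mem measurableSet_Ioi] with t ht ζ hζ
    have ht' : (0 : ℝ) < t := ht
    have hζ' : z.re / 2 < ζ.re := hζ
    rw [norm_mul, norm_mul, norm_neg, Complex.norm_real, Real.norm_eq_abs, abs_of_pos ht',
      Complex.norm_exp]
    apply mul_le_mul_of_nonneg_right _ (norm_nonneg _)
    refine le_trans ?_ (t_exp_bound (z.re / 2) t (by linarith) ht'.le)
    apply mul_le_mul_of_nonneg_left _ ht'.le
    apply Real.exp_le_exp.mpr
    simp
    nlinarith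
  · apply ae_of_all
    intro t ζ _
    have h3 : HasDerivAt (fun ζ : ℂ => Complex.exp (-ζ * t)) (Complex.exp (-ζ * t) * (-1 * t)) ζ :=
      ((hasDerivAt_neg ζ).mul_const (t : ℂ)).cexp
    have h4 := h3.mul_const (x t)
    refine h4.congr_deriv ?_
    ring

end Pool.Agent.Helper76.NormalHP
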