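import Pool.Agent.Helper76.HP1

set_option autoImplicit false
open Complex Filter Topology
open scoped InnerProductSpace

namespace Pool.Agent.Helper76.NormalHP

variable {H : Type*} [NormedAddCommGroup H] [InnerProductSpace ℂ H] [CompleteSpace H]

/-- multilinear estimate -/
lemma multi (T : H →L[ℂ] H) (hT : IsStarNormal T) {ι : Type} (s : Finset ι) : ∀ (m : ℕ)
    (c : ι → ℂ) (f : ι → Fin m → ℝ → ℂ) (_ : ∀ i k, Continuous (f i k)) (ε : ℝ) (_ : 0 ≤ ε)
    (_ : ∀ t : Fin m → ℝ, (∀ k, t k ∈ Set.Icc (0 : ℝ) (‖T‖ ^ 2)) →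
      ‖∑ i ∈ s, c i * ∏ k, f i k (t k)‖ ≤ ε) (x y : Fin m → H),
    ‖∑ i ∈ s, c i * ∏ k, ⟪y k, fc T (f i k) (x k)⟫_ℂ‖ ≤ ε * ∏ k, (‖x k‖ * ‖y k‖) := by
  intro m
  induction m with
  | zero =>
    intro c f hf ε hε hb x y
    have := hb (fun k => k.elim0) (fun k => k.elim0)
    simpa using this
  | succ m ih =>
    intro c f hf ε hε hb x y
    have key := ih (fun i => c i * ⟪y 0, fc T (f i 0) (x 0)⟫_ℂ) (fun i k => f i k.succ)
      (fun i k => hf i k.succ) (ε * (‖x 0‖ * ‖y 0‖)) (by positivity) ?_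
      (fun k => x k.succ) (fun k => y k.succ)
    · have e1 : ∑ i ∈ s, c i * ∏ k, ⟪y k, fc T (f i k) (x k)⟫_ℂ
          = ∑ i ∈ s, (c i * ⟪y 0, fc T (f i 0) (x 0)⟫_ℂ) *
            ∏ k : Fin m, ⟪y k.succ, fc T (f i k.succ) (x k.succ)⟫_ℂ := by
        apply Finset.sum_congr rfl
        intro i _
        rw [Fin.prod_univ_succ]
        ring
      rw [e1, Fin.prod_univ_succ]
      calc _ ≤ _ := key
        _ = _ := by ring
    · intro t ht
      have e2 : ∑ i ∈ s, (c i * ⟪y 0, fc T (f i 0) (x 0)⟫_ℂ) * ∏ k : Fin m, f i k.succ (t k)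
          = ⟪y 0, fc T (fun r => ∑ i ∈ s, (c i * ∏ k : Fin m, f i k.succ (t k)) * f i 0 r) (x 0)⟫_ℂ := by
        rw [fc_sum T _ _ _ (fun i => hf i 0)]
        simp only [sum_apply, smul_apply, inner_sum, inner_smul_right]
        apply Finset.sum_congr rfl
        intro i _
        ring
      rw [e2]
      have e3 : ‖fc T (fun r => ∑ i ∈ s, (c i * ∏ k : Fin m, f i k.succ (t k)) * f i 0 r)‖ ≤ ε := by
        apply fc_norm_le T hT _ _ hε
        intro r hr
        have h1 := hb (Fin.cons r t) (by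
          intro k
          refine Fin.cases ?_ ?_ k
          · simpa using hr
          · intro j
            simpa using ht j)
        have e4 : ∑ i ∈ s, c i * ∏ k, f i k ((Fin.cons r t : Fin (m + 1) → ℝ) k)
            = ∑ i ∈ s, (c i * ∏ k : Fin m, f i k.succ (t k)) * f i 0 r := by
          apply Finset.sum_congr rfl
          intro i _
          rw [Fin.prod_univ_succ]
          simp only [Fin.cons_zero, Fin.cons_succ]
          ring
        rw [← e4]
        exact h1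
      calc _ ≤ ‖y 0‖ * ‖fc T (fun r => ∑ i ∈ s, (c i * ∏ k : Fin m, f i k.succ (t k)) * f i 0 r) (x 0)‖ :=
            norm_inner_le_norm _ _
        _ ≤ ‖y 0‖ * (ε * ‖x 0‖) := by
            apply mul_le_mul_of_nonneg_left _ (norm_nonneg _)
            exact (ContinuousLinearMap.le_opNorm _ _).trans
              (mul_le_mul_of_nonneg_right e3 (norm_nonneg _))
        _ = ε * (‖x 0‖ * ‖y 0‖) := by ring

/-- the functions `t (log t)^k / k!` -/
noncomputable def er (k : ℕ) (t : ℝ) : ℝ := |t| * (Real.log t) ^ k / (k.factorial : ℝ)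

lemma cont_er (k : ℕ) : Continuous (er k) := by
  unfold er
  apply Continuous.div_const
  rcases Nat.eq_zero_or_pos k with rfl | hk
  · simpa using continuous_abs
  · have hk' : (k : ℝ) ≠ 0 := by positivity
    have h1 : (fun t : ℝ => |t| * (Real.log t) ^ k)
        = fun t : ℝ => ((k : ℝ) * ((|t| ^ ((k : ℝ)⁻¹)) * Real.log (|t| ^ ((k : ℝ)⁻¹)))) ^ k := by
      ext t
      rcases eq_or_ne t 0 with rfl | ht
      · simp [hk.ne', hk']
      · have ht' : 0 < |t| := abs_pos.mpr ht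
        rw [Real.log_rpow ht', Real.log_abs]
        have h2 : (|t| ^ ((k : ℝ)⁻¹)) ^ k = |t| := by
          rw [← Real.rpow_natCast, ← Real.rpow_mul ht'.le, inv_mul_cancel₀ hk', Real.rpow_one]
        have h3 : (k : ℝ) * ((|t| ^ ((k : ℝ)⁻¹)) * ((k : ℝ)⁻¹ * Real.log t))
            = (|t| ^ ((k : ℝ)⁻¹)) * Real.log t := by
          field_simp
        rw [h3, mul_pow, h2]
    rw [h1]
    apply Continuous.pow
    apply Continuous.mul continuous_const
    have h4 : Continuous (fun t : ℝ => |t| ^ ((k : ℝ)⁻¹)) :=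
      continuous_abs.rpow_const (fun _ => Or.inr (by positivity))
    exact Real.continuous_mul_log.comp h4

/-- generating series of the functions `er k` -/
noncomputable def ES (t : ℝ) : PowerSeries ℝ := PowerSeries.mk (fun k => er k t)

lemma ES_zero : ES 0 = 0 := by
  ext k
  simp [ES, er]

lemma ES_eq (t : ℝ) (ht : 0 ≤ t) :
    ES t = PowerSeries.C t * PowerSeries.rescale (Real.log t) (PowerSeries.exp ℝ) := by
  ext k
  simp only [ES, PowerSeries.coeff_mk, PowerSeries.coeff_C_mul, PowerSeries.coeff_rescale,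
    PowerSeries.coeff_exp, er, abs_of_nonneg ht]
  simp
  ring

lemma ES_mul (t r : ℝ) (ht : 0 ≤ t) (hr : 0 ≤ r) : ES (t * r) = ES t * ES r := by
  rcases ht.eq_or_lt with rfl | ht'
  · rw [zero_mul, ES_zero, zero_mul]
  rcases hr.eq_or_lt with rfl | hr'
  · rw [mul_zero, ES_zero, mul_zero]
  rw [ES_eq _ (by positivity), ES_eq _ ht, ES_eq _ hr, Real.log_mul ht'.ne' hr'.ne',
    ← PowerSeries.exp_mul_exp_eq_exp_add, map_mul]
  ring

lemma ES_one : ES 1 = 1 := by
  ext k
  simp only [ES, PowerSeries.coeff_mk, er, Real.log_one, PowerSeries.coeff_one]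
  rcases Nat.eq_zero_or_pos k with rfl | hk
  · simp
  · simp [hk.ne']

lemma ES_prod {ι : Type} (s : Finset ι) (t : ι → ℝ) (ht : ∀ i, 0 ≤ t i) :
    ES (∏ i ∈ s, t i) = ∏ i ∈ s, ES (t i) := by
  classical
  induction s using Finset.induction_on with
  | empty => simp [ES_one]
  | insert a s ha ih =>
    rw [Finset.prod_insert ha, Finset.prod_insert ha, ES_mul _ _ (ht a)
      (Finset.prod_nonneg (fun i _ => ht i)), ih]

/-- complex version -/
noncomputable def ec (k : ℕ) (t : ℝ) : ℂ := ((er k t : ℝ) : ℂ)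

lemma cont_ec (k : ℕ) : Continuous (ec k) := Complex.continuous_ofReal.comp (cont_er k)

/-- generating series of matrix coefficients of `N (log N)^k / k!` -/
noncomputable def JS (T : H →L[ℂ] H) (y x : H) : PowerSeries ℂ :=
  PowerSeries.mk (fun k => ⟪y, fc T (ec k) x⟫_ℂ)

/-- transfer of polynomial relations to the generating series -/
theorem transferPS (T : H →L[ℂ] H) (hT : IsStarNormal T) (m : ℕ) {κ : Type} (S : Finset κ)
    (c : κ → ℂ) (x y : κ → Fin m → H)
    (hrel : ∀ n : ℕ, ∑ a ∈ S, c a * ∏ k, ⟪y a k, ((star T * T) ^ n) (x a k)⟫_ℂ = 0) :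
    ∑ a ∈ S, PowerSeries.C (c a) * ∏ k, JS T (y a k) (x a k) = 0 := by
  classical
  ext d
  rw [map_sum, map_zero]
  have e1 : ∀ a ∈ S, PowerSeries.coeff d (PowerSeries.C (c a) * ∏ k, JS T (y a k) (x a k))
      = c a * ∑ l ∈ Finset.finsuppAntidiag (Finset.univ : Finset (Fin m)) d,
        ∏ k, ⟪y a k, fc T (ec (l k)) (x a k)⟫_ℂ := by
    intro a _
    rw [PowerSeries.coeff_C_mul, PowerSeries.coeff_prod]
    simp only [JS, PowerSeries.coeff_mk]
  rw [Finset.sum_congr rfl e1]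
  set AD := Finset.finsuppAntidiag (Finset.univ : Finset (Fin m)) d with hAD
  set B : κ → ℝ := fun a => ∏ k, (‖x a k‖ * ‖y a k‖) with hB
  set C : ℝ := ∑ a ∈ S, ‖c a‖ * B a with hC
  have hB0 : ∀ a, 0 ≤ B a := fun a => Finset.prod_nonneg (fun k _ => by positivity)
  have hC0 : 0 ≤ C := Finset.sum_nonneg (fun a _ => mul_nonneg (norm_nonneg _) (hB0 a))
  have key : ∀ ε : ℝ, 0 < ε → ‖∑ a ∈ S, c a * ∑ l ∈ AD, ∏ k, ⟪y a k, fc T (ec (l k)) (x a k)⟫_ℂ‖
      ≤ ε * C := by
    intro ε hε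
    obtain ⟨q, hq⟩ := exists_polynomial_near_of_continuousOn 0 ((‖T‖ ^ 2) ^ m) (er d)
      (cont_er d).continuousOn ε hε
    have hcube : ∀ t : Fin m → ℝ, (∀ k, t k ∈ Set.Icc (0 : ℝ) (‖T‖ ^ 2)) →
        ‖((q.eval (∏ k, t k) : ℝ) : ℂ) - ∑ l ∈ AD, ∏ k, ec (l k) (t k)‖ ≤ ε := by
      intro t ht
      have h1 : ∑ l ∈ AD, ∏ k, ec (l k) (t k) = ((er d (∏ k, t k) : ℝ) : ℂ) := by
        have h2 := ES_prod (Finset.univ : Finset (Fin m)) t (fun k => (ht k).1)
        have h3 := congrArg (PowerSeries.coeff d) h2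
        rw [PowerSeries.coeff_prod] at h3
        simp only [ES, PowerSeries.coeff_mk] at h3
        rw [h3]
        push_cast
        rfl
      rw [h1, ← Complex.ofReal_sub, Complex.norm_real]
      apply (hq _ ⟨Finset.prod_nonneg (fun k _ => (ht k).1), _⟩).le
      calc ∏ k, t k ≤ ∏ _k : Fin m, (‖T‖ ^ 2) :=
            Finset.prod_le_prod (fun k _ => (ht k).1) (fun k _ => (ht k).2)
        _ = (‖T‖ ^ 2) ^ m := by simp
    -- the combined index set
    have hmono : ∀ a, ‖(∑ j ∈ q.support, (q.coeff j : ℂ) * ∏ k, ⟪y a k, ((star T * T) ^ j) (x a k)⟫_ℂ)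
        - ∑ l ∈ AD, ∏ k, ⟪y a k, fc T (ec (l k)) (x a k)⟫_ℂ‖ ≤ ε * B a := by
      intro a
      have h1 := multi T hT (q.support.disjSum AD) m
        (Sum.elim (fun j => (q.coeff j : ℂ)) (fun _ => -1))
        (Sum.elim (fun j _ t => (t : ℂ) ^ j) (fun l k t => ec (l k) t)) ?_ ε hε.le ?_ (x a) (y a)
      · rw [Finset.sum_disjSum] at h1
        simp only [Sum.elim_inl, Sum.elim_inr, fc_pow T hT] at h1
        have e2 : ∑ x_1 ∈ q.support, (q.coeff x_1 : ℂ) * ∏ k, ⟪y a k, ((star T * T) ^ x_1) (x a k)⟫_ℂ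
            + ∑ l ∈ AD, -1 * ∏ k, ⟪y a k, fc T (fun t => ec (l k) t) (x a k)⟫_ℂ
            = (∑ j ∈ q.support, (q.coeff j : ℂ) * ∏ k, ⟪y a k, ((star T * T) ^ j) (x a k)⟫_ℂ)
        - ∑ l ∈ AD, ∏ k, ⟪y a k, fc T (ec (l k)) (x a k)⟫_ℂ := by
          rw [sub_eq_add_neg, ← Finset.sum_neg_distrib]
          congr 1
          apply Finset.sum_congr rfl
          intro l _
          ring
        rw [e2] at h1
        exact h1
      · rintro (j | l) k
        · simp only [Sum.elim_inl]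
          fun_prop
        · simp only [Sum.elim_inr]
          exact cont_ec _
      · intro t ht
        rw [Finset.sum_disjSum]
        simp only [Sum.elim_inl, Sum.elim_inr]
        have e3 : ∑ j ∈ q.support, (q.coeff j : ℂ) * ∏ k, ((t k : ℝ) : ℂ) ^ j
            = ((q.eval (∏ k, t k) : ℝ) : ℂ) := by
          rw [Polynomial.eval_eq_sum, Polynomial.sum]
          push_cast
          apply Finset.sum_congr rfl
          intro j _
          rw [Finset.prod_pow]
        have e4 : ∑ l ∈ AD, -1 * ∏ k, ec (l k) (t k) = -∑ l ∈ AD, ∏ k, ec (l k) (t k) := by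
          rw [← Finset.sum_neg_distrib]
          apply Finset.sum_congr rfl
          intro l _
          ring
        rw [e3, e4, ← sub_eq_add_neg]
        exact hcube t ht
    have hzero : ∑ a ∈ S, c a * (∑ j ∈ q.support, (q.coeff j : ℂ) *
        ∏ k, ⟪y a k, ((star T * T) ^ j) (x a k)⟫_ℂ) = 0 := by
      simp_rw [Finset.mul_sum]
      rw [Finset.sum_comm]
      apply Finset.sum_eq_zero
      intro j _
      have := hrel j
      calc ∑ a ∈ S, c a * ((q.coeff j : ℂ) * ∏ k, ⟪y a k, ((star T * T) ^ j) (x a k)⟫_ℂ)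
          = (q.coeff j : ℂ) * ∑ a ∈ S, c a * ∏ k, ⟪y a k, ((star T * T) ^ j) (x a k)⟫_ℂ := by
            rw [Finset.mul_sum]
            apply Finset.sum_congr rfl
            intro a _
            ring
        _ = 0 := by rw [this, mul_zero]
    have e5 : ∑ a ∈ S, c a * ∑ l ∈ AD, ∏ k, ⟪y a k, fc T (ec (l k)) (x a k)⟫_ℂ
        = -∑ a ∈ S, c a * ((∑ j ∈ q.support, (q.coeff j : ℂ) * ∏ k, ⟪y a k, ((star T * T) ^ j) (x a k)⟫_ℂ)
        - ∑ l ∈ AD, ∏ k, ⟪y a k, fc T (ec (l k)) (x a k)⟫_ℂ) := by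
      simp_rw [mul_sub]
      rw [Finset.sum_sub_distrib, hzero]
      ring
    rw [e5, norm_neg]
    refine (norm_sum_le _ _).trans ?_
    rw [hC, Finset.mul_sum]
    apply Finset.sum_le_sum
    intro a _
    rw [norm_mul]
    calc _ ≤ ‖c a‖ * (ε * B a) := mul_le_mul_of_nonneg_left (hmono a) (norm_nonneg _)
      _ = ε * (‖c a‖ * B a) := by ring
  have h0 : ‖∑ a ∈ S, c a * ∑ l ∈ AD, ∏ k, ⟪y a k, fc T (ec (l k)) (x a k)⟫_ℂ‖ ≤ 0 := by
    apply le_of_forall_pos_le_add
    intro ε hε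
    rw [zero_add]
    have := key (ε / (C + 1)) (by positivity)
    refine this.trans ?_
    rw [div_mul_eq_mul_div, div_le_iff₀ (by positivity)]
    nlinarith
  exact norm_le_zero_iff.mp h0

end Pool.Agent.Helper76.NormalHP
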