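import Mathlib

set_option autoImplicit false

open scoped Topology ENNReal NNReal
open Filter

namespace Pool.Agent.Helper76.KapA

/-- A spectral trace on a complex Banach algebra: a linear functional `τ` with
`τ (x y) = τ (y x)` and `|τ x| ≤ r x`, where `r` is the spectral radius. -/
def IsSpectralTrace {B : Type*} [NormedRing B] [NormedAlgebra ℂ B] (τ : B →ₗ[ℂ] ℂ) : Prop :=
  (∀ x y : B, τ (x * y) = τ (y * x)) ∧ ∀ x : B, (‖τ x‖₊ : ℝ≥0∞) ≤ spectralRadius ℂ x

/-- The spectral traces of `B` are separating: for every nonzero `y` there are a spectral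
trace `τ` and an element `z` with `τ (y z) ≠ 0`. -/
def HasSeparatingSpectralTraces (B : Type*) [NormedRing B] [NormedAlgebra ℂ B] : Prop :=
  ∀ y : B, y ≠ 0 → ∃ τ : B →ₗ[ℂ] ℂ, IsSpectralTrace τ ∧ ∃ z : B, τ (y * z) ≠ 0

section basic

variable {A : Type*} [NormedRing A] [NormedAlgebra ℂ A]

theorem norm_le_of_radius {x : A} {c : ℝ} {z : ℂ} (h : (‖z‖₊ : ℝ≥0∞) ≤ spectralRadius ℂ x)
    (hc : 0 ≤ c) (hx : ∀ w ∈ spectrum ℂ x, ‖w‖ ≤ c) : ‖z‖ ≤ c := by
  have h1 : spectralRadius ℂ x ≤ ((c.toNNReal : ℝ≥0) : ℝ≥0∞) := by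
    unfold spectralRadius
    refine iSup₂_le fun w hw => ?_
    have h2 := hx w hw
    refine ENNReal.coe_le_coe.2 ?_
    rw [← NNReal.coe_le_coe, Real.coe_toNNReal _ hc]
    exact h2
  have h3 := ENNReal.coe_le_coe.1 (h.trans h1)
  rw [← NNReal.coe_le_coe, Real.coe_toNNReal _ hc] at h3
  exact h3

theorem spectrum_map {A B : Type*} [Ring A] [Algebra ℂ A] [Ring B] [Algebra ℂ B]
    (T : A →ₗ[ℂ] B) (h1 : T 1 = 1) (hu : ∀ x, IsUnit x → IsUnit (T x)) (x : A) :
    spectrum ℂ (T x) ⊆ spectrum ℂ x := by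
  intro z hz hx
  apply hz
  have h2 : IsUnit (algebraMap ℂ A z - x) := hx
  have h3 := hu _ h2
  have e : T (algebraMap ℂ A z - x) = algebraMap ℂ B z - T x := by
    rw [map_sub, Algebra.algebraMap_eq_smul_one, map_smul, h1, Algebra.algebraMap_eq_smul_one]
  rw [e] at h3
  exact h3

end basic

section main

variable {A B : Type*} [NormedRing A] [NormedAlgebra ℂ A] [CompleteSpace A]
  [NormedRing B] [NormedAlgebra ℂ B] [CompleteSpace B]

theorem spec_norm (x : A) : ∀ w ∈ spectrum ℂ x, ‖w‖ ≤ ‖x‖ * ‖(1 : A)‖ := fun _ hw =>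
  spectrum.norm_le_norm_mul_of_mem hw

theorem trace_bound {τ : B →ₗ[ℂ] ℂ} (hτ : IsSpectralTrace τ) (x : B) :
    ‖τ x‖ ≤ ‖(1 : B)‖ * ‖x‖ := by
  rw [mul_comm]
  exact norm_le_of_radius (hτ.2 x) (by positivity) (spec_norm x)

/-- a spectral trace as a continuous functional -/
noncomputable def tr (τ : B →ₗ[ℂ] ℂ) (hτ : IsSpectralTrace τ) : B →L[ℂ] ℂ :=
  τ.mkContinuous ‖(1 : B)‖ (trace_bound hτ)

theorem tr_apply (τ : B →ₗ[ℂ] ℂ) (hτ : IsSpectralTrace τ) (x : B) : tr τ hτ x = τ x := rfl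

theorem sq_bound {τ : B →ₗ[ℂ] ℂ} (hτ : IsSpectralTrace τ) (T : A →ₗ[ℂ] B) (h1 : T 1 = 1)
    (hu : ∀ x, IsUnit x → IsUnit (T x)) (x : A) :
    ‖τ (T x * T x)‖ ≤ ‖(1 : A)‖ ^ 2 * ‖x‖ ^ 2 := by
  refine norm_le_of_radius (hτ.2 _) (by positivity) ?_
  intro w hw
  rw [← pow_two, spectrum.map_pow_of_pos (T x) (by norm_num : 0 < 2)] at hw
  obtain ⟨v, hv, rfl⟩ := hw
  have h2 := spec_norm x v (spectrum_map T h1 hu x hv)
  show ‖v ^ 2‖ ≤ _
  rw [norm_pow]
  calc ‖v‖ ^ 2 ≤ (‖x‖ * ‖(1 : A)‖) ^ 2 := by gcongr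
    _ = ‖(1 : A)‖ ^ 2 * ‖x‖ ^ 2 := by ring

theorem prod_bound {τ : B →ₗ[ℂ] ℂ} (hτ : IsSpectralTrace τ) (T : A →ₗ[ℂ] B) (h1 : T 1 = 1)
    (hu : ∀ x, IsUnit x → IsUnit (T x)) (x z : A) :
    ‖τ (T x * T z)‖ ≤ (‖(1 : A)‖ ^ 2 * ((1 + ‖z‖) ^ 2 + 1 + ‖z‖ ^ 2)) * ‖x‖ := by
  rcases eq_or_ne x 0 with rfl | hx
  · simp
  have hx0 : 0 < ‖x‖ := norm_pos_iff.2 hx
  set s : ℂ := (‖x‖ : ℂ) with hs
  have hsn : ‖s‖ = ‖x‖ := by rw [hs]; simp
  have e : 2 * s * τ (T x * T z) = τ (T (x + s • z) * T (x + s • z)) - τ (T x * T x)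
      - s ^ 2 * τ (T z * T z) := by
    have e1 : T (x + s • z) * T (x + s • z) = T x * T x + s • (T x * T z) + s • (T z * T x)
        + (s ^ 2) • (T z * T z) := by
      rw [map_add, map_smul, add_mul, mul_add, mul_add, mul_smul_comm, smul_mul_assoc,
        smul_mul_assoc, mul_smul_comm, smul_smul, pow_two]
      abel
    rw [e1]
    simp only [map_add, map_smul, smul_eq_mul]
    rw [hτ.1 (T z) (T x)]
    ring
  have b1 := sq_bound hτ T h1 hu (x + s • z)
  have b2 := sq_bound hτ T h1 hu x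
  have b3 := sq_bound hτ T h1 hu z
  have b4 : ‖x + s • z‖ ≤ ‖x‖ * (1 + ‖z‖) := by
    calc ‖x + s • z‖ ≤ ‖x‖ + ‖s • z‖ := norm_add_le _ _
      _ = ‖x‖ * (1 + ‖z‖) := by rw [norm_smul, hsn]; ring
  have b5 : ‖2 * s * τ (T x * T z)‖ ≤
      ‖(1 : A)‖ ^ 2 * (‖x‖ * (1 + ‖z‖)) ^ 2 + ‖(1 : A)‖ ^ 2 * ‖x‖ ^ 2
        + ‖x‖ ^ 2 * (‖(1 : A)‖ ^ 2 * ‖z‖ ^ 2) := by
    rw [e]
    calc _ ≤ ‖τ (T (x + s • z) * T (x + s • z)) - τ (T x * T x)‖
          + ‖s ^ 2 * τ (T z * T z)‖ := norm_sub_le _ _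
      _ ≤ ‖τ (T (x + s • z) * T (x + s • z))‖ + ‖τ (T x * T x)‖
          + ‖s ^ 2 * τ (T z * T z)‖ := by gcongr; exact norm_sub_le _ _
      _ ≤ _ := by
        have b6 : ‖s ^ 2 * τ (T z * T z)‖ ≤ ‖x‖ ^ 2 * (‖(1 : A)‖ ^ 2 * ‖z‖ ^ 2) := by
          rw [norm_mul, norm_pow, hsn]
          gcongr
        have b7 : ‖(1 : A)‖ ^ 2 * ‖x + s • z‖ ^ 2 ≤ ‖(1 : A)‖ ^ 2 * (‖x‖ * (1 + ‖z‖)) ^ 2 := by
          gcongr
        linarith
  have b8 : ‖2 * s * τ (T x * T z)‖ = 2 * ‖x‖ * ‖τ (T x * T z)‖ := by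
    rw [norm_mul, norm_mul, hsn]
    simp
  rw [b8] at b5
  have b9 : ‖x‖ * ‖τ (T x * T z)‖ ≤
      ‖x‖ * ((‖(1 : A)‖ ^ 2 * ((1 + ‖z‖) ^ 2 + 1 + ‖z‖ ^ 2)) * ‖x‖) := by
    have : 0 ≤ ‖x‖ * ‖τ (T x * T z)‖ := by positivity
    calc ‖x‖ * ‖τ (T x * T z)‖ ≤ 2 * ‖x‖ * ‖τ (T x * T z)‖ := by linarith
      _ ≤ _ := b5
      _ = _ := by ring
  exact le_of_mul_le_mul_left b9 hx0

/-- Automatic continuity. -/
theorem cont_of_sep (hB : HasSeparatingSpectralTraces B) (T : A →ₗ[ℂ] B) (h1 : T 1 = 1)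
    (hs : Function.Surjective T) (hu : ∀ x, IsUnit x → IsUnit (T x)) : Continuous T := by
  refine LinearMap.continuous_of_seq_closed_graph T fun u x y hux huy => ?_
  by_contra hne
  obtain ⟨τ, hτ, z, hz⟩ := hB (y - T x) (sub_ne_zero.2 hne)
  obtain ⟨w, rfl⟩ := hs z
  apply hz
  have l1 : Tendsto (fun n => tr τ hτ (T (u n) * T w)) atTop (𝓝 (tr τ hτ (y * T w))) :=
    ((tr τ hτ).continuous.tendsto _).comp (huy.mul_const (T w))
  have l2 : Tendsto (fun n => tr τ hτ (T (u n) * T w)) atTop (𝓝 (tr τ hτ (T x * T w))) := by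
    rw [tendsto_iff_norm_sub_tendsto_zero]
    have l3 : Tendsto (fun n => (‖(1 : A)‖ ^ 2 * ((1 + ‖w‖) ^ 2 + 1 + ‖w‖ ^ 2)) * ‖u n - x‖)
        atTop (𝓝 0) := by
      have := (tendsto_iff_norm_sub_tendsto_zero.1 hux).const_mul
        (‖(1 : A)‖ ^ 2 * ((1 + ‖w‖) ^ 2 + 1 + ‖w‖ ^ 2))
      rwa [mul_zero] at this
    refine squeeze_zero (fun n => norm_nonneg _) (fun n => ?_) l3
    have := prod_bound hτ T h1 hu (u n - x) w
    rw [map_sub, sub_mul, map_sub] at this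
    exact this
  have := tendsto_nhds_unique l1 l2
  rw [tr_apply, tr_apply] at this
  rw [sub_mul, map_sub, this, sub_self]

open NormedSpace

theorem isUnit_exp' (x : A) : IsUnit (exp x) := by
  letI : NormedAlgebra ℚ A := NormedAlgebra.restrictScalars ℚ ℂ A
  exact isUnit_exp x

/-- the functions `F k` -/
noncomputable def Fk (T : A →L[ℂ] B) (x : A) (k : ℕ) (l : ℂ) : B := T (exp (l • x) * x ^ k)

theorem Fk_deriv (T : A →L[ℂ] B) (x : A) (k : ℕ) (l : ℂ) :
    HasDerivAt (Fk T x k) (Fk T x (k + 1) l) l := by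
  have h1 : HasDerivAt (fun l : ℂ => exp (l • x)) (exp (l • x) * x) l :=
    hasDerivAt_exp_smul_const x l
  have h2 := h1.mul_const (x ^ k)
  have h3 := T.hasFDerivAt.comp_hasDerivAt l h2
  refine h3.congr_deriv ?_
  unfold Fk
  rw [mul_assoc, ← pow_succ']

theorem Fk_zero (T : A →L[ℂ] B) (x : A) (k : ℕ) : Fk T x k 0 = T (x ^ k) := by
  unfold Fk
  rw [zero_smul, exp_zero, one_mul]

theorem F0_unit (T : A →L[ℂ] B) (hu : ∀ x, IsUnit x → IsUnit (T x)) (x : A) (l : ℂ) :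
    IsUnit (Fk T x 0 l) := by
  unfold Fk
  rw [pow_zero, mul_one]
  exact hu _ (isUnit_exp' _)

theorem G_deriv (T : A →L[ℂ] B) (hu : ∀ x, IsUnit x → IsUnit (T x)) (x : A) (l : ℂ) :
    HasDerivAt (fun l => Ring.inverse (Fk T x 0 l))
      (-(Ring.inverse (Fk T x 0 l) * Fk T x 1 l * Ring.inverse (Fk T x 0 l))) l := by
  obtain ⟨u, hu'⟩ := F0_unit T hu x l
  have h1 := hasFDerivAt_ringInverse (𝕜 := ℂ) u
  rw [hu'] at h1
  have h2 := h1.comp_hasDerivAt l (Fk_deriv T x 0 l)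
  refine h2.congr_deriv ?_
  rw [← hu', Ring.inverse_unit]
  rfl

theorem spec_sub (T : A →L[ℂ] B) (hu : ∀ x, IsUnit x → IsUnit (T x)) (x : A) (l : ℂ) :
    spectrum ℂ (Ring.inverse (Fk T x 0 l) * Fk T x 1 l) ⊆ spectrum ℂ x := by
  intro z hz hx
  apply hz
  have h2 : IsUnit (algebraMap ℂ A z - x) := hx
  have hF := F0_unit T hu x l
  have h3 : IsUnit (T (exp (l • x) * (algebraMap ℂ A z - x))) := hu _ ((isUnit_exp' _).mul h2)
  have e : T (exp (l • x) * (algebraMap ℂ A z - x)) = z • Fk T x 0 l - Fk T x 1 l := by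
    unfold Fk
    rw [mul_sub, Algebra.algebraMap_eq_smul_one, mul_smul_comm, map_sub, map_smul, pow_zero,
      pow_one]
  rw [e] at h3
  have h4 : IsUnit (Ring.inverse (Fk T x 0 l)) := by
    obtain ⟨u, hu'⟩ := hF
    rw [← hu', Ring.inverse_unit]
    exact Units.isUnit _
  have h5 := h4.mul h3
  have e2 : Ring.inverse (Fk T x 0 l) * (z • Fk T x 0 l - Fk T x 1 l) =
      algebraMap ℂ B z - Ring.inverse (Fk T x 0 l) * Fk T x 1 l := by
    rw [mul_sub, mul_smul_comm, Ring.inverse_mul_cancel _ hF, Algebra.algebraMap_eq_smul_one]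
  rw [e2] at h5
  exact h5

variable (T : A →L[ℂ] B) (h1 : T 1 = 1) (hu : ∀ x, IsUnit x → IsUnit (T x))
  (τ : B →ₗ[ℂ] ℂ) (hτ : IsSpectralTrace τ)

include hu in
theorem H_deriv (x : A) (k : ℕ) (l : ℂ) :
    HasDerivAt (fun l => Ring.inverse (Fk T x 0 l) * Fk T x k l)
      (-(Ring.inverse (Fk T x 0 l) * Fk T x 1 l * Ring.inverse (Fk T x 0 l)) * Fk T x k l
        + Ring.inverse (Fk T x 0 l) * Fk T x (k + 1) l) l :=
  (G_deriv T hu x l).mul (Fk_deriv T x k l)

include hu hτ in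
theorem psi_const (x : A) (l : ℂ) :
    τ (Ring.inverse (Fk T x 0 l) * Fk T x 1 l) = τ (Ring.inverse (Fk T x 0 0) * Fk T x 1 0) := by
  have hd : Differentiable ℂ (fun l => tr τ hτ (Ring.inverse (Fk T x 0 l) * Fk T x 1 l)) :=
    fun l => ((tr τ hτ).hasFDerivAt.comp_hasDerivAt l (H_deriv T hu x 1 l)).differentiableAt
  have hb : Bornology.IsBounded
      (Set.range (fun l => tr τ hτ (Ring.inverse (Fk T x 0 l) * Fk T x 1 l))) := by
    rw [isBounded_iff_forall_norm_le]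
    refine ⟨‖x‖ * ‖(1 : A)‖, ?_⟩
    rintro _ ⟨l, rfl⟩
    exact norm_le_of_radius (hτ.2 _) (by positivity) fun w hw =>
      spec_norm x w (spec_sub T hu x l hw)
  exact hd.apply_eq_apply_of_bounded hb l 0

include hu hτ in
theorem first (x : A) (l : ℂ) :
    τ (Ring.inverse (Fk T x 0 l) * Fk T x 2 l) =
      τ ((Ring.inverse (Fk T x 0 l) * Fk T x 1 l) * (Ring.inverse (Fk T x 0 l) * Fk T x 1 l)) := by
  have h2 := (tr τ hτ).hasFDerivAt.comp_hasDerivAt l (H_deriv T hu x 1 l)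
  have h3 : HasDerivAt (fun l => tr τ hτ (Ring.inverse (Fk T x 0 l) * Fk T x 1 l)) 0 l := by
    have : (fun l => tr τ hτ (Ring.inverse (Fk T x 0 l) * Fk T x 1 l)) =
        fun _ => τ (Ring.inverse (Fk T x 0 0) * Fk T x 1 0) := by
      funext l
      exact psi_const T hu τ hτ x l
    rw [this]
    exact hasDerivAt_const _ _
  have h4 := h2.unique h3
  rw [tr_apply, map_add, neg_mul, map_neg] at h4
  have h5 : τ (Ring.inverse (Fk T x 0 l) * Fk T x (1 + 1) l) =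
      τ (Ring.inverse (Fk T x 0 l) * Fk T x 1 l * Ring.inverse (Fk T x 0 l) * Fk T x 1 l) := by
    linear_combination h4
  rw [show (2 : ℕ) = 1 + 1 from rfl, h5]
  congr 1
  noncomm_ring

include h1 hu hτ in
theorem second (x : A) :
    τ (T (x ^ 3)) - τ (T x * T (x ^ 2)) =
      2 * (τ (T x * T (x ^ 2)) - τ (T x * T x * T x)) := by
  have a1 := (tr τ hτ).hasFDerivAt.comp_hasDerivAt 0 (H_deriv T hu x 2 0)
  have a2 := (tr τ hτ).hasFDerivAt.comp_hasDerivAt 0 ((H_deriv T hu x 1 0).mul (H_deriv T hu x 1 0))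
  have a3 : (fun l => tr τ hτ (Ring.inverse (Fk T x 0 l) * Fk T x 2 l)) =
      fun l => tr τ hτ ((Ring.inverse (Fk T x 0 l) * Fk T x 1 l)
        * (Ring.inverse (Fk T x 0 l) * Fk T x 1 l)) := by
    funext l
    exact first T hu τ hτ x l
  have a4 : HasDerivAt (fun l => tr τ hτ (Ring.inverse (Fk T x 0 l) * Fk T x 2 l)) _ 0 := a1
  rw [a3] at a4
  have a5 := a4.unique a2
  simp only [Fk_zero, pow_zero, h1, Ring.inverse_one, one_mul, mul_one, pow_one, tr_apply] at a5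
  have b1 : τ ((-T x * T x + T (x ^ (1 + 1))) * T x) =
      τ (T x * T (x ^ 2)) - τ (T x * T x * T x) := by
    rw [add_mul, map_add, neg_mul, neg_mul, map_neg, hτ.1 (T (x ^ (1 + 1))) (T x)]
    ring
  have b2 : τ (T x * (-T x * T x + T (x ^ (1 + 1)))) =
      τ (T x * T (x ^ 2)) - τ (T x * T x * T x) := by
    rw [mul_add, map_add, neg_mul, mul_neg, map_neg, ← mul_assoc]
    ring
  rw [map_add, map_add, b1, b2, neg_mul, map_neg] at a5
  linear_combination a5

include h1 hu hτ in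
theorem sq_trace (x : A) : τ (T (x ^ 2)) = τ (T x * T x) := by
  have h := first T hu τ hτ x 0
  simp only [Fk_zero, pow_zero, h1, Ring.inverse_one, one_mul, pow_one] at h
  exact h

include h1 hu hτ in
theorem comm_trace (h x : A) : τ (T (h * x)) = τ (T (x * h)) := by
  set y : ℂ → A := fun l => exp (l • h) * x * exp (l • (-h)) with hy
  have d1 : ∀ l, HasDerivAt y ((exp (l • h) * h * x) * exp (l • (-h))
      + exp (l • h) * x * (exp (l • (-h)) * (-h))) l := fun l =>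
    ((hasDerivAt_exp_smul_const h l).mul_const x).mul (hasDerivAt_exp_smul_const (-h) l)
  have d2 : ∀ l, HasDerivAt (fun l => tr τ hτ (T (y l))) (tr τ hτ (T ((exp (l • h) * h * x)
      * exp (l • (-h)) + exp (l • h) * x * (exp (l • (-h)) * (-h))))) l := fun l =>
    (tr τ hτ).hasFDerivAt.comp_hasDerivAt l (T.hasFDerivAt.comp_hasDerivAt l (d1 l))
  have hb : Bornology.IsBounded (Set.range (fun l => tr τ hτ (T (y l)))) := by
    rw [isBounded_iff_forall_norm_le]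
    refine ⟨‖x‖ * ‖(1 : A)‖, ?_⟩
    rintro _ ⟨l, rfl⟩
    refine norm_le_of_radius (hτ.2 _) (by positivity) fun w hw => ?_
    have h2 := spectrum_map T.toLinearMap h1 hu (y l) hw
    have h3 : spectrum ℂ (y l) = spectrum ℂ x := by
      have e1 : exp (l • h) * exp (l • (-h)) = 1 := by
        rw [smul_neg]
        letI : NormedAlgebra ℚ A := NormedAlgebra.restrictScalars ℚ ℂ A
        rw [← exp_add_of_commute (Commute.neg_right (Commute.refl _)), add_neg_cancel, exp_zero]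
      have e2 : exp (l • (-h)) * exp (l • h) = 1 := by
        rw [smul_neg]
        letI : NormedAlgebra ℚ A := NormedAlgebra.restrictScalars ℚ ℂ A
        rw [← exp_add_of_commute (Commute.neg_left (Commute.refl _)), neg_add_cancel, exp_zero]
      let u : Aˣ := ⟨exp (l • h), exp (l • (-h)), e1, e2⟩
      exact spectrum.units_conjugate (a := x) (u := u)
    rw [h3] at h2
    exact spec_norm x w h2
  have hd : Differentiable ℂ (fun l => tr τ hτ (T (y l))) := fun l => (d2 l).differentiableAt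
  have hc : (fun l => tr τ hτ (T (y l))) = fun _ => tr τ hτ (T (y 0)) := by
    funext l
    exact hd.apply_eq_apply_of_bounded hb l 0
  have d3 := d2 0
  rw [hc] at d3
  have d4 := d3.unique (hasDerivAt_const _ _)
  rw [zero_smul, zero_smul, exp_zero, one_mul, one_mul, one_mul, mul_one, mul_neg, tr_apply,
    map_add, map_add, map_neg, map_neg] at d4
  linear_combination d4

include h1 hu hτ in
theorem mul_trace (x y : A) : τ (T (x * y)) = τ (T x * T y) := by
  have a := sq_trace T h1 hu τ hτ (x + y)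
  have b := sq_trace T h1 hu τ hτ x
  have c := sq_trace T h1 hu τ hτ y
  have d := comm_trace T h1 hu τ hτ x y
  have e : (x + y) ^ 2 = x ^ 2 + x * y + y * x + y ^ 2 := by noncomm_ring
  rw [e] at a
  simp only [map_add, add_mul, mul_add] at a
  have f := hτ.1 (T x) (T y)
  linear_combination (1 / 2) * a - (1 / 2) * b - (1 / 2) * c + (1 / 2) * d - (1 / 2) * f

include h1 hu hτ in
theorem cube_trace (x : A) : τ (T (x * x * x)) = τ (T x * T x * T x) := by
  have a := second T h1 hu τ hτ x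
  have b := mul_trace T h1 hu τ hτ x (x ^ 2)
  have e : x * x ^ 2 = x * x * x := by noncomm_ring
  have e2 : x ^ 3 = x * x * x := by noncomm_ring
  rw [e] at b
  rw [e2] at a
  linear_combination (-1 / 2) * a + (3 / 2) * b

include h1 hu hτ in
theorem cube_polar (x z : A) : τ (T (x * x * z)) = τ (T x * T x * T z) := by
  have c1 := cube_trace T h1 hu τ hτ (x + z)
  have c2 := cube_trace T h1 hu τ hτ (x - z)
  have c3 := cube_trace T h1 hu τ hτ z
  have e1 : (x + z) * (x + z) * (x + z) = x * x * x + (x * x * z + x * z * x + z * x * x)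
      + (x * z * z + z * x * z + z * z * x) + z * z * z := by noncomm_ring
  have e2 : (x - z) * (x - z) * (x - z) = x * x * x - (x * x * z + x * z * x + z * x * x)
      + (x * z * z + z * x * z + z * z * x) - z * z * z := by noncomm_ring
  rw [e1] at c1
  rw [e2] at c2
  have f1 : (T x + T z) * (T x + T z) * (T x + T z) = T x * T x * T x
      + (T x * T x * T z + T x * T z * T x + T z * T x * T x)
      + (T x * T z * T z + T z * T x * T z + T z * T z * T x) + T z * T z * T z := by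
    noncomm_ring
  have f2 : (T x - T z) * (T x - T z) * (T x - T z) = T x * T x * T x
      - (T x * T x * T z + T x * T z * T x + T z * T x * T x)
      + (T x * T z * T z + T z * T x * T z + T z * T z * T x) - T z * T z * T z := by
    noncomm_ring
  rw [map_add T x z, f1] at c1
  rw [map_sub T x z, f2] at c2
  simp only [map_add, map_sub] at c1 c2
  have g1 : τ (T x * T z * T x) = τ (T x * T x * T z) := by
    rw [hτ.1 (T x * T z) (T x), mul_assoc]
  have g2 : τ (T z * T x * T x) = τ (T x * T x * T z) := by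
    rw [mul_assoc, hτ.1 (T z) (T x * T x)]
  have g3 : τ (T (x * z * x)) = τ (T (x * x * z)) := by
    rw [comm_trace T h1 hu τ hτ (x * z) x, mul_assoc]
  have g4 : τ (T (z * x * x)) = τ (T (x * x * z)) := by
    rw [mul_assoc, comm_trace T h1 hu τ hτ z (x * x)]
  rw [g1, g2, g3, g4] at c1 c2
  linear_combination (1 / 6) * c1 - (1 / 6) * c2 - (1 / 3) * c3

end main

/-- Kaplansky's problem has a positive answer when the target has separating spectral traces. -/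
theorem jordan {A B : Type*} [NormedRing A] [NormedAlgebra ℂ A] [CompleteSpace A]
    [NormedRing B] [NormedAlgebra ℂ B] [CompleteSpace B] (hB : HasSeparatingSpectralTraces B)
    (T : A →ₗ[ℂ] B) (h1 : T 1 = 1) (hs : Function.Surjective T)
    (hu : ∀ x, IsUnit x → IsUnit (T x)) (x : A) : T (x * x) = T x * T x := by
  let S : A →L[ℂ] B := ⟨T, cont_of_sep hB T h1 hs hu⟩
  by_contra hne
  obtain ⟨τ, hτ, z, hz⟩ := hB (T (x * x) - T x * T x) (sub_ne_zero.2 hne)
  obtain ⟨w, rfl⟩ := hs z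
  apply hz
  have a := cube_polar S h1 hu τ hτ x w
  have b := mul_trace S h1 hu τ hτ (x * x) w
  have a' : τ (T (x * x * w)) = τ (T x * T x * T w) := a
  have b' : τ (T (x * x * w)) = τ (T (x * x) * T w) := b
  rw [sub_mul, map_sub, ← a', ← b', sub_self]

end Pool.Agent.Helper76.KapA
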