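import Pool.Agent.Helper76.Hardy
import Pool.Agent.Helper76.Pick

set_option autoImplicit false
open Complex Filter Topology Metric
open scoped InnerProductSpace

namespace Pool.Agent.Helper76.Wco
open Pool.Agent.Helper76.Hardy Pool.Agent.Helper76.Pick

lemma kz_mem (w : ℂ) (hw : ‖w‖ < 1) : Memℓp (fun n : ℕ => (starRingEnd ℂ) w ^ n) 2 := by
  apply memℓp_gen
  have h1 : ∀ n : ℕ, ‖(starRingEnd ℂ) w ^ n‖ ^ (2 : ENNReal).toReal = (‖w‖ ^ 2) ^ n := by
    intro n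
    rw [norm_pow, Complex.norm_conj]
    simp only [ENNReal.toReal_ofNat, Real.rpow_ofNat]
    ring
  simp_rw [h1]
  apply summable_geometric_of_lt_one (by positivity)
  nlinarith [norm_nonneg w]

/-- reproducing kernels -/
noncomputable def kz (w : ℂ) : HH := if h : ‖w‖ < 1 then ⟨_, kz_mem w h⟩ else 0

lemma kz_apply (w : ℂ) (hw : ‖w‖ < 1) (n : ℕ) : kz w n = (starRingEnd ℂ) w ^ n := by
  unfold kz
  rw [dif_pos hw]

lemma inner_kz (w : ℂ) (hw : ‖w‖ < 1) (a : HH) : ⟪kz w, a⟫_ℂ = ev a w := by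
  rw [lp.inner_eq_tsum]
  unfold ev
  apply tsum_congr
  intro n
  rw [kz_apply w hw, RCLike.inner_apply, map_pow]
  have : (starRingEnd ℂ) ((starRingEnd ℂ) w) = w := Complex.conj_conj w
  rw [this]

lemma norm_kz (w : ℂ) (hw : ‖w‖ < 1) : ‖kz w‖ ^ 2 = (1 - ‖w‖ ^ 2)⁻¹ := by
  rw [norm_sq_eq_tsum, ← tsum_geometric_of_lt_one (by positivity) (by nlinarith [norm_nonneg w])]
  apply tsum_congr
  intro n
  rw [kz_apply w hw, norm_pow, Complex.norm_conj]
  ring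

lemma kz_pos (w : ℂ) (hw : ‖w‖ < 1) : 0 < ‖kz w‖ := by
  have h1 := norm_kz w hw
  have h2 : 0 < 1 - ‖w‖ ^ 2 := by nlinarith [norm_nonneg w]
  have h3 : 0 < ‖kz w‖ ^ 2 := by rw [h1]; positivity
  have h4 := norm_nonneg (kz w)
  rcases h4.eq_or_lt with h5 | h5
  · rw [← h5] at h3
    norm_num at h3
  · exact h5

/-- approach to the unit circle from inside -/
noncomputable def bd : Filter ℂ := comap (fun w : ℂ => ‖w‖) (𝓝[<] 1)

lemma bd_lt : ∀ᶠ w in bd, ‖w‖ < 1 := by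
  have h1 : Tendsto (fun w : ℂ => ‖w‖) bd (𝓝[<] 1) := tendsto_comap
  exact h1.eventually self_mem_nhdsWithin

lemma bd_gt (r : ℝ) (hr : r < 1) : ∀ᶠ w in bd, r < ‖w‖ := by
  have h1 : Tendsto (fun w : ℂ => ‖w‖) bd (𝓝[<] 1) := tendsto_comap
  exact (tendsto_nhdsWithin_iff.mp h1).1.eventually (lt_mem_nhds hr)

instance bd_neBot : bd.NeBot := by
  unfold bd
  apply comap_neBot
  intro t ht
  have h1 : Set.Ioo (0 : ℝ) 1 ∈ 𝓝[<] (1 : ℝ) := Ioo_mem_nhdsLT (by norm_num)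
  obtain ⟨x, hx1, hx2⟩ := Filter.nonempty_of_mem (inter_mem ht h1)
  refine ⟨(x : ℂ), ?_⟩
  rwa [Complex.norm_real, Real.norm_eq_abs, abs_of_pos hx2.1]

lemma kz_large (B : ℝ) : ∀ᶠ w in bd, B ≤ ‖kz w‖ := by
  have h1 : ∀ᶠ w in bd, 1 - 1 / (2 * (B ^ 2 + 1)) < ‖w‖ := by
    apply bd_gt
    have : 0 < 1 / (2 * (B ^ 2 + 1)) := by positivity
    linarith
  filter_upwards [h1, bd_lt] with w hw1 hw2
  have h2 := norm_kz w hw2
  have h3 : 0 < 1 - ‖w‖ ^ 2 := by nlinarith [norm_nonneg w]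
  have h4 : 1 - ‖w‖ ^ 2 ≤ 1 / (B ^ 2 + 1) := by
    have h5 : 1 / (2 * (B ^ 2 + 1)) * 2 = 1 / (B ^ 2 + 1) := by
      field_simp
    nlinarith [norm_nonneg w]
  have h5 : B ^ 2 + 1 ≤ ‖kz w‖ ^ 2 := by
    rw [h2, le_inv_comm₀ (by positivity) h3]
    rwa [one_div] at h4
  by_contra hcon
  push Not at hcon
  have h6 := norm_nonneg (kz w)
  nlinarith

lemma weak_small (y : HH) (ε : ℝ) (hε : 0 < ε) : ∀ᶠ w in bd, ‖⟪kz w, y⟫_ℂ‖ ≤ ε * ‖kz w‖ := by
  have hs := (lp.hasSum_single (E := fun _ : ℕ => ℂ) (p := 2) (by norm_num) y).tendsto_sum_nat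
  have h1 : ∀ᶠ N in atTop, ‖(∑ n ∈ Finset.range N, lp.single 2 n (y n)) - y‖ < ε / 2 := by
    have := (tendsto_iff_norm_sub_tendsto_zero.mp hs).eventually (gt_mem_nhds (half_pos hε))
    exact this
  obtain ⟨N, hN⟩ := h1.exists
  set s : HH := ∑ n ∈ Finset.range N, lp.single 2 n (y n) with hs'
  set B : ℝ := ∑ n ∈ Finset.range N, ‖y n‖ with hB
  filter_upwards [kz_large (2 * B / ε), bd_lt] with w hw1 hw2
  have h2 : ‖⟪kz w, s⟫_ℂ‖ ≤ B := by
    rw [hs', inner_sum]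
    refine (norm_sum_le _ _).trans ?_
    apply Finset.sum_le_sum
    intro n _
    rw [lp.inner_single_right, kz_apply w hw2]
    refine (norm_inner_le_norm _ _).trans ?_
    rw [norm_pow, Complex.norm_conj]
    have : ‖w‖ ^ n ≤ 1 := pow_le_one₀ (norm_nonneg _) hw2.le
    nlinarith [norm_nonneg (y n)]
  have h3 : ‖⟪kz w, y - s⟫_ℂ‖ ≤ ‖kz w‖ * (ε / 2) := by
    refine (norm_inner_le_norm _ _).trans ?_
    apply mul_le_mul_of_nonneg_left _ (norm_nonneg _)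
    rw [norm_sub_rev]
    exact hN.le
  have h4 : ⟪kz w, y⟫_ℂ = ⟪kz w, s⟫_ℂ + ⟪kz w, y - s⟫_ℂ := by
    rw [← inner_add_right]
    congr 1
    abel
  have h5 : B ≤ ε / 2 * ‖kz w‖ := by
    rw [div_le_iff₀ hε] at hw1
    linarith
  rw [h4]
  refine (norm_add_le _ _).trans ?_
  linarith

lemma compact_small (K : Set HH) (hK : IsCompact K) (ε : ℝ) (hε : 0 < ε) :
    ∀ᶠ w in bd, ∀ y ∈ K, ‖⟪kz w, y⟫_ℂ‖ ≤ ε * ‖kz w‖ := by
  obtain ⟨t, -, ht, hcov⟩ := hK.finite_cover_balls (half_pos hε)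
  have h1 : ∀ᶠ w in bd, ∀ x ∈ t, ‖⟪kz w, x⟫_ℂ‖ ≤ ε / 2 * ‖kz w‖ := by
    rw [eventually_all_finite ht]
    intro x _
    exact weak_small x (ε / 2) (half_pos hε)
  filter_upwards [h1] with w hw y hy
  have h2 := hcov hy
  simp only [Set.mem_iUnion, mem_ball, exists_prop] at h2
  obtain ⟨x, hx, hxy⟩ := h2
  have h3 : ⟪kz w, y⟫_ℂ = ⟪kz w, x⟫_ℂ + ⟪kz w, y - x⟫_ℂ := by
    rw [← inner_add_right]
    congr 1
    abel
  rw [h3]
  refine (norm_add_le _ _).trans ?_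
  have h4 : ‖⟪kz w, y - x⟫_ℂ‖ ≤ ‖kz w‖ * (ε / 2) := by
    refine (norm_inner_le_norm _ _).trans ?_
    apply mul_le_mul_of_nonneg_left _ (norm_nonneg _)
    rw [← dist_eq_norm]
    exact hxy.le
  have := hw x hx
  linarith

lemma ev_inj (a : HH) (h : ∀ z : ℂ, ‖z‖ < 1 → ev a z = 0) : a = 0 := by
  have h1 := norm_le_of_avg a 0 (by
    intro r h0 h1
    have : Set.EqOn (fun z : ℂ => ‖ev a z‖ ^ 2) (fun _ => (0 : ℝ)) (sphere 0 |r|) := by
      intro z hz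
      have hz1 : ‖z‖ = |r| := by simpa using hz
      have hz2 : ‖z‖ < 1 := by
        rw [hz1, abs_of_nonneg h0]
        exact h1
      simp only
      rw [h z hz2]
      simp
    rw [Real.circleAverage_congr_sphere this, Real.circleAverage_const])
  have h2 : ‖a‖ = 0 := by
    have := sq_nonneg ‖a‖
    exact pow_eq_zero_iff (two_ne_zero) |>.mp (le_antisymm h1 this)
  exact norm_eq_zero.mp h2

section
variable {ψ φ : ℂ → ℂ} {T : HH →L[ℂ] HH}

lemma adj_kz (hm : ∀ z : ℂ, ‖z‖ < 1 → ‖φ z‖ < 1)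
    (hT : ∀ (f : HH) (z : ℂ), ‖z‖ < 1 → ev (T f) z = ψ z * ev f (φ z)) (w : ℂ) (hw : ‖w‖ < 1) :
    (ContinuousLinearMap.adjoint T) (kz w) = (starRingEnd ℂ) (ψ w) • kz (φ w) := by
  apply ext_inner_right ℂ
  intro f
  rw [ContinuousLinearMap.adjoint_inner_left, inner_kz w hw, hT f w hw, inner_smul_left,
    Complex.conj_conj, inner_kz _ (hm w hw)]

lemma small_adj (hc : IsCompactOperator T) (ε : ℝ) (hε : 0 < ε) :
    ∀ᶠ w in bd, ‖(ContinuousLinearMap.adjoint T) (kz w)‖ ≤ ε * ‖kz w‖ := by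
  have hK : IsCompact (closure (T '' closedBall 0 1)) :=
    hc.isCompact_closure_image_closedBall 1
  filter_upwards [compact_small _ hK ε hε] with w hw
  set u := (ContinuousLinearMap.adjoint T) (kz w) with hu
  rcases eq_or_ne u 0 with h0 | h0
  · rw [h0, norm_zero]
    positivity
  · have hun : 0 < ‖u‖ := norm_pos_iff.mpr h0
    set x : HH := ((‖u‖⁻¹ : ℝ) : ℂ) • u with hx
    have hxn : ‖x‖ = 1 := by
      rw [hx, norm_smul, Complex.norm_real, norm_inv, norm_norm]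
      field_simp
    have h1 : T x ∈ closure (T '' closedBall 0 1) := by
      apply subset_closure
      refine ⟨x, ?_, rfl⟩
      rw [mem_closedBall_zero_iff, hxn]
    have h2 := hw _ h1
    rw [← ContinuousLinearMap.adjoint_inner_left, ← hu, hx, inner_smul_right,
      inner_self_eq_norm_sq_to_K] at h2
    have h3 : ‖((‖u‖⁻¹ : ℝ) : ℂ) * ((‖u‖ : ℂ)) ^ 2‖ = ‖u‖ := by
      rw [norm_mul, norm_pow, Complex.norm_real, Complex.norm_real, norm_inv, norm_norm]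
      field_simp
    rw [← h3]
    exact h2

/-- no eigenvectors when orbits go to the boundary -/
lemma no_eig (hm : ∀ z : ℂ, ‖z‖ < 1 → ‖φ z‖ < 1)
    (hT : ∀ (f : HH) (z : ℂ), ‖z‖ < 1 → ev (T f) z = ψ z * ev f (φ z))
    (hc : IsCompactOperator T) (μ : ℂ) (hμ : μ ≠ 0) (f : HH) (hf : T f = μ • f) (z : ℂ)
    (hz : ‖z‖ < 1) (horb : Tendsto (fun n => ‖φ^[n] z‖) atTop (𝓝 1)) : ev f z = 0 := by
  have horb' : Tendsto (fun n => φ^[n] z) atTop bd := by
    unfold bd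
    rw [tendsto_comap_iff, tendsto_nhdsWithin_iff]
    refine ⟨horb, ?_⟩
    filter_upwards with n
    exact iter_lt hm n z hz
  have hμn : 0 < ‖μ‖ := norm_pos_iff.mpr hμ
  set A := ContinuousLinearMap.adjoint T with hA
  have hx : ∀ n : ℕ, ∃ c : ℂ, (A ^ n) (kz z) = c • kz (φ^[n] z) := by
    intro n
    induction n with
    | zero => exact ⟨1, by simp⟩
    | succ n ih =>
      obtain ⟨c, hc'⟩ := ih
      refine ⟨c * (starRingEnd ℂ) (ψ (φ^[n] z)), ?_⟩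
      rw [pow_succ', mul_apply_eq_comp, hc', map_smul, adj_kz hm hT _ (iter_lt hm n z hz),
        smul_smul, Function.iterate_succ_apply']
  have hev : ∀ᶠ n in atTop, ‖A (kz (φ^[n] z))‖ ≤ ‖μ‖ / 2 * ‖kz (φ^[n] z)‖ :=
    horb'.eventually (small_adj hc (‖μ‖ / 2) (by positivity))
  obtain ⟨N, hN⟩ := eventually_atTop.mp hev
  have hstep : ∀ n, N ≤ n → ‖(A ^ (n + 1)) (kz z)‖ ≤ ‖μ‖ / 2 * ‖(A ^ n) (kz z)‖ := by
    intro n hn
    obtain ⟨c, hc'⟩ := hx n
    rw [pow_succ', mul_apply_eq_comp, hc', map_smul, norm_smul, norm_smul]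
    have := hN n hn
    nlinarith [norm_nonneg c, mul_le_mul_of_nonneg_left this (norm_nonneg c)]
  have hdecay : ∀ m : ℕ, ‖(A ^ (N + m)) (kz z)‖ ≤ (‖μ‖ / 2) ^ m * ‖(A ^ N) (kz z)‖ := by
    intro m
    induction m with
    | zero => simp
    | succ m ih =>
      have h1 := hstep (N + m) (by omega)
      rw [← add_assoc, pow_succ' (‖μ‖ / 2) m, mul_assoc]
      exact h1.trans (mul_le_mul_of_nonneg_left ih (by positivity))
  have hTn : ∀ n : ℕ, (T ^ n) f = μ ^ n • f := by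
    intro n
    induction n with
    | zero => simp
    | succ n ih =>
      rw [pow_succ', mul_apply_eq_comp, ih, map_smul, hf, smul_smul, pow_succ]
  have hkey : ∀ n : ℕ, ‖μ‖ ^ n * ‖ev f z‖ ≤ ‖(A ^ n) (kz z)‖ * ‖f‖ := by
    intro n
    have h1 : ⟪(A ^ n) (kz z), f⟫_ℂ = μ ^ n * ev f z := by
      have h2 : A ^ n = ContinuousLinearMap.adjoint (T ^ n) := by
        rw [hA, ← ContinuousLinearMap.star_eq_adjoint, ← ContinuousLinearMap.star_eq_adjoint,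
          star_pow]
      rw [h2, ContinuousLinearMap.adjoint_inner_left, hTn, inner_smul_right, inner_kz z hz]
    rw [← norm_pow, ← norm_mul, ← h1]
    exact norm_inner_le_norm _ _
  set C := ‖(A ^ N) (kz z)‖ * ‖f‖ / ‖μ‖ ^ N with hC
  have hfin : ∀ m : ℕ, ‖ev f z‖ ≤ C * (1 / 2) ^ m := by
    intro m
    have h1 := hkey (N + m)
    have h2 := mul_le_mul_of_nonneg_right (hdecay m) (norm_nonneg f)
    have h3 : ‖μ‖ ^ (N + m) * ‖ev f z‖ ≤ (‖μ‖ / 2) ^ m * ‖(A ^ N) (kz z)‖ * ‖f‖ := h1.trans h2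
    rw [pow_add] at h3
    have h4 : 0 < ‖μ‖ ^ N * ‖μ‖ ^ m := by positivity
    rw [hC, div_mul_eq_mul_div, le_div_iff₀ (by positivity)]
    have h5 : (‖μ‖ / 2) ^ m = ‖μ‖ ^ m * (1 / 2) ^ m := by
      rw [← mul_pow]
      congr 1
      ring
    rw [h5] at h3
    have h6 : 0 < ‖μ‖ ^ m := by positivity
    have h7 : ‖μ‖ ^ m * (‖ev f z‖ * ‖μ‖ ^ N)
        ≤ ‖μ‖ ^ m * (‖(A ^ N) (kz z)‖ * ‖f‖ * (1 / 2) ^ m) := by
      linarith
    exact le_of_mul_le_mul_left h7 h6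
  have hlim : Tendsto (fun m : ℕ => C * (1 / 2 : ℝ) ^ m) atTop (𝓝 (C * 0)) :=
    (tendsto_pow_atTop_nhds_zero_of_lt_one (by norm_num) (by norm_num)).const_mul C
  have h0 : ‖ev f z‖ ≤ C * 0 := ge_of_tendsto' hlim hfin
  rw [mul_zero] at h0
  exact norm_le_zero_iff.mp h0

/-- in the isometric case the weight vanishes -/
lemma weight_zero (hψ : DifferentiableOn ℂ ψ (ball (0 : ℂ) 1))
    (hm : ∀ z : ℂ, ‖z‖ < 1 → ‖φ z‖ < 1)
    (hT : ∀ (f : HH) (z : ℂ), ‖z‖ < 1 → ev (T f) z = ψ z * ev f (φ z))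
    (hc : IsCompactOperator T) (C : ℝ) (hC : 0 < C)
    (hdef : ∀ z : ℂ, ‖z‖ < 1 → 1 - ‖φ z‖ ^ 2 ≤ C * (1 - ‖z‖ ^ 2)) (z : ℂ) (hz : ‖z‖ < 1) :
    ψ z = 0 := by
  have h1 : ∀ ε : ℝ, 0 < ε → ∀ᶠ w in bd, ‖ψ w‖ ≤ ε * Real.sqrt C := by
    intro ε hε
    filter_upwards [small_adj hc ε hε, bd_lt] with w hw hw1
    rw [adj_kz hm hT w hw1, norm_smul, Complex.norm_conj] at hw
    have hk1 := norm_kz w hw1
    have hk2 := norm_kz (φ w) (hm w hw1)
    have hp1 := kz_pos w hw1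
    have hp2 := kz_pos (φ w) (hm w hw1)
    have h2 : ‖kz w‖ ≤ Real.sqrt C * ‖kz (φ w)‖ := by
      apply le_of_sq_le_sq _ (by positivity)
      rw [mul_pow, Real.sq_sqrt hC.le, hk1, hk2]
      have h3 : 0 < 1 - ‖w‖ ^ 2 := by nlinarith [norm_nonneg w]
      have h4 : 0 < 1 - ‖φ w‖ ^ 2 := by nlinarith [norm_nonneg (φ w), hm w hw1]
      rw [← div_eq_mul_inv, le_div_iff₀ h4, inv_mul_le_iff₀ h3]
      have := hdef w hw1
      linarith
    have h5 : ‖ψ w‖ * ‖kz (φ w)‖ ≤ ε * Real.sqrt C * ‖kz (φ w)‖ := by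
      refine hw.trans ?_
      rw [mul_assoc]
      exact mul_le_mul_of_nonneg_left h2 hε.le
    exact le_of_mul_le_mul_right h5 hp2
  have h2 : ∀ ε : ℝ, 0 < ε → ‖ψ z‖ ≤ ε * Real.sqrt C := by
    intro ε hε
    have h3 := h1 ε hε
    unfold bd at h3
    rw [eventually_comap] at h3
    have h4 : ∀ᶠ b in 𝓝[<] (1 : ℝ), ‖z‖ < b := by
      have : Set.Ioo ‖z‖ 1 ∈ 𝓝[<] (1 : ℝ) := Ioo_mem_nhdsLT hz
      filter_upwards [this] with b hb
      exact hb.1
    have h5 : ∀ᶠ b in 𝓝[<] (1 : ℝ), b < 1 := self_mem_nhdsWithin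
    obtain ⟨b, hb1, hb2, hb3⟩ := (h3.and (h4.and h5)).exists
    have hb0 : b ≠ 0 := by
      have := norm_nonneg z
      linarith [hb2]
    apply Complex.norm_le_of_forall_mem_frontier_norm_le (U := ball (0 : ℂ) b) isBounded_ball
    · apply DifferentiableOn.diffContOnCl
      rw [closure_ball (0 : ℂ) hb0]
      apply hψ.mono
      intro w hw
      rw [mem_closedBall_zero_iff] at hw
      rw [mem_ball_zero_iff]
      linarith
    · intro w hw
      rw [frontier_ball (0 : ℂ) hb0, mem_sphere_zero_iff_norm] at hw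
      exact hb1 w hw
    · apply subset_closure
      rw [mem_ball_zero_iff]
      exact hb2
  have h3 : ‖ψ z‖ ≤ 0 := by
    apply le_of_forall_pos_le_add
    intro ε hε
    rw [zero_add]
    have hs : 0 < Real.sqrt C := Real.sqrt_pos.mpr hC
    have := h2 (ε / Real.sqrt C) (by positivity)
    rwa [div_mul_cancel₀ _ hs.ne'] at this
  exact norm_le_zero_iff.mp h3

theorem spectrum_eq (hψ : DifferentiableOn ℂ ψ (ball (0 : ℂ) 1))
    (hφ : DifferentiableOn ℂ φ (ball (0 : ℂ) 1))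
    (hm : ∀ z : ℂ, ‖z‖ < 1 → ‖φ z‖ < 1) (hfix : ∀ z : ℂ, ‖z‖ < 1 → φ z ≠ z)
    (hT : ∀ (f : HH) (z : ℂ), ‖z‖ < 1 → ev (T f) z = ψ z * ev f (φ z))
    (hc : IsCompactOperator T) : spectrum ℂ T = {0} := by
  have hno : ∀ μ : ℂ, μ ≠ 0 → ∀ f : HH, T f = μ • f → f = 0 := by
    intro μ hμ f hf
    rcases orbit_dichotomy hφ hm hfix with h1 | ⟨q, hq, h1⟩
    · apply ev_inj
      intro z hz
      exact no_eig hm hT hc μ hμ f hf z hz (h1 z hz)
    · obtain ⟨C, hC, hdef⟩ := defect_le hq hm h1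
      have h2 : T f = 0 := by
        apply ev_inj
        intro z hz
        rw [hT f z hz, weight_zero hψ hm hT hc C hC hdef z hz, zero_mul]
      rw [h2] at hf
      exact (smul_eq_zero.mp hf.symm).resolve_left hμ
  apply Set.Subset.antisymm
  · intro μ hμ
    rw [Set.mem_singleton_iff]
    by_contra hne
    have h1 := (hc.hasEigenvalue_iff_mem_spectrum hne).mpr hμ
    obtain ⟨f, hf⟩ := h1.exists_hasEigenvector
    have h2 : T f = μ • f := hf.apply_eq_smul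
    exact hf.2 (hno μ hne f h2)
  · rw [Set.singleton_subset_iff]
    by_contra h0
    rw [spectrum.zero_notMem_iff] at h0
    obtain ⟨U, hU⟩ := h0
    set S : HH →L[ℂ] HH := (↑U⁻¹ : HH →L[ℂ] HH) with hS
    have h1 : T * S = 1 := by rw [← hU, hS]; exact U.mul_inv
    -- `S^* T^* = 1`
    have h2 : ∀ x : HH, ContinuousLinearMap.adjoint S (ContinuousLinearMap.adjoint T x) = x := by
      intro x
      have h3 : star S * star T = 1 := by rw [← star_mul, h1, star_one]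
      have h4 := congrArg (fun L : HH →L[ℂ] HH => L x) h3
      exact h4
    set B := ‖ContinuousLinearMap.adjoint S‖ with hB
    have hB0 : 0 ≤ B := norm_nonneg _
    obtain ⟨w, hw1, hw2⟩ := ((small_adj hc (1 / (2 * (B + 1))) (by positivity)).and bd_lt).exists
    have hp := kz_pos w hw2
    have h3 : ‖kz w‖ ≤ B * ‖(ContinuousLinearMap.adjoint T) (kz w)‖ := by
      conv_lhs => rw [← h2 (kz w)]
      exact ContinuousLinearMap.le_opNorm _ _
    have h4 : B * (1 / (2 * (B + 1))) ≤ 1 / 2 := by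
      rw [mul_one_div, div_le_div_iff₀ (by positivity) (by norm_num)]
      linarith
    have h5 : ‖kz w‖ ≤ 1 / 2 * ‖kz w‖ := by
      calc ‖kz w‖ ≤ B * ‖(ContinuousLinearMap.adjoint T) (kz w)‖ := h3
        _ ≤ B * (1 / (2 * (B + 1)) * ‖kz w‖) := mul_le_mul_of_nonneg_left hw1 hB0
        _ = (B * (1 / (2 * (B + 1)))) * ‖kz w‖ := by ring
        _ ≤ 1 / 2 * ‖kz w‖ := mul_le_mul_of_nonneg_right h4 hp.le
    linarith

end

end Pool.Agent.Helper76.Wco
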