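import Pool.Agent.Helper76.HPPS
import Pool.Agent.Helper76.Wco

set_option autoImplicit false
open Complex Filter Topology Metric
open scoped InnerProductSpace

namespace Pool.Agent.Helper76.NW
open Pool.Agent.Helper76.Hardy Pool.Agent.Helper76.Pick Pool.Agent.Helper76.Wco
open Pool.Agent.Helper76.NormalHP

/-- the data of a nonzero normal weighted composition operator whose symbol has no fixed point -/
structure WSys (ψ φ : ℂ → ℂ) (T : HH →L[ℂ] HH) : Prop where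
  hψ : DifferentiableOn ℂ ψ (ball (0 : ℂ) 1)
  hφ : DifferentiableOn ℂ φ (ball (0 : ℂ) 1)
  hm : ∀ z : ℂ, ‖z‖ < 1 → ‖φ z‖ < 1
  hT : ∀ (f : HH) (z : ℂ), ‖z‖ < 1 → ev (T f) z = ψ z * ev f (φ z)
  normal : IsStarNormal T
  hfix : ∀ z : ℂ, ‖z‖ < 1 → φ z ≠ z
  hne : ∃ z : ℂ, ‖z‖ < 1 ∧ ψ z ≠ 0

lemma ker_kz (z w : ℂ) (hz : ‖z‖ < 1) (hw : ‖w‖ < 1) :
    ⟪kz z, kz w⟫_ℂ = 1 / (1 - z * (starRingEnd ℂ) w) := by
  rw [inner_kz z hz]
  unfold ev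
  have h1 : ∀ n : ℕ, kz w n * z ^ n = (z * (starRingEnd ℂ) w) ^ n := by
    intro n
    rw [kz_apply w hw, mul_pow]
    ring
  simp_rw [h1]
  rw [tsum_geometric_of_norm_lt_one, one_div]
  rw [norm_mul, Complex.norm_conj]
  nlinarith [norm_nonneg z, norm_nonneg w]

lemma one_sub_ne' {z w : ℂ} (hz : ‖z‖ < 1) (hw : ‖w‖ < 1) : 1 - z * (starRingEnd ℂ) w ≠ 0 := by
  have := one_sub_ne hw hz
  rwa [mul_comm]

section
variable {ψ φ : ℂ → ℂ} {T : HH →L[ℂ] HH}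

lemma WSys.adj (h : WSys ψ φ T) (w : ℂ) (hw : ‖w‖ < 1) :
    (star T) (kz w) = (starRingEnd ℂ) (ψ w) • kz (φ w) := by
  rw [ContinuousLinearMap.star_eq_adjoint]
  exact adj_kz h.hm h.hT w hw

/-- cocycle of weights -/
noncomputable def cyc (ψ φ : ℂ → ℂ) (n : ℕ) (z : ℂ) : ℂ := ∏ j ∈ Finset.range n, ψ (φ^[j] z)

lemma WSys.adj_pow (h : WSys ψ φ T) (n : ℕ) (w : ℂ) (hw : ‖w‖ < 1) :
    ((star T) ^ n) (kz w) = (starRingEnd ℂ) (cyc ψ φ n w) • kz (φ^[n] w) := by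
  induction n with
  | zero => simp [cyc]
  | succ n ih =>
    rw [pow_succ', mul_apply_eq_comp, ih, map_smul, h.adj _ (iter_lt h.hm n w hw), smul_smul,
      Function.iterate_succ_apply']
    congr 1
    unfold cyc
    rw [Finset.prod_range_succ, map_mul]

lemma sinl (A : HH →L[ℂ] HH) (x y : HH) : ⟪star A y, x⟫_ℂ = ⟪y, A x⟫_ℂ := by
  rw [ContinuousLinearMap.star_eq_adjoint, ContinuousLinearMap.adjoint_inner_left]

lemma sinr (A : HH →L[ℂ] HH) (x y : HH) : ⟪y, star A x⟫_ℂ = ⟪A y, x⟫_ℂ := by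
  rw [ContinuousLinearMap.star_eq_adjoint, ContinuousLinearMap.adjoint_inner_right]

lemma WSys.powN (h : WSys ψ φ T) (n : ℕ) : (star T * T) ^ n = T ^ n * (star T) ^ n := by
  have hc : Commute (star T) T := h.normal.star_comm_self
  rw [hc.eq, hc.symm.mul_pow]

lemma WSys.L (h : WSys ψ φ T) (n : ℕ) (u v : ℂ) (hu : ‖u‖ < 1) (hv : ‖v‖ < 1) :
    ⟪kz u, ((star T * T) ^ n) (kz v)⟫_ℂ
      = cyc ψ φ n u * (starRingEnd ℂ) (cyc ψ φ n v)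
        / (1 - φ^[n] u * (starRingEnd ℂ) (φ^[n] v)) := by
  rw [h.powN, mul_apply_eq_comp, h.adj_pow n v hv, ← sinl, star_pow,
    h.adj_pow n u hu, inner_smul_left, inner_smul_right, Complex.conj_conj,
    ker_kz _ _ (iter_lt h.hm n u hu) (iter_lt h.hm n v hv)]
  ring

/-- the six-term expression -/
def six {R : Type} [CommRing R] (J : Fin 3 → Fin 3 → R) : R :=
  J 0 1 * J 0 2 * J 1 0 * J 1 2 * J 2 0 * J 2 1 - J 0 1 * J 0 2 * J 1 0 * J 1 1 * J 2 0 * J 2 2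
  - J 0 0 * J 0 2 * J 1 1 * J 1 2 * J 2 0 * J 2 1 + J 0 0 * J 0 2 * J 1 0 * J 1 1 * J 2 1 * J 2 2
  + J 0 0 * J 0 1 * J 1 1 * J 1 2 * J 2 0 * J 2 2 - J 0 0 * J 0 1 * J 1 0 * J 1 2 * J 2 1 * J 2 2

lemma six_of_det {R : Type} [CommRing R] (J M : Fin 3 → Fin 3 → R)
    (h : ∀ i j, J i j * M i j = 1) :
    six J = (M 0 0 * (M 1 1 * M 2 2 - M 1 2 * M 2 1) - M 0 1 * (M 1 0 * M 2 2 - M 1 2 * M 2 0)
      + M 0 2 * (M 1 0 * M 2 1 - M 1 1 * M 2 0)) *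
      (J 0 0 * J 0 1 * J 0 2 * J 1 0 * J 1 1 * J 1 2 * J 2 0 * J 2 1 * J 2 2) := by
  have e : ∀ x a b c a' b' c' : R, a * a' = 1 → b * b' = 1 → c * c' = 1 →
      (a' * b' * c') * (x * (a * b * c)) = x := by
    intro x a b c a' b' c' h1 h2 h3
    calc (a' * b' * c') * (x * (a * b * c)) = (a * a') * (b * b') * (c * c') * x := by ring
      _ = x := by rw [h1, h2, h3]; ring
  have t1 := e (J 0 1 * J 0 2 * J 1 0 * J 1 2 * J 2 0 * J 2 1) (J 0 0) (J 1 1) (J 2 2)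
    (M 0 0) (M 1 1) (M 2 2) (h _ _) (h _ _) (h _ _)
  have t2 := e (J 0 1 * J 0 2 * J 1 0 * J 1 1 * J 2 0 * J 2 2) (J 0 0) (J 1 2) (J 2 1)
    (M 0 0) (M 1 2) (M 2 1) (h _ _) (h _ _) (h _ _)
  have t3 := e (J 0 0 * J 0 2 * J 1 1 * J 1 2 * J 2 0 * J 2 1) (J 0 1) (J 1 0) (J 2 2)
    (M 0 1) (M 1 0) (M 2 2) (h _ _) (h _ _) (h _ _)
  have t4 := e (J 0 0 * J 0 2 * J 1 0 * J 1 1 * J 2 1 * J 2 2) (J 0 1) (J 1 2) (J 2 0)
    (M 0 1) (M 1 2) (M 2 0) (h _ _) (h _ _) (h _ _)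
  have t5 := e (J 0 0 * J 0 1 * J 1 1 * J 1 2 * J 2 0 * J 2 2) (J 0 2) (J 1 0) (J 2 1)
    (M 0 2) (M 1 0) (M 2 1) (h _ _) (h _ _) (h _ _)
  have t6 := e (J 0 0 * J 0 1 * J 1 0 * J 1 2 * J 2 1 * J 2 2) (J 0 2) (J 1 1) (J 2 0)
    (M 0 2) (M 1 1) (M 2 0) (h _ _) (h _ _) (h _ _)
  unfold six
  linear_combination -t1 + t2 + t3 - t4 - t5 + t6

lemma six_cauchy (a b x y : Fin 3 → ℂ) (hne : ∀ i j, 1 - x i * y j ≠ 0) :
    six (fun i j => a i * b j / (1 - x i * y j)) = 0 := by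
  have h1 : six (fun i j => a i * b j / (1 - x i * y j))
      = (a 0 * a 1 * a 2 * b 0 * b 1 * b 2) ^ 2 * six (fun i j => (1 - x i * y j)⁻¹) := by
    unfold six
    ring
  rw [h1, six_of_det (fun i j => (1 - x i * y j)⁻¹) (fun i j => 1 - x i * y j)
    (fun i j => inv_mul_cancel₀ (hne i j))]
  have h2 : ((1 - x 0 * y 0) * ((1 - x 1 * y 1) * (1 - x 2 * y 2) - (1 - x 1 * y 2) * (1 - x 2 * y 1))
      - (1 - x 0 * y 1) * ((1 - x 1 * y 0) * (1 - x 2 * y 2) - (1 - x 1 * y 2) * (1 - x 2 * y 0))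
      + (1 - x 0 * y 2) * ((1 - x 1 * y 0) * (1 - x 2 * y 1) - (1 - x 1 * y 1) * (1 - x 2 * y 0))) = 0 := by
    ring
  rw [h2]
  ring

/-- column indices of the six terms -/
def jj : Fin 6 → Fin 6 → Fin 3 :=
  ![![1, 2, 0, 2, 0, 1], ![1, 2, 0, 1, 0, 2], ![0, 2, 1, 2, 0, 1], ![0, 2, 0, 1, 1, 2],
    ![0, 1, 1, 2, 0, 2], ![0, 1, 0, 2, 1, 2]]
/-- row indices -/
def ii : Fin 6 → Fin 3 := ![0, 0, 1, 1, 2, 2]
/-- signs -/
def sg : Fin 6 → ℂ := ![1, -1, -1, 1, 1, -1]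

lemma sum_six {R : Type} [CommRing R] (J : Fin 3 → Fin 3 → R) (c : ℂ → R) (h1 : c 1 = 1)
    (h2 : c (-1) = -1) :
    ∑ a : Fin 6, c (sg a) * ∏ k : Fin 6, J (ii k) (jj a k) = six J := by
  unfold six
  simp only [Fin.sum_univ_six, Fin.prod_univ_six]
  have s0 : sg 0 = 1 := rfl
  have s1 : sg 1 = -1 := rfl
  have s2 : sg 2 = -1 := rfl
  have s3 : sg 3 = 1 := rfl
  have s4 : sg 4 = 1 := rfl
  have s5 : sg 5 = -1 := rfl
  rw [s0, s1, s2, s3, s4, s5, h1, h2]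
  have i0 : ii 0 = 0 := rfl
  have i1 : ii 1 = 0 := rfl
  have i2 : ii 2 = 1 := rfl
  have i3 : ii 3 = 1 := rfl
  have i4 : ii 4 = 2 := rfl
  have i5 : ii 5 = 2 := rfl
  rw [i0, i1, i2, i3, i4, i5]
  have j00 : jj 0 0 = 1 := rfl
  have j01 : jj 0 1 = 2 := rfl
  have j02 : jj 0 2 = 0 := rfl
  have j03 : jj 0 3 = 2 := rfl
  have j04 : jj 0 4 = 0 := rfl
  have j05 : jj 0 5 = 1 := rfl
  have j10 : jj 1 0 = 1 := rfl
  have j11 : jj 1 1 = 2 := rfl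
  have j12 : jj 1 2 = 0 := rfl
  have j13 : jj 1 3 = 1 := rfl
  have j14 : jj 1 4 = 0 := rfl
  have j15 : jj 1 5 = 2 := rfl
  have j20 : jj 2 0 = 0 := rfl
  have j21 : jj 2 1 = 2 := rfl
  have j22 : jj 2 2 = 1 := rfl
  have j23 : jj 2 3 = 2 := rfl
  have j24 : jj 2 4 = 0 := rfl
  have j25 : jj 2 5 = 1 := rfl
  have j30 : jj 3 0 = 0 := rfl
  have j31 : jj 3 1 = 2 := rfl
  have j32 : jj 3 2 = 0 := rfl
  have j33 : jj 3 3 = 1 := rfl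
  have j34 : jj 3 4 = 1 := rfl
  have j35 : jj 3 5 = 2 := rfl
  have j40 : jj 4 0 = 0 := rfl
  have j41 : jj 4 1 = 1 := rfl
  have j42 : jj 4 2 = 1 := rfl
  have j43 : jj 4 3 = 2 := rfl
  have j44 : jj 4 4 = 0 := rfl
  have j45 : jj 4 5 = 2 := rfl
  have j50 : jj 5 0 = 0 := rfl
  have j51 : jj 5 1 = 1 := rfl
  have j52 : jj 5 2 = 0 := rfl
  have j53 : jj 5 3 = 2 := rfl
  have j54 : jj 5 4 = 1 := rfl
  have j55 : jj 5 5 = 2 := rfl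
  rw [j00, j01, j02, j03, j04, j05, j10, j11, j12, j13, j14, j15, j20, j21, j22, j23, j24, j25,
    j30, j31, j32, j33, j34, j35, j40, j41, j42, j43, j44, j45, j50, j51, j52, j53, j54, j55]
  ring

/-- generating series at a pair of points -/
noncomputable def J (T : HH →L[ℂ] HH) (u v : ℂ) : PowerSeries ℂ := JS T (kz u) (kz v)

/-- the determinant relation for the generating series -/
lemma WSys.rel (h : WSys ψ φ T) (u v : Fin 3 → ℂ) (hu : ∀ i, ‖u i‖ < 1) (hv : ∀ i, ‖v i‖ < 1) :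
    six (fun i j => J T (u i) (v j)) = 0 := by
  have h1 := transferPS T h.normal 6 (Finset.univ : Finset (Fin 6)) sg
    (fun a k => kz (v (jj a k))) (fun a k => kz (u (ii k))) (by
      intro n
      have h2 := sum_six (fun i j => ⟪kz (u i), ((star T * T) ^ n) (kz (v j))⟫_ℂ) (fun c => c) rfl rfl
      rw [h2]
      have h3 : (fun i j => ⟪kz (u i), ((star T * T) ^ n) (kz (v j))⟫_ℂ)
          = fun i j => cyc ψ φ n (u i) * (starRingEnd ℂ) (cyc ψ φ n (v j))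
            / (1 - φ^[n] (u i) * (starRingEnd ℂ) (φ^[n] (v j))) := by
        ext i j
        exact h.L n (u i) (v j) (hu i) (hv j)
      rw [h3]
      apply six_cauchy (fun i => cyc ψ φ n (u i)) (fun j => (starRingEnd ℂ) (cyc ψ φ n (v j)))
        (fun i => φ^[n] (u i)) (fun j => (starRingEnd ℂ) (φ^[n] (v j)))
      intro i j
      exact one_sub_ne' (iter_lt h.hm n _ (hu i)) (iter_lt h.hm n _ (hv j)))
  rw [← sum_six (fun i j => J T (u i) (v j)) (fun c => PowerSeries.C c) (by simp) (by simp)]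
  exact h1

lemma det_of_six {R : Type} [CommRing R] (J M : Fin 3 → Fin 3 → R)
    (h : ∀ i j, J i j * M i j = 1) (hP : six J = 0) :
    M 0 0 * (M 1 1 * M 2 2 - M 1 2 * M 2 1) - M 0 1 * (M 1 0 * M 2 2 - M 1 2 * M 2 0)
      + M 0 2 * (M 1 0 * M 2 1 - M 1 1 * M 2 0) = 0 := by
  have e : ∀ a b c d e' f x : R, ∀ a' b' c' d' e'' f' : R, a * a' = 1 → b * b' = 1 → c * c' = 1 →
      d * d' = 1 → e' * e'' = 1 → f * f' = 1 →
      (a * b * c * d * e' * f) * (x * (a' * b' * c' * d' * e'' * f')) = x := by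
    intro a b c d e' f x a' b' c' d' e'' f' h1 h2 h3 h4 h5 h6
    calc (a * b * c * d * e' * f) * (x * (a' * b' * c' * d' * e'' * f'))
        = (a * a') * (b * b') * (c * c') * (d * d') * (e' * e'') * (f * f') * x := by ring
      _ = x := by rw [h1, h2, h3, h4, h5, h6]; ring
  set Pi := M 0 0 * M 0 1 * M 0 2 * M 1 0 * M 1 1 * M 1 2 * M 2 0 * M 2 1 * M 2 2 with hPi
  have t1 := e (J 0 1) (J 0 2) (J 1 0) (J 1 2) (J 2 0) (J 2 1) (M 0 0 * M 1 1 * M 2 2)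
    (M 0 1) (M 0 2) (M 1 0) (M 1 2) (M 2 0) (M 2 1) (h _ _) (h _ _) (h _ _) (h _ _) (h _ _) (h _ _)
  have t2 := e (J 0 1) (J 0 2) (J 1 0) (J 1 1) (J 2 0) (J 2 2) (M 0 0 * M 1 2 * M 2 1)
    (M 0 1) (M 0 2) (M 1 0) (M 1 1) (M 2 0) (M 2 2) (h _ _) (h _ _) (h _ _) (h _ _) (h _ _) (h _ _)
  have t3 := e (J 0 0) (J 0 2) (J 1 1) (J 1 2) (J 2 0) (J 2 1) (M 0 1 * M 1 0 * M 2 2)
    (M 0 0) (M 0 2) (M 1 1) (M 1 2) (M 2 0) (M 2 1) (h _ _) (h _ _) (h _ _) (h _ _) (h _ _) (h _ _)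
  have t4 := e (J 0 0) (J 0 2) (J 1 0) (J 1 1) (J 2 1) (J 2 2) (M 0 1 * M 1 2 * M 2 0)
    (M 0 0) (M 0 2) (M 1 0) (M 1 1) (M 2 1) (M 2 2) (h _ _) (h _ _) (h _ _) (h _ _) (h _ _) (h _ _)
  have t5 := e (J 0 0) (J 0 1) (J 1 1) (J 1 2) (J 2 0) (J 2 2) (M 0 2 * M 1 0 * M 2 1)
    (M 0 0) (M 0 1) (M 1 1) (M 1 2) (M 2 0) (M 2 2) (h _ _) (h _ _) (h _ _) (h _ _) (h _ _) (h _ _)
  have t6 := e (J 0 0) (J 0 1) (J 1 0) (J 1 2) (J 2 1) (J 2 2) (M 0 2 * M 1 1 * M 2 0)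
    (M 0 0) (M 0 1) (M 1 0) (M 1 2) (M 2 1) (M 2 2) (h _ _) (h _ _) (h _ _) (h _ _) (h _ _) (h _ _)
  have hfin : six J * Pi = M 0 0 * (M 1 1 * M 2 2 - M 1 2 * M 2 1)
      - M 0 1 * (M 1 0 * M 2 2 - M 1 2 * M 2 0) + M 0 2 * (M 1 0 * M 2 1 - M 1 1 * M 2 0) := by
    unfold six
    rw [hPi]
    linear_combination t1 - t2 - t3 + t4 + t5 - t6
  rw [← hfin, hP, zero_mul]

end

end Pool.Agent.Helper76.NW
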