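import Pool.Agent.Helper76.NW2

set_option autoImplicit false
open Complex Filter Topology Metric
open scoped InnerProductSpace

namespace Pool.Agent.Helper76.NW
open Pool.Agent.Helper76.Hardy Pool.Agent.Helper76.Pick Pool.Agent.Helper76.Wco
open Pool.Agent.Helper76.NormalHP

section
variable {ψ φ : ℂ → ℂ} {T : HH →L[ℂ] HH}

/-- points of the disc where the weight does not vanish -/
def DD (ψ : ℂ → ℂ) : Set ℂ := {z : ℂ | ‖z‖ < 1 ∧ ψ z ≠ 0}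

lemma WSys.isOpen_DD (h : WSys ψ φ T) : IsOpen (DD ψ) := by
  have h1 := h.hψ.continuousOn.isOpen_inter_preimage isOpen_ball (isOpen_compl_singleton (x := (0 : ℂ)))
  convert h1 using 1
  ext z
  simp [DD]

lemma WSys.nonempty_DD (h : WSys ψ φ T) : (DD ψ).Nonempty := by
  obtain ⟨z, hz, hz'⟩ := h.hne
  exact ⟨z, hz, hz'⟩

lemma WSys.isOpen_image (h : WSys ψ φ T) (s : Set ℂ) (hs : s ⊆ ball (0 : ℂ) 1) (ho : IsOpen s) :
    IsOpen (φ '' s) := by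
  have hφ : AnalyticOnNhd ℂ φ (ball (0 : ℂ) 1) := h.hφ.analyticOnNhd isOpen_ball
  rcases hφ.is_constant_or_isOpen (convex_ball _ _).isPreconnected with ⟨c, hc⟩ | hop
  · exfalso
    have h0 : ‖(0 : ℂ)‖ < 1 := by simp
    have hc1 : ‖c‖ < 1 := by
      rw [← hc 0 (by simp)]
      exact h.hm 0 h0
    exact h.hfix c hc1 (hc c (by simpa using hc1))
  · exact hop s hs ho

lemma DD_sub : DD ψ ⊆ ball (0 : ℂ) 1 := by
  intro z hz
  simpa using hz.1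

lemma WSys.three (h : WSys ψ φ T) : ∃ t : Fin 3 → ℂ, (∀ i, t i ∈ DD ψ) ∧ φ (t 0) ≠ φ (t 1) ∧
    φ (t 0) ≠ φ (t 2) ∧ φ (t 1) ≠ φ (t 2) := by
  obtain ⟨z0, hz0⟩ := h.nonempty_DD
  have ho := h.isOpen_image (DD ψ) DD_sub h.isOpen_DD
  obtain ⟨ε, hε, hb⟩ := Metric.isOpen_iff.mp ho (φ z0) ⟨z0, hz0, rfl⟩
  have h1 : φ z0 + ((ε / 2 : ℝ) : ℂ) ∈ φ '' DD ψ := by
    apply hb
    rw [mem_ball_iff_norm, add_sub_cancel_left, Complex.norm_real, Real.norm_eq_abs,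
      abs_of_pos (by positivity)]
    linarith
  have h2 : φ z0 + ((ε / 3 : ℝ) : ℂ) ∈ φ '' DD ψ := by
    apply hb
    rw [mem_ball_iff_norm, add_sub_cancel_left, Complex.norm_real, Real.norm_eq_abs,
      abs_of_pos (by positivity)]
    linarith
  obtain ⟨z1, hz1, e1⟩ := h1
  obtain ⟨z2, hz2, e2⟩ := h2
  refine ⟨![z0, z1, z2], ?_, ?_, ?_, ?_⟩
  · intro i
    fin_cases i
    exacts [hz0, hz1, hz2]
  · change φ z0 ≠ φ z1
    rw [e1]
    intro h0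
    have h3 : ((ε / 2 : ℝ) : ℂ) = 0 := by linear_combination -h0
    have h4 : ε / 2 = 0 := by exact_mod_cast h3
    linarith
  · change φ z0 ≠ φ z2
    rw [e2]
    intro h0
    have h3 : ((ε / 3 : ℝ) : ℂ) = 0 := by linear_combination -h0
    have h4 : ε / 3 = 0 := by exact_mod_cast h3
    linarith
  · change φ z1 ≠ φ z2
    rw [e1, e2]
    intro h0
    have h3 : ((ε / 2 : ℝ) : ℂ) - ((ε / 3 : ℝ) : ℂ) = 0 := by linear_combination h0
    have h4 : ε / 2 - ε / 3 = 0 := by exact_mod_cast h3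
    linarith

lemma fc_ec0 (T : HH →L[ℂ] HH) (hT : IsStarNormal T) : fc T (ec 0) = star T * T := by
  rw [← fc_id T hT]
  unfold fc
  congr 1
  ext z
  simp only [ec, er]
  simp

lemma coeff_J (T : HH →L[ℂ] HH) (u v : ℂ) (k : ℕ) :
    PowerSeries.coeff k (J T u v) = ⟪kz u, fc T (ec k) (kz v)⟫_ℂ := by
  simp [J, JS]

lemma WSys.coeff_J0 (h : WSys ψ φ T) (u v : ℂ) (hu : ‖u‖ < 1) (hv : ‖v‖ < 1) :
    PowerSeries.coeff 0 (J T u v) = ψ u * (starRingEnd ℂ) (ψ v)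
        / (1 - φ u * (starRingEnd ℂ) (φ v)) := by
  rw [coeff_J, fc_ec0 T h.normal]
  have := h.L 1 u v hu hv
  simpa [cyc] using this

/-- reciprocal of the generating series -/
noncomputable def Mv (T : HH →L[ℂ] HH) (u v : ℂ) : PowerSeries ℂ := (J T u v)⁻¹

lemma WSys.J_ne (h : WSys ψ φ T) (u v : ℂ) (hu : u ∈ DD ψ) (hv : v ∈ DD ψ) :
    PowerSeries.constantCoeff (J T u v) ≠ 0 := by
  rw [← PowerSeries.coeff_zero_eq_constantCoeff_apply, h.coeff_J0 u v hu.1 hv.1]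
  apply div_ne_zero
  · apply mul_ne_zero hu.2
    rw [Ne, map_eq_zero]
    exact hv.2
  · exact one_sub_ne' (h.hm u hu.1) (h.hm v hv.1)

lemma WSys.JM (h : WSys ψ φ T) (u v : ℂ) (hu : u ∈ DD ψ) (hv : v ∈ DD ψ) :
    J T u v * Mv T u v = 1 := PowerSeries.mul_inv_cancel _ (h.J_ne u v hu hv)

lemma c0 (A B : PowerSeries ℂ) : PowerSeries.coeff 0 (A * B)
    = PowerSeries.coeff 0 A * PowerSeries.coeff 0 B := by
  rw [PowerSeries.coeff_mul]
  simp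

lemma c1 (A B : PowerSeries ℂ) : PowerSeries.coeff 1 (A * B)
    = PowerSeries.coeff 0 A * PowerSeries.coeff 1 B
      + PowerSeries.coeff 1 A * PowerSeries.coeff 0 B := by
  rw [PowerSeries.coeff_mul, Finset.Nat.antidiagonal_succ]
  simp

lemma c2 (A B : PowerSeries ℂ) : PowerSeries.coeff 2 (A * B)
    = PowerSeries.coeff 0 A * PowerSeries.coeff 2 B
      + PowerSeries.coeff 1 A * PowerSeries.coeff 1 B
      + PowerSeries.coeff 2 A * PowerSeries.coeff 0 B := by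
  rw [PowerSeries.coeff_mul, Finset.Nat.sum_antidiagonal_succ, Finset.Nat.sum_antidiagonal_succ]
  simp
  ring

/-- coefficients of the reciprocal -/
noncomputable def mk' (T : HH →L[ℂ] HH) (k : ℕ) (u v : ℂ) : ℂ := PowerSeries.coeff k (Mv T u v)

lemma WSys.m0 (h : WSys ψ φ T) (u v : ℂ) (hu : u ∈ DD ψ) (hv : v ∈ DD ψ) :
    mk' T 0 u v * (ψ u * (starRingEnd ℂ) (ψ v)) = 1 - φ u * (starRingEnd ℂ) (φ v) := by
  have h1 := congrArg (PowerSeries.coeff 0) (h.JM u v hu hv)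
  rw [c0, h.coeff_J0 u v hu.1 hv.1] at h1
  have h2 : PowerSeries.coeff 0 (1 : PowerSeries ℂ) = 1 := by simp
  rw [h2] at h1
  have hne := one_sub_ne' (h.hm u hu.1) (h.hm v hv.1)
  unfold mk'
  field_simp at h1
  linear_combination h1

lemma WSys.rank (h : WSys ψ φ T) (t1 t2 : ℂ) (ht1 : t1 ∈ DD ψ) (ht2 : t2 ∈ DD ψ)
    (hne : φ t1 ≠ φ t2) : ∃ β1 β2 : ℂ → PowerSeries ℂ, ∀ u v : ℂ, u ∈ DD ψ → v ∈ DD ψ →
      Mv T u v = Mv T u t1 * β1 v + Mv T u t2 * β2 v := by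
  set Δ : PowerSeries ℂ := Mv T t1 t1 * Mv T t2 t2 - Mv T t1 t2 * Mv T t2 t1 with hΔ
  have hψ1 : ψ t1 ≠ 0 := ht1.2
  have hψ2 : ψ t2 ≠ 0 := ht2.2
  have hψ1' : (starRingEnd ℂ) (ψ t1) ≠ 0 := by rw [Ne, map_eq_zero]; exact hψ1
  have hψ2' : (starRingEnd ℂ) (ψ t2) ≠ 0 := by rw [Ne, map_eq_zero]; exact hψ2
  have hΔ0 : PowerSeries.constantCoeff Δ ≠ 0 := by
    rw [← PowerSeries.coeff_zero_eq_constantCoeff_apply, hΔ, map_sub, c0, c0]
    have e11 := h.m0 t1 t1 ht1 ht1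
    have e12 := h.m0 t1 t2 ht1 ht2
    have e21 := h.m0 t2 t1 ht2 ht1
    have e22 := h.m0 t2 t2 ht2 ht2
    unfold mk' at e11 e12 e21 e22
    intro h0
    have h1 : (φ t1 - φ t2) * ((starRingEnd ℂ) (φ t1) - (starRingEnd ℂ) (φ t2)) = 0 := by
      have h2 : (φ t1 - φ t2) * ((starRingEnd ℂ) (φ t1) - (starRingEnd ℂ) (φ t2))
          = (1 - φ t1 * (starRingEnd ℂ) (φ t2)) * (1 - φ t2 * (starRingEnd ℂ) (φ t1))
            - (1 - φ t1 * (starRingEnd ℂ) (φ t1)) * (1 - φ t2 * (starRingEnd ℂ) (φ t2)) := by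
        ring
      rw [h2, ← e11, ← e12, ← e21, ← e22]
      linear_combination (-(ψ t1 * (starRingEnd ℂ) (ψ t1) * (ψ t2 * (starRingEnd ℂ) (ψ t2)))) * h0
    rcases mul_eq_zero.mp h1 with h3 | h3
    · exact hne (sub_eq_zero.mp h3)
    · rw [← map_sub, map_eq_zero] at h3
      exact hne (sub_eq_zero.mp h3)
  have hΔinv : Δ * Δ⁻¹ = 1 := PowerSeries.mul_inv_cancel _ hΔ0
  refine ⟨fun v => Δ⁻¹ * (Mv T t1 v * Mv T t2 t2 - Mv T t1 t2 * Mv T t2 v),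
    fun v => Δ⁻¹ * (Mv T t1 t1 * Mv T t2 v - Mv T t1 v * Mv T t2 t1), ?_⟩
  intro u v hu hv
  have hmem : ∀ w : ℂ, w ∈ DD ψ → ∀ i, (![w, t1, t2] : Fin 3 → ℂ) i ∈ DD ψ := by
    intro w hw i
    fin_cases i
    exacts [hw, ht1, ht2]
  have h1 := h.rel ![u, t1, t2] ![v, t1, t2] (fun i => (hmem u hu i).1) (fun i => (hmem v hv i).1)
  have h2 := det_of_six (fun i j => J T ((![u, t1, t2] : Fin 3 → ℂ) i) ((![v, t1, t2] : Fin 3 → ℂ) j))
    (fun i j => Mv T ((![u, t1, t2] : Fin 3 → ℂ) i) ((![v, t1, t2] : Fin 3 → ℂ) j))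
    (fun i j => h.JM _ _ (hmem u hu i) (hmem v hv j)) h1
  have h3 : Mv T u v * (Mv T t1 t1 * Mv T t2 t2 - Mv T t1 t2 * Mv T t2 t1)
      - Mv T u t1 * (Mv T t1 v * Mv T t2 t2 - Mv T t1 t2 * Mv T t2 v)
      + Mv T u t2 * (Mv T t1 v * Mv T t2 t1 - Mv T t1 t1 * Mv T t2 v) = 0 := h2
  rw [← hΔ] at h3
  calc Mv T u v = Mv T u v * (Δ * Δ⁻¹) := by rw [hΔinv, mul_one]
    _ = Mv T u t1 * (Δ⁻¹ * (Mv T t1 v * Mv T t2 t2 - Mv T t1 t2 * Mv T t2 v))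
      + Mv T u t2 * (Δ⁻¹ * (Mv T t1 t1 * Mv T t2 v - Mv T t1 v * Mv T t2 t1)) := by
        linear_combination Δ⁻¹ * h3

/-- first form of the structure of the reciprocal coefficients -/
lemma WSys.exists_rs (h : WSys ψ φ T) : ∃ r0 r1 s0 s1 t0 t1 τ0 τ1 : ℂ → ℂ,
    ∀ u v : ℂ, u ∈ DD ψ → v ∈ DD ψ →
      ψ u * (starRingEnd ℂ) (ψ v) * mk' T 1 u v
        = r0 u + r1 u * (starRingEnd ℂ) (φ v) + s0 v + φ u * s1 v ∧
      ψ u * (starRingEnd ℂ) (ψ v) * mk' T 2 u v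
        = r0 u * s0 v - r1 u * s1 v
          + (t0 u + t1 u * (starRingEnd ℂ) (φ v) + τ0 v + φ u * τ1 v) := by
  obtain ⟨t, ht, h01, -, -⟩ := h.three
  obtain ⟨β1, β2, hβ⟩ := h.rank (t 0) (t 1) (ht 0) (ht 1) h01
  set y1 := (starRingEnd ℂ) (φ (t 0)) with hy1
  set y2 := (starRingEnd ℂ) (φ (t 1)) with hy2
  have hy : y1 - y2 ≠ 0 := by
    rw [hy1, hy2, ← map_sub, Ne, map_eq_zero]
    exact sub_ne_zero.mpr h01
  set b1 := (starRingEnd ℂ) (ψ (t 0)) with hb1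
  set b2 := (starRingEnd ℂ) (ψ (t 1)) with hb2
  have hb1n : b1 ≠ 0 := by rw [hb1, Ne, map_eq_zero]; exact (ht 0).2
  have hb2n : b2 ≠ 0 := by rw [hb2, Ne, map_eq_zero]; exact (ht 1).2
  set cf1 : ℂ → ℂ := fun u => ψ u * mk' T 1 u (t 0) * b1 with hcf1
  set cf2 : ℂ → ℂ := fun u => ψ u * mk' T 1 u (t 1) * b2 with hcf2
  set ef1 : ℂ → ℂ := fun u => ψ u * mk' T 2 u (t 0) * b1 with hef1
  set ef2 : ℂ → ℂ := fun u => ψ u * mk' T 2 u (t 1) * b2 with hef2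
  set bf1 : ℂ → ℂ := fun v => (starRingEnd ℂ) (ψ v) * PowerSeries.coeff 1 (β1 v) / b1 with hbf1
  set bf2 : ℂ → ℂ := fun v => (starRingEnd ℂ) (ψ v) * PowerSeries.coeff 1 (β2 v) / b2 with hbf2
  set gf1 : ℂ → ℂ := fun v => (starRingEnd ℂ) (ψ v) * PowerSeries.coeff 2 (β1 v) / b1 with hgf1
  set gf2 : ℂ → ℂ := fun v => (starRingEnd ℂ) (ψ v) * PowerSeries.coeff 2 (β2 v) / b2 with hgf2
  refine ⟨fun u => (-y2 * cf1 u + y1 * cf2 u) / (y1 - y2), fun u => (cf1 u - cf2 u) / (y1 - y2),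
    fun v => bf1 v + bf2 v, fun v => -(y1 * bf1 v + y2 * bf2 v),
    fun u => (-y2 * ef1 u + y1 * ef2 u) / (y1 - y2), fun u => (ef1 u - ef2 u) / (y1 - y2),
    fun v => gf1 v + gf2 v, fun v => -(y1 * gf1 v + y2 * gf2 v), ?_⟩
  intro u v hu hv
  -- zeroth coefficients of the betas
  have hz : ∀ w : ℂ, w ∈ DD ψ → mk' T 0 w v = mk' T 0 w (t 0) * PowerSeries.coeff 0 (β1 v)
      + mk' T 0 w (t 1) * PowerSeries.coeff 0 (β2 v) := by
    intro w hw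
    have := congrArg (PowerSeries.coeff 0) (hβ w v hw hv)
    rw [map_add, c0, c0] at this
    exact this
  set B1 := (starRingEnd ℂ) (ψ v) * PowerSeries.coeff 0 (β1 v) / b1 with hB1
  set B2 := (starRingEnd ℂ) (ψ v) * PowerSeries.coeff 0 (β2 v) / b2 with hB2
  set y := (starRingEnd ℂ) (φ v) with hyv
  have hlin : ∀ w : ℂ, w ∈ DD ψ → 1 - φ w * y = (1 - φ w * y1) * B1 + (1 - φ w * y2) * B2 := by
    intro w hw
    have e0 := h.m0 w v hw hv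
    have e1 := h.m0 w (t 0) hw (ht 0)
    have e2 := h.m0 w (t 1) hw (ht 1)
    rw [hz w hw] at e0
    rw [← e0, ← e1, ← e2, hB1, hB2]
    rw [← hb1, ← hb2]
    field_simp
  have hl1 := hlin (t 0) (ht 0)
  have hl2 := hlin (t 1) (ht 1)
  have hx : φ (t 0) - φ (t 1) ≠ 0 := sub_ne_zero.mpr h01
  have hsumB : y = y1 * B1 + y2 * B2 := by
    have h3 : (φ (t 0) - φ (t 1)) * (y - (y1 * B1 + y2 * B2)) = 0 := by
      linear_combination -hl1 + hl2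
    exact sub_eq_zero.mp ((mul_eq_zero.mp h3).resolve_left hx)
  have hsum1 : B1 + B2 = 1 := by
    linear_combination -hl1 - φ (t 0) * hsumB
  have hB1e : B1 = (y - y2) / (y1 - y2) := by
    rw [eq_div_iff hy]
    linear_combination -hsumB - y2 * hsum1
  have hB2e : B2 = (y1 - y) / (y1 - y2) := by
    rw [eq_div_iff hy]
    linear_combination hsumB + y1 * hsum1
  have e1 := h.m0 u (t 0) hu (ht 0)
  have e2 := h.m0 u (t 1) hu (ht 1)
  rw [← hb1, ← hy1] at e1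
  rw [← hb2, ← hy2] at e2
  have k1 := congrArg (PowerSeries.coeff 1) (hβ u v hu hv)
  have k2 := congrArg (PowerSeries.coeff 2) (hβ u v hu hv)
  rw [map_add, c1, c1] at k1
  rw [map_add, c2, c2] at k2
  constructor
  · have g1 : ψ u * (starRingEnd ℂ) (ψ v) * mk' T 1 u v
        = cf1 u * B1 + cf2 u * B2 + (1 - φ u * y1) * bf1 v + (1 - φ u * y2) * bf2 v := by
      unfold mk'
      rw [k1, ← e1, ← e2]
      simp only [hcf1, hcf2, hbf1, hbf2, hB1, hB2, mk']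
      field_simp
      ring
    rw [g1, hB1e, hB2e]
    field_simp
    ring
  · have g1 : ψ u * (starRingEnd ℂ) (ψ v) * mk' T 2 u v
        = ef1 u * B1 + ef2 u * B2 + cf1 u * bf1 v + cf2 u * bf2 v
          + (1 - φ u * y1) * gf1 v + (1 - φ u * y2) * gf2 v := by
      unfold mk'
      rw [k2, ← e1, ← e2]
      simp only [hcf1, hcf2, hbf1, hbf2, hB1, hB2, mk', hef1, hef2, hgf1, hgf2]
      field_simp
      ring
    rw [g1, hB1e, hB2e]
    field_simp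
    ring

end

end Pool.Agent.Helper76.NW
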