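import Pool.Agent.Helper76.NW3

set_option autoImplicit false
open Complex Filter Topology Metric
open scoped InnerProductSpace

namespace Pool.Agent.Helper76.NW
open Pool.Agent.Helper76.Hardy Pool.Agent.Helper76.Pick Pool.Agent.Helper76.Wco
open Pool.Agent.Helper76.NormalHP

section
variable {ψ φ : ℂ → ℂ} {T : HH →L[ℂ] HH}

lemma herm' (A : HH →L[ℂ] HH) (hA : star A = A) (x y : HH) :
    ⟪x, A y⟫_ℂ = (starRingEnd ℂ) ⟪y, A x⟫_ℂ := by
  rw [inner_conj_symm, ← sinl, hA]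

lemma star_ec (T : HH →L[ℂ] HH) (k : ℕ) : star (fc T (ec k)) = fc T (ec k) :=
  fc_star _ _ (fun _ => Complex.conj_ofReal _)

/-- coefficients of `J` -/
noncomputable def aa (T : HH →L[ℂ] HH) (k : ℕ) (u v : ℂ) : ℂ := ⟪kz u, fc T (ec k) (kz v)⟫_ℂ

lemma aa_herm (k : ℕ) (u v : ℂ) : (starRingEnd ℂ) (aa T k u v) = aa T k v u := by
  unfold aa
  rw [herm' _ (star_ec T k) (kz v) (kz u)]

lemma WSys.aa0 (h : WSys ψ φ T) (u v : ℂ) (hu : ‖u‖ < 1) (hv : ‖v‖ < 1) :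
    aa T 0 u v = ψ u * (starRingEnd ℂ) (ψ v) / (1 - φ u * (starRingEnd ℂ) (φ v)) := by
  rw [← h.coeff_J0 u v hu hv, coeff_J]
  rfl

lemma WSys.rel1 (h : WSys ψ φ T) (u v : ℂ) (hu : u ∈ DD ψ) (hv : v ∈ DD ψ) :
    aa T 0 u v * mk' T 1 u v + aa T 1 u v * mk' T 0 u v = 0 := by
  have h1 := congrArg (PowerSeries.coeff 1) (h.JM u v hu hv)
  rw [c1, coeff_J, coeff_J] at h1
  have h2 : PowerSeries.coeff 1 (1 : PowerSeries ℂ) = 0 := by
    rw [PowerSeries.coeff_one]; simp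
  rw [h2] at h1
  exact h1

lemma WSys.rel2 (h : WSys ψ φ T) (u v : ℂ) (hu : u ∈ DD ψ) (hv : v ∈ DD ψ) :
    aa T 0 u v * mk' T 2 u v + aa T 1 u v * mk' T 1 u v + aa T 2 u v * mk' T 0 u v = 0 := by
  have h1 := congrArg (PowerSeries.coeff 2) (h.JM u v hu hv)
  rw [c2, coeff_J, coeff_J, coeff_J] at h1
  have h2 : PowerSeries.coeff 2 (1 : PowerSeries ℂ) = 0 := by
    rw [PowerSeries.coeff_one]; simp
  rw [h2] at h1
  exact h1

lemma WSys.aa1 (h : WSys ψ φ T) (u v : ℂ) (hu : u ∈ DD ψ) (hv : v ∈ DD ψ) :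
    aa T 1 u v * (1 - φ u * (starRingEnd ℂ) (φ v)) ^ 2
      = -(ψ u * (starRingEnd ℂ) (ψ v)) * (ψ u * (starRingEnd ℂ) (ψ v) * mk' T 1 u v) := by
  have h1 := h.rel1 u v hu hv
  have h0 := h.m0 u v hu hv
  have hne := one_sub_ne' (h.hm u hu.1) (h.hm v hv.1)
  rw [h.aa0 u v hu.1 hv.1] at h1
  set S := 1 - φ u * (starRingEnd ℂ) (φ v) with hS
  set w := ψ u * (starRingEnd ℂ) (ψ v) with hw
  have h2 : w * mk' T 1 u v + aa T 1 u v * mk' T 0 u v * S = 0 := by
    field_simp at h1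
    linear_combination h1
  linear_combination w * h2 - aa T 1 u v * S * h0

lemma WSys.aa2 (h : WSys ψ φ T) (u v : ℂ) (hu : u ∈ DD ψ) (hv : v ∈ DD ψ) :
    aa T 2 u v * (1 - φ u * (starRingEnd ℂ) (φ v)) ^ 3
      = (ψ u * (starRingEnd ℂ) (ψ v)) * ((ψ u * (starRingEnd ℂ) (ψ v) * mk' T 1 u v) ^ 2
        - (1 - φ u * (starRingEnd ℂ) (φ v)) * (ψ u * (starRingEnd ℂ) (ψ v) * mk' T 2 u v)) := by
  have h1 := h.rel2 u v hu hv
  have h0 := h.m0 u v hu hv
  have ha := h.aa1 u v hu hv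
  have hne := one_sub_ne' (h.hm u hu.1) (h.hm v hv.1)
  rw [h.aa0 u v hu.1 hv.1] at h1
  set S := 1 - φ u * (starRingEnd ℂ) (φ v) with hS
  set w := ψ u * (starRingEnd ℂ) (ψ v) with hw
  have h2 : w * mk' T 2 u v + aa T 1 u v * mk' T 1 u v * S + aa T 2 u v * mk' T 0 u v * S = 0 := by
    field_simp at h1
    linear_combination h1
  linear_combination w * S * h2 - aa T 2 u v * S ^ 2 * h0 - w * mk' T 1 u v * ha

lemma WSys.m1_herm (h : WSys ψ φ T) (u v : ℂ) (hu : u ∈ DD ψ) (hv : v ∈ DD ψ) :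
    (starRingEnd ℂ) (ψ u * (starRingEnd ℂ) (ψ v) * mk' T 1 u v)
      = ψ v * (starRingEnd ℂ) (ψ u) * mk' T 1 v u := by
  have h1 := h.aa1 u v hu hv
  have h2 := h.aa1 v u hv hu
  have h3 := congrArg (starRingEnd ℂ) h1
  simp only [map_mul, map_neg, map_pow, map_sub, map_one, Complex.conj_conj, aa_herm] at h3 ⊢
  have hw : ψ v * (starRingEnd ℂ) (ψ u) ≠ 0 := by
    apply mul_ne_zero hv.2
    rw [Ne, map_eq_zero]
    exact hu.2
  have e1 : 1 - (starRingEnd ℂ) (φ u) * φ v = 1 - φ v * (starRingEnd ℂ) (φ u) := by ring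
  rw [e1, h2] at h3
  have h4 : (ψ v * (starRingEnd ℂ) (ψ u)) * ((starRingEnd ℂ) (ψ u) * ψ v * (starRingEnd ℂ) (mk' T 1 u v))
      = (ψ v * (starRingEnd ℂ) (ψ u)) * (ψ v * (starRingEnd ℂ) (ψ u) * mk' T 1 v u) := by
    linear_combination h3
  exact mul_left_cancel₀ hw h4

/-- symmetric form -/
lemma WSys.exists_pq (h : WSys ψ φ T) : ∃ p q t0 t1 τ0 τ1 : ℂ → ℂ,
    ∀ u v : ℂ, u ∈ DD ψ → v ∈ DD ψ →
      ψ u * (starRingEnd ℂ) (ψ v) * mk' T 1 u v
        = p u + (starRingEnd ℂ) (p v) + q u * (starRingEnd ℂ) (φ v)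
          + φ u * (starRingEnd ℂ) (q v) ∧
      ψ u * (starRingEnd ℂ) (ψ v) * mk' T 2 u v
        = p u * (starRingEnd ℂ) (p v) - q u * (starRingEnd ℂ) (q v)
          + (t0 u + t1 u * (starRingEnd ℂ) (φ v) + τ0 v + φ u * τ1 v) := by
  obtain ⟨r0, r1, s0, s1, t0, t1, τ0, τ1, hrs⟩ := h.exists_rs
  obtain ⟨t, ht, h01, -, -⟩ := h.three
  set E0 : ℂ → ℂ := fun u => r0 u - (starRingEnd ℂ) (s0 u) with hE0
  set E1 : ℂ → ℂ := fun u => r1 u - (starRingEnd ℂ) (s1 u) with hE1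
  have hE : ∀ u v : ℂ, u ∈ DD ψ → v ∈ DD ψ → E0 u + (starRingEnd ℂ) (φ v) * E1 u
      = (starRingEnd ℂ) (E0 v) + φ u * (starRingEnd ℂ) (E1 v) := by
    intro u v hu hv
    have h1 := (hrs u v hu hv).1
    have h2 := (hrs v u hv hu).1
    have h3 := h.m1_herm v u hv hu
    rw [h1, h2] at h3
    simp only [hE0, hE1, map_sub, Complex.conj_conj]
    simp only [map_add, map_mul, Complex.conj_conj] at h3
    linear_combination -h3
  set y1 := (starRingEnd ℂ) (φ (t 0)) with hy1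
  set y2 := (starRingEnd ℂ) (φ (t 1)) with hy2
  have hy : y1 - y2 ≠ 0 := by
    rw [hy1, hy2, ← map_sub, Ne, map_eq_zero]
    exact sub_ne_zero.mpr h01
  -- `E1` and `E0` are affine in `φ`
  set k10 := ((starRingEnd ℂ) (E0 (t 0)) - (starRingEnd ℂ) (E0 (t 1))) / (y1 - y2) with hk10
  set k11 := ((starRingEnd ℂ) (E1 (t 0)) - (starRingEnd ℂ) (E1 (t 1))) / (y1 - y2) with hk11
  have hE1a : ∀ u : ℂ, u ∈ DD ψ → E1 u = k10 + k11 * φ u := by
    intro u hu
    have h1 := hE u (t 0) hu (ht 0)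
    have h2 := hE u (t 1) hu (ht 1)
    rw [hk10, hk11]
    field_simp
    linear_combination h1 - h2
  set k00 := (starRingEnd ℂ) (E0 (t 0)) - y1 * k10 with hk00
  set k01 := (starRingEnd ℂ) (E1 (t 0)) - y1 * k11 with hk01
  have hE0a : ∀ u : ℂ, u ∈ DD ψ → E0 u = k00 + k01 * φ u := by
    intro u hu
    have h1 := hE u (t 0) hu (ht 0)
    rw [hE1a u hu] at h1
    rw [hk00, hk01]
    linear_combination h1
  set p : ℂ → ℂ := fun u => (r0 u + (starRingEnd ℂ) (s0 u)) / 2 with hp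
  set q : ℂ → ℂ := fun u => (r1 u + (starRingEnd ℂ) (s1 u)) / 2 with hq
  refine ⟨p, q, fun u => t0 u - (1 / 2) * p u * (starRingEnd ℂ) k00
      - (1 / 4) * (k00 + k01 * φ u) * (starRingEnd ℂ) k00
      + (1 / 2) * q u * (starRingEnd ℂ) k10 + (1 / 4) * (k10 + k11 * φ u) * (starRingEnd ℂ) k10,
    fun u => t1 u - (1 / 2) * p u * (starRingEnd ℂ) k01
      - (1 / 4) * (k00 + k01 * φ u) * (starRingEnd ℂ) k01
      + (1 / 2) * q u * (starRingEnd ℂ) k11 + (1 / 4) * (k10 + k11 * φ u) * (starRingEnd ℂ) k11,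
    fun v => τ0 v + (1 / 2) * k00 * (starRingEnd ℂ) (p v) - (1 / 2) * k10 * (starRingEnd ℂ) (q v),
    fun v => τ1 v + (1 / 2) * k01 * (starRingEnd ℂ) (p v) - (1 / 2) * k11 * (starRingEnd ℂ) (q v), ?_⟩
  intro u v hu hv
  constructor
  · have h1 := (hrs u v hu hv).1
    have h2 := (hrs v u hv hu).1
    have h3 := h.m1_herm v u hv hu
    rw [h2] at h3
    simp only [map_add, map_mul, Complex.conj_conj] at h3
    simp only [hp, hq, map_div₀, map_add, map_ofNat, Complex.conj_conj]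
    linear_combination (1 / 2) * h1 - (1 / 2) * h3
  · have h1 := (hrs u v hu hv).2
    rw [h1]
    have r0e : r0 u = p u + (1 / 2) * (k00 + k01 * φ u) := by
      rw [← hE0a u hu]; simp only [hp, hE0]; ring
    have r1e : r1 u = q u + (1 / 2) * (k10 + k11 * φ u) := by
      rw [← hE1a u hu]; simp only [hq, hE1]; ring
    have s0e : s0 v = (starRingEnd ℂ) (p v) - (1 / 2) * ((starRingEnd ℂ) k00
        + (starRingEnd ℂ) k01 * (starRingEnd ℂ) (φ v)) := by
      have : (starRingEnd ℂ) k00 + (starRingEnd ℂ) k01 * (starRingEnd ℂ) (φ v)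
          = (starRingEnd ℂ) (E0 v) := by rw [hE0a v hv]; simp
      rw [this]
      simp only [hp, hE0, map_div₀, map_add, map_sub, map_ofNat, Complex.conj_conj]
      ring
    have s1e : s1 v = (starRingEnd ℂ) (q v) - (1 / 2) * ((starRingEnd ℂ) k10
        + (starRingEnd ℂ) k11 * (starRingEnd ℂ) (φ v)) := by
      have : (starRingEnd ℂ) k10 + (starRingEnd ℂ) k11 * (starRingEnd ℂ) (φ v)
          = (starRingEnd ℂ) (E1 v) := by rw [hE1a v hv]; simp
      rw [this]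
      simp only [hq, hE1, map_div₀, map_add, map_sub, map_ofNat, Complex.conj_conj]
      ring
    rw [r0e, r1e, s0e, s1e]
    ring

/-! ### the operator `X` -/

/-- the function defining `X` -/
noncomputable def gX (z : ℂ) : ℂ := (starRingEnd ℂ) z * ((Real.log (‖z‖ ^ 2) : ℝ) : ℂ)

lemma cont_gX : Continuous gX := by
  rw [continuous_iff_continuousAt]
  intro z
  by_cases hz : z = 0
  · subst hz
    unfold ContinuousAt
    have h0 : gX 0 = 0 := by simp [gX]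
    rw [h0]
    apply squeeze_zero_norm (a := fun z : ℂ => 2 * |‖z‖ * Real.log ‖z‖|)
    · intro z
      unfold gX
      rw [norm_mul, Complex.norm_conj, Complex.norm_real, abs_mul, Real.norm_eq_abs,
        abs_of_nonneg (norm_nonneg z), Real.log_pow, abs_mul]
      simp
      apply le_of_eq
      ring
    · have h1 : Continuous (fun z : ℂ => 2 * |‖z‖ * Real.log ‖z‖|) :=
        continuous_const.mul (Real.continuous_mul_log.comp continuous_norm).abs
      have h2 := h1.tendsto (0 : ℂ)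
      simpa using h2
  · unfold gX
    have hz' : ‖z‖ ^ 2 ≠ 0 := by positivity
    apply ContinuousAt.mul
    · exact Complex.continuous_conj.continuousAt
    · apply Complex.continuous_ofReal.continuousAt.comp
      exact (continuous_norm.pow 2).continuousAt.log hz'

lemma nsq (z : ℂ) : ((‖z‖ ^ 2 : ℝ) : ℂ) = (starRingEnd ℂ) z * z := by
  rw [Complex.ofReal_pow, ← Complex.conj_mul']

/-- the operator `X` -/
noncomputable def X1 (T : HH →L[ℂ] HH) : HH →L[ℂ] HH := cfc gX T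

lemma WSys.TX (h : WSys ψ φ T) : T * X1 T = fc T (ec 1) := by
  have hT := h.normal
  have h1 : T = cfc (fun z : ℂ => z) T := (cfc_id' ℂ T).symm
  have h2 : T * X1 T = cfc (fun z : ℂ => z) T * cfc gX T := by
    rw [← h1]; rfl
  rw [h2, ← cfc_mul (fun z : ℂ => z) gX T (by fun_prop) cont_gX.continuousOn]
  unfold fc
  congr 1
  ext z
  unfold gX ec er
  rw [abs_of_nonneg (by positivity)]
  simp only [pow_one, Nat.factorial_one, Nat.cast_one, div_one]
  rw [Complex.ofReal_mul, nsq]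
  ring

lemma WSys.XX (h : WSys ψ φ T) : star (X1 T) * X1 T = (2 : ℂ) • fc T (ec 2) := by
  have hT := h.normal
  have h1 : star (X1 T) = cfc (fun z : ℂ => star (gX z)) T := by
    unfold X1
    exact (cfc_star gX T).symm
  have hc : Continuous (fun z : ℂ => star (gX z)) := by
    exact Complex.continuous_conj.comp cont_gX
  rw [h1, X1, ← cfc_mul _ gX T hc.continuousOn cont_gX.continuousOn,
    ← fc_const_mul T 2 (ec 2) (cont_ec 2)]
  unfold fc
  congr 1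
  ext z
  have e1 : star (gX z) = z * ((Real.log (‖z‖ ^ 2) : ℝ) : ℂ) := by
    unfold gX
    change (starRingEnd ℂ) ((starRingEnd ℂ) z * ((Real.log (‖z‖ ^ 2) : ℝ) : ℂ)) = _
    rw [map_mul, Complex.conj_conj, Complex.conj_ofReal]
  rw [e1]
  unfold gX ec er
  beta_reduce
  rw [abs_of_nonneg (sq_nonneg ‖z‖)]
  have e2 : ((‖z‖ ^ 2 * Real.log (‖z‖ ^ 2) ^ 2 / (Nat.factorial 2 : ℝ) : ℝ) : ℂ)
      = ((starRingEnd ℂ) z * z) * ((Real.log (‖z‖ ^ 2) : ℝ) : ℂ) ^ 2 / 2 := by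
    rw [Complex.ofReal_div, Complex.ofReal_mul, nsq, Complex.ofReal_pow]
    simp [Nat.factorial]
  rw [e2]
  ring

lemma WSys.X_comm (h : WSys ψ φ T) : Commute (X1 T) (star T) := by
  have hT := h.normal
  have h1 : star T = cfc (fun z : ℂ => star z) T := (cfc_star_id T).symm
  rw [h1]
  exact cfc_commute_cfc _ _ T

lemma WSys.X_inner (h : WSys ψ φ T) (x y : HH) :
    ⟪X1 T x, X1 T y⟫_ℂ = 2 * ⟪x, fc T (ec 2) y⟫_ℂ := by
  rw [← sinr, ← mul_apply_eq_comp, h.XX, smul_apply, inner_smul_right]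

lemma WSys.X_ev (h : WSys ψ φ T) (u v : ℂ) (hu : ‖u‖ < 1) :
    ψ u * ev (X1 T (kz v)) (φ u) = aa T 1 u v := by
  rw [← h.hT _ u hu, ← inner_kz u hu, ← mul_apply_eq_comp, h.TX]
  rfl

end

end Pool.Agent.Helper76.NW
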