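import Pool.Agent.Helper76.NW4

set_option autoImplicit false
open Complex Filter Topology Metric
open scoped InnerProductSpace

namespace Pool.Agent.Helper76.NW
open Pool.Agent.Helper76.Hardy Pool.Agent.Helper76.Pick Pool.Agent.Helper76.Wco
open Pool.Agent.Helper76.NormalHP

/-! ### the shift -/

/-- shifted sequence -/
def shf (f : ℕ → ℂ) (n : ℕ) : ℂ := Nat.casesOn n 0 (fun m => f m)

lemma shf_zero (f : ℕ → ℂ) : shf f 0 = 0 := rfl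
lemma shf_succ (f : ℕ → ℂ) (n : ℕ) : shf f (n + 1) = f n := rfl

lemma shf_mem (f : HH) : Memℓp (shf f) 2 := by
  apply memℓp_gen
  rw [← summable_nat_add_iff 1]
  simp only [shf_succ]
  exact (lp.memℓp f).summable (by norm_num)

/-- the shift as a linear isometry -/
noncomputable def shI : HH →ₗᵢ[ℂ] HH where
  toFun := fun f => ⟨shf f, shf_mem f⟩
  map_add' := by
    intro f g
    ext n
    rcases n with _ | n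
    · simp [shf]
    · simp [shf]
  map_smul' := by
    intro c f
    ext n
    rcases n with _ | n
    · simp [shf]
    · simp [shf]
  norm_map' := by
    intro f
    have h1 : ‖(⟨shf f, shf_mem f⟩ : HH)‖ ^ 2 = ‖f‖ ^ 2 := by
      rw [norm_sq_eq_tsum, norm_sq_eq_tsum, (summable_sq _).tsum_eq_zero_add]
      simp [shf]
    exact (sq_eq_sq₀ (norm_nonneg _) (norm_nonneg _)).mp h1

/-- the shift -/
noncomputable def Sh : HH →L[ℂ] HH := shI.toContinuousLinearMap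

lemma Sh_zero (f : HH) : Sh f 0 = 0 := rfl
lemma Sh_succ (f : HH) (n : ℕ) : Sh f (n + 1) = f n := rfl

lemma Sh_inner (f g : HH) : ⟪Sh f, Sh g⟫_ℂ = ⟪f, g⟫_ℂ := shI.inner_map_map f g

lemma norm_Sh : ‖Sh‖ ≤ 1 := by
  apply ContinuousLinearMap.opNorm_le_bound _ zero_le_one
  intro f
  rw [one_mul]
  exact (shI.norm_map f).le

lemma ev_add (a b : HH) (z : ℂ) (hz : ‖z‖ < 1) : ev (a + b : HH) z = ev a z + ev b z := by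
  rw [← inner_kz z hz, ← inner_kz z hz, ← inner_kz z hz, inner_add_right]

lemma ev_smul (c : ℂ) (a : HH) (z : ℂ) (hz : ‖z‖ < 1) : ev (c • a : HH) z = c * ev a z := by
  rw [← inner_kz z hz, ← inner_kz z hz, inner_smul_right]

lemma ev_Sh (f : HH) (z : ℂ) (hz : ‖z‖ < 1) : ev (Sh f) z = z * ev f z := by
  unfold ev
  rw [(ev_summable (Sh f) _ (coord_le (Sh f)) z hz).tsum_eq_zero_add, Sh_zero, zero_mul, zero_add,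
    ← tsum_mul_left]
  apply tsum_congr
  intro n
  rw [Sh_succ, pow_succ]
  ring

/-- resolvent of the shift -/
noncomputable def Rs (w : ℂ) : HH →L[ℂ] HH := Ring.inverse (1 - (starRingEnd ℂ) w • Sh)

lemma isUnit_Rs (w : ℂ) (hw : ‖w‖ < 1) : IsUnit (1 - (starRingEnd ℂ) w • Sh) := by
  have h1 : ‖(starRingEnd ℂ) w • Sh‖ < 1 := by
    rw [norm_smul, Complex.norm_conj]
    have := norm_Sh
    nlinarith [norm_nonneg w, norm_nonneg Sh]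
  exact ⟨Units.oneSub _ h1, Units.val_oneSub _ h1⟩

lemma Rs_eq (w : ℂ) (hw : ‖w‖ < 1) (f : HH) : Rs w f = f + (starRingEnd ℂ) w • Sh (Rs w f) := by
  have h1 : (1 - (starRingEnd ℂ) w • Sh) * Rs w = 1 := Ring.mul_inverse_cancel _ (isUnit_Rs w hw)
  have h2 := congrArg (fun L : HH →L[ℂ] HH => L f) h1
  simp only [mul_apply_eq_comp, sub_apply, smul_apply, one_apply_eq_self] at h2
  exact sub_eq_iff_eq_add.mp h2

lemma Rs_unique (w : ℂ) (hw : ‖w‖ < 1) (f g : HH) (h : g - (starRingEnd ℂ) w • Sh g = f) :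
    g = Rs w f := by
  have h1 : Rs w * (1 - (starRingEnd ℂ) w • Sh) = 1 := Ring.inverse_mul_cancel _ (isUnit_Rs w hw)
  have h2 := congrArg (fun L : HH →L[ℂ] HH => L g) h1
  simp only [mul_apply_eq_comp, sub_apply, smul_apply, one_apply_eq_self] at h2
  rw [← h2, h]

lemma Rs_zero (w : ℂ) (hw : ‖w‖ < 1) (f : HH) : Rs w f 0 = f 0 := by
  have h1 := congrArg (fun g : HH => g 0) (Rs_eq w hw f)
  simp only [lp.coeFn_add, lp.coeFn_smul, Pi.add_apply, Pi.smul_apply, Sh_zero, smul_zero,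
    add_zero] at h1
  exact h1

lemma Rs_one (w : ℂ) (hw : ‖w‖ < 1) (f : HH) : Rs w f 1 = f 1 + (starRingEnd ℂ) w * f 0 := by
  have h1 := congrArg (fun g : HH => g 1) (Rs_eq w hw f)
  simp only [lp.coeFn_add, lp.coeFn_smul, Pi.add_apply, Pi.smul_apply] at h1
  have h2 : Sh (Rs w f) 1 = Rs w f 0 := rfl
  rw [h2, Rs_zero w hw, smul_eq_mul] at h1
  exact h1

lemma ev_Rs (w z : ℂ) (hw : ‖w‖ < 1) (hz : ‖z‖ < 1) (f : HH) :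
    ev (Rs w f) z * (1 - z * (starRingEnd ℂ) w) = ev f z := by
  have h1 := congrArg (fun g : HH => ev g z) (Rs_eq w hw f)
  simp only at h1
  rw [ev_add _ _ z hz, ev_smul _ _ z hz, ev_Sh _ z hz] at h1
  linear_combination h1

lemma Z1 (s t : ℂ) (hs : ‖s‖ < 1) (ht : ‖t‖ < 1) (a b : HH) :
    (1 - s * (starRingEnd ℂ) t) * ⟪Rs s a, Rs t b⟫_ℂ
      = ⟪a, Rs t b⟫_ℂ + ⟪Rs s a, b⟫_ℂ - ⟪a, b⟫_ℂ := by
  have ha : a = Rs s a - (starRingEnd ℂ) s • Sh (Rs s a) := eq_sub_of_add_eq (Rs_eq s hs a).symm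
  have hb : b = Rs t b - (starRingEnd ℂ) t • Sh (Rs t b) := eq_sub_of_add_eq (Rs_eq t ht b).symm
  set a' := Rs s a with ha'
  set b' := Rs t b with hb'
  rw [ha, hb]
  simp only [inner_sub_left, inner_sub_right, inner_smul_left, inner_smul_right, Complex.conj_conj,
    Sh_inner]
  ring

lemma Z2 (s t : ℂ) (hs : ‖s‖ < 1) (ht : ‖t‖ < 1) (a b : HH) :
    (1 - s * (starRingEnd ℂ) t) ^ 3 * ⟪Rs s (Rs s a), Rs t (Rs t b)⟫_ℂ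
      = (1 - s * (starRingEnd ℂ) t) * (⟪a, Rs t (Rs t b)⟫_ℂ - ⟪a, Rs t b⟫_ℂ
          + ⟪Rs s (Rs s a), b⟫_ℂ - ⟪Rs s a, b⟫_ℂ)
        + (1 + s * (starRingEnd ℂ) t) * (⟪a, Rs t b⟫_ℂ + ⟪Rs s a, b⟫_ℂ - ⟪a, b⟫_ℂ) := by
  have h1 := Z1 s t hs ht (Rs s a) (Rs t b)
  have h2 := Z1 s t hs ht a (Rs t b)
  have h3 := Z1 s t hs ht (Rs s a) b
  have h4 := Z1 s t hs ht a b
  set S := 1 - s * (starRingEnd ℂ) t with hS
  have hS' : 1 + s * (starRingEnd ℂ) t = 2 - S := by rw [hS]; ring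
  rw [hS']
  linear_combination S ^ 2 * h1 + S * h2 + S * h3 + (2 - S) * h4

/-- basis vectors -/
noncomputable def e0 : HH := lp.single 2 0 (1 : ℂ)
/-- basis vectors -/
noncomputable def e1 : HH := lp.single 2 1 (1 : ℂ)

lemma inner_e0 (f : HH) : ⟪e0, f⟫_ℂ = f 0 := by
  unfold e0
  rw [lp.inner_single_left]
  simp

lemma inner_e1 (f : HH) : ⟪e1, f⟫_ℂ = f 1 := by
  unfold e1
  rw [lp.inner_single_left]
  simp

lemma inner_e0' (f : HH) : ⟪f, e0⟫_ℂ = (starRingEnd ℂ) (f 0) := by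
  rw [← inner_conj_symm, inner_e0]

lemma inner_e1' (f : HH) : ⟪f, e1⟫_ℂ = (starRingEnd ℂ) (f 1) := by
  rw [← inner_conj_symm, inner_e1]

lemma e0_0 : e0 0 = 1 := by simp [e0]
lemma e0_1 : e0 1 = 0 := by simp [e0]
lemma e1_0 : e1 0 = 0 := by simp [e1]
lemma e1_1 : e1 1 = 1 := by simp [e1]

lemma ev_e0 (z : ℂ) : ev e0 z = 1 := ev_single0 1 z
lemma ev_e1 (z : ℂ) : ev e1 z = z := ev_single1 z

/-- Gram identity -/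
lemma gram (P Q : HH) (s t : ℂ) (hs : ‖s‖ < 1) (ht : ‖t‖ < 1) (p1 q1 p2 q2 x y : ℂ) (hx : x = s)
    (hy : y = (starRingEnd ℂ) t) :
    (1 - x * y) ^ 3 * ⟪Rs s (Rs s (P + (starRingEnd ℂ) x • Q + (starRingEnd ℂ) p1 • e0
        + (starRingEnd ℂ) q1 • e1)), Rs t (Rs t (P + y • Q + p2 • e0 + q2 • e1))⟫_ℂ
      = ((1 + x * y) * (p1 * p2 + q1 * q2) + 2 * x * p1 * q2 + 2 * y * q1 * p2)
      + ((⟪Rs s (Rs s P), P⟫_ℂ - ⟪P, P⟫_ℂ + p1 * ⟪Rs s (Rs s e0), P⟫_ℂ + q1 * ⟪Rs s (Rs s e1), P⟫_ℂ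
          + x * (⟪Rs s (Rs s Q), P⟫_ℂ - ⟪Q, P⟫_ℂ))
        + (x * (2 * ⟪Rs s P, P⟫_ℂ - ⟪Rs s (Rs s P), P⟫_ℂ - ⟪P, P⟫_ℂ)
          + (⟪Rs s (Rs s P), Q⟫_ℂ - ⟪P, Q⟫_ℂ)
          + x ^ 2 * (2 * ⟪Rs s Q, P⟫_ℂ - ⟪Rs s (Rs s Q), P⟫_ℂ - ⟪Q, P⟫_ℂ)
          + x * (⟪Rs s (Rs s Q), Q⟫_ℂ - ⟪Q, Q⟫_ℂ)
          + p1 * x * (2 * ⟪Rs s e0, P⟫_ℂ - ⟪Rs s (Rs s e0), P⟫_ℂ) + p1 * ⟪Rs s (Rs s e0), Q⟫_ℂ
          + q1 * x * (2 * ⟪Rs s e1, P⟫_ℂ - ⟪Rs s (Rs s e1), P⟫_ℂ) + 2 * q1 * P 0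
          + q1 * ⟪Rs s (Rs s e1), Q⟫_ℂ) * y
        + (x * (2 * ⟪Rs s P, Q⟫_ℂ - ⟪Rs s (Rs s P), Q⟫_ℂ - ⟪P, Q⟫_ℂ)
          + x ^ 2 * (2 * ⟪Rs s Q, Q⟫_ℂ - ⟪Rs s (Rs s Q), Q⟫_ℂ - ⟪Q, Q⟫_ℂ)
          + p1 * x * (2 * ⟪Rs s e0, Q⟫_ℂ - ⟪Rs s (Rs s e0), Q⟫_ℂ)
          + q1 * x * (2 * ⟪Rs s e1, Q⟫_ℂ - ⟪Rs s (Rs s e1), Q⟫_ℂ) + 2 * q1 * Q 0) * y ^ 2)
      + ((⟪P, Rs t (Rs t P)⟫_ℂ + y * ⟪P, Rs t (Rs t Q)⟫_ℂ + p2 * ⟪P, Rs t (Rs t e0)⟫_ℂ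
          + q2 * ⟪P, Rs t (Rs t e1)⟫_ℂ)
        + x * (y * (2 * ⟪P, Rs t P⟫_ℂ - ⟪P, Rs t (Rs t P)⟫_ℂ)
          + y ^ 2 * (2 * ⟪P, Rs t Q⟫_ℂ - ⟪P, Rs t (Rs t Q)⟫_ℂ)
          + ⟪Q, Rs t (Rs t P)⟫_ℂ + y * ⟪Q, Rs t (Rs t Q)⟫_ℂ
          + p2 * y * (2 * ⟪P, Rs t e0⟫_ℂ - ⟪P, Rs t (Rs t e0)⟫_ℂ)
          + q2 * y * (2 * ⟪P, Rs t e1⟫_ℂ - ⟪P, Rs t (Rs t e1)⟫_ℂ)
          + 2 * q2 * (starRingEnd ℂ) (P 0)
          + p2 * ⟪Q, Rs t (Rs t e0)⟫_ℂ + q2 * ⟪Q, Rs t (Rs t e1)⟫_ℂ)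
        + x ^ 2 * (y * (2 * ⟪Q, Rs t P⟫_ℂ - ⟪Q, Rs t (Rs t P)⟫_ℂ)
          + y ^ 2 * (2 * ⟪Q, Rs t Q⟫_ℂ - ⟪Q, Rs t (Rs t Q)⟫_ℂ)
          + p2 * y * (2 * ⟪Q, Rs t e0⟫_ℂ - ⟪Q, Rs t (Rs t e0)⟫_ℂ)
          + q2 * y * (2 * ⟪Q, Rs t e1⟫_ℂ - ⟪Q, Rs t (Rs t e1)⟫_ℂ)
          + 2 * q2 * (starRingEnd ℂ) (Q 0))) := by
  subst hx hy
  have gPP := Z2 x t hs ht P P
  have gPQ := Z2 x t hs ht P Q
  have gP0 := Z2 x t hs ht P e0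
  have gP1 := Z2 x t hs ht P e1
  have gQP := Z2 x t hs ht Q P
  have gQQ := Z2 x t hs ht Q Q
  have gQ0 := Z2 x t hs ht Q e0
  have gQ1 := Z2 x t hs ht Q e1
  have g0P := Z2 x t hs ht e0 P
  have g0Q := Z2 x t hs ht e0 Q
  have g00 := Z2 x t hs ht e0 e0
  have g01 := Z2 x t hs ht e0 e1
  have g1P := Z2 x t hs ht e1 P
  have g1Q := Z2 x t hs ht e1 Q
  have g10 := Z2 x t hs ht e1 e0
  have g11 := Z2 x t hs ht e1 e1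
  simp only [inner_e0, inner_e0', inner_e1, inner_e1', Rs_zero x hs, Rs_zero t ht, Rs_one x hs,
    Rs_one t ht, e0_0, e0_1, e1_0, e1_1, map_add, map_mul, Complex.conj_conj, map_one,
    map_zero] at gP0 gP1 gQ0 gQ1 g0P g0Q g00 g01 g1P g1Q g10 g11
  simp only [map_add, map_smul, inner_add_left, inner_add_right, inner_smul_left,
    inner_smul_right, Complex.conj_conj]
  linear_combination gPP + (starRingEnd ℂ) t * gPQ + p2 * gP0 + q2 * gP1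
    + x * gQP + x * (starRingEnd ℂ) t * gQQ + x * p2 * gQ0 + x * q2 * gQ1
    + p1 * g0P + p1 * (starRingEnd ℂ) t * g0Q + p1 * p2 * g00 + p1 * q2 * g01
    + q1 * g1P + q1 * (starRingEnd ℂ) t * g1Q + q1 * p2 * g10 + q1 * q2 * g11

end Pool.Agent.Helper76.NW
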