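import Pool.Agent.Helper76.NW5

set_option autoImplicit false
open Complex Filter Topology Metric
open scoped InnerProductSpace

namespace Pool.Agent.Helper76.NW
open Pool.Agent.Helper76.Hardy Pool.Agent.Helper76.Pick Pool.Agent.Helper76.Wco
open Pool.Agent.Helper76.NormalHP

lemma ev_diff (f : HH) : DifferentiableOn ℂ (ev f) (ball (0 : ℂ) 1) := by
  intro z hz
  rw [mem_ball_zero_iff] at hz
  obtain ⟨r, hr1, hr2⟩ := exists_between hz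
  have h0 : 0 ≤ r := (norm_nonneg z).trans hr1.le
  have h1 : DifferentiableOn ℂ (ev f) (ball (0 : ℂ) r) := by
    unfold ev
    apply Complex.differentiableOn_tsum_of_summable_norm (u := fun n : ℕ => ‖f‖ * r ^ n)
    · exact (summable_geometric_of_lt_one h0 hr2).mul_left _
    · intro n
      fun_prop
    · exact isOpen_ball
    · intro n w hw
      rw [mem_ball_zero_iff] at hw
      rw [norm_mul, norm_pow]
      apply mul_le_mul (coord_le f n) (pow_le_pow_left₀ (norm_nonneg _) hw.le n) (by positivity)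
        (norm_nonneg _)
  exact (h1.differentiableAt (isOpen_ball.mem_nhds (by rwa [mem_ball_zero_iff]))).differentiableWithinAt

section
variable {ψ φ : ℂ → ℂ} {T : HH →L[ℂ] HH}

lemma WSys.idl (h : WSys ψ φ T) (F G : ℂ → ℂ) (s : Set ℂ) (hs : s ⊆ ball (0 : ℂ) 1) (ho : IsOpen s)
    (hn : s.Nonempty) (hF : DifferentiableOn ℂ F (ball (0 : ℂ) 1))
    (hG : DifferentiableOn ℂ G (ball (0 : ℂ) 1)) (hFG : ∀ u ∈ s, F (φ u) = G (φ u)) :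
    ∀ z : ℂ, ‖z‖ < 1 → F z = G z := by
  obtain ⟨z0, hz0⟩ := hn
  have h1 : IsOpen (φ '' s) := h.isOpen_image s hs ho
  have h2 : F =ᶠ[𝓝 (φ z0)] G := by
    filter_upwards [h1.mem_nhds ⟨z0, hz0, rfl⟩] with w hw
    obtain ⟨u, hu, rfl⟩ := hw
    exact hFG u hu
  have hz1 : φ z0 ∈ ball (0 : ℂ) 1 := by
    rw [mem_ball_zero_iff]
    exact h.hm z0 (by simpa using hs hz0)
  have h3 := (hF.analyticOnNhd isOpen_ball).eqOn_of_preconnected_of_eventuallyEq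
    (hG.analyticOnNhd isOpen_ball) (convex_ball _ _).isPreconnected hz1 h2
  intro z hz
  exact h3 (by rwa [mem_ball_zero_iff])

lemma WSys.idv (h : WSys ψ φ T) (f g : HH) (hfg : ∀ u ∈ DD ψ, ev f (φ u) = ev g (φ u)) : f = g := by
  have h1 := h.idl (ev f) (ev g) (DD ψ) DD_sub h.isOpen_DD h.nonempty_DD (ev_diff f) (ev_diff g) hfg
  rw [← sub_eq_zero]
  apply ev_inj
  intro z hz
  rw [ev_sub _ _ z hz, h1 z hz, sub_self]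

/-- the structure of the data after step four -/
structure Dt (ψ φ : ℂ → ℂ) (T : HH →L[ℂ] HH) (p q t0 t1 τ0 τ1 : ℂ → ℂ) (P Q : HH) : Prop
    extends WSys ψ φ T where
  m1e : ∀ u v : ℂ, u ∈ DD ψ → v ∈ DD ψ →
      ψ u * (starRingEnd ℂ) (ψ v) * mk' T 1 u v
        = p u + (starRingEnd ℂ) (p v) + q u * (starRingEnd ℂ) (φ v)
          + φ u * (starRingEnd ℂ) (q v)
  m2e : ∀ u v : ℂ, u ∈ DD ψ → v ∈ DD ψ →
      ψ u * (starRingEnd ℂ) (ψ v) * mk' T 2 u v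
        = p u * (starRingEnd ℂ) (p v) - q u * (starRingEnd ℂ) (q v)
          + (t0 u + t1 u * (starRingEnd ℂ) (φ v) + τ0 v + φ u * τ1 v)
  hP : ∀ u : ℂ, u ∈ DD ψ → ev P (φ u) = p u
  hQ : ∀ u : ℂ, u ∈ DD ψ → ev Q (φ u) = q u
  hX : ∀ v : ℂ, v ∈ DD ψ → X1 T (kz v) = (-(starRingEnd ℂ) (ψ v)) • Rs (φ v) (Rs (φ v)
      (P + (starRingEnd ℂ) (φ v) • Q + (starRingEnd ℂ) (p v) • e0 + (starRingEnd ℂ) (q v) • e1))

lemma WSys.exists_Dt (h : WSys ψ φ T) : ∃ (p q t0 t1 τ0 τ1 : ℂ → ℂ) (P Q : HH),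
    Dt ψ φ T p q t0 t1 τ0 τ1 P Q := by
  obtain ⟨p, q, t0, t1, τ0, τ1, hpq⟩ := h.exists_pq
  obtain ⟨t, ht, h01, -, -⟩ := h.three
  set F : ℂ → HH := fun v => (-((starRingEnd ℂ) (ψ v))⁻¹) •
      ((X1 T (kz v) - (starRingEnd ℂ) (φ v) • Sh (X1 T (kz v)))
        - (starRingEnd ℂ) (φ v) • Sh (X1 T (kz v) - (starRingEnd ℂ) (φ v) • Sh (X1 T (kz v))))
      - (starRingEnd ℂ) (p v) • e0 - (starRingEnd ℂ) (q v) • e1 with hF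
  have hFev : ∀ u v : ℂ, u ∈ DD ψ → v ∈ DD ψ →
      ev (F v) (φ u) = p u + q u * (starRingEnd ℂ) (φ v) := by
    intro u v hu hv
    have hφu := h.hm u hu.1
    have hs : ∀ a b : HH, ev (a - b : HH) (φ u) = ev a (φ u) - ev b (φ u) :=
      fun a b => ev_sub a b (φ u) hφu
    have h1 := h.X_ev u v hu.1
    have h2 := h.aa1 u v hu hv
    rw [(hpq u v hu hv).1, ← h1] at h2
    have hψu := hu.2
    have hψv : (starRingEnd ℂ) (ψ v) ≠ 0 := by rw [Ne, map_eq_zero]; exact hv.2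
    have h3 : ev (X1 T (kz v)) (φ u) * (1 - φ u * (starRingEnd ℂ) (φ v)) ^ 2
        = -(starRingEnd ℂ) (ψ v) * (p u + (starRingEnd ℂ) (p v) + q u * (starRingEnd ℂ) (φ v)
          + φ u * (starRingEnd ℂ) (q v)) := by
      have h4 : ψ u * (ev (X1 T (kz v)) (φ u) * (1 - φ u * (starRingEnd ℂ) (φ v)) ^ 2)
        = ψ u * (-(starRingEnd ℂ) (ψ v) * (p u + (starRingEnd ℂ) (p v) + q u * (starRingEnd ℂ) (φ v)
          + φ u * (starRingEnd ℂ) (q v))) := by linear_combination h2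
      exact mul_left_cancel₀ hψu h4
    simp only [hF]
    rw [hs, hs, ev_smul _ _ _ hφu, hs, hs, ev_smul _ _ _ hφu, ev_smul _ _ _ hφu, ev_smul _ _ _ hφu,
      ev_smul _ _ _ hφu, ev_Sh _ _ hφu, ev_Sh _ _ hφu, hs, ev_smul _ _ _ hφu, ev_Sh _ _ hφu,
      ev_e0, ev_e1]
    field_simp
    linear_combination -h3
  have hy : (starRingEnd ℂ) (φ (t 0)) - (starRingEnd ℂ) (φ (t 1)) ≠ 0 := by
    rw [← map_sub, Ne, map_eq_zero]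
    exact sub_ne_zero.mpr h01
  set Q : HH := ((starRingEnd ℂ) (φ (t 0)) - (starRingEnd ℂ) (φ (t 1)))⁻¹ • (F (t 0) - F (t 1)) with hQ
  set P : HH := F (t 0) - (starRingEnd ℂ) (φ (t 0)) • Q with hP
  have hQe : ∀ u : ℂ, u ∈ DD ψ → ev Q (φ u) = q u := by
    intro u hu
    have hφu := h.hm u hu.1
    rw [hQ, ev_smul _ _ _ hφu, ev_sub _ _ _ hφu, hFev u _ hu (ht 0), hFev u _ hu (ht 1)]
    field_simp
    try ring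
  have hPe : ∀ u : ℂ, u ∈ DD ψ → ev P (φ u) = p u := by
    intro u hu
    have hφu := h.hm u hu.1
    rw [hP, ev_sub _ _ _ hφu, ev_smul _ _ _ hφu, hQe u hu, hFev u _ hu (ht 0)]
    ring
  refine ⟨p, q, t0, t1, τ0, τ1, P, Q, h, fun u v hu hv => (hpq u v hu hv).1,
    fun u v hu hv => (hpq u v hu hv).2, hPe, hQe, ?_⟩
  intro v hv
  have hφv := h.hm v hv.1
  have hψv : (starRingEnd ℂ) (ψ v) ≠ 0 := by rw [Ne, map_eq_zero]; exact hv.2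
  have h1 : F v = P + (starRingEnd ℂ) (φ v) • Q := by
    apply h.idv
    intro u hu
    have hφu := h.hm u hu.1
    rw [hFev u v hu hv, ev_add _ _ _ hφu, ev_smul _ _ _ hφu, hPe u hu, hQe u hu]
    ring
  have h2 : (X1 T (kz v) - (starRingEnd ℂ) (φ v) • Sh (X1 T (kz v)))
        - (starRingEnd ℂ) (φ v) • Sh (X1 T (kz v) - (starRingEnd ℂ) (φ v) • Sh (X1 T (kz v)))
      = (-(starRingEnd ℂ) (ψ v)) • (P + (starRingEnd ℂ) (φ v) • Q + (starRingEnd ℂ) (p v) • e0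
        + (starRingEnd ℂ) (q v) • e1) := by
    rw [← h1]
    simp only [hF]
    have e3 : ∀ Y A B : HH, (-((starRingEnd ℂ) (ψ v))⁻¹) • Y - A - B + A + B
        = (-((starRingEnd ℂ) (ψ v))⁻¹) • Y := by
      intro Y A B
      abel
    rw [e3, smul_smul]
    have e4 : -(starRingEnd ℂ) (ψ v) * -((starRingEnd ℂ) (ψ v))⁻¹ = 1 := by
      field_simp
    rw [e4, one_smul]
  have h3 := Rs_unique (φ v) hφv _ _ h2
  have h4 := Rs_unique (φ v) hφv _ _ h3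
  rw [h4, map_smul, map_smul]

/-- functions killed modulo polynomials of degree two -/
def InZ (ψ φ : ℂ → ℂ) (F : ℂ → ℂ → ℂ) : Prop := ∃ U0 U1 U2 V0 V1 V2 : ℂ → ℂ,
  ∀ u v : ℂ, u ∈ DD ψ → v ∈ DD ψ → F u v = (U0 u + U1 u * (starRingEnd ℂ) (φ v)
      + U2 u * (starRingEnd ℂ) (φ v) ^ 2) + (V0 v + φ u * V1 v + φ u ^ 2 * V2 v)

/-- the kernel `K` -/
noncomputable def KK (φ p q : ℂ → ℂ) (u v : ℂ) : ℂ :=
  (1 + φ u * (starRingEnd ℂ) (φ v)) * (p u * (starRingEnd ℂ) (p v) + q u * (starRingEnd ℂ) (q v))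
    + 2 * φ u * p u * (starRingEnd ℂ) (q v) + 2 * (starRingEnd ℂ) (φ v) * q u * (starRingEnd ℂ) (p v)

variable {p q t0 t1 τ0 τ1 : ℂ → ℂ} {P Q : HH}

lemma Dt.K_inZ (h : Dt ψ φ T p q t0 t1 τ0 τ1 P Q) : InZ ψ φ (KK φ p q) := by
  have hs := h.toWSys
  set U0 : ℂ → ℂ := fun u => (⟪Rs (φ u) (Rs (φ u) P), P⟫_ℂ - ⟪P, P⟫_ℂ
          + p u * ⟪Rs (φ u) (Rs (φ u) e0), P⟫_ℂ + q u * ⟪Rs (φ u) (Rs (φ u) e1), P⟫_ℂ
          + φ u * (⟪Rs (φ u) (Rs (φ u) Q), P⟫_ℂ - ⟪Q, P⟫_ℂ)) with hU0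
  set U1 : ℂ → ℂ := fun u => (φ u * (2 * ⟪Rs (φ u) P, P⟫_ℂ - ⟪Rs (φ u) (Rs (φ u) P), P⟫_ℂ - ⟪P, P⟫_ℂ)
          + (⟪Rs (φ u) (Rs (φ u) P), Q⟫_ℂ - ⟪P, Q⟫_ℂ)
          + φ u ^ 2 * (2 * ⟪Rs (φ u) Q, P⟫_ℂ - ⟪Rs (φ u) (Rs (φ u) Q), P⟫_ℂ - ⟪Q, P⟫_ℂ)
          + φ u * (⟪Rs (φ u) (Rs (φ u) Q), Q⟫_ℂ - ⟪Q, Q⟫_ℂ)
          + p u * φ u * (2 * ⟪Rs (φ u) e0, P⟫_ℂ - ⟪Rs (φ u) (Rs (φ u) e0), P⟫_ℂ)
          + p u * ⟪Rs (φ u) (Rs (φ u) e0), Q⟫_ℂ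
          + q u * φ u * (2 * ⟪Rs (φ u) e1, P⟫_ℂ - ⟪Rs (φ u) (Rs (φ u) e1), P⟫_ℂ) + 2 * q u * P 0
          + q u * ⟪Rs (φ u) (Rs (φ u) e1), Q⟫_ℂ) with hU1
  set U2 : ℂ → ℂ := fun u => (φ u * (2 * ⟪Rs (φ u) P, Q⟫_ℂ - ⟪Rs (φ u) (Rs (φ u) P), Q⟫_ℂ - ⟪P, Q⟫_ℂ)
          + φ u ^ 2 * (2 * ⟪Rs (φ u) Q, Q⟫_ℂ - ⟪Rs (φ u) (Rs (φ u) Q), Q⟫_ℂ - ⟪Q, Q⟫_ℂ)
          + p u * φ u * (2 * ⟪Rs (φ u) e0, Q⟫_ℂ - ⟪Rs (φ u) (Rs (φ u) e0), Q⟫_ℂ)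
          + q u * φ u * (2 * ⟪Rs (φ u) e1, Q⟫_ℂ - ⟪Rs (φ u) (Rs (φ u) e1), Q⟫_ℂ)
          + 2 * q u * Q 0) with hU2
  set V0 : ℂ → ℂ := fun v => (⟪P, Rs (φ v) (Rs (φ v) P)⟫_ℂ
          + (starRingEnd ℂ) (φ v) * ⟪P, Rs (φ v) (Rs (φ v) Q)⟫_ℂ
          + (starRingEnd ℂ) (p v) * ⟪P, Rs (φ v) (Rs (φ v) e0)⟫_ℂ
          + (starRingEnd ℂ) (q v) * ⟪P, Rs (φ v) (Rs (φ v) e1)⟫_ℂ) with hV0
  set V1 : ℂ → ℂ := fun v => ((starRingEnd ℂ) (φ v) * (2 * ⟪P, Rs (φ v) P⟫_ℂ - ⟪P, Rs (φ v) (Rs (φ v) P)⟫_ℂ)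
          + (starRingEnd ℂ) (φ v) ^ 2 * (2 * ⟪P, Rs (φ v) Q⟫_ℂ - ⟪P, Rs (φ v) (Rs (φ v) Q)⟫_ℂ)
          + ⟪Q, Rs (φ v) (Rs (φ v) P)⟫_ℂ + (starRingEnd ℂ) (φ v) * ⟪Q, Rs (φ v) (Rs (φ v) Q)⟫_ℂ
          + (starRingEnd ℂ) (p v) * (starRingEnd ℂ) (φ v)
            * (2 * ⟪P, Rs (φ v) e0⟫_ℂ - ⟪P, Rs (φ v) (Rs (φ v) e0)⟫_ℂ)
          + (starRingEnd ℂ) (q v) * (starRingEnd ℂ) (φ v)
            * (2 * ⟪P, Rs (φ v) e1⟫_ℂ - ⟪P, Rs (φ v) (Rs (φ v) e1)⟫_ℂ)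
          + 2 * (starRingEnd ℂ) (q v) * (starRingEnd ℂ) (P 0)
          + (starRingEnd ℂ) (p v) * ⟪Q, Rs (φ v) (Rs (φ v) e0)⟫_ℂ
          + (starRingEnd ℂ) (q v) * ⟪Q, Rs (φ v) (Rs (φ v) e1)⟫_ℂ) with hV1
  set V2 : ℂ → ℂ := fun v => ((starRingEnd ℂ) (φ v) * (2 * ⟪Q, Rs (φ v) P⟫_ℂ - ⟪Q, Rs (φ v) (Rs (φ v) P)⟫_ℂ)
          + (starRingEnd ℂ) (φ v) ^ 2 * (2 * ⟪Q, Rs (φ v) Q⟫_ℂ - ⟪Q, Rs (φ v) (Rs (φ v) Q)⟫_ℂ)
          + (starRingEnd ℂ) (p v) * (starRingEnd ℂ) (φ v)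
            * (2 * ⟪Q, Rs (φ v) e0⟫_ℂ - ⟪Q, Rs (φ v) (Rs (φ v) e0)⟫_ℂ)
          + (starRingEnd ℂ) (q v) * (starRingEnd ℂ) (φ v)
            * (2 * ⟪Q, Rs (φ v) e1⟫_ℂ - ⟪Q, Rs (φ v) (Rs (φ v) e1)⟫_ℂ)
          + 2 * (starRingEnd ℂ) (q v) * (starRingEnd ℂ) (Q 0)) with hV2
  refine ⟨fun u => U0 u - 2 * p u ^ 2 + 2 * t0 u, fun u => U1 u - 4 * p u * q u + 2 * t1 u - 2 * φ u * t0 u,
    fun u => U2 u - 2 * q u ^ 2 - 2 * φ u * t1 u,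
    fun v => V0 v - 2 * (starRingEnd ℂ) (p v) ^ 2 + 2 * τ0 v,
    fun v => V1 v - 4 * (starRingEnd ℂ) (p v) * (starRingEnd ℂ) (q v)
      + 2 * τ1 v - 2 * (starRingEnd ℂ) (φ v) * τ0 v,
    fun v => V2 v - 2 * (starRingEnd ℂ) (q v) ^ 2 - 2 * (starRingEnd ℂ) (φ v) * τ1 v, ?_⟩
  intro u v hu hv
  have hφu := hs.hm u hu.1
  have hφv := hs.hm v hv.1
  have hg := gram P Q (φ u) (φ v) hφu hφv (p u) (q u) ((starRingEnd ℂ) (p v))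
    ((starRingEnd ℂ) (q v)) (φ u) ((starRingEnd ℂ) (φ v)) rfl rfl
  have hx := hs.X_inner (kz u) (kz v)
  rw [h.hX u hu, h.hX v hv, inner_smul_left, inner_smul_right] at hx
  have ha2 := hs.aa2 u v hu hv
  rw [h.m1e u v hu hv, h.m2e u v hu hv] at ha2
  unfold aa at ha2
  rw [map_neg, Complex.conj_conj] at hx
  set G := ⟪Rs (φ u) (Rs (φ u) (P + (starRingEnd ℂ) (φ u) • Q + (starRingEnd ℂ) (p u) • e0
        + (starRingEnd ℂ) (q u) • e1)), Rs (φ v) (Rs (φ v) (P + (starRingEnd ℂ) (φ v) • Q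
        + (starRingEnd ℂ) (p v) • e0 + (starRingEnd ℂ) (q v) • e1))⟫_ℂ with hG
  set A2 := ⟪kz u, (fc T (ec 2)) (kz v)⟫_ℂ with hA2
  have hw : ψ u * (starRingEnd ℂ) (ψ v) ≠ 0 := by
    apply mul_ne_zero hu.2
    rw [Ne, map_eq_zero]
    exact hv.2
  have key : (1 - φ u * (starRingEnd ℂ) (φ v)) ^ 3 * G = 2 * ((p u + (starRingEnd ℂ) (p v)
      + q u * (starRingEnd ℂ) (φ v) + φ u * (starRingEnd ℂ) (q v)) ^ 2
        - (1 - φ u * (starRingEnd ℂ) (φ v)) * (p u * (starRingEnd ℂ) (p v)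
          - q u * (starRingEnd ℂ) (q v)
          + (t0 u + t1 u * (starRingEnd ℂ) (φ v) + τ0 v + φ u * τ1 v))) := by
    have h1 : (ψ u * (starRingEnd ℂ) (ψ v)) * ((1 - φ u * (starRingEnd ℂ) (φ v)) ^ 3 * G)
        = (ψ u * (starRingEnd ℂ) (ψ v)) * (2 * ((p u + (starRingEnd ℂ) (p v)
      + q u * (starRingEnd ℂ) (φ v) + φ u * (starRingEnd ℂ) (q v)) ^ 2
        - (1 - φ u * (starRingEnd ℂ) (φ v)) * (p u * (starRingEnd ℂ) (p v)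
          - q u * (starRingEnd ℂ) (q v)
          + (t0 u + t1 u * (starRingEnd ℂ) (φ v) + τ0 v + φ u * τ1 v)))) := by
      linear_combination (1 - φ u * (starRingEnd ℂ) (φ v)) ^ 3 * hx + 2 * ha2
    exact mul_left_cancel₀ hw h1
  rw [key] at hg
  simp only [KK]
  simp only [hU0, hU1, hU2, hV0, hV1, hV2]
  linear_combination hg

end

end Pool.Agent.Helper76.NW
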