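import Pool.Agent.Helper76.NW6

set_option autoImplicit false
open Complex Filter Topology Metric
open scoped InnerProductSpace

namespace Pool.Agent.Helper76.NW
open Pool.Agent.Helper76.Hardy Pool.Agent.Helper76.Pick Pool.Agent.Helper76.Wco
open Pool.Agent.Helper76.NormalHP

lemma three_sq (x y z : ℂ) (h : 2 * ((starRingEnd ℂ) x * x) + 2 * ((starRingEnd ℂ) y * y)
    + 3 * ((starRingEnd ℂ) z * z) = 0) : x = 0 ∧ y = 0 ∧ z = 0 := by
  rw [Complex.conj_mul', Complex.conj_mul', Complex.conj_mul'] at h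
  have h1 : 2 * ‖x‖ ^ 2 + 2 * ‖y‖ ^ 2 + 3 * ‖z‖ ^ 2 = 0 := by
    exact_mod_cast h
  have hx := sq_nonneg ‖x‖
  have hy := sq_nonneg ‖y‖
  have hz := sq_nonneg ‖z‖
  refine ⟨?_, ?_, ?_⟩
  · have : ‖x‖ ^ 2 = 0 := by linarith
    exact norm_eq_zero.mp (pow_eq_zero_iff (by norm_num) |>.mp this)
  · have : ‖y‖ ^ 2 = 0 := by linarith
    exact norm_eq_zero.mp (pow_eq_zero_iff (by norm_num) |>.mp this)
  · have : ‖z‖ ^ 2 = 0 := by linarith
    exact norm_eq_zero.mp (pow_eq_zero_iff (by norm_num) |>.mp this)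

lemma seq_core (P Q : ℕ → ℂ) (hP : Tendsto P atTop (𝓝 0)) (hQ : Tendsto Q atTop (𝓝 0))
    (hid : ∀ m n : ℕ, (starRingEnd ℂ) (P (n + 3)) * P (m + 3) + (starRingEnd ℂ) (Q (n + 3)) * Q (m + 3)
      + (starRingEnd ℂ) (P (n + 2)) * P (m + 2) + (starRingEnd ℂ) (Q (n + 2)) * Q (m + 2)
      + 2 * (starRingEnd ℂ) (P (n + 2)) * Q (m + 3) + 2 * (starRingEnd ℂ) (Q (n + 3)) * P (m + 2) = 0) :
    ∀ n : ℕ, P (n + 2) = 0 ∧ Q (n + 2) = 0 := by
  set d : ℕ → ℂ := fun m => P (m + 2) - Q (m + 3) with hd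
  set s : ℕ → ℂ := fun m => P (m + 2) + Q (m + 3) with hs
  have hid' : ∀ m n : ℕ, 2 * ((starRingEnd ℂ) (P (n + 3)) * P (m + 3))
      + 2 * ((starRingEnd ℂ) (Q (n + 2)) * Q (m + 2)) + 3 * ((starRingEnd ℂ) (s n) * s m)
      = (starRingEnd ℂ) (d n) * d m := by
    intro m n
    simp only [hs, hd, map_add, map_sub]
    linear_combination 2 * hid m n
  by_cases hz : ∀ m, d m = 0
  · intro n
    have h1 := hid' n n
    rw [hz n, mul_zero] at h1
    obtain ⟨h2, h3, h4⟩ := three_sq _ _ _ h1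
    refine ⟨?_, h3⟩
    have h5 := hz n
    simp only [hs, hd] at h4 h5
    linear_combination (1 / 2) * h4 + (1 / 2) * h5
  · exfalso
    push Not at hz
    obtain ⟨N, hN⟩ := hz
    have hprop : ∀ m : ℕ, d N * P (m + 3) = d m * P (N + 3) ∧ d N * Q (m + 2) = d m * Q (N + 2)
        ∧ d N * s m = d m * s N := by
      intro m
      have h1 : 2 * ((starRingEnd ℂ) (d N * P (m + 3) - d m * P (N + 3)) * (d N * P (m + 3) - d m * P (N + 3)))
        + 2 * ((starRingEnd ℂ) (d N * Q (m + 2) - d m * Q (N + 2)) * (d N * Q (m + 2) - d m * Q (N + 2)))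
        + 3 * ((starRingEnd ℂ) (d N * s m - d m * s N) * (d N * s m - d m * s N)) = 0 := by
        simp only [map_sub, map_mul]
        linear_combination ((starRingEnd ℂ) (d N) * d N) * hid' m m
          - (starRingEnd ℂ) (d N) * d m * hid' N m - (starRingEnd ℂ) (d m) * d N * hid' m N
          + (starRingEnd ℂ) (d m) * d m * hid' N N
      obtain ⟨h2, h3, h4⟩ := three_sq _ _ _ h1
      exact ⟨sub_eq_zero.mp h2, sub_eq_zero.mp h3, sub_eq_zero.mp h4⟩
    set ka := P (N + 3) / d N with hka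
    set kb := Q (N + 2) / d N with hkb
    set kc := s N / d N with hkc
    have ha : ∀ m, P (m + 3) = ka * d m := by
      intro m
      rw [hka]
      field_simp
      linear_combination (hprop m).1
    have hb : ∀ m, Q (m + 2) = kb * d m := by
      intro m
      rw [hkb]
      field_simp
      linear_combination (hprop m).2.1
    have hc : ∀ m, s m = kc * d m := by
      intro m
      rw [hkc]
      field_simp
      linear_combination (hprop m).2.2
    have r1 : ∀ m, (kc + 1) * d (m + 1) = 2 * ka * d m := by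
      intro m
      have h1 := hc (m + 1)
      have h2 := ha m
      have h3 : s (m + 1) + d (m + 1) = 2 * P (m + 3) := by
        simp only [hs, hd]
        rw [show m + 1 + 2 = m + 3 by ring]
        ring
      linear_combination h3 + 2 * h2 - h1
    have r2 : ∀ m, (kc - 1) * d m = 2 * kb * d (m + 1) := by
      intro m
      have h1 := hc m
      have h2 := hb (m + 1)
      have h3 : s m - d m = 2 * Q (m + 1 + 2) := by
        simp only [hs, hd]
        rw [show m + 1 + 2 = m + 3 by ring]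
        ring
      linear_combination h3 + 2 * h2 - h1
    have hnorm : 2 * normSq ka + 2 * normSq kb + 3 * normSq kc = 1 := by
      have h1 := hid' N N
      rw [ha N, hb N, hc N] at h1
      simp only [map_mul] at h1
      have h2 : (starRingEnd ℂ) (d N) * d N ≠ 0 := by
        apply mul_ne_zero _ hN
        rw [Ne, map_eq_zero]
        exact hN
      have h3 : ((starRingEnd ℂ) (d N) * d N) * (2 * (ka * (starRingEnd ℂ) ka)
          + 2 * (kb * (starRingEnd ℂ) kb) + 3 * (kc * (starRingEnd ℂ) kc))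
          = ((starRingEnd ℂ) (d N) * d N) * 1 := by linear_combination h1
      have h4 := mul_left_cancel₀ h2 h3
      rw [Complex.mul_conj, Complex.mul_conj, Complex.mul_conj] at h4
      exact_mod_cast h4
    have pa := normSq_nonneg ka
    have pb := normSq_nonneg kb
    have pc := normSq_nonneg kc
    have hkc1 : kc + 1 ≠ 0 := by
      intro h0
      have : kc = -1 := by linear_combination h0
      rw [this] at hnorm pc
      simp at hnorm
      linarith
    set c0 := 2 * ka / (kc + 1) with hc0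
    have rd : ∀ m, d (m + 1) = c0 * d m := by
      intro m
      rw [hc0]
      field_simp
      linear_combination r1 m
    have q1 : (kc + 1) * c0 = 2 * ka := by
      rw [hc0]
      field_simp
    have q2 : kc - 1 = 2 * kb * c0 := by
      have h1 := r2 N
      rw [rd N] at h1
      have h2 : d N * (kc - 1) = d N * (2 * kb * c0) := by linear_combination h1
      exact mul_left_cancel₀ hN h2
    have n1 : normSq (kc + 1) * normSq c0 = 4 * normSq ka := by
      rw [← map_mul, q1, map_mul]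
      simp
      left
      norm_num [normSq]
    have n2 : normSq (kc - 1) = 4 * normSq kb * normSq c0 := by
      rw [q2, map_mul, map_mul]
      simp
      left; left
      norm_num [normSq]
    set t := normSq c0 with ht
    have ht0 : 0 ≤ t := normSq_nonneg c0
    have e1' : normSq (kc + 1) = (kc.re + 1) ^ 2 + kc.im ^ 2 := by
      rw [normSq_apply]; simp; ring
    have e2' : normSq (kc - 1) = (kc.re - 1) ^ 2 + kc.im ^ 2 := by
      rw [normSq_apply]; simp; ring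
    have e3' : normSq kc = kc.re ^ 2 + kc.im ^ 2 := by
      rw [normSq_apply]; ring
    rw [e1'] at n1
    rw [e2'] at n2
    rw [e3'] at hnorm pc
    set x := kc.re
    set y := kc.im
    have key : (t * (1 + x) - (1 - x)) ^ 2 + 4 * t * x ^ 2 + (t ^ 2 + 6 * t + 1) * y ^ 2 = 0 := by
      linear_combination 2 * t * hnorm + t * n1 + n2
    have k1 : (t * (1 + x) - (1 - x)) ^ 2 = 0 ∧ 4 * t * x ^ 2 = 0 := by
      have g1 := sq_nonneg (t * (1 + x) - (1 - x))
      have g2 : 0 ≤ 4 * t * x ^ 2 := by positivity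
      have g3 : 0 ≤ (t ^ 2 + 6 * t + 1) * y ^ 2 := by positivity
      constructor <;> linarith
    obtain ⟨k2, k3⟩ := k1
    have k2' : t * (1 + x) - (1 - x) = 0 := pow_eq_zero_iff (by norm_num) |>.mp k2
    have ht1 : t = 1 := by
      rcases mul_eq_zero.mp k3 with h1 | h1
      · have h2 : t = 0 := by linarith
        rw [h2] at k2'
        have h3 : x = 1 := by linarith
        rw [h3] at hnorm
        nlinarith [sq_nonneg y]
      · have h2 : x = 0 := pow_eq_zero_iff (by norm_num) |>.mp h1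
        rw [h2] at k2'
        linarith
    have hconst : ∀ k : ℕ, normSq (d (N + k)) = normSq (d N) := by
      intro k
      induction k with
      | zero => rfl
      | succ k ih =>
        rw [← add_assoc, rd, map_mul, ← ht, ht1, one_mul, ih]
    have hdt : Tendsto d atTop (𝓝 0) := by
      have h1 := (tendsto_add_atTop_iff_nat 2).mpr hP
      have h2 := (tendsto_add_atTop_iff_nat 3).mpr hQ
      simpa using h1.sub h2
    have h3 : Tendsto (fun k : ℕ => normSq (d (N + k))) atTop (𝓝 0) := by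
      have h4 : Tendsto (fun k : ℕ => d (N + k)) atTop (𝓝 0) := by
        have := (tendsto_add_atTop_iff_nat N).mpr hdt
        simpa [add_comm] using this
      have h5 := (continuous_normSq.tendsto (0 : ℂ)).comp h4
      rw [map_zero] at h5
      exact h5
    have h6 : Tendsto (fun k : ℕ => normSq (d (N + k))) atTop (𝓝 (normSq (d N))) := by
      simp_rw [hconst]
      exact tendsto_const_nhds
    have h7 := tendsto_nhds_unique h3 h6
    exact hN (normSq_eq_zero.mp h7.symm)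

/-- basis vector -/
noncomputable def e2 : HH := lp.single 2 2 (1 : ℂ)

lemma e0_ge (n : ℕ) : e0 (n + 1) = 0 := by simp [e0]
lemma e1_ge (n : ℕ) : e1 (n + 2) = 0 := by simp [e1]
lemma e2_ge (n : ℕ) : e2 (n + 3) = 0 := by simp [e2]

lemma ev_e2 (z : ℂ) : ev e2 z = z ^ 2 := by
  unfold ev
  rw [tsum_eq_single 2]
  · simp [e2]
  · intro n hn
    simp [e2, hn]

section
variable {ψ φ : ℂ → ℂ} {T : HH →L[ℂ] HH}

lemma WSys.tail_zero (h : WSys ψ φ T) (F : HH) (c0 c1 c2 : ℂ)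
    (hF : ∀ u ∈ DD ψ, ev F (φ u) = c0 + c1 * φ u + c2 * φ u ^ 2) (n : ℕ) : F (n + 3) = 0 := by
  have h1 : F = c0 • e0 + c1 • e1 + c2 • e2 := by
    apply h.idv
    intro u hu
    have hφ := h.hm u hu.1
    rw [hF u hu, ev_add _ _ _ hφ, ev_add _ _ _ hφ, ev_smul _ _ _ hφ, ev_smul _ _ _ hφ,
      ev_smul _ _ _ hφ, ev_e0, ev_e1, ev_e2]
    ring
  rw [h1]
  simp only [lp.coeFn_add, lp.coeFn_smul, Pi.add_apply, Pi.smul_apply]
  rw [e2_ge n, show n + 3 = (n + 2) + 1 by ring, e0_ge, show n + 2 + 1 = (n + 1) + 2 by ring, e1_ge]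
  simp

variable {p q t0 t1 τ0 τ1 : ℂ → ℂ} {P Q : HH}

lemma Dt.coeffs (h : Dt ψ φ T p q t0 t1 τ0 τ1 P Q) (m n : ℕ) :
    (starRingEnd ℂ) (P (n + 3)) * P (m + 3) + (starRingEnd ℂ) (Q (n + 3)) * Q (m + 3)
      + (starRingEnd ℂ) (P (n + 2)) * P (m + 2) + (starRingEnd ℂ) (Q (n + 2)) * Q (m + 2)
      + 2 * (starRingEnd ℂ) (P (n + 2)) * Q (m + 3)
      + 2 * (starRingEnd ℂ) (Q (n + 3)) * P (m + 2) = 0 := by
  have hs := h.toWSys
  obtain ⟨U0, U1, U2, V0, V1, V2, hK⟩ := h.K_inZ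
  obtain ⟨t, ht, h01, h02, h12⟩ := hs.three
  set x0 := φ (t 0) with hx0
  set x1 := φ (t 1) with hx1
  set x2 := φ (t 2) with hx2
  have d01 : x0 - x1 ≠ 0 := sub_ne_zero.mpr h01
  have d02 : x0 - x2 ≠ 0 := sub_ne_zero.mpr h02
  have d12 : x1 - x2 ≠ 0 := sub_ne_zero.mpr h12
  set y0 := (starRingEnd ℂ) x0 with hy0
  set y1 := (starRingEnd ℂ) x1 with hy1
  set y2 := (starRingEnd ℂ) x2 with hy2
  have g01 : y0 - y1 ≠ 0 := by rw [hy0, hy1, ← map_sub, Ne, map_eq_zero]; exact d01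
  have g02 : y0 - y2 ≠ 0 := by rw [hy0, hy2, ← map_sub, Ne, map_eq_zero]; exact d02
  have g12 : y1 - y2 ≠ 0 := by rw [hy1, hy2, ← map_sub, Ne, map_eq_zero]; exact d12
  set a0 : ℂ → ℂ := fun y => (y - y1) * (y - y2) / ((y0 - y1) * (y0 - y2)) with ha0
  set a1 : ℂ → ℂ := fun y => (y - y0) * (y - y2) / ((y1 - y0) * (y1 - y2)) with ha1
  set a2 : ℂ → ℂ := fun y => (y - y0) * (y - y1) / ((y2 - y0) * (y2 - y1)) with ha2
  have g10 : y1 - y0 ≠ 0 := by rw [← neg_sub]; exact neg_ne_zero.mpr g01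
  have g20 : y2 - y0 ≠ 0 := by rw [← neg_sub]; exact neg_ne_zero.mpr g02
  have g21 : y2 - y1 ≠ 0 := by rw [← neg_sub]; exact neg_ne_zero.mpr g12
  have s0 : ∀ y, a0 y + a1 y + a2 y = 1 := by
    intro y
    simp only [ha0, ha1, ha2]
    rw [div_add_div _ _ (mul_ne_zero g01 g02) (mul_ne_zero g10 g12),
      div_add_div _ _ (mul_ne_zero (mul_ne_zero g01 g02) (mul_ne_zero g10 g12)) (mul_ne_zero g20 g21),
      div_eq_one_iff_eq (mul_ne_zero (mul_ne_zero (mul_ne_zero g01 g02) (mul_ne_zero g10 g12)) (mul_ne_zero g20 g21))]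
    ring
  have s1 : ∀ y, a0 y * y0 + a1 y * y1 + a2 y * y2 = y := by
    intro y
    simp only [ha0, ha1, ha2]
    rw [div_mul_eq_mul_div, div_mul_eq_mul_div, div_mul_eq_mul_div,
      div_add_div _ _ (mul_ne_zero g01 g02) (mul_ne_zero g10 g12),
      div_add_div _ _ (mul_ne_zero (mul_ne_zero g01 g02) (mul_ne_zero g10 g12)) (mul_ne_zero g20 g21),
      div_eq_iff (mul_ne_zero (mul_ne_zero (mul_ne_zero g01 g02) (mul_ne_zero g10 g12)) (mul_ne_zero g20 g21))]
    ring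
  have s2 : ∀ y, a0 y * y0 ^ 2 + a1 y * y1 ^ 2 + a2 y * y2 ^ 2 = y ^ 2 := by
    intro y
    simp only [ha0, ha1, ha2]
    rw [div_mul_eq_mul_div, div_mul_eq_mul_div, div_mul_eq_mul_div,
      div_add_div _ _ (mul_ne_zero g01 g02) (mul_ne_zero g10 g12),
      div_add_div _ _ (mul_ne_zero (mul_ne_zero g01 g02) (mul_ne_zero g10 g12)) (mul_ne_zero g20 g21),
      div_eq_iff (mul_ne_zero (mul_ne_zero (mul_ne_zero g01 g02) (mul_ne_zero g10 g12)) (mul_ne_zero g20 g21))]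
    ring
  -- the vector representing `K(., v)`
  set Kv : ℂ → HH := fun v => (starRingEnd ℂ) (p v) • P + (starRingEnd ℂ) (q v) • Q
    + ((starRingEnd ℂ) (φ v) * (starRingEnd ℂ) (p v)) • Sh P
    + ((starRingEnd ℂ) (φ v) * (starRingEnd ℂ) (q v)) • Sh Q
    + (2 * (starRingEnd ℂ) (q v)) • Sh P
    + (2 * (starRingEnd ℂ) (φ v) * (starRingEnd ℂ) (p v)) • Q with hKv
  have hKe : ∀ u v : ℂ, u ∈ DD ψ → v ∈ DD ψ → ev (Kv v) (φ u) = KK φ p q u v := by
    intro u v hu hv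
    have hφ := hs.hm u hu.1
    simp only [hKv]
    rw [ev_add _ _ _ hφ, ev_add _ _ _ hφ, ev_add _ _ _ hφ, ev_add _ _ _ hφ, ev_add _ _ _ hφ,
      ev_smul _ _ _ hφ, ev_smul _ _ _ hφ, ev_smul _ _ _ hφ, ev_smul _ _ _ hφ, ev_smul _ _ _ hφ,
      ev_smul _ _ _ hφ, ev_Sh _ _ hφ, ev_Sh _ _ hφ, h.hP u hu, h.hQ u hu]
    unfold KK
    ring
  have hcoef : ∀ (v : ℂ), v ∈ DD ψ → Kv v (n + 3) = a0 ((starRingEnd ℂ) (φ v)) * Kv (t 0) (n + 3)
      + a1 ((starRingEnd ℂ) (φ v)) * Kv (t 1) (n + 3)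
      + a2 ((starRingEnd ℂ) (φ v)) * Kv (t 2) (n + 3) := by
    intro v hv
    set y := (starRingEnd ℂ) (φ v) with hy
    have h1 := hs.tail_zero (Kv v - a0 y • Kv (t 0) - a1 y • Kv (t 1) - a2 y • Kv (t 2))
      (V0 v - a0 y * V0 (t 0) - a1 y * V0 (t 1) - a2 y * V0 (t 2))
      (V1 v - a0 y * V1 (t 0) - a1 y * V1 (t 1) - a2 y * V1 (t 2))
      (V2 v - a0 y * V2 (t 0) - a1 y * V2 (t 1) - a2 y * V2 (t 2)) ?_ n
    · simp only [lp.coeFn_sub, lp.coeFn_smul, Pi.sub_apply, Pi.smul_apply, smul_eq_mul] at h1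
      linear_combination h1
    · intro u hu
      have hφ := hs.hm u hu.1
      rw [ev_sub _ _ _ hφ, ev_sub _ _ _ hφ, ev_sub _ _ _ hφ, ev_smul _ _ _ hφ, ev_smul _ _ _ hφ,
        ev_smul _ _ _ hφ, hKe u v hu hv, hKe u _ hu (ht 0), hKe u _ hu (ht 1), hKe u _ hu (ht 2),
        hK u v hu hv, hK u _ hu (ht 0), hK u _ hu (ht 1), hK u _ hu (ht 2)]
      rw [← hy, ← hx0, ← hx1, ← hx2, ← hy0, ← hy1, ← hy2]
      linear_combination -U0 u * s0 y - U1 u * s1 y - U2 u * s2 y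
  set W : HH := (starRingEnd ℂ) (P (n + 3)) • P + (starRingEnd ℂ) (Q (n + 3)) • Q
    + (starRingEnd ℂ) (P (n + 2)) • Sh P + (starRingEnd ℂ) (Q (n + 2)) • Sh Q
    + (2 * (starRingEnd ℂ) (P (n + 2))) • Q + (2 * (starRingEnd ℂ) (Q (n + 3))) • Sh P with hW
  have hWe : ∀ v : ℂ, v ∈ DD ψ → ev W (φ v) = (starRingEnd ℂ) (Kv v (n + 3)) := by
    intro v hv
    have hφ := hs.hm v hv.1
    have hKn : Kv v (n + 3) = (starRingEnd ℂ) (p v) * P (n + 3) + (starRingEnd ℂ) (q v) * Q (n + 3)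
      + ((starRingEnd ℂ) (φ v) * (starRingEnd ℂ) (p v)) * P (n + 2)
      + ((starRingEnd ℂ) (φ v) * (starRingEnd ℂ) (q v)) * Q (n + 2)
      + (2 * (starRingEnd ℂ) (q v)) * P (n + 2)
      + (2 * (starRingEnd ℂ) (φ v) * (starRingEnd ℂ) (p v)) * Q (n + 3) := by
      simp only [hKv, lp.coeFn_add, lp.coeFn_smul, Pi.add_apply, Pi.smul_apply, smul_eq_mul]
      rw [show Sh P (n + 3) = P (n + 2) from rfl, show Sh Q (n + 3) = Q (n + 2) from rfl]
    rw [hKn, hW]
    simp only [map_add, map_mul, Complex.conj_conj]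
    rw [ev_add _ _ _ hφ, ev_add _ _ _ hφ, ev_add _ _ _ hφ, ev_add _ _ _ hφ, ev_add _ _ _ hφ,
      ev_smul _ _ _ hφ, ev_smul _ _ _ hφ, ev_smul _ _ _ hφ, ev_smul _ _ _ hφ, ev_smul _ _ _ hφ,
      ev_smul _ _ _ hφ, ev_Sh _ _ hφ, ev_Sh _ _ hφ, h.hP v hv, h.hQ v hv]
    simp only [map_ofNat]
    ring
  set k0 := (starRingEnd ℂ) (Kv (t 0) (n + 3)) with hk0
  set k1 := (starRingEnd ℂ) (Kv (t 1) (n + 3)) with hk1
  set k2 := (starRingEnd ℂ) (Kv (t 2) (n + 3)) with hk2
  have f01 : x1 - x0 ≠ 0 := by rw [← neg_sub]; exact neg_ne_zero.mpr d01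
  have f02 : x2 - x0 ≠ 0 := by rw [← neg_sub]; exact neg_ne_zero.mpr d02
  have f12 : x2 - x1 ≠ 0 := by rw [← neg_sub]; exact neg_ne_zero.mpr d12
  set j0 := k0 / ((x0 - x1) * (x0 - x2)) with hj0
  set j1 := k1 / ((x1 - x0) * (x1 - x2)) with hj1
  set j2 := k2 / ((x2 - x0) * (x2 - x1)) with hj2
  have hWt := hs.tail_zero W (j0 * (x1 * x2) + j1 * (x0 * x2) + j2 * (x0 * x1))
    (-(j0 * (x1 + x2) + j1 * (x0 + x2) + j2 * (x0 + x1))) (j0 + j1 + j2) ?_ m
  · simp only [hW, lp.coeFn_add, lp.coeFn_smul, Pi.add_apply, Pi.smul_apply, smul_eq_mul] at hWt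
    rw [show Sh P (m + 3) = P (m + 2) from rfl, show Sh Q (m + 3) = Q (m + 2) from rfl] at hWt
    linear_combination hWt
  · intro v hv
    rw [hWe v hv, hcoef v hv]
    simp only [map_add, map_mul, ha0, ha1, ha2, map_div₀, map_sub, Complex.conj_conj, hy0, hy1, hy2]
    rw [← hk0, ← hk1, ← hk2]
    have r0 : k0 = j0 * ((x0 - x1) * (x0 - x2)) := by rw [hj0]; field_simp
    have r1 : k1 = j1 * ((x1 - x0) * (x1 - x2)) := by rw [hj1]; field_simp
    have r2 : k2 = j2 * ((x2 - x0) * (x2 - x1)) := by rw [hj2]; field_simp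
    rw [r0, r1, r2]
    have c1 : ∀ A B j : ℂ, B ≠ 0 → A / B * (j * B) = A * j := by
      intro A B j hB
      field_simp
    rw [c1 _ _ _ (mul_ne_zero d01 d02), c1 _ _ _ (mul_ne_zero f01 d12), c1 _ _ _ (mul_ne_zero f02 f12)]
    ring

lemma HH_tendsto (f : HH) : Tendsto (fun n : ℕ => f n) atTop (𝓝 0) := by
  have h1 : Summable (fun n : ℕ => ‖f n‖ ^ 2) := summable_sq f
  have h2 := h1.tendsto_atTop_zero
  rw [tendsto_zero_iff_norm_tendsto_zero]
  have h3 := h2.sqrt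
  simp only [Real.sqrt_zero] at h3
  have h4 : (fun n : ℕ => Real.sqrt (‖f n‖ ^ 2)) = (fun n : ℕ => ‖f n‖) := by
    ext n
    exact Real.sqrt_sq (norm_nonneg _)
  rwa [h4] at h3

lemma Dt.affine (h : Dt ψ φ T p q t0 t1 τ0 τ1 P Q) : P = P 0 • e0 + P 1 • e1 ∧
    Q = Q 0 • e0 + Q 1 • e1 := by
  have h1 := seq_core P Q (HH_tendsto P) (HH_tendsto Q) h.coeffs
  have h2 : ∀ F : HH, (∀ n : ℕ, F (n + 2) = 0) → F = F 0 • e0 + F 1 • e1 := by
    intro F hF
    ext n
    simp only [lp.coeFn_add, lp.coeFn_smul, Pi.add_apply, Pi.smul_apply, smul_eq_mul]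
    match n with
    | 0 => rw [e0_0, e1_0]; ring
    | 1 => rw [e0_1, e1_1]; ring
    | n + 2 => rw [hF n, show n + 2 = (n + 1) + 1 by ring, e0_ge, show n + 1 + 1 = n + 2 by ring, e1_ge]; ring
  exact ⟨h2 P (fun n => (h1 n).1), h2 Q (fun n => (h1 n).2)⟩

end

end Pool.Agent.Helper76.NW
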