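import Pool.Agent.Helper76.NW7

set_option autoImplicit false
open Complex Filter Topology Metric
open scoped InnerProductSpace

namespace Pool.Agent.Helper76.NW
open Pool.Agent.Helper76.Hardy Pool.Agent.Helper76.Pick Pool.Agent.Helper76.Wco
open Pool.Agent.Helper76.NormalHP

lemma Rs_succ (w : ℂ) (hw : ‖w‖ < 1) (f : HH) (n : ℕ) :
    Rs w f (n + 1) = f (n + 1) + (starRingEnd ℂ) w * Rs w f n := by
  have h1 := congrArg (fun g : HH => g (n + 1)) (Rs_eq w hw f)
  simp only [lp.coeFn_add, lp.coeFn_smul, Pi.add_apply, Pi.smul_apply] at h1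
  have h2 : Sh (Rs w f) (n + 1) = Rs w f n := rfl
  rw [h2, smul_eq_mul] at h1
  exact h1

lemma Rs_e1_succ (w : ℂ) (hw : ‖w‖ < 1) (n : ℕ) : Rs w e1 (n + 1) = (starRingEnd ℂ) w ^ n := by
  induction n with
  | zero => rw [Rs_succ w hw, Rs_zero w hw, e1_0, zero_add, e1_1]; simp
  | succ n ih => rw [Rs_succ w hw, ih, e1_ge, zero_add, pow_succ]; ring

lemma dk_coord (w : ℂ) (hw : ‖w‖ < 1) (n : ℕ) :
    Rs w (Rs w e1) n = (n : ℂ) * (starRingEnd ℂ) w ^ (n - 1) := by
  induction n with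
  | zero => rw [Rs_zero w hw, Rs_zero w hw, e1_0]; simp
  | succ n ih =>
    rw [Rs_succ w hw, ih, Rs_e1_succ w hw]
    rcases n with _ | n
    · simp
    · simp only [Nat.add_sub_cancel, Nat.cast_add, Nat.cast_one]
      ring

lemma inner_dk (w : ℂ) (hw : ‖w‖ < 1) (f : HH) : ⟪Rs w (Rs w e1), f⟫_ℂ = deriv (ev f) w := by
  obtain ⟨r, hr1, hr2⟩ := exists_between hw
  have h0 : 0 ≤ r := (norm_nonneg w).trans hr1.le
  have h1 : HasSum (fun n : ℕ => deriv (fun z : ℂ => f n * z ^ n) w) (deriv (fun z : ℂ => ∑' n : ℕ, f n * z ^ n) w) := by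
    apply Complex.hasSum_deriv_of_summable_norm (u := fun n : ℕ => ‖f‖ * r ^ n)
      (U := ball (0 : ℂ) r)
    · exact (summable_geometric_of_lt_one h0 hr2).mul_left _
    · intro n
      fun_prop
    · exact isOpen_ball
    · intro n z hz
      rw [mem_ball_zero_iff] at hz
      rw [norm_mul, norm_pow]
      apply mul_le_mul (coord_le f n) (pow_le_pow_left₀ (norm_nonneg _) hz.le n) (by positivity)
        (norm_nonneg _)
    · rwa [mem_ball_zero_iff]
  have h2 : deriv (ev f) w = ∑' n : ℕ, deriv (fun z : ℂ => f n * z ^ n) w := by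
    rw [h1.tsum_eq]
    rfl
  rw [h2, lp.inner_eq_tsum]
  apply tsum_congr
  intro n
  rw [dk_coord w hw n]
  have h3 : deriv (fun z : ℂ => f n * z ^ n) w = f n * (n * w ^ (n - 1)) := by
    rw [deriv_const_mul _ (by fun_prop)]
    simp
  rw [h3]
  simp only [RCLike.inner_apply, map_mul, map_pow, Complex.conj_conj, map_natCast]

lemma Rs_e0 (w : ℂ) (hw : ‖w‖ < 1) : Rs w e0 = kz w := by
  symm
  apply Rs_unique w hw
  ext n
  simp only [lp.coeFn_sub, lp.coeFn_smul, Pi.sub_apply, Pi.smul_apply, smul_eq_mul]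
  rcases n with _ | n
  · rw [kz_apply w hw, Sh_zero, e0_0]; simp
  · rw [kz_apply w hw, Sh_succ, kz_apply w hw, e0_ge, pow_succ]; ring

lemma Rs_Rs_e0 (w : ℂ) (hw : ‖w‖ < 1) :
    Rs w (Rs w e0) = kz w + (starRingEnd ℂ) w • Rs w (Rs w e1) := by
  ext n
  simp only [lp.coeFn_add, lp.coeFn_smul, Pi.add_apply, Pi.smul_apply, smul_eq_mul]
  induction n with
  | zero =>
    rw [Rs_zero w hw, Rs_zero w hw, Rs_zero w hw, Rs_zero w hw, e0_0, e1_0, kz_apply w hw]; simp
  | succ n ih =>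
    rw [Rs_succ w hw, ih, Rs_succ w hw (Rs w e1) n, Rs_e1_succ w hw, Rs_e0 w hw, kz_apply w hw,
      kz_apply w hw]
    try ring

lemma inner_rr0 (w : ℂ) (hw : ‖w‖ < 1) (f : HH) :
    ⟪Rs w (Rs w e0), f⟫_ℂ = ev f w + w * deriv (ev f) w := by
  rw [Rs_Rs_e0 w hw, inner_add_left, inner_smul_left, inner_kz w hw, inner_dk w hw,
    Complex.conj_conj]

section
variable {ψ φ : ℂ → ℂ} {T : HH →L[ℂ] HH}
variable {p q t0 t1 τ0 τ1 : ℂ → ℂ} {P Q : HH}

/-- form of `X*` -/
lemma Dt.Xstar (h : Dt ψ φ T p q t0 t1 τ0 τ1 P Q) : ∃ (A0 : ℝ) (A1 c : ℂ), ∀ (f : HH) (v : ℂ),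
    v ∈ DD ψ → ev (star (X1 T) f) v = -ψ v * (((A0 : ℂ) + A1 * φ v) * ev f (φ v)
      + ((starRingEnd ℂ) A1 + c * φ v + A1 * φ v ^ 2) * deriv (ev f) (φ v)) := by
  obtain ⟨hP, hQ⟩ := h.affine
  refine ⟨2 * (P 0).re, P 1 + (starRingEnd ℂ) (Q 0), ((2 * (P 0).re : ℝ) : ℂ)
    + (Q 1 + (starRingEnd ℂ) (Q 1)), ?_⟩
  intro f v hv
  have hs := h.toWSys
  have hw := hs.hm v hv.1
  have hpv : p v = P 0 + P 1 * φ v := by
    rw [← h.hP v hv]
    conv_lhs => rw [hP]
    rw [ev_add _ _ _ hw, ev_smul _ _ _ hw, ev_smul _ _ _ hw, ev_e0, ev_e1]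
    ring
  have hqv : q v = Q 0 + Q 1 * φ v := by
    rw [← h.hQ v hv]
    conv_lhs => rw [hQ]
    rw [ev_add _ _ _ hw, ev_smul _ _ _ hw, ev_smul _ _ _ hw, ev_e0, ev_e1]
    ring
  have h1 : P + (starRingEnd ℂ) (φ v) • Q + (starRingEnd ℂ) (p v) • e0 + (starRingEnd ℂ) (q v) • e1
      = (P 0 + (starRingEnd ℂ) (φ v) * Q 0 + (starRingEnd ℂ) (p v)) • e0
        + (P 1 + (starRingEnd ℂ) (φ v) * Q 1 + (starRingEnd ℂ) (q v)) • e1 := by
    conv_lhs => rw [hP, hQ]
    module
  rw [← inner_kz v hv.1, sinr, h.hX v hv, h1]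
  simp only [map_add, map_smul, inner_smul_left, inner_add_left]
  rw [inner_rr0 _ hw, inner_dk _ hw]
  rw [hpv, hqv]
  have hre : ((2 * (P 0).re : ℝ) : ℂ) = P 0 + (starRingEnd ℂ) (P 0) := by
    rw [Complex.add_conj]
  rw [hre]
  simp only [map_add, map_mul, map_neg, Complex.conj_conj]
  ring

lemma WSys.star_comm (h : WSys ψ φ T) (f : HH) : star (X1 T) (T f) = T (star (X1 T) f) := by
  have h1 : Commute (star (X1 T)) T := by
    have := h.X_comm.star_star
    rwa [star_star] at this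
  have h2 := congrArg (fun L : HH →L[ℂ] HH => L f) h1.eq
  simpa using h2

lemma WSys.deriv_ev_T (h : WSys ψ φ T) (f : HH) (w : ℂ) (hw : ‖w‖ < 1) :
    deriv (ev (T f)) w = deriv ψ w * ev f (φ w) + ψ w * (deriv (ev f) (φ w) * deriv φ w) := by
  have hb : ball (0 : ℂ) 1 ∈ 𝓝 w := isOpen_ball.mem_nhds (by rwa [mem_ball_zero_iff])
  have h1 : ev (T f) =ᶠ[𝓝 w] fun z => ψ z * ev f (φ z) := by
    filter_upwards [hb] with z hz
    exact h.hT f z (by simpa using hz)
  rw [h1.deriv_eq]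
  have d1 : HasDerivAt ψ (deriv ψ w) w := (h.hψ.differentiableAt hb).hasDerivAt
  have d2 : HasDerivAt φ (deriv φ w) w := (h.hφ.differentiableAt hb).hasDerivAt
  have hb' : ball (0 : ℂ) 1 ∈ 𝓝 (φ w) := isOpen_ball.mem_nhds (by
    rw [mem_ball_zero_iff]; exact h.hm w hw)
  have d3 : HasDerivAt (ev f) (deriv (ev f) (φ w)) (φ w) :=
    ((ev_diff f).differentiableAt hb').hasDerivAt
  have d4 := d1.mul (d3.comp w d2)
  exact d4.deriv

lemma deriv_ev_e0 (w : ℂ) : deriv (ev e0) w = 0 := by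
  have : ev e0 = fun _ => (1 : ℂ) := by ext z; exact ev_e0 z
  rw [this]; simp

lemma deriv_ev_e1 (w : ℂ) : deriv (ev e1) w = 1 := by
  have : ev e1 = fun z : ℂ => z := by ext z; exact ev_e1 z
  rw [this]; simp

lemma WSys.ode_of (h : WSys ψ φ T) (A0 : ℝ) (A1 c : ℂ) (hX : ∀ (f : HH) (v : ℂ),
    v ∈ DD ψ → ev (star (X1 T) f) v = -ψ v * (((A0 : ℂ) + A1 * φ v) * ev f (φ v)
      + ((starRingEnd ℂ) A1 + c * φ v + A1 * φ v ^ 2) * deriv (ev f) (φ v))) :
    ∀ z : ℂ, ‖z‖ < 1 → ((starRingEnd ℂ) A1 + c * z + A1 * z ^ 2) * deriv φ z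
      = (starRingEnd ℂ) A1 + c * φ z + A1 * φ z ^ 2 := by
  set s : Set ℂ := DD ψ ∩ φ ⁻¹' (DD ψ) with hs
  have ho : IsOpen s := by
    have h1 := h.hφ.continuousOn.isOpen_inter_preimage isOpen_ball h.isOpen_DD
    have h2 : s = DD ψ ∩ (ball (0 : ℂ) 1 ∩ φ ⁻¹' DD ψ) := by
      rw [hs, ← Set.inter_assoc, Set.inter_eq_left.mpr DD_sub]
    rw [h2]
    exact h.isOpen_DD.inter h1
  have hn : s.Nonempty := by
    by_contra hcon
    rw [Set.not_nonempty_iff_eq_empty] at hcon
    have h1 : ∀ u ∈ DD ψ, ψ (φ u) = 0 := by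
      intro u hu
      by_contra h2
      have : u ∈ s := ⟨hu, h.hm u hu.1, h2⟩
      rw [hcon] at this
      exact this
    have h2 := h.idl ψ (fun _ => 0) (DD ψ) DD_sub h.isOpen_DD h.nonempty_DD h.hψ
      (differentiableOn_const 0) h1
    obtain ⟨z, hz, hz'⟩ := h.hne
    exact hz' (h2 z hz)
  have hr : DifferentiableOn ℂ (fun z : ℂ => ((starRingEnd ℂ) A1 + c * z + A1 * z ^ 2) * deriv φ z)
      (ball (0 : ℂ) 1) := by
    apply DifferentiableOn.mul (by fun_prop)
    exact h.hφ.deriv isOpen_ball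
  have hr2 : DifferentiableOn ℂ (fun z : ℂ => (starRingEnd ℂ) A1 + c * φ z + A1 * φ z ^ 2)
      (ball (0 : ℂ) 1) := by
    have := h.hφ
    fun_prop
  refine h.idl _ _ s (Set.inter_subset_left.trans DD_sub) ho hn hr hr2 ?_
  intro v hv
  obtain ⟨hv, hw⟩ := hv
  set w := φ v with hw'
  have key : ∀ f : HH, ((A0 : ℂ) + A1 * w) * ev (T f) w
      + ((starRingEnd ℂ) A1 + c * w + A1 * w ^ 2) * deriv (ev (T f)) w
      = ψ w * (((A0 : ℂ) + A1 * φ w) * ev f (φ w)
      + ((starRingEnd ℂ) A1 + c * φ w + A1 * φ w ^ 2) * deriv (ev f) (φ w)) := by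
    intro f
    have h1 := hX (T f) v hv
    rw [h.star_comm f, h.hT _ v hv.1, ← hw', hX f w hw] at h1
    have h2 := hv.2
    have h3 : ψ v * (((A0 : ℂ) + A1 * w) * ev (T f) w
      + ((starRingEnd ℂ) A1 + c * w + A1 * w ^ 2) * deriv (ev (T f)) w)
      = ψ v * (ψ w * (((A0 : ℂ) + A1 * φ w) * ev f (φ w)
      + ((starRingEnd ℂ) A1 + c * φ w + A1 * φ w ^ 2) * deriv (ev f) (φ w))) := by
      linear_combination h1
    exact mul_left_cancel₀ h2 h3
  have k0 := key e0
  have k1 := key e1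
  rw [h.deriv_ev_T e0 w hw.1, h.hT e0 w hw.1, ev_e0, deriv_ev_e0] at k0
  rw [h.deriv_ev_T e1 w hw.1, h.hT e1 w hw.1, ev_e1, deriv_ev_e1] at k1
  have h4 : ψ w * (((starRingEnd ℂ) A1 + c * w + A1 * w ^ 2) * deriv φ w)
      = ψ w * ((starRingEnd ℂ) A1 + c * φ w + A1 * φ w ^ 2) := by
    linear_combination k1 - φ w * k0
  exact mul_left_cancel₀ hw.2 h4

/-- linear fractional on the disc -/
def IsLF (φ : ℂ → ℂ) : Prop := ∃ a b c d : ℂ, a * d - b * c ≠ 0 ∧
  ∀ z : ℂ, ‖z‖ < 1 → c * z + d ≠ 0 ∧ φ z = (a * z + b) / (c * z + d)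

lemma isLF_of (φ : ℂ → ℂ) (a b c d : ℂ) (hd : a * d - b * c ≠ 0)
    (h : ∀ z : ℂ, ‖z‖ < 1 → φ z * (c * z + d) = a * z + b) : IsLF φ := by
  refine ⟨a, b, c, d, hd, ?_⟩
  intro z hz
  have h1 := h z hz
  have h2 : c * z + d ≠ 0 := by
    intro h3
    rw [h3, mul_zero] at h1
    apply hd
    linear_combination a * h3 + c * h1
  exact ⟨h2, by rw [eq_div_iff h2]; exact h1⟩

/-- solutions of the functional equation -/
lemma ode_solve (φ : ℂ → ℂ) (hφ : DifferentiableOn ℂ φ (ball (0 : ℂ) 1))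
    (hm : ∀ z : ℂ, ‖z‖ < 1 → ‖φ z‖ < 1) (hfix : ∀ z : ℂ, ‖z‖ < 1 → φ z ≠ z) (A1 c : ℂ)
    (hode : ∀ z : ℂ, ‖z‖ < 1 → ((starRingEnd ℂ) A1 + c * z + A1 * z ^ 2) * deriv φ z
      = (starRingEnd ℂ) A1 + c * φ z + A1 * φ z ^ 2) (hne : A1 ≠ 0 ∨ c ≠ 0) : IsLF φ := by
  by_cases hA : A1 = 0
  · exfalso
    have hc : c ≠ 0 := by
      rcases hne with h1 | h1
      · exact absurd hA h1
      · exact h1
    have h1 := hode 0 (by simp)
    rw [hA] at h1
    simp at h1
    rcases h1 with h1 | h1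
    · exact hc h1
    · exact hfix 0 (by simp) h1
  · obtain ⟨s, hs⟩ := IsAlgClosed.exists_pow_nat_eq (c ^ 2 - 4 * ((starRingEnd ℂ) A1 * A1))
      (n := 2) (by norm_num)
    set α := (-c + s) / (2 * A1) with hα
    set β := (-c - s) / (2 * A1) with hβ
    have h1 : A1 * (α + β) = -c := by
      rw [hα, hβ]; field_simp; ring
    have h2 : A1 * (α * β) = (starRingEnd ℂ) A1 := by
      have : A1 * (α * β) * (4 * A1) = (starRingEnd ℂ) A1 * (4 * A1) := by
        rw [hα, hβ]; field_simp; linear_combination -hs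
      exact mul_right_cancel₀ (by simpa using hA) this
    have hn : ‖α‖ * ‖β‖ = 1 := by
      have h3 := congrArg norm h2
      rw [norm_mul, norm_mul, Complex.norm_conj] at h3
      have h4 : ‖A1‖ ≠ 0 := norm_ne_zero_iff.mpr hA
      have h5 : ‖A1‖ * (‖α‖ * ‖β‖) = ‖A1‖ * 1 := by rw [h3, mul_one]
      exact mul_left_cancel₀ h4 h5
    have hfac : ∀ z : ℂ, ‖z‖ < 1 → (z - α) * (z - β) * deriv φ z = (φ z - α) * (φ z - β) := by
      intro z hz
      have h3 := hode z hz
      rw [← h2] at h3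
      have h4 : A1 * ((z - α) * (z - β) * deriv φ z) = A1 * ((φ z - α) * (φ z - β)) := by
        linear_combination h3 - (z * deriv φ z - φ z) * h1
      exact mul_left_cancel₀ hA h4
    have hα1 : 1 ≤ ‖α‖ := by
      by_contra hlt
      push Not at hlt
      have h3 := hfac α hlt
      rw [sub_self, zero_mul, zero_mul] at h3
      rcases mul_eq_zero.mp h3.symm with h4 | h4
      · exact hfix α hlt (sub_eq_zero.mp h4)
      · have h5 : ‖β‖ < 1 := by
          rw [← sub_eq_zero.mp h4]; exact hm α hlt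
        nlinarith [norm_nonneg α, norm_nonneg β]
    have hβ1 : 1 ≤ ‖β‖ := by
      by_contra hlt
      push Not at hlt
      have h3 := hfac β hlt
      rw [sub_self, mul_zero, zero_mul] at h3
      rcases mul_eq_zero.mp h3.symm with h4 | h4
      · have h5 : ‖α‖ < 1 := by
          rw [← sub_eq_zero.mp h4]; exact hm β hlt
        nlinarith [norm_nonneg α, norm_nonneg β]
      · exact hfix β hlt (sub_eq_zero.mp h4)
    have na : ∀ z : ℂ, ‖z‖ < 1 → z - α ≠ 0 := by
      intro z hz h3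
      rw [sub_eq_zero.mp h3] at hz
      linarith
    have nb : ∀ z : ℂ, ‖z‖ < 1 → z - β ≠ 0 := by
      intro z hz h3
      rw [sub_eq_zero.mp h3] at hz
      linarith
    have hd : ∀ z : ℂ, ‖z‖ < 1 → HasDerivAt φ (deriv φ z) z := fun z hz =>
      (hφ.differentiableAt (isOpen_ball.mem_nhds (by rwa [mem_ball_zero_iff]))).hasDerivAt
    have hpc : IsPreconnected (ball (0 : ℂ) 1) := (convex_ball _ _).isPreconnected
    have h0 : (0 : ℂ) ∈ ball (0 : ℂ) 1 := by simp
    by_cases hab : α = β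
    · set g : ℂ → ℂ := fun z => (φ z - α)⁻¹ - (z - α)⁻¹ with hg
      have hgd : ∀ z : ℂ, ‖z‖ < 1 → HasDerivAt g 0 z := by
        intro z hz
        have e1 := ((hd z hz).sub_const α).inv (na _ (hm z hz))
        have e2 := ((hasDerivAt_id z).sub_const α).inv (na z hz)
        have e3 := e1.sub e2
        have h3 := hfac z hz
        rw [← hab] at h3
        have h4 := na _ (hm z hz)
        have h5 := na z hz
        refine e3.congr_deriv ?_
        have h6 : (z - α) ^ 2 ≠ 0 := pow_ne_zero 2 h5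
        have h7 : (φ z - α) ^ 2 ≠ 0 := pow_ne_zero 2 h4
        rw [sub_eq_zero, show id z = z from rfl, div_eq_div_iff h7 h6]
        linear_combination -h3
      have hconst : ∀ z : ℂ, ‖z‖ < 1 → g z = g 0 := by
        intro z hz
        refine isOpen_ball.is_const_of_deriv_eq_zero hpc (f := g) ?_ ?_
          (by rwa [mem_ball_zero_iff]) h0
        · intro x hx
          exact (hgd x (by simpa using hx)).differentiableAt.differentiableWithinAt
        · intro x hx
          exact (hgd x (by simpa using hx)).deriv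
      set κ := g 0 with hκ
      apply isLF_of φ (1 + α * κ) (-(α ^ 2 * κ)) κ (1 - α * κ)
      · intro h3
        have : (1 : ℂ) = 0 := by linear_combination h3
        exact one_ne_zero this
      · intro z hz
        have h3 := hconst z hz
        simp only [hg] at h3
        have h4 := na _ (hm z hz)
        have h5 := na z hz
        field_simp at h3
        linear_combination -h3
    · set g : ℂ → ℂ := fun z => ((φ z - α) * (z - β)) / ((φ z - β) * (z - α)) with hg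
      have hgd : ∀ z : ℂ, ‖z‖ < 1 → HasDerivAt g 0 z := by
        intro z hz
        have e1 := ((hd z hz).sub_const α).mul ((hasDerivAt_id z).sub_const β)
        have e2 := ((hd z hz).sub_const β).mul ((hasDerivAt_id z).sub_const α)
        have e3 := e1.div e2 (mul_ne_zero (nb _ (hm z hz)) (na z hz))
        have h3 := hfac z hz
        have h4 := nb _ (hm z hz)
        have h5 := na z hz
        refine e3.congr_deriv ?_
        rw [div_eq_zero_iff]
        left
        simp only [id, Pi.mul_apply]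
        linear_combination (α - β) * h3
      have hconst : ∀ z : ℂ, ‖z‖ < 1 → g z = g 0 := by
        intro z hz
        refine isOpen_ball.is_const_of_deriv_eq_zero hpc (f := g) ?_ ?_
          (by rwa [mem_ball_zero_iff]) h0
        · intro x hx
          exact (hgd x (by simpa using hx)).differentiableAt.differentiableWithinAt
        · intro x hx
          exact (hgd x (by simpa using hx)).deriv
      set κ := g 0 with hκ
      have hκ0 : κ ≠ 0 := by
        rw [hκ]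
        simp only [hg]
        apply div_ne_zero
        · exact mul_ne_zero (na _ (hm 0 (by simp))) (nb 0 (by simp))
        · exact mul_ne_zero (nb _ (hm 0 (by simp))) (na 0 (by simp))
      apply isLF_of φ (α - κ * β) (α * β * (κ - 1)) (1 - κ) (κ * α - β)
      · have h3 : (α - κ * β) * (κ * α - β) - α * β * (κ - 1) * (1 - κ) = κ * (α - β) ^ 2 := by ring
        rw [h3]
        exact mul_ne_zero hκ0 (pow_ne_zero 2 (sub_ne_zero.mpr hab))
      · intro z hz
        have h3 := hconst z hz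
        simp only [hg] at h3
        have h4 := nb _ (hm z hz)
        have h5 := na z hz
        rw [div_eq_iff (mul_ne_zero h4 h5)] at h3
        linear_combination h3

lemma WSys.inj (h : WSys ψ φ T) (f : HH) (hf : T f = 0) : f = 0 := by
  apply h.idv
  intro u hu
  have h1 := h.hT f u hu.1
  rw [hf] at h1
  have h2 : ∀ z : ℂ, ev (0 : HH) z = 0 := by
    intro z
    unfold ev
    simp
  rw [h2] at h1 ⊢
  rcases mul_eq_zero.mp h1.symm with h3 | h3
  · exact absurd h3 hu.2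
  · exact h3

lemma WSys.eq_of_DD (h : WSys ψ φ T) (f g : HH) (hfg : ∀ v ∈ DD ψ, ev f v = ev g v) : f = g := by
  rw [← sub_eq_zero]
  apply ev_inj
  obtain ⟨z0, hz0⟩ := h.nonempty_DD
  have h2 : ev f =ᶠ[𝓝 z0] ev g := by
    filter_upwards [h.isOpen_DD.mem_nhds hz0] with w hw
    exact hfg w hw
  have h3 := ((ev_diff f).analyticOnNhd isOpen_ball).eqOn_of_preconnected_of_eventuallyEq
    ((ev_diff g).analyticOnNhd isOpen_ball) (convex_ball _ _).isPreconnected (DD_sub hz0) h2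
  intro z hz
  have h4 : ev f z = ev g z := h3 (by rwa [mem_ball_zero_iff])
  rw [ev_sub _ _ z hz, h4, sub_self]

/-- the case of vanishing vector field -/
lemma WSys.unitary_case (h : WSys ψ φ T) (A0 : ℝ) (hX : ∀ (f : HH) (v : ℂ),
    v ∈ DD ψ → ev (star (X1 T) f) v = -ψ v * ((A0 : ℂ) * ev f (φ v))) :
    ∃ c : ℝ, 0 < c ∧ star T * T = (c : ℂ) • 1 := by
  have hn := h.normal
  have h1 : star (X1 T) = (-(A0 : ℂ)) • T := by
    ext1 f
    apply h.eq_of_DD
    intro v hv
    rw [hX f v hv, smul_apply, ev_smul _ _ _ hv.1, h.hT f v hv.1]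
    ring
  have h2 : X1 T = (-(A0 : ℂ)) • star T := by
    have h3 := congrArg star h1
    rw [star_star, star_smul] at h3
    rw [h3]
    simp
  have h3 : cfc gX T = cfc (fun z : ℂ => (-(A0 : ℂ)) * star z) T := by
    rw [cfc_const_mul (-(A0 : ℂ)) (fun z : ℂ => star z) T (by fun_prop), cfc_star_id T, ← h2]
    rfl
  have h4 : (spectrum ℂ T).EqOn gX (fun z : ℂ => (-(A0 : ℂ)) * star z) := by
    rw [cfc_eq_cfc_iff_eqOn (hf := cont_gX.continuousOn)] at h3
    exact h3
  refine ⟨Real.exp (-A0), Real.exp_pos _, ?_⟩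
  -- `z (|z|^2 - e^{-A0}) = 0` on the spectrum
  have h5 : ∀ z ∈ spectrum ℂ T, z * (star z * z) = ((Real.exp (-A0) : ℝ) : ℂ) * z := by
    intro z hz
    by_cases hz0 : z = 0
    · rw [hz0]; simp
    · have h6 := h4 hz
      unfold gX at h6
      simp only at h6
      have h7 : (starRingEnd ℂ) z ≠ 0 := by rwa [Ne, map_eq_zero]
      have h8 : ((Real.log (‖z‖ ^ 2) : ℝ) : ℂ) = ((-A0 : ℝ) : ℂ) := by
        have h9 : (starRingEnd ℂ) z * ((Real.log (‖z‖ ^ 2) : ℝ) : ℂ) = (starRingEnd ℂ) z * ((-A0 : ℝ) : ℂ) := by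
          rw [h6]
          rw [show star z = (starRingEnd ℂ) z from rfl]
          push_cast
          ring
        exact mul_left_cancel₀ h7 h9
      have h10 : Real.log (‖z‖ ^ 2) = -A0 := by exact_mod_cast h8
      have h11 : ‖z‖ ^ 2 = Real.exp (-A0) := by
        rw [← h10, Real.exp_log (by positivity)]
      rw [← h11, Complex.ofReal_pow, ← Complex.conj_mul']
      rw [show star z = (starRingEnd ℂ) z from rfl]
      ring
  have h6 : T * (star T * T) = ((Real.exp (-A0) : ℝ) : ℂ) • T := by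
    have e1 : cfc (fun z : ℂ => z * (star z * z)) T = T * (star T * T) := by
      rw [cfc_mul (fun z : ℂ => z) (fun z : ℂ => star z * z) T (by fun_prop) (by fun_prop),
        cfc_mul (fun z : ℂ => star z) (fun z : ℂ => z) T (by fun_prop) (by fun_prop), cfc_id' ℂ T,
        cfc_star_id T]
    have e2 : cfc (fun z : ℂ => ((Real.exp (-A0) : ℝ) : ℂ) * z) T = ((Real.exp (-A0) : ℝ) : ℂ) • T := by
      rw [cfc_const_mul _ (fun z : ℂ => z) T (by fun_prop), cfc_id' ℂ T]
    rw [← e1, ← e2]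
    exact cfc_congr h5
  ext1 f
  rw [← sub_eq_zero]
  apply h.inj
  have h7 := congrArg (fun L : HH →L[ℂ] HH => L f) h6
  simp only [mul_apply_eq_comp, smul_apply] at h7
  rw [map_sub]
  simp only [mul_apply_eq_comp, smul_apply, one_apply_eq_self, map_smul]
  rw [h7, sub_self]

lemma WSys.lf_of_unitary (h : WSys ψ φ T) (c : ℝ) (hc : 0 < c) (hT : star T * T = (c : ℂ) • 1) :
    IsLF φ := by
  have hc' : (c : ℂ) ≠ 0 := by exact_mod_cast hc.ne'
  have h1 : ∀ u v : ℂ, ‖u‖ < 1 → ‖v‖ < 1 → ψ u * (starRingEnd ℂ) (ψ v) * (1 - u * (starRingEnd ℂ) v)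
      = c * (1 - φ u * (starRingEnd ℂ) (φ v)) := by
    intro u v hu hv
    have h2 := h.L 1 u v hu hv
    rw [pow_one, hT] at h2
    simp only [smul_apply, one_apply_eq_self, inner_smul_right] at h2
    rw [ker_kz u v hu hv] at h2
    simp only [cyc, Finset.prod_range_one, Function.iterate_zero, id, Function.iterate_one] at h2
    have h3 := one_sub_ne' hu hv
    have h4 := one_sub_ne' (h.hm u hu) (h.hm v hv)
    rw [eq_div_iff h4] at h2
    field_simp at h2
    linear_combination -h2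
  have h0 : ‖(0 : ℂ)‖ < 1 := by simp
  obtain ⟨t, ht, h01, -, -⟩ := h.three
  obtain ⟨v, hv, hv'⟩ : ∃ v : ℂ, ‖v‖ < 1 ∧ φ v ≠ φ 0 := by
    by_cases h2 : φ (t 0) = φ 0
    · exact ⟨t 1, (ht 1).1, fun h3 => h01 (h2.trans h3.symm)⟩
    · exact ⟨t 0, (ht 0).1, h2⟩
  have hv0 : v ≠ 0 := by
    rintro rfl
    exact hv' rfl
  have ha := fun z hz => h1 z 0 hz h0
  have hψ0 : (starRingEnd ℂ) (ψ 0) ≠ 0 := by
    intro h2
    have h3 := ha 0 h0
    rw [h2, mul_zero, zero_mul] at h3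
    exact mul_ne_zero hc' (one_sub_ne' (h.hm 0 h0) (h.hm 0 h0)) h3.symm
  have hψv : (starRingEnd ℂ) (ψ v) ≠ 0 := by
    intro h2
    have h3 := h1 v v hv hv
    rw [h2, mul_zero, zero_mul] at h3
    exact mul_ne_zero hc' (one_sub_ne' (h.hm v hv) (h.hm v hv)) h3.symm
  set a := (starRingEnd ℂ) (φ 0) with hadef
  set b := (starRingEnd ℂ) (φ v) with hbdef
  have hab : b - a ≠ 0 := by
    rw [hadef, hbdef, ← map_sub, Ne, map_eq_zero]
    exact sub_ne_zero.mpr hv'
  set k := (starRingEnd ℂ) (ψ v) / (starRingEnd ℂ) (ψ 0) with hk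
  have hk0 : k ≠ 0 := div_ne_zero hψv hψ0
  have hkk : (starRingEnd ℂ) (ψ v) = k * (starRingEnd ℂ) (ψ 0) := by
    rw [hk]; field_simp
  apply isLF_of φ (-(k * (starRingEnd ℂ) v)) (k - 1) (-(a * k * (starRingEnd ℂ) v)) (a * k - b)
  · have h2 : -(k * (starRingEnd ℂ) v) * (a * k - b) - (k - 1) * -(a * k * (starRingEnd ℂ) v)
        = k * (starRingEnd ℂ) v * (b - a) := by ring
    rw [h2]
    refine mul_ne_zero (mul_ne_zero hk0 ?_) hab
    rwa [Ne, map_eq_zero]
  · intro z hz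
    have e1 := ha z hz
    have e2 := h1 z v hz hv
    rw [map_zero, mul_zero, sub_zero, mul_one] at e1
    rw [hkk] at e2
    have h3 : (c : ℂ) * (φ z * (-(a * k * (starRingEnd ℂ) v) * z + (a * k - b)))
        = (c : ℂ) * (-(k * (starRingEnd ℂ) v) * z + (k - 1)) := by
      linear_combination k * (1 - z * (starRingEnd ℂ) v) * e1 - e2
    exact mul_left_cancel₀ hc' h3

/-- the symbol of a nonzero normal weighted composition operator is linear fractional -/
theorem WSys.isLF (h : WSys ψ φ T) : IsLF φ := by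
  obtain ⟨p, q, t0, t1, τ0, τ1, P, Q, hD⟩ := h.exists_Dt
  obtain ⟨A0, A1, c, hX⟩ := hD.Xstar
  by_cases hne : A1 ≠ 0 ∨ c ≠ 0
  · exact ode_solve φ h.hφ h.hm h.hfix A1 c (h.ode_of A0 A1 c hX) hne
  · push Not at hne
    obtain ⟨h1, h2⟩ := hne
    obtain ⟨c', hc', hT⟩ := h.unitary_case A0 (by
      intro f v hv
      rw [hX f v hv, h1, h2]
      simp)
    exact h.lf_of_unitary c' hc' hT

end

end Pool.Agent.Helper76.NW
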