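import Mathlib

set_option autoImplicit false

open scoped Topology ENNReal NNReal ComplexOrder
open Filter

namespace Pool.Agent.Helper76.Rota

section summ

variable {A : Type*} [NormedRing A] [NormedAlgebra ℂ A] [CompleteSpace A]

theorem pow_bound {y : A} (hy : spectralRadius ℂ y < 1) :
    ∃ q : ℝ, 0 ≤ q ∧ q < 1 ∧ ∀ᶠ n : ℕ in atTop, ‖y ^ n‖ ≤ q ^ n := by
  obtain ⟨q, hq1, hq2⟩ := ENNReal.lt_iff_exists_nnreal_btwn.1 hy
  refine ⟨q, q.2, by exact_mod_cast hq2, ?_⟩
  have h := spectrum.pow_nnnorm_pow_one_div_tendsto_nhds_spectralRadius y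
  filter_upwards [h.eventually (gt_mem_nhds hq1), eventually_gt_atTop 0] with n hn hn0
  have h2 : ((‖y ^ n‖₊ : ℝ≥0∞) ^ (1 / (n : ℝ))) ≤ (q : ℝ≥0∞) := hn.le
  have h3 := ENNReal.rpow_le_rpow h2 (Nat.cast_nonneg n : (0 : ℝ) ≤ n)
  rw [← ENNReal.rpow_mul, one_div_mul_cancel (by positivity), ENNReal.rpow_one,
    ENNReal.rpow_natCast] at h3
  exact_mod_cast h3

end summ

section cstar

variable {B : Type*} [CStarAlgebra B]

attribute [local instance] CStarAlgebra.spectralOrder CStarAlgebra.spectralOrderedRing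

theorem summable_sq {y : B} (hy : spectralRadius ℂ y < 1) :
    Summable (fun n : ℕ => star (y ^ n) * y ^ n) := by
  obtain ⟨q, hq0, hq1, hq⟩ := pow_bound hy
  have hs : Summable (fun n : ℕ => q ^ n) := summable_geometric_of_lt_one hq0 hq1
  refine Summable.of_norm_bounded_eventually_nat hs ?_
  filter_upwards [hq] with n hn
  rw [CStarRing.norm_star_mul_self]
  have h1 : q ^ n ≤ 1 := pow_le_one₀ hq0 hq1.le
  have h2 : 0 ≤ q ^ n := by positivity
  calc ‖y ^ n‖ * ‖y ^ n‖ ≤ q ^ n * q ^ n := by gcongr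
    _ ≤ q ^ n * 1 := by gcongr
    _ = q ^ n := mul_one _

theorem exists_unit {y : B} (hy : spectralRadius ℂ y < 1) :
    ∃ s t : B, star s = s ∧ star t = t ∧ s * t = 1 ∧ t * s = 1 ∧
      star (s * y * t) * (s * y * t) = 1 - t * t := by
  have hsum := summable_sq hy
  set b : B := ∑' n : ℕ, star (y ^ n) * y ^ n with hb
  have hb1 : b = 1 + star y * b * y := by
    have h1 := hsum.tsum_eq_zero_add
    have h2 : ∑' n : ℕ, star (y ^ (n + 1)) * y ^ (n + 1) = star y * b * y := by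
      have h3 : (fun n : ℕ => star (y ^ (n + 1)) * y ^ (n + 1)) =
          fun n => star y * (star (y ^ n) * y ^ n) * y := by
        funext n
        rw [pow_succ, star_mul]
        noncomm_ring
      rw [h3, Summable.tsum_mul_right _ (hsum.mul_left _), Summable.tsum_mul_left _ hsum]
    rw [h2] at h1
    rw [pow_zero, star_one, one_mul] at h1
    exact h1
  have hb0 : 0 ≤ b := tsum_nonneg fun n => star_mul_self_nonneg _
  have hb2 : 1 ≤ b := by
    rw [hb1]
    exact le_add_of_nonneg_right (star_left_conjugate_nonneg hb0 y)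
  have hbu : IsUnit b := CStarAlgebra.isUnit_of_le 1 hb2 isStrictlyPositive_one
  have hsu : IsUnit (CFC.sqrt b) := (CFC.isUnit_sqrt_iff b hb0).2 hbu
  have hss : CFC.sqrt b * CFC.sqrt b = b := CFC.sqrt_mul_sqrt_self b hb0
  have hs0 : 0 ≤ CFC.sqrt b := CFC.sqrt_nonneg b
  have hst : star (CFC.sqrt b) = CFC.sqrt b := (IsSelfAdjoint.of_nonneg hs0).star_eq
  obtain ⟨u, hu⟩ := hsu
  have h1 : CFC.sqrt b * (↑u⁻¹ : B) = 1 := by rw [← hu]; exact u.mul_inv
  have h2 : (↑u⁻¹ : B) * CFC.sqrt b = 1 := by rw [← hu]; exact u.inv_mul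
  have h3 : star (↑u⁻¹ : B) = (↑u⁻¹ : B) := by
    have h4 : CFC.sqrt b * star (↑u⁻¹ : B) = 1 := by
      have := congrArg star h2
      rwa [star_mul, star_one, hst] at this
    calc star (↑u⁻¹ : B) = (↑u⁻¹ * CFC.sqrt b) * star (↑u⁻¹ : B) := by rw [h2, one_mul]
      _ = ↑u⁻¹ * (CFC.sqrt b * star (↑u⁻¹ : B)) := by rw [mul_assoc]
      _ = ↑u⁻¹ := by rw [h4, mul_one]
  refine ⟨CFC.sqrt b, ↑u⁻¹, hst, h3, h1, h2, ?_⟩
  set s := CFC.sqrt b with hsdef
  set t : B := ↑u⁻¹ with ht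
  rw [star_mul, star_mul, h3, hst]
  calc t * (star y * s) * (s * y * t) = t * (star y * (s * s) * y) * t := by noncomm_ring
    _ = t * (star y * b * y) * t := by rw [hss]
    _ = t * (b - 1) * t := by
        congr 2
        rw [eq_sub_iff_add_eq, add_comm]
        exact hb1.symm
    _ = t * (s * s - 1) * t := by rw [hss]
    _ = (t * s) * (s * t) - t * t := by noncomm_ring
    _ = 1 - t * t := by rw [h1, h2, one_mul]

/-- A tracial state on a unital C*-algebra is bounded by the spectral radius. -/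
theorem trace_le {τ : B →ₗ[ℂ] ℂ} (h1 : τ 1 = 1) (hpos : ∀ x : B, 0 ≤ τ (star x * x))
    (htr : ∀ x y : B, τ (x * y) = τ (y * x)) {y : B} (hy : spectralRadius ℂ y < 1) :
    ‖τ y‖ ≤ 1 := by
  obtain ⟨s, t, hs, ht, hst, hts, hw⟩ := exists_unit hy
  set w := s * y * t with hwdef
  have hτw : τ w = τ y := by
    rw [hwdef, htr (s * y) t, ← mul_assoc, hts, one_mul]
  have h2 : 0 ≤ τ (t * t) := by
    have := hpos t
    rwa [ht] at this
  have h3 : τ (star w * w) = 1 - τ (t * t) := by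
    rw [hw, map_sub, h1]
  -- hermitian
  have h4 : ∀ a : ℂ, 0 ≤ τ (star w * w) + a * τ (star w) + star a * τ w + star a * a := by
    intro a
    have := hpos (w + a • 1)
    have e : star (w + a • (1 : B)) * (w + a • 1) =
        star w * w + a • star w + (star a) • w + (star a * a) • (1 : B) := by
      rw [star_add, star_smul, star_one, add_mul, mul_add, mul_add, mul_smul_comm, mul_one,
        smul_mul_assoc, one_mul, smul_mul_smul_comm, one_mul]
      abel
    rw [e] at this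
    simpa [h1] using this
  have h5 : (τ (star w)).im = -(τ w).im := by
    have a1 := (Complex.nonneg_iff.1 (h4 1)).2
    have a2 := (Complex.nonneg_iff.1 (h4 0)).2
    simp at a1 a2
    linarith
  have h6 : (τ (star w)).re = (τ w).re := by
    have a1 := (Complex.nonneg_iff.1 (h4 Complex.I)).2
    have a2 := (Complex.nonneg_iff.1 (h4 0)).2
    simp at a1 a2
    linarith
  have h7 : τ (star w) = star (τ w) := by
    apply Complex.ext
    · rw [h6]; simp
    · rw [h5]; simp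
  have h8 := h4 (-τ w)
  rw [h7, h3] at h8
  have h9 := (Complex.nonneg_iff.1 h8).1
  have h10 := (Complex.nonneg_iff.1 h2).1
  have h11 : ‖τ w‖ ^ 2 = (τ w).re ^ 2 + (τ w).im ^ 2 := by
    rw [← Complex.normSq_eq_norm_sq, Complex.normSq_apply]; ring
  simp at h9
  rw [← hτw]
  have h12 : ‖τ w‖ ^ 2 ≤ 1 := by
    rw [h11]
    nlinarith
  nlinarith [norm_nonneg (τ w)]

theorem trace_le_radius {τ : B →ₗ[ℂ] ℂ} (h1 : τ 1 = 1) (hpos : ∀ x : B, 0 ≤ τ (star x * x))
    (htr : ∀ x y : B, τ (x * y) = τ (y * x)) (y : B) :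
    (‖τ y‖₊ : ℝ≥0∞) ≤ spectralRadius ℂ y := by
  by_contra hlt
  push Not at hlt
  obtain ⟨c, hc1, hc2⟩ := ENNReal.lt_iff_exists_nnreal_btwn.1 hlt
  have hc0 : (0 : ℝ≥0) < c := by
    have : (0 : ℝ≥0∞) < c := lt_of_le_of_lt bot_le hc1
    exact_mod_cast this
  have hcc : ((c : ℝ) : ℂ) ≠ 0 := by
    have : (c : ℝ) ≠ 0 := by exact_mod_cast hc0.ne'
    exact_mod_cast this
  have h2 : spectralRadius ℂ (((c : ℝ) : ℂ)⁻¹ • y) < 1 := by
    have e : spectralRadius ℂ (((c : ℝ) : ℂ)⁻¹ • y) ≤ spectralRadius ℂ y / (c : ℝ≥0∞) := by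
      unfold spectralRadius
      refine iSup₂_le fun w hw => ?_
      have h3 : ((c : ℝ) : ℂ) * w ∈ spectrum ℂ y := by
        let u : ℂˣ := Units.mk0 ((c : ℝ) : ℂ) hcc
        have h4 := spectrum.smul_mem_smul_iff (r := u) (s := w) (a := ((c : ℝ) : ℂ)⁻¹ • y)
        have h5 := h4.2 hw
        have e1 : (u • (((c : ℝ) : ℂ)⁻¹ • y)) = y := by
          show ((c : ℝ) : ℂ) • (((c : ℝ) : ℂ)⁻¹ • y) = y
          rw [smul_smul, mul_inv_cancel₀ hcc, one_smul]
        rw [e1] at h5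
        exact h5
      have h6 : (‖((c : ℝ) : ℂ) * w‖₊ : ℝ≥0∞) ≤ ⨆ k ∈ spectrum ℂ y, (‖k‖₊ : ℝ≥0∞) :=
        le_iSup₂ (f := fun (k : ℂ) (_ : k ∈ spectrum ℂ y) => (‖k‖₊ : ℝ≥0∞)) _ h3
      rw [ENNReal.le_div_iff_mul_le (Or.inl (by exact_mod_cast hc0.ne'))
        (Or.inl ENNReal.coe_ne_top)]
      refine le_trans (le_of_eq ?_) h6
      rw [nnnorm_mul, mul_comm, ENNReal.coe_mul]
      congr 2
      ext
      simp
    refine lt_of_le_of_lt e ?_
    rw [ENNReal.div_lt_iff (Or.inl (by exact_mod_cast hc0.ne')) (Or.inl ENNReal.coe_ne_top),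
      one_mul]
    exact hc1
  have h3 := trace_le h1 hpos htr h2
  rw [map_smul, norm_smul, norm_inv] at h3
  have h4 : ‖((c : ℝ) : ℂ)‖ = c := by simp
  rw [h4] at h3
  have h5 : (c : ℝ) < ‖τ y‖ := by exact_mod_cast hc2
  have h6 : (0 : ℝ) < c := by exact_mod_cast hc0
  rw [inv_mul_le_iff₀ h6, mul_one] at h3
  linarith

end cstar

end Pool.Agent.Helper76.Rota
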