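import Pool.Agent.Helper76.Hardy

set_option autoImplicit false
open Complex Filter Topology Metric
open Finset (range)

namespace Pool.Agent.Helper76.Zp
open Pool.Agent.Helper76.Hardy

/-- the power series `F` represents `f` on the unit disc -/
def Rep (F : PowerSeries ℂ) (f : ℂ → ℂ) : Prop :=
  ∀ z : ℂ, ‖z‖ < 1 → HasSum (fun k : ℕ => PowerSeries.coeff k F * z ^ k) (f z)

section
variable {F G : PowerSeries ℂ} {f g : ℂ → ℂ}

lemma Rep.norm_summable (h : Rep F f) (z : ℂ) (hz : ‖z‖ < 1) :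
    Summable (fun k : ℕ => ‖PowerSeries.coeff k F * z ^ k‖) := (h z hz).summable.norm

lemma Rep.summable_r (h : Rep F f) (r : ℝ) (h0 : 0 ≤ r) (h1 : r < 1) :
    Summable (fun k : ℕ => ‖PowerSeries.coeff k F‖ * r ^ k) := by
  have h2 := h.norm_summable (r : ℂ) (by rw [Complex.norm_real, Real.norm_of_nonneg h0]; exact h1)
  convert h2 using 2 with k
  rw [norm_mul, norm_pow, Complex.norm_real, Real.norm_of_nonneg h0]

lemma Rep.bdd (h : Rep F f) (r : ℝ) (h0 : 0 ≤ r) (h1 : r < 1) :
    ∃ B : ℝ, ∀ k : ℕ, ‖PowerSeries.coeff k F‖ * r ^ k ≤ B := by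
  have h2 := h.summable_r r h0 h1
  refine ⟨∑' k : ℕ, ‖PowerSeries.coeff k F‖ * r ^ k, fun k => ?_⟩
  exact h2.le_tsum k (fun j _ => by positivity)

lemma Rep.mul (hF : Rep F f) (hG : Rep G g) : Rep (F * G) (fun z => f z * g z) := by
  intro z hz
  have h1 := hF.norm_summable z hz
  have h2 := hG.norm_summable z hz
  have h3 := tsum_mul_tsum_eq_tsum_sum_antidiagonal_of_summable_norm h1 h2
  have h4 := summable_norm_sum_mul_antidiagonal_of_summable_norm h1 h2
  rw [(hF z hz).tsum_eq, (hG z hz).tsum_eq] at h3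
  simp only
  rw [h3]
  have h5 : (fun k : ℕ => PowerSeries.coeff k (F * G) * z ^ k)
      = fun n => ∑ kl ∈ Finset.HasAntidiagonal.antidiagonal n, PowerSeries.coeff kl.1 F * z ^ kl.1
        * (PowerSeries.coeff kl.2 G * z ^ kl.2) := by
    ext n
    rw [PowerSeries.coeff_mul, Finset.sum_mul]
    apply Finset.sum_congr rfl
    intro x hx
    rw [← Finset.HasAntidiagonal.mem_antidiagonal.mp hx, pow_add]
    ring
  rw [h5]
  exact h4.of_norm.hasSum

lemma Rep.one : Rep 1 (fun _ => 1) := by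
  intro z hz
  have h1 : (fun k : ℕ => PowerSeries.coeff k (1 : PowerSeries ℂ) * z ^ k)
      = fun k => if k = 0 then 1 else 0 := by
    ext k
    rw [PowerSeries.coeff_one]
    split_ifs with h
    · rw [h]; simp
    · simp
  rw [h1]
  exact hasSum_ite_eq 0 1

lemma Rep.add (hF : Rep F f) (hG : Rep G g) : Rep (F + G) (fun z => f z + g z) := by
  intro z hz
  have := (hF z hz).add (hG z hz)
  simpa [add_mul] using this

lemma Rep.smul (hF : Rep F f) (c : ℂ) : Rep (c • F) (fun z => c * f z) := by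
  intro z hz
  have := (hF z hz).mul_left c
  simpa [mul_assoc] using this

lemma Rep.pow (hF : Rep F f) (n : ℕ) : Rep (F ^ n) (fun z => f z ^ n) := by
  induction n with
  | zero => simpa using Rep.one
  | succ n ih =>
    have := ih.mul hF
    simpa [pow_succ] using this

lemma Rep.zero : Rep 0 (fun _ => 0) := by
  intro z hz
  simp

lemma Rep.sum {ι : Type} (s : Finset ι) (F : ι → PowerSeries ℂ) (f : ι → ℂ → ℂ)
    (h : ∀ i ∈ s, Rep (F i) (f i)) : Rep (∑ i ∈ s, F i) (fun z => ∑ i ∈ s, f i z) := by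
  classical
  induction s using Finset.induction_on with
  | empty => simpa using Rep.zero
  | insert a s ha ih =>
    rw [Finset.sum_insert ha]
    have h1 := (h a (Finset.mem_insert_self a s)).add
      (ih (fun i hi => h i (Finset.mem_insert_of_mem hi)))
    simpa [Finset.sum_insert ha] using h1

lemma Rep.congr (hF : Rep F f) (h : ∀ z : ℂ, ‖z‖ < 1 → f z = g z) : Rep F g := by
  intro z hz
  rw [← h z hz]
  exact hF z hz

lemma circleAverage_scale (q : ℂ → ℝ) (r s : ℝ) (hs : s ≠ 0) :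
    Real.circleAverage (fun z => q (s * z)) 0 (r / s) = Real.circleAverage q 0 r := by
  unfold Real.circleAverage
  congr 1
  apply intervalIntegral.integral_congr
  intro θ _
  simp only [circleMap_zero]
  congr 1
  push_cast
  have : (s : ℂ) ≠ 0 := by exact_mod_cast hs
  field_simp

lemma Rep.parseval (h : Rep F f) (r : ℝ) (h0 : 0 ≤ r) (h1 : r < 1) :
    Tendsto (fun N : ℕ => ∑ k ∈ range N, ‖PowerSeries.coeff k F‖ ^ 2 * (r ^ 2) ^ k) atTop
      (𝓝 (Real.circleAverage (fun z => ‖f z‖ ^ 2) 0 r)) := by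
  obtain ⟨s, hs1, hs2⟩ := exists_between h1
  have hs0 : 0 < s := h0.trans_lt hs1
  obtain ⟨B, hB⟩ := h.bdd s hs0.le hs2
  set a : ℕ → ℂ := fun k => PowerSeries.coeff k F * (s : ℂ) ^ k with ha
  have haB : ∀ k, ‖a k‖ ≤ B := by
    intro k
    rw [ha]
    simp only [norm_mul, norm_pow, Complex.norm_real, Real.norm_of_nonneg hs0.le]
    exact hB k
  have h2 := parseval_inf a B haB (r / s) (by positivity) (by rw [div_lt_one hs0]; exact hs1)
  have h3 : Real.circleAverage (fun z => ‖ev a z‖ ^ 2) 0 (r / s)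
      = Real.circleAverage (fun z => ‖f z‖ ^ 2) 0 r := by
    rw [← circleAverage_scale (fun z => ‖f z‖ ^ 2) r s hs0.ne']
    apply Real.circleAverage_congr_sphere
    intro z hz
    have hz1 : ‖z‖ = r / s := by
      have : ‖z‖ = |r / s| := by simpa using hz
      rwa [abs_of_nonneg (by positivity)] at this
    have hz2 : ‖(s : ℂ) * z‖ < 1 := by
      rw [norm_mul, Complex.norm_real, Real.norm_of_nonneg hs0.le, hz1]
      rw [mul_div_cancel₀ _ hs0.ne']
      exact h1
    have h4 := (h _ hz2).tsum_eq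
    simp only
    rw [← h4]
    congr 2
    unfold ev
    apply tsum_congr
    intro k
    rw [ha, mul_pow]
    ring
  rw [h3] at h2
  refine h2.congr ?_
  intro N
  apply Finset.sum_congr rfl
  intro k _
  rw [ha]
  simp only [norm_mul, norm_pow, Complex.norm_real, Real.norm_of_nonneg hs0.le]
  have : (s ^ k) ≠ 0 := by positivity
  rw [mul_pow, div_pow, div_pow]
  field_simp
  ring

lemma Rep.sum_le (h : Rep F f) (r : ℝ) (h0 : 0 ≤ r) (h1 : r < 1) (N : ℕ) :
    ∑ k ∈ range N, ‖PowerSeries.coeff k F‖ ^ 2 * (r ^ 2) ^ k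
      ≤ Real.circleAverage (fun z => ‖f z‖ ^ 2) 0 r := by
  apply ge_of_tendsto (h.parseval r h0 h1)
  filter_upwards [eventually_ge_atTop N] with m hm
  apply Finset.sum_le_sum_of_subset_of_nonneg
  · intro x hx
    simp at hx ⊢
    omega
  · intros; positivity

lemma Rep.continuousOn (h : Rep F f) (r : ℝ) (h0 : 0 ≤ r) (h1 : r < 1) :
    ContinuousOn f (closedBall 0 r) := by
  have h2 := h.summable_r r h0 h1
  have h3 : TendstoUniformlyOn (fun N : ℕ => fun z : ℂ => ∑ k ∈ range N, PowerSeries.coeff k F * z ^ k)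
      (fun z => ∑' k : ℕ, PowerSeries.coeff k F * z ^ k) atTop (closedBall (0 : ℂ) r) := by
    apply tendstoUniformlyOn_tsum_nat h2
    intro k z hz
    rw [mem_closedBall_zero_iff] at hz
    rw [norm_mul, norm_pow]
    exact mul_le_mul_of_nonneg_left (pow_le_pow_left₀ (norm_nonneg _) hz k) (norm_nonneg _)
  have h4 : ContinuousOn (fun z => ∑' k : ℕ, PowerSeries.coeff k F * z ^ k) (closedBall (0 : ℂ) r) := by
    apply h3.continuousOn
    apply Filter.Eventually.frequently
    filter_upwards with N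
    fun_prop
  refine h4.congr ?_
  intro z hz
  rw [mem_closedBall_zero_iff] at hz
  exact ((h z (hz.trans_lt h1)).tsum_eq).symm

lemma Rep.coeff_le (h : Rep F f) (r s : ℝ) (h0 : 0 ≤ r) (h1 : r < 1) (hs : 0 ≤ s)
    (hb : ∀ z : ℂ, ‖z‖ = r → ‖f z‖ ≤ s) (k : ℕ) : ‖PowerSeries.coeff k F‖ * r ^ k ≤ s := by
  have h2 := h.sum_le r h0 h1 (k + 1)
  have h3 : Real.circleAverage (fun z => ‖f z‖ ^ 2) 0 r ≤ s ^ 2 := by
    apply Real.circleAverage_mono_on_of_le_circle
    · apply ContinuousOn.circleIntegrable'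
      apply ((h.continuousOn r h0 h1).mono ?_).norm.pow 2
      intro z hz
      have : ‖z‖ = |r| := by simpa using hz
      rw [mem_closedBall_zero_iff, this, abs_of_nonneg h0]
    · intro z hz
      have : ‖z‖ = |r| := by simpa using hz
      rw [abs_of_nonneg h0] at this
      exact pow_le_pow_left₀ (norm_nonneg _) (hb z this) 2
  have h4 : ‖PowerSeries.coeff k F‖ ^ 2 * (r ^ 2) ^ k ≤ s ^ 2 := by
    refine le_trans ?_ (h2.trans h3)
    apply Finset.single_le_sum (f := fun k => ‖PowerSeries.coeff k F‖ ^ 2 * (r ^ 2) ^ k)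
      (fun i _ => by positivity) (Finset.self_mem_range_succ k)
  have h5 : (‖PowerSeries.coeff k F‖ * r ^ k) ^ 2 ≤ s ^ 2 := by
    rw [mul_pow, ← pow_mul, mul_comm k 2, pow_mul]
    exact h4
  exact (sq_le_sq₀ (by positivity) hs).mp h5

lemma Rep.unique (hF : Rep F f) (hG : Rep G g) (h : ∀ z : ℂ, ‖z‖ < 1 → f z = g z) : F = G := by
  have h1 : Rep (F + (-1 : ℂ) • G) (fun _ => 0) := by
    apply (hF.add (hG.smul (-1))).congr
    intro z hz
    rw [h z hz]
    ring
  ext k
  have h2 := h1.coeff_le (1 / 2) 0 (by norm_num) (by norm_num) le_rfl (fun z _ => by simp) k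
  have h3 : ‖PowerSeries.coeff k (F + (-1 : ℂ) • G)‖ = 0 := by
    have h4 : (0 : ℝ) < (1 / 2) ^ k := by positivity
    nlinarith [norm_nonneg (PowerSeries.coeff k (F + (-1 : ℂ) • G))]
  rw [norm_eq_zero, map_add, map_smul] at h3
  simp only [smul_eq_mul] at h3
  linear_combination h3

lemma exists_Rep (f : ℂ → ℂ) (hf : DifferentiableOn ℂ f (ball (0 : ℂ) 1)) :
    ∃ F : PowerSeries ℂ, Rep F f := by
  refine ⟨PowerSeries.mk (fun n => ((n.factorial : ℂ))⁻¹ * iteratedDeriv n f 0), ?_⟩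
  intro z hz
  have h1 := Complex.hasSum_taylorSeries_on_ball hf (show z ∈ ball (0 : ℂ) 1 by
    rwa [mem_ball_zero_iff])
  simp only [PowerSeries.coeff_mk]
  have h2 : (fun n : ℕ => ((n.factorial : ℂ))⁻¹ * iteratedDeriv n f 0 * z ^ n)
      = fun n : ℕ => ((n.factorial : ℂ))⁻¹ • (z - 0) ^ n • iteratedDeriv n f 0 := by
    ext n
    simp only [sub_zero, smul_eq_mul]
    ring
  rw [h2]
  exact h1

end

end Pool.Agent.Helper76.Zp
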