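import Pool.Agent.Helper76.Z9

set_option autoImplicit false
open Complex Filter Topology Metric
open Finset (range Ico)

namespace Pool.Agent.Helper76.Zp
open Pool.Agent.Helper76.Hardy

lemma growth {β : ℕ → ℝ} (hβ : ∀ n, 0 < β n) (hZ : PZ β) (R : ℝ) (hR : 1 < R) :
    ∃ C : ℝ, 0 < C ∧ ∀ n, β n ≤ C * R ^ n := by
  obtain ⟨M, hM1, hM⟩ := hZ.step hβ
  have key : ∀ N : ℕ, 3 ≤ N → β N ≤ 64 * M * ((N / 3 : ℕ) : ℝ) ^ 2 * β (N - N / 3) := by
    intro N hN
    set k := N / 3 with hk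
    have hk1 : 1 ≤ k := by omega
    obtain ⟨n, hn⟩ : ∃ n, N = n + k := ⟨N - k, by omega⟩
    have hnk : N - k = n := by omega
    rw [hnk]
    have h1 : 2 * k ≤ n := by omega
    have h2 : n ≤ 2 * k + 2 := by omega
    have h3 : k.centralBinom ≤ n.choose k := by
      rw [Nat.centralBinom_eq_two_mul_choose]
      exact Nat.choose_le_choose k h1
    have h4 : 4 ^ k ≤ 2 * k * k.centralBinom := Nat.four_pow_le_two_mul_self_mul_centralBinom k (by omega)
    have h5 : (4 : ℝ) ^ k ≤ 2 * k * (n.choose k : ℝ) := by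
      have : 4 ^ k ≤ 2 * k * n.choose k := h4.trans (Nat.mul_le_mul_left _ h3)
      exact_mod_cast this
    have hk0 : (0 : ℝ) < k := by exact_mod_cast hk1
    have h6 : 1 / (8 * (k : ℝ)) ≤ (n.choose k : ℝ) / 2 ^ n := by
      rw [div_le_div_iff₀ (by positivity) (by positivity), one_mul]
      calc (2 : ℝ) ^ n ≤ 2 ^ (2 * k + 2) := pow_le_pow_right₀ (by norm_num) h2
        _ = 4 * 4 ^ k := by rw [pow_add, pow_mul]; norm_num; ring
        _ ≤ 4 * (2 * k * (n.choose k : ℝ)) := by gcongr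
        _ = (n.choose k : ℝ) * (8 * k) := by ring
    have h7 := hM n k
    rw [← hn] at h7
    have hbN := hβ N
    have h8 : (1 / (8 * (k : ℝ))) ^ 2 * β N ≤ M * β n := by
      refine le_trans ?_ h7
      apply mul_le_mul_of_nonneg_right _ hbN.le
      exact pow_le_pow_left₀ (by positivity) h6 2
    calc β N = 64 * (k : ℝ) ^ 2 * ((1 / (8 * (k : ℝ))) ^ 2 * β N) := by field_simp; norm_num
      _ ≤ 64 * (k : ℝ) ^ 2 * (M * β n) := by gcongr
      _ = 64 * M * (k : ℝ) ^ 2 * β n := by ring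
  obtain ⟨B, hB, hB1⟩ := poly_le_exp 3 R hR
  obtain ⟨k0, hk0⟩ := exists_nat_ge (64 * M * B)
  set N1 := 3 * k0 + 3 with hN1
  have hS0 : 0 ≤ ∑ n ∈ range N1, β n := Finset.sum_nonneg (fun i _ => (hβ i).le)
  set C := ∑ n ∈ range N1, β n + 1 with hC
  refine ⟨C, by positivity, ?_⟩
  intro N
  induction N using Nat.strong_induction_on with
  | _ N ih =>
    by_cases hN : N < N1
    · have h1 : β N ≤ C := by
        have := Finset.single_le_sum (f := β) (fun i _ => (hβ i).le) (Finset.mem_range.mpr hN)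
        linarith
      refine h1.trans ?_
      exact le_mul_of_one_le_right (by positivity) (one_le_pow₀ hR.le)
    · push Not at hN
      set k := N / 3 with hk
      have hkk : k0 + 1 ≤ k := by omega
      have hk1 : 1 ≤ k := by omega
      have h1 := key N (by omega)
      rw [← hk] at h1
      have h2 := ih (N - k) (by omega)
      have hkr : (k0 : ℝ) ≤ k := by
        have : k0 ≤ k := by omega
        exact_mod_cast this
      have h3 : 64 * M * (k : ℝ) ^ 2 ≤ R ^ k := by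
        have h4 := hB1 k
        have h5 : 64 * M * B * (k : ℝ) ^ 2 ≤ (k : ℝ) ^ 3 := by
          calc 64 * M * B * (k : ℝ) ^ 2 ≤ (k : ℝ) * (k : ℝ) ^ 2 := by
                apply mul_le_mul_of_nonneg_right (hk0.trans hkr) (by positivity)
            _ = (k : ℝ) ^ 3 := by ring
        have h6 : B * (64 * M * (k : ℝ) ^ 2) ≤ B * R ^ k := by
          calc B * (64 * M * (k : ℝ) ^ 2) = 64 * M * B * (k : ℝ) ^ 2 := by ring
            _ ≤ (k : ℝ) ^ 3 := h5
            _ ≤ B * R ^ k := h4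
        exact le_of_mul_le_mul_left h6 hB
      have hC0 : 0 < C := by positivity
      calc β N ≤ 64 * M * (k : ℝ) ^ 2 * β (N - k) := h1
        _ ≤ R ^ k * (C * R ^ (N - k)) := by
            apply mul_le_mul h3 h2 (hβ _).le (by positivity)
        _ = C * (R ^ k * R ^ (N - k)) := by ring
        _ = C * R ^ N := by rw [← pow_add, show k + (N - k) = N by omega]

/-! ### automorphisms -/

/-- power series of `(z + a) / (1 + a z)` -/
noncomputable def Au (a : ℝ) : PowerSeries ℝ :=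
  PowerSeries.mk (fun k => if k = 0 then a else (1 - a ^ 2) * (-a) ^ (k - 1))

lemma Au_zero (a : ℝ) : PowerSeries.coeff 0 (Au a) = a := by
  rw [Au, PowerSeries.coeff_mk, if_pos rfl]

lemma Au_succ (a : ℝ) (k : ℕ) : PowerSeries.coeff (k + 1) (Au a) = (1 - a ^ 2) * (-a) ^ k := by
  rw [Au, PowerSeries.coeff_mk, if_neg (Nat.succ_ne_zero k), Nat.add_sub_cancel]

/-- the function -/
noncomputable def au (a : ℝ) (z : ℂ) : ℂ := (z + a) / (1 + a * z)

lemma one_add_ne (a : ℝ) (ha : |a| < 1) (z : ℂ) (hz : ‖z‖ < 1) : (1 : ℂ) + a * z ≠ 0 := by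
  intro h
  have h1 : (a : ℂ) * z = -1 := by linear_combination h
  have h2 : ‖(a : ℂ) * z‖ < 1 := by
    rw [norm_mul, Complex.norm_real, Real.norm_eq_abs]
    nlinarith [norm_nonneg z, abs_nonneg a]
  rw [h1] at h2
  simp at h2

lemma Au_rep (a : ℝ) (ha : |a| < 1) : Rep (cx (Au a)) (au a) := by
  intro z hz
  have hne := one_add_ne a ha z hz
  have h1 : ‖-((a : ℂ) * z)‖ < 1 := by
    rw [norm_neg, norm_mul, Complex.norm_real, Real.norm_eq_abs]
    nlinarith [norm_nonneg z, abs_nonneg a]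
  have h2 := (hasSum_geometric_of_norm_lt_one h1).mul_left ((1 - (a : ℂ) ^ 2) * z)
  have h3 : au a z = (a : ℂ) + (1 - (a : ℂ) ^ 2) * z * (1 - -((a : ℂ) * z))⁻¹ := by
    unfold au
    rw [sub_neg_eq_add, ← div_eq_mul_inv, div_eq_iff hne, add_mul, div_mul_cancel₀ _ hne]
    ring
  rw [h3]
  have h4 : HasSum (fun k : ℕ => PowerSeries.coeff (k + 1) (cx (Au a)) * z ^ (k + 1))
      ((1 - (a : ℂ) ^ 2) * z * (1 - -((a : ℂ) * z))⁻¹) := by
    have h5 : (fun k : ℕ => PowerSeries.coeff (k + 1) (cx (Au a)) * z ^ (k + 1)) =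
        fun k : ℕ => (1 - (a : ℂ) ^ 2) * z * (-((a : ℂ) * z)) ^ k := by
      ext k
      rw [cx_coeff1, Au_succ]
      push_cast
      rw [neg_pow, neg_pow ((a : ℂ) * z), mul_pow, pow_succ]
      ring
    rw [h5]
    exact h2
  have h6 : HasSum (fun k : ℕ => PowerSeries.coeff (k + 1) (cx (Au a)) * z ^ (k + 1))
      ((a : ℂ) + (1 - (a : ℂ) ^ 2) * z * (1 - -((a : ℂ) * z))⁻¹ -
        ∑ k ∈ range 1, PowerSeries.coeff k (cx (Au a)) * z ^ k) := by
    rw [Finset.range_one, Finset.sum_singleton, cx_coeff1, Au_zero, pow_zero, mul_one, add_sub_cancel_left]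
    exact h4
  exact (hasSum_nat_add_iff' (f := fun k : ℕ => PowerSeries.coeff k (cx (Au a)) * z ^ k) 1).mp h6

lemma au_lt (a : ℝ) (ha : |a| < 1) (z : ℂ) (hz : ‖z‖ < 1) : ‖au a z‖ < 1 := by
  have hne := one_add_ne a ha z hz
  unfold au
  rw [norm_div, div_lt_one (norm_pos_iff.mpr hne)]
  have h1 : ‖z + a‖ ^ 2 < ‖1 + (a : ℂ) * z‖ ^ 2 := by
    rw [← Complex.normSq_eq_norm_sq, ← Complex.normSq_eq_norm_sq, Complex.normSq_apply,
      Complex.normSq_apply]
    simp only [Complex.add_re, Complex.add_im, Complex.ofReal_re, Complex.ofReal_im, Complex.mul_re,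
      Complex.mul_im, Complex.one_re, Complex.one_im]
    have h2 : z.re ^ 2 + z.im ^ 2 < 1 := by
      have h3 : ‖z‖ ^ 2 < 1 := by
        rw [sq_lt_one_iff₀ (norm_nonneg _)]; exact hz
      rw [← Complex.normSq_eq_norm_sq, Complex.normSq_apply] at h3
      nlinarith
    have h3 : a ^ 2 < 1 := by
      rw [sq_lt_one_iff_abs_lt_one]; exact ha
    nlinarith [mul_pos (show 0 < 1 - (z.re ^ 2 + z.im ^ 2) by linarith) (show 0 < 1 - a ^ 2 by linarith)]
  exact lt_of_pow_lt_pow_left₀ 2 (norm_nonneg _) h1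

lemma Au_pow_cont (n k : ℕ) : Continuous (fun a : ℝ => PowerSeries.coeff k (Au a ^ n)) := by
  induction n generalizing k with
  | zero => simp only [pow_zero]; exact continuous_const
  | succ n ih =>
    simp only [pow_succ, PowerSeries.coeff_mul]
    apply continuous_finsetSum
    intro x _
    apply (ih x.1).mul
    rcases x.2 with _ | j
    · simp only [Au_zero]; exact continuous_id
    · simp only [Au_succ]; fun_prop

lemma Au_summable {β : ℕ → ℝ} (hβ : ∀ n, 0 < β n) (hg : ∀ R : ℝ, 1 < R → ∃ C : ℝ, 0 < C ∧ ∀ n, β n ≤ C * R ^ n)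
    (a : ℝ) (ha : |a| < 1) : Summable (fun k : ℕ => ‖PowerSeries.coeff k (cx (Au a))‖ ^ 2 * β k) := by
  obtain ⟨b, hb1, hb2⟩ := exists_between ha
  have hb0 : 0 < b := (abs_nonneg a).trans_lt hb1
  obtain ⟨C, hC, hCb⟩ := hg (b⁻¹) (by rw [one_lt_inv₀ hb0]; exact hb2)
  rw [← summable_nat_add_iff 1]
  have h1 : Summable (fun k : ℕ => (C * b⁻¹) * b ^ k) :=
    (summable_geometric_of_lt_one hb0.le hb2).mul_left _
  apply Summable.of_nonneg_of_le (fun k => by have := (hβ (k + 1)).le; positivity) _ h1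
  intro k
  rw [cx_coeff1, Au_succ, Complex.norm_real, Real.norm_eq_abs, sq_abs]
  have h2 : a ^ 2 < 1 := by rw [sq_lt_one_iff_abs_lt_one]; exact ha
  have h3 : (1 - a ^ 2) ^ 2 ≤ 1 := by
    have : 0 ≤ a ^ 2 := sq_nonneg a
    nlinarith
  have h4 : ((-a) ^ k) ^ 2 ≤ (b ^ k) ^ 2 := by
    have h5 : ((-a) ^ k) ^ 2 = (|a| ^ k) ^ 2 := by
      rw [← pow_mul, ← pow_mul, mul_comm, pow_mul, pow_mul, neg_sq, sq_abs]
    rw [h5]
    apply pow_le_pow_left₀ (by positivity)
    exact pow_le_pow_left₀ (abs_nonneg _) hb1.le k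
  calc ((1 - a ^ 2) * (-a) ^ k) ^ 2 * β (k + 1) = (1 - a ^ 2) ^ 2 * ((-a) ^ k) ^ 2 * β (k + 1) := by ring
    _ ≤ 1 * (b ^ k) ^ 2 * (C * (b⁻¹) ^ (k + 1)) := by
        have := hCb (k + 1)
        have := (hβ (k + 1)).le
        gcongr
    _ = (C * b⁻¹) * b ^ k * (b ^ k * (b⁻¹) ^ k) := by rw [pow_succ]; ring
    _ = (C * b⁻¹) * b ^ k := by rw [← mul_pow, mul_inv_cancel₀ hb0.ne']; simp

lemma au_nonconst (a : ℝ) (ha : |a| < 1) : ∃ z w : ℂ, ‖z‖ < 1 ∧ ‖w‖ < 1 ∧ au a z ≠ au a w := by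
  refine ⟨0, 1 / 2, by simp, by norm_num, ?_⟩
  have h1 := one_add_ne a ha 0 (by simp)
  have h2 := one_add_ne a ha (1 / 2) (by norm_num)
  unfold au
  rw [Ne, div_eq_div_iff h1 h2]
  intro h3
  have h4 : ((1 : ℂ) - (a : ℂ) ^ 2) = 0 := by linear_combination (-2) * h3
  have h5 : (1 : ℝ) - a ^ 2 = 0 := by exact_mod_cast h4
  have h6 : a ^ 2 < 1 := by rw [sq_lt_one_iff_abs_lt_one]; exact ha
  linarith

/-- parametrisation by the group -/
noncomputable def par (s : ℝ) : ℝ := (Real.exp s - 1) / (Real.exp s + 1)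

lemma par_lt (s : ℝ) : |par s| < 1 := by
  unfold par
  have h := Real.exp_pos s
  rw [abs_lt]
  constructor
  · rw [lt_div_iff₀ (by positivity)]; linarith
  · rw [div_lt_one (by positivity)]; linarith

lemma par_cont : Continuous par := by
  unfold par
  apply Continuous.div (by fun_prop) (by fun_prop)
  intro s
  positivity

lemma fr_aux (u W D : ℂ) (e1 : u + 1 ≠ 0) (hD : D ≠ 0) (h : 1 + (u - 1) / (u + 1) * (W / D) ≠ 0) :
    (u + 1) * D + (u - 1) * W ≠ 0 ∧
    (W / D + (u - 1) / (u + 1)) / (1 + (u - 1) / (u + 1) * (W / D)) =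
      ((u + 1) * W + (u - 1) * D) / ((u + 1) * D + (u - 1) * W) := by
  have h1 : (u + 1) * D + (u - 1) * W = (1 + (u - 1) / (u + 1) * (W / D)) * ((u + 1) * D) := by
    field_simp
  have h2 : (u + 1) * W + (u - 1) * D = (W / D + (u - 1) / (u + 1)) * ((u + 1) * D) := by
    field_simp
  refine ⟨by rw [h1]; exact mul_ne_zero h (mul_ne_zero e1 hD), ?_⟩
  rw [h1, h2, mul_div_mul_right _ _ (mul_ne_zero e1 hD)]

lemma par_add (s t : ℝ) (z : ℂ) (hz : ‖z‖ < 1) : au (par (s + t)) z = au (par s) (au (par t) z) := by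
  have h1 := one_add_ne _ (par_lt t) z hz
  have h2 := one_add_ne _ (par_lt s) (au (par t) z) (au_lt _ (par_lt t) z hz)
  have h3 := one_add_ne _ (par_lt (s + t)) z hz
  have es := Real.exp_pos s
  have et := Real.exp_pos t
  have e1 : (Real.exp s : ℂ) + 1 ≠ 0 := by exact_mod_cast (by positivity : Real.exp s + 1 ≠ 0)
  have e2 : (Real.exp t : ℂ) + 1 ≠ 0 := by exact_mod_cast (by positivity : Real.exp t + 1 ≠ 0)
  have e3 : (Real.exp s : ℂ) * Real.exp t + 1 ≠ 0 := by
    exact_mod_cast (by positivity : Real.exp s * Real.exp t + 1 ≠ 0)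
  have p1 : ((par s : ℝ) : ℂ) = ((Real.exp s : ℂ) - 1) / ((Real.exp s : ℂ) + 1) := by
    unfold par; push_cast; rfl
  have p2 : ((par t : ℝ) : ℂ) = ((Real.exp t : ℂ) - 1) / ((Real.exp t : ℂ) + 1) := by
    unfold par; push_cast; rfl
  have p3 : ((par (s + t) : ℝ) : ℂ) = ((Real.exp s : ℂ) * Real.exp t - 1) / ((Real.exp s : ℂ) * Real.exp t + 1) := by
    unfold par; rw [Real.exp_add]; push_cast; rfl
  set u := (Real.exp s : ℂ) with hu
  set v := (Real.exp t : ℂ) with hv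
  have a1 := fr_aux v z 1 e2 one_ne_zero (by rw [div_one, ← p2]; exact h1)
  have a3 := fr_aux (u * v) z 1 e3 one_ne_zero (by rw [div_one, ← p3]; exact h3)
  have ht : au (par t) z = ((v + 1) * z + (v - 1) * 1) / ((v + 1) * 1 + (v - 1) * z) := by
    rw [← a1.2]; unfold au; rw [p2, div_one]
  have hA : au (par (s + t)) z = ((u * v + 1) * z + (u * v - 1) * 1) / ((u * v + 1) * 1 + (u * v - 1) * z) := by
    rw [← a3.2]; unfold au; rw [p3, div_one]
  rw [ht, p1] at h2
  have a2 := fr_aux u _ _ e1 a1.1 h2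
  have hB : au (par s) (au (par t) z) = ((u + 1) * ((v + 1) * z + (v - 1) * 1) + (u - 1) * ((v + 1) * 1 + (v - 1) * z)) /
      ((u + 1) * ((v + 1) * 1 + (v - 1) * z) + (u - 1) * ((v + 1) * z + (v - 1) * 1)) := by
    rw [← a2.2, ht]; unfold au; rw [p1]
  rw [hA, hB, div_eq_div_iff a3.1 a2.1]
  ring

end Pool.Agent.Helper76.Zp
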