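import Pool.Agent.Helper76.Z10

set_option autoImplicit false
open Complex Filter Topology Metric
open Finset (range Ico)

namespace Pool.Agent.Helper76.Zp
open Pool.Agent.Helper76.Hardy

lemma auto_unif {β : ℕ → ℝ} (hβ : ∀ n, 0 < β n)
    (hlow : ∀ r : ℝ, 0 < r → r < 1 → ∃ c : ℝ, 0 < c ∧ ∀ n, c * r ^ n ≤ β n) (hZ : PZ β) :
    ∃ M : ℝ, 1 ≤ M ∧ ∀ a : ℝ, 0 ≤ a → a ≤ 4 / 5 → Bd β (cx (Au a)) M := by
  have hb : ∀ s : ℝ, ∃ M, Bd β (cx (Au (par s))) M := fun s =>
    hZ _ _ (Au_rep _ (par_lt s)) (au_lt _ (par_lt s)) (au_nonconst _ (par_lt s))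
      (Au_summable hβ (growth hβ hZ) _ (par_lt s))
  obtain ⟨s0, ε, M, hε, hM⟩ := baire (fun s : ℝ => cx (Au (par s)))
    (fun n k => by
      have h1 : (fun s : ℝ => PowerSeries.coeff k (cx (Au (par s)) ^ n)) =
          fun s : ℝ => ((PowerSeries.coeff k (Au (par s) ^ n) : ℝ) : ℂ) := by
        ext s; rw [cx_coeff]
      rw [h1]
      exact Complex.continuous_ofReal.comp ((Au_pow_cont n k).comp par_cont)) hb hβ
  obtain ⟨M0, hM0⟩ := hb (-s0)
  have hM1 : 1 ≤ M := (hM s0 (mem_ball_self hε)).one_le hβ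
  have hM01 : 1 ≤ M0 := hM0.one_le hβ
  have c0 : CompM β (au (par (-s0))) M0 :=
    compM_of_bd hβ hlow (Au_rep _ (par_lt _)) (au_lt _ (par_lt _)) M0 hM0
  have c1 : ∀ t : ℝ, |t| < ε → CompM β (au (par t)) (M * M0) := by
    intro t ht
    have h2 : CompM β (au (par (s0 + t))) M :=
      compM_of_bd hβ hlow (Au_rep _ (par_lt _)) (au_lt _ (par_lt _)) M (hM _ (by
        rw [mem_ball, Real.dist_eq, add_sub_cancel_left]; exact ht))
    have h3 := c0.comp h2 (by linarith) (au_lt _ (par_lt _))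
    apply h3.congr
    intro z hz
    rw [← par_add _ _ z hz]
    congr 2
    ring
  have hMM : 0 ≤ M * M0 := by positivity
  have c2 : ∀ (N : ℕ) (t : ℝ), |t| < ε → CompM β (au (par ((N + 1 : ℕ) * t))) ((M * M0) ^ (N + 1)) := by
    intro N t ht
    induction N with
    | zero => simpa using c1 t ht
    | succ N ih =>
      have h3 := (c1 t ht).comp ih (by positivity) (au_lt _ (par_lt _))
      have h4 : (M * M0) ^ (N + 1 + 1) = (M * M0) ^ (N + 1) * (M * M0) := pow_succ _ _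
      rw [h4]
      apply h3.congr
      intro z hz
      rw [← par_add _ _ z hz]
      congr 2
      push_cast
      ring
  obtain ⟨N, hN⟩ := exists_nat_gt (Real.log 9 / ε)
  refine ⟨(M * M0) ^ (N + 1), one_le_pow₀ (by nlinarith), ?_⟩
  intro a ha0 ha1
  set s := Real.log ((1 + a) / (1 - a)) with hs
  have h1a : 0 < 1 - a := by linarith
  have hexp : Real.exp s = (1 + a) / (1 - a) := by
    rw [hs, Real.exp_log (by positivity)]
  have hpar : par s = a := by
    unfold par
    rw [hexp]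
    field_simp
    ring
  have hs0 : 0 ≤ s := by
    rw [hs]; apply Real.log_nonneg
    rw [le_div_iff₀ h1a]; linarith
  have hs9 : s ≤ Real.log 9 := by
    rw [hs]; apply Real.log_le_log (by positivity)
    rw [div_le_iff₀ h1a]; linarith
  have hNp : (0 : ℝ) < (N + 1 : ℕ) := by positivity
  have h5 := c2 N (s / (N + 1 : ℕ)) (by
    rw [abs_of_nonneg (by positivity), div_lt_iff₀ hNp]
    rw [div_lt_iff₀ hε] at hN
    push_cast
    nlinarith)
  rw [mul_div_cancel₀ _ hNp.ne', hpar] at h5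
  exact bd_of_compM hβ (Au_rep a (by rw [abs_of_nonneg ha0]; linarith)) _ h5

end Pool.Agent.Helper76.Zp
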