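import Pool.Agent.Helper76.Z11

set_option autoImplicit false
open Complex Filter Topology Metric
open Finset (range Ico)

namespace Pool.Agent.Helper76.Zp
open Pool.Agent.Helper76.Hardy

/-- coefficients of the powers -/
noncomputable def cc (a : ℝ) (n k : ℕ) : ℝ := PowerSeries.coeff k (Au a ^ n)

/-- the derivation (1 - X^2) d/dX -/
noncomputable def Ed (F : PowerSeries ℝ) : PowerSeries ℝ :=
  (1 - PowerSeries.X ^ 2) * PowerSeries.derivative ℝ F

lemma Ed_zero' (F : PowerSeries ℝ) : PowerSeries.coeff 0 (Ed F) = PowerSeries.coeff 1 F := by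
  unfold Ed
  rw [PowerSeries.coeff_mul]
  simp [PowerSeries.coeff_derivative]

lemma Ed_succ (F : PowerSeries ℝ) (j : ℕ) : PowerSeries.coeff (j + 1) (Ed F) =
    (j + 2) * PowerSeries.coeff (j + 2) F - j * PowerSeries.coeff j F := by
  unfold Ed
  rw [sub_mul, one_mul, map_sub, PowerSeries.coeff_derivative, mul_comm (PowerSeries.X ^ 2)]
  rcases j with _ | j
  · rw [PowerSeries.coeff_mul_X_pow']
    simp
    ring
  · rw [show j + 1 + 1 = j + 2 by ring, PowerSeries.coeff_mul_X_pow, PowerSeries.coeff_derivative]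
    push_cast
    rw [show j + 2 + 1 = j + 1 + 2 by ring]
    ring

lemma Ed_mul (F G : PowerSeries ℝ) : Ed (F * G) = Ed F * G + F * Ed G := by
  unfold Ed
  rw [Derivation.leibniz]
  simp only [smul_eq_mul]
  ring

lemma Ed_one : Ed 1 = 0 := by
  unfold Ed
  rw [PowerSeries.derivative_one, mul_zero]

lemma Au_mul (a : ℝ) : (1 + PowerSeries.C a * PowerSeries.X) * Au a = PowerSeries.X + PowerSeries.C a := by
  ext k
  rw [add_mul, one_mul, map_add, map_add, mul_assoc, PowerSeries.coeff_C_mul, mul_comm PowerSeries.X (Au a)]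
  rcases k with _ | k
  · simp [Au_zero]
  · rw [PowerSeries.coeff_succ_mul_X, Au_succ]
    rcases k with _ | k
    · rw [Au_zero]
      simp
      ring
    · rw [Au_succ, PowerSeries.coeff_X, PowerSeries.coeff_C, if_neg (by omega), if_neg (by omega)]
      ring

lemma Ed_Au (a : ℝ) : Ed (Au a) = 1 - Au a ^ 2 := by
  have h1 := Au_mul a
  have h2 : PowerSeries.C a * Au a + (1 + PowerSeries.C a * PowerSeries.X) * PowerSeries.derivative ℝ (Au a) = 1 := by
    have h3 := congrArg (PowerSeries.derivative ℝ) h1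
    rw [Derivation.leibniz, map_add, map_add, PowerSeries.derivative_one, Derivation.leibniz,
      PowerSeries.derivative_C, PowerSeries.derivative_X] at h3
    simp only [smul_eq_mul, mul_one, mul_zero, add_zero, zero_add] at h3
    linear_combination h3
  have hne : (1 + PowerSeries.C a * PowerSeries.X : PowerSeries ℝ) ^ 2 ≠ 0 := by
    apply pow_ne_zero
    intro h
    have h3 := congrArg (PowerSeries.coeff 0) h
    simp at h3
  apply mul_left_cancel₀ hne
  unfold Ed
  linear_combination (1 - PowerSeries.X ^ 2) * (1 + PowerSeries.C a * PowerSeries.X) * h2 +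
    ((1 + PowerSeries.C a * PowerSeries.X) * Au a + (PowerSeries.X + PowerSeries.C a) - (1 - PowerSeries.X ^ 2) * PowerSeries.C a) * h1

lemma Ed_pow (a : ℝ) (n : ℕ) : Ed (Au a ^ (n + 1)) = ((n : PowerSeries ℝ) + 1) * (Au a ^ n - Au a ^ (n + 2)) := by
  induction n with
  | zero => simp [Ed_Au]
  | succ n ih =>
    rw [pow_succ, Ed_mul, ih, Ed_Au]
    push_cast
    ring

lemma rec0 (a : ℝ) (n : ℕ) : cc a (n + 1) 1 = (n + 1) * (cc a n 0 - cc a (n + 2) 0) := by
  have h1 := congrArg (PowerSeries.coeff 0) (Ed_pow a n)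
  rw [Ed_zero'] at h1
  unfold cc
  rw [h1]
  have h2 : ((n : PowerSeries ℝ) + 1) = PowerSeries.C ((n : ℝ) + 1) := by simp
  rw [h2, PowerSeries.coeff_C_mul, map_sub]

lemma rec1 (a : ℝ) (n j : ℕ) : (j + 2) * cc a (n + 1) (j + 2) - j * cc a (n + 1) j =
    (n + 1) * (cc a n (j + 1) - cc a (n + 2) (j + 1)) := by
  have h1 := congrArg (PowerSeries.coeff (j + 1)) (Ed_pow a n)
  rw [Ed_succ] at h1
  have h2 : ((n : PowerSeries ℝ) + 1) = PowerSeries.C ((n : ℝ) + 1) := by simp
  rw [h2, PowerSeries.coeff_C_mul, map_sub] at h1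
  exact h1

lemma cc_zero (a : ℝ) (k : ℕ) : cc a 0 k = if k = 0 then 1 else 0 := by
  unfold cc
  rw [pow_zero, PowerSeries.coeff_one]

lemma cc_n0 (a : ℝ) (n : ℕ) : cc a n 0 = a ^ n := by
  unfold cc
  rw [PowerSeries.coeff_zero_eq_constantCoeff_apply, map_pow]
  congr 1

lemma cc_n1 (a : ℝ) (n : ℕ) : cc a (n + 1) 1 = (n + 1) * (1 - a ^ 2) * a ^ n := by
  rw [rec0, cc_n0, cc_n0]
  ring

lemma cc_one (a : ℝ) (k : ℕ) : cc a 1 (k + 1) = (1 - a ^ 2) * (-a) ^ k := by
  unfold cc
  rw [pow_one, Au_succ]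

/-- symmetry -/
lemma cc_symm (a : ℝ) (n : ℕ) : ∀ k : ℕ, (k : ℝ) * cc a n k = (-1) ^ (n + k) * n * cc a k n := by
  have key : ∀ n : ℕ, (∀ k : ℕ, (k : ℝ) * cc a n k = (-1) ^ (n + k) * n * cc a k n) ∧
      (∀ k : ℕ, (k : ℝ) * cc a (n + 1) k = (-1) ^ (n + 1 + k) * ((n + 1 : ℕ) : ℝ) * cc a k (n + 1)) := by
    intro n
    induction n with
    | zero =>
      constructor
      · intro k
        rw [cc_zero]
        rcases k with _ | k
        · simp
        · simp
      · intro k
        rcases k with _ | k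
        · rw [zero_add, cc_zero]; simp
        · rw [zero_add, cc_one, cc_n1]
          rw [show 1 + (k + 1) = k + 2 by ring, pow_add]
          push_cast
          rw [neg_pow a]
          ring
    | succ n ih =>
      refine ⟨ih.2, ?_⟩
      intro k
      rcases k with _ | k
      · rw [cc_zero, if_neg (by omega)]; simp
      · have hn : ((n : ℝ) + 1) ≠ 0 := by positivity
        -- recurrence for row index n+1
        have h1 := rec1 a n k
        -- recurrence for row index k+1
        have h2 := rec1 a k n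
        have i1 := ih.1 (k + 1)
        have i2 := ih.2 (k + 2)
        have i3 := ih.2 k
        have hk : ((k : ℝ) + 1) ≠ 0 := by positivity
        apply mul_left_cancel₀ hn
        have s1 : ((-1 : ℝ)) ^ (n + (k + 1)) = - (-1) ^ (n + k) := by rw [← add_assoc, pow_succ]; ring
        have s2 : ((-1 : ℝ)) ^ (n + 1 + (k + 2)) = - (-1) ^ (n + k) := by
          rw [show n + 1 + (k + 2) = n + k + 3 by ring, pow_add]; ring
        have s3 : ((-1 : ℝ)) ^ (n + 1 + k) = - (-1) ^ (n + k) := by
          rw [show n + 1 + k = n + k + 1 by ring, pow_succ]; ring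
        have s4 : ((-1 : ℝ)) ^ (n + 1 + 1 + (k + 1)) = - (-1) ^ (n + k) := by
          rw [show n + 1 + 1 + (k + 1) = n + k + 3 by ring, pow_add]; ring
        rw [s1] at i1
        rw [s2] at i2
        rw [s3] at i3
        rw [s4]
        push_cast at *
        rw [show n + 1 + 1 = n + 2 by ring]
        linear_combination ((k : ℝ) + 1) * h1 + (n + 1) * i1 - (k + 1) * i2 + (k + 1) * i3 +
          (-1) ^ (n + k) * (n + 1) * h2
  exact (key n).1

end Pool.Agent.Helper76.Zp
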