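import Pool.Agent.Helper76.Z12

set_option autoImplicit false
open Complex Filter Topology Metric
open Finset (range Ico)

namespace Pool.Agent.Helper76.Zp
open Pool.Agent.Helper76.Hardy

/-- coefficient derivative of the automorphism -/
lemma Au_deriv (a : ℝ) (ha : |a| < 1) (k : ℕ) : HasDerivAt (fun a : ℝ => PowerSeries.coeff k (Au a))
    (PowerSeries.coeff k (Ed (Au a)) / (1 - a ^ 2)) a := by
  have h2 : a ^ 2 < 1 := by rw [sq_lt_one_iff_abs_lt_one]; exact ha
  have h3 : 1 - a ^ 2 ≠ 0 := by linarith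
  rcases k with _ | k
  · simp only [Au_zero, Ed_zero']
    have h4 : PowerSeries.coeff 1 (Au a) = 1 - a ^ 2 := by
      have := Au_succ a 0
      simpa using this
    rw [h4, div_self h3]
    exact hasDerivAt_id a
  · simp only [Ed_succ, Au_succ]
    have h5 : HasDerivAt (fun a : ℝ => (1 - a ^ 2) * (-a) ^ k)
        ((-(2 * a)) * (-a) ^ k + (1 - a ^ 2) * (k * (-a) ^ (k - 1) * (-1))) a := by
      have h6 : HasDerivAt (fun a : ℝ => 1 - a ^ 2) (-(2 * a)) a := by
        have := (hasDerivAt_pow 2 a).const_sub 1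
        exact this.congr_deriv (by simp)
      have h7 : HasDerivAt (fun a : ℝ => (-a) ^ k) (k * (-a) ^ (k - 1) * (-1)) a := by
        have := (hasDerivAt_neg a).pow k
        exact this
      exact h6.mul h7
    apply h5.congr_deriv
    rw [eq_div_iff h3]
    rcases k with _ | k
    · simp
      ring
    · rw [Au_succ, Nat.add_sub_cancel]
      push_cast
      ring

lemma Au_pow_deriv (a : ℝ) (ha : |a| < 1) (n : ℕ) : ∀ k : ℕ,
    HasDerivAt (fun a : ℝ => PowerSeries.coeff k (Au a ^ n))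
    (PowerSeries.coeff k (Ed (Au a ^ n)) / (1 - a ^ 2)) a := by
  induction n with
  | zero =>
    intro k
    simp only [pow_zero, Ed_one, map_zero, zero_div]
    exact hasDerivAt_const a _
  | succ n ih =>
    intro k
    simp only [pow_succ, Ed_mul, map_add, PowerSeries.coeff_mul]
    have h1 : ∀ x ∈ Finset.HasAntidiagonal.antidiagonal k, HasDerivAt
        (fun a : ℝ => PowerSeries.coeff x.1 (Au a ^ n) * PowerSeries.coeff x.2 (Au a))
        (PowerSeries.coeff x.1 (Ed (Au a ^ n)) / (1 - a ^ 2) * PowerSeries.coeff x.2 (Au a) +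
          PowerSeries.coeff x.1 (Au a ^ n) * (PowerSeries.coeff x.2 (Ed (Au a)) / (1 - a ^ 2))) a :=
      fun x _ => (ih x.1).mul (Au_deriv a ha x.2)
    apply (HasDerivAt.fun_sum h1).congr_deriv
    rw [Finset.sum_add_distrib, add_div, Finset.sum_div, Finset.sum_div]
    congr 1
    · apply Finset.sum_congr rfl; intro x _; ring
    · apply Finset.sum_congr rfl; intro x _; ring

lemma cc_deriv0 (a : ℝ) (ha : |a| < 1) (n : ℕ) :
    HasDerivAt (fun a : ℝ => cc a n 0) (cc a n 1 / (1 - a ^ 2)) a := by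
  have := Au_pow_deriv a ha n 0
  rw [Ed_zero'] at this
  exact this

lemma cc_deriv (a : ℝ) (ha : |a| < 1) (n j : ℕ) :
    HasDerivAt (fun a : ℝ => cc a n (j + 1)) (((j + 2) * cc a n (j + 2) - j * cc a n j) / (1 - a ^ 2)) a := by
  have := Au_pow_deriv a ha n (j + 1)
  rw [Ed_succ] at this
  exact this

/-- the truncated area functional -/
noncomputable def Fm (n m : ℕ) (a : ℝ) : ℝ := ∑ j ∈ range m, (j + 1) * cc a n (j + 1) ^ 2

lemma Fm_deriv (a : ℝ) (ha : |a| < 1) (n m : ℕ) :
    HasDerivAt (Fm n m) (2 * m * (m + 1) * cc a n m * cc a n (m + 1) / (1 - a ^ 2)) a := by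
  induction m with
  | zero =>
    unfold Fm
    simp only [Finset.range_zero, Finset.sum_empty, Nat.cast_zero, mul_zero, zero_mul, zero_div]
    exact hasDerivAt_const a _
  | succ m ih =>
    have h1 : Fm n (m + 1) = fun a => Fm n m a + (m + 1) * cc a n (m + 1) ^ 2 := by
      ext a
      unfold Fm
      rw [Finset.sum_range_succ]
    rw [h1]
    have h2 := ((cc_deriv a ha n m).pow 2).const_mul ((m : ℝ) + 1)
    apply (ih.add h2).congr_deriv
    have h2 : a ^ 2 < 1 := by rw [sq_lt_one_iff_abs_lt_one]; exact ha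
    have h3 : 1 - a ^ 2 ≠ 0 := by linarith
    push_cast
    rw [show m + 1 + 1 = m + 2 by ring]
    field_simp
    ring

/-- differences -/
noncomputable def dd (a : ℝ) (n k : ℕ) : ℝ := k * cc a n k - (k + 1) * cc a n (k + 1)

lemma dd_deriv0 (a : ℝ) (ha : |a| < 1) (n : ℕ) :
    HasDerivAt (fun a : ℝ => dd a n 0) ((dd a n 0 + dd a n 1) / (1 - a ^ 2)) a := by
  have h1 := (cc_deriv a ha n 0).const_mul (-1 : ℝ)
  have h2 : (fun a : ℝ => dd a n 0) = fun a => (-1) * cc a n (0 + 1) := by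
    ext a; unfold dd; simp
  rw [h2]
  apply h1.congr_deriv
  unfold dd
  push_cast
  ring

lemma dd_deriv (a : ℝ) (ha : |a| < 1) (n j : ℕ) :
    HasDerivAt (fun a : ℝ => dd a n (j + 1))
      ((dd a n (j + 1) + (j + 2) * dd a n (j + 2) - (j + 1) * dd a n j) / (1 - a ^ 2)) a := by
  have h1 := ((cc_deriv a ha n j).const_mul ((j : ℝ) + 1)).sub ((cc_deriv a ha n (j + 1)).const_mul ((j : ℝ) + 2))
  have h2 : (fun a : ℝ => dd a n (j + 1)) = fun a => ((j : ℝ) + 1) * cc a n (j + 1) - (j + 2) * cc a n (j + 1 + 1) := by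
    ext a; unfold dd; push_cast; ring
  rw [h2]
  apply h1.congr_deriv
  unfold dd
  push_cast
  rw [show j + 1 + 1 = j + 2 by ring, show j + 1 + 2 = j + 2 + 1 by ring]
  ring

/-- the quadratic functional -/
noncomputable def Gm (n m : ℕ) (a : ℝ) : ℝ := ∑ k ∈ range m, dd a n k ^ 2

lemma Gm_deriv (a : ℝ) (ha : |a| < 1) (n m : ℕ) :
    HasDerivAt (Gm n (m + 1)) ((2 * Gm n (m + 1) a + 2 * (m + 1) * dd a n m * dd a n (m + 1)) / (1 - a ^ 2)) a := by
  have h0 : a ^ 2 < 1 := by rw [sq_lt_one_iff_abs_lt_one]; exact ha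
  have h3 : 1 - a ^ 2 ≠ 0 := by linarith
  induction m with
  | zero =>
    have h1 : Gm n (0 + 1) = fun a => dd a n 0 ^ 2 := by
      ext a; unfold Gm; simp
    have h2 := (dd_deriv0 a ha n).pow 2
    rw [h1]
    apply h2.congr_deriv
    push_cast
    field_simp
    ring
  | succ m ih =>
    have h1 : Gm n (m + 1 + 1) = fun a => Gm n (m + 1) a + dd a n (m + 1) ^ 2 := by
      ext a
      unfold Gm
      rw [Finset.sum_range_succ]
    rw [h1]
    have h2 := (dd_deriv a ha n m).pow 2
    apply (ih.add h2).congr_deriv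
    push_cast
    rw [show m + 1 + 1 = m + 2 by ring]
    field_simp
    ring

end Pool.Agent.Helper76.Zp
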