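import Pool.Agent.Helper76.Z13

set_option autoImplicit false
open Complex Filter Topology Metric
open Finset (range Ico)

namespace Pool.Agent.Helper76.Zp
open Pool.Agent.Helper76.Hardy

lemma coeff_le_one {F : PowerSeries ℂ} {f : ℂ → ℂ} (h : Rep F f) (s : ℝ) (hs : 0 ≤ s)
    (hb : ∀ z : ℂ, ‖z‖ < 1 → ‖f z‖ ≤ s) (k : ℕ) : ‖PowerSeries.coeff k F‖ ≤ s := by
  have h1 : ∀ r : ℝ, 0 ≤ r → r < 1 → ‖PowerSeries.coeff k F‖ * r ^ k ≤ s := fun r h0 h1 =>
    h.coeff_le r s h0 h1 hs (fun z hz => hb z (by rw [hz]; exact h1)) k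
  have h2 : Tendsto (fun r : ℝ => ‖PowerSeries.coeff k F‖ * r ^ k) (𝓝[<] 1) (𝓝 (‖PowerSeries.coeff k F‖ * 1 ^ k)) := by
    apply Tendsto.mono_left _ nhdsWithin_le_nhds
    exact (Continuous.tendsto (by fun_prop) 1)
  rw [one_pow, mul_one] at h2
  apply le_of_tendsto h2
  have h3 : ∀ᶠ r : ℝ in 𝓝[<] 1, 0 < r := by
    apply Filter.Eventually.filter_mono nhdsWithin_le_nhds
    exact lt_mem_nhds (by norm_num)
  filter_upwards [h3, self_mem_nhdsWithin] with r hr hr1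
  exact h1 r hr.le hr1

lemma cc_le_one (a : ℝ) (ha : |a| < 1) (n k : ℕ) : |cc a n k| ≤ 1 := by
  have h1 := coeff_le_one ((Au_rep a ha).pow n) 1 zero_le_one (fun z hz => by
    rw [norm_pow]
    exact pow_le_one₀ (norm_nonneg _) (au_lt a ha z hz).le) k
  rw [cx_coeff, Complex.norm_real, Real.norm_eq_abs] at h1
  exact h1

lemma one_add_ne' (a : ℝ) (z : ℂ) (hz : |a| * ‖z‖ < 1) : (1 : ℂ) + a * z ≠ 0 := by
  intro h
  have h1 : (a : ℂ) * z = -1 := by linear_combination h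
  have h2 : ‖(a : ℂ) * z‖ < 1 := by
    rw [norm_mul, Complex.norm_real, Real.norm_eq_abs]
    exact hz
  rw [h1] at h2
  simp at h2

lemma Au_hasSum (a : ℝ) (z : ℂ) (hz : |a| * ‖z‖ < 1) :
    HasSum (fun k : ℕ => PowerSeries.coeff k (cx (Au a)) * z ^ k) (au a z) := by
  have hne := one_add_ne' a z hz
  have h1 : ‖-((a : ℂ) * z)‖ < 1 := by
    rw [norm_neg, norm_mul, Complex.norm_real, Real.norm_eq_abs]
    exact hz
  have h2 := (hasSum_geometric_of_norm_lt_one h1).mul_left ((1 - (a : ℂ) ^ 2) * z)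
  have h3 : au a z = (a : ℂ) + (1 - (a : ℂ) ^ 2) * z * (1 - -((a : ℂ) * z))⁻¹ := by
    unfold au
    rw [sub_neg_eq_add, ← div_eq_mul_inv, div_eq_iff hne, add_mul, div_mul_cancel₀ _ hne]
    ring
  rw [h3]
  have h4 : HasSum (fun k : ℕ => PowerSeries.coeff (k + 1) (cx (Au a)) * z ^ (k + 1))
      ((1 - (a : ℂ) ^ 2) * z * (1 - -((a : ℂ) * z))⁻¹) := by
    have h5 : (fun k : ℕ => PowerSeries.coeff (k + 1) (cx (Au a)) * z ^ (k + 1)) =
        fun k : ℕ => (1 - (a : ℂ) ^ 2) * z * (-((a : ℂ) * z)) ^ k := by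
      ext k
      rw [cx_coeff1, Au_succ]
      push_cast
      rw [neg_pow, neg_pow ((a : ℂ) * z), mul_pow, pow_succ]
      ring
    rw [h5]
    exact h2
  have h6 : HasSum (fun k : ℕ => PowerSeries.coeff (k + 1) (cx (Au a)) * z ^ (k + 1))
      ((a : ℂ) + (1 - (a : ℂ) ^ 2) * z * (1 - -((a : ℂ) * z))⁻¹ -
        ∑ k ∈ range 1, PowerSeries.coeff k (cx (Au a)) * z ^ k) := by
    rw [Finset.range_one, Finset.sum_singleton, cx_coeff1, Au_zero, pow_zero, mul_one, add_sub_cancel_left]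
    exact h4
  exact (hasSum_nat_add_iff' (f := fun k : ℕ => PowerSeries.coeff k (cx (Au a)) * z ^ k) 1).mp h6

lemma cc_tail (a : ℝ) (ha0 : 0 ≤ a) (ha1 : a ≤ 4 / 5) (n k : ℕ) : |cc a n k| ≤ 20 ^ n * (8 / 9) ^ k := by
  set G : PowerSeries ℝ := PowerSeries.rescale (9 / 8 : ℝ) (Au a) with hG
  have hz1 : ∀ z : ℂ, ‖z‖ < 1 → |a| * ‖(9 / 8 : ℂ) * z‖ ≤ 9 / 10 := by
    intro z hz
    rw [abs_of_nonneg ha0, norm_mul]
    have h1 : ‖(9 / 8 : ℂ)‖ = 9 / 8 := by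
      rw [show (9 / 8 : ℂ) = ((9 / 8 : ℝ) : ℂ) by push_cast; ring, Complex.norm_real]
      norm_num
    rw [h1]
    calc a * (9 / 8 * ‖z‖) ≤ (4 / 5) * (9 / 8 * 1) := by gcongr
      _ = 9 / 10 := by norm_num
  have hR : Rep (cx G) (fun z => au a ((9 / 8 : ℂ) * z)) := by
    intro z hz
    have h1 := Au_hasSum a ((9 / 8 : ℂ) * z) ((hz1 z hz).trans_lt (by norm_num))
    have h2 : (fun k : ℕ => PowerSeries.coeff k (cx G) * z ^ k) =
        fun k : ℕ => PowerSeries.coeff k (cx (Au a)) * ((9 / 8 : ℂ) * z) ^ k := by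
      ext k
      rw [cx_coeff1, cx_coeff1, hG, PowerSeries.coeff_rescale, mul_pow]
      push_cast
      ring
    rw [h2]
    exact h1
  have h3 := coeff_le_one (hR.pow n) (20 ^ n) (by positivity) (fun z hz => by
    rw [norm_pow]
    apply pow_le_pow_left₀ (norm_nonneg _)
    have h4 := hz1 z hz
    have hne := one_add_ne' a _ (h4.trans_lt (by norm_num))
    unfold au
    rw [norm_div, div_le_iff₀ (norm_pos_iff.mpr hne)]
    have h5 : 1 - 9 / 10 ≤ ‖1 + (a : ℂ) * ((9 / 8 : ℂ) * z)‖ := by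
      have h6 := norm_sub_norm_le (1 : ℂ) (-((a : ℂ) * ((9 / 8 : ℂ) * z)))
      rw [sub_neg_eq_add, norm_neg, norm_one, norm_mul, Complex.norm_real, Real.norm_eq_abs] at h6
      linarith
    have h7 : ‖(9 / 8 : ℂ) * z + a‖ ≤ 9 / 8 + 4 / 5 := by
      refine (norm_add_le _ _).trans ?_
      rw [norm_mul, Complex.norm_real, Real.norm_eq_abs, abs_of_nonneg ha0]
      have h1 : ‖(9 / 8 : ℂ)‖ = 9 / 8 := by
        rw [show (9 / 8 : ℂ) = ((9 / 8 : ℝ) : ℂ) by push_cast; ring, Complex.norm_real]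
        norm_num
      rw [h1]
      nlinarith [norm_nonneg z]
    linarith) k
  have h4 : PowerSeries.coeff k ((cx G) ^ n) = (((9 / 8 : ℝ) ^ k * cc a n k : ℝ) : ℂ) := by
    rw [cx_coeff, hG, ← map_pow, PowerSeries.coeff_rescale]
    rfl
  rw [h4, Complex.norm_real, Real.norm_eq_abs, abs_mul, abs_of_nonneg (by positivity)] at h3
  have h5 : (8 / 9 : ℝ) ^ k * (9 / 8) ^ k = 1 := by rw [← mul_pow]; norm_num
  calc |cc a n k| = (8 / 9 : ℝ) ^ k * ((9 / 8) ^ k * |cc a n k|) := by rw [← mul_assoc, h5, one_mul]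
    _ ≤ (8 / 9 : ℝ) ^ k * 20 ^ n := by gcongr
    _ = 20 ^ n * (8 / 9) ^ k := by ring

lemma Au_at_zero : Au 0 = PowerSeries.X := by
  ext k
  rcases k with _ | k
  · rw [Au_zero]; simp
  · rw [Au_succ, PowerSeries.coeff_X]
    rcases k with _ | k
    · simp
    · simp

lemma cc_at_zero (n k : ℕ) : cc 0 n k = if k = n then 1 else 0 := by
  unfold cc
  rw [Au_at_zero, PowerSeries.coeff_X_pow]

lemma Fm_at_zero (n m : ℕ) (hnm : n ≤ m) : Fm n m 0 = n := by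
  unfold Fm
  rcases n with _ | n
  · push_cast
    apply Finset.sum_eq_zero
    intro j _
    rw [cc_at_zero, if_neg (by omega)]; ring
  · rw [Finset.sum_eq_single n]
    · rw [cc_at_zero, if_pos rfl]; push_cast; ring
    · intro j _ hj
      rw [cc_at_zero, if_neg (by omega)]; ring
    · intro h
      rw [Finset.mem_range] at h; omega

lemma Fm_mono (n : ℕ) (a : ℝ) {m m' : ℕ} (h : m ≤ m') : Fm n m a ≤ Fm n m' a := by
  unfold Fm
  apply Finset.sum_le_sum_of_subset_of_nonneg (Finset.range_mono h)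
  intro j _ _
  positivity

lemma Gm_at_zero (n m : ℕ) (hn : 1 ≤ n) (hnm : n ≤ m) : Gm n (m + 1) 0 = 2 * (n : ℝ) ^ 2 := by
  unfold Gm
  obtain ⟨j, rfl⟩ : ∃ j, n = j + 1 := ⟨n - 1, by omega⟩
  have h1 : ∑ k ∈ range (m + 1), dd 0 (j + 1) k ^ 2 = ∑ k ∈ ({j, j + 1} : Finset ℕ), dd 0 (j + 1) k ^ 2 := by
    symm
    apply Finset.sum_subset
    · intro k hk
      simp only [Finset.mem_insert, Finset.mem_singleton] at hk
      rw [Finset.mem_range]; omega
    · intro k _ hk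
      simp only [Finset.mem_insert, Finset.mem_singleton, not_or] at hk
      unfold dd
      rw [cc_at_zero, cc_at_zero, if_neg (by omega), if_neg (by omega)]
      ring
  rw [h1, Finset.sum_pair (by omega)]
  unfold dd
  rw [cc_at_zero, cc_at_zero, cc_at_zero, if_neg (by omega), if_pos rfl, if_neg (by omega)]
  push_cast
  ring

lemma tau_lim (n : ℕ) : Tendsto (fun m : ℕ => ((m : ℝ) + 1) ^ 3 * (20 ^ n * (8 / 9) ^ m)) atTop (𝓝 0) := by
  have h1 := tendsto_pow_const_mul_const_pow_of_lt_one 3 (by norm_num : (0 : ℝ) ≤ 8 / 9) (by norm_num)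
  have h2 := (tendsto_add_atTop_iff_nat 1).mpr h1
  have h3 := h2.const_mul (20 ^ n * (9 / 8) : ℝ)
  rw [mul_zero] at h3
  refine h3.congr (fun m => ?_)
  push_cast
  rw [pow_succ (8 / 9 : ℝ) m]
  ring

lemma inv_bound (a : ℝ) (ha0 : 0 ≤ a) (ha1 : a ≤ 4 / 5) : 0 < 1 - a ^ 2 ∧ 1 / (1 - a ^ 2) ≤ 3 := by
  have h1 : a ^ 2 ≤ (4 / 5) ^ 2 := pow_le_pow_left₀ ha0 ha1 2
  have h2 : 0 < 1 - a ^ 2 := by norm_num at h1; linarith
  refine ⟨h2, ?_⟩
  rw [div_le_iff₀ h2]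
  norm_num at h1
  linarith

/-- mean value inequality on [0, 4/5] -/
lemma mvi (f f' : ℝ → ℝ) (B : ℝ) (hd : ∀ a : ℝ, |a| < 1 → HasDerivAt f (f' a) a)
    (hB : ∀ a : ℝ, 0 ≤ a → a ≤ 4 / 5 → |f' a| ≤ B) (x : ℝ) (hx0 : 0 ≤ x) (hx1 : x ≤ 4 / 5) :
    |f x - f 0| ≤ B * x := by
  have h1 := Convex.norm_image_sub_le_of_norm_hasDerivWithin_le (f := f) (f' := f') (C := B)
    (s := Set.Icc (0 : ℝ) (4 / 5)) (x := 0) (y := x) (fun a ha => (hd a (by
      rw [abs_of_nonneg ha.1]; linarith [ha.2])).hasDerivWithinAt)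
    (fun a ha => by rw [Real.norm_eq_abs]; exact hB a ha.1 ha.2) (convex_Icc _ _)
    ⟨le_rfl, by norm_num⟩ ⟨hx0, hx1⟩
  rw [Real.norm_eq_abs, Real.norm_eq_abs, sub_zero, abs_of_nonneg hx0] at h1
  exact h1

lemma Fm_le (n m : ℕ) : Fm n m (4 / 5) ≤ n := by
  have h1 : ∀ m' : ℕ, max m n ≤ m' → Fm n m (4 / 5) ≤ n + 6 * (((m' : ℝ) + 1) ^ 3 * (20 ^ n * (8 / 9) ^ m')) := by
    intro m' hm'
    refine (Fm_mono n _ (le_trans (le_max_left _ _) hm')).trans ?_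
    have h2 := mvi (Fm n m') _ (6 * (((m' : ℝ) + 1) ^ 3 * (20 ^ n * (8 / 9) ^ m')))
      (fun a ha => Fm_deriv a ha n m') (fun a ha0 ha1 => by
        obtain ⟨i1, i2⟩ := inv_bound a ha0 ha1
        have h3 := cc_tail a ha0 ha1 n m'
        have h4 := cc_le_one a (by rw [abs_of_nonneg ha0]; linarith) n (m' + 1)
        rw [div_eq_mul_one_div, abs_mul, abs_of_pos (show 0 < 1 / (1 - a ^ 2) by positivity),
          abs_mul, abs_mul, abs_of_nonneg (show (0 : ℝ) ≤ 2 * m' * (m' + 1) by positivity)]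
        calc 2 * (m' : ℝ) * (m' + 1) * |cc a n m'| * |cc a n (m' + 1)| * (1 / (1 - a ^ 2))
            ≤ 2 * (m' : ℝ) * (m' + 1) * (20 ^ n * (8 / 9) ^ m') * 1 * 3 := by gcongr
          _ = 6 * ((m' : ℝ) * (m' + 1) * (20 ^ n * (8 / 9) ^ m')) := by ring
          _ ≤ 6 * (((m' : ℝ) + 1) ^ 3 * (20 ^ n * (8 / 9) ^ m')) := by
              gcongr
              have : (0 : ℝ) ≤ m' := Nat.cast_nonneg _
              nlinarith [mul_nonneg this this, mul_nonneg this (mul_nonneg this this)]) (4 / 5) (by norm_num) le_rfl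
    rw [Fm_at_zero n m' (le_trans (le_max_right _ _) hm')] at h2
    have h3 := (abs_le.mp h2).2
    have h4 : (0 : ℝ) ≤ 6 * (((m' : ℝ) + 1) ^ 3 * (20 ^ n * (8 / 9) ^ m')) := by positivity
    linarith
  have h2 : Tendsto (fun m' : ℕ => (n : ℝ) + 6 * (((m' : ℝ) + 1) ^ 3 * (20 ^ n * (8 / 9) ^ m'))) atTop (𝓝 ((n : ℝ) + 6 * 0)) :=
    ((tau_lim n).const_mul 6).const_add _
  rw [mul_zero, add_zero] at h2
  apply ge_of_tendsto h2
  filter_upwards [eventually_ge_atTop (max m n)] with m' hm'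
  exact h1 m' hm'

/-- second moment -/
noncomputable def Sm (n m : ℕ) (a : ℝ) : ℝ := ∑ j ∈ range m, (j + 1) ^ 2 * cc a n (j + 1) ^ 2

lemma Gm_le_Sm (n m : ℕ) (a : ℝ) : Gm n (m + 1) a ≤ 4 * Sm n (m + 1) a := by
  unfold Gm
  have h1 : ∑ k ∈ range (m + 1), dd a n k ^ 2 ≤ ∑ k ∈ range (m + 1),
      (2 * (k * cc a n k) ^ 2 + 2 * ((k + 1) ^ 2 * cc a n (k + 1) ^ 2)) := by
    apply Finset.sum_le_sum
    intro k _
    unfold dd
    nlinarith [sq_nonneg (k * cc a n k + (k + 1) * cc a n (k + 1))]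
  refine h1.trans ?_
  rw [Finset.sum_add_distrib, ← Finset.mul_sum, ← Finset.mul_sum]
  have h2 : ∑ k ∈ range (m + 1), ((k : ℝ) * cc a n k) ^ 2 = Sm n m a := by
    unfold Sm
    rw [Finset.sum_range_succ']
    push_cast
    rw [zero_mul]
    simp only [mul_pow]
    ring
  have h3 : Sm n m a ≤ Sm n (m + 1) a := by
    unfold Sm
    apply Finset.sum_le_sum_of_subset_of_nonneg (Finset.range_mono (Nat.le_succ m))
    intro j _ _
    positivity
  rw [h2]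
  have h4 : ∑ k ∈ range (m + 1), ((k : ℝ) + 1) ^ 2 * cc a n (k + 1) ^ 2 = Sm n (m + 1) a := rfl
  rw [h4]
  linarith

lemma Sm_ge (n : ℕ) (hn : 1 ≤ n) : ∀ᶠ m : ℕ in atTop, 4 * (n : ℝ) ^ 2 ≤ Sm n (m + 1) (4 / 5) := by
  have hn1 : (1 : ℝ) ≤ n := by exact_mod_cast hn
  have h0 : Tendsto (fun m : ℕ => 16 * (((m : ℝ) + 1) ^ 3 * (20 ^ n * (8 / 9) ^ m))) atTop (𝓝 (16 * 0)) :=
    (tau_lim n).const_mul 16
  rw [mul_zero] at h0
  have h1 : ∀ᶠ m : ℕ in atTop, 16 * (((m : ℝ) + 1) ^ 3 * (20 ^ n * (8 / 9) ^ m)) < 1 / 5 :=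
    h0.eventually_lt_const (by norm_num)
  filter_upwards [h1, eventually_ge_atTop n] with m hm hnm
  have h2 := mvi (fun a => Gm n (m + 1) a * ((1 - a) / (1 + a)))
    (fun a => (2 * Gm n (m + 1) a + 2 * (m + 1) * dd a n m * dd a n (m + 1)) / (1 - a ^ 2) * ((1 - a) / (1 + a)) +
      Gm n (m + 1) a * (-2 / (1 + a) ^ 2))
    (16 * (((m : ℝ) + 1) ^ 3 * (20 ^ n * (8 / 9) ^ m)))
    (fun a ha => by
      have ha' := abs_lt.mp ha
      have h1a : 1 + a ≠ 0 := by linarith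
      have h3 : HasDerivAt (fun a : ℝ => (1 - a) / (1 + a)) (-2 / (1 + a) ^ 2) a := by
        have h4 := ((hasDerivAt_id a).const_sub 1).div ((hasDerivAt_id a).const_add 1) h1a
        apply h4.congr_deriv
        simp only [id]
        congr 1
        ring
      exact (Gm_deriv a ha n m).mul h3)
    (fun a ha0 ha1 => by
      have h1a : 1 + a ≠ 0 := by linarith
      have h1b : 1 - a ≠ 0 := by linarith
      have h5 : (2 * Gm n (m + 1) a + 2 * (m + 1) * dd a n m * dd a n (m + 1)) / (1 - a ^ 2) * ((1 - a) / (1 + a)) +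
          Gm n (m + 1) a * (-2 / (1 + a) ^ 2) = (2 * (m + 1) * dd a n m * dd a n (m + 1)) / (1 + a) ^ 2 := by
        rw [show 1 - a ^ 2 = (1 - a) * (1 + a) by ring]
        field_simp
        ring
      rw [h5, abs_div, abs_mul, abs_mul, abs_of_pos (show (0 : ℝ) < (1 + a) ^ 2 by positivity),
        abs_of_nonneg (show (0 : ℝ) ≤ 2 * (m + 1) by positivity)]
      have h6 : |dd a n m| ≤ 2 * ((m : ℝ) + 1) * (20 ^ n * (8 / 9) ^ m) := by
        unfold dd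
        have e1 := cc_tail a ha0 ha1 n m
        have e2 := cc_tail a ha0 ha1 n (m + 1)
        have e3 : (20 : ℝ) ^ n * (8 / 9) ^ (m + 1) ≤ 20 ^ n * (8 / 9) ^ m := by
          apply mul_le_mul_of_nonneg_left _ (by positivity)
          apply pow_le_pow_of_le_one (by norm_num) (by norm_num) (Nat.le_succ m)
        refine (abs_sub _ _).trans ?_
        rw [abs_mul, abs_mul, abs_of_nonneg (show (0 : ℝ) ≤ m by positivity),
          abs_of_nonneg (show (0 : ℝ) ≤ (m : ℝ) + 1 by positivity)]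
        calc (m : ℝ) * |cc a n m| + ((m : ℝ) + 1) * |cc a n (m + 1)| ≤
            ((m : ℝ) + 1) * (20 ^ n * (8 / 9) ^ m) + ((m : ℝ) + 1) * (20 ^ n * (8 / 9) ^ m) := by
              gcongr
              · linarith
              · exact e2.trans e3
          _ = _ := by ring
      have h7 : |dd a n (m + 1)| ≤ 4 * ((m : ℝ) + 1) := by
        unfold dd
        have ha : |a| < 1 := by rw [abs_of_nonneg ha0]; linarith
        have e1 := cc_le_one a ha n (m + 1)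
        have e2 := cc_le_one a ha n (m + 1 + 1)
        refine (abs_sub _ _).trans ?_
        rw [abs_mul, abs_mul, abs_of_nonneg (show (0 : ℝ) ≤ ((m + 1 : ℕ) : ℝ) by positivity),
          abs_of_nonneg (show (0 : ℝ) ≤ ((m + 1 : ℕ) : ℝ) + 1 by positivity)]
        calc ((m + 1 : ℕ) : ℝ) * |cc a n (m + 1)| + (((m + 1 : ℕ) : ℝ) + 1) * |cc a n (m + 1 + 1)|
            ≤ ((m + 1 : ℕ) : ℝ) * 1 + (((m + 1 : ℕ) : ℝ) + 1) * 1 := by gcongr
          _ ≤ _ := by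
              have : (0 : ℝ) ≤ m := Nat.cast_nonneg _
              push_cast; linarith
      rw [div_le_iff₀ (by positivity)]
      calc 2 * ((m : ℝ) + 1) * |dd a n m| * |dd a n (m + 1)|
          ≤ 2 * ((m : ℝ) + 1) * (2 * ((m : ℝ) + 1) * (20 ^ n * (8 / 9) ^ m)) * (4 * ((m : ℝ) + 1)) := by gcongr
        _ = 16 * (((m : ℝ) + 1) ^ 3 * (20 ^ n * (8 / 9) ^ m)) * 1 := by ring
        _ ≤ 16 * (((m : ℝ) + 1) ^ 3 * (20 ^ n * (8 / 9) ^ m)) * (1 + a) ^ 2 := by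
            gcongr
            nlinarith) (4 / 5) (by norm_num) le_rfl
  simp only [sub_zero, add_zero, div_one, mul_one] at h2
  rw [Gm_at_zero n m hn hnm] at h2
  have h3 := (abs_le.mp h2).1
  have h4 := Gm_le_Sm n m (4 / 5)
  norm_num at h3
  nlinarith

end Pool.Agent.Helper76.Zp
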