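import Pool.Agent.Helper76.Z14

set_option autoImplicit false
open Complex Filter Topology Metric
open Finset (range Ico)

namespace Pool.Agent.Helper76.Zp
open Pool.Agent.Helper76.Hardy

lemma Fm_drop : ∃ L : ℕ, 3 ≤ L ∧ ∀ n m : ℕ, 1 ≤ n → m ≤ 3 * n →
    Fm n m (4 / 5) ≤ n - n / (2 * L) := by
  have hs : Summable (fun k : ℕ => ((k : ℝ) + 1) ^ 2 * (8 / 9 : ℝ) ^ (k + 1)) := by
    have h1 := summable_pow_mul_geometric_of_norm_lt_one 2 (show ‖(8 / 9 : ℝ)‖ < 1 by norm_num)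
    have h2 := (summable_nat_add_iff 1).mpr h1
    refine h2.congr (fun k => ?_)
    push_cast
    ring
  have h2 := hs.hasSum.tendsto_sum_nat
  have h3 : ∀ᶠ N : ℕ in atTop, (∑' k : ℕ, ((k : ℝ) + 1) ^ 2 * (8 / 9 : ℝ) ^ (k + 1)) - 1 / 2 <
      ∑ k ∈ range N, ((k : ℝ) + 1) ^ 2 * (8 / 9 : ℝ) ^ (k + 1) :=
    h2.eventually_const_lt (by linarith)
  obtain ⟨L0, hL0⟩ := h3.exists
  set L := max L0 60 with hL
  have hL60 : 60 ≤ L := le_max_right _ _
  have hLL0 : L0 ≤ L := le_max_left _ _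
  have htail : ∀ N : ℕ, ∑ k ∈ Ico L N, ((k : ℝ) + 1) ^ 2 * (8 / 9 : ℝ) ^ (k + 1) ≤ 1 / 2 := by
    intro N
    rcases le_or_gt N L with h | h
    · rw [Finset.Ico_eq_empty_of_le h]; simp
    · have e1 := hs.sum_le_tsum (range N) (fun k _ => by positivity)
      have e2 := Finset.sum_range_add_sum_Ico (fun k : ℕ => ((k : ℝ) + 1) ^ 2 * (8 / 9 : ℝ) ^ (k + 1)) h.le
      have e3 : ∑ k ∈ range L0, ((k : ℝ) + 1) ^ 2 * (8 / 9 : ℝ) ^ (k + 1) ≤
          ∑ k ∈ range L, ((k : ℝ) + 1) ^ 2 * (8 / 9 : ℝ) ^ (k + 1) := by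
        apply Finset.sum_le_sum_of_subset_of_nonneg (Finset.range_mono hLL0)
        intro j _ _; positivity
      linarith
  have h89 : (400 : ℝ) * (8 / 9) ^ L ≤ 1 := by
    have : (8 / 9 : ℝ) ^ L ≤ (8 / 9) ^ 60 := pow_le_pow_of_le_one (by norm_num) (by norm_num) hL60
    have h2 : (400 : ℝ) * (8 / 9) ^ 60 ≤ 1 := by norm_num
    linarith
  refine ⟨L, by omega, ?_⟩
  intro n m hn hm
  have hn1 : (1 : ℝ) ≤ n := by exact_mod_cast hn
  have hLpos : (0 : ℝ) < L := by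
    have : 0 < L := by omega
    exact_mod_cast this
  have h4 := (Sm_ge n hn).and (eventually_ge_atTop (L * n))
  obtain ⟨N, hN1, hN2⟩ := h4.exists
  have hsplit1 : Sm n (N + 1) (4 / 5) = ∑ j ∈ range (3 * n), ((j : ℝ) + 1) ^ 2 * cc (4 / 5) n (j + 1) ^ 2 +
      ∑ j ∈ Ico (3 * n) (L * n), ((j : ℝ) + 1) ^ 2 * cc (4 / 5) n (j + 1) ^ 2 +
      ∑ j ∈ Ico (L * n) (N + 1), ((j : ℝ) + 1) ^ 2 * cc (4 / 5) n (j + 1) ^ 2 := by
    rw [Finset.sum_range_add_sum_Ico _ (Nat.mul_le_mul_right n (by omega)),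
      Finset.sum_range_add_sum_Ico _ (by omega)]
    rfl
  have p1 : ∑ j ∈ range (3 * n), ((j : ℝ) + 1) ^ 2 * cc (4 / 5) n (j + 1) ^ 2 ≤ 3 * n * Fm n (3 * n) (4 / 5) := by
    unfold Fm
    rw [Finset.mul_sum]
    apply Finset.sum_le_sum
    intro j hj
    rw [Finset.mem_range] at hj
    have hj' : (j : ℝ) + 1 ≤ 3 * n := by exact_mod_cast hj
    calc ((j : ℝ) + 1) ^ 2 * cc (4 / 5) n (j + 1) ^ 2 = ((j : ℝ) + 1) * (((j : ℝ) + 1) * cc (4 / 5) n (j + 1) ^ 2) := by ring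
      _ ≤ 3 * n * (((j : ℝ) + 1) * cc (4 / 5) n (j + 1) ^ 2) := by gcongr
  have p2 : ∑ j ∈ Ico (3 * n) (L * n), ((j : ℝ) + 1) ^ 2 * cc (4 / 5) n (j + 1) ^ 2 ≤
      L * n * (Fm n (L * n) (4 / 5) - Fm n (3 * n) (4 / 5)) := by
    have e1 : Fm n (L * n) (4 / 5) - Fm n (3 * n) (4 / 5) = ∑ j ∈ Ico (3 * n) (L * n), ((j : ℝ) + 1) * cc (4 / 5) n (j + 1) ^ 2 := by
      unfold Fm
      rw [← Finset.sum_range_add_sum_Ico _ (Nat.mul_le_mul_right n (show 3 ≤ L by omega))]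
      ring
    rw [e1, Finset.mul_sum]
    apply Finset.sum_le_sum
    intro j hj
    rw [Finset.mem_Ico] at hj
    have hj' : (j : ℝ) + 1 ≤ L * n := by exact_mod_cast hj.2
    calc ((j : ℝ) + 1) ^ 2 * cc (4 / 5) n (j + 1) ^ 2 = ((j : ℝ) + 1) * (((j : ℝ) + 1) * cc (4 / 5) n (j + 1) ^ 2) := by ring
      _ ≤ L * n * (((j : ℝ) + 1) * cc (4 / 5) n (j + 1) ^ 2) := by gcongr
  have p3 : ∑ j ∈ Ico (L * n) (N + 1), ((j : ℝ) + 1) ^ 2 * cc (4 / 5) n (j + 1) ^ 2 ≤ 1 / 2 := by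
    refine le_trans ?_ (htail (N + 1))
    calc ∑ j ∈ Ico (L * n) (N + 1), ((j : ℝ) + 1) ^ 2 * cc (4 / 5) n (j + 1) ^ 2
        ≤ ∑ j ∈ Ico (L * n) (N + 1), ((j : ℝ) + 1) ^ 2 * (8 / 9 : ℝ) ^ (j + 1) := by
          apply Finset.sum_le_sum
          intro j hj
          rw [Finset.mem_Ico] at hj
          apply mul_le_mul_of_nonneg_left _ (by positivity)
          have e1 := cc_tail (4 / 5) (by norm_num) le_rfl n (j + 1)
          have e2 : cc (4 / 5) n (j + 1) ^ 2 ≤ (20 ^ n * (8 / 9) ^ (j + 1)) ^ 2 := by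
            rw [← sq_abs]
            exact pow_le_pow_left₀ (abs_nonneg _) e1 2
          have e3 : (8 / 9 : ℝ) ^ (j + 1) ≤ (8 / 9) ^ (L * n) :=
            pow_le_pow_of_le_one (by norm_num) (by norm_num) (by omega)
          have e4 : (400 : ℝ) ^ n * (8 / 9) ^ (L * n) ≤ 1 := by
            rw [pow_mul, ← mul_pow]
            exact pow_le_one₀ (by positivity) h89
          calc cc (4 / 5) n (j + 1) ^ 2 ≤ (20 ^ n * (8 / 9) ^ (j + 1)) ^ 2 := e2
            _ = (400 ^ n * (8 / 9) ^ (j + 1)) * (8 / 9) ^ (j + 1) := by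
                rw [mul_pow, ← pow_mul, mul_comm n 2, pow_mul]; norm_num; ring
            _ ≤ (400 ^ n * (8 / 9) ^ (L * n)) * (8 / 9) ^ (j + 1) := by gcongr
            _ ≤ 1 * (8 / 9) ^ (j + 1) := by gcongr
            _ = (8 / 9) ^ (j + 1) := one_mul _
      _ ≤ ∑ j ∈ Ico L (N + 1), ((j : ℝ) + 1) ^ 2 * (8 / 9 : ℝ) ^ (j + 1) := by
          apply Finset.sum_le_sum_of_subset_of_nonneg
          · apply Finset.Ico_subset_Ico_left
            nlinarith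
          · intro j _ _; positivity
  have q1 := Fm_le n (3 * n)
  have q2 := Fm_le n (L * n)
  have q3 := Fm_mono n (4 / 5) hm
  have hn2 : (1 : ℝ) ≤ (n : ℝ) ^ 2 := one_le_pow₀ hn1
  have q4 : (n : ℝ) ^ 2 / 2 ≤ L * n * (n - Fm n (3 * n) (4 / 5)) := by
    have r1 : 3 * (n : ℝ) * Fm n (3 * n) (4 / 5) ≤ 3 * n * n := by gcongr
    have r2 : (L : ℝ) * n * (Fm n (L * n) (4 / 5) - Fm n (3 * n) (4 / 5)) ≤ L * n * (n - Fm n (3 * n) (4 / 5)) := by
      gcongr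
    nlinarith
  have q5 : (n : ℝ) / (2 * L) ≤ n - Fm n (3 * n) (4 / 5) := by
    rw [div_le_iff₀ (by positivity)]
    have hn0 : (0 : ℝ) < n := by linarith
    apply le_of_mul_le_mul_left _ hn0
    nlinarith
  linarith

/-- averages over a window -/
lemma avg_min : ∃ C : ℝ, 0 < C ∧ ∀ (γ : ℕ → ℝ) (M : ℝ), (∀ n, 0 < γ n) → 0 ≤ M →
    (∀ (a : ℝ), 0 ≤ a → a ≤ 4 / 5 → ∀ n K : ℕ, 1 ≤ n → ∑ k ∈ Ico n K, cc a n k ^ 2 * γ k ≤ M * γ n) →
    ∀ n : ℕ, 1 ≤ n → ∑ m ∈ Ico n (3 * n + 1), min (γ m) (γ (m + 1)) ≤ C * M * n * γ n := by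
  obtain ⟨L, hL3, hL⟩ := Fm_drop
  have hLpos : (0 : ℝ) < L := by
    have : 0 < L := by omega
    exact_mod_cast this
  refine ⟨144 * L, by positivity, ?_⟩
  intro γ M hγ hM hrow n hn
  have hn1 : (1 : ℝ) ≤ n := by exact_mod_cast hn
  have hn0 : (0 : ℝ) < n := by linarith
  have h1 := mvi (fun a => ∑ m ∈ Ico n (3 * n + 1), min (γ m) (γ (m + 1)) * Fm n m a)
    (fun a => ∑ m ∈ Ico n (3 * n + 1), min (γ m) (γ (m + 1)) *
      (2 * m * (m + 1) * cc a n m * cc a n (m + 1) / (1 - a ^ 2)))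
    (72 * (n : ℝ) ^ 2 * M * γ n)
    (fun a ha => HasDerivAt.fun_sum (fun m _ => (Fm_deriv a ha n m).const_mul _))
    (fun a ha0 ha1 => by
      obtain ⟨i1, i2⟩ := inv_bound a ha0 ha1
      refine (Finset.abs_sum_le_sum_abs _ _).trans ?_
      have e1 : ∀ m ∈ Ico n (3 * n + 1), |min (γ m) (γ (m + 1)) *
          (2 * m * (m + 1) * cc a n m * cc a n (m + 1) / (1 - a ^ 2))| ≤
          36 * (n : ℝ) ^ 2 * (cc a n m ^ 2 * γ m + cc a n (m + 1) ^ 2 * γ (m + 1)) := by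
        intro m hm
        rw [Finset.mem_Ico] at hm
        have hm3 : (m : ℝ) ≤ 3 * n := by
          have : m ≤ 3 * n := by omega
          exact_mod_cast this
        have hm0 : (0 : ℝ) ≤ m := Nat.cast_nonneg _
        have w0 : 0 ≤ min (γ m) (γ (m + 1)) := le_min (hγ m).le (hγ (m + 1)).le
        rw [abs_mul, abs_of_nonneg w0, div_eq_mul_one_div, abs_mul, abs_of_pos (show 0 < 1 / (1 - a ^ 2) by positivity)]
        have e2 : |2 * (m : ℝ) * (m + 1) * cc a n m * cc a n (m + 1)| ≤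
            (m : ℝ) * (m + 1) * (cc a n m ^ 2 + cc a n (m + 1) ^ 2) := by
          rw [show 2 * (m : ℝ) * (m + 1) * cc a n m * cc a n (m + 1) =
            ((m : ℝ) * (m + 1)) * (2 * (cc a n m * cc a n (m + 1))) by ring, abs_mul,
            abs_of_nonneg (show (0 : ℝ) ≤ (m : ℝ) * (m + 1) by positivity)]
          apply mul_le_mul_of_nonneg_left _ (by positivity)
          rw [abs_mul, abs_two, abs_mul]
          nlinarith [sq_nonneg (|cc a n m| - |cc a n (m + 1)|), sq_abs (cc a n m), sq_abs (cc a n (m + 1))]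
        calc min (γ m) (γ (m + 1)) * (|2 * (m : ℝ) * (m + 1) * cc a n m * cc a n (m + 1)| * (1 / (1 - a ^ 2)))
            ≤ min (γ m) (γ (m + 1)) * (((m : ℝ) * (m + 1) * (cc a n m ^ 2 + cc a n (m + 1) ^ 2)) * 3) := by gcongr
          _ ≤ min (γ m) (γ (m + 1)) * (((3 * n) * (4 * n) * (cc a n m ^ 2 + cc a n (m + 1) ^ 2)) * 3) := by
              gcongr
              linarith
          _ = 36 * (n : ℝ) ^ 2 * (cc a n m ^ 2 * min (γ m) (γ (m + 1)) + cc a n (m + 1) ^ 2 * min (γ m) (γ (m + 1))) := by ring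
          _ ≤ 36 * (n : ℝ) ^ 2 * (cc a n m ^ 2 * γ m + cc a n (m + 1) ^ 2 * γ (m + 1)) := by
              gcongr
              · exact min_le_left _ _
              · exact min_le_right _ _
      refine (Finset.sum_le_sum e1).trans ?_
      rw [← Finset.mul_sum, Finset.sum_add_distrib]
      have r1 := hrow a ha0 ha1 n (3 * n + 1) hn
      have r2 := hrow a ha0 ha1 n (3 * n + 2) hn
      have r3 : ∑ m ∈ Ico n (3 * n + 1), cc a n (m + 1) ^ 2 * γ (m + 1) ≤ ∑ k ∈ Ico n (3 * n + 2), cc a n k ^ 2 * γ k := by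
        rw [Finset.sum_Ico_add' (fun k => cc a n k ^ 2 * γ k) n (3 * n + 1) 1]
        apply Finset.sum_le_sum_of_subset_of_nonneg
        · apply Finset.Ico_subset_Ico (by omega) (by omega)
        · intro j _ _; have := (hγ j).le; positivity
      have hMγ : 0 ≤ M * γ n := mul_nonneg hM (hγ n).le
      calc 36 * (n : ℝ) ^ 2 * (∑ m ∈ Ico n (3 * n + 1), cc a n m ^ 2 * γ m + ∑ m ∈ Ico n (3 * n + 1), cc a n (m + 1) ^ 2 * γ (m + 1))
          ≤ 36 * (n : ℝ) ^ 2 * (M * γ n + M * γ n) := by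
            gcongr
            exact r3.trans r2
        _ = _ := by ring) (4 / 5) (by norm_num) le_rfl
  rw [← Finset.sum_sub_distrib] at h1
  have h2 := (abs_le.mp h1).1
  have h3 : ∑ m ∈ Ico n (3 * n + 1), (min (γ m) (γ (m + 1)) * Fm n m (4 / 5) - min (γ m) (γ (m + 1)) * Fm n m 0) ≤
      ∑ m ∈ Ico n (3 * n + 1), -(min (γ m) (γ (m + 1)) * (n / (2 * L))) := by
    apply Finset.sum_le_sum
    intro m hm
    rw [Finset.mem_Ico] at hm
    have w0 : 0 ≤ min (γ m) (γ (m + 1)) := le_min (hγ m).le (hγ (m + 1)).le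
    rw [Fm_at_zero n m hm.1, ← mul_sub, ← mul_neg]
    apply mul_le_mul_of_nonneg_left _ w0
    have := hL n m hn (by omega)
    linarith
  rw [Finset.sum_neg_distrib, ← Finset.sum_mul] at h3
  set W := ∑ m ∈ Ico n (3 * n + 1), min (γ m) (γ (m + 1)) with hW
  have h4 : W * (n / (2 * L)) ≤ 72 * (n : ℝ) ^ 2 * M * γ n := by
    have h5 : 0 ≤ 72 * (n : ℝ) ^ 2 * M * γ n := by have := (hγ n).le; positivity
    linarith
  have h5 : W * (n / (2 * L)) = n * (W / (2 * L)) := by ring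
  rw [h5] at h4
  have h6 : (n : ℝ) * (W / (2 * L)) ≤ n * (72 * n * M * γ n) := by
    calc (n : ℝ) * (W / (2 * L)) ≤ 72 * (n : ℝ) ^ 2 * M * γ n := h4
      _ = n * (72 * n * M * γ n) := by ring
  have h7 := le_of_mul_le_mul_left h6 hn0
  rw [div_le_iff₀ (by positivity)] at h7
  linarith

/-- nearest neighbour entries -/
lemma cc_nbr (n : ℕ) (hn : 1 ≤ n) : 1 / 250 ≤ |cc (1 / (100 * n)) n (n + 1)| := by
  obtain ⟨j, rfl⟩ : ∃ j, n = j + 1 := ⟨n - 1, by omega⟩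
  set n := j + 1 with hn'
  have hn1 : (1 : ℝ) ≤ n := by exact_mod_cast hn
  have hn0 : (0 : ℝ) < n := by linarith
  have hj : (j : ℝ) = n - 1 := by rw [hn']; push_cast; ring
  set a1 : ℝ := 1 / (100 * n) with ha1
  have ha1p : 0 < a1 := by positivity
  have hna1 : n * a1 = 1 / 100 := by rw [ha1]; field_simp
  have ha1le : a1 ≤ 1 / 100 := by
    rw [ha1]
    apply div_le_div_of_nonneg_left (by norm_num) (by norm_num)
    linarith
  have hdiag : ∀ x : ℝ, 0 ≤ x → x ≤ 4 / 5 → |cc x n n - 1| ≤ 6 * n * x := by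
    intro x hx0 hx1
    have h1 := mvi (fun a => cc a n n) (fun a => ((j + 2) * cc a n (j + 2) - j * cc a n j) / (1 - a ^ 2)) (6 * n)
      (fun a ha => cc_deriv a ha n j) (fun a ha0 ha1 => by
        obtain ⟨i1, i2⟩ := inv_bound a ha0 ha1
        have ha : |a| < 1 := by rw [abs_of_nonneg ha0]; linarith
        rw [div_eq_mul_one_div, abs_mul, abs_of_pos (show 0 < 1 / (1 - a ^ 2) by positivity)]
        have e0 : |((j : ℝ) + 2) * cc a n (j + 2) - j * cc a n j| ≤ 2 * n := by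
          refine (abs_sub _ _).trans ?_
          rw [abs_mul, abs_mul, abs_of_nonneg (show (0 : ℝ) ≤ j + 2 by positivity),
            abs_of_nonneg (show (0 : ℝ) ≤ j by positivity)]
          have e1 := cc_le_one a ha n (j + 2)
          have e2 := cc_le_one a ha n j
          calc ((j : ℝ) + 2) * |cc a n (j + 2)| + j * |cc a n j| ≤ ((j : ℝ) + 2) * 1 + j * 1 := by gcongr
            _ = 2 * n := by rw [hj]; ring
        calc |((j : ℝ) + 2) * cc a n (j + 2) - j * cc a n j| * (1 / (1 - a ^ 2)) ≤ (2 * n) * 3 := by gcongr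
          _ = 6 * n := by ring) x hx0 hx1
    rw [cc_at_zero, if_pos rfl] at h1
    exact h1
  have hoff : ∀ x : ℝ, 0 ≤ x → x ≤ 4 / 5 → |cc x n (n + 2)| ≤ 18 * n * x := by
    intro x hx0 hx1
    have h1 := mvi (fun a => cc a n (n + 2)) (fun a => (((n + 1 : ℕ) + 2) * cc a n (n + 1 + 2) - (n + 1 : ℕ) * cc a n (n + 1)) / (1 - a ^ 2)) (18 * n)
      (fun a ha => cc_deriv a ha n (n + 1)) (fun a ha0 ha1 => by
        obtain ⟨i1, i2⟩ := inv_bound a ha0 ha1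
        have ha : |a| < 1 := by rw [abs_of_nonneg ha0]; linarith
        rw [div_eq_mul_one_div, abs_mul, abs_of_pos (show 0 < 1 / (1 - a ^ 2) by positivity)]
        have e0 : |(((n + 1 : ℕ) : ℝ) + 2) * cc a n (n + 1 + 2) - ((n + 1 : ℕ) : ℝ) * cc a n (n + 1)| ≤ 6 * n := by
          refine (abs_sub _ _).trans ?_
          rw [abs_mul, abs_mul, abs_of_nonneg (show (0 : ℝ) ≤ ((n + 1 : ℕ) : ℝ) + 2 by positivity),
            abs_of_nonneg (show (0 : ℝ) ≤ ((n + 1 : ℕ) : ℝ) by positivity)]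
          have e1 := cc_le_one a ha n (n + 1 + 2)
          have e2 := cc_le_one a ha n (n + 1)
          calc (((n + 1 : ℕ) : ℝ) + 2) * |cc a n (n + 1 + 2)| + ((n + 1 : ℕ) : ℝ) * |cc a n (n + 1)|
              ≤ (((n + 1 : ℕ) : ℝ) + 2) * 1 + ((n + 1 : ℕ) : ℝ) * 1 := by gcongr
            _ ≤ 6 * n := by push_cast; linarith
        calc |(((n + 1 : ℕ) : ℝ) + 2) * cc a n (n + 1 + 2) - ((n + 1 : ℕ) : ℝ) * cc a n (n + 1)| * (1 / (1 - a ^ 2)) ≤ (6 * n) * 3 := by gcongr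
          _ = 18 * n := by ring) x hx0 hx1
    rw [cc_at_zero, if_neg (by omega), sub_zero] at h1
    exact h1
  obtain ⟨c, hc, hc2⟩ := exists_hasDerivAt_eq_slope (fun a => cc a n (n + 1))
    (fun a => ((n + 2) * cc a n (n + 2) - n * cc a n n) / (1 - a ^ 2)) ha1p
    (fun a ha => (cc_deriv a (by rw [abs_of_nonneg ha.1]; linarith [ha.2]) n n).continuousAt.continuousWithinAt)
    (fun a ha => cc_deriv a (by rw [abs_of_pos ha.1]; linarith [ha.2]) n n)
  simp only [sub_zero] at hc2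
  rw [cc_at_zero, if_neg (by omega), sub_zero] at hc2
  have hc0 : 0 ≤ c := hc.1.le
  have hc1 : c ≤ a1 := hc.2.le
  have hc45 : c ≤ 4 / 5 := by linarith
  have d1 := hdiag c hc0 hc45
  have d2 := hoff c hc0 hc45
  have hnc : n * c ≤ 1 / 100 := by
    calc (n : ℝ) * c ≤ n * a1 := by gcongr
      _ = 1 / 100 := hna1
  have d1' : 94 / 100 ≤ cc c n n := by
    have := (abs_le.mp d1).1
    linarith
  have d2' : cc c n (n + 2) ≤ 18 / 100 := by
    have := (abs_le.mp d2).2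
    linarith
  have d3 : ((n : ℝ) + 2) * cc c n (n + 2) - n * cc c n n ≤ - (4 / 10) * n := by
    have e1 : ((n : ℝ) + 2) * cc c n (n + 2) ≤ (n + 2) * (18 / 100) := by gcongr
    have e2 : (n : ℝ) * (94 / 100) ≤ n * cc c n n := by gcongr
    linarith
  obtain ⟨i1, i2⟩ := inv_bound c hc0 hc45
  have i3 : 1 - c ^ 2 ≤ 1 := by linarith [sq_nonneg c]
  have d4 : (((n : ℝ) + 2) * cc c n (n + 2) - n * cc c n n) / (1 - c ^ 2) ≤ - (4 / 10) * n := by
    rw [div_le_iff₀ i1]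
    nlinarith
  rw [hc2, div_le_iff₀ ha1p] at d4
  have d5 : cc a1 n (n + 1) ≤ -(1 / 250) := by
    have : -(4 / 10) * (n : ℝ) * a1 = -(1 / 250) := by
      rw [mul_assoc, hna1]; norm_num
    linarith
  rw [abs_of_neg (by linarith)]
  linarith

end Pool.Agent.Helper76.Zp
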