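import Pool.Agent.Helper76.Z15

set_option autoImplicit false
open Complex Filter Topology Metric
open Finset (range Ico)

namespace Pool.Agent.Helper76.Zp
open Pool.Agent.Helper76.Hardy

/-- the row property -/
def Row (γ : ℕ → ℝ) (M : ℝ) : Prop :=
  ∀ (a : ℝ), 0 ≤ a → a ≤ 4 / 5 → ∀ n K : ℕ, 1 ≤ n → ∑ k ∈ Ico n K, cc a n k ^ 2 * γ k ≤ M * γ n

lemma row_beta {β : ℕ → ℝ} (hβ : ∀ n, 0 < β n) {M : ℝ} (hM : ∀ a : ℝ, 0 ≤ a → a ≤ 4 / 5 → Bd β (cx (Au a)) M) :
    Row β M := by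
  intro a ha0 ha1 n K hn
  refine le_trans ?_ ((hM a ha0 ha1).single n K)
  apply Finset.sum_le_sum_of_subset_of_nonneg
  · intro k hk
    rw [Finset.mem_Ico] at hk
    exact Finset.mem_range.mpr hk.2
  · intro j _ _; have := (hβ j).le; positivity

lemma row_inv {β : ℕ → ℝ} (hβ : ∀ n, 0 < β n) {M : ℝ} (hM : ∀ a : ℝ, 0 ≤ a → a ≤ 4 / 5 → Bd β (cx (Au a)) M) :
    Row (fun n => (β n)⁻¹) M := by
  intro a ha0 ha1 m N hm
  have hm1 : (1 : ℝ) ≤ m := by exact_mod_cast hm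
  set T := ∑ j ∈ range N, cc a j m ^ 2 * (β j)⁻¹ with hT
  have hT0 : 0 ≤ T := Finset.sum_nonneg (fun j _ => by have := (hβ j).le; positivity)
  have h1 := (hM a ha0 ha1).real (fun j => cc a j m * (β j)⁻¹) N (m + 1)
  have h2 : ∑ n ∈ range N, (cc a n m * (β n)⁻¹) ^ 2 * β n = T := by
    apply Finset.sum_congr rfl
    intro n _
    have := (hβ n).ne'
    field_simp
  rw [h2] at h1
  have h3 : T ^ 2 * β m ≤ M * T := by
    refine le_trans ?_ h1
    have h4 := Finset.single_le_sum (f := fun k => (∑ n ∈ range N, cc a n m * (β n)⁻¹ * PowerSeries.coeff k (Au a ^ n)) ^ 2 * β k)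
      (fun i _ => by have := (hβ i).le; positivity) (Finset.self_mem_range_succ m)
    refine le_trans (le_of_eq ?_) h4
    congr 2
    apply Finset.sum_congr rfl
    intro n _
    unfold cc
    ring
  have h5 : T ≤ M * (β m)⁻¹ := by
    rcases hT0.eq_or_lt with h | h
    · rw [← h]
      have hM1 := (hM a ha0 ha1).one_le hβ
      have := (hβ m).le
      positivity
    · rw [← div_eq_mul_inv, le_div_iff₀ (hβ m)]
      apply le_of_mul_le_mul_left _ h
      calc T * (T * β m) = T ^ 2 * β m := by ring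
        _ ≤ M * T := h3
        _ = T * M := mul_comm _ _
  refine le_trans ?_ h5
  have h6 : ∑ k ∈ Ico m N, cc a m k ^ 2 * (β k)⁻¹ ≤ ∑ k ∈ Ico m N, cc a k m ^ 2 * (β k)⁻¹ := by
    apply Finset.sum_le_sum
    intro k hk
    rw [Finset.mem_Ico] at hk
    apply mul_le_mul_of_nonneg_right _ (inv_nonneg.mpr (hβ k).le)
    have h7 := cc_symm a k m
    have h8 : (m : ℝ) ^ 2 * cc a k m ^ 2 = k ^ 2 * cc a m k ^ 2 := by
      have h9 : ((-1 : ℝ) ^ (k + m)) ^ 2 = 1 := by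
        rw [← pow_mul, mul_comm, pow_mul]; norm_num
      calc (m : ℝ) ^ 2 * cc a k m ^ 2 = (m * cc a k m) ^ 2 := by ring
        _ = ((-1 : ℝ) ^ (k + m)) ^ 2 * (k ^ 2 * cc a m k ^ 2) := by rw [h7]; ring
        _ = k ^ 2 * cc a m k ^ 2 := by rw [h9, one_mul]
    have hmk : (m : ℝ) ≤ k := by exact_mod_cast hk.1
    have h10 : (m : ℝ) ^ 2 * cc a m k ^ 2 ≤ m ^ 2 * cc a k m ^ 2 := by
      rw [h8]
      have : (m : ℝ) ^ 2 ≤ k ^ 2 := pow_le_pow_left₀ (by linarith) hmk 2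
      exact mul_le_mul_of_nonneg_right this (sq_nonneg _)
    exact le_of_mul_le_mul_left h10 (by positivity)
  refine h6.trans ?_
  rw [hT]
  apply Finset.sum_le_sum_of_subset_of_nonneg
  · intro k hk
    rw [Finset.mem_Ico] at hk
    exact Finset.mem_range.mpr hk.2
  · intro j _ _; have := (hβ j).le; positivity

lemma Row.nbr {γ : ℕ → ℝ} {M : ℝ} (h : Row γ M) (hγ : ∀ n, 0 < γ n) (n : ℕ) (hn : 1 ≤ n) :
    γ (n + 1) ≤ 62500 * M * γ n := by
  have hn1 : (1 : ℝ) ≤ n := by exact_mod_cast hn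
  have h1 := h (1 / (100 * n)) (by positivity) (by
    rw [div_le_div_iff₀ (by positivity) (by norm_num)]; linarith) n (n + 2) hn
  have h2 : cc (1 / (100 * n)) n (n + 1) ^ 2 * γ (n + 1) ≤ M * γ n := by
    refine le_trans ?_ h1
    exact Finset.single_le_sum (f := fun k => cc (1 / (100 * n)) n k ^ 2 * γ k)
      (fun i _ => by have := (hγ i).le; positivity) (Finset.mem_Ico.mpr ⟨by omega, by omega⟩)
  have h3 : (1 / 250) ^ 2 ≤ cc (1 / (100 * n)) n (n + 1) ^ 2 := by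
    rw [← sq_abs (cc _ _ _)]
    exact pow_le_pow_left₀ (by norm_num) (cc_nbr n hn) 2
  have h4 : (1 / 250) ^ 2 * γ (n + 1) ≤ M * γ n :=
    (mul_le_mul_of_nonneg_right h3 (hγ _).le).trans h2
  norm_num at h4
  linarith

/-- slow oscillation from the automorphisms -/
lemma so_of_rows {β : ℕ → ℝ} (hβ : ∀ n, 0 < β n) {M : ℝ} (hM1 : 1 ≤ M) (h1 : Row β M)
    (h2 : Row (fun n => (β n)⁻¹) M) : SO β := by
  obtain ⟨C, hC, hav⟩ := avg_min
  have hβi : ∀ n, 0 < (β n)⁻¹ := fun n => inv_pos.mpr (hβ n)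
  set D := 62500 * M with hD
  have hD1 : 1 ≤ D := by rw [hD]; linarith
  have nb1 : ∀ n, 1 ≤ n → β (n + 1) ≤ D * β n := fun n hn => h1.nbr hβ n hn
  have nb2 : ∀ n, 1 ≤ n → β n ≤ D * β (n + 1) := by
    intro n hn
    have h3 := h2.nbr hβi n hn
    have h4 : (β (n + 1))⁻¹ ≤ D * (β n)⁻¹ := h3
    rw [inv_le_iff_one_le_mul₀ (hβ _)] at h4
    have := hβ n
    calc β n = β n * 1 := (mul_one _).symm
      _ ≤ β n * (D * (β n)⁻¹ * β (n + 1)) := by gcongr
      _ = D * β (n + 1) := by field_simp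
  have a1 := hav β M hβ (by linarith) h1
  have a2 := hav (fun n => (β n)⁻¹) M hβi (by linarith) h2
  set E := D * (C * M) with hE
  have hE0 : 0 < E := by positivity
  have b1 : ∀ n : ℕ, 1 ≤ n → ∑ m ∈ Ico n (3 * n + 1), β m ≤ E * n * β n := by
    intro n hn
    calc ∑ m ∈ Ico n (3 * n + 1), β m ≤ ∑ m ∈ Ico n (3 * n + 1), D * min (β m) (β (m + 1)) := by
          apply Finset.sum_le_sum
          intro m hm
          rw [Finset.mem_Ico] at hm
          rw [mul_min_of_nonneg _ _ (by linarith)]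
          exact le_min (le_mul_of_one_le_left (hβ m).le hD1) (nb2 m (by omega))
      _ = D * ∑ m ∈ Ico n (3 * n + 1), min (β m) (β (m + 1)) := by rw [Finset.mul_sum]
      _ ≤ D * (C * M * n * β n) := by
          apply mul_le_mul_of_nonneg_left (a1 n hn) (by linarith)
      _ = E * n * β n := by rw [hE]; ring
  have b2 : ∀ n : ℕ, 1 ≤ n → ∑ m ∈ Ico n (3 * n + 1), (β m)⁻¹ ≤ E * n * (β n)⁻¹ := by
    intro n hn
    calc ∑ m ∈ Ico n (3 * n + 1), (β m)⁻¹ ≤ ∑ m ∈ Ico n (3 * n + 1), D * min ((β m)⁻¹) ((β (m + 1))⁻¹) := by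
          apply Finset.sum_le_sum
          intro m hm
          rw [Finset.mem_Ico] at hm
          rw [mul_min_of_nonneg _ _ (by linarith)]
          refine le_min (le_mul_of_one_le_left (hβi m).le hD1) ?_
          have h5 := nb1 m (by omega)
          rw [inv_le_iff_one_le_mul₀ (hβ _)]
          have := hβ (m + 1)
          calc (1 : ℝ) = (β (m + 1))⁻¹ * β (m + 1) := by rw [inv_mul_cancel₀ this.ne']
            _ ≤ (β (m + 1))⁻¹ * (D * β m) := by gcongr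
            _ = D * (β (m + 1))⁻¹ * β m := by ring
      _ = D * ∑ m ∈ Ico n (3 * n + 1), min ((β m)⁻¹) ((β (m + 1))⁻¹) := by rw [Finset.mul_sum]
      _ ≤ D * (C * M * n * (β n)⁻¹) := by
          apply mul_le_mul_of_nonneg_left (a2 n hn) (by linarith)
      _ = E * n * (β n)⁻¹ := by rw [hE]; ring
  -- Cauchy-Schwarz
  have cs : ∀ (n m : ℕ), 1 ≤ n → n ≤ m → m ≤ 2 * n →
      (n : ℝ) ^ 2 ≤ (∑ j ∈ Ico m (3 * n + 1), β j) * (∑ j ∈ Ico m (3 * n + 1), (β j)⁻¹) := by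
    intro n m hn hnm hmn
    have h3 := Finset.sum_mul_sq_le_sq_mul_sq (Ico m (3 * n + 1)) (fun j => Real.sqrt (β j)) (fun j => Real.sqrt (β j)⁻¹)
    have h4 : ∑ j ∈ Ico m (3 * n + 1), Real.sqrt (β j) * Real.sqrt (β j)⁻¹ = ((3 * n + 1 - m : ℕ) : ℝ) := by
      rw [← Nat.card_Ico, Finset.cast_card]
      apply Finset.sum_congr rfl
      intro j _
      rw [← Real.sqrt_mul (hβ j).le, mul_inv_cancel₀ (hβ j).ne', Real.sqrt_one]
    simp only [Real.sq_sqrt (hβ _).le, Real.sq_sqrt (hβi _).le] at h3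
    rw [h4] at h3
    refine le_trans ?_ h3
    apply pow_le_pow_left₀ (by positivity)
    have : n ≤ 3 * n + 1 - m := by omega
    exact_mod_cast this
  have main : ∀ (n m : ℕ), 1 ≤ n → n ≤ m → m ≤ 2 * n → β m ≤ 2 * E ^ 2 * β n ∧ β n ≤ 2 * E ^ 2 * β m := by
    intro n m hn hnm hmn
    have hn1 : (1 : ℝ) ≤ n := by exact_mod_cast hn
    have hn2 : (0 : ℝ) < (n : ℝ) ^ 2 := by positivity
    have hm2 : (m : ℝ) ≤ 2 * n := by exact_mod_cast hmn
    have hbn := hβ n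
    have hbm := hβ m
    have sub1 : Ico m (3 * n + 1) ⊆ Ico n (3 * n + 1) := Finset.Ico_subset_Ico_left hnm
    have sub2 : Ico m (3 * n + 1) ⊆ Ico m (3 * m + 1) := Finset.Ico_subset_Ico_right (by omega)
    have s1 : ∑ j ∈ Ico m (3 * n + 1), β j ≤ E * n * β n :=
      (Finset.sum_le_sum_of_subset_of_nonneg sub1 (fun j _ _ => (hβ j).le)).trans (b1 n hn)
    have s2 : ∑ j ∈ Ico m (3 * n + 1), (β j)⁻¹ ≤ E * m * (β m)⁻¹ :=
      (Finset.sum_le_sum_of_subset_of_nonneg sub2 (fun j _ _ => (hβi j).le)).trans (b2 m (by omega))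
    have s3 : ∑ j ∈ Ico m (3 * n + 1), β j ≤ E * m * β m :=
      (Finset.sum_le_sum_of_subset_of_nonneg sub2 (fun j _ _ => (hβ j).le)).trans (b1 m (by omega))
    have s4 : ∑ j ∈ Ico m (3 * n + 1), (β j)⁻¹ ≤ E * n * (β n)⁻¹ :=
      (Finset.sum_le_sum_of_subset_of_nonneg sub1 (fun j _ _ => (hβi j).le)).trans (b2 n hn)
    have hcs := cs n m hn hnm hmn
    have p1 : 0 ≤ ∑ j ∈ Ico m (3 * n + 1), (β j)⁻¹ := Finset.sum_nonneg (fun j _ => (hβi j).le)
    have p2 : 0 ≤ ∑ j ∈ Ico m (3 * n + 1), β j := Finset.sum_nonneg (fun j _ => (hβ j).le)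
    constructor
    · have h5 : (n : ℝ) ^ 2 ≤ (E * n * β n) * (E * m * (β m)⁻¹) :=
        hcs.trans (mul_le_mul s1 s2 p1 (by positivity))
      have h6 : (n : ℝ) ^ 2 * 1 ≤ n ^ 2 * (2 * E ^ 2 * β n * (β m)⁻¹) := by
        calc (n : ℝ) ^ 2 * 1 ≤ (E * n * β n) * (E * m * (β m)⁻¹) := by rw [mul_one]; exact h5
          _ ≤ (E * n * β n) * (E * (2 * n) * (β m)⁻¹) := by gcongr
          _ = n ^ 2 * (2 * E ^ 2 * β n * (β m)⁻¹) := by ring
      have h7 := le_of_mul_le_mul_left h6 hn2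
      rw [← div_eq_mul_inv, le_div_iff₀ hbm, one_mul] at h7
      exact h7
    · have h5 : (n : ℝ) ^ 2 ≤ (E * m * β m) * (E * n * (β n)⁻¹) :=
        hcs.trans (mul_le_mul s3 s4 p1 (by positivity))
      have h6 : (n : ℝ) ^ 2 * 1 ≤ n ^ 2 * (2 * E ^ 2 * β m * (β n)⁻¹) := by
        calc (n : ℝ) ^ 2 * 1 ≤ (E * m * β m) * (E * n * (β n)⁻¹) := by rw [mul_one]; exact h5
          _ ≤ (E * (2 * n) * β m) * (E * n * (β n)⁻¹) := by gcongr
          _ = n ^ 2 * (2 * E ^ 2 * β m * (β n)⁻¹) := by ring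
      have h7 := le_of_mul_le_mul_left h6 hn2
      rw [← div_eq_mul_inv, le_div_iff₀ hbn, one_mul] at h7
      exact h7
  have both : ∀ n m : ℕ, n ≤ 2 * m → m ≤ 2 * n → β m ≤ (2 * E ^ 2 + 1) * β n := by
    intro n m hnm hmn
    have hbn := hβ n
    rcases Nat.eq_zero_or_pos n with h0 | h0
    · subst h0
      have : m = 0 := by omega
      subst this
      nlinarith [sq_nonneg E]
    · rcases le_total n m with h | h
      · have := (main n m h0 h hmn).1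
        nlinarith
      · have := (main m n (by omega) h hnm).2
        nlinarith
  refine ⟨(2 * E ^ 2 + 2)⁻¹, 2 * E ^ 2 + 2, by positivity, ?_, ?_, ?_⟩
  · apply inv_lt_one_of_one_lt₀
    nlinarith [sq_nonneg E]
  · nlinarith [sq_nonneg E]
  · intro n m hnm hmn
    have hbn := hβ n
    have hbm := hβ m
    constructor
    · rw [inv_mul_le_iff₀ (by positivity)]
      have := both m n hmn hnm
      nlinarith
    · have := both n m hnm hmn
      nlinarith

theorem nec_SO {β : ℕ → ℝ} (hβ : ∀ n, 0 < β n)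
    (hlow : ∀ r : ℝ, 0 < r → r < 1 → ∃ c : ℝ, 0 < c ∧ ∀ n, c * r ^ n ≤ β n) (hZ : PZ β) : SO β := by
  obtain ⟨M, hM1, hM⟩ := auto_unif hβ hlow hZ
  exact so_of_rows hβ hM1 (row_beta hβ hM) (row_inv hβ hM)

end Pool.Agent.Helper76.Zp
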