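import Pool.Agent.Helper76.Z16

set_option autoImplicit false
open Complex Filter Topology Metric
open Finset (range Ico)

namespace Pool.Agent.Helper76.Zp
open Pool.Agent.Helper76.Hardy

/-- Baire category on a space of nonnegative symbols -/
lemma baire_sym {β : ℕ → ℝ} (hβ : ∀ n, 0 < β n) (hZ : PZ β)
    {V : Type} [NormedAddCommGroup V] [CompleteSpace V] (π : ℕ → V → ℝ)
    (hπ : ∀ k, Continuous (π k)) (Λ : V → ℝ) (hΛ : Continuous Λ)
    (hsum : ∀ x, (∀ k, 0 ≤ π k x) → HasSum (fun k => π k x) (Λ x))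
    (hsq : ∀ x, (∀ k, 0 ≤ π k x) → Summable (fun k => (π k x) ^ 2 * β k))
    (h0 : ∀ x, π 0 x = 0) (hne : ∃ x, (∀ k, 0 ≤ π k x) ∧ Λ x = 1) :
    ∃ (x0 : V), (∀ k, 0 ≤ π k x0) ∧ Λ x0 = 1 ∧ ∃ ε : ℝ, 0 < ε ∧ ∃ M : ℝ, ∀ x : V, (∀ k, 0 ≤ π k x) →
      Λ x = 1 → dist x x0 < ε → Bd β (cx (PowerSeries.mk (fun k => π k x))) M := by
  set X : Set V := {x | (∀ k, 0 ≤ π k x) ∧ Λ x = 1} with hX
  have hXc : IsClosed X := by
    have h1 : X = (⋂ k, {x | 0 ≤ π k x}) ∩ {x | Λ x = 1} := by
      ext x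
      simp only [hX, Set.mem_ofPred_eq, Set.mem_inter_iff, Set.mem_iInter]
    rw [h1]
    apply IsClosed.inter
    · exact isClosed_iInter (fun k => isClosed_le continuous_const (hπ k))
    · exact isClosed_eq hΛ continuous_const
  have : CompleteSpace X := hXc.completeSpace_coe
  have : Nonempty X := by
    obtain ⟨x, hx⟩ := hne
    exact ⟨⟨x, hx⟩⟩
  obtain ⟨e0, ε, M, hε, hM⟩ := baire (E := X) (fun e : X => cx (PowerSeries.mk (fun k => π k (e : V))))
    (fun n k => by
      have h1 : (fun e : X => PowerSeries.coeff k (cx (PowerSeries.mk (fun k => π k (e : V))) ^ n)) =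
          fun e : X => ((PowerSeries.coeff k ((PowerSeries.mk (fun k => π k (e : V))) ^ n) : ℝ) : ℂ) := by
        ext e; rw [cx_coeff]
      rw [h1]
      apply Complex.continuous_ofReal.comp
      induction n generalizing k with
      | zero => simp only [pow_zero]; exact continuous_const
      | succ n ih =>
        simp only [pow_succ, PowerSeries.coeff_mul]
        apply continuous_finsetSum
        intro x _
        apply (ih x.1 (by ext e; rw [cx_coeff])).mul
        simp only [PowerSeries.coeff_mk]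
        exact (hπ x.2).comp continuous_subtype_val)
    (fun e => by
      have h2 := hsum e.1 e.2.1
      rw [e.2.2] at h2
      obtain ⟨k0, hk0⟩ : ∃ k, 0 < π k e.1 := by
        by_contra hcon
        push Not at hcon
        have h3 : (fun k => π k (e : V)) = fun _ => 0 := by
          ext k
          exact le_antisymm (hcon k) (e.2.1 k)
        rw [h3] at h2
        have := h2.unique hasSum_zero
        norm_num at this
      have hk1 : 1 ≤ k0 := by
        rcases Nat.eq_zero_or_pos k0 with h | h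
        · subst h
          rw [h0] at hk0
          exact absurd hk0 (lt_irrefl _)
        · exact h
      exact hZ.nonneg (fun k => π k (e : V)) e.2.1 h2 k0 hk1 hk0 (hsq e.1 e.2.1)) hβ
  refine ⟨e0.1, e0.2.1, e0.2.2, ε, hε, M, ?_⟩
  intro x hx1 hx2 hd
  exact hM ⟨x, hx1, hx2⟩ hd

/-- coefficientwise order -/
def Cle (F G : PowerSeries ℝ) : Prop := ∀ k, PowerSeries.coeff k F ≤ PowerSeries.coeff k G

lemma Cle.refl (F : PowerSeries ℝ) : Cle F F := fun _ => le_rfl

lemma Cle.trans {F G H : PowerSeries ℝ} (h1 : Cle F G) (h2 : Cle G H) : Cle F H :=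
  fun k => (h1 k).trans (h2 k)

lemma Cle.add {F G F' G' : PowerSeries ℝ} (h1 : Cle F G) (h2 : Cle F' G') : Cle (F + F') (G + G') := by
  intro k
  rw [map_add, map_add]
  exact add_le_add (h1 k) (h2 k)

lemma Cle.mul {F G F' G' : PowerSeries ℝ} (h0 : Cle 0 F) (h0' : Cle 0 F') (h1 : Cle F G) (h2 : Cle F' G') :
    Cle (F * F') (G * G') := by
  intro k
  rw [PowerSeries.coeff_mul, PowerSeries.coeff_mul]
  apply Finset.sum_le_sum
  intro x _
  have e1 := h0 x.1
  have e2 := h0' x.2
  rw [map_zero] at e1 e2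
  exact mul_le_mul (h1 x.1) (h2 x.2) e2 (e1.trans (h1 x.1))

lemma Cle.zero_mul' {F G : PowerSeries ℝ} (h0 : Cle 0 F) (h0' : Cle 0 G) : Cle 0 (F * G) := by
  have := Cle.mul (Cle.refl 0) (Cle.refl 0) h0 h0'
  rwa [mul_zero] at this

lemma Cle.one' : Cle 0 (1 : PowerSeries ℝ) := by
  intro k
  rw [map_zero, PowerSeries.coeff_one]
  split_ifs <;> norm_num

lemma Cle.pow {F G : PowerSeries ℝ} (h0 : Cle 0 F) (h1 : Cle F G) (n : ℕ) : Cle 0 (F ^ n) ∧ Cle (F ^ n) (G ^ n) := by
  induction n with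
  | zero => simp only [pow_zero]; exact ⟨Cle.one', Cle.refl 1⟩
  | succ n ih =>
    rw [pow_succ, pow_succ]
    exact ⟨ih.1.zero_mul' h0, Cle.mul ih.1 h0 ih.2 h1⟩

/-- linear part of a power -/
lemma Cle.lin {A B : PowerSeries ℝ} (hA : Cle 0 A) (hB : Cle 0 B) (n : ℕ) :
    Cle (((n : PowerSeries ℝ) + 1) * (A ^ n * B)) ((A + B) ^ (n + 1)) := by
  have hAB : Cle A (A + B) := by
    intro k
    have := hB k
    rw [map_zero] at this
    rw [map_add]; linarith
  induction n with
  | zero =>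
    intro k
    have := hA k
    rw [map_zero] at this
    simp only [Nat.cast_zero, zero_add, pow_zero, one_mul, pow_one, map_add]
    linarith
  | succ n ih =>
    have hnn : Cle 0 (((n : PowerSeries ℝ) + 1) * (A ^ n * B)) := by
      have h2 : ((n : PowerSeries ℝ) + 1) = PowerSeries.C ((n : ℝ) + 1) := by simp
      intro k
      rw [h2, PowerSeries.coeff_C_mul, map_zero]
      have := ((hA.pow (Cle.refl A) n).1.zero_mul' hB) k
      rw [map_zero] at this
      positivity
    have e1 : Cle (((n : PowerSeries ℝ) + 1) * (A ^ n * B) * A) ((A + B) ^ (n + 1) * A) :=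
      Cle.mul hnn hA ih (Cle.refl A)
    have e2 : Cle (A ^ (n + 1) * B) ((A + B) ^ (n + 1) * B) :=
      Cle.mul (hA.pow hAB (n + 1)).1 hB (hA.pow hAB (n + 1)).2 (Cle.refl B)
    have e3 := e1.add e2
    have e4 : ((n : PowerSeries ℝ) + 1) * (A ^ n * B) * A + A ^ (n + 1) * B =
        (((n + 1 : ℕ) : PowerSeries ℝ) + 1) * (A ^ (n + 1) * B) := by
      push_cast; ring
    have e5 : (A + B) ^ (n + 1) * A + (A + B) ^ (n + 1) * B = (A + B) ^ (n + 1 + 1) := by ring
    rw [e4, e5] at e3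
    exact e3

end Pool.Agent.Helper76.Zp
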