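import Pool.Agent.Helper76.Z17

set_option autoImplicit false
open Complex Filter Topology Metric
open Finset (range Ico)

namespace Pool.Agent.Helper76.Zp
open Pool.Agent.Helper76.Hardy

lemma mass (P0 : ℕ → ℝ) (D : ℕ) (h : ∀ k, D < k → P0 k = 0) (hs : ∑ k ∈ range (D + 1), P0 k = 1)
    (k K : ℕ) (hK : k * D < K) : ∑ i ∈ range K, PowerSeries.coeff i (PowerSeries.mk P0 ^ k) = 1 := by
  set Q : Polynomial ℝ := ∑ i ∈ range (D + 1), Polynomial.C (P0 i) * Polynomial.X ^ i with hQ
  have h1 : PowerSeries.mk P0 = (Q : PowerSeries ℝ) := by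
    ext j
    rw [PowerSeries.coeff_mk, Polynomial.coeff_coe, hQ, Polynomial.finset_sum_coeff]
    simp only [Polynomial.coeff_C_mul, Polynomial.coeff_X_pow]
    by_cases hj : j < D + 1
    · rw [Finset.sum_eq_single j]
      · simp
      · intro b _ hb; rw [if_neg (Ne.symm hb), mul_zero]
      · intro hj'; rw [Finset.mem_range] at hj'; exact absurd hj hj'
    · rw [h j (by omega)]
      symm
      apply Finset.sum_eq_zero
      intro b hb
      rw [Finset.mem_range] at hb
      rw [if_neg (by omega), mul_zero]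
  have h2 : Q.natDegree ≤ D := by
    rw [hQ]
    apply Polynomial.natDegree_sum_le_of_forall_le
    intro i hi
    rw [Finset.mem_range] at hi
    exact (Polynomial.natDegree_C_mul_X_pow_le _ _).trans (by omega)
  have h3 : (Q ^ k).natDegree < K := lt_of_le_of_lt (Polynomial.natDegree_pow_le.trans (Nat.mul_le_mul_left k h2)) hK
  have h4 : (Q ^ k).eval 1 = 1 := by
    rw [Polynomial.eval_pow, hQ, Polynomial.eval_finset_sum]
    simp only [Polynomial.eval_mul, Polynomial.eval_C, Polynomial.eval_pow, Polynomial.eval_X, one_pow, mul_one]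
    rw [hs, one_pow]
  rw [Polynomial.eval_eq_sum_range' h3] at h4
  rw [← h4]
  apply Finset.sum_congr rfl
  intro i _
  rw [h1, ← Polynomial.coe_pow, Polynomial.coeff_coe]
  simp

lemma core2 {β : ℕ → ℝ} (hβ : ∀ n, 0 < β n) (hSO : SO β) (P0 : ℕ → ℝ) (D : ℕ) (hD : 1 ≤ D)
    (hP : ∀ k, 0 ≤ P0 k) (h : ∀ k, D < k → P0 k = 0) (hs : ∑ k ∈ range (D + 1), P0 k = 1) (M : ℝ) (hM : 0 ≤ M) :
    ∃ C : ℝ, 0 < C ∧ ∀ (n m : ℕ) (c : ℝ), 1 ≤ n → n ≤ m → 0 ≤ c → c ≤ 1 / (4 * n) →
      Bd β (cx (PowerSeries.mk (fun k => (1 - c) * P0 k + if k = m then c else 0))) M →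
      c ^ 2 * n ^ 2 * β m ≤ C * β n := by
  obtain ⟨C1, hC1, hso⟩ := hSO.iter hβ
  set J := 1 + 2 * D with hJ
  have hC1p : 0 < C1 := by linarith
  refine ⟨12 * D * C1 ^ 1 * C1 ^ J * (M + 1), by have : (0 : ℝ) < D := by exact_mod_cast hD
                                                 positivity, ?_⟩
  intro n m c hn hnm hc0 hc1 hB
  have hn1 : (1 : ℝ) ≤ n := by exact_mod_cast hn
  have hn0 : (0 : ℝ) < n := by linarith
  have hD1 : (1 : ℝ) ≤ D := by exact_mod_cast hD
  have hc14 : c ≤ 1 / 4 := hc1.trans (by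
    apply div_le_div_of_nonneg_left (by norm_num) (by norm_num)
    linarith)
  have hnc : n * c ≤ 1 / 4 := by
    calc (n : ℝ) * c ≤ n * (1 / (4 * n)) := by gcongr
      _ = 1 / 4 := by field_simp
  set A : PowerSeries ℝ := PowerSeries.C (1 - c) * PowerSeries.mk P0 with hA
  set B : PowerSeries ℝ := PowerSeries.C c * PowerSeries.X ^ m with hBd
  set P : PowerSeries ℝ := PowerSeries.mk (fun k => (1 - c) * P0 k + if k = m then c else 0) with hPdef
  have hPAB : P = A + B := by
    ext k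
    rw [hPdef, hA, hBd, map_add, PowerSeries.coeff_mk, PowerSeries.coeff_C_mul, PowerSeries.coeff_C_mul,
      PowerSeries.coeff_mk, PowerSeries.coeff_X_pow]
    split_ifs <;> simp
  have hA0 : Cle 0 A := by
    intro k
    rw [hA, PowerSeries.coeff_C_mul, PowerSeries.coeff_mk, map_zero]
    exact mul_nonneg (by linarith) (hP k)
  have hB0 : Cle 0 B := by
    intro k
    rw [hBd, PowerSeries.coeff_C_mul, PowerSeries.coeff_X_pow, map_zero]
    split_ifs <;> simp [hc0]
  have hAB : Cle A (A + B) := by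
    intro k
    have := hB0 k
    rw [map_zero] at this
    rw [map_add]; linarith
  have hPn : ∀ k j, 0 ≤ PowerSeries.coeff j (P ^ k) := by
    intro k j
    have h0P : Cle 0 P := by rw [hPAB]; exact hA0.trans hAB
    have := (h0P.pow (Cle.refl P) k).1 j
    rwa [map_zero] at this
  -- mass of a single power in the window
  have hwin : ∀ i : ℕ, i + 1 < 2 * n → (i + 1) * ((1 - c) ^ i * c) ≤
      ∑ j ∈ Ico m (m + (2 * n * D + 1)), PowerSeries.coeff j (P ^ (i + 1)) := by
    intro i hi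
    have e1 := mass P0 D h hs i (2 * n * D + 1) (by nlinarith)
    have e2 : ∀ j, PowerSeries.coeff (m + j) (((i : PowerSeries ℝ) + 1) * (A ^ i * B)) =
        ((i : ℝ) + 1) * ((1 - c) ^ i * c * PowerSeries.coeff j (PowerSeries.mk P0 ^ i)) := by
      intro j
      have e3 : ((i : PowerSeries ℝ) + 1) = PowerSeries.C ((i : ℝ) + 1) := by simp
      rw [e3, PowerSeries.coeff_C_mul, hA, hBd, mul_pow, ← map_pow]
      have e4 : PowerSeries.C ((1 - c) ^ i) * PowerSeries.mk P0 ^ i * (PowerSeries.C c * PowerSeries.X ^ m) =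
          PowerSeries.C ((1 - c) ^ i * c) * (PowerSeries.mk P0 ^ i * PowerSeries.X ^ m) := by
        rw [map_mul]; ring
      rw [e4, PowerSeries.coeff_C_mul, add_comm m j, PowerSeries.coeff_mul_X_pow]
    calc ((i : ℝ) + 1) * ((1 - c) ^ i * c) = ∑ j ∈ range (2 * n * D + 1),
          ((i : ℝ) + 1) * ((1 - c) ^ i * c * PowerSeries.coeff j (PowerSeries.mk P0 ^ i)) := by
            rw [← Finset.mul_sum, ← Finset.mul_sum, e1]; ring
      _ ≤ ∑ j ∈ range (2 * n * D + 1), PowerSeries.coeff (m + j) (P ^ (i + 1)) := by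
          apply Finset.sum_le_sum
          intro j _
          rw [← e2, hPAB]
          exact Cle.lin hA0 hB0 i (m + j)
      _ = _ := by
          rw [Finset.sum_Ico_eq_sum_range]
          simp
  set x : ℕ → ℝ := fun k => if n ≤ k then 1 else 0 with hx
  set G : ℕ → ℝ := fun j => ∑ k ∈ range (2 * n), x k * PowerSeries.coeff j (P ^ k) with hG
  have hsumG : (n : ℝ) ^ 2 * c / 2 ≤ ∑ j ∈ Ico m (m + (2 * n * D + 1)), G j := by
    rw [hG, Finset.sum_comm]
    have e1 : ∀ k ∈ Ico n (2 * n), (n : ℝ) * c / 2 ≤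
        ∑ j ∈ Ico m (m + (2 * n * D + 1)), x k * PowerSeries.coeff j (P ^ k) := by
      intro k hk
      rw [Finset.mem_Ico] at hk
      obtain ⟨i, rfl⟩ : ∃ i, k = i + 1 := ⟨k - 1, by omega⟩
      rw [← Finset.mul_sum, hx]
      simp only
      rw [if_pos hk.1, one_mul]
      refine le_trans ?_ (hwin i hk.2)
      have e2 : 1 / 2 ≤ (1 - c) ^ i := by
        have e3 := one_add_mul_le_pow (show (-2 : ℝ) ≤ -c by linarith) i
        rw [← sub_eq_add_neg] at e3
        refine le_trans ?_ e3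
        have hi2 : (i : ℝ) ≤ 2 * n := by
          have : i ≤ 2 * n := by omega
          exact_mod_cast this
        nlinarith
      have e4 : (n : ℝ) ≤ i + 1 := by exact_mod_cast hk.1
      calc (n : ℝ) * c / 2 = n * (1 / 2 * c) := by ring
        _ ≤ (i + 1) * ((1 - c) ^ i * c) := by gcongr
    have e5 : ∑ k ∈ Ico n (2 * n), ∑ j ∈ Ico m (m + (2 * n * D + 1)), x k * PowerSeries.coeff j (P ^ k) ≤
        ∑ k ∈ range (2 * n), ∑ j ∈ Ico m (m + (2 * n * D + 1)), x k * PowerSeries.coeff j (P ^ k) := by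
      apply Finset.sum_le_sum_of_subset_of_nonneg
      · intro k hk
        rw [Finset.mem_Ico] at hk
        exact Finset.mem_range.mpr hk.2
      · intro k _ _
        apply Finset.sum_nonneg
        intro j _
        apply mul_nonneg _ (hPn k j)
        rw [hx]; simp only; split_ifs <;> norm_num
    refine le_trans ?_ e5
    refine le_trans ?_ (Finset.sum_le_sum e1)
    rw [Finset.sum_const, Nat.card_Ico, nsmul_eq_mul]
    have : ((2 * n - n : ℕ) : ℝ) = n := by
      have : 2 * n - n = n := by omega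
      rw [this]
    rw [this]
    apply le_of_eq; ring
  -- the test
  have hT := hB.real x (2 * n) (m + (2 * n * D + 1))
  have hR : ∑ k ∈ range (2 * n), x k ^ 2 * β k ≤ n * (C1 ^ 1 * β n) := by
    have e1 : ∑ k ∈ range (2 * n), x k ^ 2 * β k = ∑ k ∈ Ico n (2 * n), β k := by
      symm
      have e2 : ∑ k ∈ Ico n (2 * n), β k = ∑ k ∈ Ico n (2 * n), x k ^ 2 * β k := by
        apply Finset.sum_congr rfl
        intro k hk
        rw [Finset.mem_Ico] at hk
        rw [hx]; simp only; rw [if_pos hk.1]; ring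
      rw [e2]
      apply Finset.sum_subset
      · intro k hk
        rw [Finset.mem_Ico] at hk
        exact Finset.mem_range.mpr hk.2
      · intro k hk hk2
        rw [Finset.mem_range] at hk
        rw [Finset.mem_Ico] at hk2
        rw [hx]; simp only; rw [if_neg (by omega)]; ring
    rw [e1]
    calc ∑ k ∈ Ico n (2 * n), β k ≤ ∑ k ∈ Ico n (2 * n), C1 ^ 1 * β n := by
          apply Finset.sum_le_sum
          intro k hk
          rw [Finset.mem_Ico] at hk
          exact (hso 1 n k hk.1 (by rw [pow_one]; omega)).1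
      _ = n * (C1 ^ 1 * β n) := by
          rw [Finset.sum_const, Nat.card_Ico, nsmul_eq_mul]
          have : 2 * n - n = n := by omega
          rw [this]
  have hlowβ : ∀ j ∈ Ico m (m + (2 * n * D + 1)), β m ≤ C1 ^ J * β j := by
    intro j hj
    rw [Finset.mem_Ico] at hj
    apply (hso J m j hj.1 _).2
    have h2J : J ≤ 2 ^ J := Nat.lt_two_pow_self.le
    calc j ≤ m + 2 * n * D := by omega
      _ ≤ m + 2 * m * D := by gcongr
      _ = J * m := by rw [hJ]; ring
      _ ≤ 2 ^ J * m := Nat.mul_le_mul_right m h2J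
  have hS1 : (∑ j ∈ Ico m (m + (2 * n * D + 1)), G j ^ 2) * β m ≤ C1 ^ J * (M * (n * (C1 ^ 1 * β n))) := by
    calc (∑ j ∈ Ico m (m + (2 * n * D + 1)), G j ^ 2) * β m
        = ∑ j ∈ Ico m (m + (2 * n * D + 1)), G j ^ 2 * β m := by rw [Finset.sum_mul]
      _ ≤ ∑ j ∈ Ico m (m + (2 * n * D + 1)), C1 ^ J * (G j ^ 2 * β j) := by
          apply Finset.sum_le_sum
          intro j hj
          calc G j ^ 2 * β m ≤ G j ^ 2 * (C1 ^ J * β j) :=
                mul_le_mul_of_nonneg_left (hlowβ j hj) (sq_nonneg _)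
            _ = C1 ^ J * (G j ^ 2 * β j) := by ring
      _ = C1 ^ J * ∑ j ∈ Ico m (m + (2 * n * D + 1)), G j ^ 2 * β j := by rw [Finset.mul_sum]
      _ ≤ C1 ^ J * ∑ j ∈ range (m + (2 * n * D + 1)), G j ^ 2 * β j := by
          apply mul_le_mul_of_nonneg_left _ (by positivity)
          apply Finset.sum_le_sum_of_subset_of_nonneg
          · intro k hk
            rw [Finset.mem_Ico] at hk
            exact Finset.mem_range.mpr hk.2
          · intro j _ _; have := (hβ j).le; positivity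
      _ ≤ C1 ^ J * (M * (n * (C1 ^ 1 * β n))) := by
          apply mul_le_mul_of_nonneg_left _ (by positivity)
          exact hT.trans (mul_le_mul_of_nonneg_left hR hM)
  have hcs : (∑ j ∈ Ico m (m + (2 * n * D + 1)), G j) ^ 2 ≤ (2 * n * D + 1) * ∑ j ∈ Ico m (m + (2 * n * D + 1)), G j ^ 2 := by
    have e1 := sq_sum_le_card_mul_sum_sq (s := Ico m (m + (2 * n * D + 1))) (f := G)
    rw [Nat.card_Ico] at e1
    have e2 : ((m + (2 * n * D + 1) - m : ℕ) : ℝ) = 2 * n * D + 1 := by
      have : m + (2 * n * D + 1) - m = 2 * n * D + 1 := by omega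
      rw [this]; push_cast; ring
    rw [e2] at e1
    exact e1
  have hbm := hβ m
  have hbn := hβ n
  have f1 : ((n : ℝ) ^ 2 * c / 2) ^ 2 ≤ (2 * n * D + 1) * ∑ j ∈ Ico m (m + (2 * n * D + 1)), G j ^ 2 :=
    (pow_le_pow_left₀ (by positivity) hsumG 2).trans hcs
  have f2 : (n : ℝ) ^ 2 * (c ^ 2 * n ^ 2 * β m) ≤ (n : ℝ) ^ 2 * (12 * D * C1 ^ 1 * C1 ^ J * (M + 1) * β n) := by
    calc (n : ℝ) ^ 2 * (c ^ 2 * n ^ 2 * β m) = 4 * ((n : ℝ) ^ 2 * c / 2) ^ 2 * β m := by ring
      _ ≤ 4 * ((2 * n * D + 1) * ∑ j ∈ Ico m (m + (2 * n * D + 1)), G j ^ 2) * β m := by gcongr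
      _ = 4 * (2 * n * D + 1) * ((∑ j ∈ Ico m (m + (2 * n * D + 1)), G j ^ 2) * β m) := by ring
      _ ≤ 4 * (2 * n * D + 1) * (C1 ^ J * (M * (n * (C1 ^ 1 * β n)))) := by gcongr
      _ ≤ 4 * (3 * n * D) * (C1 ^ J * ((M + 1) * (n * (C1 ^ 1 * β n)))) := by
          have g1 : 2 * (n : ℝ) * D + 1 ≤ 3 * n * D := by nlinarith
          gcongr
          linarith
      _ = (n : ℝ) ^ 2 * (12 * D * C1 ^ 1 * C1 ^ J * (M + 1) * β n) := by ring
  exact le_of_mul_le_mul_left f2 (by positivity)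

end Pool.Agent.Helper76.Zp
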