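import Pool.Agent.Helper76.Z18

set_option autoImplicit false
open Complex Filter Topology Metric
open Finset (range Ico)

namespace Pool.Agent.Helper76.Zp
open Pool.Agent.Helper76.Hardy

/-- the sequence space -/
abbrev L1 : Type := lp (fun _ : ℕ => ℝ) 1

/-- the sequence space of squares -/
abbrev L2 : Type := lp (fun _ : ℕ => ℝ) 2

lemma L1_summable (x : L1) : Summable (fun k => |x k|) := by
  have := (lp.memℓp x).summable (by simp)
  simpa using this

lemma L1_norm (x : L1) : ‖x‖ = ∑' k, |x k| := by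
  rw [lp.norm_eq_tsum_rpow (by simp)]
  simp

/-- the weight -/
noncomputable def wt (β : ℕ → ℝ) (k : ℕ) : ℝ := max 1 (Real.sqrt (β k))

lemma wt_one (β : ℕ → ℝ) (k : ℕ) : 1 ≤ wt β k := le_max_left _ _

lemma wt_pos (β : ℕ → ℝ) (k : ℕ) : 0 < wt β k := lt_of_lt_of_le one_pos (wt_one β k)

/-- coefficients of the symbol -/
noncomputable def pi1 (β : ℕ → ℝ) (k : ℕ) (x : L1) : ℝ := if k = 0 then 0 else x k / wt β k

lemma pi1_add (β : ℕ → ℝ) (k : ℕ) (x y : L1) : pi1 β k (x + y) = pi1 β k x + pi1 β k y := by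
  unfold pi1
  split_ifs
  · simp
  · rw [lp.coeFn_add, Pi.add_apply]; ring

lemma pi1_smul (β : ℕ → ℝ) (k : ℕ) (c : ℝ) (x : L1) : pi1 β k (c • x) = c * pi1 β k x := by
  unfold pi1
  split_ifs
  · simp
  · rw [lp.coeFn_smul, Pi.smul_apply, smul_eq_mul]; ring

lemma pi1_abs (β : ℕ → ℝ) (k : ℕ) (x : L1) : |pi1 β k x| ≤ |x k| := by
  unfold pi1
  split_ifs
  · simp
  · rw [abs_div, abs_of_pos (wt_pos β k)]
    exact div_le_self (abs_nonneg _) (wt_one β k)

lemma pi1_summable (β : ℕ → ℝ) (x : L1) : Summable (fun k => pi1 β k x) :=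
  Summable.of_norm_bounded (L1_summable x) (fun k => pi1_abs β k x)

/-- total mass -/
noncomputable def lam1 (β : ℕ → ℝ) : L1 →L[ℝ] ℝ :=
  LinearMap.mkContinuous
    { toFun := fun x => ∑' k, pi1 β k x
      map_add' := fun x y => by
        rw [← (pi1_summable β x).tsum_add (pi1_summable β y)]
        exact tsum_congr (fun k => pi1_add β k x y)
      map_smul' := fun c x => by
        rw [RingHom.id_apply, smul_eq_mul, ← tsum_mul_left]
        exact tsum_congr (fun k => pi1_smul β k c x) } 1 (fun x => by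
      rw [one_mul, L1_norm]
      exact tsum_of_norm_bounded (L1_summable x).hasSum (fun k => pi1_abs β k x))

lemma lam1_apply (β : ℕ → ℝ) (x : L1) : lam1 β x = ∑' k, pi1 β k x := rfl

lemma pi1_single (β : ℕ → ℝ) (k m : ℕ) (hm : 1 ≤ m) (a : ℝ) :
    pi1 β k (lp.single 1 m a : L1) = if k = m then a / wt β m else 0 := by
  unfold pi1
  by_cases hk : k = m
  · subst hk
    rw [if_neg (by omega), if_pos rfl, lp.single_apply_self]
  · rw [if_neg hk]
    split_ifs
    · rfl
    · rw [lp.single_apply_ne _ _ _ hk, zero_div]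

theorem nec2 {β : ℕ → ℝ} (hβ : ∀ n, 0 < β n) (hZ : PZ β) (hSO : SO β) :
    ∃ C : ℝ, 0 < C ∧ ∀ n m : ℕ, 1 ≤ n → n ≤ m → min ((n : ℝ) ^ 2) (β m) ≤ C * β n := by
  have hcont : ∀ k, Continuous (pi1 β k) := by
    intro k
    unfold pi1
    split_ifs
    · exact continuous_const
    · exact ((lp.evalCLM ℝ (fun _ : ℕ => ℝ) 1 k).continuous).div_const _
  obtain ⟨x0, hx0, hx1, ε, hε, M, hM⟩ := baire_sym hβ hZ (pi1 β) hcont (fun x => lam1 β x) (lam1 β).continuous
    (fun x _ => (pi1_summable β x).hasSum)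
    (fun x _ => by
      apply Summable.of_nonneg_of_le (fun k => by have := (hβ k).le; positivity) _ ((L1_summable x).mul_left ‖x‖)
      intro k
      have e1 : |pi1 β k x| * Real.sqrt (β k) ≤ |x k| := by
        unfold pi1
        split_ifs
        · simp
        · rw [abs_div, abs_of_pos (wt_pos β k), div_mul_eq_mul_div, div_le_iff₀ (wt_pos β k)]
          exact mul_le_mul_of_nonneg_left (le_max_right _ _) (abs_nonneg _)
      have e2 : |x k| ≤ ‖x‖ := by
        have := lp.norm_apply_le_norm (by simp) x k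
        rwa [Real.norm_eq_abs] at this
      calc (pi1 β k x) ^ 2 * β k = (|pi1 β k x| * Real.sqrt (β k)) * (|pi1 β k x| * Real.sqrt (β k)) := by
            rw [show (|pi1 β k x| * Real.sqrt (β k)) * (|pi1 β k x| * Real.sqrt (β k)) =
              |pi1 β k x| ^ 2 * (Real.sqrt (β k) * Real.sqrt (β k)) by ring, Real.mul_self_sqrt (hβ k).le, sq_abs]
        _ ≤ |x k| * |x k| := by
            have : 0 ≤ |pi1 β k x| * Real.sqrt (β k) := by positivity
            gcongr
        _ ≤ ‖x‖ * |x k| := by gcongr)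
    (fun x => by unfold pi1; rw [if_pos rfl])
    (by
      refine ⟨lp.single 1 1 (wt β 1), fun k => ?_, ?_⟩
      · rw [pi1_single β k 1 le_rfl]
        split_ifs
        · rw [div_self (wt_pos β 1).ne']; norm_num
        · exact le_rfl
      · simp only [lam1_apply, pi1_single β _ 1 le_rfl]
        rw [tsum_ite_eq, div_self (wt_pos β 1).ne'])
  have hMnn : 0 ≤ M := by
    have := (hM x0 hx0 hx1 (by rw [dist_self]; exact hε)).one_le hβ
    linarith
  -- truncation
  have hT : Tendsto (fun N : ℕ => ∑ i ∈ range N, (lp.single 1 i (x0 i) : L1)) atTop (𝓝 x0) :=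
    (lp.hasSum_single (by simp) x0).tendsto_sum_nat
  have hTl : Tendsto (fun N : ℕ => lam1 β (∑ i ∈ range N, (lp.single 1 i (x0 i) : L1))) atTop (𝓝 1) := by
    have := ((lam1 β).continuous.tendsto x0).comp hT
    rw [hx1] at this
    exact this
  have hy : Tendsto (fun N : ℕ => (lam1 β (∑ i ∈ range N, (lp.single 1 i (x0 i) : L1)))⁻¹ •
      ∑ i ∈ range N, (lp.single 1 i (x0 i) : L1)) atTop (𝓝 x0) := by
    have := (hTl.inv₀ one_ne_zero).smul hT
    rwa [inv_one, one_smul] at this
  have hev := ((hTl.eventually_const_lt (by norm_num : (0 : ℝ) < 1)).and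
    (hy.eventually (ball_mem_nhds x0 (half_pos hε)))).and (eventually_ge_atTop 1)
  obtain ⟨N, ⟨hN1, hN2⟩, hN3⟩ := hev.exists
  set T : L1 := ∑ i ∈ range N, (lp.single 1 i (x0 i) : L1) with hTd
  set y : L1 := (lam1 β T)⁻¹ • T with hyd
  have hpiT : ∀ k, pi1 β k T = if k < N then pi1 β k x0 else 0 := by
    intro k
    have hTk : T k = if k < N then x0 k else 0 := by
      rw [hTd, lp.coeFn_sum, Finset.sum_apply]
      by_cases hk : k < N
      · rw [if_pos hk, Finset.sum_eq_single k]
        · exact lp.single_apply_self _ _ _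
        · intro b _ hb; exact lp.single_apply_ne _ _ _ (Ne.symm hb)
        · intro hk'; rw [Finset.mem_range] at hk'; exact absurd hk hk'
      · rw [if_neg hk]
        apply Finset.sum_eq_zero
        intro b hb
        rw [Finset.mem_range] at hb
        exact lp.single_apply_ne _ _ _ (by omega)
    unfold pi1
    rw [hTk]
    split_ifs <;> simp
  have hpiy : ∀ k, pi1 β k y = (lam1 β T)⁻¹ * (if k < N then pi1 β k x0 else 0) := by
    intro k
    rw [hyd, pi1_smul, hpiT]
  have hy0 : ∀ k, 0 ≤ pi1 β k y := by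
    intro k
    rw [hpiy]
    apply mul_nonneg (inv_nonneg.mpr hN1.le)
    split_ifs
    · exact hx0 k
    · exact le_rfl
  have hy1 : lam1 β y = 1 := by
    rw [hyd, map_smul, smul_eq_mul, inv_mul_cancel₀ hN1.ne']
  have hyN : ∀ k, N < k → pi1 β k y = 0 := by
    intro k hk
    rw [hpiy, if_neg (by omega), mul_zero]
  have hysum : ∑ k ∈ range (N + 1), pi1 β k y = 1 := by
    rw [← hy1, lam1_apply]
    symm
    apply tsum_eq_sum
    intro k hk
    rw [Finset.mem_range] at hk
    exact hyN k (by omega)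
  obtain ⟨C, hC, hcore⟩ := core2 hβ hSO (fun k => pi1 β k y) N hN3 hy0 hyN hysum M hMnn
  set ε₁ := min (ε / (4 * (1 + ‖y‖))) (1 / 4) with hε₁
  have hny : 0 < 1 + ‖y‖ := by positivity
  have hε₁0 : 0 < ε₁ := by
    rw [hε₁]; exact lt_min (by positivity) (by norm_num)
  have hε₁4 : ε₁ ≤ 1 / 4 := min_le_right _ _
  have hε₁e : ε₁ * (1 + ‖y‖) ≤ ε / 4 := by
    calc ε₁ * (1 + ‖y‖) ≤ ε / (4 * (1 + ‖y‖)) * (1 + ‖y‖) := by
          gcongr
          exact min_le_left _ _
      _ = ε / 4 := by field_simp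
  refine ⟨C / ε₁ ^ 2, by positivity, ?_⟩
  intro n m hn hnm
  have hn1 : (1 : ℝ) ≤ n := by exact_mod_cast hn
  have hm : 1 ≤ m := hn.trans hnm
  set q := max (wt β m) n with hq
  have hq1 : 1 ≤ q := (wt_one β m).trans (le_max_left _ _)
  have hqn : (n : ℝ) ≤ q := le_max_right _ _
  have hq0 : 0 < q := by linarith
  set c := ε₁ / q with hc
  have hc0 : 0 < c := by positivity
  have hc1 : c ≤ 1 / (4 * n) := by
    rw [hc, div_le_div_iff₀ hq0 (by positivity)]
    nlinarith
  have hcε : c ≤ ε₁ := by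
    rw [hc]; exact div_le_self hε₁0.le hq1
  have hcw : c * wt β m ≤ ε₁ := by
    rw [hc, div_mul_eq_mul_div, div_le_iff₀ hq0]
    exact mul_le_mul_of_nonneg_left (le_max_left _ _) hε₁0.le
  set z : L1 := (1 - c) • y + lp.single 1 m (c * wt β m) with hz
  have hpiz : ∀ k, pi1 β k z = (1 - c) * pi1 β k y + if k = m then c else 0 := by
    intro k
    rw [hz, pi1_add, pi1_smul, pi1_single β k m hm, mul_div_cancel_right₀ _ (wt_pos β m).ne']
  have hBz := hM z (fun k => by
      rw [hpiz]
      apply add_nonneg (mul_nonneg (by linarith) (hy0 k))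
      split_ifs
      · exact hc0.le
      · exact le_rfl) (by
      show lam1 β z = 1
      rw [hz, map_add, map_smul, hy1, smul_eq_mul, mul_one, lam1_apply]
      simp only [pi1_single β _ m hm]
      rw [tsum_ite_eq, mul_div_cancel_right₀ _ (wt_pos β m).ne']
      ring) (by
      have e1 : dist z y ≤ ε / 4 := by
        rw [dist_eq_norm, hz]
        have e2 : (1 - c) • y + lp.single 1 m (c * wt β m) - y = -(c • y) + (lp.single 1 m (c * wt β m) : L1) := by
          rw [sub_smul, one_smul]; abel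
        rw [e2]
        refine (norm_add_le _ _).trans ?_
        rw [norm_neg, norm_smul, Real.norm_eq_abs, abs_of_pos hc0, lp.norm_single (by simp), Real.norm_eq_abs,
          abs_of_pos (mul_pos hc0 (wt_pos β m))]
        calc c * ‖y‖ + c * wt β m ≤ ε₁ * ‖y‖ + ε₁ := by gcongr
          _ = ε₁ * (1 + ‖y‖) := by ring
          _ ≤ ε / 4 := hε₁e
      have e3 : dist y x0 < ε / 2 := hN2
      calc dist z x0 ≤ dist z y + dist y x0 := dist_triangle _ _ _
        _ < ε := by linarith)
  have h1 := hcore n m c hn hnm hc0.le hc1 (by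
    have e1 : (fun k => (1 - c) * pi1 β k y + if k = m then c else 0) = fun k => pi1 β k z := by
      ext k; rw [hpiz]
    rw [e1]; exact hBz)
  have hbm := hβ m
  have h2 : ε₁ ^ 2 * min ((n : ℝ) ^ 2) (β m) ≤ c ^ 2 * n ^ 2 * β m := by
    rw [hc, div_pow, div_mul_eq_mul_div, div_mul_eq_mul_div, le_div_iff₀ (by positivity)]
    have e1 : min ((n : ℝ) ^ 2) (β m) * q ^ 2 ≤ n ^ 2 * β m := by
      have hw2 : wt β m ^ 2 = max 1 (β m) := by
        unfold wt
        rcases le_total 1 (Real.sqrt (β m)) with h | h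
        · have h' : 1 ≤ β m := by
            have := pow_le_pow_left₀ zero_le_one h 2
            rw [Real.sq_sqrt hbm.le] at this
            simpa using this
          rw [max_eq_right h, max_eq_right h', Real.sq_sqrt hbm.le]
        · have h' : β m ≤ 1 := by
            have := pow_le_pow_left₀ (Real.sqrt_nonneg _) h 2
            rw [Real.sq_sqrt hbm.le] at this
            simpa using this
          rw [max_eq_left h, max_eq_left h']; norm_num
      have hn2 : (1 : ℝ) ≤ (n : ℝ) ^ 2 := one_le_pow₀ hn1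
      have hq2 : q ^ 2 ≤ max ((n : ℝ) ^ 2) (β m) := by
        rw [hq]
        rcases le_total (wt β m) n with h | h
        · rw [max_eq_right h]; exact le_max_left _ _
        · rw [max_eq_left h, hw2]
          rcases le_total 1 (β m) with h3 | h3
          · rw [max_eq_right h3]; exact le_max_right _ _
          · rw [max_eq_left h3]; exact hn2.trans (le_max_left _ _)
      calc min ((n : ℝ) ^ 2) (β m) * q ^ 2 ≤ min ((n : ℝ) ^ 2) (β m) * max ((n : ℝ) ^ 2) (β m) := by
            apply mul_le_mul_of_nonneg_left hq2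
            exact le_min (by positivity) hbm.le
        _ = n ^ 2 * β m := min_mul_max _ _
    calc ε₁ ^ 2 * min ((n : ℝ) ^ 2) (β m) * q ^ 2 = ε₁ ^ 2 * (min ((n : ℝ) ^ 2) (β m) * q ^ 2) := by ring
      _ ≤ ε₁ ^ 2 * (n ^ 2 * β m) := by gcongr
      _ = ε₁ ^ 2 * n ^ 2 * β m := by ring
  rw [div_mul_eq_mul_div, le_div_iff₀ (by positivity)]
  calc min ((n : ℝ) ^ 2) (β m) * ε₁ ^ 2 = ε₁ ^ 2 * min ((n : ℝ) ^ 2) (β m) := by ring
    _ ≤ _ := h2.trans h1

end Pool.Agent.Helper76.Zp
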