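import Pool.Agent.Helper76.Z1

set_option autoImplicit false
open Complex Filter Topology Metric
open Finset (range)

namespace Pool.Agent.Helper76.Zp
open Pool.Agent.Helper76.Hardy

/-- uniform bound for the matrix of the composition operator -/
def Bd (β : ℕ → ℝ) (Φ : PowerSeries ℂ) (M : ℝ) : Prop :=
  ∀ (x : ℕ → ℂ) (N K : ℕ), ∑ k ∈ range K, ‖∑ n ∈ range N, x n * PowerSeries.coeff k (Φ ^ n)‖ ^ 2 * β k
    ≤ M * ∑ n ∈ range N, ‖x n‖ ^ 2 * β n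

/-- boundedness of the composition operator, with a bound -/
def CompM (β : ℕ → ℝ) (φ : ℂ → ℂ) (M : ℝ) : Prop :=
  ∀ a : ℕ → ℂ, Summable (fun n => ‖a n‖ ^ 2 * β n) →
    ∃ b : ℕ → ℂ, Summable (fun n => ‖b n‖ ^ 2 * β n) ∧
      (∀ z : ℂ, ‖z‖ < 1 → HasSum (fun n => b n * z ^ n) (∑' n, a n * φ z ^ n)) ∧
      ∑' n, ‖b n‖ ^ 2 * β n ≤ M * ∑' n, ‖a n‖ ^ 2 * β n

/-- boundedness of the composition operator -/
def Comp (β : ℕ → ℝ) (φ : ℂ → ℂ) : Prop := ∃ M : ℝ, CompM β φ M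

section
variable {β : ℕ → ℝ} {Φ : PowerSeries ℂ} {φ : ℂ → ℂ}

lemma bd_of_compM (hβ : ∀ n, 0 < β n) (hR : Rep Φ φ) (M : ℝ) (hM : CompM β φ M) : Bd β Φ M := by
  intro x N K
  set a : ℕ → ℂ := fun n => if n ∈ range N then x n else 0 with ha
  have ha0 : ∀ n, n ∉ range N → a n = 0 := by
    intro n hn
    rw [ha]
    simp only
    rw [if_neg hn]
  have ha1 : ∀ n, n ∈ range N → a n = x n := by
    intro n hn
    rw [ha]
    simp only
    rw [if_pos hn]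
  have hsa : Summable (fun n => ‖a n‖ ^ 2 * β n) := by
    apply summable_of_ne_finset_zero (s := range N)
    intro n hn
    rw [ha0 n hn]
    simp
  have hta : ∑' n, ‖a n‖ ^ 2 * β n = ∑ n ∈ range N, ‖x n‖ ^ 2 * β n := by
    rw [tsum_eq_sum (s := range N)]
    · apply Finset.sum_congr rfl
      intro n hn
      rw [ha1 n hn]
    · intro n hn
      rw [ha0 n hn]
      simp
  obtain ⟨b, hb1, hb2, hb3⟩ := hM a hsa
  have hb4 : Rep (PowerSeries.mk b) (fun z => ∑ n ∈ range N, x n * φ z ^ n) := by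
    intro z hz
    have h1 := hb2 z hz
    have h2 : ∑' n, a n * φ z ^ n = ∑ n ∈ range N, x n * φ z ^ n := by
      rw [tsum_eq_sum (s := range N)]
      · apply Finset.sum_congr rfl
        intro n hn
        rw [ha1 n hn]
      · intro n hn
        rw [ha0 n hn]
        simp
    rw [h2] at h1
    simpa using h1
  have hb5 : Rep (∑ n ∈ range N, x n • Φ ^ n) (fun z => ∑ n ∈ range N, x n * φ z ^ n) :=
    Rep.sum (range N) (fun n => x n • Φ ^ n) (fun n z => x n * φ z ^ n)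
      (fun n _ => (hR.pow n).smul (x n))
  have hb6 := hb4.unique hb5 (fun z _ => rfl)
  have hb7 : ∀ k, b k = ∑ n ∈ range N, x n * PowerSeries.coeff k (Φ ^ n) := by
    intro k
    have h1 := congrArg (PowerSeries.coeff k) hb6
    rw [PowerSeries.coeff_mk, map_sum] at h1
    rw [h1]
    apply Finset.sum_congr rfl
    intro n _
    rw [map_smul, smul_eq_mul]
  rw [← hta]
  refine le_trans ?_ hb3
  have h1 : ∑ k ∈ range K, ‖∑ n ∈ range N, x n * PowerSeries.coeff k (Φ ^ n)‖ ^ 2 * β k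
      = ∑ k ∈ range K, ‖b k‖ ^ 2 * β k := by
    apply Finset.sum_congr rfl
    intro k _
    rw [hb7 k]
  rw [h1]
  exact hb1.sum_le_tsum _ (fun n _ => by have := (hβ n).le; positivity)

/-- sup of a self-map on a smaller disc -/
lemma sup_lt (hR : Rep Φ φ) (hm : ∀ z : ℂ, ‖z‖ < 1 → ‖φ z‖ < 1) (r : ℝ) (h0 : 0 ≤ r) (h1 : r < 1) :
    ∃ s : ℝ, 0 ≤ s ∧ s < 1 ∧ ∀ z : ℂ, ‖z‖ ≤ r → ‖φ z‖ ≤ s := by
  have hc : IsCompact (closedBall (0 : ℂ) r) := isCompact_closedBall 0 r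
  have hne : (closedBall (0 : ℂ) r).Nonempty := ⟨0, by simpa using h0⟩
  obtain ⟨z0, hz0, hmax⟩ := hc.exists_isMaxOn hne (hR.continuousOn r h0 h1).norm
  refine ⟨‖φ z0‖, norm_nonneg _, hm z0 ?_, ?_⟩
  · rw [mem_closedBall_zero_iff] at hz0
    exact hz0.trans_lt h1
  · intro z hz
    exact hmax (by rwa [mem_closedBall_zero_iff])

lemma coeff_pow_le (hR : Rep Φ φ) (r s : ℝ) (h0 : 0 ≤ r) (h1 : r < 1) (hs : 0 ≤ s)
    (hb : ∀ z : ℂ, ‖z‖ ≤ r → ‖φ z‖ ≤ s) (n k : ℕ) :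
    ‖PowerSeries.coeff k (Φ ^ n)‖ * r ^ k ≤ s ^ n := by
  apply (hR.pow n).coeff_le r (s ^ n) h0 h1 (by positivity)
  intro z hz
  rw [norm_pow]
  exact pow_le_pow_left₀ (norm_nonneg _) (hb z hz.le) n

lemma a_le (hβ : ∀ n, 0 < β n) (hlow : ∀ r : ℝ, 0 < r → r < 1 → ∃ c : ℝ, 0 < c ∧ ∀ n, c * r ^ n ≤ β n)
    (a : ℕ → ℂ) (ha : Summable (fun n => ‖a n‖ ^ 2 * β n)) (s : ℝ) (hs0 : 0 ≤ s) (hs1 : s < 1) :
    Summable (fun n => ‖a n‖ * s ^ n) := by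
  obtain ⟨t, ht1, ht2⟩ := exists_between hs1
  have ht0 : 0 < t := hs0.trans_lt ht1
  obtain ⟨c, hc, hlow'⟩ := hlow (t ^ 2) (by positivity) (by nlinarith)
  set S := ∑' n, ‖a n‖ ^ 2 * β n with hS
  have hS0 : 0 ≤ S := tsum_nonneg (fun n => by have := (hβ n).le; positivity)
  have h1 : ∀ n, ‖a n‖ * t ^ n ≤ Real.sqrt (S / c) := by
    intro n
    apply Real.le_sqrt_of_sq_le
    rw [le_div_iff₀ hc]
    have h2 : ‖a n‖ ^ 2 * β n ≤ S := ha.le_tsum n (fun j _ => by have := (hβ j).le; positivity)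
    have h3 := hlow' n
    have h4 : (t ^ 2) ^ n = (t ^ n) ^ 2 := by rw [← pow_mul, ← pow_mul, mul_comm]
    rw [h4] at h3
    calc (‖a n‖ * t ^ n) ^ 2 * c = ‖a n‖ ^ 2 * (c * (t ^ n) ^ 2) := by ring
      _ ≤ ‖a n‖ ^ 2 * β n := by gcongr
      _ ≤ S := h2
  have h2 : Summable (fun n : ℕ => Real.sqrt (S / c) * (s / t) ^ n) := by
    apply Summable.mul_left
    apply summable_geometric_of_lt_one (by positivity)
    rw [div_lt_one ht0]; exact ht1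
  apply Summable.of_nonneg_of_le (fun n => by positivity) _ h2
  intro n
  have h3 : (t : ℝ) ^ n ≠ 0 := by positivity
  calc ‖a n‖ * s ^ n = (‖a n‖ * t ^ n) * (s / t) ^ n := by rw [div_pow]; field_simp
    _ ≤ Real.sqrt (S / c) * (s / t) ^ n := by
      apply mul_le_mul_of_nonneg_right (h1 n)
      positivity

lemma bd_of_comp (hβ : ∀ n, 0 < β n) (hR : Rep Φ φ) (hC : Comp β φ) : ∃ M, Bd β Φ M := by
  obtain ⟨M, hM⟩ := hC
  exact ⟨M, bd_of_compM hβ hR M hM⟩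

lemma compM_of_bd (hβ : ∀ n, 0 < β n)
    (hlow : ∀ r : ℝ, 0 < r → r < 1 → ∃ c : ℝ, 0 < c ∧ ∀ n, c * r ^ n ≤ β n)
    (hR : Rep Φ φ) (hm : ∀ z : ℂ, ‖z‖ < 1 → ‖φ z‖ < 1) (M : ℝ) (hM : Bd β Φ M) : CompM β φ M := by
  intro a ha
  set b : ℕ → ℂ := fun k => ∑' n, a n * PowerSeries.coeff k (Φ ^ n) with hb
  -- summability of the double family
  have hdouble : ∀ z : ℂ, ‖z‖ < 1 →
      Summable (fun x : ℕ × ℕ => a x.1 * PowerSeries.coeff x.2 (Φ ^ x.1) * z ^ x.2) := by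
    intro z hz
    obtain ⟨r, hr1, hr2⟩ := exists_between hz
    have hr0 : 0 < r := (norm_nonneg z).trans_lt hr1
    obtain ⟨s, hs0, hs1, hs⟩ := sup_lt hR hm r hr0.le hr2
    have h1 := a_le hβ hlow a ha s hs0 hs1
    have h2 : Summable (fun k : ℕ => (‖z‖ / r) ^ k) := by
      apply summable_geometric_of_lt_one (by positivity)
      rw [div_lt_one hr0]; exact hr1
    have h3 := h1.mul_of_nonneg h2 (fun n => by positivity) (fun k => by positivity)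
    apply Summable.of_norm_bounded h3
    rintro ⟨n, k⟩
    simp only [norm_mul, norm_pow]
    have h4 := coeff_pow_le hR r s hr0.le hr2 hs0 hs n k
    have h5 : r ^ k ≠ 0 := by positivity
    calc ‖a n‖ * ‖PowerSeries.coeff k (Φ ^ n)‖ * ‖z‖ ^ k
        = ‖a n‖ * (‖PowerSeries.coeff k (Φ ^ n)‖ * r ^ k) * (‖z‖ / r) ^ k := by
          rw [div_pow]; field_simp
      _ ≤ ‖a n‖ * s ^ n * (‖z‖ / r) ^ k := by gcongr
  have hbk : ∀ k, Summable (fun n => a n * PowerSeries.coeff k (Φ ^ n)) := by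
    intro k
    have h1 := hdouble (1 / 2) (by norm_num)
    have h2 := (h1.comp_injective (i := fun n : ℕ => ((n, k) : ℕ × ℕ)) (fun x y hxy => by
      simpa using hxy)).mul_right (((1 : ℂ) / 2) ^ k)⁻¹
    refine h2.congr ?_
    intro n
    have : ((1 : ℂ) / 2) ^ k ≠ 0 := pow_ne_zero k (by norm_num)
    simp only [Function.comp]
    field_simp
  have hlim : ∀ k, Tendsto (fun N : ℕ => ∑ n ∈ range N, a n * PowerSeries.coeff k (Φ ^ n)) atTop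
      (𝓝 (b k)) := fun k => (hbk k).hasSum.tendsto_sum_nat
  have hsum : ∀ K : ℕ, ∑ k ∈ range K, ‖b k‖ ^ 2 * β k ≤ M * ∑' n, ‖a n‖ ^ 2 * β n := by
    intro K
    have h1 : Tendsto (fun N : ℕ => ∑ k ∈ range K,
        ‖∑ n ∈ range N, a n * PowerSeries.coeff k (Φ ^ n)‖ ^ 2 * β k) atTop
        (𝓝 (∑ k ∈ range K, ‖b k‖ ^ 2 * β k)) := by
      apply tendsto_finsetSum
      intro k _
      exact (((hlim k).norm).pow 2).mul_const _
    have h2 : Tendsto (fun N : ℕ => M * ∑ n ∈ range N, ‖a n‖ ^ 2 * β n) atTop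
        (𝓝 (M * ∑' n, ‖a n‖ ^ 2 * β n)) := (ha.hasSum.tendsto_sum_nat).const_mul M
    exact le_of_tendsto_of_tendsto' h1 h2 (fun N => hM a N K)
  refine ⟨b, ?_, ?_, ?_⟩
  · exact summable_of_sum_range_le (fun n => by have := (hβ n).le; positivity) hsum
  · intro z hz
    have h1 := hdouble z hz
    have h2 := h1.hasSum
    have h3 : ∀ n, HasSum (fun k => a n * PowerSeries.coeff k (Φ ^ n) * z ^ k) (a n * φ z ^ n) := by
      intro n
      have := ((hR.pow n) z hz).mul_left (a n)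
      simpa [mul_assoc] using this
    have h4 := h2.prod_fiberwise h3
    have h5 : ∀ k, HasSum (fun n => a n * PowerSeries.coeff k (Φ ^ n) * z ^ k) (b k * z ^ k) := by
      intro k
      exact (hbk k).hasSum.mul_right _
    have h6 : HasSum (fun x : ℕ × ℕ => a x.2 * PowerSeries.coeff x.1 (Φ ^ x.2) * z ^ x.1)
        (∑' x : ℕ × ℕ, a x.1 * PowerSeries.coeff x.2 (Φ ^ x.1) * z ^ x.2) := by
      have := (Equiv.prodComm ℕ ℕ).hasSum_iff (f := fun x : ℕ × ℕ =>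
        a x.1 * PowerSeries.coeff x.2 (Φ ^ x.1) * z ^ x.2)
        (a := ∑' x : ℕ × ℕ, a x.1 * PowerSeries.coeff x.2 (Φ ^ x.1) * z ^ x.2)
      exact this.mpr h2
    have h7 := h6.prod_fiberwise h5
    rw [h4.tsum_eq]
    exact h7
  · exact Real.tsum_le_of_sum_range_le (fun n => by have := (hβ n).le; positivity) hsum

lemma comp_of_bd (hβ : ∀ n, 0 < β n)
    (hlow : ∀ r : ℝ, 0 < r → r < 1 → ∃ c : ℝ, 0 < c ∧ ∀ n, c * r ^ n ≤ β n)
    (hR : Rep Φ φ) (hm : ∀ z : ℂ, ‖z‖ < 1 → ‖φ z‖ < 1) (M : ℝ) (hM : Bd β Φ M) : Comp β φ :=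
  ⟨M, compM_of_bd hβ hlow hR hm M hM⟩

lemma CompM.comp {φ₁ φ₂ : ℂ → ℂ} {M₁ M₂ : ℝ} (h1 : CompM β φ₁ M₁) (h2 : CompM β φ₂ M₂)
    (hM₂ : 0 ≤ M₂) (hm : ∀ z : ℂ, ‖z‖ < 1 → ‖φ₂ z‖ < 1) :
    CompM β (fun z => φ₁ (φ₂ z)) (M₂ * M₁) := by
  intro a ha
  obtain ⟨b, hb1, hb2, hb3⟩ := h1 a ha
  obtain ⟨c, hc1, hc2, hc3⟩ := h2 b hb1
  refine ⟨c, hc1, ?_, ?_⟩
  · intro z hz
    have h3 := hc2 z hz
    rwa [(hb2 (φ₂ z) (hm z hz)).tsum_eq] at h3
  · calc ∑' n, ‖c n‖ ^ 2 * β n ≤ M₂ * ∑' n, ‖b n‖ ^ 2 * β n := hc3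
      _ ≤ M₂ * (M₁ * ∑' n, ‖a n‖ ^ 2 * β n) := mul_le_mul_of_nonneg_left hb3 hM₂
      _ = M₂ * M₁ * ∑' n, ‖a n‖ ^ 2 * β n := by ring

lemma CompM.congr {φ₁ φ₂ : ℂ → ℂ} {M : ℝ} (h1 : CompM β φ₁ M)
    (h : ∀ z : ℂ, ‖z‖ < 1 → φ₁ z = φ₂ z) : CompM β φ₂ M := by
  intro a ha
  obtain ⟨b, hb1, hb2, hb3⟩ := h1 a ha
  refine ⟨b, hb1, ?_, hb3⟩
  intro z hz
  rw [← h z hz]
  exact hb2 z hz

end

end Pool.Agent.Helper76.Zp
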