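import Pool.Agent.Helper76.Z19

set_option autoImplicit false
open Complex Filter Topology Metric
open Finset (range Ico)

namespace Pool.Agent.Helper76.Zp
open Pool.Agent.Helper76.Hardy

/-- dichotomy -/
lemma dichot {β : ℕ → ℝ} (hβ : ∀ n, 0 < β n) (C : ℝ) (hC : 0 < C)
    (h : ∀ n m : ℕ, 1 ≤ n → n ≤ m → min ((n : ℝ) ^ 2) (β m) ≤ C * β n) :
    ED β ∨ ∃ c : ℝ, 0 < c ∧ ∀ n : ℕ, 1 ≤ n → c * (n : ℝ) ^ 2 ≤ β n := by
  by_cases hall : ∀ n : ℕ, 1 ≤ n → (n : ℝ) ^ 2 ≤ C * β n
  · right
    refine ⟨C⁻¹, inv_pos.mpr hC, fun n hn => ?_⟩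
    rw [inv_mul_le_iff₀ hC]
    exact hall n hn
  · left
    push Not at hall
    obtain ⟨n0, hn0, hlt⟩ := hall
    have hbd : ∀ m, n0 ≤ m → β m ≤ C * β n0 := by
      intro m hm
      have h1 := h n0 m hn0 hm
      rcases min_le_iff.mp h1 with h2 | h2
      · exact absurd h2 (not_le.mpr hlt)
      · exact h2
    set Bd0 := C * β n0 with hBd0
    obtain ⟨n1, hn1⟩ := exists_nat_gt (C * Bd0)
    set n2 := max (max n0 n1) 1 with hn2
    have hB0 : 0 < Bd0 := by have := hβ n0; positivity
    have hED : ∀ n m, n2 ≤ n → n ≤ m → β m ≤ C * β n := by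
      intro n m hn hnm
      have hn1' : 1 ≤ n := (le_max_right _ _).trans hn
      have hn0' : n0 ≤ n := ((le_max_left _ _).trans (le_max_left _ _)).trans hn
      have hnn1 : n1 ≤ n := ((le_max_right _ _).trans (le_max_left _ _)).trans hn
      have h1 := h n m hn1' hnm
      rcases min_le_iff.mp h1 with h2 | h2
      · exfalso
        have h3 := hbd n hn0'
        have h4 : (n1 : ℝ) ≤ n := by exact_mod_cast hnn1
        have h5 : (1 : ℝ) ≤ n := by exact_mod_cast hn1'
        have h6 : C * β n ≤ C * Bd0 := mul_le_mul_of_nonneg_left h3 hC.le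
        nlinarith
      · exact h2
    -- finite part
    obtain ⟨S, hS⟩ : ∃ S : ℝ, ∀ m, β m ≤ S := by
      refine ⟨max (∑ i ∈ range n2, β i) Bd0, fun m => ?_⟩
      by_cases hm : m < n2
      · refine le_trans ?_ (le_max_left _ _)
        exact Finset.single_le_sum (f := β) (fun i _ => (hβ i).le) (Finset.mem_range.mpr hm)
      · refine le_trans (hbd m ?_) (le_max_right _ _)
        push Not at hm
        exact ((le_max_left _ _).trans (le_max_left _ _)).trans hm
    have hS0 : 0 < S := (hβ 0).trans_le (hS 0)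
    refine ⟨max (max C 1) (∑ i ∈ range n2, S / β i), (le_max_right _ _).trans (le_max_left _ _), ?_⟩
    intro n m hnm
    have hbn := hβ n
    by_cases hn : n < n2
    · calc β m ≤ S := hS m
        _ = (S / β n) * β n := by field_simp
        _ ≤ (∑ i ∈ range n2, S / β i) * β n := by
            apply mul_le_mul_of_nonneg_right _ hbn.le
            exact Finset.single_le_sum (f := fun i => S / β i) (fun i _ => by have := hβ i; positivity)
              (Finset.mem_range.mpr hn)
        _ ≤ _ := mul_le_mul_of_nonneg_right (le_max_right _ _) hbn.le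
    · push Not at hn
      calc β m ≤ C * β n := hED n m hn hnm
        _ ≤ _ := mul_le_mul_of_nonneg_right ((le_max_left _ _).trans (le_max_left _ _)) hbn.le

/-! ### evaluation of real power series -/

/-- absolute summability at a point -/
def Asum (F : PowerSeries ℝ) (r : ℝ) : Prop := Summable (fun k : ℕ => |PowerSeries.coeff k F| * r ^ k)

/-- value -/
noncomputable def ev (F : PowerSeries ℝ) (r : ℝ) : ℝ := ∑' k : ℕ, PowerSeries.coeff k F * r ^ k

lemma Asum.summable {F : PowerSeries ℝ} {r : ℝ} (hr : 0 ≤ r) (h : Asum F r) :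
    Summable (fun k : ℕ => PowerSeries.coeff k F * r ^ k) := by
  apply Summable.of_norm_bounded h
  intro k
  rw [Real.norm_eq_abs, abs_mul, abs_of_nonneg (pow_nonneg hr k)]

lemma Asum.hasSum {F : PowerSeries ℝ} {r : ℝ} (hr : 0 ≤ r) (h : Asum F r) :
    HasSum (fun k : ℕ => PowerSeries.coeff k F * r ^ k) (ev F r) := (h.summable hr).hasSum

lemma Asum.mul {F G : PowerSeries ℝ} {r : ℝ} (hr : 0 ≤ r) (hF : Asum F r) (hG : Asum G r) :
    Asum (F * G) r ∧ ev (F * G) r = ev F r * ev G r := by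
  have h1 : Summable (fun k : ℕ => ‖PowerSeries.coeff k F * r ^ k‖) := by
    refine hF.congr (fun k => ?_)
    rw [Real.norm_eq_abs, abs_mul, abs_of_nonneg (pow_nonneg hr k)]
  have h2 : Summable (fun k : ℕ => ‖PowerSeries.coeff k G * r ^ k‖) := by
    refine hG.congr (fun k => ?_)
    rw [Real.norm_eq_abs, abs_mul, abs_of_nonneg (pow_nonneg hr k)]
  have h3 := tsum_mul_tsum_eq_tsum_sum_antidiagonal_of_summable_norm h1 h2
  have h4 := summable_norm_sum_mul_antidiagonal_of_summable_norm h1 h2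
  have h5 : ∀ n : ℕ, ∑ x ∈ Finset.HasAntidiagonal.antidiagonal n, PowerSeries.coeff x.1 F * r ^ x.1 * (PowerSeries.coeff x.2 G * r ^ x.2) =
      PowerSeries.coeff n (F * G) * r ^ n := by
    intro n
    rw [PowerSeries.coeff_mul, Finset.sum_mul]
    apply Finset.sum_congr rfl
    intro x hx
    rw [Finset.HasAntidiagonal.mem_antidiagonal] at hx
    rw [← hx, pow_add]
    ring
  constructor
  · refine h4.congr (fun n => ?_)
    rw [h5, Real.norm_eq_abs, abs_mul, abs_of_nonneg (pow_nonneg hr n)]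
  · unfold ev
    rw [h3]
    exact tsum_congr (fun n => (h5 n).symm)

lemma Asum.one' (r : ℝ) : Asum 1 r ∧ ev 1 r = 1 := by
  constructor
  · apply summable_of_ne_finset_zero (s := {0})
    intro k hk
    rw [Finset.mem_singleton] at hk
    rw [PowerSeries.coeff_one, if_neg hk]; simp
  · unfold ev
    rw [tsum_eq_single 0]
    · simp
    · intro k hk
      rw [PowerSeries.coeff_one, if_neg hk]; simp

lemma Asum.pow {F : PowerSeries ℝ} {r : ℝ} (hr : 0 ≤ r) (hF : Asum F r) (n : ℕ) :
    Asum (F ^ n) r ∧ ev (F ^ n) r = ev F r ^ n := by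
  induction n with
  | zero => simp only [pow_zero]; exact Asum.one' r
  | succ n ih =>
    obtain ⟨h1, h2⟩ := ih.1.mul hr hF
    rw [pow_succ, pow_succ, h2, ih.2]
    exact ⟨h1, rfl⟩

/-- chain rule at a point -/
lemma chain {F : PowerSeries ℝ} {r : ℝ} (hr : 0 ≤ r) (hF : Asum F r)
    (hF' : Asum (PowerSeries.derivative ℝ F) r) (n : ℕ) :
    HasSum (fun k : ℕ => ((k : ℝ) + 1) * PowerSeries.coeff (k + 1) (F ^ n) * r ^ k)
      (n * ev F r ^ (n - 1) * ev (PowerSeries.derivative ℝ F) r) := by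
  have h1 := PowerSeries.derivative_pow F n
  obtain ⟨h2, h3⟩ := hF.pow hr (n - 1)
  obtain ⟨h4, h5⟩ := h2.mul hr hF'
  have h6 := (h4.hasSum hr).mul_left (n : ℝ)
  rw [h5, h3] at h6
  have h7 : (fun k : ℕ => ((k : ℝ) + 1) * PowerSeries.coeff (k + 1) (F ^ n) * r ^ k) =
      fun k => (n : ℝ) * (PowerSeries.coeff k (F ^ (n - 1) * PowerSeries.derivative ℝ F) * r ^ k) := by
    ext k
    have h8 : PowerSeries.coeff k (PowerSeries.derivative ℝ (F ^ n)) = ((k : ℝ) + 1) * PowerSeries.coeff (k + 1) (F ^ n) := by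
      rw [PowerSeries.coeff_derivative]; ring
    rw [← h8, h1, mul_assoc]
    have h9 : (n : PowerSeries ℝ) = PowerSeries.C (n : ℝ) := by simp
    rw [h9, PowerSeries.coeff_C_mul]
    ring
  rw [h7, mul_assoc]
  exact h6

/-- nonnegative power series with bounded coefficients -/
lemma Asum.of_bdd {F : PowerSeries ℝ} (B : ℝ) (hB : ∀ k, |PowerSeries.coeff k F| ≤ B) {r : ℝ} (hr : 0 ≤ r) (hr1 : r < 1) :
    Asum F r ∧ Asum (PowerSeries.derivative ℝ F) r := by
  constructor
  · apply Summable.of_nonneg_of_le (fun k => by positivity) _ ((summable_geometric_of_lt_one hr hr1).mul_left B)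
    intro k
    exact mul_le_mul_of_nonneg_right (hB k) (pow_nonneg hr k)
  · have h1 := summable_pow_mul_geometric_of_norm_lt_one 1 (show ‖r‖ < 1 by rw [Real.norm_of_nonneg hr]; exact hr1)
    have h2 := (h1.add (summable_geometric_of_lt_one hr hr1)).mul_left B
    apply Summable.of_nonneg_of_le (fun k => by positivity) _ h2
    intro k
    rw [PowerSeries.coeff_derivative, abs_mul, abs_of_nonneg (show (0 : ℝ) ≤ (k : ℝ) + 1 by positivity)]
    have := hB (k + 1)
    calc |PowerSeries.coeff (k + 1) F| * ((k : ℝ) + 1) * r ^ k ≤ B * ((k : ℝ) + 1) * r ^ k := by gcongr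
      _ = B * ((k : ℝ) ^ 1 * r ^ k + r ^ k) := by ring

end Pool.Agent.Helper76.Zp
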