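import Pool.Agent.Helper76.Z20

set_option autoImplicit false
open Complex Filter Topology Metric
open Finset (range Ico)

namespace Pool.Agent.Helper76.Zp
open Pool.Agent.Helper76.Hardy

lemma L2_mem (f : ℕ → ℝ) (h : Summable (fun k => f k ^ 2)) : Memℓp f 2 := by
  apply memℓp_gen
  refine h.congr (fun k => ?_)
  simp

lemma L2_hasSum (x y : L2) : HasSum (fun k => x k * y k) (inner ℝ x y) := by
  have h := lp.hasSum_inner (𝕜 := ℝ) x y
  have h2 : (fun k => x k * y k) = fun k => inner ℝ (x k) (y k) := by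
    ext k
    simp [mul_comm]
  rw [h2]
  exact h

lemma L2_sq (x : L2) : HasSum (fun k => x k ^ 2) (‖x‖ ^ 2) := by
  have h := L2_hasSum x x
  rw [real_inner_self_eq_norm_sq] at h
  have h2 : (fun k => x k ^ 2) = fun k => x k * x k := by ext k; ring
  rw [h2]
  exact h

/-- truncated derivative sums -/
noncomputable def SN (β : ℕ → ℝ) (N : ℕ) (t : ℝ) : ℝ :=
  ∑ n ∈ range N, ((n : ℝ) * t ^ (n - 1)) ^ 2 / β n

lemma SN_nonneg {β : ℕ → ℝ} (hβ : ∀ n, 0 < β n) (N : ℕ) (t : ℝ) : 0 ≤ SN β N t :=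
  Finset.sum_nonneg (fun n _ => by have := (hβ n).le; positivity)

lemma SN_mono {β : ℕ → ℝ} (hβ : ∀ n, 0 < β n) (N : ℕ) {s t : ℝ} (hs : 0 ≤ s) (hst : s ≤ t) :
    SN β N s ≤ SN β N t := by
  unfold SN
  apply Finset.sum_le_sum
  intro n _
  have := hβ n
  gcongr

/-- the testing inequality for the derivative functional -/
lemma core3 {β : ℕ → ℝ} (hβ : ∀ n, 0 < β n) (P : PowerSeries ℝ) (B : ℝ)
    (hPB : ∀ k, |PowerSeries.coeff k P| ≤ B) (M : ℝ) (hM : 0 ≤ M) (hB : Bd β (cx P) M) (r : ℝ) (hr : 0 ≤ r) (hr1 : r < 1)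
    (S : ℝ) (hS : HasSum (fun k : ℕ => (((k : ℝ) + 1) * r ^ k) ^ 2 / β (k + 1)) S) (N : ℕ) :
    (ev (PowerSeries.derivative ℝ P) r) ^ 2 * SN β N (ev P r) ≤ M * S := by
  obtain ⟨a1, a2⟩ := Asum.of_bdd B hPB hr hr1
  set t := ev P r with ht
  set p' := ev (PowerSeries.derivative ℝ P) r with hp'
  set x : ℕ → ℝ := fun n => (n : ℝ) * t ^ (n - 1) / β n with hx
  set g : ℕ → ℝ := fun j => ∑ n ∈ range N, x n * PowerSeries.coeff j (P ^ n) with hg
  have h1 : HasSum (fun k : ℕ => ((k : ℝ) + 1) * g (k + 1) * r ^ k) (p' * SN β N t) := by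
    have h2 : HasSum (fun k : ℕ => ∑ n ∈ range N, x n * (((k : ℝ) + 1) * PowerSeries.coeff (k + 1) (P ^ n) * r ^ k))
        (∑ n ∈ range N, x n * (n * t ^ (n - 1) * p')) :=
      hasSum_sum (fun n _ => (chain hr a1 a2 n).mul_left (x n))
    have h3 : ∑ n ∈ range N, x n * (n * t ^ (n - 1) * p') = p' * SN β N t := by
      unfold SN
      rw [Finset.mul_sum]
      apply Finset.sum_congr rfl
      intro n _
      rw [hx]
      ring
    rw [h3] at h2
    have h4 : (fun k : ℕ => ((k : ℝ) + 1) * g (k + 1) * r ^ k) =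
        fun k : ℕ => ∑ n ∈ range N, x n * (((k : ℝ) + 1) * PowerSeries.coeff (k + 1) (P ^ n) * r ^ k) := by
      ext k
      rw [hg]
      simp only
      rw [Finset.mul_sum, Finset.sum_mul]
      apply Finset.sum_congr rfl
      intro n _
      ring
    rw [h4]
    exact h2
  have hxs : ∑ n ∈ range N, x n ^ 2 * β n = SN β N t := by
    unfold SN
    apply Finset.sum_congr rfl
    intro n _
    rw [hx]
    have := (hβ n).ne'
    field_simp
  have hS0 : 0 ≤ S := hS.nonneg (fun k => by have := (hβ (k + 1)).le; positivity)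
  have h5 : ∀ J : ℕ, (∑ k ∈ range J, ((k : ℝ) + 1) * g (k + 1) * r ^ k) ^ 2 ≤ (M * SN β N t) * S := by
    intro J
    have c1 := Finset.sum_mul_sq_le_sq_mul_sq (range J) (fun k => g (k + 1) * Real.sqrt (β (k + 1)))
      (fun k => ((k : ℝ) + 1) * r ^ k / Real.sqrt (β (k + 1)))
    have c2 : ∑ k ∈ range J, g (k + 1) * Real.sqrt (β (k + 1)) * (((k : ℝ) + 1) * r ^ k / Real.sqrt (β (k + 1))) =
        ∑ k ∈ range J, ((k : ℝ) + 1) * g (k + 1) * r ^ k := by
      apply Finset.sum_congr rfl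
      intro k _
      have : Real.sqrt (β (k + 1)) ≠ 0 := (Real.sqrt_pos.mpr (hβ (k + 1))).ne'
      field_simp
    have c3 : ∑ k ∈ range J, (g (k + 1) * Real.sqrt (β (k + 1))) ^ 2 ≤ M * SN β N t := by
      have e1 := hB.real x N (J + 1)
      rw [hxs] at e1
      refine le_trans ?_ e1
      rw [Finset.sum_range_succ']
      have e2 : ∑ k ∈ range J, (g (k + 1) * Real.sqrt (β (k + 1))) ^ 2 = ∑ k ∈ range J, g (k + 1) ^ 2 * β (k + 1) := by
        apply Finset.sum_congr rfl
        intro k _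
        rw [mul_pow, Real.sq_sqrt (hβ (k + 1)).le]
      rw [e2]
      have e3 : 0 ≤ (∑ n ∈ range N, x n * PowerSeries.coeff 0 (P ^ n)) ^ 2 * β 0 := by
        have := (hβ 0).le; positivity
      linarith
    have c4 : ∑ k ∈ range J, (((k : ℝ) + 1) * r ^ k / Real.sqrt (β (k + 1))) ^ 2 ≤ S := by
      have e2 : ∑ k ∈ range J, (((k : ℝ) + 1) * r ^ k / Real.sqrt (β (k + 1))) ^ 2 =
          ∑ k ∈ range J, (((k : ℝ) + 1) * r ^ k) ^ 2 / β (k + 1) := by
        apply Finset.sum_congr rfl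
        intro k _
        rw [div_pow, Real.sq_sqrt (hβ (k + 1)).le]
      rw [e2]
      exact sum_le_hasSum _ (fun k _ => by have := (hβ (k + 1)).le; positivity) hS
    rw [c2] at c1
    refine c1.trans ?_
    exact mul_le_mul c3 c4 (Finset.sum_nonneg (fun k _ => sq_nonneg _)) (mul_nonneg hM (SN_nonneg hβ N t))
  have h6 : (p' * SN β N t) ^ 2 ≤ (M * SN β N t) * S :=
    le_of_tendsto (h1.tendsto_sum_nat.pow 2) (Eventually.of_forall h5)
  rcases (SN_nonneg hβ N t).eq_or_lt with h | h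
  · rw [← h, mul_zero]
    positivity
  · apply le_of_mul_le_mul_left _ h
    calc SN β N t * (p' ^ 2 * SN β N t) = (p' * SN β N t) ^ 2 := by ring
      _ ≤ (M * SN β N t) * S := h6
      _ = SN β N t * (M * S) := by ring

theorem nec3 {β : ℕ → ℝ} (hβ : ∀ n, 0 < β n) (hZ : PZ β) (hs : Summable (fun n => (β n)⁻¹)) :
    Summable (fun n : ℕ => (n : ℝ) ^ 2 / β n) := by
  set e : L2 := ⟨fun k => if k = 0 then 0 else (Real.sqrt (β k))⁻¹, L2_mem _ (by
    apply Summable.of_nonneg_of_le (fun k => sq_nonneg _) _ hs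
    intro k
    split_ifs
    · have := hβ k; simp; exact this.le
    · rw [inv_pow, Real.sq_sqrt (hβ k).le])⟩ with he
  have he0 : e 0 = 0 := by rw [he]; simp
  have hek : ∀ k, 1 ≤ k → e k = (Real.sqrt (β k))⁻¹ := by
    intro k hk; rw [he]
    show (if k = 0 then 0 else (Real.sqrt (β k))⁻¹) = _
    rw [if_neg (by omega)]
  have henn : ∀ k, 0 ≤ e k := by
    intro k
    rcases Nat.eq_zero_or_pos k with h | h
    · rw [h, he0]
    · rw [hek k h]; positivity
  have hkx : ∀ x : L2, HasSum (fun k => e k * x k) (inner ℝ e x) := fun x => L2_hasSum e x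
  obtain ⟨x0, hx0, hx1, ε, hε, M, hM⟩ := baire_sym hβ hZ (fun k (x : L2) => e k * x k)
    (fun k => continuous_const.mul (lp.evalCLM ℝ (fun _ : ℕ => ℝ) 2 k).continuous)
    (fun x => inner ℝ e x) (continuous_const.inner continuous_id)
    (fun x _ => hkx x)
    (fun x _ => by
      apply Summable.of_nonneg_of_le (fun k => by have := (hβ k).le; positivity) _ (L2_sq x).summable
      intro k
      rcases Nat.eq_zero_or_pos k with h | h
      · rw [h, he0]; simp; positivity
      · rw [hek k h, mul_pow, inv_pow, Real.sq_sqrt (hβ k).le]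
        have := (hβ k).ne'
        apply le_of_eq
        field_simp)
    (fun x => by simp only [he0, zero_mul])
    (by
      refine ⟨lp.single 2 1 (Real.sqrt (β 1)), fun k => ?_, ?_⟩
      · apply mul_nonneg (henn k)
        by_cases hk : k = 1
        · subst hk; rw [lp.single_apply_self]; positivity
        · rw [lp.single_apply_ne _ _ _ hk]
      · have h1 := hkx (lp.single 2 1 (Real.sqrt (β 1)))
        have h2 : HasSum (fun k => e k * (lp.single 2 1 (Real.sqrt (β 1)) : L2) k) 1 := by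
          have h3 : (1 : ℝ) = e 1 * (lp.single 2 1 (Real.sqrt (β 1)) : L2) 1 := by
            rw [hek 1 le_rfl, lp.single_apply_self, inv_mul_cancel₀]
            exact (Real.sqrt_pos.mpr (hβ 1)).ne'
          have h4 := hasSum_single (f := fun k => e k * (lp.single 2 1 (Real.sqrt (β 1)) : L2) k) 1 (by
            intro k hk
            simp only
            rw [lp.single_apply_ne _ _ _ hk, mul_zero])
          simp only at h4
          rw [← h3] at h4
          exact h4
        exact h1.unique h2)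
  have hM1 : 1 ≤ M := (hM x0 hx0 hx1 (by rw [dist_self]; exact hε)).one_le hβ
  have hxe : ‖e‖ * ‖x0‖ ≥ 1 := by
    have := real_inner_le_norm e x0
    rw [hx1] at this
    exact this
  have hen : 0 < ‖e‖ := by
    by_contra hcon
    push Not at hcon
    have : ‖e‖ = 0 := le_antisymm hcon (norm_nonneg _)
    rw [this] at hxe; linarith
  set q := 1 + ‖e‖ * ‖x0‖ with hq
  have hq0 : 0 < q := by positivity
  set η := min (ε / (2 * q)) (1 / ‖e‖) with hη
  have hη0 : 0 < η := lt_min (by positivity) (by positivity)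
  have hηe : η * ‖e‖ ≤ 1 := by
    calc η * ‖e‖ ≤ (1 / ‖e‖) * ‖e‖ := by
          gcongr
          exact min_le_right _ _
      _ = 1 := by field_simp
  have hηq : η * q < ε := by
    calc η * q ≤ ε / (2 * q) * q := by
          gcongr
          exact min_le_left _ _
      _ = ε / 2 := by field_simp
      _ < ε := by linarith
  -- tails of e
  set T : ℕ → L2 := fun K => e - ∑ i ∈ range K, (lp.single 2 i (e i) : L2) with hT
  have hTlim : Tendsto (fun K => ‖T K‖) atTop (𝓝 0) := by
    have h1 : Tendsto (fun K : ℕ => ∑ i ∈ range K, (lp.single 2 i (e i) : L2)) atTop (𝓝 e) :=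
      (lp.hasSum_single (by simp) e).tendsto_sum_nat
    have h2 := (h1.const_sub e).norm
    rwa [sub_self, norm_zero] at h2
  have hTin : ∀ (K : ℕ) (x : L2), inner ℝ (T K) x = inner ℝ e x - ∑ k ∈ range K, e k * x k := by
    intro K x
    rw [hT]
    simp only
    rw [inner_sub_left, sum_inner]
    congr 1
    apply Finset.sum_congr rfl
    intro i _
    rw [lp.inner_single_left]
    simp [mul_comm]
  -- main bound at the point of evaluation
  have key : ∀ r : ℝ, 0 < r → r < 1 → ∃ t : ℝ, (∀ N, SN β N t ≤ M / η ^ 2) ∧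
      ∀ K : ℕ, r ^ K * (1 - ‖T K‖ * (‖x0‖ + ε)) ≤ t := by
    intro r hr0 hr1
    -- kernel
    have hκs : Summable (fun k : ℕ => (((k : ℝ) + 1) * r ^ k) ^ 2 / β (k + 1)) := by
      have h1 := summable_pow_mul_geometric_of_norm_lt_one 2 (show ‖r ^ 2‖ < 1 by
        rw [Real.norm_of_nonneg (by positivity)]; nlinarith)
      have h2 := (summable_nat_add_iff 1).mpr h1
      have h3 : Summable (fun k : ℕ => (((k : ℝ) + 1) * r ^ k) ^ 2) := by
        refine (h2.mul_left ((r ^ 2)⁻¹)).congr (fun k => ?_)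
        push_cast
        rw [mul_pow, ← pow_mul, ← pow_mul]
        field_simp
        ring
      have h4 : ∀ k, (β (k + 1))⁻¹ ≤ ∑' n, (β n)⁻¹ := fun k => hs.le_tsum (k + 1) (fun j _ => (inv_pos.mpr (hβ j)).le)
      apply Summable.of_nonneg_of_le (fun k => by have := (hβ (k + 1)).le; positivity) _ (h3.mul_right (∑' n, (β n)⁻¹))
      intro k
      rw [div_eq_mul_inv]
      exact mul_le_mul_of_nonneg_left (h4 k) (by positivity)
    set κ : L2 := ⟨fun k => if k = 0 then 0 else (k : ℝ) * r ^ (k - 1) / Real.sqrt (β k), L2_mem _ (by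
      rw [← summable_nat_add_iff 1]
      refine hκs.congr (fun k => ?_)
      rw [if_neg (by omega), Nat.add_sub_cancel, div_pow, Real.sq_sqrt (hβ (k + 1)).le]
      push_cast
      ring)⟩ with hκ
    have hκ0 : κ 0 = 0 := by rw [hκ]; simp
    have hκk : ∀ k, κ (k + 1) = ((k : ℝ) + 1) * r ^ k / Real.sqrt (β (k + 1)) := by
      intro k
      rw [hκ]
      show (if k + 1 = 0 then 0 else ((k + 1 : ℕ) : ℝ) * r ^ (k + 1 - 1) / Real.sqrt (β (k + 1))) = _
      rw [if_neg (by omega), Nat.add_sub_cancel]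
      push_cast
      ring
    have hκnn : ∀ k, 0 ≤ κ k := by
      intro k
      rcases k with _ | k
      · rw [hκ0]
      · rw [hκk]; positivity
    have hκsq : HasSum (fun k : ℕ => (((k : ℝ) + 1) * r ^ k) ^ 2 / β (k + 1)) (‖κ‖ ^ 2) := by
      have h1 := L2_sq κ
      have h2 := (hasSum_nat_add_iff' (f := fun k => κ k ^ 2) 1).mpr h1
      rw [Finset.range_one, Finset.sum_singleton, hκ0, zero_pow two_ne_zero, sub_zero] at h2
      have h3 : (fun k : ℕ => κ (k + 1) ^ 2) = fun k : ℕ => (((k : ℝ) + 1) * r ^ k) ^ 2 / β (k + 1) := by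
        ext k
        rw [hκk, div_pow, Real.sq_sqrt (hβ (k + 1)).le]
      rw [← h3]
      exact h2
    have hκpos : 0 < ‖κ‖ := by
      rw [norm_pos_iff]
      intro h
      have h1 := hκk 0
      rw [h] at h1
      have h2 : (0 : ℝ) < (((0 : ℕ) : ℝ) + 1) * r ^ 0 / Real.sqrt (β (0 + 1)) := by
        have := Real.sqrt_pos.mpr (hβ (0 + 1))
        positivity
      rw [← h1] at h2
      simp at h2
    set v : L2 := ‖κ‖⁻¹ • κ with hv
    have hvn : ‖v‖ = 1 := by
      rw [hv, norm_smul, norm_inv, norm_norm, inv_mul_cancel₀ hκpos.ne']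
    have hvk : ∀ k, v k = ‖κ‖⁻¹ * κ k := by
      intro k; rw [hv, lp.coeFn_smul, Pi.smul_apply, smul_eq_mul]
    have hvnn : ∀ k, 0 ≤ v k := fun k => by rw [hvk]; exact mul_nonneg (by positivity) (hκnn k)
    set L := inner ℝ e v with hL
    have hL0 : 0 ≤ L := (hkx v).nonneg (fun k => mul_nonneg (henn k) (hvnn k))
    have hL1 : L ≤ ‖e‖ := by
      have := real_inner_le_norm e v
      rwa [hvn, mul_one] at this
    have hηL : η * L ≤ 1 := (mul_le_mul_of_nonneg_left hL1 hη0.le).trans hηe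
    set z : L2 := (1 - η * L) • x0 + η • v with hz
    have hzk : ∀ k, e k * z k = (1 - η * L) * (e k * x0 k) + η * (e k * v k) := by
      intro k
      rw [hz, lp.coeFn_add, Pi.add_apply, lp.coeFn_smul, lp.coeFn_smul, Pi.smul_apply, Pi.smul_apply,
        smul_eq_mul, smul_eq_mul]
      ring
    have hznn : ∀ k, 0 ≤ e k * z k := by
      intro k
      rw [hzk]
      exact add_nonneg (mul_nonneg (by linarith) (hx0 k)) (mul_nonneg hη0.le (mul_nonneg (henn k) (hvnn k)))
    have hz1 : inner ℝ e z = (1 : ℝ) := by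
      rw [hz, inner_add_right, inner_smul_right, inner_smul_right, hx1, ← hL]
      ring
    have hzd : dist z x0 < ε := by
      rw [dist_eq_norm, hz]
      have e1 : (1 - η * L) • x0 + η • v - x0 = -((η * L) • x0) + η • v := by
        rw [sub_smul, one_smul]; abel
      rw [e1]
      refine lt_of_le_of_lt (norm_add_le _ _) ?_
      rw [norm_neg, norm_smul, norm_smul, hvn, Real.norm_of_nonneg (by positivity), Real.norm_of_nonneg hη0.le, mul_one]
      calc η * L * ‖x0‖ + η ≤ η * ‖e‖ * ‖x0‖ + η := by gcongr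
        _ = η * q := by rw [hq]; ring
        _ < ε := hηq
    have hBz := hM z hznn hz1 hzd
    set P : PowerSeries ℝ := PowerSeries.mk (fun k => e k * z k) with hP
    have hPsum : HasSum (fun k => e k * z k) 1 := by rw [← hz1]; exact hkx z
    have hPle : ∀ k, e k * z k ≤ 1 := by
      intro k
      have := hPsum.summable.le_tsum k (fun j _ => hznn j)
      rwa [hPsum.tsum_eq] at this
    have hPB : ∀ k, |PowerSeries.coeff k P| ≤ 1 := by
      intro k
      rw [hP, PowerSeries.coeff_mk, abs_of_nonneg (hznn k)]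
      exact hPle k
    obtain ⟨a1, a2⟩ := Asum.of_bdd 1 hPB hr0.le hr1
    refine ⟨ev P r, ?_, ?_⟩
    · intro N
      have h1 := core3 hβ P 1 hPB M (by linarith) hBz r hr0.le hr1 _ hκsq N
      have h2 : η * ‖κ‖ ≤ ev (PowerSeries.derivative ℝ P) r := by
        have h3 := a2.hasSum hr0.le
        have h4 := hκsq.mul_left (η * ‖κ‖⁻¹)
        have h5 : η * ‖κ‖⁻¹ * ‖κ‖ ^ 2 = η * ‖κ‖ := by field_simp
        rw [h5] at h4
        apply hasSum_le _ h4 h3
        intro k
        rw [PowerSeries.coeff_derivative, hP, PowerSeries.coeff_mk, hzk, hek (k + 1) (by omega), hvk, hκk]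
        have h6 : 0 ≤ (1 - η * L) * ((Real.sqrt (β (k + 1)))⁻¹ * x0 (k + 1)) := by
          have := hx0 (k + 1)
          rw [hek (k + 1) (by omega)] at this
          exact mul_nonneg (by linarith) this
        have h7 : η * ((Real.sqrt (β (k + 1)))⁻¹ * (‖κ‖⁻¹ * (((k : ℝ) + 1) * r ^ k / Real.sqrt (β (k + 1))))) =
            η * ‖κ‖⁻¹ * (((k : ℝ) + 1) * r ^ k / β (k + 1)) := by
          have h8 : Real.sqrt (β (k + 1)) * Real.sqrt (β (k + 1)) = β (k + 1) := Real.mul_self_sqrt (hβ (k + 1)).le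
          have h9 : β (k + 1) ≠ 0 := (hβ (k + 1)).ne'
          have h10 : Real.sqrt (β (k + 1)) ≠ 0 := (Real.sqrt_pos.mpr (hβ (k + 1))).ne'
          generalize Real.sqrt (β (k + 1)) = w at h8 h10 ⊢
          rw [← h8]
          field_simp
        rw [h7]
        calc η * ‖κ‖⁻¹ * ((((k : ℝ) + 1) * r ^ k) ^ 2 / β (k + 1))
            = (η * ‖κ‖⁻¹ * (((k : ℝ) + 1) * r ^ k / β (k + 1))) * ((k : ℝ) + 1) * r ^ k := by ring
          _ ≤ ((1 - η * L) * ((Real.sqrt (β (k + 1)))⁻¹ * x0 (k + 1)) +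
              η * ‖κ‖⁻¹ * (((k : ℝ) + 1) * r ^ k / β (k + 1))) * ((k : ℝ) + 1) * r ^ k := by
              gcongr
              linarith
      have h3 : (η * ‖κ‖) ^ 2 ≤ (ev (PowerSeries.derivative ℝ P) r) ^ 2 := pow_le_pow_left₀ (by positivity) h2 2
      have h4 : (η * ‖κ‖) ^ 2 * SN β N (ev P r) ≤ M * ‖κ‖ ^ 2 :=
        (mul_le_mul_of_nonneg_right h3 (SN_nonneg hβ N _)).trans h1
      rw [le_div_iff₀ (by positivity)]
      have h5 : 0 < ‖κ‖ ^ 2 := by positivity
      apply le_of_mul_le_mul_left _ h5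
      calc ‖κ‖ ^ 2 * (SN β N (ev P r) * η ^ 2) = (η * ‖κ‖) ^ 2 * SN β N (ev P r) := by ring
        _ ≤ M * ‖κ‖ ^ 2 := h4
        _ = ‖κ‖ ^ 2 * M := mul_comm _ _
    · intro K
      have hzn : ‖z‖ ≤ ‖x0‖ + ε := by
        have : ‖z - x0‖ < ε := by rw [← dist_eq_norm]; exact hzd
        calc ‖z‖ = ‖x0 + (z - x0)‖ := by congr 1; abel
          _ ≤ ‖x0‖ + ‖z - x0‖ := norm_add_le _ _
          _ ≤ ‖x0‖ + ε := by linarith
      have h1 := real_inner_le_norm (T K) z
      rw [hTin, hz1] at h1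
      have h2 : 1 - ‖T K‖ * (‖x0‖ + ε) ≤ ∑ k ∈ range K, e k * z k := by
        have : ‖T K‖ * ‖z‖ ≤ ‖T K‖ * (‖x0‖ + ε) := by gcongr
        linarith
      calc r ^ K * (1 - ‖T K‖ * (‖x0‖ + ε)) ≤ r ^ K * ∑ k ∈ range K, e k * z k := by gcongr
        _ = ∑ k ∈ range K, (e k * z k) * r ^ K := by rw [Finset.mul_sum]; apply Finset.sum_congr rfl; intro k _; ring
        _ ≤ ∑ k ∈ range K, (e k * z k) * r ^ k := by
            apply Finset.sum_le_sum
            intro k hk
            rw [Finset.mem_range] at hk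
            apply mul_le_mul_of_nonneg_left _ (hznn k)
            exact pow_le_pow_of_le_one hr0.le hr1.le hk.le
        _ = ∑ k ∈ range K, PowerSeries.coeff k P * r ^ k := by
            apply Finset.sum_congr rfl; intro k _; rw [hP, PowerSeries.coeff_mk]
        _ ≤ ev P r := by
            apply sum_le_hasSum _ _ (a1.hasSum hr0.le)
            intro k _
            rw [hP, PowerSeries.coeff_mk]
            exact mul_nonneg (hznn k) (by positivity)
  -- all s in (0,1)
  have hall : ∀ s : ℝ, 0 < s → s < 1 → ∀ N, SN β N s ≤ M / η ^ 2 := by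
    intro s hs0 hs1 N
    obtain ⟨s', hs1', hs2'⟩ := exists_between hs1
    have h1 : Tendsto (fun K => 1 - ‖T K‖ * (‖x0‖ + ε)) atTop (𝓝 (1 - 0 * (‖x0‖ + ε))) :=
      (hTlim.mul_const _).const_sub 1
    rw [zero_mul, sub_zero] at h1
    obtain ⟨K, hK⟩ := (h1.eventually_const_lt hs2').exists
    have h2 : Tendsto (fun r : ℝ => r ^ K * (1 - ‖T K‖ * (‖x0‖ + ε))) (𝓝[<] 1) (𝓝 (1 ^ K * (1 - ‖T K‖ * (‖x0‖ + ε)))) := by
      apply Tendsto.mono_left _ nhdsWithin_le_nhds
      exact (Continuous.tendsto (by fun_prop) 1)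
    rw [one_pow, one_mul] at h2
    have h3 : ∀ᶠ r : ℝ in 𝓝[<] 1, 0 < r := by
      apply Filter.Eventually.filter_mono nhdsWithin_le_nhds
      exact lt_mem_nhds (by norm_num)
    obtain ⟨r, hr, hr0, hr1⟩ := ((h2.eventually_const_lt (hs1'.trans hK)).and (h3.and self_mem_nhdsWithin)).exists
    obtain ⟨t, ht1, ht2⟩ := key r hr0 hr1
    have h4 : s ≤ t := hr.le.trans (ht2 K)
    exact (SN_mono hβ N hs0.le h4).trans (ht1 N)
  have hone : ∀ N, SN β N 1 ≤ M / η ^ 2 := by
    intro N
    have h2 : Tendsto (fun s : ℝ => SN β N s) (𝓝[<] 1) (𝓝 (SN β N 1)) := by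
      apply Tendsto.mono_left _ nhdsWithin_le_nhds
      apply Continuous.tendsto
      unfold SN
      fun_prop
    apply le_of_tendsto h2
    have h3 : ∀ᶠ r : ℝ in 𝓝[<] 1, 0 < r := by
      apply Filter.Eventually.filter_mono nhdsWithin_le_nhds
      exact lt_mem_nhds (by norm_num)
    filter_upwards [h3, self_mem_nhdsWithin] with r hr hr1
    exact hall r hr hr1 N
  apply summable_of_sum_range_le (c := M / η ^ 2) (fun n => by have := (hβ n).le; positivity)
  intro N
  have := hone N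
  unfold SN at this
  simpa using this

end Pool.Agent.Helper76.Zp
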