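import Pool.Agent.Helper76.Z2

set_option autoImplicit false
open Complex Filter Topology Metric
open Finset (range)

namespace Pool.Agent.Helper76.Zp
open Pool.Agent.Helper76.Hardy

lemma Rep.differentiableOn {F : PowerSeries ℂ} {f : ℂ → ℂ} (h : Rep F f) :
    DifferentiableOn ℂ f (ball (0 : ℂ) 1) := by
  intro z hz
  rw [mem_ball_zero_iff] at hz
  obtain ⟨r, hr1, hr2⟩ := exists_between hz
  have h0 : 0 ≤ r := (norm_nonneg z).trans hr1.le
  have h1 : DifferentiableOn ℂ (fun w => ∑' k : ℕ, PowerSeries.coeff k F * w ^ k) (ball (0 : ℂ) r) := by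
    apply Complex.differentiableOn_tsum_of_summable_norm (h.summable_r r h0 hr2)
    · intro n
      fun_prop
    · exact isOpen_ball
    · intro n w hw
      rw [mem_ball_zero_iff] at hw
      rw [norm_mul, norm_pow]
      exact mul_le_mul_of_nonneg_left (pow_le_pow_left₀ (norm_nonneg _) hw.le n) (norm_nonneg _)
  have h2 : DifferentiableOn ℂ f (ball (0 : ℂ) r) := by
    refine h1.congr ?_
    intro w hw
    rw [mem_ball_zero_iff] at hw
    exact ((h w (hw.trans hr2)).tsum_eq).symm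
  exact (h2.differentiableAt (isOpen_ball.mem_nhds (by rwa [mem_ball_zero_iff]))).differentiableWithinAt

/-- tails of a polynomial -/
noncomputable def tl (x : ℕ → ℂ) (N n : ℕ) (w : ℂ) : ℂ := ∑ k ∈ range (N - n), x (n + k) * w ^ k

lemma tl_step (x : ℕ → ℂ) (N n : ℕ) (hn : n < N) (w : ℂ) :
    tl x N n w = x n + w * tl x N (n + 1) w := by
  unfold tl
  obtain ⟨m, rfl⟩ : ∃ m, N = n + 1 + m := ⟨N - (n + 1), by omega⟩
  rw [show n + 1 + m - n = m + 1 by omega, show n + 1 + m - (n + 1) = m by omega,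
    Finset.sum_range_succ', Finset.mul_sum]
  rw [add_comm]
  congr 1
  · simp
  · apply Finset.sum_congr rfl
    intro k _
    rw [show n + (k + 1) = n + 1 + k by ring, pow_succ]
    ring

lemma tl_end (x : ℕ → ℂ) (N : ℕ) (w : ℂ) : tl x N N w = 0 := by simp [tl]

/-- the analytic function whose real part dominates the modulus squared -/
noncomputable def GG (x : ℕ → ℂ) (N : ℕ) (w : ℂ) : ℂ :=
  ∑ n ∈ range N, (starRingEnd ℂ) (x n) * (2 * tl x N n w - x n)

lemma normsq_add (a b : ℂ) : ‖a + b‖ ^ 2 = ‖a‖ ^ 2 + 2 * ((starRingEnd ℂ) a * b).re + ‖b‖ ^ 2 := by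
  rw [← Complex.normSq_eq_norm_sq, ← Complex.normSq_eq_norm_sq, ← Complex.normSq_eq_norm_sq,
    Complex.normSq_add, Complex.normSq_apply, Complex.normSq_apply]
  simp
  ring

lemma GG_re (x : ℕ → ℂ) (N : ℕ) (w : ℂ) (hw : ‖w‖ ≤ 1) :
    ‖∑ n ∈ range N, x n * w ^ n‖ ^ 2 ≤ (GG x N w).re := by
  have h1 : (GG x N w).re = ∑ n ∈ range N, (‖tl x N n w‖ ^ 2 - ‖w‖ ^ 2 * ‖tl x N (n + 1) w‖ ^ 2) := by
    unfold GG
    rw [Complex.re_sum]
    apply Finset.sum_congr rfl
    intro n hn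
    have h2 := tl_step x N n (Finset.mem_range.mp hn) w
    rw [h2, normsq_add, norm_mul, mul_pow]
    have h3 : (starRingEnd ℂ) (x n) * (2 * (x n + w * tl x N (n + 1) w) - x n)
        = (starRingEnd ℂ) (x n) * x n + 2 * ((starRingEnd ℂ) (x n) * (w * tl x N (n + 1) w)) := by ring
    rw [h3, Complex.add_re]
    have h4 : ((starRingEnd ℂ) (x n) * x n).re = ‖x n‖ ^ 2 := by
      rw [Complex.conj_mul', ← Complex.ofReal_pow, Complex.ofReal_re]
    have h5 : (2 * ((starRingEnd ℂ) (x n) * (w * tl x N (n + 1) w))).re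
        = 2 * ((starRingEnd ℂ) (x n) * (w * tl x N (n + 1) w)).re := by
      simp
    rw [h4, h5]
    ring
  have h2 : ∀ m : ℕ, ‖tl x N 0 w‖ ^ 2 - ‖w‖ ^ 2 * ‖tl x N m w‖ ^ 2 ≤
      ∑ n ∈ range m, (‖tl x N n w‖ ^ 2 - ‖w‖ ^ 2 * ‖tl x N (n + 1) w‖ ^ 2) ∨ m = 0 := by
    intro m
    induction m with
    | zero => right; rfl
    | succ m ih =>
      left
      rw [Finset.sum_range_succ]
      rcases ih with h | h
      · have h3 : ‖w‖ ^ 2 * ‖tl x N m w‖ ^ 2 ≤ ‖tl x N m w‖ ^ 2 := by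
          have : ‖w‖ ^ 2 ≤ 1 := pow_le_one₀ (norm_nonneg _) hw
          nlinarith [sq_nonneg ‖tl x N m w‖]
        linarith
      · subst h
        simp
  have h3 : tl x N 0 w = ∑ n ∈ range N, x n * w ^ n := by
    unfold tl
    simp
  rw [h1, ← h3]
  rcases h2 N with h | h
  · rw [tl_end] at h
    simpa using h
  · subst h
    simp [tl]

lemma cross_le (y : ℕ → ℝ) (N k : ℕ) (hy : ∀ n, N ≤ n → y n = 0) :
    ∑ n ∈ range N, y n * y (n + k) ≤ ∑ n ∈ range N, y n ^ 2 := by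
  have h1 : ∑ n ∈ range N, y (n + k) ^ 2 ≤ ∑ n ∈ range N, y n ^ 2 := by
    have h2 : ∑ n ∈ range N, y (n + k) ^ 2 ≤ ∑ n ∈ range (N + k), y n ^ 2 := by
      rw [add_comm N k, Finset.sum_range_add (fun n => y n ^ 2) k N]
      have : ∑ n ∈ range N, y (n + k) ^ 2 = ∑ n ∈ range N, y (k + n) ^ 2 := by
        apply Finset.sum_congr rfl
        intro n _
        rw [add_comm]
      rw [this]
      have h3 : 0 ≤ ∑ n ∈ range k, y n ^ 2 := Finset.sum_nonneg (fun _ _ => sq_nonneg _)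
      linarith
    have h4 : ∑ n ∈ range (N + k), y n ^ 2 = ∑ n ∈ range N, y n ^ 2 := by
      rw [Finset.sum_range_add (fun n => y n ^ 2) N k]
      rw [Finset.sum_eq_zero (s := range k), add_zero]
      intro j _
      rw [hy _ (by omega)]
      ring
    linarith
  calc ∑ n ∈ range N, y n * y (n + k) ≤ ∑ n ∈ range N, (y n ^ 2 + y (n + k) ^ 2) / 2 := by
        apply Finset.sum_le_sum
        intro n _
        nlinarith [sq_nonneg (y n - y (n + k))]
    _ = (∑ n ∈ range N, y n ^ 2 + ∑ n ∈ range N, y (n + k) ^ 2) / 2 := by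
        rw [← Finset.sum_div, Finset.sum_add_distrib]
    _ ≤ ∑ n ∈ range N, y n ^ 2 := by linarith

lemma GG_norm (x : ℕ → ℂ) (N : ℕ) (w : ℂ) (b : ℝ) (hw : ‖w‖ ≤ b) (hb : b < 1) :
    ‖GG x N w‖ ≤ (1 + b) / (1 - b) * ∑ n ∈ range N, ‖x n‖ ^ 2 := by
  have hb0 : 0 ≤ b := (norm_nonneg w).trans hw
  set y : ℕ → ℝ := fun n => if n < N then ‖x n‖ else 0 with hy
  have hy0 : ∀ n, N ≤ n → y n = 0 := by
    intro n hn
    rw [hy]; simp only; rw [if_neg (by omega)]
  have hy1 : ∀ n, n < N → y n = ‖x n‖ := by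
    intro n hn
    rw [hy]; simp only; rw [if_pos hn]
  have hynn : ∀ n, 0 ≤ y n := by
    intro n
    rw [hy]; simp only
    split_ifs
    · exact norm_nonneg _
    · exact le_rfl
  have hS : ∑ n ∈ range N, y n ^ 2 = ∑ n ∈ range N, ‖x n‖ ^ 2 := by
    apply Finset.sum_congr rfl
    intro n hn
    rw [hy1 n (Finset.mem_range.mp hn)]
  have h1 : ∀ n ∈ range N, ‖(starRingEnd ℂ) (x n) * (2 * tl x N n w - x n)‖
      ≤ y n ^ 2 + 2 * ∑ k ∈ range N, b ^ (k + 1) * (y n * y (n + (k + 1))) := by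
    intro n hn
    have hnN := Finset.mem_range.mp hn
    have h2 : 2 * tl x N n w - x n = x n + 2 * (w * tl x N (n + 1) w) := by
      rw [tl_step x N n hnN w]; ring
    have h3 : ‖tl x N (n + 1) w‖ ≤ ∑ k ∈ range N, b ^ k * y (n + (k + 1)) := by
      unfold tl
      calc ‖∑ k ∈ range (N - (n + 1)), x (n + 1 + k) * w ^ k‖
          ≤ ∑ k ∈ range (N - (n + 1)), ‖x (n + 1 + k) * w ^ k‖ := norm_sum_le _ _
        _ ≤ ∑ k ∈ range (N - (n + 1)), b ^ k * y (n + (k + 1)) := by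
            apply Finset.sum_le_sum
            intro k hk
            have hk' := Finset.mem_range.mp hk
            rw [norm_mul, norm_pow, hy1 (n + (k + 1)) (by omega),
              show n + (k + 1) = n + 1 + k by ring, mul_comm]
            gcongr
        _ ≤ ∑ k ∈ range N, b ^ k * y (n + (k + 1)) := by
            apply Finset.sum_le_sum_of_subset_of_nonneg
            · intro j hj
              rw [Finset.mem_range] at hj ⊢
              omega
            · intro j _ _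
              have := hynn (n + (j + 1))
              positivity
    have h4 : ∑ k ∈ range N, b ^ (k + 1) * (y n * y (n + (k + 1)))
        = y n * (b * ∑ k ∈ range N, b ^ k * y (n + (k + 1))) := by
      rw [Finset.mul_sum, Finset.mul_sum]
      apply Finset.sum_congr rfl
      intro k _
      rw [pow_succ]; ring
    rw [h2, norm_mul, Complex.norm_conj, h4, hy1 n hnN]
    calc ‖x n‖ * ‖x n + 2 * (w * tl x N (n + 1) w)‖
        ≤ ‖x n‖ * (‖x n‖ + 2 * (‖w‖ * ‖tl x N (n + 1) w‖)) := by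
          apply mul_le_mul_of_nonneg_left _ (norm_nonneg _)
          refine (norm_add_le _ _).trans ?_
          rw [norm_mul, norm_mul]
          simp
      _ ≤ ‖x n‖ * (‖x n‖ + 2 * (b * ∑ k ∈ range N, b ^ k * y (n + (k + 1)))) := by
          gcongr
      _ = ‖x n‖ ^ 2 + 2 * (‖x n‖ * (b * ∑ k ∈ range N, b ^ k * y (n + (k + 1)))) := by ring
  have hgeo : ∑ k ∈ range N, b ^ (k + 1) ≤ b / (1 - b) := by
    have h2 : ∑ k ∈ range N, b ^ (k + 1) = b * ∑ k ∈ range N, b ^ k := by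
      rw [Finset.mul_sum]
      apply Finset.sum_congr rfl
      intro k _
      rw [pow_succ]; ring
    rw [h2, div_eq_mul_inv]
    apply mul_le_mul_of_nonneg_left _ hb0
    rw [← tsum_geometric_of_lt_one hb0 hb]
    exact (summable_geometric_of_lt_one hb0 hb).sum_le_tsum _ (fun n _ => by positivity)
  calc ‖GG x N w‖ ≤ ∑ n ∈ range N, ‖(starRingEnd ℂ) (x n) * (2 * tl x N n w - x n)‖ := norm_sum_le _ _
    _ ≤ ∑ n ∈ range N, (y n ^ 2 + 2 * ∑ k ∈ range N, b ^ (k + 1) * (y n * y (n + (k + 1)))) :=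
        Finset.sum_le_sum h1
    _ = ∑ n ∈ range N, y n ^ 2
        + 2 * ∑ k ∈ range N, b ^ (k + 1) * ∑ n ∈ range N, y n * y (n + (k + 1)) := by
        rw [Finset.sum_add_distrib, ← Finset.mul_sum, Finset.sum_comm]
        congr 2
        apply Finset.sum_congr rfl
        intro k _
        rw [Finset.mul_sum]
    _ ≤ ∑ n ∈ range N, y n ^ 2 + 2 * ∑ k ∈ range N, b ^ (k + 1) * ∑ n ∈ range N, y n ^ 2 := by
        have h5 : ∑ k ∈ range N, b ^ (k + 1) * ∑ n ∈ range N, y n * y (n + (k + 1))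
            ≤ ∑ k ∈ range N, b ^ (k + 1) * ∑ n ∈ range N, y n ^ 2 :=
          Finset.sum_le_sum (fun k _ => mul_le_mul_of_nonneg_left (cross_le y N (k + 1) hy0)
            (by positivity))
        linarith
    _ = (1 + 2 * ∑ k ∈ range N, b ^ (k + 1)) * ∑ n ∈ range N, y n ^ 2 := by
        rw [← Finset.sum_mul]; ring
    _ ≤ (1 + 2 * (b / (1 - b))) * ∑ n ∈ range N, y n ^ 2 := by
        have : 0 ≤ ∑ n ∈ range N, y n ^ 2 := Finset.sum_nonneg (fun _ _ => sq_nonneg _)
        gcongr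
    _ = (1 + b) / (1 - b) * ∑ n ∈ range N, ‖x n‖ ^ 2 := by
        rw [hS]
        have : 1 - b ≠ 0 := by linarith
        field_simp
        ring

lemma littlewood_r {X : PowerSeries ℂ} {χ : ℂ → ℂ} (hX : Rep X χ)
    (hm : ∀ z : ℂ, ‖z‖ < 1 → ‖χ z‖ ≤ 1) (b : ℝ) (hb : ‖χ 0‖ ≤ b) (hb1 : b < 1)
    (x : ℕ → ℂ) (N K : ℕ) (r : ℝ) (h0 : 0 ≤ r) (h1 : r < 1) :
    ∑ k ∈ range K, ‖∑ n ∈ range N, x n * PowerSeries.coeff k (X ^ n)‖ ^ 2 * (r ^ 2) ^ k
      ≤ (1 + b) / (1 - b) * ∑ n ∈ range N, ‖x n‖ ^ 2 := by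
  have hR : Rep (∑ n ∈ range N, x n • X ^ n) (fun z => ∑ n ∈ range N, x n * χ z ^ n) :=
    Rep.sum (range N) (fun n => x n • X ^ n) (fun n z => x n * χ z ^ n)
      (fun n _ => (hX.pow n).smul (x n))
  have h2 := hR.sum_le r h0 h1 K
  have h3 : ∀ k, PowerSeries.coeff k (∑ n ∈ range N, x n • X ^ n)
      = ∑ n ∈ range N, x n * PowerSeries.coeff k (X ^ n) := by
    intro k
    rw [map_sum]
    apply Finset.sum_congr rfl
    intro n _
    rw [map_smul, smul_eq_mul]
  simp only [h3] at h2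
  refine h2.trans ?_
  have hsub : sphere (0 : ℂ) |r| ⊆ closedBall 0 r := by
    intro z hz
    have : ‖z‖ = |r| := by simpa using hz
    rw [mem_closedBall_zero_iff, this, abs_of_nonneg h0]
  have hsub2 : closedBall (0 : ℂ) r ⊆ ball 0 1 := closedBall_subset_ball h1
  have hχc : ContinuousOn χ (closedBall 0 r) := hX.continuousOn r h0 h1
  have hGc : Continuous (GG x N) := by
    unfold GG tl
    fun_prop
  have hGd : Differentiable ℂ (GG x N) := by
    unfold GG tl
    fun_prop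
  have hQd : DifferentiableOn ℂ (fun z => GG x N (χ z)) (closedBall 0 r) := by
    exact hGd.comp_differentiableOn (hX.differentiableOn.mono hsub2)
  have h4 : Real.circleAverage (fun z => (GG x N (χ z)).re) 0 r = (GG x N (χ 0)).re := by
    apply avg_re
    · exact hQd.continuousOn.mono hsub
    · apply DifferentiableOn.diffContOnCl
      apply hQd.mono
      rw [abs_of_nonneg h0]
      exact closure_ball_subset_closedBall
  calc Real.circleAverage (fun z => ‖∑ n ∈ range N, x n * χ z ^ n‖ ^ 2) 0 r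
      ≤ Real.circleAverage (fun z => (GG x N (χ z)).re) 0 r := by
        apply Real.circleAverage_mono
        · apply ContinuousOn.circleIntegrable'
          have : ContinuousOn (fun z => ∑ n ∈ range N, x n * χ z ^ n) (closedBall 0 r) := by
            fun_prop
          exact (this.mono hsub).norm.pow 2
        · apply ContinuousOn.circleIntegrable'
          exact (Complex.continuous_re.comp_continuousOn hQd.continuousOn).mono hsub
        · intro z hz
          apply GG_re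
          apply hm
          have : ‖z‖ = |r| := by simpa using hz
          rw [this, abs_of_nonneg h0]
          exact h1
    _ = (GG x N (χ 0)).re := h4
    _ ≤ ‖GG x N (χ 0)‖ := Complex.re_le_norm _
    _ ≤ (1 + b) / (1 - b) * ∑ n ∈ range N, ‖x n‖ ^ 2 := GG_norm x N (χ 0) b hb hb1

/-- Littlewood's subordination principle for polynomials -/
lemma littlewood {X : PowerSeries ℂ} {χ : ℂ → ℂ} (hX : Rep X χ)
    (hm : ∀ z : ℂ, ‖z‖ < 1 → ‖χ z‖ ≤ 1) (b : ℝ) (hb : ‖χ 0‖ ≤ b) (hb1 : b < 1)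
    (x : ℕ → ℂ) (N K : ℕ) :
    ∑ k ∈ range K, ‖∑ n ∈ range N, x n * PowerSeries.coeff k (X ^ n)‖ ^ 2
      ≤ (1 + b) / (1 - b) * ∑ n ∈ range N, ‖x n‖ ^ 2 := by
  have h2 : Tendsto (fun r : ℝ => ∑ k ∈ range K,
      ‖∑ n ∈ range N, x n * PowerSeries.coeff k (X ^ n)‖ ^ 2 * (r ^ 2) ^ k) (𝓝[<] 1)
      (𝓝 (∑ k ∈ range K,
      ‖∑ n ∈ range N, x n * PowerSeries.coeff k (X ^ n)‖ ^ 2 * ((1 : ℝ) ^ 2) ^ k)) := by
    have : Continuous (fun r : ℝ => ∑ k ∈ range K,
      ‖∑ n ∈ range N, x n * PowerSeries.coeff k (X ^ n)‖ ^ 2 * (r ^ 2) ^ k) := by fun_prop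
    exact (this.tendsto 1).mono_left nhdsWithin_le_nhds
  have h3 : ∑ k ∈ range K, ‖∑ n ∈ range N, x n * PowerSeries.coeff k (X ^ n)‖ ^ 2 * ((1 : ℝ) ^ 2) ^ k
      ≤ (1 + b) / (1 - b) * ∑ n ∈ range N, ‖x n‖ ^ 2 := by
    apply le_of_tendsto h2
    have h4 : ∀ᶠ r : ℝ in 𝓝[<] (1 : ℝ), 0 ≤ r ∧ r < 1 := by
      have : Set.Ico (0 : ℝ) 1 ∈ 𝓝[<] (1 : ℝ) := Ico_mem_nhdsLT (by norm_num)
      exact this
    filter_upwards [h4] with r hr
    exact littlewood_r hX hm b hb hb1 x N K r hr.1 hr.2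
  simpa using h3

end Pool.Agent.Helper76.Zp
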