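import Pool.Agent.Helper76.Z3

set_option autoImplicit false
open Complex Filter Topology Metric
open Finset (range)

namespace Pool.Agent.Helper76.Zp
open Pool.Agent.Helper76.Hardy

/-- slowly oscillating weights -/
def SO (β : ℕ → ℝ) : Prop := ∃ c C : ℝ, 0 < c ∧ c < 1 ∧ 1 < C ∧
  ∀ n m : ℕ, n ≤ 2 * m → m ≤ 2 * n → c * β n ≤ β m ∧ β m ≤ C * β n

/-- essentially decreasing weights -/
def ED (β : ℕ → ℝ) : Prop := ∃ C : ℝ, 1 ≤ C ∧ ∀ n m : ℕ, n ≤ m → β m ≤ C * β n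

section
variable {β : ℕ → ℝ}

lemma SO.two (h : SO β) (hβ : ∀ n, 0 < β n) : ∃ C : ℝ, 1 ≤ C ∧ ∀ n m : ℕ, n ≤ 2 * m → m ≤ 2 * n →
    β m ≤ C * β n := by
  obtain ⟨c, C, hc, hc1, hC, h1⟩ := h
  exact ⟨C, hC.le, fun n m hnm hmn => (h1 n m hnm hmn).2⟩

lemma SO.iter (h : SO β) (hβ : ∀ n, 0 < β n) : ∃ C : ℝ, 1 ≤ C ∧ ∀ J n m : ℕ, n ≤ m → m ≤ 2 ^ J * n →
    β m ≤ C ^ J * β n ∧ β n ≤ C ^ J * β m := by
  obtain ⟨C, hC, h1⟩ := h.two hβ
  refine ⟨C, hC, ?_⟩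
  intro J
  induction J with
  | zero =>
    intro n m hnm hmn
    have : m = n := by simp at hmn; omega
    subst this
    simp
  | succ J ih =>
    intro n m hnm hmn
    rcases Nat.eq_zero_or_pos J with hJ | hJ
    · subst hJ
      simp only [zero_add, pow_one] at hmn ⊢
      exact ⟨h1 n m (by omega) hmn, h1 m n hmn (by omega)⟩
    · have hbn := (hβ n).le
      have hbm := (hβ m).le
      have hCJ : C ^ J ≤ C ^ (J + 1) := pow_le_pow_right₀ hC (Nat.le_succ J)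
      by_cases hm : m ≤ 2 ^ J * n
      · obtain ⟨h2, h3⟩ := ih n m hnm hm
        exact ⟨h2.trans (mul_le_mul_of_nonneg_right hCJ hbn),
          h3.trans (mul_le_mul_of_nonneg_right hCJ hbm)⟩
      · push Not at hm
        set n' := (m + 1) / 2 with hn'
        have h2J : 2 ≤ 2 ^ J := by
          calc 2 = 2 ^ 1 := (pow_one 2).symm
            _ ≤ 2 ^ J := Nat.pow_le_pow_right (by norm_num) hJ
        have h2n : 2 * n ≤ 2 ^ J * n := Nat.mul_le_mul_right n h2J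
        have h3 : n ≤ n' := by omega
        have h4 : n' ≤ 2 ^ J * n := by
          rw [pow_succ] at hmn
          have : m ≤ 2 * (2 ^ J * n) := by linarith
          omega
        obtain ⟨h5, h6⟩ := ih n n' h3 h4
        have h7 := h1 n' m (by omega) (by omega)
        have h8 := h1 m n' (by omega) (by omega)
        have hCp : 0 ≤ C ^ J := by positivity
        constructor
        · calc β m ≤ C * β n' := h7
            _ ≤ C * (C ^ J * β n) := by gcongr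
            _ = C ^ (J + 1) * β n := by rw [pow_succ]; ring
        · calc β n ≤ C ^ J * β n' := h6
            _ ≤ C ^ J * (C * β m) := by gcongr
            _ = C ^ (J + 1) * β m := by rw [pow_succ]; ring

/-- polynomial comparison -/
lemma SO.poly (h : SO β) (hβ : ∀ n, 0 < β n) : ∃ (a : ℕ) (D : ℝ), 1 ≤ D ∧ ∀ n m : ℕ, 1 ≤ n → n ≤ m →
    β m ≤ D * ((m : ℝ) / n) ^ a * β n ∧ β n ≤ D * ((m : ℝ) / n) ^ a * β m := by
  obtain ⟨C, hC, h1⟩ := h.iter hβ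
  obtain ⟨a, ha⟩ := pow_unbounded_of_one_lt C (by norm_num : (1 : ℝ) < 2)
  refine ⟨a, C, hC, ?_⟩
  intro n m hn hnm
  have hq : 1 ≤ m / n := (Nat.one_le_div_iff hn).mpr hnm
  set J := Nat.log 2 (m / n) with hJ
  have h2 : m / n < 2 ^ (J + 1) := Nat.lt_pow_succ_log_self (by norm_num) _
  have h3 : m ≤ 2 ^ (J + 1) * n := ((Nat.div_lt_iff_lt_mul hn).mp h2).le
  obtain ⟨h4, h5⟩ := h1 (J + 1) n m hnm h3
  have h6 : (2 : ℝ) ^ J ≤ (m : ℝ) / n := by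
    have h7 : 2 ^ J ≤ m / n := Nat.pow_log_le_self 2 (by omega)
    have h8 : ((m / n : ℕ) : ℝ) ≤ (m : ℝ) / n := Nat.cast_div_le
    calc (2 : ℝ) ^ J = ((2 ^ J : ℕ) : ℝ) := by push_cast; ring
      _ ≤ ((m / n : ℕ) : ℝ) := by exact_mod_cast h7
      _ ≤ (m : ℝ) / n := h8
  have h9 : C ^ (J + 1) ≤ C * ((m : ℝ) / n) ^ a := by
    rw [pow_succ, mul_comm]
    apply mul_le_mul_of_nonneg_left _ (by linarith)
    calc C ^ J ≤ (2 ^ a) ^ J := pow_le_pow_left₀ (by linarith) ha.le J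
      _ = (2 ^ J) ^ a := by rw [← pow_mul, ← pow_mul, mul_comm]
      _ ≤ ((m : ℝ) / n) ^ a := pow_le_pow_left₀ (by positivity) h6 a
  exact ⟨h4.trans (mul_le_mul_of_nonneg_right h9 (hβ n).le),
    h5.trans (mul_le_mul_of_nonneg_right h9 (hβ m).le)⟩

lemma poly_le_exp (a : ℕ) (R : ℝ) (hR : 1 < R) : ∃ B : ℝ, 0 < B ∧ ∀ n : ℕ, (n : ℝ) ^ a ≤ B * R ^ n := by
  have h1 := tendsto_pow_const_div_const_pow_of_one_lt a hR
  obtain ⟨B, hB⟩ := h1.bddAbove_range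
  refine ⟨max B 1, by positivity, ?_⟩
  intro n
  have h2 : (n : ℝ) ^ a / R ^ n ≤ B := hB ⟨n, rfl⟩
  rw [div_le_iff₀ (by positivity)] at h2
  exact h2.trans (mul_le_mul_of_nonneg_right (le_max_left _ _) (by positivity))

lemma SO.low (h : SO β) (hβ : ∀ n, 0 < β n) (r : ℝ) (hr0 : 0 < r) (hr1 : r < 1) :
    ∃ c : ℝ, 0 < c ∧ ∀ n, c * r ^ n ≤ β n := by
  obtain ⟨a, D, hD, h1⟩ := h.poly hβ
  obtain ⟨B, hB, hB1⟩ := poly_le_exp a (r⁻¹) (by rw [one_lt_inv₀ hr0]; exact hr1)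
  have hb0 := hβ 0
  have hb1 := hβ 1
  refine ⟨min (β 0) (β 1 / (D * B)), by positivity, ?_⟩
  intro n
  rcases Nat.eq_zero_or_pos n with hn | hn
  · subst hn
    simp
  · have h2 := (h1 1 n le_rfl hn).2
    have h3 := hB1 n
    have hbn := hβ n
    calc min (β 0) (β 1 / (D * B)) * r ^ n ≤ (β 1 / (D * B)) * r ^ n := by
          apply mul_le_mul_of_nonneg_right (min_le_right _ _) (by positivity)
      _ ≤ β n := by
          rw [div_mul_eq_mul_div, div_le_iff₀ (by positivity)]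
          have h4 : β 1 ≤ D * (B * r⁻¹ ^ n) * β n := by
            refine h2.trans ?_
            simp only [Nat.cast_one, div_one]
            gcongr
          calc β 1 * r ^ n ≤ (D * (B * r⁻¹ ^ n) * β n) * r ^ n := by gcongr
            _ = β n * (D * B) * (r⁻¹ ^ n * r ^ n) := by ring
            _ = β n * (D * B) := by rw [← mul_pow, inv_mul_cancel₀ hr0.ne']; simp

lemma SO.up (h : SO β) (hβ : ∀ n, 0 < β n) (R : ℝ) (hR : 1 < R) :
    ∃ C : ℝ, 0 < C ∧ ∀ n, β n ≤ C * R ^ n := by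
  obtain ⟨a, D, hD, h1⟩ := h.poly hβ
  obtain ⟨B, hB, hB1⟩ := poly_le_exp a R hR
  have hb0 := hβ 0
  have hb1 := hβ 1
  refine ⟨max (β 0) (D * B * β 1), by positivity, ?_⟩
  intro n
  rcases Nat.eq_zero_or_pos n with hn | hn
  · subst hn
    simp
  · have h2 := (h1 1 n le_rfl hn).1
    have h3 := hB1 n
    calc β n ≤ D * ((n : ℝ)) ^ a * β 1 := by simpa using h2
      _ ≤ D * (B * R ^ n) * β 1 := by gcongr
      _ = (D * B * β 1) * R ^ n := by ring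
      _ ≤ max (β 0) (D * B * β 1) * R ^ n := by
        apply mul_le_mul_of_nonneg_right (le_max_right _ _) (by positivity)

/-- summation by parts -/
lemma abel (γ q r : ℕ → ℝ) (hγ : Antitone γ) (hγ0 : ∀ n, 0 ≤ γ n)
    (h : ∀ N, ∑ k ∈ range N, q k ≤ ∑ k ∈ range N, r k) (T : ℕ) :
    ∑ k ∈ range T, γ k * q k ≤ ∑ k ∈ range T, γ k * r k := by
  have h1 : ∀ T : ℕ, γ T * (∑ k ∈ range T, r k - ∑ k ∈ range T, q k)
      ≤ ∑ k ∈ range T, γ k * r k - ∑ k ∈ range T, γ k * q k := by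
    intro T
    induction T with
    | zero => simp
    | succ T ih =>
      rw [Finset.sum_range_succ (fun k => γ k * r k), Finset.sum_range_succ (fun k => γ k * q k)]
      have h2 := h (T + 1)
      have h3 : γ (T + 1) * (∑ k ∈ range (T + 1), r k - ∑ k ∈ range (T + 1), q k)
          ≤ γ T * (∑ k ∈ range (T + 1), r k - ∑ k ∈ range (T + 1), q k) :=
        mul_le_mul_of_nonneg_right (hγ (Nat.le_succ T)) (by linarith)
      rw [Finset.sum_range_succ r, Finset.sum_range_succ q] at h3 ⊢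
      nlinarith
  have h2 := h1 T
  have h3 : 0 ≤ γ T * (∑ k ∈ range T, r k - ∑ k ∈ range T, q k) :=
    mul_nonneg (hγ0 T) (by linarith [h T])
  linarith

/-- off-diagonal decay of the matrix -/
lemma offdiag {Φ : PowerSeries ℂ} {φ : ℂ → ℂ} (hR : Rep Φ φ) (hm : ∀ z : ℂ, ‖z‖ < 1 → ‖φ z‖ < 1) :
    ∃ (K : ℕ) (ρ : ℝ), 1 ≤ K ∧ 0 < ρ ∧ ρ < 1 ∧ ∀ n k : ℕ, K * k ≤ n →
      ‖PowerSeries.coeff k (Φ ^ n)‖ ≤ ρ ^ n := by
  obtain ⟨s, hs0, hs1, hs⟩ := sup_lt hR hm (1 / 2) (by norm_num) (by norm_num)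
  set s' := max s (1 / 4) with hs'
  have hs'0 : 0 < s' := lt_of_lt_of_le (by norm_num) (le_max_right s (1 / 4))
  have hs'1 : s' < 1 := max_lt hs1 (by norm_num)
  set ρ := Real.sqrt s' with hρ
  have hρ0 : 0 < ρ := Real.sqrt_pos.mpr hs'0
  have hρ2 : ρ ^ 2 = s' := Real.sq_sqrt hs'0.le
  have hρ1 : ρ < 1 := by
    rw [hρ, Real.sqrt_lt' (by norm_num)]
    simpa using hs'1
  obtain ⟨K, hK⟩ := pow_unbounded_of_one_lt 2 ((one_lt_inv₀ hρ0).mpr hρ1)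
  refine ⟨K + 1, ρ, by omega, hρ0, hρ1, ?_⟩
  intro n k hkn
  have h1 := coeff_pow_le hR (1 / 2) s' (by norm_num) (by norm_num) hs'0.le
    (fun z hz => (hs z hz).trans (le_max_left _ _)) n k
  have h2 : ‖PowerSeries.coeff k (Φ ^ n)‖ ≤ 2 ^ k * s' ^ n := by
    have h3 : (2 : ℝ) ^ k * (1 / 2) ^ k = 1 := by rw [← mul_pow]; norm_num
    calc ‖PowerSeries.coeff k (Φ ^ n)‖ = 2 ^ k * (‖PowerSeries.coeff k (Φ ^ n)‖ * (1 / 2) ^ k) := by
          linear_combination -‖PowerSeries.coeff k (Φ ^ n)‖ * h3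
      _ ≤ 2 ^ k * s' ^ n := by gcongr
  refine h2.trans ?_
  have h3 : (2 : ℝ) ^ k ≤ (ρ⁻¹) ^ n := by
    calc (2 : ℝ) ^ k ≤ ((ρ⁻¹) ^ K) ^ k := pow_le_pow_left₀ (by norm_num) hK.le k
      _ = (ρ⁻¹) ^ (K * k) := by rw [pow_mul]
      _ ≤ (ρ⁻¹) ^ n := by
        apply pow_le_pow_right₀
        · rw [one_le_inv₀ hρ0]; exact hρ1.le
        · nlinarith
  calc (2 : ℝ) ^ k * s' ^ n ≤ (ρ⁻¹) ^ n * s' ^ n := by gcongr
    _ = (ρ⁻¹) ^ n * (ρ ^ n * ρ ^ n) := by rw [← hρ2, ← pow_mul, mul_comm 2 n, pow_mul]; ring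
    _ = ρ ^ n := by
      rw [← mul_assoc, ← mul_pow, inv_mul_cancel₀ hρ0.ne']
      simp

end

end Pool.Agent.Helper76.Zp
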