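import Pool.Agent.Helper76.Z4

set_option autoImplicit false
open Complex Filter Topology Metric
open Finset (range)

namespace Pool.Agent.Helper76.Zp
open Pool.Agent.Helper76.Hardy

section
variable {β : ℕ → ℝ}

/-- decreasing majorant -/
lemma ED.major (h : ED β) (hβ : ∀ n, 0 < β n) : ∃ (γ : ℕ → ℝ) (C : ℝ), 1 ≤ C ∧ Antitone γ ∧
    (∀ n, β n ≤ γ n) ∧ ∀ n, γ n ≤ C * β n := by
  obtain ⟨C, hC, h1⟩ := h
  have hbd : ∀ n, BddAbove (Set.range fun k => β (n + k)) := by
    intro n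
    refine ⟨C * β n, ?_⟩
    rintro _ ⟨k, rfl⟩
    exact h1 n (n + k) (Nat.le_add_right _ _)
  refine ⟨fun n => ⨆ k, β (n + k), C, hC, ?_, ?_, ?_⟩
  · intro n m hnm
    apply ciSup_le
    intro k
    have := le_ciSup (hbd n) (m - n + k)
    rwa [show n + (m - n + k) = m + k by omega] at this
  · intro n
    have := le_ciSup (hbd n) 0
    simpa using this
  · intro n
    apply ciSup_le
    intro k
    exact h1 n (n + k) (Nat.le_add_right _ _)

lemma cs_ineq {ι : Type} (s : Finset ι) (f g w : ι → ℝ) (hw : ∀ i ∈ s, 0 < w i) :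
    (∑ i ∈ s, f i * g i) ^ 2 ≤ (∑ i ∈ s, f i ^ 2 * w i) * ∑ i ∈ s, g i ^ 2 / w i := by
  have h1 := Finset.sum_mul_sq_le_sq_mul_sq s (fun i => f i * Real.sqrt (w i))
    (fun i => g i / Real.sqrt (w i))
  have h2 : ∑ i ∈ s, f i * Real.sqrt (w i) * (g i / Real.sqrt (w i)) = ∑ i ∈ s, f i * g i := by
    apply Finset.sum_congr rfl
    intro i hi
    have : Real.sqrt (w i) ≠ 0 := (Real.sqrt_pos.mpr (hw i hi)).ne'
    field_simp
  have h3 : ∑ i ∈ s, (f i * Real.sqrt (w i)) ^ 2 = ∑ i ∈ s, f i ^ 2 * w i := by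
    apply Finset.sum_congr rfl
    intro i hi
    rw [mul_pow, Real.sq_sqrt (hw i hi).le]
  have h4 : ∑ i ∈ s, (g i / Real.sqrt (w i)) ^ 2 = ∑ i ∈ s, g i ^ 2 / w i := by
    apply Finset.sum_congr rfl
    intro i hi
    rw [div_pow, Real.sq_sqrt (hw i hi).le]
  rw [h2, h3, h4] at h1
  exact h1

/-- the weighted tail constant -/
lemma tail_const (hβ : ∀ n, 0 < β n)
    (hlow : ∀ r : ℝ, 0 < r → r < 1 → ∃ c : ℝ, 0 < c ∧ ∀ n, c * r ^ n ≤ β n)
    (ρ : ℝ) (hρ0 : 0 < ρ) (hρ1 : ρ < 1) : ∃ V : ℝ, 0 ≤ V ∧ ∀ (x : ℕ → ℂ) (L : ℕ),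
      (∑ n ∈ range L, ‖x n‖ * ((n : ℝ) * ρ ^ n)) ^ 2 ≤ V * ∑ n ∈ range L, ‖x n‖ ^ 2 * β n := by
  obtain ⟨c, hc, hlow'⟩ := hlow ρ hρ0 hρ1
  have hsum : Summable (fun n : ℕ => ((n : ℝ) ^ 2 * ρ ^ n)) := by
    apply summable_pow_mul_geometric_of_norm_lt_one 2
    rw [Real.norm_of_nonneg hρ0.le]
    exact hρ1
  refine ⟨(∑' n : ℕ, ((n : ℝ) ^ 2 * ρ ^ n)) / c, by positivity, ?_⟩
  intro x L
  have h1 := cs_ineq (range L) (fun n => ‖x n‖) (fun n => (n : ℝ) * ρ ^ n) β (fun i _ => hβ i)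
  refine h1.trans ?_
  rw [mul_comm]
  apply mul_le_mul_of_nonneg_right _ (Finset.sum_nonneg (fun i _ => by have := (hβ i).le; positivity))
  rw [le_div_iff₀ hc, Finset.sum_mul]
  refine le_trans ?_ (hsum.sum_le_tsum (range L) (fun n _ => by positivity))
  apply Finset.sum_le_sum
  intro n _
  rw [div_mul_eq_mul_div, div_le_iff₀ (hβ n)]
  have h2 := hlow' n
  calc ((n : ℝ) * ρ ^ n) ^ 2 * c = (n : ℝ) ^ 2 * ρ ^ n * (c * ρ ^ n) := by ring
    _ ≤ (n : ℝ) ^ 2 * ρ ^ n * β n := by gcongr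

lemma SO.div (h : SO β) (hβ : ∀ n, 0 < β n) (K : ℕ) (hK : 1 ≤ K) : ∃ C : ℝ, 0 ≤ C ∧
    ∀ n, β (n / K) ≤ C * β n := by
  obtain ⟨a, D, hD, h1⟩ := h.poly hβ
  have hS : 0 ≤ ∑ j ∈ range K, β 0 / β j := Finset.sum_nonneg (fun i _ => by
    have := (hβ i).le; have := (hβ 0).le; positivity)
  refine ⟨D * (2 * K) ^ a + ∑ j ∈ range K, β 0 / β j, by positivity, ?_⟩
  intro n
  have hbn := hβ n
  by_cases hn : n < K
  · rw [Nat.div_eq_of_lt hn]
    have h2 : β 0 / β n ≤ ∑ j ∈ range K, β 0 / β j := by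
      apply Finset.single_le_sum (f := fun j => β 0 / β j) (fun i _ => by
        have := (hβ i).le; have := (hβ 0).le; positivity) (Finset.mem_range.mpr hn)
    rw [div_le_iff₀ hbn] at h2
    refine h2.trans ?_
    apply mul_le_mul_of_nonneg_right _ hbn.le
    have : 0 ≤ D * (2 * (K : ℝ)) ^ a := by positivity
    linarith
  · push Not at hn
    have hq : 1 ≤ n / K := (Nat.one_le_div_iff (by omega)).mpr hn
    have h2 := (h1 (n / K) n hq (Nat.div_le_self n K)).2
    have h3 : (n : ℝ) / ((n / K : ℕ) : ℝ) ≤ 2 * K := by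
      rw [div_le_iff₀ (by exact_mod_cast hq)]
      have h4 : n ≤ 2 * K * (n / K) := by
        have h5 := Nat.div_add_mod n K
        have h6 := Nat.mod_lt n (show K > 0 by omega)
        nlinarith
      exact_mod_cast h4
    calc β (n / K) ≤ D * ((n : ℝ) / ((n / K : ℕ) : ℝ)) ^ a * β n := h2
      _ ≤ D * (2 * K) ^ a * β n := by gcongr
      _ ≤ (D * (2 * K) ^ a + ∑ j ∈ range K, β 0 / β j) * β n := by
        apply mul_le_mul_of_nonneg_right _ hbn.le
        linarith

/-- grouping in blocks of length `K` -/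
lemma sum_blocks (f : ℕ → ℝ) (K N : ℕ) :
    ∑ n ∈ range (K * N), f n = ∑ k ∈ range N, ∑ j ∈ range K, f (K * k + j) := by
  induction N with
  | zero => simp
  | succ N ih =>
    rw [Nat.mul_succ, Finset.sum_range_add, ih, Finset.sum_range_succ]

theorem suff_ED (hso : SO β) (hβ : ∀ n, 0 < β n) (hed : ED β) {Φ : PowerSeries ℂ} {φ : ℂ → ℂ}
    (hR : Rep Φ φ) (hm : ∀ z : ℂ, ‖z‖ < 1 → ‖φ z‖ < 1) : ∃ M, Bd β Φ M := by
  obtain ⟨γ, C, hC, hγ, hγ1, hγ2⟩ := hed.major hβ
  obtain ⟨K, ρ, hK, hρ0, hρ1, hoff⟩ := offdiag hR hm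
  obtain ⟨V, hV, hVx⟩ := tail_const hβ (hso.low hβ) ρ hρ0 hρ1
  obtain ⟨C', hC', hdiv⟩ := hso.div hβ K hK
  set b := ‖φ 0‖ with hb
  have hb0 : 0 ≤ b := norm_nonneg _
  have hb1 : b < 1 := hm 0 (by simp)
  set A := (1 + b) / (1 - b) with hA
  have hA0 : 0 ≤ A := div_nonneg (by linarith) (by linarith)
  have hγ0 : ∀ n, 0 ≤ γ n := fun n => (hβ n).le.trans (hγ1 n)
  refine ⟨2 * A * (C * C') + γ 0 * (2 * V), ?_⟩
  intro x L T
  set S := ∑ n ∈ range L, ‖x n‖ ^ 2 * β n with hS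
  have hS0 : 0 ≤ S := Finset.sum_nonneg (fun i _ => by have := (hβ i).le; positivity)
  -- cut off coefficients
  set y : ℕ → ℂ := fun n => if n < L then x n else 0 with hy
  have hy0 : ∀ n, L ≤ n → y n = 0 := by
    intro n hn; rw [hy]; simp only; rw [if_neg (by omega)]
  have hy1 : ∀ n, n < L → y n = x n := by
    intro n hn; rw [hy]; simp only; rw [if_pos hn]
  set q : ℕ → ℝ := fun k => ‖∑ n ∈ range L, x n * PowerSeries.coeff k (Φ ^ n)‖ ^ 2 with hq
  set r : ℕ → ℝ := fun k => 2 * A * ∑ j ∈ range K, ‖y (K * k + j)‖ ^ 2 + (if k = 0 then 2 * (V * S) else 0)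
    with hr
  have hpart : ∀ N, ∑ k ∈ range N, q k ≤ ∑ k ∈ range N, r k := by
    intro N
    rcases Nat.eq_zero_or_pos N with hN | hN
    · subst hN; simp
    -- right-hand side
    have hrs : ∑ k ∈ range N, r k = 2 * A * ∑ n ∈ range (K * N), ‖y n‖ ^ 2 + 2 * (V * S) := by
      rw [hr]
      simp only
      rw [Finset.sum_add_distrib, ← Finset.mul_sum, ← sum_blocks (fun n => ‖y n‖ ^ 2) K N]
      congr 1
      rw [Finset.sum_ite_eq' (range N) 0 (fun _ => 2 * (V * S)), if_pos (Finset.mem_range.mpr hN)]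
    rw [hrs]
    set E : ℝ := ∑ n ∈ range L, if K * N ≤ n then ‖x n‖ * ρ ^ n else 0 with hE
    have hE0 : 0 ≤ E := Finset.sum_nonneg (fun i _ => by split_ifs <;> positivity)
    have hq1 : ∀ k ∈ range N, q k ≤ 2 * ‖∑ n ∈ range (K * N), y n * PowerSeries.coeff k (Φ ^ n)‖ ^ 2
        + 2 * E ^ 2 := by
      intro k hk
      have hkN := Finset.mem_range.mp hk
      have h1 : ∑ n ∈ range L, x n * PowerSeries.coeff k (Φ ^ n)
          = ∑ n ∈ range (K * N), y n * PowerSeries.coeff k (Φ ^ n)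
            + ∑ n ∈ range L, (if K * N ≤ n then x n * PowerSeries.coeff k (Φ ^ n) else 0) := by
        have h2 : ∑ n ∈ range (K * N), y n * PowerSeries.coeff k (Φ ^ n)
            = ∑ n ∈ range L, (if n < K * N then x n * PowerSeries.coeff k (Φ ^ n) else 0) := by
          rw [← Finset.sum_filter]
          have h3 : ∑ n ∈ range (K * N), y n * PowerSeries.coeff k (Φ ^ n)
              = ∑ n ∈ (range (K * N)).filter (fun n => n < L), x n * PowerSeries.coeff k (Φ ^ n) := by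
            rw [Finset.sum_filter]
            apply Finset.sum_congr rfl
            intro n _
            split_ifs with h
            · rw [hy1 n h]
            · rw [hy0 n (by omega), zero_mul]
          rw [h3]
          apply Finset.sum_congr _ (fun _ _ => rfl)
          ext n
          simp only [Finset.mem_filter, Finset.mem_range]
          tauto
        rw [h2, ← Finset.sum_add_distrib]
        apply Finset.sum_congr rfl
        intro n _
        by_cases h : K * N ≤ n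
        · rw [if_neg (by omega), if_pos h, zero_add]
        · rw [if_pos (by omega), if_neg h, add_zero]
      have h2 : ‖∑ n ∈ range L, (if K * N ≤ n then x n * PowerSeries.coeff k (Φ ^ n) else 0)‖ ≤ E := by
        refine (norm_sum_le _ _).trans ?_
        apply Finset.sum_le_sum
        intro n _
        split_ifs with h
        · rw [norm_mul]
          apply mul_le_mul_of_nonneg_left _ (norm_nonneg _)
          apply hoff
          exact le_trans (Nat.mul_le_mul_left K hkN.le) h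
        · simp
      rw [hq]
      simp only
      rw [h1]
      have h3 := norm_add_le (∑ n ∈ range (K * N), y n * PowerSeries.coeff k (Φ ^ n))
        (∑ n ∈ range L, (if K * N ≤ n then x n * PowerSeries.coeff k (Φ ^ n) else 0))
      set u := ‖∑ n ∈ range (K * N), y n * PowerSeries.coeff k (Φ ^ n)‖
      set v := ‖∑ n ∈ range L, (if K * N ≤ n then x n * PowerSeries.coeff k (Φ ^ n) else 0)‖
      have hu : 0 ≤ u := norm_nonneg _
      have hv : 0 ≤ v := norm_nonneg _
      calc ‖_ + _‖ ^ 2 ≤ (u + v) ^ 2 := pow_le_pow_left₀ (norm_nonneg _) h3 2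
        _ ≤ 2 * u ^ 2 + 2 * v ^ 2 := by nlinarith [sq_nonneg (u - v)]
        _ ≤ 2 * u ^ 2 + 2 * E ^ 2 := by nlinarith
    have hlit := littlewood hR (fun z hz => (hm z hz).le) b le_rfl hb1 y (K * N) N
    have hE2 : (N : ℝ) * E ^ 2 ≤ V * S := by
      have h1 : (N : ℝ) * E ≤ ∑ n ∈ range L, ‖x n‖ * ((n : ℝ) * ρ ^ n) := by
        rw [hE, Finset.mul_sum]
        apply Finset.sum_le_sum
        intro n _
        split_ifs with h
        · have h2 : (N : ℝ) ≤ n := by
            have : N ≤ n := le_trans (Nat.le_mul_of_pos_left N (by omega)) h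
            exact_mod_cast this
          calc (N : ℝ) * (‖x n‖ * ρ ^ n) ≤ n * (‖x n‖ * ρ ^ n) := by gcongr
            _ = ‖x n‖ * ((n : ℝ) * ρ ^ n) := by ring
        · rw [mul_zero]
          positivity
      have h2 := hVx x L
      have hN1 : (1 : ℝ) ≤ N := by exact_mod_cast hN
      calc (N : ℝ) * E ^ 2 ≤ (N : ℝ) * ((N : ℝ) * E ^ 2) := by
            apply le_mul_of_one_le_left (by positivity) hN1
        _ = ((N : ℝ) * E) ^ 2 := by ring
        _ ≤ (∑ n ∈ range L, ‖x n‖ * ((n : ℝ) * ρ ^ n)) ^ 2 :=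
            pow_le_pow_left₀ (by positivity) h1 2
        _ ≤ V * S := h2
    calc ∑ k ∈ range N, q k
        ≤ ∑ k ∈ range N, (2 * ‖∑ n ∈ range (K * N), y n * PowerSeries.coeff k (Φ ^ n)‖ ^ 2
        + 2 * E ^ 2) := Finset.sum_le_sum hq1
      _ = 2 * ∑ k ∈ range N, ‖∑ n ∈ range (K * N), y n * PowerSeries.coeff k (Φ ^ n)‖ ^ 2
        + 2 * (N * E ^ 2) := by
          rw [Finset.sum_add_distrib, ← Finset.mul_sum, Finset.sum_const, Finset.card_range,
            nsmul_eq_mul]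
          ring
      _ ≤ 2 * (A * ∑ n ∈ range (K * N), ‖y n‖ ^ 2) + 2 * (V * S) := by
          gcongr
      _ = 2 * A * ∑ n ∈ range (K * N), ‖y n‖ ^ 2 + 2 * (V * S) := by ring
  have habel := abel γ q r hγ hγ0 hpart T
  have h1 : ∑ k ∈ range T, ‖∑ n ∈ range L, x n * PowerSeries.coeff k (Φ ^ n)‖ ^ 2 * β k
      ≤ ∑ k ∈ range T, γ k * q k := by
    apply Finset.sum_le_sum
    intro k _
    rw [hq]
    simp only
    rw [mul_comm]
    exact mul_le_mul_of_nonneg_right (hγ1 k) (by positivity)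
  refine h1.trans (habel.trans ?_)
  have h2 : ∑ k ∈ range T, γ k * r k = 2 * A * ∑ n ∈ range (K * T), γ (n / K) * ‖y n‖ ^ 2
      + ∑ k ∈ range T, γ k * (if k = 0 then 2 * (V * S) else 0) := by
    rw [sum_blocks, Finset.mul_sum, ← Finset.sum_add_distrib]
    apply Finset.sum_congr rfl
    intro k _
    rw [hr]
    simp only
    rw [mul_add]
    congr 1
    rw [Finset.mul_sum, Finset.mul_sum, Finset.mul_sum]
    apply Finset.sum_congr rfl
    intro j hj
    have hjK := Finset.mem_range.mp hj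
    have : (K * k + j) / K = k := by
      rw [Nat.mul_add_div (by omega), Nat.div_eq_of_lt hjK, add_zero]
    rw [this]
    ring
  rw [h2]
  have h3 : ∑ n ∈ range (K * T), γ (n / K) * ‖y n‖ ^ 2 ≤ (C * C') * S := by
    have h4 : ∀ n, γ (n / K) * ‖y n‖ ^ 2 ≤ (C * C') * (‖y n‖ ^ 2 * β n) := by
      intro n
      calc γ (n / K) * ‖y n‖ ^ 2 ≤ (C * (C' * β n)) * ‖y n‖ ^ 2 := by
            apply mul_le_mul_of_nonneg_right _ (by positivity)
            exact (hγ2 _).trans (mul_le_mul_of_nonneg_left (hdiv n) (by linarith))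
        _ = (C * C') * (‖y n‖ ^ 2 * β n) := by ring
    have h5 : ∑ n ∈ range (K * T), ‖y n‖ ^ 2 * β n ≤ S := by
      have h6 : ∑ n ∈ range (K * T), ‖y n‖ ^ 2 * β n
          = ∑ n ∈ (range (K * T)).filter (fun n => n < L), ‖x n‖ ^ 2 * β n := by
        rw [Finset.sum_filter]
        apply Finset.sum_congr rfl
        intro n _
        split_ifs with h
        · rw [hy1 n h]
        · rw [hy0 n (by omega)]; simp
      rw [h6]
      apply Finset.sum_le_sum_of_subset_of_nonneg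
      · intro n hn
        simp only [Finset.mem_filter, Finset.mem_range] at hn ⊢
        exact hn.2
      · intro n _ _
        have := (hβ n).le
        positivity
    calc ∑ n ∈ range (K * T), γ (n / K) * ‖y n‖ ^ 2
        ≤ ∑ n ∈ range (K * T), (C * C') * (‖y n‖ ^ 2 * β n) := Finset.sum_le_sum (fun n _ => h4 n)
      _ = (C * C') * ∑ n ∈ range (K * T), ‖y n‖ ^ 2 * β n := by rw [Finset.mul_sum]
      _ ≤ (C * C') * S := mul_le_mul_of_nonneg_left h5 (by positivity)
  have h4 : ∑ k ∈ range T, γ k * (if k = 0 then 2 * (V * S) else 0) ≤ γ 0 * (2 * (V * S)) := by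
    have h5 : ∀ k ∈ range T, γ k * (if k = 0 then 2 * (V * S) else 0)
        = if k = 0 then γ 0 * (2 * (V * S)) else 0 := by
      intro k _
      split_ifs with h
      · rw [h]
      · simp
    rw [Finset.sum_congr rfl h5, Finset.sum_ite_eq' (range T) 0 (fun _ => γ 0 * (2 * (V * S)))]
    have := hγ0 0
    split_ifs
    · exact le_rfl
    · positivity
  calc 2 * A * ∑ n ∈ range (K * T), γ (n / K) * ‖y n‖ ^ 2
      + ∑ k ∈ range T, γ k * (if k = 0 then 2 * (V * S) else 0)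
      ≤ 2 * A * ((C * C') * S) + γ 0 * (2 * (V * S)) := by gcongr
    _ = (2 * A * (C * C') + γ 0 * (2 * V)) * S := by ring

end

end Pool.Agent.Helper76.Zp
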