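import Pool.Agent.Helper76.Z5

set_option autoImplicit false
open Complex Filter Topology Metric
open Finset (range Ico)

namespace Pool.Agent.Helper76.Zp
open Pool.Agent.Helper76.Hardy

/-- truncation -/
noncomputable def At (Φ : PowerSeries ℂ) (m : ℕ) : Polynomial ℂ := PowerSeries.trunc m Φ

lemma At_eval (Φ : PowerSeries ℂ) (m : ℕ) (z : ℂ) :
    (At Φ m).eval z = ∑ k ∈ range m, PowerSeries.coeff k Φ * z ^ k := by
  have h := PowerSeries.eval₂_trunc_eq_sum_range z (RingHom.id ℂ) m Φ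
  exact h

lemma At_pow_coeff (Φ : PowerSeries ℂ) (m n k : ℕ) (hk : k < m) :
    ((At Φ m) ^ n).coeff k = PowerSeries.coeff k (Φ ^ n) := by
  have h := congrArg (fun p => Polynomial.coeff p k) (PowerSeries.trunc_trunc_pow Φ m n)
  simp only [PowerSeries.coeff_trunc, if_pos hk] at h
  rw [← h, At, ← Polynomial.coe_pow, Polynomial.coeff_coe]

lemma poly_pars (p : Polynomial ℂ) (r : ℝ) (K : ℕ) :
    ∑ k ∈ range K, ‖p.coeff k‖ ^ 2 * (r ^ 2) ^ k
      ≤ Real.circleAverage (fun z => ‖p.eval z‖ ^ 2) 0 r := by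
  set N := max K (p.natDegree + 1) with hN
  have h1 : (fun z : ℂ => ‖p.eval z‖ ^ 2) = fun z => ‖∑ n ∈ range N, p.coeff n * z ^ n‖ ^ 2 := by
    ext z
    rw [Polynomial.eval_eq_sum_range' (n := N) (lt_of_lt_of_le (Nat.lt_succ_self _) (le_max_right _ _))]
  rw [h1, parseval_fin]
  apply Finset.sum_le_sum_of_subset_of_nonneg
  · intro j hj
    rw [Finset.mem_range] at hj ⊢
    exact lt_of_lt_of_le hj (le_max_left _ _)
  · intros; positivity

lemma pow_sub_le (a b : ℂ) (l : ℝ) (ha : ‖a‖ ≤ l) (hb : ‖b‖ ≤ l) (hl : 1 ≤ l) (n : ℕ) :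
    ‖a ^ n - b ^ n‖ ≤ n * l ^ n * ‖a - b‖ := by
  induction n with
  | zero => simp
  | succ n ih =>
    have h1 : a ^ (n + 1) - b ^ (n + 1) = a * (a ^ n - b ^ n) + (a - b) * b ^ n := by
      rw [pow_succ, pow_succ]; ring
    have h2 : ‖b‖ ^ n ≤ l ^ (n + 1) := by
      calc ‖b‖ ^ n ≤ l ^ n := pow_le_pow_left₀ (norm_nonneg _) hb n
        _ ≤ l ^ (n + 1) := pow_le_pow_right₀ hl (Nat.le_succ n)
    rw [h1]
    calc ‖a * (a ^ n - b ^ n) + (a - b) * b ^ n‖ ≤ ‖a‖ * ‖a ^ n - b ^ n‖ + ‖a - b‖ * ‖b‖ ^ n := by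
          refine (norm_add_le _ _).trans ?_
          rw [norm_mul, norm_mul, norm_pow]
      _ ≤ l * (n * l ^ n * ‖a - b‖) + ‖a - b‖ * l ^ (n + 1) := by
          gcongr
      _ = ((n + 1 : ℕ) : ℝ) * l ^ (n + 1) * ‖a - b‖ := by
          push_cast
          rw [pow_succ]; ring

lemma real_pow_sub (R : ℝ) (hR : 1 ≤ R) (k : ℕ) : R ^ k - 1 ≤ k * (R - 1) * R ^ k := by
  induction k with
  | zero => simp
  | succ k ih =>
    have h1 : R ^ (k + 1) - 1 = R * (R ^ k - 1) + (R - 1) := by rw [pow_succ]; ring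
    have h2 : 1 ≤ R ^ (k + 1) := one_le_pow₀ hR
    rw [h1]
    have h3 : R * (R ^ k - 1) ≤ R * (k * (R - 1) * R ^ k) := mul_le_mul_of_nonneg_left ih (by linarith)
    have h4 : (R - 1) ≤ (R - 1) * R ^ (k + 1) := by nlinarith
    calc R * (R ^ k - 1) + (R - 1) ≤ R * (k * (R - 1) * R ^ k) + (R - 1) * R ^ (k + 1) := by linarith
      _ = ((k + 1 : ℕ) : ℝ) * (R - 1) * R ^ (k + 1) := by
        push_cast; rw [pow_succ]; ring

/-- sup bounds for truncations on slightly larger circles -/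
lemma trunc_sup {Φ : PowerSeries ℂ} {φ : ℂ → ℂ} (hR : Rep Φ φ) (hm : ∀ z : ℂ, ‖z‖ < 1 → ‖φ z‖ < 1)
    (hs : Summable (fun k : ℕ => (k : ℝ) * ‖PowerSeries.coeff k Φ‖)) :
    ∃ C : ℝ, 0 ≤ C ∧ ∀ l m : ℕ, 2 ^ l ≤ m → m ≤ 2 ^ (l + 1) → ∀ z : ℂ,
      ‖z‖ ≤ 1 + ((2 : ℝ) ^ l)⁻¹ → ‖(At Φ m).eval z‖ ≤ 1 + C * ((2 : ℝ) ^ l)⁻¹ := by
  set D := ∑' k : ℕ, (k : ℝ) * ‖PowerSeries.coeff k Φ‖ with hD
  have hD0 : 0 ≤ D := tsum_nonneg (fun k => by positivity)
  refine ⟨D + 2 * Real.exp 4 * D, by positivity, ?_⟩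
  intro l m hm1 hm2 z hz
  set q : ℝ := ((2 : ℝ) ^ l)⁻¹ with hq
  have hq0 : 0 < q := by positivity
  set R := 1 + 2 * q with hRdef
  have hR1 : 1 ≤ R := by linarith
  have hR0 : 0 < R := by linarith
  set ζ : ℂ := z / (R : ℂ) with hζ
  have hζ1 : ‖ζ‖ < 1 := by
    rw [hζ, norm_div, Complex.norm_real, Real.norm_of_nonneg hR0.le, div_lt_one hR0]
    linarith
  have hzζ : z = (R : ℂ) * ζ := by
    rw [hζ]
    have : (R : ℂ) ≠ 0 := by exact_mod_cast hR0.ne'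
    field_simp
  have hm0 : (2 : ℝ) ^ l ≤ m := by exact_mod_cast hm1
  have hmpos : (0 : ℝ) < m := lt_of_lt_of_le (by positivity) hm0
  -- the value at `ζ`
  have h1 : ‖∑ k ∈ range m, PowerSeries.coeff k Φ * ζ ^ k‖ ≤ 1 + D * q := by
    have hsum := hR ζ hζ1
    have h2 := hsum.summable.sum_add_tsum_nat_add m
    rw [hsum.tsum_eq] at h2
    have h3 : ‖∑' k : ℕ, PowerSeries.coeff (k + m) Φ * ζ ^ (k + m)‖ ≤ D * q := by
      have h4 : ∀ k : ℕ, ‖PowerSeries.coeff (k + m) Φ * ζ ^ (k + m)‖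
          ≤ q * (((k + m : ℕ) : ℝ) * ‖PowerSeries.coeff (k + m) Φ‖) := by
        intro k
        rw [norm_mul, norm_pow]
        have h5 : ‖ζ‖ ^ (k + m) ≤ 1 := pow_le_one₀ (norm_nonneg _) hζ1.le
        have h6 : 1 ≤ q * ((k + m : ℕ) : ℝ) := by
          rw [hq, inv_mul_eq_div, le_div_iff₀ (by positivity), one_mul]
          push_cast
          have : (0 : ℝ) ≤ k := by positivity
          linarith
        calc ‖PowerSeries.coeff (k + m) Φ‖ * ‖ζ‖ ^ (k + m) ≤ ‖PowerSeries.coeff (k + m) Φ‖ * 1 := by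
              gcongr
          _ ≤ ‖PowerSeries.coeff (k + m) Φ‖ * (q * ((k + m : ℕ) : ℝ)) := by gcongr
          _ = q * (((k + m : ℕ) : ℝ) * ‖PowerSeries.coeff (k + m) Φ‖) := by ring
      have h5 : Summable (fun k : ℕ => ((k + m : ℕ) : ℝ) * ‖PowerSeries.coeff (k + m) Φ‖) :=
        (summable_nat_add_iff m).mpr hs
      have h6 := tsum_of_norm_bounded (h5.mul_left q).hasSum h4
      refine h6.trans ?_
      rw [tsum_mul_left, mul_comm]
      apply mul_le_mul_of_nonneg_right _ hq0.le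
      have h7 := hs.sum_add_tsum_nat_add m
      have h8 : 0 ≤ ∑ k ∈ range m, (k : ℝ) * ‖PowerSeries.coeff k Φ‖ :=
        Finset.sum_nonneg (fun _ _ => by positivity)
      linarith
    have h4 : ∑ k ∈ range m, PowerSeries.coeff k Φ * ζ ^ k
        = φ ζ - ∑' k : ℕ, PowerSeries.coeff (k + m) Φ * ζ ^ (k + m) := by
      rw [← h2]; ring
    rw [h4]
    calc _ ≤ ‖φ ζ‖ + ‖∑' k : ℕ, PowerSeries.coeff (k + m) Φ * ζ ^ (k + m)‖ := norm_sub_le _ _
      _ ≤ 1 + D * q := add_le_add (hm ζ hζ1).le h3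
  -- the difference
  have hRm : ∀ k ∈ range m, R ^ k ≤ Real.exp 4 := by
    intro k hk
    have hk' := Finset.mem_range.mp hk
    have h2 : R ≤ Real.exp (2 * q) := by
      have := Real.add_one_le_exp (2 * q)
      linarith
    calc R ^ k ≤ (Real.exp (2 * q)) ^ k := pow_le_pow_left₀ hR0.le h2 k
      _ = Real.exp (k * (2 * q)) := by rw [← Real.exp_nat_mul]
      _ ≤ Real.exp 4 := by
        apply Real.exp_le_exp.mpr
        have h3 : (k : ℝ) ≤ 2 ^ (l + 1) := by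
          have : k ≤ 2 ^ (l + 1) := by omega
          exact_mod_cast this
        calc (k : ℝ) * (2 * q) ≤ 2 ^ (l + 1) * (2 * q) := by gcongr
          _ = 4 := by
            rw [hq, pow_succ]
            field_simp
            norm_num
  have h2 : ‖(At Φ m).eval z - ∑ k ∈ range m, PowerSeries.coeff k Φ * ζ ^ k‖ ≤ 2 * Real.exp 4 * D * q := by
    rw [At_eval, ← Finset.sum_sub_distrib]
    calc ‖∑ k ∈ range m, (PowerSeries.coeff k Φ * z ^ k - PowerSeries.coeff k Φ * ζ ^ k)‖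
        ≤ ∑ k ∈ range m, ‖PowerSeries.coeff k Φ * z ^ k - PowerSeries.coeff k Φ * ζ ^ k‖ :=
          norm_sum_le _ _
      _ ≤ ∑ k ∈ range m, (2 * Real.exp 4 * q) * ((k : ℝ) * ‖PowerSeries.coeff k Φ‖) := by
          apply Finset.sum_le_sum
          intro k hk
          have h3 : PowerSeries.coeff k Φ * z ^ k - PowerSeries.coeff k Φ * ζ ^ k
              = PowerSeries.coeff k Φ * ζ ^ k * (((R ^ k - 1 : ℝ)) : ℂ) := by
            rw [hzζ]
            push_cast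
            ring
          have h4 : 0 ≤ R ^ k - 1 := by
            have := one_le_pow₀ hR1 (n := k)
            linarith
          have h5 := real_pow_sub R hR1 k
          have h6 := hRm k hk
          have h7 : ‖ζ‖ ^ k ≤ 1 := pow_le_one₀ (norm_nonneg _) hζ1.le
          rw [h3, norm_mul, norm_mul, norm_pow, Complex.norm_real, Real.norm_of_nonneg h4]
          calc ‖PowerSeries.coeff k Φ‖ * ‖ζ‖ ^ k * (R ^ k - 1)
              ≤ ‖PowerSeries.coeff k Φ‖ * 1 * (k * (R - 1) * Real.exp 4) := by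
                have h8 : R ^ k - 1 ≤ k * (R - 1) * Real.exp 4 := by
                  refine h5.trans ?_
                  apply mul_le_mul_of_nonneg_left h6
                  have : 0 ≤ R - 1 := by linarith
                  positivity
                gcongr
            _ = (2 * Real.exp 4 * q) * ((k : ℝ) * ‖PowerSeries.coeff k Φ‖) := by
                rw [hRdef]; ring
      _ = (2 * Real.exp 4 * q) * ∑ k ∈ range m, ((k : ℝ) * ‖PowerSeries.coeff k Φ‖) := by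
          rw [Finset.mul_sum]
      _ ≤ (2 * Real.exp 4 * q) * D := by
          apply mul_le_mul_of_nonneg_left _ (by positivity)
          exact hs.sum_le_tsum _ (fun k _ => by positivity)
      _ = 2 * Real.exp 4 * D * q := by ring
  calc ‖(At Φ m).eval z‖ = ‖((At Φ m).eval z - ∑ k ∈ range m, PowerSeries.coeff k Φ * ζ ^ k)
        + ∑ k ∈ range m, PowerSeries.coeff k Φ * ζ ^ k‖ := by rw [sub_add_cancel]
    _ ≤ 2 * Real.exp 4 * D * q + (1 + D * q) := (norm_add_le _ _).trans (add_le_add h2 h1)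
    _ = 1 + (D + 2 * Real.exp 4 * D) * q := by ring

/-- powers up to `2^(l+1)` of `1 + C 2^(-l)` are bounded -/
lemma lam_pow (C : ℝ) (hC : 0 ≤ C) (l n : ℕ) (hn : n ≤ 2 ^ (l + 1)) :
    (1 + C * ((2 : ℝ) ^ l)⁻¹) ^ n ≤ Real.exp (2 * C) := by
  have h1 : 1 + C * ((2 : ℝ) ^ l)⁻¹ ≤ Real.exp (C * ((2 : ℝ) ^ l)⁻¹) := by
    have := Real.add_one_le_exp (C * ((2 : ℝ) ^ l)⁻¹)
    linarith
  calc (1 + C * ((2 : ℝ) ^ l)⁻¹) ^ n ≤ (Real.exp (C * ((2 : ℝ) ^ l)⁻¹)) ^ n :=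
        pow_le_pow_left₀ (by positivity) h1 n
    _ = Real.exp (n * (C * ((2 : ℝ) ^ l)⁻¹)) := by rw [← Real.exp_nat_mul]
    _ ≤ Real.exp (2 * C) := by
      apply Real.exp_le_exp.mpr
      have h2 : (n : ℝ) ≤ 2 ^ (l + 1) := by exact_mod_cast hn
      calc (n : ℝ) * (C * ((2 : ℝ) ^ l)⁻¹) ≤ 2 ^ (l + 1) * (C * ((2 : ℝ) ^ l)⁻¹) := by gcongr
        _ = 2 * C := by rw [pow_succ]; field_simp

/-- the first part of the telescoping decomposition -/
lemma U_bound {Φ : PowerSeries ℂ} (C : ℝ) (hC : 0 ≤ C)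
    (hsup : ∀ l m : ℕ, 2 ^ l ≤ m → m ≤ 2 ^ (l + 1) → ∀ z : ℂ,
      ‖z‖ ≤ 1 + ((2 : ℝ) ^ l)⁻¹ → ‖(At Φ m).eval z‖ ≤ 1 + C * ((2 : ℝ) ^ l)⁻¹)
    (y : ℕ → ℂ) (l K : ℕ) :
    ∑ k ∈ range K, ‖∑ n ∈ range (2 ^ (l + 1)), y n * (((At Φ (2 ^ (l + 1))) ^ n).coeff k
        - ((At Φ (2 ^ l)) ^ n).coeff k)‖ ^ 2 * ((1 + ((2 : ℝ) ^ l)⁻¹) ^ 2) ^ k
      ≤ (Real.exp (2 * C) * ∑ n ∈ range (2 ^ (l + 1)), (n : ℝ) * ‖y n‖) ^ 2
        * (Real.exp 4 * ∑ k ∈ Ico (2 ^ l) (2 ^ (l + 1)), ‖PowerSeries.coeff k Φ‖ ^ 2) := by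
  set r : ℝ := 1 + ((2 : ℝ) ^ l)⁻¹ with hr
  have hr0 : 0 ≤ r := by positivity
  set Y := ∑ n ∈ range (2 ^ (l + 1)), (n : ℝ) * ‖y n‖ with hY
  have hY0 : 0 ≤ Y := Finset.sum_nonneg (fun _ _ => by positivity)
  set U : Polynomial ℂ := ∑ n ∈ range (2 ^ (l + 1)), Polynomial.C (y n) *
    ((At Φ (2 ^ (l + 1))) ^ n - (At Φ (2 ^ l)) ^ n) with hU
  have h1 : ∀ k, U.coeff k = ∑ n ∈ range (2 ^ (l + 1)), y n * (((At Φ (2 ^ (l + 1))) ^ n).coeff k
        - ((At Φ (2 ^ l)) ^ n).coeff k) := by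
    intro k
    rw [hU, Polynomial.finsetSum_coeff]
    apply Finset.sum_congr rfl
    intro n _
    rw [Polynomial.coeff_C_mul, Polynomial.coeff_sub]
  simp_rw [← h1]
  refine (poly_pars U r K).trans ?_
  set lam := 1 + C * ((2 : ℝ) ^ l)⁻¹ with hlam
  have hlam1 : 1 ≤ lam := by
    have : 0 ≤ C * ((2 : ℝ) ^ l)⁻¹ := by positivity
    linarith
  set d : ℂ → ℂ := fun z => ∑ k ∈ range (2 ^ (l + 1)),
    (if 2 ^ l ≤ k then PowerSeries.coeff k Φ else 0) * z ^ k with hd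
  have hle : 2 ^ l ≤ 2 ^ (l + 1) := Nat.pow_le_pow_right (by norm_num) (Nat.le_succ l)
  have hdiff : ∀ z : ℂ, (At Φ (2 ^ (l + 1))).eval z - (At Φ (2 ^ l)).eval z = d z := by
    intro z
    rw [At_eval, At_eval, hd]
    simp only
    obtain ⟨j, hj⟩ := Nat.exists_eq_add_of_le hle
    rw [hj, Finset.sum_range_add, Finset.sum_range_add, add_sub_cancel_left]
    rw [Finset.sum_eq_zero (s := range (2 ^ l)), zero_add]
    · apply Finset.sum_congr rfl
      intro i _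
      rw [if_pos (Nat.le_add_right _ _)]
    · intro i hi
      rw [if_neg (by have := Finset.mem_range.mp hi; omega), zero_mul]
  have hpt : ∀ z : ℂ, ‖z‖ ≤ r → ‖U.eval z‖ ≤ (Real.exp (2 * C) * Y) * ‖d z‖ := by
    intro z hz
    have ha := hsup l (2 ^ (l + 1)) hle le_rfl z hz
    have hb := hsup l (2 ^ l) le_rfl hle z hz
    rw [hU, Polynomial.eval_finsetSum]
    calc ‖∑ n ∈ range (2 ^ (l + 1)), (Polynomial.C (y n) *
          ((At Φ (2 ^ (l + 1))) ^ n - (At Φ (2 ^ l)) ^ n)).eval z‖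
        ≤ ∑ n ∈ range (2 ^ (l + 1)), ‖(Polynomial.C (y n) *
          ((At Φ (2 ^ (l + 1))) ^ n - (At Φ (2 ^ l)) ^ n)).eval z‖ := norm_sum_le _ _
      _ ≤ ∑ n ∈ range (2 ^ (l + 1)), ((n : ℝ) * ‖y n‖) * (Real.exp (2 * C) * ‖d z‖) := by
          apply Finset.sum_le_sum
          intro n hn
          have hn' := Finset.mem_range.mp hn
          rw [Polynomial.eval_mul, Polynomial.eval_C, Polynomial.eval_sub, Polynomial.eval_pow,
            Polynomial.eval_pow, norm_mul]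
          have h3 := pow_sub_le _ _ lam ha hb hlam1 n
          rw [hdiff] at h3
          have h4 := lam_pow C hC l n hn'.le
          calc ‖y n‖ * ‖_ - _‖ ≤ ‖y n‖ * (n * lam ^ n * ‖d z‖) := by gcongr
            _ ≤ ‖y n‖ * (n * Real.exp (2 * C) * ‖d z‖) := by gcongr
            _ = ((n : ℝ) * ‖y n‖) * (Real.exp (2 * C) * ‖d z‖) := by ring
      _ = (Real.exp (2 * C) * Y) * ‖d z‖ := by rw [← Finset.sum_mul]; ring
  have hdc : Continuous d := by rw [hd]; fun_prop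
  have h2 : Real.circleAverage (fun z => ‖U.eval z‖ ^ 2) 0 r
      ≤ Real.circleAverage (fun z => (Real.exp (2 * C) * Y) ^ 2 * ‖d z‖ ^ 2) 0 r := by
    apply Real.circleAverage_mono
    · exact circ_int_cont _ (by fun_prop) r
    · exact circ_int_cont _ (by fun_prop) r
    · intro z hz
      have hz1 : ‖z‖ = |r| := by simpa using hz
      rw [abs_of_nonneg hr0] at hz1
      have h3 := hpt z hz1.le
      calc ‖U.eval z‖ ^ 2 ≤ ((Real.exp (2 * C) * Y) * ‖d z‖) ^ 2 :=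
            pow_le_pow_left₀ (norm_nonneg _) h3 2
        _ = (Real.exp (2 * C) * Y) ^ 2 * ‖d z‖ ^ 2 := by ring
  refine h2.trans ?_
  have h3 : Real.circleAverage (fun z => (Real.exp (2 * C) * Y) ^ 2 * ‖d z‖ ^ 2) 0 r
      = (Real.exp (2 * C) * Y) ^ 2 * Real.circleAverage (fun z => ‖d z‖ ^ 2) 0 r := by
    have := Real.circleAverage_fun_smul (a := (Real.exp (2 * C) * Y) ^ 2) (f := fun z : ℂ => ‖d z‖ ^ 2)
      (c := 0) (R := r)
    simpa [smul_eq_mul] using this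
  rw [h3]
  apply mul_le_mul_of_nonneg_left _ (by positivity)
  rw [hd, parseval_fin, Finset.mul_sum]
  obtain ⟨j, hj⟩ := Nat.exists_eq_add_of_le hle
  rw [Finset.sum_Ico_eq_sum_range, hj, Finset.sum_range_add, add_tsub_cancel_left]
  rw [Finset.sum_eq_zero (s := range (2 ^ l)), zero_add]
  · apply Finset.sum_le_sum
    intro i hi
    have hi' := Finset.mem_range.mp hi
    rw [if_pos (Nat.le_add_right _ _), mul_comm]
    apply mul_le_mul_of_nonneg_right _ (by positivity)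
    rw [← pow_mul, mul_comm 2, pow_mul]
    have h4 := lam_pow 1 zero_le_one l (2 ^ l + i) (by omega)
    rw [one_mul] at h4
    calc (r ^ (2 ^ l + i)) ^ 2 ≤ (Real.exp (2 * 1)) ^ 2 := pow_le_pow_left₀ (by positivity) h4 2
      _ = Real.exp 4 := by rw [← Real.exp_nat_mul]; norm_num
  · intro i hi
    rw [if_neg (by have := Finset.mem_range.mp hi; omega)]
    simp

end Pool.Agent.Helper76.Zp
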