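import Pool.Agent.Helper76.Z6

set_option autoImplicit false
open Complex Filter Topology Metric
open Finset (range Ico)

namespace Pool.Agent.Helper76.Zp
open Pool.Agent.Helper76.Hardy

/-- the second part of the telescoping decomposition -/
lemma W_bound {Φ : PowerSeries ℂ} (C : ℝ) (hC : 0 ≤ C)
    (hsup : ∀ l m : ℕ, 2 ^ l ≤ m → m ≤ 2 ^ (l + 1) → ∀ z : ℂ,
      ‖z‖ ≤ 1 + ((2 : ℝ) ^ l)⁻¹ → ‖(At Φ m).eval z‖ ≤ 1 + C * ((2 : ℝ) ^ l)⁻¹)
    (b : ℝ) (hb : ‖PowerSeries.coeff 0 Φ‖ ≤ b) (hb1 : b < 1) (y : ℕ → ℂ) (l K : ℕ) :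
    ∑ k ∈ range K, ‖∑ n ∈ Ico (2 ^ l) (2 ^ (l + 1)), y n * ((At Φ (2 ^ l)) ^ n).coeff k‖ ^ 2
        * ((1 + ((2 : ℝ) ^ l)⁻¹) ^ 2) ^ k
      ≤ (1 + b) / (1 - b) * ((Real.exp (2 * C)) ^ 2 * ∑ n ∈ Ico (2 ^ l) (2 ^ (l + 1)), ‖y n‖ ^ 2) := by
  set r : ℝ := 1 + ((2 : ℝ) ^ l)⁻¹ with hr
  have hr0 : 0 < r := by positivity
  set lam := 1 + C * ((2 : ℝ) ^ l)⁻¹ with hlam
  have hlam1 : 1 ≤ lam := by
    have : 0 ≤ C * ((2 : ℝ) ^ l)⁻¹ := by positivity
    linarith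
  have hlam0 : 0 < lam := by linarith
  have hlamC : (lam : ℂ) ≠ 0 := by exact_mod_cast hlam0.ne'
  have hle : 2 ^ l ≤ 2 ^ (l + 1) := Nat.pow_le_pow_right (by norm_num) (Nat.le_succ l)
  set P := At Φ (2 ^ l) with hP
  set X : PowerSeries ℂ := (lam : ℂ)⁻¹ • PowerSeries.rescale (r : ℂ) (P : PowerSeries ℂ) with hX
  set χ : ℂ → ℂ := fun z => (lam : ℂ)⁻¹ * P.eval ((r : ℂ) * z) with hχ
  have hRep : Rep X χ := by
    have h1 : Rep (PowerSeries.rescale (r : ℂ) (P : PowerSeries ℂ)) (fun z => P.eval ((r : ℂ) * z)) := by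
      intro z hz
      have h2 : P.eval ((r : ℂ) * z) = ∑ k ∈ range (P.natDegree + 1),
          PowerSeries.coeff k (PowerSeries.rescale (r : ℂ) (P : PowerSeries ℂ)) * z ^ k := by
        rw [Polynomial.eval_eq_sum_range]
        apply Finset.sum_congr rfl
        intro k _
        rw [PowerSeries.coeff_rescale, Polynomial.coeff_coe, mul_pow]
        ring
      show HasSum _ (P.eval ((r : ℂ) * z))
      rw [h2]
      apply hasSum_sum_of_ne_finset_zero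
      intro k hk
      rw [PowerSeries.coeff_rescale, Polynomial.coeff_coe,
        Polynomial.coeff_eq_zero_of_natDegree_lt (by
          rw [Finset.mem_range] at hk; omega)]
      simp
    exact h1.smul _
  have hχ1 : ∀ z : ℂ, ‖z‖ < 1 → ‖χ z‖ ≤ 1 := by
    intro z hz
    have h1 := hsup l (2 ^ l) le_rfl hle ((r : ℂ) * z) (by
      rw [norm_mul, Complex.norm_real, Real.norm_of_nonneg hr0.le]
      nlinarith)
    rw [hχ]
    simp only
    rw [norm_mul, norm_inv, Complex.norm_real, Real.norm_of_nonneg hlam0.le, inv_mul_le_iff₀ hlam0,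
      mul_one]
    exact h1
  have hχ0 : ‖χ 0‖ ≤ b := by
    rw [hχ]
    simp only [mul_zero]
    rw [norm_mul, norm_inv, Complex.norm_real, Real.norm_of_nonneg hlam0.le, hP, At_eval]
    rw [inv_mul_le_iff₀ hlam0]
    have h1 : ∑ k ∈ range (2 ^ l), PowerSeries.coeff k Φ * (0 : ℂ) ^ k = PowerSeries.coeff 0 Φ := by
      rw [Finset.sum_eq_single 0]
      · simp
      · intro k _ hk
        rw [zero_pow hk, mul_zero]
      · intro h
        exfalso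
        apply h
        rw [Finset.mem_range]
        positivity
    rw [h1]
    have : 0 ≤ b := (norm_nonneg _).trans hb
    nlinarith
  have hXc : ∀ n k : ℕ, PowerSeries.coeff k (X ^ n) = ((lam : ℂ)⁻¹) ^ n * ((r : ℂ) ^ k * (P ^ n).coeff k) := by
    intro n k
    rw [hX, smul_pow, map_smul, smul_eq_mul, ← map_pow, PowerSeries.coeff_rescale,
      ← Polynomial.coe_pow, Polynomial.coeff_coe]
  set x : ℕ → ℂ := fun n => if 2 ^ l ≤ n then y n * (lam : ℂ) ^ n else 0 with hx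
  have hlit := littlewood hRep hχ1 b hχ0 hb1 x (2 ^ (l + 1)) K
  have hsplit : ∀ f : ℕ → ℂ, ∑ n ∈ range (2 ^ (l + 1)), (if 2 ^ l ≤ n then f n else 0)
      = ∑ n ∈ Ico (2 ^ l) (2 ^ (l + 1)), f n := by
    intro f
    rw [← Finset.sum_filter]
    apply Finset.sum_congr _ (fun _ _ => rfl)
    ext n
    simp only [Finset.mem_filter, Finset.mem_range, Finset.mem_Ico]
    tauto
  have hL : ∀ k, ∑ n ∈ range (2 ^ (l + 1)), x n * PowerSeries.coeff k (X ^ n)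
      = (r : ℂ) ^ k * ∑ n ∈ Ico (2 ^ l) (2 ^ (l + 1)), y n * (P ^ n).coeff k := by
    intro k
    rw [← hsplit, Finset.mul_sum]
    apply Finset.sum_congr rfl
    intro n _
    rw [hx]
    simp only
    split_ifs with h
    · rw [hXc]
      have : (lam : ℂ) ^ n ≠ 0 := pow_ne_zero n hlamC
      rw [inv_pow]
      field_simp
    · simp
  have hRR : ∑ n ∈ range (2 ^ (l + 1)), ‖x n‖ ^ 2
      ≤ (Real.exp (2 * C)) ^ 2 * ∑ n ∈ Ico (2 ^ l) (2 ^ (l + 1)), ‖y n‖ ^ 2 := by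
    have h1 : ∑ n ∈ range (2 ^ (l + 1)), ‖x n‖ ^ 2
        ≤ ∑ n ∈ range (2 ^ (l + 1)), (if 2 ^ l ≤ n then (Real.exp (2 * C)) ^ 2 * ‖y n‖ ^ 2 else 0) := by
      apply Finset.sum_le_sum
      intro n hn
      rw [hx]
      simp only
      split_ifs with h
      · rw [norm_mul, norm_pow, Complex.norm_real, Real.norm_of_nonneg hlam0.le, mul_pow, mul_comm]
        apply mul_le_mul_of_nonneg_right _ (by positivity)
        apply pow_le_pow_left₀ (by positivity)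
        exact lam_pow C hC l n (Finset.mem_range.mp hn).le
      · simp
    refine h1.trans (le_of_eq ?_)
    rw [← Finset.sum_filter, Finset.mul_sum]
    apply Finset.sum_congr _ (fun _ _ => rfl)
    ext n
    simp only [Finset.mem_filter, Finset.mem_range, Finset.mem_Ico]
    tauto
  have h1 : ∑ k ∈ range K, ‖∑ n ∈ Ico (2 ^ l) (2 ^ (l + 1)), y n * (P ^ n).coeff k‖ ^ 2 * (r ^ 2) ^ k
      = ∑ k ∈ range K, ‖∑ n ∈ range (2 ^ (l + 1)), x n * PowerSeries.coeff k (X ^ n)‖ ^ 2 := by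
    apply Finset.sum_congr rfl
    intro k _
    rw [hL, norm_mul, norm_pow, Complex.norm_real, Real.norm_of_nonneg hr0.le, mul_pow, ← pow_mul,
      ← pow_mul, mul_comm k 2, mul_comm]
  rw [h1]
  refine hlit.trans ?_
  apply mul_le_mul_of_nonneg_left hRR
  have : 0 ≤ b := (norm_nonneg _).trans hb
  exact div_nonneg (by linarith) (by linarith)

lemma dyadic_sum (f : ℕ → ℝ) (Λ : ℕ) :
    ∑ l ∈ range Λ, ∑ n ∈ Ico (2 ^ l) (2 ^ (l + 1)), f n = ∑ n ∈ Ico 1 (2 ^ Λ), f n := by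
  induction Λ with
  | zero => simp
  | succ Λ ih =>
    rw [Finset.sum_range_succ, ih]
    apply Finset.sum_Ico_consecutive
    · exact Nat.one_le_two_pow
    · exact Nat.pow_le_pow_right (by norm_num) (Nat.le_succ Λ)

/-- weights comparison used in the assembly -/
lemma weight_cmp {β : ℕ → ℝ} (hso : SO β) (hβ : ∀ n, 0 < β n) (J : ℕ) : ∃ B : ℝ, 0 ≤ B ∧
    ∀ k l : ℕ, 1 ≤ k → l ≤ Nat.log 2 k + J →
      (2 : ℝ) ^ (Nat.log 2 k + J - l) * β k ≤ B * (β (2 ^ l) * ((1 + ((2 : ℝ) ^ l)⁻¹) ^ 2) ^ k) := by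
  obtain ⟨C, hC, hit⟩ := hso.iter hβ
  obtain ⟨a, ha⟩ := pow_unbounded_of_one_lt (2 * C) (by norm_num : (1 : ℝ) < 2)
  obtain ⟨B0, hB0, hB01⟩ := poly_le_exp a 4 (by norm_num)
  refine ⟨C * 2 ^ J * B0 + 2 ^ J * C ^ J, by positivity, ?_⟩
  intro k l hk hl
  set i := Nat.log 2 k with hi
  have hki : 2 ^ i ≤ k := Nat.pow_log_le_self 2 (by omega)
  have hki2 : k < 2 ^ (i + 1) := Nat.lt_pow_succ_log_self (by norm_num) k
  set r : ℝ := 1 + ((2 : ℝ) ^ l)⁻¹ with hr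
  have hr1 : 1 ≤ r := by
    have : (0 : ℝ) ≤ ((2 : ℝ) ^ l)⁻¹ := by positivity
    linarith
  have hb := hβ (2 ^ l)
  have hbk := hβ k
  by_cases hli : l ≤ i
  · obtain ⟨j, hj⟩ := Nat.exists_eq_add_of_le hli
    have h1 : β k ≤ C ^ (j + 1) * β (2 ^ l) := by
      apply (hit (j + 1) (2 ^ l) k _ _).1
      · exact le_trans (Nat.pow_le_pow_right (by norm_num) hli) hki
      · rw [← pow_add]
        have : j + 1 + l = i + 1 := by omega
        rw [this]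
        exact hki2.le
    have h2 : (4 : ℝ) ^ (2 ^ j) ≤ (r ^ 2) ^ k := by
      have h3 : (2 : ℝ) ≤ r ^ (2 ^ l) := by
        have := one_add_mul_le_pow (a := ((2 : ℝ) ^ l)⁻¹) (by
          have : (0 : ℝ) ≤ ((2 : ℝ) ^ l)⁻¹ := by positivity
          linarith) (2 ^ l)
        have h4 : ((2 ^ l : ℕ) : ℝ) * ((2 : ℝ) ^ l)⁻¹ = 1 := by
          push_cast
          field_simp
        rw [h4] at this
        linarith
      have h4 : 2 ^ l * 2 ^ j ≤ k := by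
        rw [← pow_add, ← hj]; exact hki
      calc (4 : ℝ) ^ (2 ^ j) = (2 ^ (2 ^ j)) ^ 2 := by
            rw [← pow_mul, mul_comm, pow_mul]; norm_num
        _ ≤ ((r ^ (2 ^ l)) ^ (2 ^ j)) ^ 2 := by gcongr
        _ = (r ^ (2 ^ l * 2 ^ j)) ^ 2 := by rw [← pow_mul r]
        _ ≤ (r ^ k) ^ 2 := by
            apply pow_le_pow_left₀ (by positivity)
            exact pow_le_pow_right₀ hr1 h4
        _ = (r ^ 2) ^ k := by rw [← pow_mul, ← pow_mul, mul_comm]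
    have h3 : (2 * C) ^ j ≤ B0 * 4 ^ (2 ^ j) := by
      have h4 := hB01 (2 ^ j)
      calc (2 * C) ^ j ≤ (2 ^ a) ^ j := pow_le_pow_left₀ (by positivity) ha.le j
        _ = (((2 ^ j : ℕ)) : ℝ) ^ a := by
          push_cast
          rw [← pow_mul, ← pow_mul, mul_comm]
        _ ≤ B0 * 4 ^ (2 ^ j) := h4
    have h4 : i + J - l = j + J := by omega
    rw [h4]
    calc (2 : ℝ) ^ (j + J) * β k ≤ 2 ^ (j + J) * (C ^ (j + 1) * β (2 ^ l)) := by gcongr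
      _ = C * 2 ^ J * ((2 * C) ^ j) * β (2 ^ l) := by
          rw [mul_pow, pow_add, pow_succ]; ring
      _ ≤ C * 2 ^ J * (B0 * 4 ^ (2 ^ j)) * β (2 ^ l) := by gcongr
      _ ≤ C * 2 ^ J * (B0 * (r ^ 2) ^ k) * β (2 ^ l) := by gcongr
      _ = (C * 2 ^ J * B0) * (β (2 ^ l) * (r ^ 2) ^ k) := by ring
      _ ≤ (C * 2 ^ J * B0 + 2 ^ J * C ^ J) * (β (2 ^ l) * (r ^ 2) ^ k) := by
          apply mul_le_mul_of_nonneg_right _ (by positivity)
          have : 0 ≤ (2 : ℝ) ^ J * C ^ J := by positivity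
          linarith
  · push Not at hli
    have h1 : β k ≤ C ^ J * β (2 ^ l) := by
      apply (hit J k (2 ^ l) _ _).2
      · exact le_trans hki2.le (Nat.pow_le_pow_right (by norm_num) hli)
      · calc 2 ^ l ≤ 2 ^ (i + J) := Nat.pow_le_pow_right (by norm_num) hl
          _ = 2 ^ J * 2 ^ i := by rw [pow_add, mul_comm]
          _ ≤ 2 ^ J * k := Nat.mul_le_mul_left _ hki
    have h2 : (2 : ℝ) ^ (i + J - l) ≤ 2 ^ J := pow_le_pow_right₀ (by norm_num) (by omega)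
    have h3 : 1 ≤ (r ^ 2) ^ k := one_le_pow₀ (one_le_pow₀ hr1)
    calc (2 : ℝ) ^ (i + J - l) * β k ≤ 2 ^ J * (C ^ J * β (2 ^ l)) := by gcongr
      _ = (2 ^ J * C ^ J) * (β (2 ^ l) * 1) := by ring
      _ ≤ (2 ^ J * C ^ J) * (β (2 ^ l) * (r ^ 2) ^ k) := by gcongr
      _ ≤ (C * 2 ^ J * B0 + 2 ^ J * C ^ J) * (β (2 ^ l) * (r ^ 2) ^ k) := by
          apply mul_le_mul_of_nonneg_right _ (by positivity)
          have : 0 ≤ C * (2 : ℝ) ^ J * B0 := by positivity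
          linarith

lemma geo_le (n : ℕ) : ∑ l ∈ range (n + 1), ((2 : ℝ) ^ (n - l))⁻¹ ≤ 2 := by
  have h1 : ∑ l ∈ range (n + 1), ((2 : ℝ) ^ (n - l))⁻¹ = ∑ l ∈ range (n + 1), ((2 : ℝ) ^ l)⁻¹ := by
    have := Finset.sum_range_reflect (fun l => ((2 : ℝ) ^ l)⁻¹) (n + 1)
    rw [← this]
    apply Finset.sum_congr rfl
    intro l hl
    congr 2
  rw [h1]
  have h2 : ∀ m : ℕ, ∑ l ∈ range m, ((2 : ℝ) ^ l)⁻¹ ≤ 2 - 2 * ((2 : ℝ) ^ m)⁻¹ := by
    intro m
    induction m with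
    | zero => simp
    | succ m ih =>
      rw [Finset.sum_range_succ, pow_succ, mul_inv]
      linarith
  have h3 := h2 (n + 1)
  have h4 : (0 : ℝ) < ((2 : ℝ) ^ (n + 1))⁻¹ := by positivity
  linarith

/-- near part of the assembly -/
lemma near_part {β : ℕ → ℝ} (hβ : ∀ n, 0 < β n) (J : ℕ) (B : ℝ) (hB : 0 ≤ B)
    (hcmp : ∀ k l : ℕ, 1 ≤ k → l ≤ Nat.log 2 k + J →
      (2 : ℝ) ^ (Nat.log 2 k + J - l) * β k ≤ B * (β (2 ^ l) * ((1 + ((2 : ℝ) ^ l)⁻¹) ^ 2) ^ k))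
    (t : ℕ → ℕ → ℂ) (Λ K : ℕ) (e : ℕ → ℝ)
    (he : ∀ l, ∑ k ∈ range K, ‖t l k‖ ^ 2 * ((1 + ((2 : ℝ) ^ l)⁻¹) ^ 2) ^ k * β (2 ^ l) ≤ e l) :
    ∑ k ∈ Ico 1 K, ‖∑ l ∈ (range Λ).filter (fun l => l ≤ Nat.log 2 k + J), t l k‖ ^ 2 * β k
      ≤ 2 * B * ∑ l ∈ range Λ, e l := by
  have h1 : ∀ k ∈ Ico 1 K, ‖∑ l ∈ (range Λ).filter (fun l => l ≤ Nat.log 2 k + J), t l k‖ ^ 2 * β k
      ≤ 2 * B * ∑ l ∈ range Λ, ‖t l k‖ ^ 2 * ((1 + ((2 : ℝ) ^ l)⁻¹) ^ 2) ^ k * β (2 ^ l) := by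
    intro k hk
    have hk1 : 1 ≤ k := (Finset.mem_Ico.mp hk).1
    set i := Nat.log 2 k with hi
    set S := (range Λ).filter (fun l => l ≤ i + J) with hS
    have hbk := hβ k
    have h2 : ‖∑ l ∈ S, t l k‖ ^ 2 ≤ 2 * ∑ l ∈ S, ‖t l k‖ ^ 2 * 2 ^ (i + J - l) := by
      have h3 := cs_ineq S (fun l => ‖t l k‖) (fun _ => 1) (fun l => (2 : ℝ) ^ (i + J - l))
        (fun l _ => by positivity)
      have h4 : ∑ l ∈ S, (1 : ℝ) ^ 2 / (2 : ℝ) ^ (i + J - l) ≤ 2 := by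
        calc ∑ l ∈ S, (1 : ℝ) ^ 2 / (2 : ℝ) ^ (i + J - l)
            ≤ ∑ l ∈ range (i + J + 1), ((2 : ℝ) ^ (i + J - l))⁻¹ := by
              have h5 : ∀ l ∈ S, (1 : ℝ) ^ 2 / (2 : ℝ) ^ (i + J - l) = ((2 : ℝ) ^ (i + J - l))⁻¹ := by
                intro l _
                rw [one_pow, one_div]
              rw [Finset.sum_congr rfl h5]
              apply Finset.sum_le_sum_of_subset_of_nonneg
              · intro l hl
                rw [hS, Finset.mem_filter] at hl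
                rw [Finset.mem_range]
                omega
              · intros; positivity
          _ ≤ 2 := geo_le _
      calc ‖∑ l ∈ S, t l k‖ ^ 2 ≤ (∑ l ∈ S, ‖t l k‖ * 1) ^ 2 := by
            apply pow_le_pow_left₀ (norm_nonneg _)
            simpa using norm_sum_le S (fun l => t l k)
        _ ≤ (∑ l ∈ S, ‖t l k‖ ^ 2 * (2 : ℝ) ^ (i + J - l)) * ∑ l ∈ S, (1 : ℝ) ^ 2 / (2 : ℝ) ^ (i + J - l) := h3
        _ ≤ (∑ l ∈ S, ‖t l k‖ ^ 2 * (2 : ℝ) ^ (i + J - l)) * 2 := by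
            apply mul_le_mul_of_nonneg_left h4
            exact Finset.sum_nonneg (fun _ _ => by positivity)
        _ = 2 * ∑ l ∈ S, ‖t l k‖ ^ 2 * 2 ^ (i + J - l) := by ring
    calc ‖∑ l ∈ S, t l k‖ ^ 2 * β k ≤ (2 * ∑ l ∈ S, ‖t l k‖ ^ 2 * 2 ^ (i + J - l)) * β k := by gcongr
      _ = 2 * ∑ l ∈ S, ‖t l k‖ ^ 2 * (2 ^ (i + J - l) * β k) := by
          rw [mul_assoc, Finset.sum_mul]
          congr 1
          apply Finset.sum_congr rfl
          intro l _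
          ring
      _ ≤ 2 * ∑ l ∈ S, ‖t l k‖ ^ 2 * (B * (β (2 ^ l) * ((1 + ((2 : ℝ) ^ l)⁻¹) ^ 2) ^ k)) := by
          apply mul_le_mul_of_nonneg_left _ (by norm_num)
          apply Finset.sum_le_sum
          intro l hl
          rw [hS, Finset.mem_filter] at hl
          apply mul_le_mul_of_nonneg_left _ (by positivity)
          exact hcmp k l hk1 hl.2
      _ = 2 * B * ∑ l ∈ S, ‖t l k‖ ^ 2 * ((1 + ((2 : ℝ) ^ l)⁻¹) ^ 2) ^ k * β (2 ^ l) := by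
          rw [Finset.mul_sum, Finset.mul_sum]
          apply Finset.sum_congr rfl
          intro l _
          ring
      _ ≤ 2 * B * ∑ l ∈ range Λ, ‖t l k‖ ^ 2 * ((1 + ((2 : ℝ) ^ l)⁻¹) ^ 2) ^ k * β (2 ^ l) := by
          apply mul_le_mul_of_nonneg_left _ (by positivity)
          apply Finset.sum_le_sum_of_subset_of_nonneg
          · exact Finset.filter_subset _ _
          · intro l _ _
            have := (hβ (2 ^ l)).le
            positivity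
  calc ∑ k ∈ Ico 1 K, ‖∑ l ∈ (range Λ).filter (fun l => l ≤ Nat.log 2 k + J), t l k‖ ^ 2 * β k
      ≤ ∑ k ∈ Ico 1 K, 2 * B * ∑ l ∈ range Λ, ‖t l k‖ ^ 2 * ((1 + ((2 : ℝ) ^ l)⁻¹) ^ 2) ^ k * β (2 ^ l) :=
        Finset.sum_le_sum h1
    _ = 2 * B * ∑ l ∈ range Λ, ∑ k ∈ Ico 1 K, ‖t l k‖ ^ 2 * ((1 + ((2 : ℝ) ^ l)⁻¹) ^ 2) ^ k * β (2 ^ l) := by
        rw [← Finset.mul_sum, Finset.sum_comm]
    _ ≤ 2 * B * ∑ l ∈ range Λ, e l := by
        apply mul_le_mul_of_nonneg_left _ (by positivity)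
        apply Finset.sum_le_sum
        intro l _
        refine le_trans ?_ (he l)
        apply Finset.sum_le_sum_of_subset_of_nonneg
        · intro k hk
          rw [Finset.mem_Ico] at hk
          rw [Finset.mem_range]
          exact hk.2
        · intro k _ _
          have := (hβ (2 ^ l)).le
          positivity

end Pool.Agent.Helper76.Zp
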