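import Pool.Agent.Helper76.Z7

set_option autoImplicit false
open Complex Filter Topology Metric
open Finset (range Ico)

namespace Pool.Agent.Helper76.Zp
open Pool.Agent.Helper76.Hardy

lemma summable_deriv {β : ℕ → ℝ} (hβ : ∀ n, 0 < β n) {Φ : PowerSeries ℂ}
    (h2 : Summable (fun n : ℕ => (n : ℝ) ^ 2 / β n))
    (hφ : Summable (fun k : ℕ => ‖PowerSeries.coeff k Φ‖ ^ 2 * β k)) :
    Summable (fun k : ℕ => (k : ℝ) * ‖PowerSeries.coeff k Φ‖) := by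
  apply Summable.of_nonneg_of_le (fun k => by positivity) _ (h2.add hφ)
  intro k
  have hb := hβ k
  have h1 : ((k : ℝ) * ‖PowerSeries.coeff k Φ‖) ^ 2
      = ((k : ℝ) ^ 2 / β k) * (‖PowerSeries.coeff k Φ‖ ^ 2 * β k) := by
    field_simp
  set u := (k : ℝ) ^ 2 / β k with hu
  set v := ‖PowerSeries.coeff k Φ‖ ^ 2 * β k with hv
  have hu0 : 0 ≤ u := by positivity
  have hv0 : 0 ≤ v := by positivity
  apply le_of_sq_le_sq _ (by positivity)
  rw [h1]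
  nlinarith [sq_nonneg (u - v), mul_nonneg hu0 hv0]

theorem suff_C1 {β : ℕ → ℝ} (hso : SO β) (hβ : ∀ n, 0 < β n)
    (h2 : Summable (fun n : ℕ => (n : ℝ) ^ 2 / β n)) {Φ : PowerSeries ℂ} {φ : ℂ → ℂ}
    (hR : Rep Φ φ) (hm : ∀ z : ℂ, ‖z‖ < 1 → ‖φ z‖ < 1)
    (hφ : Summable (fun k : ℕ => ‖PowerSeries.coeff k Φ‖ ^ 2 * β k)) : ∃ M, Bd β Φ M := by
  have hder := summable_deriv hβ h2 hφ
  obtain ⟨C, hC, hsup⟩ := trunc_sup hR hm hder
  obtain ⟨K', ρ, hK', hρ0, hρ1, hoff⟩ := offdiag hR hm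
  obtain ⟨C1, hC1, htwo⟩ := hso.two hβ
  obtain ⟨J, hJ⟩ : ∃ J : ℕ, K' ≤ 2 ^ J := ⟨K', Nat.lt_two_pow_self.le⟩
  obtain ⟨B, hB, hcmp⟩ := weight_cmp hso hβ J
  set τ := Real.sqrt ρ with hτ
  have hτ0 : 0 < τ := Real.sqrt_pos.mpr hρ0
  have hτ2 : τ ^ 2 = ρ := Real.sq_sqrt hρ0.le
  have hτ1 : τ < 1 := by
    rw [hτ, Real.sqrt_lt' (by norm_num)]
    simpa using hρ1
  obtain ⟨V, hV, hVx⟩ := tail_const hβ (hso.low hβ) τ hτ0 hτ1
  -- the series `∑ β_k τ^(2k)`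
  obtain ⟨Cu, hCu, hup⟩ := hso.up hβ (τ⁻¹) (by rw [one_lt_inv₀ hτ0]; exact hτ1)
  have hQs : Summable (fun k : ℕ => (τ ^ k) ^ 2 * β k) := by
    have h3 : Summable (fun k : ℕ => Cu * τ ^ k) :=
      (summable_geometric_of_lt_one hτ0.le hτ1).mul_left Cu
    apply Summable.of_nonneg_of_le (fun k => by have := (hβ k).le; positivity) _ h3
    intro k
    calc (τ ^ k) ^ 2 * β k ≤ (τ ^ k) ^ 2 * (Cu * (τ⁻¹) ^ k) := by
          apply mul_le_mul_of_nonneg_left (hup k) (by positivity)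
      _ = Cu * τ ^ k * (τ ^ k * (τ⁻¹) ^ k) := by ring
      _ = Cu * τ ^ k := by rw [← mul_pow, mul_inv_cancel₀ hτ0.ne']; simp
  set Q := ∑' k : ℕ, (τ ^ k) ^ 2 * β k with hQ
  have hQ0 : 0 ≤ Q := tsum_nonneg (fun k => by have := (hβ k).le; positivity)
  set σ := ∑' n : ℕ, (n : ℝ) ^ 2 / β n with hσ
  have hσ0 : 0 ≤ σ := tsum_nonneg (fun k => by have := (hβ k).le; positivity)
  set F := ∑' k : ℕ, ‖PowerSeries.coeff k Φ‖ ^ 2 * β k with hF
  have hF0 : 0 ≤ F := tsum_nonneg (fun k => by have := (hβ k).le; positivity)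
  set b := ‖PowerSeries.coeff 0 Φ‖ with hb
  have hφ0 : PowerSeries.coeff 0 Φ = φ 0 := by
    have h3 := (hR 0 (by simp)).tsum_eq
    rw [tsum_eq_single 0] at h3
    · simpa using h3
    · intro k hk
      rw [zero_pow hk, mul_zero]
  have hb0 : 0 ≤ b := norm_nonneg _
  have hb1 : b < 1 := by rw [hb, hφ0]; exact hm 0 (by simp)
  set A := (1 + b) / (1 - b) with hA
  have hA0 : 0 ≤ A := div_nonneg (by linarith) (by linarith)
  set E2 := (Real.exp (2 * C)) ^ 2 with hE2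
  have hE20 : 0 ≤ E2 := by positivity
  set M1 := 2 * (E2 * σ * (Real.exp 4 * (C1 * F))) + 2 * (A * (E2 * C1)) with hM1
  have hβ0 := hβ 0
  refine ⟨(2 * (2 * B * M1) + 2 * (Q * V)) + β 0 * (2 / β 0 + 2 * V), ?_⟩
  intro x L K
  set S := ∑ n ∈ range L, ‖x n‖ ^ 2 * β n with hS
  have hS0 : 0 ≤ S := Finset.sum_nonneg (fun i _ => by have := (hβ i).le; positivity)
  set y : ℕ → ℂ := fun n => if n < L then x n else 0 with hy
  have hy0 : ∀ n, L ≤ n → y n = 0 := by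
    intro n hn; rw [hy]; simp only; rw [if_neg (by omega)]
  have hy1 : ∀ n, n < L → y n = x n := by
    intro n hn; rw [hy]; simp only; rw [if_pos hn]
  have hyS : ∀ s : Finset ℕ, ∑ n ∈ s, ‖y n‖ ^ 2 * β n ≤ S := by
    intro s
    have h6 : ∑ n ∈ s, ‖y n‖ ^ 2 * β n = ∑ n ∈ s.filter (fun n => n < L), ‖x n‖ ^ 2 * β n := by
      rw [Finset.sum_filter]
      apply Finset.sum_congr rfl
      intro n _
      split_ifs with h
      · rw [hy1 n h]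
      · rw [hy0 n (by omega)]; simp
    rw [h6]
    apply Finset.sum_le_sum_of_subset_of_nonneg
    · intro n hn
      simp only [Finset.mem_filter, Finset.mem_range] at hn ⊢
      exact hn.2
    · intro n _ _
      have := (hβ n).le
      positivity
  set Λ := L + K with hΛ
  have hΛL : L ≤ 2 ^ Λ := le_trans (Nat.le_add_right L K) Nat.lt_two_pow_self.le
  have hΛK : K ≤ 2 ^ Λ := le_trans (Nat.le_add_left K L) Nat.lt_two_pow_self.le
  -- the telescoping sum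
  set g : ℕ → ℕ → ℂ := fun l k => ∑ n ∈ range (2 ^ l), y n * ((At Φ (2 ^ l)) ^ n).coeff k with hg
  set u : ℕ → ℕ → ℂ := fun l k => ∑ n ∈ range (2 ^ (l + 1)), y n * (((At Φ (2 ^ (l + 1))) ^ n).coeff k
        - ((At Φ (2 ^ l)) ^ n).coeff k) with hu
  set w : ℕ → ℕ → ℂ := fun l k => ∑ n ∈ Ico (2 ^ l) (2 ^ (l + 1)), y n * ((At Φ (2 ^ l)) ^ n).coeff k
    with hw
  set t : ℕ → ℕ → ℂ := fun l k => u l k + w l k with ht
  have hle : ∀ l : ℕ, 2 ^ l ≤ 2 ^ (l + 1) := fun l => Nat.pow_le_pow_right (by norm_num) (Nat.le_succ l)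
  have hstep : ∀ l k, g (l + 1) k - g l k = t l k := by
    intro l k
    simp only [hg, ht, hu, hw]
    rw [Finset.sum_Ico_eq_sub _ (hle l)]
    have h3 : ∑ n ∈ range (2 ^ (l + 1)), y n * (((At Φ (2 ^ (l + 1))) ^ n).coeff k
        - ((At Φ (2 ^ l)) ^ n).coeff k) = ∑ n ∈ range (2 ^ (l + 1)), y n * ((At Φ (2 ^ (l + 1))) ^ n).coeff k
        - ∑ n ∈ range (2 ^ (l + 1)), y n * ((At Φ (2 ^ l)) ^ n).coeff k := by
      rw [← Finset.sum_sub_distrib]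
      apply Finset.sum_congr rfl
      intro n _
      ring
    rw [h3]
    ring
  have hg0 : ∀ k, 1 ≤ k → g 0 k = 0 := by
    intro k hk
    simp only [hg, pow_zero, Finset.range_one, Finset.sum_singleton]
    rw [Polynomial.coeff_one, if_neg (by omega), mul_zero]
  have hcoef : ∀ k, 1 ≤ k → k < K → ∑ n ∈ range L, x n * PowerSeries.coeff k (Φ ^ n)
      = ∑ l ∈ range Λ, t l k := by
    intro k hk1 hkK
    have h3 : ∑ l ∈ range Λ, t l k = g Λ k - g 0 k := by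
      rw [← Finset.sum_range_sub (fun l => g l k) Λ]
      apply Finset.sum_congr rfl
      intro l _
      rw [← hstep]
    rw [h3, hg0 k hk1, sub_zero]
    simp only [hg]
    have h4 : ∑ n ∈ range (2 ^ Λ), y n * ((At Φ (2 ^ Λ)) ^ n).coeff k
        = ∑ n ∈ range (2 ^ Λ), y n * PowerSeries.coeff k (Φ ^ n) := by
      apply Finset.sum_congr rfl
      intro n _
      rw [At_pow_coeff Φ _ n k (lt_of_lt_of_le hkK hΛK)]
    rw [h4]
    symm
    rw [← Finset.sum_subset (s₁ := range L) (s₂ := range (2 ^ Λ))]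
    · apply Finset.sum_congr rfl
      intro n hn
      rw [hy1 n (Finset.mem_range.mp hn)]
    · intro n hn
      rw [Finset.mem_range] at hn ⊢
      omega
    · intro n _ hn
      rw [hy0 n (by rw [Finset.mem_range] at hn; omega), zero_mul]
  -- energy bounds
  set e : ℕ → ℝ := fun l => 2 * (E2 * (σ * S) * (Real.exp 4 * (C1 * ∑ k ∈ Ico (2 ^ l) (2 ^ (l + 1)),
      ‖PowerSeries.coeff k Φ‖ ^ 2 * β k)))
    + 2 * (A * (E2 * (C1 * ∑ n ∈ Ico (2 ^ l) (2 ^ (l + 1)), ‖y n‖ ^ 2 * β n))) with he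
  have hblock : ∀ (l : ℕ) (f : ℕ → ℝ), (∀ n, 0 ≤ f n) → (∑ n ∈ Ico (2 ^ l) (2 ^ (l + 1)), f n) * β (2 ^ l)
      ≤ C1 * ∑ n ∈ Ico (2 ^ l) (2 ^ (l + 1)), f n * β n := by
    intro l f hf
    rw [Finset.sum_mul, Finset.mul_sum]
    apply Finset.sum_le_sum
    intro n hn
    rw [Finset.mem_Ico] at hn
    have h3 := htwo n (2 ^ l) (by rw [pow_succ] at hn; omega) (by omega)
    have h4 := hf n
    calc f n * β (2 ^ l) ≤ f n * (C1 * β n) := by gcongr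
      _ = C1 * (f n * β n) := by ring
  have hebd : ∀ l, ∑ k ∈ range K, ‖t l k‖ ^ 2 * ((1 + ((2 : ℝ) ^ l)⁻¹) ^ 2) ^ k * β (2 ^ l) ≤ e l := by
    intro l
    have hU := U_bound C hC hsup y l K
    have hW := W_bound C hC hsup b le_rfl hb1 y l K
    set r2 : ℝ := (1 + ((2 : ℝ) ^ l)⁻¹) ^ 2 with hr2
    have hr20 : 0 ≤ r2 := by positivity
    have hbl := hβ (2 ^ l)
    have h3 : ∑ k ∈ range K, ‖t l k‖ ^ 2 * r2 ^ k
        ≤ 2 * ∑ k ∈ range K, ‖u l k‖ ^ 2 * r2 ^ k + 2 * ∑ k ∈ range K, ‖w l k‖ ^ 2 * r2 ^ k := by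
      rw [Finset.mul_sum, Finset.mul_sum, ← Finset.sum_add_distrib]
      apply Finset.sum_le_sum
      intro k _
      have h4 : ‖t l k‖ ^ 2 ≤ 2 * ‖u l k‖ ^ 2 + 2 * ‖w l k‖ ^ 2 := by
        have h5 := norm_add_le (u l k) (w l k)
        have h6 : ‖t l k‖ ≤ ‖u l k‖ + ‖w l k‖ := h5
        have h7 := norm_nonneg (t l k)
        nlinarith [sq_nonneg (‖u l k‖ - ‖w l k‖)]
      calc ‖t l k‖ ^ 2 * r2 ^ k ≤ (2 * ‖u l k‖ ^ 2 + 2 * ‖w l k‖ ^ 2) * r2 ^ k := by gcongr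
        _ = 2 * (‖u l k‖ ^ 2 * r2 ^ k) + 2 * (‖w l k‖ ^ 2 * r2 ^ k) := by ring
    have hY : (∑ n ∈ range (2 ^ (l + 1)), (n : ℝ) * ‖y n‖) ^ 2 ≤ σ * S := by
      have h4 := cs_ineq (range (2 ^ (l + 1))) (fun n => ‖y n‖) (fun n => (n : ℝ)) β (fun i _ => hβ i)
      have h5 : ∑ n ∈ range (2 ^ (l + 1)), (n : ℝ) * ‖y n‖ = ∑ n ∈ range (2 ^ (l + 1)), ‖y n‖ * (n : ℝ) := by
        apply Finset.sum_congr rfl
        intro n _
        ring
      rw [h5, mul_comm σ S]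
      refine h4.trans ?_
      apply mul_le_mul (hyS _) _ (Finset.sum_nonneg (fun i _ => by have := (hβ i).le; positivity)) hS0
      exact h2.sum_le_tsum _ (fun n _ => by have := (hβ n).le; positivity)
    have hU2 : (∑ k ∈ range K, ‖u l k‖ ^ 2 * r2 ^ k) * β (2 ^ l)
        ≤ E2 * (σ * S) * (Real.exp 4 * (C1 * ∑ k ∈ Ico (2 ^ l) (2 ^ (l + 1)),
          ‖PowerSeries.coeff k Φ‖ ^ 2 * β k)) := by
      have h4 := hblock l (fun k => ‖PowerSeries.coeff k Φ‖ ^ 2) (fun _ => by positivity)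
      calc (∑ k ∈ range K, ‖u l k‖ ^ 2 * r2 ^ k) * β (2 ^ l)
          ≤ ((Real.exp (2 * C) * ∑ n ∈ range (2 ^ (l + 1)), (n : ℝ) * ‖y n‖) ^ 2
            * (Real.exp 4 * ∑ k ∈ Ico (2 ^ l) (2 ^ (l + 1)), ‖PowerSeries.coeff k Φ‖ ^ 2)) * β (2 ^ l) := by
            apply mul_le_mul_of_nonneg_right hU hbl.le
        _ = E2 * (∑ n ∈ range (2 ^ (l + 1)), (n : ℝ) * ‖y n‖) ^ 2
            * (Real.exp 4 * ((∑ k ∈ Ico (2 ^ l) (2 ^ (l + 1)), ‖PowerSeries.coeff k Φ‖ ^ 2) * β (2 ^ l))) := by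
            rw [hE2]; ring
        _ ≤ E2 * (σ * S) * (Real.exp 4 * (C1 * ∑ k ∈ Ico (2 ^ l) (2 ^ (l + 1)),
          ‖PowerSeries.coeff k Φ‖ ^ 2 * β k)) := by
            have h5 : 0 ≤ (∑ k ∈ Ico (2 ^ l) (2 ^ (l + 1)), ‖PowerSeries.coeff k Φ‖ ^ 2) * β (2 ^ l) := by
              positivity
            gcongr
    have hW2 : (∑ k ∈ range K, ‖w l k‖ ^ 2 * r2 ^ k) * β (2 ^ l)
        ≤ A * (E2 * (C1 * ∑ n ∈ Ico (2 ^ l) (2 ^ (l + 1)), ‖y n‖ ^ 2 * β n)) := by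
      have h4 := hblock l (fun n => ‖y n‖ ^ 2) (fun _ => by positivity)
      calc (∑ k ∈ range K, ‖w l k‖ ^ 2 * r2 ^ k) * β (2 ^ l)
          ≤ (A * (E2 * ∑ n ∈ Ico (2 ^ l) (2 ^ (l + 1)), ‖y n‖ ^ 2)) * β (2 ^ l) := by
            apply mul_le_mul_of_nonneg_right hW hbl.le
        _ = A * (E2 * ((∑ n ∈ Ico (2 ^ l) (2 ^ (l + 1)), ‖y n‖ ^ 2) * β (2 ^ l))) := by ring
        _ ≤ A * (E2 * (C1 * ∑ n ∈ Ico (2 ^ l) (2 ^ (l + 1)), ‖y n‖ ^ 2 * β n)) := by gcongr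
    rw [← Finset.sum_mul]
    calc (∑ k ∈ range K, ‖t l k‖ ^ 2 * r2 ^ k) * β (2 ^ l)
        ≤ (2 * ∑ k ∈ range K, ‖u l k‖ ^ 2 * r2 ^ k + 2 * ∑ k ∈ range K, ‖w l k‖ ^ 2 * r2 ^ k) * β (2 ^ l) := by
          apply mul_le_mul_of_nonneg_right h3 hbl.le
      _ = 2 * ((∑ k ∈ range K, ‖u l k‖ ^ 2 * r2 ^ k) * β (2 ^ l))
          + 2 * ((∑ k ∈ range K, ‖w l k‖ ^ 2 * r2 ^ k) * β (2 ^ l)) := by ring
      _ ≤ e l := by
          rw [he]
          simp only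
          linarith
  have hesum : ∑ l ∈ range Λ, e l ≤ M1 * S := by
    have h3 : ∑ l ∈ range Λ, e l = 2 * (E2 * (σ * S) * (Real.exp 4 * (C1 * ∑ k ∈ Ico 1 (2 ^ Λ),
        ‖PowerSeries.coeff k Φ‖ ^ 2 * β k))) + 2 * (A * (E2 * (C1 * ∑ n ∈ Ico 1 (2 ^ Λ), ‖y n‖ ^ 2 * β n))) := by
      rw [← dyadic_sum, ← dyadic_sum, he]
      simp only
      rw [Finset.sum_add_distrib]
      simp only [← Finset.mul_sum]
    rw [h3]
    have h4 : ∑ k ∈ Ico 1 (2 ^ Λ), ‖PowerSeries.coeff k Φ‖ ^ 2 * β k ≤ F :=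
      hφ.sum_le_tsum _ (fun n _ => by have := (hβ n).le; positivity)
    have h5 := hyS (Ico 1 (2 ^ Λ))
    calc _ ≤ 2 * (E2 * (σ * S) * (Real.exp 4 * (C1 * F))) + 2 * (A * (E2 * (C1 * S))) := by gcongr
      _ = M1 * S := by rw [hM1]; ring
  have hnear := near_part hβ J B hB hcmp t Λ K e hebd
  -- far part
  set Z := ∑ n ∈ Ico 1 (2 ^ Λ), ‖y n‖ * τ ^ n with hZ
  have hZ0 : 0 ≤ Z := Finset.sum_nonneg (fun _ _ => by positivity)
  have hZ2 : Z ^ 2 ≤ V * S := by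
    have h3 := hVx y (2 ^ Λ)
    have h4 : Z ≤ ∑ n ∈ range (2 ^ Λ), ‖y n‖ * ((n : ℝ) * τ ^ n) := by
      calc Z ≤ ∑ n ∈ Ico 1 (2 ^ Λ), ‖y n‖ * ((n : ℝ) * τ ^ n) := by
            apply Finset.sum_le_sum
            intro n hn
            rw [Finset.mem_Ico] at hn
            have h5 : (1 : ℝ) ≤ n := by exact_mod_cast hn.1
            apply mul_le_mul_of_nonneg_left _ (norm_nonneg _)
            exact le_mul_of_one_le_left (by positivity) h5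
        _ ≤ ∑ n ∈ range (2 ^ Λ), ‖y n‖ * ((n : ℝ) * τ ^ n) := by
            apply Finset.sum_le_sum_of_subset_of_nonneg
            · intro n hn
              rw [Finset.mem_Ico] at hn
              rw [Finset.mem_range]
              exact hn.2
            · intros; positivity
    calc Z ^ 2 ≤ (∑ n ∈ range (2 ^ Λ), ‖y n‖ * ((n : ℝ) * τ ^ n)) ^ 2 := pow_le_pow_left₀ hZ0 h4 2
      _ ≤ V * ∑ n ∈ range (2 ^ Λ), ‖y n‖ ^ 2 * β n := h3
      _ ≤ V * S := mul_le_mul_of_nonneg_left (hyS _) hV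
  have hfar : ∀ k, 1 ≤ k → k < K →
      ‖∑ l ∈ (range Λ).filter (fun l => ¬ l ≤ Nat.log 2 k + J), t l k‖ ≤ τ ^ k * Z := by
    intro k hk1 hkK
    have hki2 : k < 2 ^ (Nat.log 2 k + 1) := Nat.lt_pow_succ_log_self (by norm_num) k
    have h3 : ∀ l ∈ (range Λ).filter (fun l => ¬ l ≤ Nat.log 2 k + J),
        ‖t l k‖ ≤ ∑ n ∈ Ico (2 ^ l) (2 ^ (l + 1)), τ ^ k * (‖y n‖ * τ ^ n) := by
      intro l hl
      rw [Finset.mem_filter] at hl
      have hl2 : Nat.log 2 k + J + 1 ≤ l := by omega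
      have hkl : 2 ^ J * k ≤ 2 ^ l := by
        calc 2 ^ J * k ≤ 2 ^ J * 2 ^ (Nat.log 2 k + 1) := Nat.mul_le_mul_left _ hki2.le
          _ = 2 ^ (Nat.log 2 k + J + 1) := by rw [← pow_add]; congr 1; omega
          _ ≤ 2 ^ l := Nat.pow_le_pow_right (by norm_num) hl2
      have hkl2 : k < 2 ^ l := by
        calc k < 2 ^ (Nat.log 2 k + 1) := hki2
          _ ≤ 2 ^ l := Nat.pow_le_pow_right (by norm_num) (by omega)
      have hu0 : u l k = 0 := by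
        simp only [hu]
        apply Finset.sum_eq_zero
        intro n _
        rw [At_pow_coeff Φ _ n k hkl2, At_pow_coeff Φ _ n k (lt_of_lt_of_le hkl2 (hle l)), sub_self,
          mul_zero]
      simp only [ht]
      rw [hu0, zero_add]
      simp only [hw]
      refine (norm_sum_le _ _).trans ?_
      apply Finset.sum_le_sum
      intro n hn
      rw [Finset.mem_Ico] at hn
      rw [norm_mul, At_pow_coeff Φ _ n k hkl2]
      have h4 : ‖PowerSeries.coeff k (Φ ^ n)‖ ≤ ρ ^ n := by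
        apply hoff
        calc K' * k ≤ 2 ^ J * k := Nat.mul_le_mul_right k hJ
          _ ≤ 2 ^ l := hkl
          _ ≤ n := hn.1
      have h5 : ρ ^ n ≤ τ ^ k * τ ^ n := by
        rw [← hτ2, ← pow_mul, two_mul, pow_add]
        apply mul_le_mul_of_nonneg_right _ (by positivity)
        exact pow_le_pow_of_le_one hτ0.le hτ1.le (by omega)
      calc ‖y n‖ * ‖PowerSeries.coeff k (Φ ^ n)‖ ≤ ‖y n‖ * (τ ^ k * τ ^ n) := by
            apply mul_le_mul_of_nonneg_left (h4.trans h5) (norm_nonneg _)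
        _ = τ ^ k * (‖y n‖ * τ ^ n) := by ring
    calc ‖∑ l ∈ (range Λ).filter (fun l => ¬ l ≤ Nat.log 2 k + J), t l k‖
        ≤ ∑ l ∈ (range Λ).filter (fun l => ¬ l ≤ Nat.log 2 k + J), ‖t l k‖ := norm_sum_le _ _
      _ ≤ ∑ l ∈ (range Λ).filter (fun l => ¬ l ≤ Nat.log 2 k + J),
          ∑ n ∈ Ico (2 ^ l) (2 ^ (l + 1)), τ ^ k * (‖y n‖ * τ ^ n) := Finset.sum_le_sum h3
      _ ≤ ∑ l ∈ range Λ, ∑ n ∈ Ico (2 ^ l) (2 ^ (l + 1)), τ ^ k * (‖y n‖ * τ ^ n) := by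
          apply Finset.sum_le_sum_of_subset_of_nonneg (Finset.filter_subset _ _)
          intro l _ _
          exact Finset.sum_nonneg (fun _ _ => by positivity)
      _ = τ ^ k * Z := by
          rw [dyadic_sum (fun n => τ ^ k * (‖y n‖ * τ ^ n)), hZ, Finset.mul_sum]
  -- outputs `k ≥ 1`
  have hmain : ∑ k ∈ Ico 1 K, ‖∑ n ∈ range L, x n * PowerSeries.coeff k (Φ ^ n)‖ ^ 2 * β k
      ≤ (2 * (2 * B * M1) + 2 * (Q * V)) * S := by
    have h3 : ∀ k ∈ Ico 1 K, ‖∑ n ∈ range L, x n * PowerSeries.coeff k (Φ ^ n)‖ ^ 2 * β k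
        ≤ 2 * (‖∑ l ∈ (range Λ).filter (fun l => l ≤ Nat.log 2 k + J), t l k‖ ^ 2 * β k)
          + 2 * (Z ^ 2 * ((τ ^ k) ^ 2 * β k)) := by
      intro k hk
      rw [Finset.mem_Ico] at hk
      have hbk := hβ k
      rw [hcoef k hk.1 hk.2, ← Finset.sum_filter_add_sum_filter_not (range Λ)
        (fun l => l ≤ Nat.log 2 k + J)]
      have h4 := hfar k hk.1 hk.2
      set a1 := ∑ l ∈ (range Λ).filter (fun l => l ≤ Nat.log 2 k + J), t l k
      set a2 := ∑ l ∈ (range Λ).filter (fun l => ¬ l ≤ Nat.log 2 k + J), t l k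
      have h5 : ‖a1 + a2‖ ^ 2 ≤ 2 * ‖a1‖ ^ 2 + 2 * (τ ^ k * Z) ^ 2 := by
        have h6 := norm_add_le a1 a2
        have h7 : ‖a1 + a2‖ ^ 2 ≤ (‖a1‖ + ‖a2‖) ^ 2 := pow_le_pow_left₀ (norm_nonneg _) h6 2
        have h8 : ‖a2‖ ^ 2 ≤ (τ ^ k * Z) ^ 2 := pow_le_pow_left₀ (norm_nonneg _) h4 2
        nlinarith [sq_nonneg (‖a1‖ - ‖a2‖)]
      calc ‖a1 + a2‖ ^ 2 * β k ≤ (2 * ‖a1‖ ^ 2 + 2 * (τ ^ k * Z) ^ 2) * β k := by gcongr
        _ = 2 * (‖a1‖ ^ 2 * β k) + 2 * (Z ^ 2 * ((τ ^ k) ^ 2 * β k)) := by ring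
    have h4 : ∑ k ∈ Ico 1 K, (τ ^ k) ^ 2 * β k ≤ Q :=
      hQs.sum_le_tsum _ (fun n _ => by have := (hβ n).le; positivity)
    calc ∑ k ∈ Ico 1 K, ‖∑ n ∈ range L, x n * PowerSeries.coeff k (Φ ^ n)‖ ^ 2 * β k
        ≤ ∑ k ∈ Ico 1 K, (2 * (‖∑ l ∈ (range Λ).filter (fun l => l ≤ Nat.log 2 k + J), t l k‖ ^ 2 * β k)
          + 2 * (Z ^ 2 * ((τ ^ k) ^ 2 * β k))) := Finset.sum_le_sum h3
      _ = 2 * ∑ k ∈ Ico 1 K, ‖∑ l ∈ (range Λ).filter (fun l => l ≤ Nat.log 2 k + J), t l k‖ ^ 2 * β k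
          + 2 * (Z ^ 2 * ∑ k ∈ Ico 1 K, (τ ^ k) ^ 2 * β k) := by
          rw [Finset.sum_add_distrib, ← Finset.mul_sum, ← Finset.mul_sum, ← Finset.mul_sum]
      _ ≤ 2 * (2 * B * (M1 * S)) + 2 * ((V * S) * Q) := by
          have h5 : ∑ k ∈ Ico 1 K, ‖∑ l ∈ (range Λ).filter (fun l => l ≤ Nat.log 2 k + J), t l k‖ ^ 2 * β k
              ≤ 2 * B * (M1 * S) := hnear.trans (mul_le_mul_of_nonneg_left hesum (by positivity))
          have h6 : 0 ≤ ∑ k ∈ Ico 1 K, (τ ^ k) ^ 2 * β k :=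
            Finset.sum_nonneg (fun n _ => by have := (hβ n).le; positivity)
          gcongr
      _ = (2 * (2 * B * M1) + 2 * (Q * V)) * S := by ring
  -- output `k = 0`
  have hzero : ‖∑ n ∈ range L, x n * PowerSeries.coeff 0 (Φ ^ n)‖ ^ 2 * β 0
      ≤ β 0 * (2 / β 0 + 2 * V) * S := by
    rcases Nat.eq_zero_or_pos L with hL | hL
    · subst hL
      simp only [Finset.range_zero, Finset.sum_empty, norm_zero]
      have h3 : 0 ≤ β 0 * (2 / β 0 + 2 * V) * S := by positivity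
      simpa using h3
    · have h3 : ‖∑ n ∈ range L, x n * PowerSeries.coeff 0 (Φ ^ n)‖
          ≤ ‖x 0‖ + ∑ n ∈ range L, ‖x n‖ * ((n : ℝ) * τ ^ n) := by
        refine (norm_sum_le _ _).trans ?_
        have h4 : ∀ n ∈ range L, ‖x n * PowerSeries.coeff 0 (Φ ^ n)‖
            ≤ (if n = 0 then ‖x 0‖ else 0) + ‖x n‖ * ((n : ℝ) * τ ^ n) := by
          intro n _
          rw [norm_mul]
          have h5 := hoff n 0 (by simp)
          by_cases hn : n = 0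
          · subst hn
            simp
          · rw [if_neg hn, zero_add]
            apply mul_le_mul_of_nonneg_left _ (norm_nonneg _)
            refine h5.trans ?_
            have h6 : (1 : ℝ) ≤ n := by
              have : 1 ≤ n := Nat.one_le_iff_ne_zero.mpr hn
              exact_mod_cast this
            have h7 : ρ ^ n ≤ τ ^ n := by
              apply pow_le_pow_left₀ hρ0.le
              rw [← hτ2]
              nlinarith
            calc ρ ^ n ≤ τ ^ n := h7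
              _ ≤ (n : ℝ) * τ ^ n := le_mul_of_one_le_left (by positivity) h6
        refine (Finset.sum_le_sum h4).trans ?_
        rw [Finset.sum_add_distrib, Finset.sum_ite_eq' (range L) 0 (fun _ => ‖x 0‖),
          if_pos (Finset.mem_range.mpr hL)]
      have h4 := hVx x L
      have h5 : ‖x 0‖ ^ 2 ≤ S / β 0 := by
        rw [le_div_iff₀ hβ0]
        exact Finset.single_le_sum (f := fun n => ‖x n‖ ^ 2 * β n)
          (fun i _ => by have := (hβ i).le; positivity) (Finset.mem_range.mpr hL)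
      set W := ∑ n ∈ range L, ‖x n‖ * ((n : ℝ) * τ ^ n) with hW
      have hW0 : 0 ≤ W := Finset.sum_nonneg (fun _ _ => by positivity)
      have h6 : ‖∑ n ∈ range L, x n * PowerSeries.coeff 0 (Φ ^ n)‖ ^ 2 ≤ 2 * (S / β 0) + 2 * (V * S) := by
        have h7 : ‖∑ n ∈ range L, x n * PowerSeries.coeff 0 (Φ ^ n)‖ ^ 2 ≤ (‖x 0‖ + W) ^ 2 :=
          pow_le_pow_left₀ (norm_nonneg _) h3 2
        nlinarith [sq_nonneg (‖x 0‖ - W)]
      calc ‖∑ n ∈ range L, x n * PowerSeries.coeff 0 (Φ ^ n)‖ ^ 2 * β 0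
          ≤ (2 * (S / β 0) + 2 * (V * S)) * β 0 := by gcongr
        _ = β 0 * (2 / β 0 + 2 * V) * S := by ring
  rcases Nat.eq_zero_or_pos K with hK | hK
  · subst hK
    simp only [Finset.range_zero, Finset.sum_empty]
    have hM10 : 0 ≤ M1 := by positivity
    positivity
  · rw [Finset.range_eq_Ico, Finset.sum_eq_sum_Ico_succ_bot hK]
    have h3 := add_le_add hzero hmain
    refine h3.trans (le_of_eq ?_)
    ring

end Pool.Agent.Helper76.Zp
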