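import Pool.Agent.Helper76.Z8

set_option autoImplicit false
open Complex Filter Topology Metric
open Finset (range Ico)

namespace Pool.Agent.Helper76.Zp
open Pool.Agent.Helper76.Hardy

/-- property (Z), internal form -/
def PZ (β : ℕ → ℝ) : Prop := ∀ (Φ : PowerSeries ℂ) (φ : ℂ → ℂ), Rep Φ φ →
  (∀ z : ℂ, ‖z‖ < 1 → ‖φ z‖ < 1) → (∃ z w : ℂ, ‖z‖ < 1 ∧ ‖w‖ < 1 ∧ φ z ≠ φ w) →
  Summable (fun k : ℕ => ‖PowerSeries.coeff k Φ‖ ^ 2 * β k) → ∃ M, Bd β Φ M

section
variable {β : ℕ → ℝ}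

lemma Bd.one_le (hβ : ∀ n, 0 < β n) {Φ : PowerSeries ℂ} {M : ℝ} (h : Bd β Φ M) : 1 ≤ M := by
  have h1 := h (fun _ => 1) 1 1
  simp only [Finset.range_one, Finset.sum_singleton, pow_zero, one_mul, PowerSeries.coeff_zero_eq_constantCoeff,
    map_one, norm_one, one_pow] at h1
  have h2 := hβ 0
  nlinarith

lemma Bd.mono (hβ : ∀ n, 0 < β n) {Φ : PowerSeries ℂ} {M M' : ℝ} (h : Bd β Φ M) (hM : M ≤ M') : Bd β Φ M' := by
  intro x N K
  refine (h x N K).trans ?_
  apply mul_le_mul_of_nonneg_right hM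
  exact Finset.sum_nonneg (fun i _ => by have := (hβ i).le; positivity)

/-- Baire category: uniform bounds on a ball -/
lemma baire {E : Type} [MetricSpace E] [CompleteSpace E] [Nonempty E] (P : E → PowerSeries ℂ)
    (hc : ∀ n k : ℕ, Continuous (fun e => PowerSeries.coeff k (P e ^ n)))
    (h : ∀ e, ∃ M, Bd β (P e) M) (hβ : ∀ n, 0 < β n) :
    ∃ (e0 : E) (ε : ℝ) (M : ℝ), 0 < ε ∧ ∀ e ∈ ball e0 ε, Bd β (P e) M := by
  set F : ℕ → Set E := fun j => {e | Bd β (P e) (j : ℝ)} with hF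
  have hcl : ∀ j, IsClosed (F j) := by
    intro j
    have h1 : F j = ⋂ (x : ℕ → ℂ), ⋂ (N : ℕ), ⋂ (K : ℕ), {e | ∑ k ∈ range K,
        ‖∑ n ∈ range N, x n * PowerSeries.coeff k (P e ^ n)‖ ^ 2 * β k
        ≤ (j : ℝ) * ∑ n ∈ range N, ‖x n‖ ^ 2 * β n} := by
      ext e
      simp only [hF, Set.mem_ofPred_eq, Set.mem_iInter]
      rfl
    rw [h1]
    apply isClosed_iInter; intro x
    apply isClosed_iInter; intro N
    apply isClosed_iInter; intro K
    apply isClosed_le _ continuous_const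
    apply continuous_finsetSum
    intro k _
    apply Continuous.mul _ continuous_const
    apply Continuous.pow
    apply Continuous.norm
    apply continuous_finsetSum
    intro n _
    exact continuous_const.mul (hc n k)
  have hun : ⋃ j, F j = Set.univ := by
    rw [Set.eq_univ_iff_forall]
    intro e
    obtain ⟨M, hM⟩ := h e
    obtain ⟨j, hj⟩ := exists_nat_ge M
    exact Set.mem_iUnion.mpr ⟨j, hM.mono hβ hj⟩
  obtain ⟨j, e0, he0⟩ := nonempty_interior_of_iUnion_of_closed hcl hun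
  rw [mem_interior_iff_mem_nhds, Metric.mem_nhds_iff] at he0
  obtain ⟨ε, hε, hb⟩ := he0
  exact ⟨e0, ε, j, hε, fun e he => hb he⟩

/-- real coefficient series seen as complex ones -/
noncomputable def cx (P : PowerSeries ℝ) : PowerSeries ℂ := PowerSeries.map Complex.ofRealHom P

lemma cx_coeff (P : PowerSeries ℝ) (n k : ℕ) :
    PowerSeries.coeff k ((cx P) ^ n) = ((PowerSeries.coeff k (P ^ n) : ℝ) : ℂ) := by
  unfold cx
  rw [← map_pow, PowerSeries.coeff_map]
  rfl

lemma cx_coeff1 (P : PowerSeries ℝ) (k : ℕ) :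
    PowerSeries.coeff k (cx P) = ((PowerSeries.coeff k P : ℝ) : ℂ) := by
  have := cx_coeff P 1 k
  simpa using this

/-- real form of the bound -/
lemma Bd.real {P : PowerSeries ℝ} {M : ℝ} (h : Bd β (cx P) M) (x : ℕ → ℝ) (N K : ℕ) :
    ∑ k ∈ range K, (∑ n ∈ range N, x n * PowerSeries.coeff k (P ^ n)) ^ 2 * β k
      ≤ M * ∑ n ∈ range N, x n ^ 2 * β n := by
  have h1 := h (fun n => (x n : ℂ)) N K
  have h2 : ∀ k, ‖∑ n ∈ range N, (x n : ℂ) * PowerSeries.coeff k ((cx P) ^ n)‖ ^ 2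
      = (∑ n ∈ range N, x n * PowerSeries.coeff k (P ^ n)) ^ 2 := by
    intro k
    have h3 : ∑ n ∈ range N, (x n : ℂ) * PowerSeries.coeff k ((cx P) ^ n)
        = ((∑ n ∈ range N, x n * PowerSeries.coeff k (P ^ n) : ℝ) : ℂ) := by
      push_cast
      apply Finset.sum_congr rfl
      intro n _
      rw [cx_coeff]
    rw [h3, Complex.norm_real, Real.norm_eq_abs, sq_abs]
  simp only [h2, Complex.norm_real, Real.norm_eq_abs, sq_abs] at h1
  exact h1

/-- single power test -/
lemma Bd.single {P : PowerSeries ℝ} {M : ℝ} (h : Bd β (cx P) M) (n K : ℕ) :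
    ∑ k ∈ range K, (PowerSeries.coeff k (P ^ n)) ^ 2 * β k ≤ M * β n := by
  have h1 := h.real (fun j => if j = n then 1 else 0) (n + 1) K
  have h2 : ∀ k, ∑ j ∈ range (n + 1), (if j = n then (1 : ℝ) else 0) * PowerSeries.coeff k (P ^ j)
      = PowerSeries.coeff k (P ^ n) := by
    intro k
    rw [Finset.sum_eq_single n]
    · simp
    · intro j _ hj
      rw [if_neg hj, zero_mul]
    · intro hn
      exact absurd (Finset.self_mem_range_succ n) hn
  have h3 : ∑ j ∈ range (n + 1), (if j = n then (1 : ℝ) else 0) ^ 2 * β j = β n := by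
    rw [Finset.sum_eq_single n]
    · simp
    · intro j _ hj
      rw [if_neg hj]; simp
    · intro hn
      exact absurd (Finset.self_mem_range_succ n) hn
  simp only [h2, h3] at h1
  exact h1

lemma Bd.entry (hβ : ∀ n, 0 < β n) {P : PowerSeries ℝ} {M : ℝ} (h : Bd β (cx P) M) (n k : ℕ) :
    (PowerSeries.coeff k (P ^ n)) ^ 2 * β k ≤ M * β n := by
  refine le_trans ?_ (h.single n (k + 1))
  exact Finset.single_le_sum (f := fun k => (PowerSeries.coeff k (P ^ n)) ^ 2 * β k)
    (fun i _ => by have := (hβ i).le; positivity) (Finset.self_mem_range_succ k)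

/-- nonnegative coefficients with total mass one define symbols -/
lemma sym_nonneg (p : ℕ → ℝ) (hp : ∀ k, 0 ≤ p k) (hs : HasSum p 1) (k0 : ℕ) (hk0 : 1 ≤ k0)
    (hpk : 0 < p k0) : ∃ φ : ℂ → ℂ, Rep (cx (PowerSeries.mk p)) φ ∧
      (∀ z : ℂ, ‖z‖ < 1 → ‖φ z‖ < 1) ∧ (∃ z w : ℂ, ‖z‖ < 1 ∧ ‖w‖ < 1 ∧ φ z ≠ φ w) := by
  set φ : ℂ → ℂ := fun z => ∑' k, (p k : ℂ) * z ^ k with hφ
  have hsn : ∀ z : ℂ, ‖z‖ ≤ 1 → Summable (fun k => (p k : ℂ) * z ^ k) := by
    intro z hz
    apply Summable.of_norm_bounded hs.summable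
    intro k
    rw [norm_mul, norm_pow, Complex.norm_real, Real.norm_of_nonneg (hp k)]
    exact mul_le_of_le_one_right (hp k) (pow_le_one₀ (norm_nonneg _) hz)
  have hR : Rep (cx (PowerSeries.mk p)) φ := by
    intro z hz
    have h1 := (hsn z hz.le).hasSum
    simpa [cx_coeff1] using h1
  refine ⟨φ, hR, ?_, ?_⟩
  · intro z hz
    have h1 : ‖φ z‖ ≤ ∑' k, p k * ‖z‖ ^ k := by
      have h2 : Summable (fun k => p k * ‖z‖ ^ k) := by
        apply Summable.of_nonneg_of_le (fun k => by have := hp k; positivity) _ hs.summable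
        intro k
        exact mul_le_of_le_one_right (hp k) (pow_le_one₀ (norm_nonneg _) hz.le)
      apply tsum_of_norm_bounded h2.hasSum
      intro k
      rw [norm_mul, norm_pow, Complex.norm_real, Real.norm_of_nonneg (hp k)]
    refine h1.trans_lt ?_
    rw [← hs.tsum_eq]
    have h2 : Summable (fun k => p k * ‖z‖ ^ k) := by
      apply Summable.of_nonneg_of_le (fun k => by have := hp k; positivity) _ hs.summable
      intro k
      exact mul_le_of_le_one_right (hp k) (pow_le_one₀ (norm_nonneg _) hz.le)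
    apply h2.tsum_lt_tsum (i := k0) _ _ hs.summable
    · intro k
      exact mul_le_of_le_one_right (hp k) (pow_le_one₀ (norm_nonneg _) hz.le)
    · have h3 : ‖z‖ ^ k0 < 1 := pow_lt_one₀ (norm_nonneg _) hz (by omega)
      nlinarith
  · refine ⟨0, 1 / 2, by simp, by norm_num, ?_⟩
    have h0 : φ 0 = (p 0 : ℂ) := by
      rw [hφ]
      simp only
      rw [tsum_eq_single 0]
      · simp
      · intro k hk
        rw [zero_pow hk, mul_zero]
    have h1 : φ (1 / 2) = ((∑' k, p k * (1 / 2) ^ k : ℝ) : ℂ) := by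
      rw [hφ]
      simp only
      rw [Complex.ofReal_tsum]
      apply tsum_congr
      intro k
      push_cast
      rfl
    rw [h0, h1]
    intro h2
    have h3 : p 0 = ∑' k, p k * (1 / 2) ^ k := by exact_mod_cast h2
    have h4 : Summable (fun k => p k * (1 / 2 : ℝ) ^ k) := by
      apply Summable.of_nonneg_of_le (fun k => by have := hp k; positivity) _ hs.summable
      intro k
      exact mul_le_of_le_one_right (hp k) (pow_le_one₀ (by norm_num) (by norm_num))
    have h5 := h4.sum_le_tsum ({0, k0} : Finset ℕ) (fun k _ => by have := hp k; positivity)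
    rw [Finset.sum_pair (by omega), ← h3] at h5
    have h6 : 0 < p k0 * (1 / 2) ^ k0 := by positivity
    simp at h5
    have h7 : p k0 * (2 ^ k0)⁻¹ = p k0 * (1 / 2) ^ k0 := by
      rw [one_div, inv_pow]
    rw [h7] at h5
    linarith

lemma PZ.nonneg (hZ : PZ β) (p : ℕ → ℝ) (hp : ∀ k, 0 ≤ p k) (hs : HasSum p 1) (k0 : ℕ) (hk0 : 1 ≤ k0)
    (hpk : 0 < p k0) (hsum : Summable (fun k => p k ^ 2 * β k)) :
    ∃ M, Bd β (cx (PowerSeries.mk p)) M := by
  obtain ⟨φ, h1, h2, h3⟩ := sym_nonneg p hp hs k0 hk0 hpk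
  apply hZ _ φ h1 h2 h3
  convert hsum using 2 with k
  rw [cx_coeff1, PowerSeries.coeff_mk, Complex.norm_real, Real.norm_eq_abs, sq_abs]

/-- subexponential growth -/
lemma PZ.step (hZ : PZ β) (hβ : ∀ n, 0 < β n) : ∃ M : ℝ, 1 ≤ M ∧ ∀ n k : ℕ,
    ((n.choose k : ℝ) / 2 ^ n) ^ 2 * β (n + k) ≤ M * β n := by
  set p : ℕ → ℝ := fun k => if k = 1 then 1 / 2 else if k = 2 then 1 / 2 else 0 with hp
  have hp0 : ∀ k, k ∉ ({1, 2} : Finset ℕ) → p k = 0 := by
    intro k hk
    simp only [Finset.mem_insert, Finset.mem_singleton, not_or] at hk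
    rw [hp]; simp only
    rw [if_neg hk.1, if_neg hk.2]
  have hs : HasSum p 1 := by
    have h1 : ∑ k ∈ ({1, 2} : Finset ℕ), p k = 1 := by
      rw [Finset.sum_pair (by norm_num), hp]
      norm_num
    rw [← h1]
    exact hasSum_sum_of_ne_finset_zero hp0
  obtain ⟨M, hM⟩ := hZ.nonneg p (fun k => by rw [hp]; simp only; split_ifs <;> norm_num) hs 1 le_rfl
    (by rw [hp]; norm_num) (by
      apply summable_of_ne_finset_zero (s := ({1, 2} : Finset ℕ))
      intro k hk
      rw [hp0 k hk]; simp)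
  refine ⟨M, hM.one_le hβ, ?_⟩
  intro n k
  have h1 := hM.entry hβ n (n + k)
  have hP : PowerSeries.mk p = PowerSeries.C (1 / 2 : ℝ) * (PowerSeries.X * (1 + PowerSeries.X)) := by
    ext j
    rw [PowerSeries.coeff_mk, PowerSeries.coeff_C_mul]
    rcases j with _ | j
    · simp [hp]
    · rw [mul_comm PowerSeries.X, PowerSeries.coeff_succ_mul_X, map_add, PowerSeries.coeff_one,
        PowerSeries.coeff_X]
      rcases j with _ | j
      · simp [hp]
      · rcases j with _ | j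
        · simp [hp]
        · simp [hp]
  have h2 : PowerSeries.coeff (n + k) (PowerSeries.mk p ^ n) = (n.choose k : ℝ) / 2 ^ n := by
    rw [hP, mul_pow, mul_pow, ← map_pow, PowerSeries.coeff_C_mul, add_comm n k,
      PowerSeries.coeff_X_pow_mul]
    have h3 : (1 + PowerSeries.X : PowerSeries ℝ) ^ n = (((1 + Polynomial.X : Polynomial ℝ) ^ n : Polynomial ℝ) : PowerSeries ℝ) := by
      simp
    rw [h3, Polynomial.coeff_coe, Polynomial.coeff_one_add_X_pow]
    rw [one_div, inv_pow]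
    ring
  rw [h2] at h1
  exact h1

end

end Pool.Agent.Helper76.Zp
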